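import Pool.Agent.MP_b8a826_gt.Mg.KSide2

-- part MP_b8a826_gt.Ends
section

/-! The two ends of the complement. -/

namespace Pool.Agent.MP_b8a826_gt
open Set unitInterval

variable {A : C(Circle × I, S3 × I)}

theorem Ends_norm (y : S3) {t : ℝ} (ht : 0 < t) : ‖t • y.1‖ = t := by
  rw [norm_smul, norm_eq_of_mem_sphere, mul_one, Real.norm_of_nonneg ht.le]

theorem Ends_inj {y y' : S3} {t t' : ℝ} (ht : 0 < t) (ht' : 0 < t') (h : t • y.1 = t' • y'.1) :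
    y = y' ∧ t = t' := by
  obtain rfl : t = t' := by rw [← Ends_norm y ht, h, Ends_norm y' ht']
  exact ⟨Subtype.ext (smul_right_injective _ ht.ne' h), rfl⟩

open Classical in
/-- The direction of a vector. -/
noncomputable def Ends_dir (x : E4) : S3 :=
  if h : x = 0 then ⟨_, (NormedSpace.sphere_nonempty.2 zero_le_one).some_mem⟩
  else ⟨‖x‖⁻¹ • x, by simp [norm_smul, h]⟩

theorem Ends_dir_smul {x : E4} (h : x ≠ 0) : ‖x‖ • (Ends_dir x).1 = x := by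
  simp [Ends_dir, h, smul_smul]

/-- Polar coordinates. -/
noncomputable def Ends_pol : OpenPartialHomeomorph (S3 × ℝ) E4 where
  toFun p := p.2 • p.1.1
  invFun x := (Ends_dir x, ‖x‖)
  source := {p | 0 < p.2}
  target := {0}ᶜ
  map_source' p hp := fun h => by
    have := Ends_norm p.1 hp
    rw [mem_singleton_iff.1 h, norm_zero] at this
    exact hp.ne this
  map_target' x hx := norm_pos_iff.2 hx
  left_inv' p hp := by
    have h := Ends_norm p.1 hp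
    have h0 : p.2 • p.1.1 ≠ 0 := norm_pos_iff.1 (h.symm ▸ hp)
    exact Prod.ext (Ends_inj (norm_pos_iff.2 h0) hp (Ends_dir_smul h0)).1 h
  right_inv' x hx := Ends_dir_smul hx
  open_source := isOpen_lt continuous_const continuous_snd
  open_target := isOpen_compl_singleton
  continuousOn_toFun := by fun_prop
  continuousOn_invFun := by
    refine ContinuousOn.prodMk ?_ continuous_norm.continuousOn
    rw [Topology.IsInducing.subtypeVal.continuousOn_iff]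
    refine ContinuousOn.congr (f := fun x : E4 => ‖x‖⁻¹ • x)
      ((continuous_norm.continuousOn.inv₀ fun x hx => norm_ne_zero_iff.2 hx).smul
        continuousOn_id) fun x hx => ?_
    have hx' : x ≠ 0 := hx
    simp [Ends_dir, hx']

theorem zero_notMem_WA : (0 : E4) ∉ WA A := by
  rintro ⟨y, t, ht, h, -⟩
  have := Ends_norm y ht
  rw [← h, norm_zero] at this
  exact ht.ne this

theorem mem_WA (y : S3) {t : ℝ} (ht : 0 < t) :
    t • y.1 ∈ WA A ↔ (y, projIcc 0 1 zero_le_one (t - 1)) ∉ range A := by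
  refine ⟨?_, fun h => ⟨y, t, ht, rfl, h⟩⟩
  rintro ⟨y', t', ht', h, h'⟩
  obtain ⟨rfl, rfl⟩ := Ends_inj ht ht' h
  exact h'

theorem open_WA : IsOpen (WA A) := by
  have h1 : IsOpen {p : S3 × ℝ | 0 < p.2 ∧ (p.1, projIcc 0 1 zero_le_one (p.2 - 1)) ∉ range A} :=
    (isOpen_lt continuous_const continuous_snd).inter
      ((isCompact_range A.continuous).isClosed.isOpen_compl.preimage
        (continuous_fst.prodMk (continuous_projIcc.comp (by fun_prop))))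
  convert Ends_pol.isOpen_image_of_subset_source h1 fun p hp => hp.1
  ext x
  exact ⟨fun ⟨y, t, h1, h2, h3⟩ => ⟨(y, t), ⟨h1, h3⟩, h2.symm⟩,
    fun ⟨p, ⟨h1, h3⟩, h2⟩ => ⟨p.1, p.2, h1, h2.symm, h3⟩⟩

theorem endAt_zero (hA : Conc A) : EndAt (WA A) (range fun θ => (A (θ, 0)).1) 1 (1 / 2) := by
  intro x t ht h
  rw [mem_WA x ht, projIcc_of_le_left _ (by linarith), not_iff_not]
  constructor
  · rintro ⟨⟨θ, u⟩, e⟩
    obtain rfl : u = 0 := (hA.p0 θ u).1 (by rw [e]; rfl)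
    exact ⟨θ, congrArg Prod.fst e⟩
  · rintro ⟨θ, e⟩
    exact ⟨(θ, 0), Prod.ext e ((hA.p0 θ 0).2 rfl)⟩

theorem endAt_one (hA : Conc A) : EndAt (WA A) (range fun θ => (A (θ, 1)).1) (-1) (5 / 2) := by
  intro x t ht h
  rw [mem_WA x ht, projIcc_of_right_le _ (by linarith), not_iff_not]
  constructor
  · rintro ⟨⟨θ, u⟩, e⟩
    obtain rfl : u = 1 := (hA.p1 θ u).1 (by rw [e]; rfl)
    exact ⟨θ, congrArg Prod.fst e⟩
  · rintro ⟨θ, e⟩
    exact ⟨(θ, 1), Prod.ext e ((hA.p1 θ 1).2 rfl)⟩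

/-- Rearranged coordinates. -/
noncomputable def Ends_sw (r : ℝ) : ((ℝ × ℝ) × ℂ) ≃ₜ ((ℝ × ℂ) × ℝ) where
  toFun v := ((v.1.1, v.2), r + v.1.2 / 4)
  invFun w := ((w.1.1, 4 * (w.2 - r)), w.1.2)
  left_inv v := by ext <;> simp; ring
  right_inv w := by ext <;> simp
  continuous_toFun := by fun_prop
  continuous_invFun := by fun_prop

theorem chart_end {W : Set E4} {K : Set S3} {s r : ℝ} (hs : s = 1 ∨ s = -1) (hr : 1 / 2 ≤ r)
    (hE : EndAt W K s r) {Θ : OpenPartialHomeomorph (ℝ × ℂ) S3} (hΘ : Chart K Θ) :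
    ∃ Φ : OpenPartialHomeomorph ((ℝ × ℝ) × ℂ) E4, Chart Wᶜ Φ ∧
      ∀ z, Φ (0, z) = r • (Θ (0, z)).1 := by
  let Φ : OpenPartialHomeomorph ((ℝ × ℝ) × ℂ) E4 := (Ends_sw r).toOpenPartialHomeomorph.trans
    ((Θ.prod (OpenPartialHomeomorph.ofSet (Ioo (r - 1 / 2) (r + 1 / 2)) isOpen_Ioo)).trans Ends_pol)
  have hs' : ∀ v, v ∈ Φ.source ↔ ((v.1.1, v.2) ∈ Θ.source ∧
      r + v.1.2 / 4 ∈ Ioo (r - 1 / 2) (r + 1 / 2)) ∧ 0 < r + v.1.2 / 4 := fun v => by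
    simp [Φ, Ends_sw, Ends_pol]
  have hv : ∀ v, Φ v = (r + v.1.2 / 4) • (Θ (v.1.1, v.2)).1 := fun v => rfl
  refine ⟨Φ, ⟨fun v hv => ?_, fun v hv' => ?_⟩, fun z => by simp [hv]⟩
  · simp only [mem_closedBall_zero_iff, Prod.norm_def, max_le_iff, Real.norm_eq_abs, abs_le] at hv
    refine (hs' v).2 ⟨⟨hΘ.1 ?_, by linarith [hv.1.2.1], by linarith [hv.1.2.2]⟩,
      by linarith [hv.1.2.1]⟩
    simp only [mem_closedBall_zero_iff, Prod.norm_def, max_le_iff, Real.norm_eq_abs, abs_le]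
    exact ⟨hv.1.1, hv.2⟩
  · obtain ⟨⟨h2, h3, h4⟩, h5⟩ := (hs' v).1 hv'
    rw [hv, mem_compl_iff, hE _ _ h5 (by rcases hs with rfl | rfl <;> linarith), not_not]
    exact hΘ.2 _ h2

theorem mer_end {W : Set E4} {K : Set S3} {s r : ℝ} (hs : s = 1 ∨ s = -1) (hr : 1 / 2 ≤ r)
    (hE : EndAt W K s r) (hM : Mer W) {τ : E4 → E4 → MZ} (hτ : Coc W τ) (h1 : H1 W τ)
    {Θ : OpenPartialHomeomorph (ℝ × ℂ) S3} (hΘ : Chart K Θ) :
    Gen (hol (lev r τ) (circ fun θ => Θ (0, θ))) := by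
  obtain ⟨Φ, h2, h3⟩ := chart_end hs hr hE hΘ
  have := hM τ hτ h1 Φ h2
  simp only [h3] at this
  exact this

/-- A chart in the solid torus gives a chart in the sphere. -/
theorem chart_map {e : Circle × ℂ → S3} (he : Topology.IsOpenEmbedding e) {K : Set (Circle × ℂ)}
    {Θ : OpenPartialHomeomorph (ℝ × ℂ) (Circle × ℂ)} (hΘ : Chart K Θ) :
    ∃ Θ' : OpenPartialHomeomorph (ℝ × ℂ) S3, Chart (e '' K) Θ' ∧ ∀ v, Θ' v = e (Θ v) := by
  refine ⟨Θ.trans (he.toOpenPartialHomeomorph e), ⟨fun v hv => ⟨hΘ.1 hv, trivial⟩,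
    fun v hv => ?_⟩, fun v => rfl⟩
  exact (he.injective.mem_set_image).trans (hΘ.2 v hv.1)

/-- The core of the solid torus has the standard chart. -/
theorem chart_core : ∃ Θ : OpenPartialHomeomorph (ℝ × ℂ) (Circle × ℂ),
    Chart (range fun θ => (θ, 0)) Θ ∧ ∀ z, Θ (0, z) = (1, z) := by
  have hi : InjOn Circle.exp (Ioo (-2) 2) := (Circle.exp_injOn_Icc (a := -2) (b := 2)
    (by linarith [Real.pi_gt_three])).mono Ioo_subset_Icc_self
  let φ : OpenPartialHomeomorph ℝ Circle := .ofContinuousOpen (hi.toPartialEquiv _ _)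
    Circle.exp.continuous.continuousOn isLocalHomeomorph_circleExp.isOpenMap isOpen_Ioo
  refine ⟨φ.prod (.refl ℂ), ⟨fun v hv => ⟨?_, trivial⟩, fun v _ => ?_⟩, fun z => ?_⟩
  · simp only [mem_closedBall_zero_iff, Prod.norm_def, max_le_iff, Real.norm_eq_abs, abs_le] at hv
    exact ⟨by linarith [hv.1.1], by linarith [hv.1.2]⟩
  · exact ⟨fun ⟨θ, h⟩ => (congrArg Prod.snd h).symm, fun h => ⟨φ v.1, Prod.ext rfl h.symm⟩⟩
  · exact Prod.ext Circle.exp_zero rfl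

theorem OO_sub {W : Set E4} {K : Set S3} {s r : ℝ} (hs : s = 1 ∨ s = -1) (hr : 1 / 2 ≤ r)
    (hE : EndAt W K s r) (β : ℝ → S3) : OO K β r ⊆ W := by
  rintro _ ⟨y, t, ht, hy, -, rfl⟩
  rw [abs_lt] at ht
  exact (hE y t (by linarith [ht.1])
    (by rcases hs with rfl | rfl <;> linarith [ht.1, ht.2])).2 hy

theorem OO_open {K : Set S3} (hK : IsClosed K) {r : ℝ} (hr : 1 / 2 ≤ r) {β : ℝ → S3}
    (hb : Continuous β) (hp : ∀ t, β (t + 1) = β t) : IsOpen (OO K β r) := by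
  have hc : IsCompact (range β) :=
    Function.Periodic.compact_of_continuous (c := 1) hp one_ne_zero hb
  have h1 : IsOpen {p : S3 × ℝ | |p.2 - r| < 1 / 4 ∧ p.1 ∉ K ∧ p.1 ∉ range β} :=
    (isOpen_lt (f := fun p : S3 × ℝ => |p.2 - r|) (by fun_prop) continuous_const).inter
      ((hK.isOpen_compl.preimage continuous_fst).inter
        (hc.isClosed.isOpen_compl.preimage continuous_fst))
  convert Ends_pol.isOpen_image_of_subset_source h1 fun p hp =>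
    (show 0 < p.2 by linarith [(abs_lt.1 hp.1).1])
  ext x
  exact ⟨fun ⟨y, t, h1, h2, h3, h4⟩ => ⟨(y, t), ⟨h1, h2, h3⟩, h4.symm⟩,
    fun ⟨p, ⟨h1, h2, h3⟩, h4⟩ => ⟨p.1, p.2, h1, h2, h3, h4.symm⟩⟩

end Pool.Agent.MP_b8a826_gt

end

-- part MP_b8a826_gt.Mach1
section

/-! Subdivision of lists of points by acyclic carriers. -/

namespace Pool.Agent.MP_b8a826_gt
open Set Metric

section Rec
variable {R : Type} [CommRing R] {V W : Type}

/-- Levels of a recursion on the length of a list. -/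
noncomputable def machLv (F : List V → Ch R W → Ch R W) : ℕ → Ch R V →ₗ[R] Ch R W
  | 0 => 0
  | n + 1 => ev fun l => F l (machLv F n (bd (sg R l)))

theorem mach_rec (F : List V → Ch R W → Ch R W) :
    ∃ T : Ch R V →ₗ[R] Ch R W, ∀ l, T (sg R l) = F l (T (bd (sg R l))) := by
  refine ⟨ev fun l => machLv F (l.length + 1) (sg R l), fun l => ?_⟩
  rw [ev_sg, machLv, ev_sg]
  congr 1
  rcases l with _ | ⟨v, l⟩
  · simp
  · exact C_ext (fun l' h _ => by rw [ev_sg, h]; rfl) (bd_sg_mem (R := R) (v :: l))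

theorem mach_cone_cyc (v : V) {c : Ch R V} (h : bd c = 0) : bd (cone v c) = c := by
  rw [bd_cone, h, map_zero, sub_zero]

end Rec

variable {E : Type} [NormedAddCommGroup E] [NormedSpace ℝ E] {G : Type} [Group G]
  {R : Type} [CommRing R]

/-- Sets of diameter at most `d`. -/
def Sm (d : ℝ) (s : Set E) : Prop := ∀ x ∈ s, ∀ y ∈ s, dist x y ≤ d

omit [NormedSpace ℝ E] in
theorem her_Sm (d : ℝ) : Her (Sm (E := E) d) := fun _ _ h h' x hx y hy => h' x (h hx) y (h hy)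

omit [NormedSpace ℝ E] in
theorem Sm.mono {d d' : ℝ} {s : Set E} (h : Sm d s) (hd : d ≤ d') : Sm d' s :=
  fun x hx y hy => (h x hx y hy).trans hd

theorem Sm.hull {d : ℝ} {s : Set E} (h : Sm d s) : Sm d (convexHull ℝ s) := fun x hx y hy => by
  obtain ⟨a, ha, b, hb, e⟩ := convexHull_exists_dist_ge2 hx hy
  exact e.trans (h a ha b hb)

theorem mach_her_and {V : Type} {K K' : Set V → Prop} (h : Her K) (h' : Her K') :
    Her fun s => K s ∧ K' s := fun s t e ht => ⟨h s t e ht.1, h' s t e ht.2⟩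

theorem mach_line {x y x₀ : E} {a b d ρ η : ℝ} (ha : a ∈ Icc (0 : ℝ) 1) (hab : |a - b| ≤ η)
    (hd : dist x y ≤ d) (hρ : ‖x₀ - y‖ ≤ ρ) :
    dist (x + a • (x₀ - x)) (y + b • (x₀ - y)) ≤ d + η * ρ := by
  have e : x + a • (x₀ - x) - (y + b • (x₀ - y)) = (1 - a) • (x - y) + (a - b) • (x₀ - y) := by
    module
  rw [dist_eq_norm] at hd ⊢
  rw [e]
  refine (norm_add_le _ _).trans (add_le_add ?_ ?_)
  · rw [norm_smul, Real.norm_of_nonneg (sub_nonneg.2 ha.2)]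
    nlinarith [norm_nonneg (x - y), ha.1]
  · rw [norm_smul, Real.norm_eq_abs]
    exact mul_le_mul hab hρ (norm_nonneg _) ((abs_nonneg _).trans hab)

theorem mach_frac {j N : ℕ} (h : j ≤ N) : (j : ℝ) / N ∈ Icc (0 : ℝ) 1 :=
  ⟨by positivity, div_le_one_of_le₀ (by exact_mod_cast h) (by positivity)⟩

theorem mach_frac_abs (j N : ℕ) : |(j : ℝ) / N - ((j + 1 : ℕ) : ℝ) / N| = 1 / N := by
  rw [← sub_div, abs_div, Nat.abs_cast]
  simp

/-- A cycle of small lists in a bounded convex set bounds a chain of slightly larger lists. -/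
theorem mach_fill {Q : Set E} (hQ : Convex ℝ Q) (hb : Bornology.IsBounded Q) {x₀ : E}
    (hx : x₀ ∈ Q) {d e : ℝ} (hd : 0 ≤ d) (he : 0 < e) {n : ℕ} {z : Ch R E}
    (hz : z ∈ C R (fun s => s ⊆ Q ∧ Sm d s) n) (h0 : bd z = 0) :
    ∃ w ∈ C R (fun s => s ⊆ Q ∧ Sm (d + e) s) (n + 1), bd w = z := by
  obtain ⟨ρ, hρ0, hρ⟩ := hb.subset_closedBall_lt 0 x₀
  obtain ⟨N, hN⟩ := exists_nat_gt (ρ / e)
  have hN0 : (0 : ℝ) < N := lt_trans (by positivity) hN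
  have hN1 : 1 / (N : ℝ) * ρ ≤ e := by
    rw [div_lt_iff₀ he] at hN
    rw [one_div, inv_mul_le_iff₀ hN0]
    exact hN.le
  obtain ⟨D, hD, hD'⟩ := contig (R := R) (fun (j : ℕ) (x : E) => x + ((j : ℝ) / N) • (x₀ - x)) N
  have h1 := hD z
  simp only [div_self hN0.ne', one_smul, add_sub_cancel, Nat.cast_zero, zero_div, zero_smul,
    add_zero, h0, map_zero] at h1
  rw [show (fun x : E => x) = id from rfl, mp_id] at h1
  refine ⟨cone x₀ (mp (fun _ => x₀) z) - D z, sub_mem ?_ ?_, ?_⟩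
  · refine cone_mem (K := (· ⊆ {x₀})) (fun s hs => ?_) (mp_mem (fun s _ => by simp) hz)
    have : insert x₀ s ⊆ {x₀} := insert_subset rfl hs
    refine ⟨this.trans (singleton_subset_iff.2 hx), fun a ha b hb => ?_⟩
    rw [this ha, this hb, dist_self]
    positivity
  · refine hD' _ _ (mach_her_and (her_sub Q) (her_Sm _)) (fun j hj s hs => ?_) n z hz
    have key : ∀ y ∈ (fun x => x + ((j : ℝ) / N) • (x₀ - x)) '' s ∪
        (fun x => x + (((j + 1 : ℕ) : ℝ) / N) • (x₀ - x)) '' s, ∃ x ∈ s, ∃ a ∈ Icc (0 : ℝ) 1,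
        (a = (j : ℝ) / N ∨ a = ((j + 1 : ℕ) : ℝ) / N) ∧ y = x + a • (x₀ - x) := by
      rintro _ (⟨x, hx, rfl⟩ | ⟨x, hx, rfl⟩)
      · exact ⟨x, hx, _, mach_frac hj.le, Or.inl rfl, rfl⟩
      · exact ⟨x, hx, _, mach_frac hj, Or.inr rfl, rfl⟩
    refine ⟨fun y hy => ?_, fun y hy y' hy' => ?_⟩
    · obtain ⟨x, hxs, a, ha, -, rfl⟩ := key y hy
      exact hQ.add_smul_sub_mem (hs.1 hxs) hx ha
    · obtain ⟨x, hxs, a, ha, ea, rfl⟩ := key y hy
      obtain ⟨x', hxs', b, -, eb, rfl⟩ := key y' hy'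
      refine (mach_line (η := 1 / N) (ρ := ρ) ha ?_ (hs.2 x hxs x' hxs') ?_).trans (by linarith)
      · have := mach_frac_abs j N
        rcases ea with rfl | rfl <;> rcases eb with rfl | rfl
        · simp
        · exact this.le
        · rw [abs_sub_comm]; exact this.le
        · simp
      · rw [← dist_eq_norm, dist_comm]
        exact hρ (hs.1 hxs')
  · rw [map_sub, mach_cone_cyc _ (by rw [bd_mp, h0, map_zero]), h1, sub_sub_cancel]

/-- The subdivision homotopy on lists of points. -/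
theorem mach_base (R E : Type) [CommRing R] [NormedAddCommGroup E] [NormedSpace ℝ E] {e : ℝ}
    (he : 0 < e) : ∃ T : Ch R E →ₗ[R] Ch R E, ∀ l : List E,
      T (sg R l) ∈ C R (· ⊆ convexHull ℝ {x | x ∈ l}) (l.length + 1) ∧
      sg R l - bd (T (sg R l)) - T (bd (sg R l)) ∈
        C R (fun s => s ⊆ convexHull ℝ {x | x ∈ l} ∧ Sm (l.length * e) s) l.length ∧
      (l.length ≤ 1 → T (sg R l) = 0) := by
  classical
  let P : List E → Ch R E → Ch R E → Prop := fun l p u =>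
    u ∈ C R (· ⊆ convexHull ℝ {x | x ∈ l}) (l.length + 1) ∧
      sg R l - bd u - p ∈
        C R (fun s => s ⊆ convexHull ℝ {x | x ∈ l} ∧ Sm (l.length * e) s) l.length ∧
      (l.length ≤ 1 → u = 0)
  obtain ⟨T, hT⟩ := mach_rec (R := R) fun l p => if h : ∃ u, P l p u then h.choose else 0
  refine ⟨T, fun l => ?_⟩
  change P l (T (bd (sg R l))) (T (sg R l))
  induction hn : l.length using Nat.strong_induction_on generalizing l with
  | _ n ih =>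
  suffices h : ∃ u, P l (T (bd (sg R l))) u by
    rw [hT, dif_pos h]
    exact h.choose_spec
  have hl : {x | x ∈ l} ⊆ convexHull ℝ {x | x ∈ l} := subset_convexHull ℝ _
  rcases l with _ | ⟨x, _ | ⟨y, l⟩⟩
  · refine ⟨0, zero_mem _, ?_, fun _ => rfl⟩
    simp only [bd_nil, map_zero, sub_zero]
    exact sg_mem rfl ⟨hl, by simp [Sm]⟩
  · refine ⟨0, zero_mem _, ?_, fun _ => rfl⟩
    rw [bd1, (ih 0 (by simp [← hn]) [] rfl).2.2 (by simp), map_zero, sub_zero, sub_zero]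
    exact sg_mem rfl ⟨hl, by simp [Sm, he.le]⟩
  · set L := x :: y :: l with hL
    set Q := convexHull ℝ {x | x ∈ L}
    have hc : bd (sg R L) ∈ C R (· ⊆ {x | x ∈ L}) (l.length + 1) := bd_sg_mem L
    have ih' : ∀ l' : List E, l'.length = l.length + 1 → P l' (T (bd (sg R l'))) (T (sg R l')) :=
      fun l' h => ih _ (by rw [← hn, hL]; simp) l' h
    have h1 : T (bd (sg R L)) ∈ C R (· ⊆ Q) (l.length + 2) :=
      C_map T _ (fun l' h hs => by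
        have := (ih' l' h).1
        rw [h] at this
        exact C_mono (fun s h' => h'.trans (convexHull_mono hs)) this) hc
    have h2 := C_map (LinearMap.id - bd ∘ₗ T - T ∘ₗ bd)
      (C R (fun s => s ⊆ Q ∧ Sm ((l.length + 1 : ℕ) * e) s) (l.length + 1)) (fun l' h hs => by
        have := (ih' l' h).2.1
        rw [h] at this
        exact C_mono (fun s h' => ⟨h'.1.trans (convexHull_mono hs), h'.2⟩) this) hc
    simp only [LinearMap.sub_apply, LinearMap.id_apply, LinearMap.comp_apply, bd_bd, map_zero,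
      sub_zero] at h2
    have hx : x ∈ Q := hl (by simp [hL])
    obtain ⟨w, hw, hw'⟩ := mach_fill (convex_convexHull ℝ _)
      (isBounded_convexHull.2 (List.finite_toSet L).isBounded) hx (by positivity) he h2 (by simp)
    refine ⟨cone x (sg R L - T (bd (sg R L)) - w), cone_mem (K := (· ⊆ Q)) (K' := (· ⊆ Q))
      (fun s hs => insert_subset hx hs) (sub_mem (sub_mem (sg_mem rfl hl) h1)
        (C_mono (fun s hs => hs.1) hw)), ?_, fun h => by simp [hL] at h⟩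
    rw [mach_cone_cyc _ (by rw [map_sub, map_sub, hw', sub_self]),
      show sg R L - (sg R L - T (bd (sg R L)) - w) - T (bd (sg R L)) = w by abel]
    refine C_mono (fun s hs => ⟨hs.1, hs.2.mono (le_of_eq ?_)⟩) hw
    simp only [hL, List.length_cons]
    push_cast
    ring

/-- The local section of the covering through `v`. -/
def machLift (φ : E → E → G) (v : E × G) : E → E × G := fun y => (y, v.2 * φ v.1 y)

theorem Coc.cvx {U Q : Set E} {φ : E → E → G} (h : Coc U φ) (hQ : Convex ℝ Q) (hU : Q ⊆ U)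
    {x y z : E} (hx : x ∈ Q) (hy : y ∈ Q) (hz : z ∈ Q) : φ x y * φ y z = φ x z :=
  h x y z ((convexHull_min (by simp [insert_subset_iff, hx, hy, hz]) hQ).trans hU)

/-- Points of one local section over a convex set form an admissible set. -/
theorem mach_ad {U Q : Set E} {φ : E → E → G} (h : Coc U φ) (hQ : Convex ℝ Q) (hU : Q ⊆ U)
    {v : E × G} (hv : v.1 ∈ Q) {s : Set (E × G)} (hs : ∀ w ∈ s, w.1 ∈ Q ∧ w.2 = v.2 * φ v.1 w.1) :
    Ad φ (· ⊆ Q) s := by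
  refine ⟨convexHull_min ?_ hQ, fun a ha b hb => ?_⟩
  · rintro _ ⟨w, hw, rfl⟩
    exact (hs w hw).1
  · rw [(hs a ha).2, (hs b hb).2, mul_assoc, h.cvx hQ hU hv (hs a ha).1 (hs b hb).1]

/-- The lift of an operator on lists of points. -/
noncomputable def machUp (φ : E → E → G) (T : Ch R E →ₗ[R] Ch R E) :
    Ch R (E × G) →ₗ[R] Ch R (E × G) :=
  ev fun l => match l with
    | [] => 0
    | v :: l => mp (machLift φ v) (T (sg R ((v :: l).map Prod.fst)))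

omit [NormedAddCommGroup E] [NormedSpace ℝ E] in
theorem machUp_act (φ : E → E → G) (T : Ch R E →ₗ[R] Ch R E) (γ : G) (c : Ch R (E × G)) :
    machUp φ T (act γ c) = act γ (machUp φ T c) := by
  refine ch_ext (f := machUp φ T ∘ₗ act γ) (g := act γ ∘ₗ machUp φ T) (fun l => ?_) c
  rcases l with _ | ⟨v, l⟩
  · simp [machUp, act]
  · simp only [machUp, act, LinearMap.comp_apply, mp_sg, ev_sg, List.map_cons, mp_mp,
      List.map_map]
    congr 2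
    ext y <;> simp [machLift, mul_assoc]

theorem machUp_eq {U Q : Set E} {φ : E → E → G} (h : Coc U φ) (hQ : Convex ℝ Q) (hU : Q ⊆ U)
    {T : Ch R E →ₗ[R] Ch R E} (h0 : T (sg R []) = 0)
    (hT : ∀ l : List E, T (sg R l) ∈ C R (· ⊆ convexHull ℝ {x | x ∈ l}) (l.length + 1))
    {v : E × G} (hv : v.1 ∈ Q) {n : ℕ} {c : Ch R (E × G)}
    (hc : c ∈ C R (fun s => ∀ w ∈ s, w.1 ∈ Q ∧ w.2 = v.2 * φ v.1 w.1) n) :
    machUp φ T c = mp (machLift φ v) (T (mp Prod.fst c)) ∧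
      c = mp (machLift φ v) (mp Prod.fst c) := by
  constructor
  · refine C_ext (g := mp (machLift φ v) ∘ₗ T ∘ₗ mp Prod.fst) (fun l _ hl => ?_) hc
    rcases l with _ | ⟨w, l⟩
    · simp [machUp, h0]
    · simp only [machUp, ev_sg, LinearMap.comp_apply, mp_sg]
      refine mp_congr (fun s hs y hy => ?_) (hT _)
      have hy' : y ∈ Q := by
        refine convexHull_min ?_ hQ (hs hy)
        rw [set_map]
        rintro _ ⟨a, ha, rfl⟩
        exact (hl a ha).1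
      have hw := hl w (by simp)
      simp only [machLift, hw.2, mul_assoc, h.cvx hQ hU hv hw.1 hy']
  · rw [mp_mp]
    refine (mp_id c).symm.trans (mp_congr (fun s hs w hw => ?_) hc)
    simp only [machLift, id, Function.comp, ← (hs w hw).2]

theorem mach_sd (R : Type) [CommRing R] {φ : E → E → G} {U : Set E} (hφ : Coc U φ) {ε : ℝ}
    (hε : 0 < ε) (N : ℕ) : ∃ T : Ch R (E × G) →ₗ[R] Ch R (E × G),
    (∀ γ c, T (act γ c) = act γ (T c)) ∧ (∀ l : List (E × G), l.length ≤ 1 → T (sg R l) = 0) ∧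
    ∀ l : List (E × G), l ≠ [] → Ad φ (· ⊆ U) {v | v ∈ l} →
      T (sg R l) ∈ C R (Ad φ (· ⊆ convexHull ℝ (Prod.fst '' {v | v ∈ l}))) (l.length + 1) ∧
      sg R l - bd (T (sg R l)) - T (bd (sg R l)) ∈
        C R (Ad φ fun s => s ⊆ convexHull ℝ (Prod.fst '' {v | v ∈ l}) ∧
          (l.length ≤ N → Sm ε s)) l.length := by
  obtain ⟨T, hT⟩ := mach_base R E (e := ε / (N + 1)) (by positivity)
  refine ⟨machUp φ T, machUp_act φ T, fun l hl => ?_, fun l hl ha => ?_⟩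
  · rcases l with _ | ⟨v, l⟩
    · simp [machUp]
    · simp only [machUp, ev_sg]
      rw [(hT _).2.2 (by simpa using hl), map_zero]
  obtain ⟨v, l, rfl⟩ := List.exists_cons_of_ne_nil hl
  set L := v :: l with hL
  set Q := convexHull ℝ (Prod.fst '' {v | v ∈ L})
  have hQ : Convex ℝ Q := convex_convexHull ℝ _
  have hs : ∀ w ∈ {v | v ∈ L}, w.1 ∈ Q ∧ w.2 = v.2 * φ v.1 w.1 := fun w hw =>
    ⟨subset_convexHull ℝ _ ⟨w, hw, rfl⟩, ha.2 v (by simp [hL]) w hw⟩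
  have hv : v.1 ∈ Q := (hs v (by simp [hL])).1
  have h0 := (hT []).2.2 (by simp)
  obtain ⟨e1, e2⟩ := machUp_eq hφ hQ ha.1 h0 (fun l => (hT l).1) hv (sg_mem (R := R) rfl hs)
  obtain ⟨e3, -⟩ := machUp_eq hφ hQ ha.1 h0 (fun l => (hT l).1) hv
    (C_mono (fun s h w hw => hs w (h hw)) (bd_sg_mem (R := R) L))
  have hA : ∀ s ⊆ Q, Ad φ (· ⊆ Q) (machLift φ v '' s) := fun s h =>
    mach_ad hφ hQ ha.1 hv (by rintro _ ⟨y, hy, rfl⟩; exact ⟨h hy, rfl⟩)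
  obtain ⟨h1, h2, -⟩ := hT (L.map Prod.fst)
  rw [set_map, List.length_map] at h1 h2
  constructor
  · rw [e1, mp_sg]
    exact mp_mem hA h1
  · rw [e1, e3, ← bd_mp, bd_mp (machLift φ v)]
    nth_rewrite 1 [e2]
    rw [← map_sub, ← map_sub, mp_sg]
    refine mp_mem (fun s h => ⟨⟨(hA s h.1).1, fun hN => ?_⟩, (hA s h.1).2⟩) h2
    rw [image_image]
    refine (h.2.mono ?_).hull.mono le_rfl |> fun h' => by simpa [machLift] using h'
    rw [mul_div_assoc', div_le_iff₀ (by positivity), mul_comm]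
    have : (L.length : ℝ) ≤ N := by exact_mod_cast hN
    gcongr
    linarith

end Pool.Agent.MP_b8a826_gt

end

-- part MP_b8a826_gt.Mach
section

/-! Subdivision and homotopy invariance. -/

namespace Pool.Agent.MP_b8a826_gt
open Set

variable {E : Type} [NormedAddCommGroup E] [NormedSpace ℝ E] {G : Type} [Group G]

/-- Equivariant subdivision down to mesh `ε` for lists of length at most `N`. -/
theorem exists_sd (R : Type) [CommRing R] {φ : E → E → G} {U : Set E} (hφ : Coc U φ) {ε : ℝ}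
    (hε : 0 < ε) (N : ℕ) : ∃ S T : Ch R (E × G) →ₗ[R] Ch R (E × G),
    (∀ γ c, S (act γ c) = act γ (S c)) ∧ (∀ γ c, T (act γ c) = act γ (T c)) ∧
    (∀ v : E × G, v.1 ∈ U → S (sg R [v]) = sg R [v]) ∧ S (sg R []) = sg R [] ∧
    (∀ n, ∀ c ∈ CC R φ U n, bd (T c) + T (bd c) = c - S c) ∧
    ∀ g : Set E → Prop, Her g → (∀ s, g s → s ⊆ U) → ∀ n, ∀ c ∈ C R (Ad φ g) n,
      T c ∈ C R (Ad φ g) (n + 1) ∧ S c ∈ C R (Ad φ g) n ∧
      (n ≤ N → S c ∈ C R (Ad φ fun s => ∀ x ∈ s, ∀ y ∈ s, dist x y ≤ ε) n) := by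
  obtain ⟨T, h1, h2, h3⟩ := mach_sd R hφ hε N
  have h0 := h2 [] (by simp)
  refine ⟨LinearMap.id - bd ∘ₗ T - T ∘ₗ bd, T, fun γ c => by simp [h1, bd_act], h1,
    fun v _ => by simp [h2 [v] (by simp), bd1, h0], by simp [h0], fun n c _ => by simp; abel,
    fun g hg hU n c hc => ⟨C_map _ _ (fun l hl ha => ?_) hc, C_map _ _ (fun l hl ha => ?_) hc,
      fun hN => C_map _ _ (fun l hl ha => ?_) hc⟩⟩
  · by_cases e : l = []
    · rw [e, h0]; exact zero_mem _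
    · exact hl ▸ C_mono (Ad.mono fun s hs => hg _ _ hs ha.1) (h3 l e (ha.mono hU)).1
  · by_cases e : l = []
    · subst e
      simpa [h0] using sg_mem hl ha
    · exact hl ▸ C_mono (Ad.mono fun s hs => hg _ _ hs.1 ha.1) (h3 l e (ha.mono hU)).2
  · by_cases e : l = []
    · subst e
      simpa [h0] using sg_mem hl (by simp [Ad])
    · exact hl ▸ C_mono (Ad.mono fun s hs => hs.2 (hl ▸ hN)) (h3 l e (ha.mono hU)).2

variable {R : Type} [CommRing R]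

theorem mach_cpt {φ : E → E → G} {U : Set E} {n : ℕ} {c : Ch R (E × G)} (hc : c ∈ CC R φ U n) :
    ∃ K, IsCompact K ∧ K ⊆ U ∧ c ∈ CC R φ K n := by
  refine ⟨⋃ l ∈ c.support, convexHull ℝ (Prod.fst '' {v | v ∈ l}),
    c.support.isCompact_biUnion fun l _ => ((List.finite_toSet l).image _).isCompact_convexHull ℝ,
    iUnion₂_subset fun l hl => (mem_C.1 hc l (Finsupp.mem_support_iff.1 hl)).2.1,
    mem_C.2 fun l hl => ⟨(mem_C.1 hc l hl).1, ?_, (mem_C.1 hc l hl).2.2⟩⟩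
  exact subset_biUnion_of_mem (u := fun l : List (E × G) => convexHull ℝ (Prod.fst '' {v | v ∈ l}))
    (Finsupp.mem_support_iff.2 hl)

omit [NormedSpace ℝ E] in
theorem mach_leb {K : Set E} (hK : IsCompact K) {g : Set E → Prop} (hg : ∀ x ∈ K, Loc g x) :
    ∃ ε > 0, ∀ s ⊆ K, s.Nonempty → Sm ε s → g s := by
  choose! r hr hr' using hg
  obtain ⟨δ, hδ, h⟩ := lebesgue_number_lemma_of_metric (c := fun x : K => Metric.ball x.1 (r x)) hK
    (fun _ => Metric.isOpen_ball) fun x hx => mem_iUnion.2 ⟨⟨x, hx⟩, Metric.mem_ball_self (hr x hx)⟩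
  refine ⟨δ / 2, half_pos hδ, fun s hs ⟨x, hx⟩ hd => ?_⟩
  obtain ⟨i, hi⟩ := h x (hs hx)
  exact hr' i i.2 s fun y hy => hi ((hd y hy x hx).trans_lt (half_lt_self hδ))

theorem mach_ne {V : Type} {K K' : Set V → Prop} (h : ∀ s, s.Nonempty → K s → K' s) {n : ℕ}
    {c : Ch R V} (hc : c ∈ C R K (n + 1)) : c ∈ C R K' (n + 1) :=
  mem_C.2 fun l hl => ⟨(mem_C.1 hc l hl).1, by
    obtain ⟨v, l, rfl⟩ := List.exists_cons_of_length_eq_add_one (mem_C.1 hc l hl).1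
    exact h _ ⟨v, by simp⟩ (mem_C.1 hc _ hl).2⟩

theorem mach_ne_ad {φ : E → E → G} {g g' : Set E → Prop} (h : ∀ s, s.Nonempty → g s → g' s) {n : ℕ}
    {c : Ch R (E × G)} (hc : c ∈ C R (Ad φ g) (n + 1)) : c ∈ C R (Ad φ g') (n + 1) :=
  mach_ne (fun _ hs ha => ⟨h _ ((hs.image _).mono (subset_convexHull ℝ _)) ha.1, ha.2⟩) hc

/-- Subdivision in the form used below. -/
theorem mach_small (R : Type) [CommRing R] {φ : E → E → G} {U : Set E} (hφ : Coc U φ) {ε : ℝ}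
    (hε : 0 < ε) (N : ℕ) : ∃ S T : Ch R (E × G) →ₗ[R] Ch R (E × G),
    (∀ n, ∀ c ∈ CC R φ U n, c = S c + bd (T c) + T (bd c)) ∧
    ∀ g : Set E → Prop, Her g → (∀ s, g s → s ⊆ U) → ∀ n, ∀ c ∈ C R (Ad φ g) n,
      T c ∈ C R (Ad φ g) (n + 1) ∧ (n ≤ N → S c ∈ C R (Ad φ fun s => g s ∧ Sm ε s) n) := by
  obtain ⟨S, T, -, -, -, -, h1, h2⟩ := exists_sd R hφ hε N
  refine ⟨S, T, fun n c hc => ?_, fun g hg hU n c hc => ⟨(h2 g hg hU n c hc).1, fun hN => ?_⟩⟩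
  · rw [add_assoc, h1 n c hc, add_sub_cancel]
  · exact C_mono (fun s hs => ⟨⟨hs.1.1, hs.2.1⟩, hs.1.2⟩)
      (C_and (h2 g hg hU n c hc).2.1 ((h2 g hg hU n c hc).2.2 hN))

/-- Chains can be made small relative to their boundary. -/
theorem refine {φ : E → E → G} {U : Set E} (hφ : Coc U φ) {g g₀ : Set E → Prop}
    (hg : ∀ x ∈ U, Loc g x) (hg₀ : Her g₀) (hU : ∀ s, g₀ s → s ⊆ U) {n : ℕ} {c : Ch R (E × G)}
    (hc : c ∈ CC R φ U (n + 1)) (hb : bd c ∈ C R (Ad φ g₀) n) :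
    ∃ c' ∈ C R (Ad φ fun s => s ⊆ U ∧ g s) (n + 1), ∃ d ∈ CC R φ U (n + 2),
      ∃ e ∈ C R (Ad φ g₀) (n + 1), c = c' + bd d + e := by
  obtain ⟨K, hK, hKU, hcK⟩ := mach_cpt hc
  obtain ⟨ε, hε, h⟩ := mach_leb hK fun x hx => hg x (hKU hx)
  obtain ⟨S, T, h1, h2⟩ := mach_small R hφ hε (n + 1)
  exact ⟨S c, mach_ne_ad (fun s hs hs' => ⟨hs'.1.trans hKU, h s hs'.1 hs hs'.2⟩)
    ((h2 _ (her_sub K) (fun s hs => hs.trans hKU) _ c hcK).2 le_rfl), T c,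
    (h2 _ (her_sub U) (fun _ h => h) _ c hc).1, T (bd c), (h2 _ hg₀ hU _ _ hb).1, h1 _ c hc⟩

/-- Moving the vertices of an admissible family inside a convex set. -/
theorem mach_step {V : Type} {φ : E → E → G} {U Q : Set E} (hφ : Coc U φ) (hQ : Convex ℝ Q)
    (hU : Q ⊆ U) {a b : V → E × G} {s : Set V} (hs : s.Nonempty)
    (ha : ∀ v ∈ s, ∀ w ∈ s, (a w).2 = (a v).2 * φ (a v).1 (a w).1)
    (hb : ∀ v ∈ s, (b v).2 = (a v).2 * φ (a v).1 (b v).1) (ha' : ∀ v ∈ s, (a v).1 ∈ Q)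
    (hb' : ∀ v ∈ s, (b v).1 ∈ Q) : Ad φ (· ⊆ Q) (a '' s ∪ b '' s) := by
  obtain ⟨v, hv⟩ := hs
  refine mach_ad hφ hQ hU (ha' v hv) ?_
  rintro _ (⟨w, hw, rfl⟩ | ⟨w, hw, rfl⟩)
  · exact ⟨ha' w hw, ha v hv w hw⟩
  · refine ⟨hb' w hw, ?_⟩
    rw [hb w hw, ha v hv w hw, mul_assoc, hφ.cvx hQ hU (ha' v hv) (ha' w hw) (hb' w hw)]

/-- The discrete lift of a homotopy. -/
def machF (φ : E → E → G) (p : ℕ → E → E) : ℕ → E × G → E × G
  | 0 => id
  | j + 1 => fun v =>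
    (p (j + 1) v.1, (machF φ p j v).2 * φ (machF φ p j v).1 (p (j + 1) v.1))

/-- A homotopy acts on small chains over a compact set. -/
theorem mach_homot (R : Type) [CommRing R] {φ : E → E → G} {W K : Set E} (hφ : Coc W φ)
    (hK : IsCompact K) {H : ℝ × E → E} (hc : ContinuousOn H (Icc 0 1 ×ˢ K))
    (h0 : ∀ x ∈ K, H (0, x) = x) {δ : ℝ} (hδ : 0 < δ) :
    ∃ ε > 0, ∃ (f : E × G → E × G) (D : Ch R (E × G) →ₗ[R] Ch R (E × G)),
      (∀ c, bd (D c) + D (bd c) = mp f c - c) ∧ (∀ v, (f v).1 = H (1, v.1)) ∧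
      ∀ A ⊆ K, ∀ O ⊆ W, (∀ t ∈ Icc (0 : ℝ) 1, ∀ x ∈ A, Metric.ball (H (t, x)) δ ⊆ O) →
        ∀ n, ∀ c ∈ C R (Ad φ fun s => s ⊆ A ∧ Sm ε s) (n + 1), D c ∈ CC R φ O (n + 2) ∧
          mp f c ∈ C R (Ad φ fun s => ∃ x ∈ A, s ⊆ Metric.ball (H (1, x)) δ) (n + 1) := by
  obtain ⟨η, hη, hu⟩ := Metric.uniformContinuousOn_iff.1
    ((isCompact_Icc.prod hK).uniformContinuousOn_of_continuous hc) δ hδ
  obtain ⟨N, hN⟩ := exists_nat_one_div_lt hη
  let p : ℕ → E → E := fun j x => H ((j : ℝ) / (N + 1 : ℕ), x)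
  obtain ⟨D, hD, hD'⟩ := contig (R := R) (machF φ p) (N + 1)
  have hN0 : ((N + 1 : ℕ) : ℝ) ≠ 0 := by positivity
  have e1 : ∀ x, p (N + 1) x = H (1, x) := fun x => by simp only [p, div_self hN0]
  have hp : ∀ j, ∀ v : E × G, v.1 ∈ K → (machF φ p j v).1 = p j v.1 := by
    rintro (_ | j) v hv
    · simp [machF, p, h0 _ hv]
    · rfl
  refine ⟨η / 2, half_pos hη, machF φ p (N + 1), D, fun c => (hD c).trans (by simp [machF]),
    fun v => e1 _, fun A hA O hO hb n c hc => ?_⟩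
  have near : ∀ s, Ad φ (fun s => s ⊆ A ∧ Sm (η / 2) s) s → ∀ v ∈ s, ∀ w ∈ s, ∀ i ≤ N + 1,
      ∀ j ≤ N + 1, |(i : ℝ) / (N + 1 : ℕ) - (j : ℝ) / (N + 1 : ℕ)| < η →
      v.1 ∈ A ∧ (machF φ p i w).1 ∈ Metric.ball (p j v.1) δ := by
    intro s hs v hv w hw i hi j hj hij
    have m : ∀ u ∈ s, u.1 ∈ convexHull ℝ (Prod.fst '' s) := fun u hu =>
      subset_convexHull ℝ _ ⟨u, hu, rfl⟩
    have hv' := hs.1.1 (m v hv)
    have hw' := hs.1.1 (m w hw)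
    refine ⟨hv', ?_⟩
    rw [hp i w (hA hw')]
    refine hu _ ⟨mach_frac hi, hA hw'⟩ _ ⟨mach_frac hj, hA hv'⟩ (max_lt hij ?_)
    exact (hs.1.2 _ (m w hw) _ (m v hv)).trans_lt (half_lt_self hη)
  have step : ∀ s, s.Nonempty → Ad φ (fun s => s ⊆ A ∧ Sm (η / 2) s) s → ∀ j < N + 1,
      (∀ v ∈ s, ∀ w ∈ s, (machF φ p j w).2 =
        (machF φ p j v).2 * φ (machF φ p j v).1 (machF φ p j w).1) →
      Ad φ (· ⊆ O) (machF φ p j '' s ∪ machF φ p (j + 1) '' s) := by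
    intro s ⟨v, hv⟩ hs j hj hl
    have h1 := fun w hw => near s hs v hv w hw j hj.le j hj.le (by simpa using hη)
    have h2 := fun w hw => near s hs v hv w hw (j + 1) hj j hj.le (by
      rw [abs_sub_comm, mach_frac_abs]; exact_mod_cast hN)
    have h3 := hb _ (mach_frac hj.le) _ (h1 v hv).1
    exact (mach_step hφ (convex_ball _ _) (h3.trans hO) ⟨v, hv⟩ hl (fun _ _ => rfl)
      (fun w hw => (h1 w hw).2) fun w hw => (h2 w hw).2).mono fun _ h => h.trans h3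
  have lab : ∀ s, s.Nonempty → Ad φ (fun s => s ⊆ A ∧ Sm (η / 2) s) s → ∀ j ≤ N + 1,
      ∀ v ∈ s, ∀ w ∈ s, (machF φ p j w).2 =
        (machF φ p j v).2 * φ (machF φ p j v).1 (machF φ p j w).1 := by
    intro s hn hs j
    induction j with
    | zero => exact fun _ => hs.2
    | succ j ih =>
      intro hj v hv w hw
      exact (step s hn hs j hj (ih (Nat.le_of_succ_le hj))).2 _ (Or.inr ⟨v, hv, rfl⟩) _
        (Or.inr ⟨w, hw, rfl⟩)
  have hc' := mach_ne (K' := fun s => s.Nonempty ∧ Ad φ (fun s => s ⊆ A ∧ Sm (η / 2) s) s)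
    (fun _ h h' => ⟨h, h'⟩) hc
  refine ⟨hD' _ _ (her_Ad (her_sub O))
    (fun j hj s hs => step s hs.1 hs.2 j hj (lab s hs.1 hs.2 j hj.le)) _ c hc',
    mp_mem (fun s hs => ⟨?_, ?_⟩) hc'⟩
  · obtain ⟨v, hv⟩ := hs.1
    have h1 := fun w hw => near s hs.2 v hv w hw _ le_rfl _ le_rfl (by simpa using hη)
    refine ⟨v.1, (h1 v hv).1, convexHull_min ?_ (convex_ball _ _)⟩
    rintro _ ⟨_, ⟨w, hw, rfl⟩, rfl⟩
    exact e1 v.1 ▸ (h1 w hw).2
  · rintro _ ⟨v, hv, rfl⟩ _ ⟨w, hw, rfl⟩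
    exact lab s hs.1 hs.2 _ le_rfl v hv w hw

omit [NormedSpace ℝ E] in
theorem mach_room {K O : Set E} (hK : IsCompact K) (hO : IsOpen O) (h : K ⊆ O) :
    ∃ δ > 0, ∀ x ∈ K, Metric.ball x δ ⊆ O := by
  obtain ⟨δ, hδ, h'⟩ := hK.exists_thickening_subset_open hO h
  exact ⟨δ, hδ, fun x hx => (Metric.ball_subset_thickening hx δ).trans h'⟩

omit [NormedSpace ℝ E] in
theorem mach_room' {K W O : Set E} (hK : IsCompact K) (hO : IsOpen O) (hW : K ⊆ W)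
    {H : ℝ × E → E} (hc : ContinuousOn H (Icc 0 1 ×ˢ W)) {J : Set ℝ} (hJ : IsCompact J)
    (hJ' : J ⊆ Icc 0 1) (hm : ∀ t ∈ J, ∀ x ∈ K, H (t, x) ∈ O) :
    ∃ δ > 0, ∀ t ∈ J, ∀ x ∈ K, Metric.ball (H (t, x)) δ ⊆ O := by
  obtain ⟨δ, hδ, h⟩ := mach_room
    ((hJ.prod hK).image_of_continuousOn (hc.mono (prod_mono hJ' hW))) hO
    (by rintro _ ⟨⟨t, x⟩, h, rfl⟩; exact hm t h.1 x h.2)
  exact ⟨δ, hδ, fun t ht x hx => h _ ⟨(t, x), ⟨ht, hx⟩, rfl⟩⟩

/-- A deformation of `W` into `U` preserving `U` makes the inclusion injective on homology. -/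
theorem inj_of_deform {φ : E → E → G} {W U : Set E} (hW : IsOpen W) (hU : IsOpen U) (hUW : U ⊆ W)
    (hφ : Coc W φ) {H : ℝ × E → E} (hc : ContinuousOn H (Icc 0 1 ×ˢ W))
    (hm : MapsTo H (Icc 0 1 ×ˢ W) W) (hm' : MapsTo H (Icc 0 1 ×ˢ U) U)
    (h01 : ∀ x ∈ W, H (0, x) = x ∧ H (1, x) ∈ U) {n : ℕ} {v : Ch R (E × G)}
    (hv : v ∈ CC R φ W (n + 2)) (hz : bd v ∈ CC R φ U (n + 1)) :
    ∃ v' ∈ CC R φ U (n + 2), bd v' = bd v := by
  obtain ⟨K₁, hK₁, hW₁, hv₁⟩ := mach_cpt hv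
  obtain ⟨K₂, hK₂, hU₂, hz₂⟩ := mach_cpt hz
  have hK := hK₁.union hK₂
  have hKW : K₁ ∪ K₂ ⊆ W := union_subset hW₁ (hU₂.trans hUW)
  obtain ⟨δ₁, hδ₁, h₁⟩ := mach_room' hK₁ hW hW₁ hc isCompact_Icc subset_rfl
    fun t ht x hx => hm ⟨ht, hW₁ hx⟩
  obtain ⟨δ₂, hδ₂, h₂⟩ := mach_room' hK₂ hU (hU₂.trans hUW) hc isCompact_Icc subset_rfl
    fun t ht x hx => hm' ⟨ht, hU₂ hx⟩
  obtain ⟨δ₃, hδ₃, h₃⟩ := mach_room' hK₁ hU hW₁ hc (isCompact_singleton (x := (1 : ℝ)))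
    (by simp) fun t ht x hx => ht ▸ (h01 x (hW₁ hx)).2
  obtain ⟨ε, hε, f, D, hD, -, h⟩ := mach_homot R hφ hK (hc.mono (prod_mono subset_rfl hKW))
    (fun x hx => (h01 x (hKW hx)).1) (lt_min hδ₁ (lt_min hδ₂ hδ₃))
  obtain ⟨S, T, hS, hT⟩ := mach_small R hφ hε (n + 2)
  obtain ⟨-, a1⟩ := hT _ (her_sub K₁) (fun s hs => hs.trans hW₁) _ v hv₁
  obtain ⟨a2, a3⟩ := hT _ (her_sub K₂) (fun s hs => hs.trans (hU₂.trans hUW)) _ _ hz₂
  obtain ⟨-, b1⟩ := h K₁ subset_union_left W subset_rfl (fun t ht x hx =>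
    (Metric.ball_subset_ball (min_le_left _ _)).trans (h₁ t ht x hx)) _ _ (a1 le_rfl)
  obtain ⟨b2, -⟩ := h K₂ subset_union_right U hUW (fun t ht x hx => (Metric.ball_subset_ball
    ((min_le_right _ _).trans (min_le_left _ _))).trans (h₂ t ht x hx)) _ _ (a3 (by omega))
  refine ⟨mp f (S v) - D (S (bd v)) + T (bd v), add_mem (sub_mem (C_mono (Ad.mono ?_) b1) b2)
    (CC_mono hU₂ a2), ?_⟩
  · rintro s ⟨x, hx, hs⟩
    exact hs.trans ((Metric.ball_subset_ball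
      ((min_le_right _ _).trans (min_le_right _ _))).trans (h₃ 1 rfl x hx))
  · have e1 := congrArg bd (hS _ v hv)
    have e2 := hS _ _ (bd_CC hv)
    have e3 := congrArg bd (hD (S v))
    simp only [map_add, map_sub, bd_bd, map_zero, add_zero, zero_add] at e1 e2 e3 ⊢
    have e4 : bd (S v) = S (bd v) := add_right_cancel (e1.symm.trans e2)
    rw [← e4, e3, sub_sub_cancel, ← e1]

/-- Finite domination: cycles are homologous to cycles with vertices over a finite set. -/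
theorem fin_dom {W : Set E} (hW : IsOpen W) (hF : FD W) : ∃ P : Finset E,
    ∀ (R G : Type) [CommRing R] [Group G] (φ : E → E → G), Coc W φ →
      ∀ n, ∀ z ∈ CC R φ W (n + 1), bd z = 0 →
        ∃ z' ∈ C R (fun s => Ad φ (· ⊆ W) s ∧ ∀ v ∈ s, v.1 ∈ P) (n + 1),
          ∃ v ∈ CC R φ W (n + 2), z = z' + bd v := by
  obtain ⟨K₀, hK₀, hW₀, H, hc, hm, h01⟩ := hF
  obtain ⟨δ₀, hδ₀, h₀⟩ := mach_room hK₀ hW hW₀
  obtain ⟨P, -, hP, hP'⟩ := finite_cover_balls_of_compact hK₀ (half_pos hδ₀)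
  have hp : ∀ x ∈ K₀, ∃ y ∈ P, dist y x < δ₀ / 2 := fun x hx => by
    simpa [dist_comm] using hP' hx
  choose! p hp hp' using hp
  refine ⟨hP.toFinset, fun R G _ _ φ hφ n z hz hb => ?_⟩
  obtain ⟨K, hK, hKW, hzK⟩ := mach_cpt hz
  obtain ⟨δ₁, hδ₁, h₁⟩ := mach_room' hK hW hKW hc isCompact_Icc subset_rfl
    fun t ht x hx => hm ⟨ht, hKW hx⟩
  obtain ⟨ε, hε, f, D, hD, hf, h⟩ := mach_homot R hφ hK (hc.mono (prod_mono subset_rfl hKW))
    (fun x hx => (h01 x (hKW hx)).1) (lt_min hδ₁ (half_pos hδ₀))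
  obtain ⟨S, T, hS, hT⟩ := mach_small R hφ hε (n + 1)
  obtain ⟨a1, a2⟩ := hT _ (her_sub K) (fun s hs => hs.trans hKW) _ z hzK
  obtain ⟨b1, b2⟩ := h K subset_rfl W subset_rfl (fun t ht x hx =>
    (Metric.ball_subset_ball (min_le_left _ _)).trans (h₁ t ht x hx)) _ _ (a2 le_rfl)
  have b3 : mp f (S z) ∈ C R (fun s => ∀ v ∈ s, v.1 ∈ K₀) (n + 1) := by
    refine mp_mem (fun s hs => ?_) (a2 le_rfl)
    rintro _ ⟨v, hv, rfl⟩
    rw [hf]
    exact (h01 _ (hKW (hs.1.1 (subset_convexHull ℝ _ ⟨v, hv, rfl⟩)))).2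
  let m : E × G → E × G := fun v => (p v.1, v.2 * φ v.1 (p v.1))
  have b4 : mp f (S z) ∈
      C R (fun s => Ad φ (· ⊆ W) (id '' s ∪ m '' s) ∧ ∀ v ∈ s, v.1 ∈ K₀) (n + 1) := by
    refine mach_ne (fun s hn ⟨⟨⟨x, hx, hs⟩, hl⟩, hs'⟩ => ⟨?_, hs'⟩) (C_and b2 b3)
    have h1 := h₀ _ (h01 x (hKW hx)).2
    have h2 : ∀ v ∈ s, dist v.1 (H (1, x)) < δ₀ / 2 := fun v hv =>
      lt_of_lt_of_le (hs (subset_convexHull ℝ _ ⟨v, hv, rfl⟩)) (min_le_right _ _)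
    refine (mach_step hφ (convex_ball _ _) h1 hn hl (fun _ _ => rfl) (fun v hv => ?_)
      fun v hv => ?_).mono fun _ h => h.trans h1
    · exact (h2 v hv).trans (half_lt_self hδ₀)
    · have := dist_triangle (p v.1) v.1 (H (1, x))
      have h3 := hp' _ (hs' v hv)
      have h4 := h2 v hv
      exact Metric.mem_ball.2 (by simp only [m]; linarith)
  have e1 := hS _ z hz
  have e0 : bd (S z) = 0 := by simpa [hb] using (congrArg bd e1).symm
  have e2 := hD (S z)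
  have e3 := bd_pr id m (mp f (S z))
  rw [hb, map_zero, add_zero] at e1
  rw [e0, map_zero, add_zero] at e2
  rw [bd_mp, e0, map_zero, map_zero, add_zero, mp_id] at e3
  refine ⟨mp m (mp f (S z)), mp_mem (fun s hs => ⟨her_Ad (her_sub W) _ _ subset_union_right hs.1,
    ?_⟩) b4, T z - D (S z) - pr id m (mp f (S z)), sub_mem (sub_mem (CC_mono hKW a1) b1)
    (pr_mem (her_Ad (her_sub W)) (fun s hs => hs.1) b4), ?_⟩
  · rintro _ ⟨v, hv, rfl⟩
    exact hP.mem_toFinset.2 (hp _ (hs.2 v hv))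
  · rw [map_sub, map_sub, e2, e3]
    nth_rewrite 1 [e1]
    abel

theorem mach_push {E' : Type} [NormedAddCommGroup E'] [NormedSpace ℝ E'] {f : E → E'}
    {g : Set E → Prop} {g' : Set E' → Prop} (hg' : Her g')
    (h : ∀ s, g s → ∃ Q, Convex ℝ Q ∧ g' Q ∧ f '' s ⊆ Q) {n : ℕ} {c : Ch R (E × Unit)}
    (hc : c ∈ C R (Ad φ1 g) n) :
    mp (fun v : E × Unit => (f v.1, v.2)) c ∈ C R (Ad φ1 g') n := by
  refine mp_mem (fun s hs => ⟨?_, fun _ _ _ _ => rfl⟩) hc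
  obtain ⟨Q, hQ, h1, h2⟩ := h _ hs.1
  refine hg' _ _ (convexHull_min ?_ hQ) h1
  rintro _ ⟨_, ⟨v, hv, rfl⟩, rfl⟩
  exact h2 ⟨v.1, subset_convexHull ℝ _ ⟨v, hv, rfl⟩, rfl⟩

omit [NormedSpace ℝ E] in
theorem mach_loc {E' : Type} [NormedAddCommGroup E'] [NormedSpace ℝ E'] {f : E → E'} {x : E}
    (hf : ContinuousAt f x) {g' : Set E' → Prop} (h : Loc g' (f x)) :
    Loc (fun s => ∃ Q, Convex ℝ Q ∧ g' Q ∧ f '' s ⊆ Q) x := by
  obtain ⟨ε, hε, h⟩ := h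
  obtain ⟨δ, hδ, h'⟩ := Metric.continuousAt_iff.1 hf ε hε
  refine ⟨δ, hδ, fun s hs => ⟨_, convex_ball _ _, h _ subset_rfl, ?_⟩⟩
  rintro _ ⟨y, hy, rfl⟩
  exact h' (hs hy)

omit [NormedSpace ℝ E] in
theorem mach_loc_open {U : Set E} (hU : IsOpen U) {x : E} (hx : x ∈ U) {g : Set E → Prop}
    (h : Loc g x) : Loc (fun s => s ⊆ U ∧ g s) x := by
  obtain ⟨ε, hε, h⟩ := h
  obtain ⟨δ, hδ, h'⟩ := Metric.isOpen_iff.1 hU x hx
  exact ⟨_, lt_min hε hδ, fun s hs =>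
    ⟨hs.trans ((Metric.ball_subset_ball (min_le_right _ _)).trans h'),
      h s (hs.trans (Metric.ball_subset_ball (min_le_left _ _)))⟩⟩

/-- Vanishing of homology passes to homotopy retracts. -/
theorem acyc_dom {E' : Type} [NormedAddCommGroup E'] [NormedSpace ℝ E'] {U : Set E} {U' : Set E'}
    (hU : IsOpen U) (hU' : IsOpen U') {f : E → E'} {g : E' → E} (hf : ContinuousOn f U)
    (hf' : MapsTo f U U') (hg : ContinuousOn g U') (hg' : MapsTo g U' U) {H : ℝ × E → E}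
    (hc : ContinuousOn H (Icc 0 1 ×ˢ U)) (hm : MapsTo H (Icc 0 1 ×ˢ U) U)
    (h01 : ∀ x ∈ U, H (0, x) = x ∧ H (1, x) = g (f x)) {n : ℕ} (h : Acyc U' n) : Acyc U n := by
  intro z hz hb
  let g' : Set E' → Prop := fun s => ∃ Q, Convex ℝ Q ∧ Q ⊆ U ∧ g '' s ⊆ Q
  have her' : Her fun s => s ⊆ U' ∧ g' s := mach_her_and (her_sub U')
    fun s t e ⟨Q, h1, h2, h3⟩ => ⟨Q, h1, h2, (image_mono e).trans h3⟩
  have loc' : ∀ y ∈ U', Loc g' y := fun y hy => by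
    obtain ⟨δ, hδ, h'⟩ := Metric.isOpen_iff.1 hU _ (hg' hy)
    exact mach_loc (hg.continuousAt (hU'.mem_nhds hy)) ⟨δ, hδ, fun s hs => hs.trans h'⟩
  have fill : ∀ y ∈ C ℤ (Ad φ1 fun s => s ⊆ U' ∧ g' s) n, bd y = 0 →
      ∃ v ∈ CB ℤ U (n + 1), bd v = mp (fun v : E' × Unit => (g v.1, v.2)) y := by
    intro y hy hy0
    obtain ⟨v, hv, rfl⟩ := h y (C_mono (Ad.mono fun _ h => h.1) hy) hy0
    obtain ⟨c, hc, d, -, e, he, rfl⟩ := refine (coc_one U') loc' her' (fun _ h => h.1) hv hy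
    refine ⟨_, mach_push (her_sub U) (fun s hs => hs.2) (add_mem hc he), ?_⟩
    simp [bd_mp]
  rcases n with _ | n
  · have e : ∀ {X Y : Type} (k : X → Y) (k' : Y → X) {K : Set X → Prop} {c : Ch ℤ X},
        c ∈ C ℤ K 0 → mp k' (mp k c) = c := fun k k' K c hc =>
      C_ext (f := mp k' ∘ₗ mp k) (g := LinearMap.id)
        (fun l hl _ => by simp [List.length_eq_zero_iff.1 hl]) hc
    obtain ⟨v, hv, hv'⟩ := fill (mp (fun v : E × Unit => (f v.1, v.2)) z)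
      (C_map _ _ (fun l hl _ => by
        rw [List.length_eq_zero_iff.1 hl, mp_sg]
        exact sg_mem rfl ⟨⟨by simp, ∅, convex_empty, by simp, by simp⟩, by simp⟩) hz)
      (by rw [bd_mp, hb, map_zero])
    exact ⟨v, hv, hv'.trans (e _ _ hz)⟩
  obtain ⟨K, hK, hKU, hzK⟩ := mach_cpt hz
  obtain ⟨ε₁, hε₁, h₁⟩ := mach_leb hK fun x hx =>
    mach_loc (hf.continuousAt (hU.mem_nhds (hKU hx)))
      (mach_loc_open hU' (hf' (hKU hx)) (loc' _ (hf' (hKU hx))))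
  obtain ⟨δ, hδ, h₂⟩ := mach_room' hK hU hKU hc isCompact_Icc subset_rfl
    fun t ht x hx => hm ⟨ht, hKU hx⟩
  obtain ⟨ε, hε, k, D, hD, hk, h₃⟩ := mach_homot ℤ (coc_one U) hK
    (hc.mono (prod_mono subset_rfl hKU)) (fun x hx => (h01 x (hKU hx)).1) hδ
  obtain ⟨S, T, hS, hT⟩ := mach_small ℤ (coc_one U) (lt_min hε₁ hε) (n + 1)
  obtain ⟨a1, a2⟩ := hT _ (her_sub K) (fun s hs => hs.trans hKU) _ z hzK
  have a3 := a2 le_rfl
  obtain ⟨b1, -⟩ := h₃ K subset_rfl U subset_rfl h₂ _ _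
    (C_mono (Ad.mono fun s hs => ⟨hs.1, hs.2.mono (min_le_right _ _)⟩) a3)
  have e1 := hS _ z hz
  have e0 : bd (S z) = 0 := by simpa [hb] using (congrArg bd e1).symm
  obtain ⟨v, hv, hv'⟩ := fill _ (mach_push her' (fun s hs => hs)
    (mach_ne_ad (fun s hn hs => h₁ s hs.1 hn (hs.2.mono (min_le_left _ _))) a3))
    (by rw [bd_mp, e0, map_zero])
  have e2 := hD (S z)
  rw [hb, map_zero, add_zero] at e1
  rw [e0, map_zero, add_zero] at e2
  have e3 : mp k (S z) = bd v := by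
    rw [hv', mp_mp]
    refine mp_congr (fun s hs w hw => ?_) a3
    refine Prod.ext ?_ rfl
    rw [hk]
    exact (h01 _ (hKU (hs.1.1 (subset_convexHull ℝ _ ⟨w, hw, rfl⟩)))).2
  refine ⟨v - D (S z) + T z, add_mem (sub_mem hv b1) (CC_mono hKU a1), ?_⟩
  rw [map_add, map_sub, e2, e3, sub_sub_cancel, ← e1]

end Pool.Agent.MP_b8a826_gt

end

-- part MP_b8a826_gt.BL1
section

/-! Cup products of coboundaries of functions, and the shuffle product of chains. -/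

namespace Pool.Agent.MP_b8a826_gt
open Set

variable {R : Type} [CommRing R] {V W V' W' : Type} {M : Type} [AddCommGroup M] [Module R M]

/-- The coefficient of the empty list. -/
noncomputable def blAu : Ch R V →ₗ[R] R := ev fun l => match l with
  | [] => 1
  | _ :: _ => 0

@[simp] theorem blAu_nil : blAu (sg R ([] : List V)) = 1 := ev_sg _ _
@[simp] theorem blAu_cons (v : V) (l : List V) : blAu (sg R (v :: l)) = 0 := ev_sg _ _

@[simp] theorem blAu_cone (v : V) (c : Ch R V) : blAu (cone v c) = 0 :=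
  ch_ext (f := blAu ∘ₗ cone v) (g := 0) (fun l => by simp) c

theorem blAu_eq {K : Set V → Prop} {n : ℕ} {c : Ch R V} (hc : c ∈ C R K (n + 1)) : blAu c = 0 :=
  C_ext (g := 0) (fun l h _ => by
    obtain ⟨v, l, rfl⟩ := List.exists_cons_of_length_eq_add_one h
    simp) hc

/-- A cochain weighted by a function of the first vertex. -/
noncomputable def blF (f : V → M) (w : Ch R V →ₗ[R] R) : Ch R V →ₗ[R] M := ev fun l => match l with
  | [] => 0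
  | v :: l => w (sg R (v :: l)) • f v

@[simp] theorem blF_nil (f : V → M) (w : Ch R V →ₗ[R] R) : blF f w (sg R []) = 0 := ev_sg _ _

theorem blF_cons (f : V → M) (w : Ch R V →ₗ[R] R) (v : V) (l : List V) :
    blF f w (sg R (v :: l)) = w (sg R (v :: l)) • f v := ev_sg _ _

theorem blF_cone (f : V → M) (w : Ch R V →ₗ[R] R) (v : V) (c : Ch R V) :
    blF f w (cone v c) = w (cone v c) • f v :=
  ch_ext (f := blF f w ∘ₗ cone v) (g := (w ∘ₗ cone v).smulRight (f v))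
    (fun l => by simp [blF_cons]) c

/-- The cup product of the coboundaries of a list of functions. -/
noncomputable def blW : List (V → R) → Ch R V →ₗ[R] R
  | [] => blAu ∘ₗ bd
  | h :: hs => blF h (blW hs) ∘ₗ bd

theorem blW_bd (hs : List (V → R)) (c : Ch R V) : blW hs (bd c) = 0 := by
  cases hs <;> simp [blW]

theorem blF_bd (f : V → M) (hs : List (V → R)) (v w : V) (l : List V) :
    blF f (blW hs) (bd (sg R (v :: w :: l))) = blW hs (sg R (w :: l)) • (f w - f v) := by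
  have : cone v (bd (sg R (w :: l))) = sg R (w :: l) - bd (sg R (v :: w :: l)) := by
    rw [bd_cons v]; abel
  rw [bd_cons v, map_sub, blF_cons, blF_cone, this, map_sub, blW_bd, sub_zero, smul_sub]

theorem blW_two (h : V → R) (hs : List (V → R)) (v w : V) (l : List V) :
    blW (h :: hs) (sg R (v :: w :: l)) = blW hs (sg R (w :: l)) * (h w - h v) :=
  blF_bd h hs v w l

theorem blW_one (h : V → R) (hs : List (V → R)) (v : V) : blW (h :: hs) (sg R [v]) = 0 := by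
  simp [blW, bd1]

/-- `f` is constant on `s`. -/
def BLc {A : Type} (f : V → A) (s : Set V) : Prop := ∀ x ∈ s, ∀ y ∈ s, f x = f y

theorem BLc.mono {A : Type} {f : V → A} {s t : Set V} (h : BLc f t) (hs : s ⊆ t) : BLc f s :=
  fun x hx y hy => h x (hs hx) y (hs hy)

theorem blW_zero {hs : List (V → R)} {l : List V} (h : ∃ k ∈ hs, BLc k {v | v ∈ l}) :
    blW hs (sg R l) = 0 := by
  induction hs generalizing l with
  | nil => simp at h
  | cons k hs ih =>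
    obtain ⟨k', hk, hc⟩ := h
    rcases l with _ | ⟨v, _ | ⟨w, l⟩⟩
    · simp [blW]
    · exact blW_one _ _ _
    · rw [blW_two]
      rcases List.mem_cons.1 hk with rfl | hk
      · rw [hc w (by simp) v (by simp), sub_self, mul_zero]
      · rw [ih ⟨k', hk, hc.mono fun x hx => List.mem_cons_of_mem _ hx⟩, zero_mul]

theorem blF_zero {f : V → M} {hs : List (V → R)} {n : ℕ} {c : Ch R V}
    (hc : c ∈ C R (fun s => (∃ k ∈ hs, BLc k s) ∨ ∀ v ∈ s, f v = 0) n) :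
    blF f (blW hs) c = 0 :=
  C_ext (g := 0) (fun l _ h => by
    rcases l with _ | ⟨v, l⟩
    · simp
    · rw [blF_cons]
      rcases h with h | h
      · simp [blW_zero h]
      · simp [h v (by simp)]) hc

theorem blF_bd_zero {f : V → M} {hs : List (V → R)} {n : ℕ} {c : Ch R V}
    (hc : c ∈ C R (fun s => (∃ k ∈ hs, BLc k s) ∨ BLc f s) n) : blF f (blW hs) (bd c) = 0 :=
  C_ext (f := blF f (blW hs) ∘ₗ bd) (g := 0) (fun l _ h => by
    rcases l with _ | ⟨v, _ | ⟨w, l⟩⟩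
    · simp
    · simp [bd1]
    · rw [LinearMap.comp_apply, blF_bd]
      rcases h with ⟨k, hk, h⟩ | h
      · simp [blW_zero ⟨k, hk, h.mono fun x hx => List.mem_cons_of_mem _ hx⟩]
      · simp [h w (by simp) v (by simp)]) hc

theorem blF_step {f : V → M} (h : V → R) (hs : List (V → R)) {n : ℕ} {c : Ch R V}
    (hc : c ∈ C R (BLc f) n) :
    blF f (blW (h :: hs)) c = blF (fun v => h v • f v) (blW hs) (bd c) :=
  C_ext (g := blF (fun v => h v • f v) (blW hs) ∘ₗ bd) (fun l _ e => by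
    rcases l with _ | ⟨v, _ | ⟨w, l⟩⟩
    · simp
    · simp [bd1, blF_cons, blW_one]
    · rw [LinearMap.comp_apply, blF_bd, blF_cons, blW_two, e w (by simp) v (by simp), ← sub_smul,
        smul_smul]) hc

theorem blF_pt (f : V → M) (v : V) : blF f (blW []) (sg R [v]) = f v := by
  simp [blF_cons, blW, bd1]

theorem blF_mp (f : V → M) (w : Ch R V →ₗ[R] R) (g : W → V) (c : Ch R W) :
    blF f w (mp g c) = blF (f ∘ g) (w ∘ₗ mp g) c :=
  ch_ext (f := blF f w ∘ₗ mp g) (fun l => by cases l <;> simp [blF_cons]) c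

theorem blW_mp (hs : List (V → R)) (g : W → V) :
    blW hs ∘ₗ mp g = blW (hs.map (· ∘ g)) := by
  induction hs with
  | nil =>
    refine LinearMap.ext fun c => ?_
    simp only [blW, List.map_nil, LinearMap.comp_apply, bd_mp]
    exact ch_ext (f := (blAu : Ch R V →ₗ[R] R) ∘ₗ mp g) (fun l => by cases l <;> simp) _
  | cons h hs ih =>
    refine LinearMap.ext fun c => ?_
    simp only [blW, List.map_cons, LinearMap.comp_apply, bd_mp, blF_mp, ih]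

theorem blF_lin {M' : Type} [AddCommGroup M'] [Module R M'] (T : M →ₗ[R] M') (f : V → M)
    (w : Ch R V →ₗ[R] R) (c : Ch R V) : blF (T ∘ f) w c = T (blF f w c) :=
  ch_ext (g := T ∘ₗ blF f w) (fun l => by cases l <;> simp [blF_cons]) c

/-- The sign operator. -/
noncomputable def blSg : Ch R V →ₗ[R] Ch R V := ev fun l => (-1 : R) ^ l.length • sg R l

@[simp] theorem blSg_sg (l : List V) : blSg (sg R l) = (-1 : R) ^ l.length • sg R l := ev_sg _ _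

theorem blSg_eq {K : Set V → Prop} {n : ℕ} {c : Ch R V} (hc : c ∈ C R K n) :
    blSg c = (-1 : R) ^ n • c :=
  C_ext (g := (-1 : R) ^ n • LinearMap.id) (fun l h _ => by simp [h]) hc

theorem blSg_cone (v : V) (c : Ch R V) : blSg (cone v c) = -cone v (blSg c) :=
  ch_ext (f := blSg ∘ₗ cone v) (g := -((cone v : Ch R V →ₗ[R] Ch R V) ∘ₗ blSg))
    (fun l => by simp [pow_succ]) c

theorem blSg_sq (c : Ch R V) : blSg (blSg c) = c :=
  ch_ext (f := blSg ∘ₗ blSg) (g := LinearMap.id) (fun l => by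
    simp [smul_smul, ← mul_pow]) c

theorem blAu_sg (c : Ch R V) : blAu (blSg c) = blAu c :=
  ch_ext (f := blAu ∘ₗ blSg) (fun l => by cases l <;> simp) c

theorem bd_blSg (c : Ch R V) : bd (blSg c) = -blSg (bd c) := by
  refine ch_ext (f := bd ∘ₗ blSg) (g := -((blSg : Ch R V →ₗ[R] Ch R V) ∘ₗ bd)) (fun l => ?_) c
  rcases l with _ | ⟨v, l⟩
  · simp
  · have := blSg_eq (bd_sg_mem (R := R) (v :: l))
    simp only [List.length_cons, Nat.add_sub_cancel] at this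
    simp [this, pow_succ]

/-- The shuffle product of two lists. -/
noncomputable def blShL (R : Type) [CommRing R] : List V → List W → Ch R (V × W)
  | [], _ => 0
  | _ :: _, [] => 0
  | x :: a, y :: b => cone (x, y) (blShL R a (y :: b) + (-1 : R) ^ a.length • blShL R (x :: a) b +
      (blAu (sg R a) * blAu (sg R b)) • sg R [])
termination_by a b => a.length + b.length

/-- The shuffle product of chains. -/
noncomputable def blSh : Ch R V →ₗ[R] Ch R W →ₗ[R] Ch R (V × W) :=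
  ev fun a => ev fun b => blShL R a b

theorem blSh_sg (a : List V) (b : List W) : blSh (sg R a) (sg R b) = blShL R a b := by
  simp [blSh]

theorem bl_ext2 {f g : Ch R V →ₗ[R] Ch R W →ₗ[R] M}
    (h : ∀ a b, f (sg R a) (sg R b) = g (sg R a) (sg R b)) (a : Ch R V) (b : Ch R W) :
    f a b = g a b := by
  rw [ch_ext (f := f) (g := g) (fun l => LinearMap.ext (ch_ext (h l))) a]

@[simp] theorem blSh_nil_left (b : Ch R W) : blSh (sg R ([] : List V)) b = 0 :=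
  ch_ext (g := 0) (fun l => by simp [blSh_sg, blShL]) b

@[simp] theorem blSh_nil_right (a : Ch R V) : blSh a (sg R ([] : List W)) = 0 :=
  ch_ext (f := blSh.flip (sg R [])) (g := 0) (fun l => by
    cases l <;> simp [blSh_sg, blShL]) a

theorem blSh_cone (x : V) (y : W) (a : Ch R V) (b : Ch R W) :
    blSh (cone x a) (cone y b) = cone (x, y) (blSh a (cone y b) + blSh (cone x (blSg a)) b +
      (blAu a * blAu b) • sg R []) := by
  induction a using ch_ind with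
  | h0 => simp
  | ha a a' h1 h2 => simp only [map_add, LinearMap.add_apply, h1, h2, add_mul, add_smul]; abel
  | hs r a =>
    induction b using ch_ind with
    | h0 => simp
    | ha b b' h1 h2 => simp only [map_add, h1, h2, mul_add, add_smul]; abel
    | hs r' b =>
      simp only [map_smul, cone_sg, LinearMap.smul_apply, blSg_sg, blSh_sg, blShL, map_add,
        smul_eq_mul]
      module

theorem bd_blSh (a : Ch R V) (b : Ch R W) : bd (blSh a b) =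
    blSh (bd a) b - blSh (blSg a) (bd b) + (blAu (bd a) * blAu (bd b)) • sg R [] := by
  have key : ∀ n (a : List V) (b : List W), a.length + b.length = n →
      bd (blSh (sg R a) (sg R b)) = blSh (bd (sg R a)) (sg R b) -
        blSh (blSg (sg R a)) (bd (sg R b)) +
        (blAu (bd (sg R a)) * blAu (bd (sg R b))) • sg R [] := by
    intro n
    induction n using Nat.strong_induction_on with
    | _ n ih =>
      rintro (_ | ⟨x, a⟩) (_ | ⟨y, b⟩) hn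
      · simp
      · simp
      · simp
      · have h1 := ih _ (by simp at hn ⊢; omega) a (y :: b) rfl
        have h2 := ih _ (by simp at hn ⊢; omega) (x :: a) b rfl
        have h3 : bd (blSh (cone x (blSg (sg R a))) (sg R b)) =
            -(blSh (bd (blSg (cone x (sg R a)))) (sg R b) - blSh (cone x (sg R a)) (bd (sg R b)) +
              (blAu (bd (blSg (cone x (sg R a)))) * blAu (bd (sg R b))) • sg R []) := by
          rw [← neg_neg (cone x _), ← blSg_cone, cone_sg, blSg_sg]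
          simp only [map_neg, map_smul, LinearMap.neg_apply, LinearMap.smul_apply, h2, blSg_sg,
            smul_eq_mul]
          have : ((-1 : R) ^ (x :: a).length) * (-1) ^ (x :: a).length = 1 := by
            rw [← mul_pow]; simp
          simp only [smul_add, smul_sub, smul_smul, this, one_smul, mul_assoc]
        rw [← cone_sg x, ← cone_sg y] at *
        generalize sg R a = a at *
        generalize sg R b = b at *
        rw [blSh_cone, bd_cone, map_add bd, map_add bd, h1, h3]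
        simp only [bd_cone, blSg_cone, map_sub, map_neg, map_add, map_smul, bd_nil, blSh_cone,
          LinearMap.sub_apply, LinearMap.neg_apply, bd_blSg, blAu_cone, blAu_sg, blSg_sq,
          map_zero]
        module
  induction a using ch_ind with
  | h0 => simp
  | ha a a' h1 h2 => simp only [map_add, LinearMap.add_apply, h1, h2, add_mul, add_smul]; abel
  | hs r a =>
    induction b using ch_ind with
    | h0 => simp
    | ha b b' h1 h2 => simp only [map_add, h1, h2, mul_add, add_smul]; abel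
    | hs r' b =>
      simp only [map_smul, LinearMap.smul_apply, key _ a b rfl, smul_eq_mul]
      module

theorem blSh_sg_mem (a : List V) (b : List W) : blSh (sg R a) (sg R b) ∈
    C R (fun u => u ⊆ {v | v ∈ a} ×ˢ {w | w ∈ b}) (a.length + b.length - 1) := by
  induction h : a.length + b.length using Nat.strong_induction_on generalizing a b with
  | _ n ih =>
    rcases a with _ | ⟨x, a⟩
    · simp
    rcases b with _ | ⟨y, b⟩
    · simp
    obtain rfl : n = a.length + b.length + 2 := by simp at h; omega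
    rw [blSh_sg, blShL, ← blSh_sg, ← blSh_sg]
    refine cone_mem (K := fun u => u ⊆ {v | v ∈ x :: a} ×ˢ {w | w ∈ y :: b})
      (K' := fun u => u ⊆ {v | v ∈ x :: a} ×ˢ {w | w ∈ y :: b})
      (n := a.length + b.length) (fun s hs => insert_subset (by simp) hs)
      (add_mem (add_mem ?_ (Submodule.smul_mem _ _ ?_)) ?_)
    · exact C_mono (fun s hs => hs.trans (prod_mono_left fun v hv => List.mem_cons_of_mem _ hv))
        (ih (a.length + b.length + 1) (by omega) a (y :: b) rfl)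
    · exact C_mono (fun s hs => hs.trans (prod_mono_right fun v hv => List.mem_cons_of_mem _ hv))
        (ih (a.length + b.length + 1) (by omega) (x :: a) b (by simp; omega))
    · rcases a with _ | ⟨x', a⟩
      · rcases b with _ | ⟨y', b⟩
        · exact Submodule.smul_mem _ _ (sg_mem rfl (by simp))
        · simp
      · simp

theorem blSh_mem {Ka : Set V → Prop} {Kb : Set W → Prop} {K : Set (V × W) → Prop}
    (h : ∀ s t, Ka s → Kb t → ∀ u ⊆ s ×ˢ t, K u) {n m : ℕ} {a : Ch R V} {b : Ch R W}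
    (ha : a ∈ C R Ka n) (hb : b ∈ C R Kb m) : blSh a b ∈ C R K (n + m - 1) :=
  C_map (blSh.flip b) _ (fun l h1 h2 => C_map (blSh (sg R l)) _ (fun l' h3 h4 => by
    rw [← h1, ← h3]
    exact C_mono (h _ _ h2 h4) (blSh_sg_mem l l')) hb) ha

theorem blSh_mp (f : V → V') (g : W → W') (a : Ch R V) (b : Ch R W) :
    blSh (mp f a) (mp g b) = mp (Prod.map f g) (blSh a b) := by
  refine bl_ext2 (f := blSh.compl₁₂ (mp f) (mp g)) (g := blSh.compr₂ (mp (Prod.map f g)))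
    (fun a b => ?_) a b
  simp only [LinearMap.compl₁₂_apply, LinearMap.compr₂_apply, mp_sg]
  induction h : a.length + b.length using Nat.strong_induction_on generalizing a b with
  | _ n ih =>
    rcases a with _ | ⟨x, a⟩
    · simp
    rcases b with _ | ⟨y, b⟩
    · simp
    have h1 := ih _ (by simp at h ⊢; omega) a (y :: b) rfl
    have h2 := ih _ (by simp at h ⊢; omega) (x :: a) b rfl
    have h3 : blAu (sg R (a.map f)) = blAu (sg R a) := by cases a <;> simp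
    have h4 : blAu (sg R (b.map g)) = blAu (sg R b) := by cases b <;> simp
    simp only [List.map_cons, blSh_sg] at h1 h2 ⊢
    simp only [blShL, mp_cone, map_add, map_smul, h1, h2, h3, h4, List.length_map, mp_sg,
      List.map_nil, Prod.map_apply]

theorem blSh_pt (x : V) (y : W) : blSh (sg R [x]) (sg R [y]) = sg R [(x, y)] := by
  simp [blSh_sg, blShL]

/-- The pairing of two chains. -/
noncomputable def blQ (f : V × W → M) (hs : List (V × W → R)) : Ch R V →ₗ[R] Ch R W →ₗ[R] M :=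
  blSh.compr₂ (blF f (blW hs))

theorem blQ_apply (f : V × W → M) (hs : List (V × W → R)) (a : Ch R V) (b : Ch R W) :
    blQ f hs a b = blF f (blW hs) (blSh a b) := rfl

@[simp] theorem blQ_nil (f : V × W → M) (hs : List (V × W → R)) (a : Ch R V) :
    blQ f hs a (sg R []) = 0 := by simp [blQ_apply]

theorem blQ_pt (f : V × W → M) (x : V) (y : W) :
    blQ f ([] : List (V × W → R)) (sg R [x]) (sg R [y]) = f (x, y) := by
  rw [blQ_apply, blSh_pt, blF_pt]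

theorem blQ_mp (f : V' × W' → M) (hs : List (V' × W' → R)) (p : V → V') (q : W → W') (a : Ch R V)
    (b : Ch R W) : blQ f hs (mp p a) (mp q b) =
      blQ (f ∘ Prod.map p q) (hs.map (· ∘ Prod.map p q)) a b := by
  rw [blQ_apply, blSh_mp, blF_mp, blW_mp, blQ_apply]

section
variable {f : V × W → M} {hs : List (V × W → R)} {Ka : Set V → Prop} {Kb : Set W → Prop} {n m : ℕ}
  {a : Ch R V} {b : Ch R W}

theorem blQ_zero (ha : a ∈ C R Ka n) (hb : b ∈ C R Kb m)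
    (h : ∀ s t, Ka s → Kb t → (∃ k ∈ hs, BLc k (s ×ˢ t)) ∨ ∀ v ∈ s ×ˢ t, f v = 0) :
    blQ f hs a b = 0 :=
  blF_zero (blSh_mem (fun s t h1 h2 _ hu => (h s t h1 h2).imp
    (fun ⟨k, hk, e⟩ => ⟨k, hk, e.mono hu⟩) fun e v hv => e v (hu hv)) ha hb)

theorem blQ_bd (f : V × W → M) (hs : List (V × W → R)) (ha : a ∈ C R Ka n) (b : Ch R W) :
    blF f (blW hs) (bd (blSh a b)) = blQ f hs (bd a) b - (-1 : R) ^ n • blQ f hs a (bd b) := by
  rw [bd_blSh, blSg_eq ha]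
  simp [blQ_apply]

theorem blQ_stokes (ha : a ∈ C R Ka n) (hb : b ∈ C R Kb m)
    (h : ∀ s t, Ka s → Kb t → (∃ k ∈ hs, BLc k (s ×ˢ t)) ∨ BLc f (s ×ˢ t)) :
    blQ f hs (bd a) b = (-1 : R) ^ n • blQ f hs a (bd b) := by
  rw [← sub_eq_zero, ← blQ_bd f hs ha]
  exact blF_bd_zero (blSh_mem (fun s t h1 h2 _ hu => (h s t h1 h2).imp
    (fun ⟨k, hk, e⟩ => ⟨k, hk, e.mono hu⟩) fun e => e.mono hu) ha hb)

theorem blQ_step (k : V × W → R) (ha : a ∈ C R Ka n) (hb : b ∈ C R Kb m)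
    (h : ∀ s t, Ka s → Kb t → BLc f (s ×ˢ t)) :
    blQ f (k :: hs) a b = blQ (fun v => k v • f v) hs (bd a) b -
      (-1 : R) ^ n • blQ (fun v => k v • f v) hs a (bd b) := by
  rw [← blQ_bd _ hs ha, blQ_apply]
  exact blF_step k hs (blSh_mem (fun s t h1 h2 _ hu => (h s t h1 h2).mono hu) ha hb)

end

end Pool.Agent.MP_b8a826_gt

end

-- part MP_b8a826_gt.BL2
section

/-! The intersection pairing of small chains in a covering. -/

namespace Pool.Agent.MP_b8a826_gt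
open Set

variable {R : Type} [CommRing R]

theorem BLc.smul {V M : Type} [AddCommGroup M] [Module R M] {k : V → R} {f : V → M} {s : Set V}
    (h : BLc k s) (h' : BLc f s) : BLc (fun v => k v • f v) s :=
  fun x hx y hy => by simp only [h x hx y hy, h' x hx y hy]

theorem blc_of {V A : Type} {k : V → A} {s : Set V} (a : A) (h : ∀ v ∈ s, k v = a) : BLc k s :=
  fun x hx y hy => by rw [h x hx, h y hy]

theorem bl_sm_prod {η : ℝ} {s t : Set ℝ} (hs : Sm η s) (ht : Sm η t) {u : Set (ℝ × ℝ)}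
    (hu : u ⊆ s ×ˢ t) : Sm η u := fun _ hx _ hy =>
  max_le (hs _ (hu hx).1 _ (hu hy).1) (ht _ (hu hx).2 _ (hu hy).2)

theorem bl_pt_mem {η c : ℝ} (hη : 0 ≤ η) : sg R [c] ∈ C R (fun s => s ⊆ {c} ∧ Sm η s) 1 :=
  sg_mem rfl ⟨fun x hx => by simpa using hx, fun x hx y hy => by
    simp only [List.mem_singleton, mem_ofPred_eq] at hx hy
    simpa [hx, hy] using hη⟩

theorem bl_sh_mem {η : ℝ} {I J : Set ℝ} {n m : ℕ} {p p' : Ch R ℝ}
    (hp : p ∈ C R (fun s => s ⊆ I ∧ Sm η s) n) (hp' : p' ∈ C R (fun s => s ⊆ J ∧ Sm η s) m) :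
    blSh p p' ∈ C R (fun s => s ⊆ I ×ˢ J ∧ Sm η s) (n + m - 1) :=
  blSh_mem (fun _ _ hs ht _ hu => ⟨hu.trans (prod_mono hs.1 ht.1), bl_sm_prod hs.2 ht.2 hu⟩) hp hp'

theorem bl_bd_sq {K : Set ℝ → Prop} {p p' : Ch R ℝ} (hp : p ∈ C R K 2) {a b c d : ℝ}
    (e : bd p = sg R [b] - sg R [a]) (e' : bd p' = sg R [d] - sg R [c]) :
    bd (blSh p p') = blSh (sg R [b]) p' - blSh (sg R [a]) p' - blSh p (sg R [d]) +
      blSh p (sg R [c]) := by
  rw [bd_blSh, blSg_eq hp, e, e']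
  simp
  abel

theorem bl_bd_row {K : Set ℝ → Prop} {p : Ch R ℝ} (hp : p ∈ C R K 2) {a b : ℝ}
    (e : bd p = sg R [b] - sg R [a]) (c : ℝ) :
    bd (blSh p (sg R [c])) = sg R [(b, c)] - sg R [(a, c)] := by
  rw [bd_blSh, blSg_eq hp, e, bd1]
  simp [blSh_pt]

/-- The local computation on the product of two squares. -/
theorem bl_box {A M : Type} [AddCommGroup M] [Module R M] {f : A × (ℝ × ℝ) → M}
    {h1 h2 h3 h4 : A × (ℝ × ℝ) → R} {K : Set A → Prop} {η : ℝ} (hη : 0 ≤ η) {I : Set ℝ} {c0 c1 : ℝ}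
    (hc0 : c0 ∈ I) (hc1 : c1 ∈ I) {p : Ch R ℝ} (hp : p ∈ C R (fun s => s ⊆ I ∧ Sm η s) 2)
    (ep : bd p = sg R [c1] - sg R [c0])
    (hf : ∀ s t, K s → t ⊆ I ×ˢ I → Sm η t → BLc f (s ×ˢ t)) {N N0 N1 N2 N3 : Set A}
    {a a0 a1 a2 a3 : Ch R A} (ha : a ∈ C R (fun s => K s ∧ s ⊆ N) 3) (ea : bd a = a0 + a1 + a2 + a3)
    (ha0 : a0 ∈ C R (fun s => K s ∧ s ⊆ N ∩ N0) 2) (ha1 : a1 ∈ C R (fun s => K s ∧ s ⊆ N ∩ N1) 2)
    (ha2 : a2 ∈ C R (fun s => K s ∧ s ⊆ N ∩ N2) 2) (ha3 : a3 ∈ C R (fun s => K s ∧ s ⊆ N ∩ N3) 2)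
    {y0 y1 : A} (e0 : bd a0 = sg R [y1] - sg R [y0]) (hy0 : y0 ∈ N3) (hy1 : y1 ∈ N ∩ N0 ∩ N1)
    (s0 : ∀ x ∈ N0, ∀ z ∈ I ×ˢ I, h1 (x, z) = 1) (s1 : ∀ x ∈ N1, ∀ z ∈ I ×ˢ I, h2 (x, z) = 1)
    (s2 : ∀ x ∈ N2, ∀ z ∈ I ×ˢ I, h1 (x, z) = 0) (s3 : ∀ x ∈ N3, ∀ z ∈ I ×ˢ I, h2 (x, z) = 0)
    (s4 : ∀ x ∈ N, ∀ d ∈ I, h3 (x, (c1, d)) = 0 ∧ h3 (x, (c0, d)) = 1 ∧
      h4 (x, (d, c1)) = 0 ∧ h4 (x, (d, c0)) = 1) :
    blQ f [h4, h3, h1, h2] a (blSh p p) = -f (y1, (c0, c0)) := by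
  have v : ∀ (f' : A × (ℝ × ℝ) → M) hs', h1 ∈ hs' → h2 ∈ hs' → ∀ (J J' : Set ℝ) m, J ⊆ I → J' ⊆ I →
      ∀ b ∈ C R (fun s => s ⊆ J ×ˢ J' ∧ Sm η s) m, blQ f' hs' (bd a) b = 0 := by
    intro f' hs' m1 m2 J J' m hJ hJ' b hb
    have i : ∀ {t}, t ⊆ J ×ˢ J' → t ⊆ I ×ˢ I := fun ht => ht.trans (prod_mono hJ hJ')
    rw [ea]
    simp only [map_add, LinearMap.add_apply]
    rw [blQ_zero ha0 hb fun s t hs ht => Or.inl ⟨_, m1, blc_of 1 fun w hw =>
        s0 _ (hs.2 hw.1).2 _ (i ht.1 hw.2)⟩,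
      blQ_zero ha1 hb fun s t hs ht => Or.inl ⟨_, m2, blc_of 1 fun w hw =>
        s1 _ (hs.2 hw.1).2 _ (i ht.1 hw.2)⟩,
      blQ_zero ha2 hb fun s t hs ht => Or.inl ⟨_, m1, blc_of 0 fun w hw =>
        s2 _ (hs.2 hw.1).2 _ (i ht.1 hw.2)⟩,
      blQ_zero ha3 hb fun s t hs ht => Or.inl ⟨_, m2, blc_of 0 fun w hw =>
        s3 _ (hs.2 hw.1).2 _ (i ht.1 hw.2)⟩]
    simp
  have i0 : ({c0} : Set ℝ) ⊆ I := singleton_subset_iff.2 hc0
  have q0 := bl_pt_mem (R := R) (c := c0) hη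
  have q1 := bl_pt_mem (R := R) (c := c1) hη
  have t3 : ∀ {s t}, s ⊆ N → t ⊆ {c0} ×ˢ I → ∀ w ∈ s ×ˢ t, h3 w = 1 := by
    rintro s t hs ht ⟨x, c, d⟩ hw
    obtain rfl : c = c0 := (ht hw.2).1
    exact (s4 x (hs hw.1) d (ht hw.2).2).2.1
  have t3' : ∀ {s t}, s ⊆ N → t ⊆ {c1} ×ˢ I → ∀ w ∈ s ×ˢ t, h3 w = 0 := by
    rintro s t hs ht ⟨x, c, d⟩ hw
    obtain rfl : c = c1 := (ht hw.2).1
    exact (s4 x (hs hw.1) d (ht hw.2).2).1
  have t4 : ∀ {s t}, s ⊆ N → t ⊆ I ×ˢ {c0} → ∀ w ∈ s ×ˢ t, h4 w = 1 := by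
    rintro s t hs ht ⟨x, c, d⟩ hw
    obtain rfl : d = c0 := (ht hw.2).2
    exact (s4 x (hs hw.1) c (ht hw.2).1).2.2.2
  have t4' : ∀ {s t}, s ⊆ N → t ⊆ I ×ˢ {c1} → ∀ w ∈ s ×ˢ t, h4 w = 0 := by
    rintro s t hs ht ⟨x, c, d⟩ hw
    obtain rfl : d = c1 := (ht hw.2).2
    exact (s4 x (hs hw.1) c (ht hw.2).1).2.2.1
  have q00 := bl_sh_mem q0 q0
  have q10 := bl_sh_mem q1 q0
  rw [blSh_pt] at q00 q10
  have b1 : ∀ s t, K s ∧ s ⊆ N → t ⊆ I ×ˢ {c0} ∧ Sm η t →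
      BLc (fun v => h4 v • f v) (s ×ˢ t) := fun s t hs ht =>
    (blc_of 1 (t4 hs.2 ht.1)).smul (hf s t hs.1 (ht.1.trans (prod_mono_right i0)) ht.2)
  have b2 : ∀ s t, K s ∧ s ⊆ N → t ⊆ {c0} ×ˢ {c0} ∧ Sm η t →
      BLc (fun v => h3 v • h4 v • f v) (s ×ˢ t) := fun s t hs ht =>
    (blc_of 1 (t3 hs.2 (ht.1.trans (prod_mono_right i0)))).smul
      (b1 s t hs ⟨ht.1.trans (prod_mono_left i0), ht.2⟩)
  have i00 : ∀ {t}, t ⊆ {c0} ×ˢ {c0} → t ⊆ I ×ˢ I := fun ht => ht.trans (prod_mono i0 i0)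
  rw [blQ_step h4 ha (bl_sh_mem hp hp) fun s t hs ht => hf s t hs.1 ht.1 ht.2,
    v _ _ (by simp) (by simp) I I _ subset_rfl subset_rfl _ (bl_sh_mem hp hp),
    bl_bd_sq hp ep ep, map_add, map_sub, map_sub,
    blQ_zero ha (bl_sh_mem q1 hp) fun s t hs ht => Or.inl ⟨h3, by simp, blc_of 0 (t3' hs.2 ht.1)⟩,
    blQ_zero ha (bl_sh_mem q0 hp) fun s t hs ht => Or.inl ⟨h3, by simp, blc_of 1 (t3 hs.2 ht.1)⟩,
    blQ_zero ha (bl_sh_mem hp q1) fun s t hs ht => Or.inr fun w hw => by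
      simp only [t4' hs.2 ht.1 w hw, zero_smul],
    blQ_step h3 ha (bl_sh_mem hp q0) b1,
    v _ _ (by simp) (by simp) I {c0} _ subset_rfl i0 _ (bl_sh_mem hp q0), bl_bd_row hp ep, map_sub,
    blQ_zero ha q10 fun s t hs ht => Or.inr fun w hw => by
      simp only [t3' hs.2 (ht.1.trans (prod_mono_right i0)) w hw, zero_smul],
    blQ_step h1 ha q00 b2, bd1, blQ_nil, ea]
  simp only [map_add, LinearMap.add_apply]
  rw [blQ_zero ha1 q00 fun s t hs ht => Or.inl ⟨h2, by simp, blc_of 1 fun w hw =>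
      s1 _ (hs.2 hw.1).2 _ (i00 ht.1 hw.2)⟩,
    blQ_zero ha3 q00 fun s t hs ht => Or.inl ⟨h2, by simp, blc_of 0 fun w hw =>
      s3 _ (hs.2 hw.1).2 _ (i00 ht.1 hw.2)⟩,
    blQ_zero ha2 q00 fun s t hs ht => Or.inr fun w hw => by
      simp only [show h1 w = 0 from s2 _ (hs.2 hw.1).2 _ (i00 ht.1 hw.2), zero_smul],
    blQ_step h2 ha0 q00 fun s t hs ht => (blc_of 1 fun w hw =>
      s0 _ (hs.2 hw.1).2 _ (i00 ht.1 hw.2)).smul
      (b2 s t ⟨hs.1, hs.2.trans inter_subset_left⟩ ht), bd1, blQ_nil, e0]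
  have z : (c0, c0) ∈ I ×ˢ I := ⟨hc0, hc0⟩
  simp [blQ_pt, s3 y0 hy0 _ z, s0 y1 hy1.1.2 _ z, s1 y1 hy1.2 _ z, (s4 y1 hy1.1.1 c0 hc0).2.1,
    (s4 y1 hy1.1.1 c0 hc0).2.2.2, pow_succ]

variable {E : Type} [NormedAddCommGroup E] [NormedSpace ℝ E] {Γ : Type} [Group Γ]

abbrev BL4 : Type := (ℝ × ℝ) × (ℝ × ℝ)

/-- The indicator function of a half-space condition on the difference of two points. -/
noncomputable def blH (R Γ : Type) [CommRing R] (k : E → ℝ) : (E × Γ) × (E × Γ) → R :=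
  fun v => if 0 < k (v.1.1 - v.2.1) then 1 else 0

/-- The relative position of two sheets. -/
noncomputable def blLab (R : Type) [CommRing R] (φ : E → E → Γ) :
    (E × Γ) × (E × Γ) → MonoidAlgebra R Γ :=
  fun v => MonoidAlgebra.of R Γ (v.1.2 * φ v.1.1 v.2.1 * v.2.2⁻¹)

/-- The four half-space conditions. -/
noncomputable def blHs (R Γ : Type) [CommRing R] (ξ : E →L[ℝ] BL4) :
    List ((E × Γ) × (E × Γ) → R) :=
  [blH R Γ fun x => (ξ x).2.2, blH R Γ fun x => (ξ x).2.1, blH R Γ fun x => (ξ x).1.1,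
    blH R Γ fun x => (ξ x).1.2]

/-- The pairing. -/
noncomputable def blP (R : Type) [CommRing R] (φ : E → E → Γ) (ξ : E →L[ℝ] BL4) :
    Ch R (E × Γ) →ₗ[R] Ch R (E × Γ) →ₗ[R] MonoidAlgebra R Γ := blQ (blLab R φ) (blHs R Γ ξ)

variable {φ : E → E → Γ} {ξ : E →L[ℝ] BL4}

theorem blP_act (γ γ' : Γ) (a b : Ch R (E × Γ)) : blP R φ ξ (act γ a) (act γ' b) =
    MonoidAlgebra.of R Γ γ * blP R φ ξ a b * MonoidAlgebra.of R Γ γ'⁻¹ := by
  have e : blLab R φ ∘ Prod.map (fun v : E × Γ => (v.1, γ * v.2)) (fun v : E × Γ => (v.1, γ' * v.2))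
      = (LinearMap.mulRight R (MonoidAlgebra.of R Γ γ'⁻¹) ∘ₗ
        LinearMap.mulLeft R (MonoidAlgebra.of R Γ γ)) ∘ blLab R φ := by
    funext v
    simp only [blLab, Function.comp, LinearMap.comp_apply, LinearMap.mulRight_apply,
      LinearMap.mulLeft_apply, ← map_mul, Prod.map, mul_inv_rev, mul_assoc]
  rw [blP, act, act, blQ_mp, e, blQ_apply, blF_lin]
  rfl

theorem blP_rho_left (r : MonoidAlgebra R Γ) (a b : Ch R (E × Γ)) :
    blP R φ ξ ((rho R E Γ).asAlgebraHom r a) b = r * blP R φ ξ a b := by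
  induction r using MonoidAlgebra.induction_linear with
  | zero => simp
  | add x y h1 h2 => simp [h1, h2, add_mul]
  | single γ r =>
    have := blP_act (φ := φ) (ξ := ξ) γ 1 a b
    rw [act_one, inv_one, map_one, mul_one] at this
    rw [Representation.asAlgebraHom_single, LinearMap.smul_apply, rho_apply, map_smul,
      LinearMap.smul_apply, this, ← smul_mul_assoc]
    simp

omit [NormedAddCommGroup E] [NormedSpace ℝ E] in
theorem bl_bar_add (x y : MonoidAlgebra R Γ) : bar (x + y) = bar x + bar y :=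
  MonoidAlgebra.mapDomain_add _ _ _

omit [NormedAddCommGroup E] [NormedSpace ℝ E] in
theorem bl_bar_single (γ : Γ) (r : R) :
    bar (MonoidAlgebra.single γ r) = MonoidAlgebra.single γ⁻¹ r :=
  MonoidAlgebra.mapDomain_single

theorem bl_bar_zero : bar (0 : MonoidAlgebra R Γ) = 0 := MonoidAlgebra.mapDomain_zero _

theorem blP_rho_right (q : MonoidAlgebra R Γ) (a b : Ch R (E × Γ)) :
    blP R φ ξ a ((rho R E Γ).asAlgebraHom q b) = blP R φ ξ a b * bar q := by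
  induction q using MonoidAlgebra.induction_linear with
  | zero => simp [bl_bar_zero]
  | add x y h1 h2 => simp [h1, h2, mul_add, bl_bar_add]
  | single γ r =>
    have := blP_act (φ := φ) (ξ := ξ) 1 γ a b
    rw [act_one, map_one, one_mul] at this
    rw [Representation.asAlgebraHom_single, LinearMap.smul_apply, rho_apply, map_smul, this,
      ← mul_smul_comm, bl_bar_single]
    simp

theorem bl_bar_comm {q : MonoidAlgebra R Γ} (hq : ∀ γ, Commute q (MonoidAlgebra.of R Γ γ)) (γ : Γ) :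
    MonoidAlgebra.of R Γ γ * bar q = bar q * MonoidAlgebra.of R Γ γ := by
  have e1 : ∀ x : MonoidAlgebra R Γ,
      bar (x * MonoidAlgebra.of R Γ γ⁻¹) = MonoidAlgebra.of R Γ γ * bar x := by
    intro x
    induction x using MonoidAlgebra.induction_linear with
    | zero => simp [bl_bar_zero]
    | add x y h1 h2 => simp only [add_mul, bl_bar_add, h1, h2, mul_add]
    | single g r => simp [MonoidAlgebra.single_mul_single, bl_bar_single]
  have e2 : ∀ x : MonoidAlgebra R Γ,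
      bar (MonoidAlgebra.of R Γ γ⁻¹ * x) = bar x * MonoidAlgebra.of R Γ γ := by
    intro x
    induction x using MonoidAlgebra.induction_linear with
    | zero => simp [bl_bar_zero]
    | add x y h1 h2 => simp only [add_mul, bl_bar_add, h1, h2, mul_add]
    | single g r => simp [MonoidAlgebra.single_mul_single, bl_bar_single]
  rw [← e1, ← e2, (hq γ⁻¹).eq]

/-- Small sets with matching labels. -/
def BLs (φ : E → E → Γ) (ε : ℝ) (s : Set (E × Γ)) : Prop :=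
  ∀ v ∈ s, ∀ w ∈ s, dist v.1 w.1 ≤ ε ∧ w.2 = v.2 * φ v.1 w.1

theorem Ad.bls {g : Set E → Prop} {ε : ℝ} {s : Set (E × Γ)}
    (h : Ad φ (fun s => g s ∧ Sm ε s) s) : BLs φ ε s := fun v hv w hw =>
  ⟨h.1.2 _ (subset_convexHull ℝ _ ⟨v, hv, rfl⟩) _ (subset_convexHull ℝ _ ⟨w, hw, rfl⟩),
    h.2 v hv w hw⟩

theorem Ad.blmem {U : Set E} {s : Set (E × Γ)} (h : Ad φ (· ⊆ U) s) {v : E × Γ} (hv : v ∈ s) :
    v.1 ∈ U := h.1 (subset_convexHull ℝ _ ⟨v, hv, rfl⟩)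

theorem bl_near1 {ε : ℝ} {s t : Set (E × Γ)} (hs : BLs φ ε s) (ht : BLs φ ε t) (k : BL4 →+ ℝ)
    (hk : ∀ z, |k z| ≤ ‖z‖) (h : ¬ BLc (blH R Γ fun x => k (ξ x)) (s ×ˢ t)) {v w : E × Γ}
    (hv : v ∈ s) (hw : w ∈ t) : |k (ξ (v.1 - w.1))| ≤ 2 * (‖ξ‖ * ε) := by
  have e : ∀ p ∈ s ×ˢ t, |k (ξ (v.1 - w.1)) - k (ξ (p.1.1 - p.2.1))| ≤ 2 * (‖ξ‖ * ε) := by
    intro p hp
    rw [← map_sub, ← map_sub]
    refine (hk _).trans ((ξ.le_opNorm _).trans ?_)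
    have : ‖v.1 - w.1 - (p.1.1 - p.2.1)‖ ≤ 2 * ε := by
      rw [sub_sub_sub_comm]
      have h1 := (hs v hv _ hp.1).1
      have h2 := (ht w hw _ hp.2).1
      rw [dist_eq_norm] at h1 h2
      linarith [norm_sub_le (v.1 - p.1.1) (w.1 - p.2.1)]
    nlinarith [norm_nonneg ξ]
  by_contra hc
  refine h ?_
  rcases lt_abs.1 (not_le.1 hc) with hc | hc
  · refine blc_of 1 fun p hp => if_pos ?_
    linarith [(abs_le.1 (e p hp)).2]
  · refine blc_of 0 fun p hp => if_neg ?_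
    linarith [(abs_le.1 (e p hp)).1]

theorem bl_near {ε : ℝ} {s t : Set (E × Γ)} (hs : BLs φ ε s) (ht : BLs φ ε t)
    (h : ¬ ∃ k ∈ blHs R Γ ξ, BLc k (s ×ˢ t)) {v w : E × Γ} (hv : v ∈ s) (hw : w ∈ t) :
    ‖ξ (v.1 - w.1)‖ ≤ 2 * (‖ξ‖ * ε) := by
  simp only [blHs, List.mem_cons, List.not_mem_nil, or_false, exists_eq_or_imp, exists_eq_left,
    not_or] at h
  refine max_le (max_le ?_ ?_) (max_le ?_ ?_)
  · exact bl_near1 hs ht ((AddMonoidHom.fst _ _).comp (AddMonoidHom.fst _ _))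
      (fun z => (norm_fst_le z.1).trans (norm_fst_le z)) h.2.2.1 hv hw
  · exact bl_near1 hs ht ((AddMonoidHom.snd _ _).comp (AddMonoidHom.fst _ _))
      (fun z => (norm_snd_le z.1).trans (norm_fst_le z)) h.2.2.2 hv hw
  · exact bl_near1 hs ht ((AddMonoidHom.fst _ _).comp (AddMonoidHom.snd _ _))
      (fun z => (norm_fst_le z.2).trans (norm_snd_le z)) h.2.1 hv hw
  · exact bl_near1 hs ht ((AddMonoidHom.snd _ _).comp (AddMonoidHom.snd _ _))
      (fun z => (norm_snd_le z.2).trans (norm_snd_le z)) h.1 hv hw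

/-- The mesh `ε` is small compared with the margin `ρ`. -/
def BLn (ξ : E →L[ℝ] BL4) (ε ρ : ℝ) : Prop := ε < ρ ∧ ∀ x, ‖ξ x‖ ≤ 2 * (‖ξ‖ * ε) → ‖x‖ < ρ

theorem exists_BLn {κ : ℝ} (hκ : ∀ x, ‖x‖ ≤ κ * ‖ξ x‖) {ρ : ℝ} (hρ : 0 < ρ) :
    ∃ ε > 0, BLn ξ ε ρ := by
  have h0 : 0 < 2 * |κ| * ‖ξ‖ + 2 := by positivity
  have h1 : ρ / (2 * |κ| * ‖ξ‖ + 2) * (2 * |κ| * ‖ξ‖ + 2) = ρ := div_mul_cancel₀ _ h0.ne'
  have h2 : 0 < ρ / (2 * |κ| * ‖ξ‖ + 2) := div_pos hρ h0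
  generalize ρ / (2 * |κ| * ‖ξ‖ + 2) = ε at h1 h2
  have h3 : 0 ≤ |κ| * ‖ξ‖ * ε := by positivity
  refine ⟨ε, h2, by linarith, fun x hx => ?_⟩
  have h4 := mul_le_mul (le_abs_self κ) hx (norm_nonneg _) (abs_nonneg κ)
  linarith [hκ x]

/-- Small sets with margin `ρ` inside `O`. -/
def BLa (φ : E → E → Γ) (ε ρ : ℝ) (O : Set E) (s : Set (E × Γ)) : Prop :=
  BLs φ ε s ∧ ∀ v ∈ s, Metric.ball v.1 ρ ⊆ O

theorem blP_far {ε ρ : ℝ} (hn : BLn ξ ε ρ) {O : Set E} {n m : ℕ} {a b : Ch R (E × Γ)}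
    (ha : a ∈ C R (BLa φ ε ρ O) n) (hb : b ∈ C R (fun t => BLs φ ε t ∧ ∀ w ∈ t, w.1 ∉ O) m) :
    blP R φ ξ a b = 0 := by
  refine blQ_zero ha hb fun s t hs ht => ?_
  by_cases h : ∃ k ∈ blHs R Γ ξ, BLc k (s ×ˢ t)
  · exact Or.inl h
  · refine Or.inr fun p hp => (ht.2 _ hp.2 (hs.2 _ hp.1 ?_)).elim
    rw [mem_ball_iff_norm']
    exact hn.2 _ (bl_near hs.1 ht.1 h hp.1 hp.2)

theorem blc_lab {U Q : Set E} (hφ : Coc U φ) (hQ : Convex ℝ Q) (hU : Q ⊆ U) {s t : Set (E × Γ)}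
    (hs : ∀ v ∈ s, v.1 ∈ Q ∧ ∀ w ∈ s, w.2 = v.2 * φ v.1 w.1)
    (ht : ∀ v ∈ t, v.1 ∈ Q ∧ ∀ w ∈ t, w.2 = v.2 * φ v.1 w.1) : BLc (blLab R φ) (s ×ˢ t) := by
  rintro ⟨x, y⟩ ⟨hx, hy⟩ ⟨x', y'⟩ ⟨hx', hy'⟩
  simp only [blLab]
  rw [(hs x hx).2 x' hx', (ht y hy).2 y' hy', mul_assoc x.2 (φ x.1 x'.1),
    hφ.cvx hQ hU (hs x hx).1 (hs x' hx').1 (ht y' hy').1,
    ← hφ.cvx hQ hU (hs x hx).1 (ht y hy).1 (ht y' hy').1]
  congr 1
  group

theorem blP_stokes {U : Set E} (hφ : Coc U φ) {ε ρ : ℝ} (hn : BLn ξ ε ρ) {n m : ℕ}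
    {a b : Ch R (E × Γ)} (ha : a ∈ C R (BLa φ ε ρ U) n) (hb : b ∈ C R (BLs φ ε) m) :
    blP R φ ξ (bd a) b = (-1 : R) ^ n • blP R φ ξ a (bd b) := by
  refine blQ_stokes ha hb fun s t hs ht => ?_
  by_cases h : ∃ k ∈ blHs R Γ ξ, BLc k (s ×ˢ t)
  · exact Or.inl h
  · rcases s.eq_empty_or_nonempty with rfl | ⟨v, hv⟩
    · exact Or.inr fun p hp => hp.1.elim
    refine Or.inr (blc_lab hφ (convex_ball v.1 ρ) (hs.2 v hv)
      (fun x hx => ⟨(hs.1 x hx v hv).1.trans_lt hn.1, fun w hw => (hs.1 x hx w hw).2⟩)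
      fun x hx => ⟨?_, fun w hw => (ht x hx w hw).2⟩)
    rw [mem_ball_iff_norm']
    exact hn.2 _ (bl_near hs.1 ht h hv hx)

end Pool.Agent.MP_b8a826_gt

end

-- part MP_b8a826_gt.BL3
section

/-! Local coordinates at the transverse point, and the radial deformation. -/

namespace Pool.Agent.MP_b8a826_gt
open Set Filter Topology

/-- The cylinder over `β`. -/
noncomputable def blG (β : ℝ → S3) (s r : ℝ) (p : ℝ × ℝ) : E4 := (r + s * p.2) • (β p.1).1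

/-- The parameter rectangle of the cylinder. -/
def BLQ : Set (ℝ × ℝ) := Icc (-(1 / 2)) (1 / 2) ×ˢ Icc (-(3 / 8)) (3 / 8)

theorem blG_cont {β : ℝ → S3} (hb : Continuous β) (s r : ℝ) : Continuous (blG β s r) := by
  unfold blG; fun_prop

theorem bl_pos {s r d : ℝ} (hs : s = 1 ∨ s = -1) (hr : 1 / 2 ≤ r) (hd : d ∈ Icc (-(3 / 8)) (3 / 8)) :
    0 < r + s * d := by
  rcases hs with rfl | rfl <;> linarith [hd.1, hd.2]

theorem blG_lev {β : ℝ → S3} {s r : ℝ} (hs : s = 1 ∨ s = -1) (hr : 1 / 2 ≤ r) {p : ℝ × ℝ}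
    (hd : p.2 ∈ Icc (-(3 / 8)) (3 / 8)) : s * (‖blG β s r p‖ - r) = p.2 := by
  rw [blG, Ends_norm _ (bl_pos hs hr hd)]
  rcases hs with rfl | rfl <;> ring

theorem bl_coord {D' : ℂ →L[ℝ] E4} {b' x₀ : E4} {s r : ℝ} (hs : s = 1 ∨ s = -1) (hr : 0 < r)
    (htv : ∀ (z : ℂ) (a : ℝ), D' z + a • b' = 0 → z = 0 ∧ a = 0) {k : E4 →L[ℝ] ℝ} (h0 : k x₀ = 1)
    (h1 : ∀ z, k (D' z) = 0) (h2 : k b' = 0) : ∃ (ξ : E4 →L[ℝ] BL4) (κ : ℝ),
    (∀ x, ‖x‖ ≤ κ * ‖ξ x‖) ∧ (∀ z : ℂ, ξ (r • D' z) = ((z.re + z.im, z.im - z.re), (0, 0))) ∧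
    ∀ p : ℝ × ℝ, ξ (r • p.1 • b' + (s * p.2) • x₀) = ((0, 0), p) := by
  let J : ℝ × ℝ →ₗ[ℝ] ℂ := (LinearMap.fst ℝ ℝ ℝ).smulRight ((1 + Complex.I) / 2) +
    (LinearMap.snd ℝ ℝ ℝ).smulRight ((-1 + Complex.I) / 2)
  let L : BL4 →ₗ[ℝ] E4 := LinearMap.coprod (r • (D' : ℂ →ₗ[ℝ] E4) ∘ₗ J)
    ((LinearMap.fst ℝ ℝ ℝ).smulRight (r • b') + (LinearMap.snd ℝ ℝ ℝ).smulRight (s • x₀))
  have hL : ∀ p : BL4, L p = r • (D' (J p.1) + p.2.1 • b') + (s * p.2.2) • x₀ := fun p => by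
    simp only [L, LinearMap.coprod_apply, LinearMap.smul_apply, LinearMap.comp_apply,
      LinearMap.add_apply, LinearMap.smulRight_apply, LinearMap.fst_apply, LinearMap.snd_apply,
      ContinuousLinearMap.coe_coe]
    module
  have hJ : ∀ a b : ℝ, (J (a, b)).re = (a - b) / 2 ∧ (J (a, b)).im = (a + b) / 2 := fun a b => by
    constructor <;> simp [J] <;> ring
  have inj : Function.Injective L := by
    refine (injective_iff_map_eq_zero L).2 ?_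
    rintro ⟨⟨a, b⟩, c, d⟩ h
    rw [hL] at h
    have e := congrArg k h
    simp only [map_add, map_smul, h0, h1, h2, smul_eq_mul, map_zero] at e
    obtain rfl : d = 0 := by rcases hs with rfl | rfl <;> linarith
    rw [mul_zero, zero_smul, add_zero, smul_eq_zero_iff_right hr.ne'] at h
    obtain ⟨e1, e2⟩ := htv _ _ h
    have := hJ a b
    rw [e1, Complex.zero_re, Complex.zero_im] at this
    simp only [Prod.mk_eq_zero, and_true]
    exact ⟨⟨by linarith [this.1, this.2], by linarith [this.1, this.2]⟩, e2⟩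
  have dim : Module.finrank ℝ BL4 = Module.finrank ℝ E4 := by
    rw [finrank_real_of_complex]; simp
  let e := (L.linearEquivOfInjective inj dim).toContinuousLinearEquiv
  have he : ∀ p, e.symm (L p) = p := fun p => e.symm_apply_apply p
  refine ⟨e.symm, ‖(e : BL4 →L[ℝ] E4)‖, fun x => ?_, fun z => ?_, fun p => ?_⟩
  · simpa using (e : BL4 →L[ℝ] E4).le_opNorm (e.symm x)
  · have : J (z.re + z.im, z.im - z.re) = z :=
      Complex.ext (by rw [(hJ _ _).1]; ring) (by rw [(hJ _ _).2]; ring)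
    rw [← he ((z.re + z.im, z.im - z.re), (0, 0)), hL, this]
    simp
  · rw [← he ((0, 0), p), hL]
    simp [show J (0, 0) = 0 from map_zero J]

theorem bl_local {K : Set S3} {D : ℂ → S3} {β : ℝ → S3} (hB : Box Subtype.val K D β) {s r : ℝ}
    (hs : s = 1 ∨ s = -1) (hr : 1 / 2 ≤ r) {O : Set E4} (hO : O ∈ 𝓝 (r • (β 0).1)) :
    ∃ (ξ : E4 →L[ℝ] BL4) (κ δ : ℝ), 0 < δ ∧ δ ≤ 1 / 8 ∧ (∀ x, ‖x‖ ≤ κ * ‖ξ x‖) ∧
      (∀ x, ‖ξ (x - r • (β 0).1)‖ ≤ 4 * δ → x ∈ O) ∧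
      (∀ z : ℂ, ‖z‖ ≤ δ →
        ‖ξ (r • (D z).1 - r • (β 0).1) - ((z.re + z.im, z.im - z.re), (0, 0))‖ ≤ δ / 10) ∧
      (∀ p : ℝ × ℝ, ‖p‖ ≤ 3 * δ → ‖ξ (blG β s r p - r • (β 0).1) - ((0, 0), p)‖ ≤ 3 * δ / 10) ∧
      ∀ p ∈ BLQ, 3 * δ ≤ ‖p‖ → 5 * δ / 2 ≤ ‖ξ (blG β s r p - r • (β 0).1)‖ := by
  obtain ⟨D', b', hD, hb, htv⟩ := hB.tv
  obtain ⟨k, hk, hk0⟩ := exists_dual_vector ℝ (β 0).1 (by simp)
  have hk0' : k (β 0).1 = 1 := by simpa using hk0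
  have hle : ∀ y : S3, k y.1 ≤ k (β 0).1 := fun y => by
    have := k.le_opNorm y.1
    rw [hk, norm_eq_of_mem_sphere, mul_one] at this
    rw [hk0']
    exact (le_abs_self _).trans this
  have h1 : k.comp D' = 0 := IsLocalMax.hasFDerivAt_eq_zero (f := k ∘ Subtype.val ∘ D)
    (Eventually.of_forall fun z => by simpa [← hB.zero] using hle (D z))
    (k.hasFDerivAt.comp 0 hD)
  have h2 : k b' = 0 := IsLocalMax.hasDerivAt_eq_zero (f := k ∘ Subtype.val ∘ β)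
    (Eventually.of_forall fun z => by simpa using hle (β z))
    (k.hasFDerivAt.comp_hasDerivAt 0 hb)
  obtain ⟨ξ, κ, hκ, e1, e2⟩ := bl_coord hs (by linarith : 0 < r) htv hk0'
    (fun z => congrArg (· z) h1) h2
  have d1 := ((ξ.hasFDerivAt.comp 0 (hD.const_smul r)).isLittleO.def
    (by norm_num : (0 : ℝ) < 1 / 10))
  have hb' : HasFDerivAt (Subtype.val ∘ β) (ContinuousLinearMap.toSpanSingleton ℝ b')
      ((0 : ℝ × ℝ).1) := hb.hasFDerivAt
  have d2 := (ξ.hasFDerivAt.comp (0 : ℝ × ℝ)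
    ((((hasFDerivAt_snd (𝕜 := ℝ) (p := (0 : ℝ × ℝ))).const_mul s).const_add r).smul
      (hb'.comp (0 : ℝ × ℝ) hasFDerivAt_fst))).isLittleO.def (by norm_num : (0 : ℝ) < 1 / 10)
  obtain ⟨a, ha, d1⟩ := Metric.eventually_nhds_iff.1 d1
  obtain ⟨b, hb0, d2⟩ := Metric.eventually_nhds_iff.1 d2
  have d3 : ∀ p : ℝ × ℝ, ‖p‖ < b →
      ‖ξ (blG β s r p - r • (β 0).1) - ((0, 0), p)‖ ≤ 1 / 10 * ‖p‖ := fun p hp => by
    have := d2 (y := p) (by simpa using hp)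
    rw [← e2 p]
    simpa [blG, map_sub] using this
  have hT : IsCompact (BLQ ∩ {p | b ≤ ‖p‖}) :=
    (isCompact_Icc.prod isCompact_Icc).inter_right (isClosed_le continuous_const continuous_norm)
  have hG := blG_cont hB.cb s r
  obtain ⟨c, hc, d4⟩ := hT.exists_forall_le' (f := fun p => ‖ξ (blG β s r p - r • (β 0).1)‖)
    (by fun_prop) (a := 0) fun p hp => by
      refine norm_pos_iff.2 fun h => ?_
      have := hκ (blG β s r p - r • (β 0).1)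
      rw [h, norm_zero, mul_zero, norm_le_zero_iff, sub_eq_zero] at this
      obtain ⟨e3, e4⟩ := Ends_inj (bl_pos hs hr hp.1.2) (by linarith) this
      have e5 : p.2 = 0 := by rcases hs with rfl | rfl <;> linarith
      have e6 : p.1 = 0 := by
        rcases lt_trichotomy p.1 0 with h | h | h
        · exact (hB.ne (p.1 + 1) ⟨by linarith [hp.1.1.1], by linarith⟩
            ((hB.per _).trans e3)).elim
        · exact h
        · exact (hB.ne p.1 ⟨h, by linarith [hp.1.1.2]⟩ e3).elim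
      have e7 : b ≤ ‖p‖ := hp.2
      rw [show p = 0 from Prod.ext e6 e5, norm_zero] at e7
      linarith
  obtain ⟨ρ, hρ, hO⟩ := Metric.mem_nhds_iff.1 hO
  have ev : ∀ᶠ δ in 𝓝 (0 : ℝ), δ < 1 / 8 ∧ δ < a ∧ 3 * δ < b ∧ 3 * δ < c ∧ |κ| * (4 * δ) < ρ := by
    refine (gt_mem_nhds (by norm_num) : ∀ᶠ δ in 𝓝 (0 : ℝ), δ < 1 / 8).and
      ((gt_mem_nhds ha : ∀ᶠ δ in 𝓝 (0 : ℝ), δ < a).and (Eventually.and ?_ (Eventually.and ?_ ?_))) <;>
    exact ContinuousAt.eventually_lt (by fun_prop) (by fun_prop) (by simpa)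
  obtain ⟨δ, ⟨a1, a2, a3, a4, a5⟩, hδ⟩ :=
    ((ev.filter_mono nhdsWithin_le_nhds).and (self_mem_nhdsWithin (s := Ioi 0))).exists
  have hδ : 0 < δ := hδ
  refine ⟨ξ, κ, δ, hδ, a1.le, hκ, fun x hx => hO ?_, fun z hz => ?_, fun p hp => ?_,
    fun p hp hp' => ?_⟩
  · rw [mem_ball_iff_norm]
    exact ((hκ _).trans (mul_le_mul (le_abs_self κ) hx (norm_nonneg _) (abs_nonneg _))).trans_lt a5
  · have := d1 (y := z) (by simpa using hz.trans_lt a2)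
    rw [← e1 z, hB.zero]
    refine le_trans ?_ (by linarith : 1 / 10 * ‖z‖ ≤ δ / 10)
    simpa [map_sub] using this
  · linarith [d3 p (hp.trans_lt a3)]
  · rcases lt_or_ge ‖p‖ b with h | h
    · have h3 := d3 p h
      have h4 := norm_sub_norm_le (((0, 0), p) : BL4) (ξ (blG β s r p - r • (β 0).1))
      have h5 : ‖p‖ ≤ ‖(((0, 0), p) : BL4)‖ := norm_snd_le (((0, 0), p) : BL4)
      rw [norm_sub_rev] at h4
      linarith
    · linarith [d4 p ⟨hp, h⟩]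

/-- The part of `W` beyond level `c`. -/
def BLU (W : Set E4) (s r c : ℝ) : Set E4 := W ∩ {x | c < s * (‖x‖ - r)}

theorem BLU_open {W : Set E4} (hW : IsOpen W) (s r c : ℝ) : IsOpen (BLU W s r c) :=
  hW.inter (isOpen_lt continuous_const (by fun_prop))

/-- Chains are pushed away from the end. -/
theorem bl_push {R : Type} [CommRing R] {Γ : Type} [Group Γ] {W : Set E4} (hW : IsOpen W)
    (h0 : (0 : E4) ∉ W) {K : Set S3} {s r : ℝ} (hs : s = 1 ∨ s = -1) (hr : 1 / 2 ≤ r)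
    (hE : EndAt W K s r) {φ : E4 → E4 → Γ} (hφ : Coc W φ) {c : ℝ} (hc : c < 3 / 8) {n : ℕ}
    {v : Ch R (E4 × Γ)} (hv : v ∈ CC R φ W (n + 2)) (hz : bd v ∈ CC R φ (BLU W s r c) (n + 1)) :
    ∃ v' ∈ CC R φ (BLU W s r c) (n + 2), bd v' = bd v := by
  let t : ℝ × E4 → ℝ := fun p => ‖p.2‖ + p.1 * (s * max (3 / 8 - s * (‖p.2‖ - r)) 0)
  have ne : ∀ x ∈ W, x ≠ 0 := fun x hx h => h0 (h ▸ hx)
  have key : ∀ p ∈ Icc (0 : ℝ) 1 ×ˢ W, (t p * ‖p.2‖⁻¹) • p.2 ∈ W ∧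
      s * (‖(t p * ‖p.2‖⁻¹) • p.2‖ - r) =
        s * (‖p.2‖ - r) + p.1 * max (3 / 8 - s * (‖p.2‖ - r)) 0 := by
    rintro ⟨σ, x⟩ ⟨hσ, hx⟩
    have hx0 : 0 < ‖x‖ := norm_pos_iff.2 (ne x hx)
    have e : (t (σ, x) * ‖x‖⁻¹) • x = t (σ, x) • (Ends_dir x).1 := by
      nth_rewrite 3 [← Ends_dir_smul (ne x hx)]
      rw [smul_smul, inv_mul_cancel_right₀ hx0.ne']
    have h1 := hσ.1
    have h2 := hσ.2
    simp only at h1 h2 ⊢
    rcases le_total (3 / 8 - s * (‖x‖ - r)) 0 with h | h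
    · simp [t, max_eq_right h, mul_inv_cancel₀ hx0.ne', show x ∈ W from hx]
    · have e1 : s * (t (σ, x) - r) = s * (‖x‖ - r) + σ * (3 / 8 - s * (‖x‖ - r)) := by
        simp only [t, max_eq_left h]
        rcases hs with rfl | rfl <;> ring
      have e2 : 0 < t (σ, x) := by
        have : t (σ, x) = (1 - σ) * ‖x‖ + σ * (r + s * (3 / 8)) := by
          simp only [t, max_eq_left h]
          rcases hs with rfl | rfl <;> ring
        have h3 : 0 < r + s * (3 / 8) := bl_pos hs hr ⟨by norm_num, le_rfl⟩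
        rw [this]
        rcases h1.eq_or_lt with rfl | h1
        · simpa using hx0
        · exact add_pos_of_nonneg_of_pos (mul_nonneg (by linarith) hx0.le) (mul_pos h1 h3)
      rw [e, Ends_norm _ e2, max_eq_left h]
      refine ⟨(hE _ _ e2 (by nlinarith)).2 ((hE _ _ hx0 (by linarith)).1 ?_), e1⟩
      rw [Ends_dir_smul (ne x hx)]
      exact hx
  refine inj_of_deform hW (BLU_open hW s r c) inter_subset_left hφ
    (H := fun p => (t p * ‖p.2‖⁻¹) • p.2) ?_ (fun p hp => (key p hp).1)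
    (fun p hp => ⟨(key p ⟨hp.1, hp.2.1⟩).1, ?_⟩) (fun x hx => ⟨?_, (key (1, x) ⟨by simp, hx⟩).1, ?_⟩)
    hv hz
  · refine ContinuousOn.smul (ContinuousOn.mul (by fun_prop) (ContinuousOn.inv₀ (by fun_prop)
      fun p hp => norm_ne_zero_iff.2 (ne _ hp.2))) (by fun_prop)
  · have h1 : c < s * (‖p.2‖ - r) := hp.2.2
    have h2 := mul_nonneg hp.1.1 (le_max_right (3 / 8 - s * (‖p.2‖ - r)) 0)
    rw [mem_ofPred_eq, (key p ⟨hp.1, hp.2.1⟩).2]
    linarith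
  · simp [t, mul_inv_cancel₀ (norm_ne_zero_iff.2 (ne x hx))]
  · rw [mem_ofPred_eq, (key (1, x) ⟨by simp, hx⟩).2]
    linarith [le_max_left (3 / 8 - s * (‖x‖ - r)) 0]

end Pool.Agent.MP_b8a826_gt

end

-- part MP_b8a826_gt.BL4
section

/-! Lifted chains: the cylinder and the disc. -/

namespace Pool.Agent.MP_b8a826_gt
open Set Filter Topology

theorem bl_path (R : Type) [CommRing R] {a b : ℝ} (hab : a ≤ b) {η : ℝ} (hη : 0 < η) :
    ∃ p ∈ C R (fun s => s ⊆ Icc a b ∧ Sm η s) 2, bd p = sg R [b] - sg R [a] := by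
  obtain ⟨N, hN⟩ := exists_nat_gt ((b - a) / η)
  have h0 : (0 : ℝ) < N := (div_nonneg (sub_nonneg.2 hab) hη.le).trans_lt hN
  have h1 : (b - a) / N ≤ η := by
    rw [div_le_iff₀ h0]
    rw [div_lt_iff₀ hη] at hN
    linarith
  have h2 : 0 ≤ (b - a) / N := div_nonneg (sub_nonneg.2 hab) h0.le
  have h3 : b = a + N * ((b - a) / N) := by field_simp; ring
  generalize (b - a) / N = h at h1 h2 h3
  refine ⟨∑ j ∈ Finset.range N, sg R [a + j * h, a + (j + 1 : ℕ) * h],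
    Submodule.sum_mem _ fun j hj => sg_mem rfl ⟨?_, ?_⟩, ?_⟩
  · have h4 : (j : ℝ) + 1 ≤ N := by exact_mod_cast Finset.mem_range.1 hj
    have h5 := mul_nonneg (Nat.cast_nonneg (α := ℝ) j) h2
    have h6 := mul_le_mul_of_nonneg_right h4 h2
    intro x hx
    simp only [List.mem_cons, List.not_mem_nil, or_false, mem_ofPred_eq, Nat.cast_succ] at hx
    rcases hx with rfl | rfl <;> constructor <;> linarith
  · intro x hx y hy
    simp only [List.mem_cons, List.not_mem_nil, or_false, mem_ofPred_eq, Nat.cast_succ] at hx hy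
    rw [Real.dist_eq, abs_le]
    rcases hx with rfl | rfl <;> rcases hy with rfl | rfl <;> constructor <;> linarith
  · simp only [map_sum, bd2]
    rw [Finset.sum_range_sub (fun j : ℕ => sg R [a + j * h]), ← h3]
    simp

variable {R : Type} [CommRing R] {E : Type} [NormedAddCommGroup E] [NormedSpace ℝ E] {Γ : Type}
  [Group Γ] {φ : E → E → Γ}

/-- The lift of a map along a trivialisation of the Magnus cocycle. -/
def blL {P : Type} {U : Set E} (F : P → E) (B : P → SD (rhoN R φ U)) : P → E × Γ :=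
  fun p => (F p, (B p).g)

theorem bl_lift {P : Type} [NormedAddCommGroup P] {U : Set E} (hU : IsOpen U) (hφ : Coc U φ)
    {F : P → E} {Q : Set P} (hQ : IsCompact Q) (hF : ContinuousOn F Q) (hm : MapsTo F Q U)
    {B : P → SD (rhoN R φ U)} (hB : Triv (pb F (Mg R φ U)) Q B) {g : Set E → Prop}
    (hg : ∀ x ∈ Q, Loc g (F x)) : ∃ η > 0, ∀ s ⊆ Q, s.Nonempty → Sm η s →
      Ad φ g (blL F B '' s) ∧ ∀ a ∈ s, ∀ b ∈ s, B b = B a * Mg R φ U (F a) (F b) := by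
  obtain ⟨η, hη, h⟩ := mach_leb hQ (g := fun s => s ⊆ Q → Ad φ g (blL F B '' s) ∧
      ∀ a ∈ s, ∀ b ∈ s, B b = B a * Mg R φ U (F a) (F b)) fun x hx => by
    obtain ⟨N, hN, h1⟩ := hB.two (((coc_Mg hφ).fl hU).pb hF hm) hx
    obtain ⟨ε, hε, h2⟩ := hg x hx
    obtain ⟨δ, hδ, h3⟩ := Metric.mem_nhdsWithin_iff.1
      (inter_mem hN (hF x hx (Metric.ball_mem_nhds _ hε)))
    refine ⟨δ, hδ, fun s hs hs' => ?_⟩
    have e : ∀ a ∈ s, ∀ b ∈ s, B b = B a * Mg R φ U (F a) (F b) := fun a ha b hb => by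
      have := h1 a (h3 ⟨hs ha, hs' ha⟩).1 b (h3 ⟨hs hb, hs' hb⟩).1
      rw [pb] at this
      rw [this, mul_inv_cancel_left]
    refine ⟨⟨h2 _ (convexHull_min ?_ (convex_ball _ _)), ?_⟩, e⟩
    · rintro _ ⟨_, ⟨a, ha, rfl⟩, rfl⟩
      exact (h3 ⟨hs ha, hs' ha⟩).2
    · rintro _ ⟨a, ha, rfl⟩ _ ⟨b, hb, rfl⟩
      exact congrArg SD.g (e a ha b hb)
  exact ⟨η, hη, fun s hs h1 h2 => h s hs h1 h2 hs⟩

theorem bl_cls {P : Type} {U : Set E} (hφ : Coc U φ) {F : P → E} {B : P → SD (rhoN R φ U)}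
    {K : Set P → Prop} (hK : ∀ s, K s → s.Nonempty → Ad φ (· ⊆ U) (blL F B '' s) ∧
      ∀ a ∈ s, ∀ b ∈ s, B b = B a * Mg R φ U (F a) (F b)) {p : Ch R P} (hp : p ∈ C R K 2) :
    ∃ h : mp (blL F B) p ∈ CC R φ U 2,
      cls _ h = blF (fun x => (B x).v) (blW []) (bd p) := by
  refine C_ind (p := fun p => ∃ h : mp (blL F B) p ∈ CC R φ U 2,
      cls _ h = blF (fun x => (B x).v) (blW []) (bd p)) ?_ ?_ ?_ ?_ hp
  · exact ⟨by simp, by rw [map_zero bd, map_zero (blF _ _), ← cls_zero]; exact cls_congr (by simp)⟩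
  · rintro a b ⟨ha, e1⟩ ⟨hb, e2⟩
    refine ⟨by simpa using add_mem ha hb, ?_⟩
    rw [map_add bd, map_add (blF _ _), ← e1, ← e2, ← cls_add]
    exact cls_congr (by simp)
  · rintro r a ⟨ha, e⟩
    refine ⟨by simpa using Submodule.smul_mem _ r ha, ?_⟩
    rw [map_smul bd, map_smul (blF _ _), ← e, ← cls_smul]
    exact cls_congr (by simp)
  · intro l hl hk
    obtain ⟨a, b, rfl⟩ := List.length_eq_two.1 hl
    obtain ⟨h1, h2⟩ := hK _ hk ⟨a, by simp⟩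
    have h3 := h2 a (by simp) b (by simp)
    have hm : ∀ x ∈ [a, b], F x ∈ convexHull ℝ (Prod.fst '' (blL F B '' {v | v ∈ [a, b]})) :=
      fun x hx => subset_convexHull ℝ _ ⟨_, ⟨x, hx, rfl⟩, rfl⟩
    have hs : segment ℝ (F a) (F b) ⊆ U := ((convex_convexHull ℝ _).segment_subset
      (hm a (by simp)) (hm b (by simp))).trans h1.1
    refine ⟨by rw [mp_sg]; exact sg_mem rfl (by rwa [set_map]), ?_⟩
    rw [bd2, map_sub, blF_pt, blF_pt, h3, SD.mul_v, add_sub_cancel_left, Mg_v hφ hs, rhoN_cls]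
    refine cls_congr ?_
    simp [act, blL, h3]

theorem bl_mp_mem {V W : Type} {K : Set V → Prop} {K' : Set W → Prop} {n : ℕ} {f : V → W}
    (h : ∀ s, K s → s.Nonempty → K' (f '' s)) {c : Ch R V} (hc : c ∈ C R K (n + 1)) :
    mp f c ∈ C R K' (n + 1) :=
  mp_mem (K := fun s => K s ∧ s.Nonempty) (fun s hs => h s hs.1 hs.2)
    (mach_ne (fun _ h1 h2 => ⟨h2, h1⟩) hc)

omit [NormedSpace ℝ E] in
theorem bl_loc_sm {ε : ℝ} (hε : 0 < ε) (x : E) : Loc (Sm ε) x :=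
  ⟨ε / 2, half_pos hε, fun _ hs _ ha _ hb =>
    (Metric.dist_lt_add_of_nonempty_ball_inter_ball ⟨x, Metric.mem_ball_comm.1 (hs ha),
      Metric.mem_ball_comm.1 (hs hb)⟩).le.trans (add_halves ε).le⟩

theorem bl_quad (t : ℝ) : (t ∈ Icc 0 (1 / 2) → 0 ≤ Real.sin (2 * Real.pi * t)) ∧
    (t ∈ Icc (1 / 2) 1 → Real.sin (2 * Real.pi * t) ≤ 0) ∧
    (t ∈ Icc 0 (1 / 4) → 0 ≤ Real.cos (2 * Real.pi * t)) ∧
    (t ∈ Icc (1 / 4) (3 / 4) → Real.cos (2 * Real.pi * t) ≤ 0) ∧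
    (t ∈ Icc (3 / 4) 1 → 0 ≤ Real.cos (2 * Real.pi * t)) := by
  have hp := Real.pi_pos
  refine ⟨fun h => ?_, fun h => ?_, fun h => ?_, fun h => ?_, fun h => ?_⟩
  · exact Real.sin_nonneg_of_nonneg_of_le_pi (by nlinarith [h.1]) (by nlinarith [h.2])
  · rw [← Real.sin_sub_two_pi]
    exact Real.sin_nonpos_of_nonpos_of_neg_pi_le (by nlinarith [h.2]) (by nlinarith [h.1])
  · exact Real.cos_nonneg_of_mem_Icc ⟨by nlinarith [h.1], by nlinarith [h.2]⟩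
  · exact Real.cos_nonpos_of_pi_div_two_le_of_le (by nlinarith [h.1]) (by nlinarith [h.2])
  · rw [← Real.cos_sub_two_pi]
    exact Real.cos_nonneg_of_mem_Icc ⟨by nlinarith [h.1], by nlinarith [h.2]⟩

/-- A small lifted disc whose boundary represents the meridian. -/
theorem bl_disc {U W : Set E} (hU : IsOpen U) (hUW : U ⊆ W) (hφ : Coc W φ) {f : ℂ → E}
    (hf : Continuous f) (hm : ∀ z, ‖z‖ ≤ 1 → z ≠ 0 → f z ∈ U) {δ : ℝ} (h0 : 0 < δ) (h1 : δ ≤ 1)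
    {N N0 N1 N2 N3 : Set E} (hN : Convex ℝ N) (hNW : N ⊆ W) (c0 : Convex ℝ N0) (c1 : Convex ℝ N1)
    (c2 : Convex ℝ N2) (c3 : Convex ℝ N3)
    (hz : ∀ x y : ℝ, x ^ 2 + y ^ 2 = 1 → ∀ z : ℂ, ‖z‖ = δ → z.re = δ * x → z.im = δ * y →
      f z ∈ N ∧ (0 ≤ x → 0 ≤ y → f z ∈ N0) ∧ (x ≤ 0 → 0 ≤ y → f z ∈ N1) ∧
      (x ≤ 0 → y ≤ 0 → f z ∈ N2) ∧ (0 ≤ x → y ≤ 0 → f z ∈ N3)) :
    ∃ (a a0 a1 a2 a3 : Ch R (E × Γ)) (y0 y1 : E × Γ) (k : Γ), a ∈ CC R φ N 3 ∧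
      bd a = a0 + a1 + a2 + a3 ∧ a0 ∈ CC R φ (N ∩ N0) 2 ∧ a1 ∈ CC R φ (N ∩ N1) 2 ∧
      a2 ∈ CC R φ (N ∩ N2) 2 ∧ a3 ∈ CC R φ (N ∩ N3) 2 ∧ bd a0 = sg R [y1] - sg R [y0] ∧
      y0.1 ∈ N ∩ N3 ∧ y1.1 ∈ N ∩ N0 ∩ N1 ∧ ∃ h : bd a ∈ CC R φ U 2,
        (hol (Mg R φ U) (circ fun θ => f θ)).v = rhoN R φ U k (cls _ h) := by
  have hφU := hφ.mono hUW
  have hfl := (coc_Mg (R := R) hφU).fl hU
  let e : ℝ → ℂ := fun t => Circle.exp (2 * Real.pi * t)
  have he : Continuous e := by fun_prop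
  have hn : ∀ (ρ : ℝ) t, 0 < ρ → ‖ρ • e t‖ = ρ := fun ρ t hρ => by
    simp only [e, norm_smul, Circle.norm_coe, mul_one, Real.norm_of_nonneg hρ.le]
  have hu : ∀ (ρ : ℝ) t, 0 < ρ → ρ ≤ 1 → f (ρ • e t) ∈ U := fun ρ t hρ hρ' =>
    hm _ (by rwa [hn ρ t hρ]) (norm_pos_iff.1 (by rwa [hn ρ t hρ]))
  have e01 : e 0 = e 1 := by simp [e]
  let c : ℝ → E := fun t => f (δ • e t)
  have hc : Cv U c := ⟨by fun_prop, fun t => hu δ t h0 h1⟩
  have hq := fun t => hz _ _ (Real.cos_sq_add_sin_sq (2 * Real.pi * t)) (δ • e t) (hn δ t h0)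
    (by simp only [e, Circle.coe_exp, Complex.smul_re, Complex.exp_ofReal_mul_I_re, smul_eq_mul])
    (by simp only [e, Circle.coe_exp, Complex.smul_im, Complex.exp_ofReal_mul_I_im, smul_eq_mul])
  obtain ⟨k, hk⟩ := isConj_iff.1 (isConj_of_homotopy hfl
    (H := fun p => f (max δ (min 1 (1 - p.1)) • e p.2)) (by fun_prop)
    (fun p => hu _ _ (h0.trans_le (le_max_left _ _)) (max_le h1 (min_le_left _ _)))
    fun s => by rw [e01]).symm
  simp only [sub_zero, min_self, max_eq_right h1, one_smul, sub_self, zero_le_one, inf_of_le_right,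
    max_eq_left h0.le] at hk
  obtain ⟨B', hB'⟩ := hc.triv hfl
  obtain ⟨B, hB, hB0⟩ : ∃ B, Triv (pb c (Mg R φ U)) univ B ∧ B 0 = 1 :=
    ⟨_, hB'.mul (B' 0)⁻¹, inv_mul_cancel _⟩
  have hh : hol (Mg R φ U) c = B 1 := by
    rw [hol, tr_eq hB isPreconnected_univ trivial trivial, hB0, inv_one, one_mul]
  have hg : ∀ t, (B t).g = φ (c 0) (c t) := fun t => by
    have := (hB.map (SD.snd _)).uniq ((hφ.triv hN hNW (hq 0).1).pb hc.1.continuousOn
      fun t _ => (hq t).1) isPreconnected_univ (x := t) (y := 0) trivial trivial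
    have e2 : φ (c 0) (c 0) = 1 := hφ.self (hNW (hq 0).1)
    change (B t).g * (φ (c 0) (c t))⁻¹ = (B 0).g * (φ (c 0) (c 0))⁻¹ at this
    rwa [hB0, e2, SD.one_g, inv_one, mul_one, mul_inv_eq_one] at this
  have c01 : c 1 = c 0 := by simp only [c, e01]
  have g1 : (B 1).g = 1 := by rw [hg, c01, hφ.self (hNW (hq 0).1)]
  have L01 : blL c B 1 = blL c B 0 := by simp only [blL, c01, g1, hB0, SD.one_g]
  have ad : ∀ s ⊆ range (blL c B), Ad φ (· ⊆ N) s := fun s hs =>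
    mach_ad hφ hN hNW (v := blL c B 0) (hq 0).1 fun w hw => by
      obtain ⟨t, rfl⟩ := hs hw
      exact ⟨(hq t).1, by simp [blL, hg t, hB0]⟩
  obtain ⟨η, hη, hl⟩ := bl_lift hU hφU (isCompact_Icc (a := 0) (b := 1)) hc.1.continuousOn
    (fun t _ => hc.2 t) (hB.mono (subset_univ _)) (g := (· ⊆ U)) fun x _ =>
      let ⟨ε, hε, h⟩ := Metric.isOpen_iff.1 hU _ (hc.2 x); ⟨ε, hε, fun s hs => hs.trans h⟩
  have arc : ∀ {a b : ℝ} {N' : Set E}, Convex ℝ N' → (∀ t ∈ Icc a b, c t ∈ N') → a ≤ b → 0 ≤ a →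
      b ≤ 1 → ∃ p ∈ C R (fun s => s ⊆ Icc 0 1 ∧ Sm η s) 2, bd p = sg R [b] - sg R [a] ∧
        mp (blL c B) p ∈ CC R φ (N ∩ N') 2 := by
    intro a b N' hN' ht hab ha hb
    obtain ⟨p, hp, ep⟩ := bl_path R hab hη
    refine ⟨p, C_mono (fun s hs => ⟨hs.1.trans (Icc_subset_Icc ha hb), hs.2⟩) hp, ep,
      mp_mem (fun s hs => ⟨convexHull_min ?_ (hN.inter hN'), (ad _ (image_subset_range _ _)).2⟩) hp⟩
    rintro _ ⟨_, ⟨t, h, rfl⟩, rfl⟩
    exact ⟨(hq t).1, ht t (hs.1 h)⟩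
  obtain ⟨p0, m0, e0, n0⟩ := arc c0 (a := 0) (b := 1 / 4) (fun t ht => (hq t).2.1
    ((bl_quad t).2.2.1 ht) ((bl_quad t).1 ⟨ht.1, by linarith [ht.2]⟩))
    (by norm_num) le_rfl (by norm_num)
  obtain ⟨p1, m1, e1, n1⟩ := arc c1 (a := 1 / 4) (b := 1 / 2) (fun t ht => (hq t).2.2.1
    ((bl_quad t).2.2.2.1 ⟨ht.1, by linarith [ht.2]⟩) ((bl_quad t).1 ⟨by linarith [ht.1], ht.2⟩))
    (by norm_num) (by norm_num) (by norm_num)
  obtain ⟨p2, m2, e2, n2⟩ := arc c2 (a := 1 / 2) (b := 3 / 4) (fun t ht => (hq t).2.2.2.1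
    ((bl_quad t).2.2.2.1 ⟨by linarith [ht.1], ht.2⟩) ((bl_quad t).2.1 ⟨ht.1, by linarith [ht.2]⟩))
    (by norm_num) (by norm_num) (by norm_num)
  obtain ⟨p3, m3, e3, n3⟩ := arc c3 (a := 3 / 4) (b := 1) (fun t ht => (hq t).2.2.2.2
    ((bl_quad t).2.2.2.2 ht) ((bl_quad t).2.1 ⟨by linarith [ht.1], ht.2⟩))
    (by norm_num) (by norm_num) le_rfl
  have mp' := add_mem (add_mem (add_mem m0 m1) m2) m3
  have ep : bd (p0 + p1 + p2 + p3) = sg R [1] - sg R [0] := by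
    simp only [map_add, e0, e1, e2, e3]; abel
  have ea : bd (cone (blL c B 0) (mp (blL c B) (p0 + p1 + p2 + p3))) =
      mp (blL c B) (p0 + p1 + p2 + p3) :=
    mach_cone_cyc _ (by rw [bd_mp, ep]; simp [L01])
  obtain ⟨h, hcl⟩ := bl_cls hφU (fun s hs hs' => hl s hs.1 hs' hs.2) mp'
  refine ⟨_, _, _, _, _, blL c B 0, blL c B (1 / 4), k.g,
    cone_mem (K := (· ⊆ range (blL c B)))
      (fun s hs => ad _ (insert_subset (mem_range_self _) hs))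
      (mp_mem (fun s _ => image_subset_range _ _) mp'), by rw [ea]; simp only [map_add],
    n0, n1, n2, n3, by rw [bd_mp, e0]; simp, ⟨(hq 0).1, (hq 0).2.2.2.2 (by simp) (by simp)⟩,
    ⟨⟨(hq _).1, (hq _).2.1 ((bl_quad _).2.2.1 (by norm_num)) ((bl_quad _).1 (by norm_num))⟩,
      (hq _).2.2.1 ((bl_quad _).2.2.2.1 (by norm_num)) ((bl_quad _).1 (by norm_num))⟩,
    by rwa [ea], ?_⟩
  rw [cls_congr (hd := h) ea, hcl, ep, map_sub, blF_pt, blF_pt, hB0]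
  have : hol (Mg R φ U) (circ fun θ => f θ) = k * B 1 * k⁻¹ := by rw [← hh]; exact hk.symm
  rw [this]
  simp [g1]

/-- The lifted cylinder. -/
theorem bl_cyl {W : Set E4} (hW : IsOpen W) {s r : ℝ} (hs : s = 1 ∨ s = -1) (hr : 1 / 2 ≤ r)
    {φ : E4 → E4 → Γ} (hφ : Coc W φ) {β : ℝ → S3} (hb : Continuous β) (hp : ∀ t, β (t + 1) = β t)
    (hm : ∀ p : ℝ × ℝ, p.2 ∈ Icc (-(3 / 8)) (3 / 8) → blG β s r p ∈ W)
    (h3 : hol (lev r φ) β = 1) {δ ε : ℝ} (h0 : 0 < δ) (h1 : δ ≤ 3 / 8) (hε : 0 < ε) :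
    ∃ (L : ℝ × ℝ → E4 × Γ) (η : ℝ) (p : Ch R ℝ) (b u v : Ch R (E4 × Γ)), 0 ≤ η ∧
      (∀ z, (L z).1 = blG β s r z) ∧ p ∈ C R (fun t => t ⊆ Icc (-δ) δ ∧ Sm η t) 2 ∧
      bd p = sg R [δ] - sg R [-δ] ∧ (∀ t ⊆ BLQ, Sm η t → BLs φ ε (L '' t)) ∧
      b ∈ C R (fun t => BLs φ ε t ∧ ∀ w ∈ t, ∃ z ∈ BLQ, δ ≤ ‖z‖ ∧ w.1 = blG β s r z) 3 ∧
      bd (mp L (blSh p p) + b) = v - u ∧
      v ∈ C R (fun t => BLs φ ε t ∧ ∀ w ∈ t, s * (‖w.1‖ - r) = -(3 / 8)) 2 ∧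
      u ∈ C R (Ad φ fun t => t ⊆ BLU W s r (1 / 4) ∧ Sm ε t) 2 ∧ ∃ h : u ∈ CC R φ W 2,
        cls u h = (hol (lev r (Mg R φ W)) β).v := by
  have hG := blG_cont hb s r
  have hfl := (coc_Mg (R := R) hφ).fl hW
  let St : Set (ℝ × ℝ) := univ ×ˢ Icc (-(3 / 8)) (3 / 8)
  have cSt : Convex ℝ St := convex_univ.prod (convex_Icc _ _)
  have hf : Fl (pb (blG β s r) (Mg R φ W)) St := hfl.pb hG.continuousOn fun z hz => hm z hz.2
  obtain ⟨B', hB'⟩ := exists_triv_convex hf cSt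
  obtain ⟨B, hB, hB0⟩ : ∃ B, Triv (pb (blG β s r) (Mg R φ W)) St B ∧ B (0, 0) = 1 :=
    ⟨_, hB'.mul (B' (0, 0))⁻¹, inv_mul_cancel _⟩
  have z0 : (0 : ℝ) ∈ Icc (-(3 / 8) : ℝ) (3 / 8) := by norm_num
  have eb : (fun t => r • (β t).1) = blG β s r ∘ fun t => (t, 0) := funext fun t => by simp [blG]
  have hh : hol (lev r (Mg R φ W)) β = B (1, 0) := by
    have := hol_triv hf (c := fun t => (t, 0)) ⟨by fun_prop, fun t => ⟨trivial, z0⟩⟩ hB
      fun t _ => ⟨trivial, z0⟩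
    rw [hB0, inv_one, one_mul, hol_pb, ← eb] at this
    exact this
  have g1 : (B (1, 0)).g = 1 := by
    have := hol_map hfl (c := fun t => r • (β t).1)
      ⟨by fun_prop, fun t => by rw [eb]; exact hm _ z0⟩ (SD.snd _)
    rw [← hh, ← h3]
    exact this.symm
  have per : ∀ c d, blG β s r (c + 1, d) = blG β s r (c, d) := fun c d => by simp only [blG, hp]
  have sh : ∀ c, ∀ d ∈ Icc (-(3 / 8) : ℝ) (3 / 8), B (c + 1, d) = B (1, 0) * B (c, d) := by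
    intro c d hd
    have t1 := hB.pb (f := fun z : ℝ × ℝ => (z.1 + 1, z.2)) (D' := St) (by fun_prop)
      fun z hz => ⟨trivial, hz.2⟩
    have : pb (fun z : ℝ × ℝ => (z.1 + 1, z.2)) (pb (blG β s r) (Mg R φ W)) =
        pb (blG β s r) (Mg R φ W) := by
      funext x y
      simp only [pb, per]
    rw [this] at t1
    have := t1.uniq hB cSt.isPreconnected (x := (c, d)) (y := (0, 0)) ⟨trivial, hd⟩ ⟨trivial, z0⟩
    simpa [hB0, mul_inv_eq_iff_eq_mul] using this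
  have hQ : IsCompact BLQ := isCompact_Icc.prod isCompact_Icc
  have QS : BLQ ⊆ St := fun z hz => ⟨trivial, hz.2⟩
  obtain ⟨η1, hη1, l1⟩ := bl_lift hW hφ hQ hG.continuousOn (fun z hz => hm z hz.2) (hB.mono QS)
    fun x hx => mach_loc_open hW (hm x hx.2) (bl_loc_sm hε _)
  have TQ : Icc (-(1 / 2) : ℝ) (1 / 2) ×ˢ ({3 / 8} : Set ℝ) ⊆ BLQ :=
    prod_mono_right (singleton_subset_iff.2 (by norm_num))
  have TQ' : Icc (-(1 / 2) : ℝ) (1 / 2) ×ˢ ({-(3 / 8)} : Set ℝ) ⊆ BLQ :=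
    prod_mono_right (singleton_subset_iff.2 (by norm_num))
  obtain ⟨η2, hη2, l2⟩ := bl_lift hW hφ (isCompact_Icc.prod isCompact_singleton) hG.continuousOn
    (fun z hz => hm z (TQ hz).2) (hB.mono (TQ.trans QS))
    fun x hx => mach_loc_open (BLU_open hW s r (1 / 4)) ⟨hm x (TQ hx).2, by
      rw [mem_ofPred_eq, blG_lev hs hr (TQ hx).2, show x.2 = 3 / 8 from hx.2]; norm_num⟩
      (bl_loc_sm hε _)
  have hη := lt_min hη1 hη2
  have ls : ∀ t ⊆ BLQ, Sm (min η1 η2) t → BLs φ ε (blL (blG β s r) B '' t) := fun t ht ht' => by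
    rcases t.eq_empty_or_nonempty with rfl | hn
    · simp [BLs]
    · exact (l1 t ht hn (ht'.mono (min_le_left _ _))).1.bls
  obtain ⟨p, mp0, ep⟩ := bl_path R (by linarith : -δ ≤ δ) hη
  obtain ⟨c1, mc1, ec1⟩ := bl_path R (by linarith : -(1 / 2) ≤ -δ) hη
  obtain ⟨c3, mc3, ec3⟩ := bl_path R (by linarith : δ ≤ 1 / 2) hη
  obtain ⟨d1, md1, ed1⟩ := bl_path R (by linarith : -(3 / 8) ≤ -δ) hη
  obtain ⟨d3, md3, ed3⟩ := bl_path R (by linarith : δ ≤ 3 / 8) hη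
  have mo : ∀ {a b a' b' : ℝ} {q : Ch R ℝ}, q ∈ C R (fun t => t ⊆ Icc a b ∧ Sm (min η1 η2) t) 2 →
      a' ≤ a → b ≤ b' → q ∈ C R (fun t => t ⊆ Icc a' b' ∧ Sm (min η1 η2) t) 2 :=
    fun hq ha hb => C_mono (fun t ht => ⟨ht.1.trans (Icc_subset_Icc ha hb), ht.2⟩) hq
  have mpc : c1 + p + c3 ∈ C R (fun t => t ⊆ Icc (-(1 / 2)) (1 / 2) ∧ Sm (min η1 η2) t) 2 :=
    add_mem (add_mem (mo mc1 le_rfl (by linarith)) (mo mp0 (by linarith) (by linarith)))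
      (mo mc3 (by linarith) le_rfl)
  have mpd : d1 + p + d3 ∈ C R (fun t => t ⊆ Icc (-(3 / 8)) (3 / 8) ∧ Sm (min η1 η2) t) 2 :=
    add_mem (add_mem (mo md1 le_rfl (by linarith)) (mo mp0 (by linarith) (by linarith)))
      (mo md3 (by linarith) le_rfl)
  have epc : bd (c1 + p + c3) = sg R [1 / 2] - sg R [-(1 / 2)] := by
    simp only [map_add, ec1, ep, ec3]; abel
  have epd : bd (d1 + p + d3) = sg R [3 / 8] - sg R [-(3 / 8)] := by
    simp only [map_add, ed1, ep, ed3]; abel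
  have out : ∀ {I J : Set ℝ} {x : Ch R (ℝ × ℝ)},
      x ∈ C R (fun t => t ⊆ I ×ˢ J ∧ Sm (min η1 η2) t) 3 → (∀ z ∈ I ×ˢ J, z ∈ BLQ ∧ δ ≤ ‖z‖) →
      mp (blL (blG β s r) B) x ∈
        C R (fun t => BLs φ ε t ∧ ∀ w ∈ t, ∃ z ∈ BLQ, δ ≤ ‖z‖ ∧ w.1 = blG β s r z) 3 :=
    fun hx h => mp_mem (fun t ht => ⟨ls t (fun z hz => (h z (ht.1 hz)).1) ht.2, by
      rintro _ ⟨z, hz, rfl⟩
      exact ⟨z, (h z (ht.1 hz)).1, (h z (ht.1 hz)).2, rfl⟩⟩) hx
  have n1 : ∀ z : ℝ × ℝ, z.1 ≤ ‖z‖ ∧ -z.1 ≤ ‖z‖ ∧ z.2 ≤ ‖z‖ ∧ -z.2 ≤ ‖z‖ := fun z =>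
    ⟨(le_abs_self _).trans (norm_fst_le z), (neg_le_abs _).trans (norm_fst_le z),
      (le_abs_self _).trans (norm_snd_le z), (neg_le_abs _).trans (norm_snd_le z)⟩
  have mu := bl_sh_mem mpc (bl_pt_mem (c := 3 / 8) hη.le)
  have mv := bl_sh_mem mpc (bl_pt_mem (c := -(3 / 8)) hη.le)
  obtain ⟨h, hcl⟩ := bl_cls hφ (fun t ht ht' =>
    let h := l1 t (ht.1.trans TQ) ht' (ht.2.mono (min_le_left _ _))
    ⟨h.1.mono fun _ h => h.1, h.2⟩) mu
  have side : mp (blL (blG β s r) B) (blSh (sg R [1 / 2]) (d1 + p + d3)) =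
      mp (blL (blG β s r) B) (blSh (sg R [-(1 / 2)]) (d1 + p + d3)) := by
    have e := blSh_mp (fun c : ℝ => c + 1) id (sg R [-(1 / 2)]) (d1 + p + d3)
    rw [mp_id, mp_sg, List.map_singleton, show -(1 / 2) + 1 = (1 / 2 : ℝ) by norm_num] at e
    rw [e, mp_mp]
    refine mp_congr (fun t ht z hz => ?_) (bl_sh_mem (bl_pt_mem hη.le) mpd)
    simp only [blL, Function.comp, Prod.map, id, per, sh _ _ (ht.1 hz).2, SD.mul_g, g1, one_mul]
  refine ⟨blL (blG β s r) B, _, p, mp (blL (blG β s r) B) (blSh c1 (d1 + p + d3)) +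
    mp (blL (blG β s r) B) (blSh c3 (d1 + p + d3)) + mp (blL (blG β s r) B) (blSh p d1) +
    mp (blL (blG β s r) B) (blSh p d3), _,
    mp (blL (blG β s r) B) (blSh (c1 + p + c3) (sg R [-(3 / 8)])), hη.le, fun _ => rfl, mp0, ep,
    ls, add_mem (add_mem (add_mem (out (bl_sh_mem mc1 mpd) fun z hz => ?_)
      (out (bl_sh_mem mc3 mpd) fun z hz => ?_)) (out (bl_sh_mem mp0 md1) fun z hz => ?_))
      (out (bl_sh_mem mp0 md3) fun z hz => ?_), ?_,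
    mp_mem (fun t ht => ⟨ls t (ht.1.trans TQ') ht.2, ?_⟩) mv,
    bl_mp_mem (fun t ht ht' => (l2 t ht.1 ht' (ht.2.mono (min_le_right _ _))).1) mu, h, ?_⟩
  · exact ⟨⟨⟨hz.1.1, by linarith [hz.1.2]⟩, hz.2⟩, by linarith [hz.1.2, (n1 z).2.1]⟩
  · exact ⟨⟨⟨by linarith [hz.1.1], hz.1.2⟩, hz.2⟩, by linarith [hz.1.1, (n1 z).1]⟩
  · exact ⟨⟨⟨by linarith [hz.1.1], by linarith [hz.1.2]⟩, hz.2.1, by linarith [hz.2.2]⟩,
      by linarith [hz.2.2, (n1 z).2.2.2]⟩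
  · exact ⟨⟨⟨by linarith [hz.1.1], by linarith [hz.1.2]⟩, by linarith [hz.2.1], hz.2.2⟩,
      by linarith [hz.2.1, (n1 z).2.2.1]⟩
  · have := congrArg (mp (blL (blG β s r) B)) (bl_bd_sq mpc epc epd)
    rw [← bd_mp, map_add (mp _), map_sub, map_sub, side, sub_self, zero_sub, neg_add_eq_sub] at this
    rw [← this]
    simp only [map_add, LinearMap.add_apply]
    abel
  · have := sh (-(1 / 2)) (3 / 8) (by norm_num)
    rw [show -(1 / 2) + 1 = (1 / 2 : ℝ) by norm_num] at this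
    rw [hcl, bl_bd_row mpc epc, map_sub, blF_pt, blF_pt, hh, this]
    simp [g1]
  · rintro _ ⟨z, hz, rfl⟩
    exact (blG_lev hs hr (TQ' (ht.1 hz)).2).trans (ht.1 hz).2

end Pool.Agent.MP_b8a826_gt

end

-- part MP_b8a826_gt.BL
section

/-! Vanishing of the linking form on classes that die in the complement. -/

namespace Pool.Agent.MP_b8a826_gt
open Set

section
variable {R : Type} [CommRing R] {E : Type} [NormedAddCommGroup E] [NormedSpace ℝ E] {Γ : Type}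
  [Group Γ] {φ : E → E → Γ}

theorem bl_sd (R : Type) [CommRing R] {U : Set E} (hφ : Coc U φ) {ε : ℝ} (hε : 0 < ε) :
    ∃ S : Ch R (E × Γ) →ₗ[R] Ch R (E × Γ),
      (∀ r c, S ((rho R E Γ).asAlgebraHom r c) = (rho R E Γ).asAlgebraHom r (S c)) ∧
      (∀ v : E × Γ, v.1 ∈ U → S (sg R [v]) = sg R [v]) ∧
      (∀ n, ∀ c ∈ CC R φ U (n + 1), bd (S c) = S (bd c)) ∧
      ∀ g : Set E → Prop, Her g → (∀ s, g s → s ⊆ U) → ∀ n ≤ 4, ∀ c ∈ C R (Ad φ g) n,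
        S c ∈ C R (Ad φ fun s => g s ∧ Sm ε s) n := by
  obtain ⟨S, T, h1, -, h2, -, h3, h4⟩ := exists_sd R hφ hε 4
  refine ⟨S, fun r c => ?_, h2, fun n c hc => ?_, fun g hg hU n hn c hc => ?_⟩
  · induction r using MonoidAlgebra.induction_linear with
    | zero => simp
    | add a b e1 e2 => simp [e1, e2]
    | single γ r => simp [rho_apply, h1]
  · have e1 := congrArg bd (h3 _ c hc)
    have e2 := h3 _ _ (bd_CC hc)
    rw [map_add, bd_bd, zero_add, map_sub] at e1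
    rw [bd_bd, map_zero, add_zero, e1] at e2
    exact sub_right_injective e2
  · exact C_mono (fun s hs => ⟨⟨hs.1.1, hs.2.1⟩, hs.1.2⟩)
      (C_and (h4 g hg hU n c hc).2.1 ((h4 g hg hU n c hc).2.2 hn))

theorem bl_margin {O : Set E} (hO : IsOpen O) {n : ℕ} {c : Ch R (E × Γ)} (hc : c ∈ CC R φ O n) :
    ∃ ρ > 0, ∀ ρ' ≤ ρ, c ∈ C R (Ad φ fun s => s ⊆ O ∧ ∀ x ∈ s, Metric.ball x ρ' ⊆ O) n := by
  obtain ⟨K, hK, hKO, h⟩ := mach_cpt hc
  obtain ⟨ρ, hρ, h'⟩ := mach_room hK hO hKO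
  exact ⟨ρ, hρ, fun ρ' e => C_mono (Ad.mono fun s hs => ⟨hs.trans hKO, fun x hx =>
    (Metric.ball_subset_ball e).trans (h' x (hs hx))⟩) h⟩

theorem bl_cvx (k : E →L[ℝ] BL4) (p : E) {T : Set BL4} (hT : Convex ℝ T) :
    Convex ℝ {x | k (x - p) ∈ T} := fun x hx y hy a b ha hb hab => by
  have e : a • x + b • y - p = a • (x - p) + b • (y - p) := by
    nth_rewrite 1 [← Convex.combo_self hab p]
    module
  simpa only [mem_ofPred_eq, e, map_add, map_smul] using hT hx hy ha hb hab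

theorem bl_comp (u : BL4) : |u.1.1| ≤ ‖u‖ ∧ |u.1.2| ≤ ‖u‖ ∧ |u.2.1| ≤ ‖u‖ ∧ |u.2.2| ≤ ‖u‖ :=
  ⟨(norm_fst_le u.1).trans (norm_fst_le u), (norm_snd_le u.1).trans (norm_fst_le u),
    (norm_fst_le u.2).trans (norm_snd_le u), (norm_snd_le u.2).trans (norm_snd_le u)⟩

theorem bl_signs {δ x y : ℝ} (hδ : 0 < δ) (h : x ^ 2 + y ^ 2 = 1) {u : BL4}
    (hu : ‖u - ((δ * x + δ * y, δ * y - δ * x), (0, 0))‖ ≤ δ / 10) :
    ‖u‖ < 5 * δ / 2 ∧ (0 ≤ x → 0 ≤ y → δ / 2 < u.1.1) ∧ (x ≤ 0 → 0 ≤ y → δ / 2 < u.1.2) ∧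
      (x ≤ 0 → y ≤ 0 → u.1.1 < -(δ / 2)) ∧ (0 ≤ x → y ≤ 0 → u.1.2 < -(δ / 2)) := by
  obtain ⟨h1, h2, h3, h4⟩ := bl_comp (u - ((δ * x + δ * y, δ * y - δ * x), (0, 0)))
  simp only [Prod.fst_sub, Prod.snd_sub, sub_zero] at h1 h2 h3 h4
  replace h1 := abs_le.1 (h1.trans hu)
  replace h2 := abs_le.1 (h2.trans hu)
  replace h3 := abs_le.1 (h3.trans hu)
  replace h4 := abs_le.1 (h4.trans hu)
  have x1 : δ * x ≤ δ := by nlinarith [mul_pos hδ hδ, show x ≤ 1 by nlinarith]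
  have x2 : -δ ≤ δ * x := by nlinarith [mul_pos hδ hδ, show -1 ≤ x by nlinarith]
  have y1 : δ * y ≤ δ := by nlinarith [mul_pos hδ hδ, show y ≤ 1 by nlinarith]
  have y2 : -δ ≤ δ * y := by nlinarith [mul_pos hδ hδ, show -1 ≤ y by nlinarith]
  have e : ∀ a b : ℝ, a ^ 2 + b ^ 2 = 1 → 0 ≤ a → 0 ≤ b → δ ≤ δ * a + δ * b := fun a b h ha hb => by
    have : 1 ≤ a + b := by nlinarith [mul_nonneg ha hb]
    nlinarith
  refine ⟨max_lt (max_lt ?_ ?_) (max_lt ?_ ?_), fun a b => ?_, fun a b => ?_, fun a b => ?_,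
    fun a b => ?_⟩
  · exact abs_lt.2 ⟨by linarith [h1.1], by linarith [h1.2]⟩
  · exact abs_lt.2 ⟨by linarith [h2.1], by linarith [h2.2]⟩
  · exact abs_lt.2 ⟨by linarith [h3.1], by linarith [h3.2]⟩
  · exact abs_lt.2 ⟨by linarith [h4.1], by linarith [h4.2]⟩
  · linarith [e x y h a b, h1.1]
  · linarith [e (-x) y (by linarith [neg_sq x]) (by linarith) b, h2.1]
  · linarith [e (-x) (-y) (by linarith [neg_sq x, neg_sq y]) (by linarith) (by linarith), h1.2]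
  · linarith [e x (-y) (by linarith [neg_sq y]) a (by linarith), h2.2]

/-- The disc meets the central part of the cylinder once. -/
theorem bl_centre {W : Set E} (hφ : Coc W φ) {k : E →L[ℝ] BL4} {o : E} {δ ε η : ℝ} (hδ : 0 < δ)
    (hW : ∀ x, ‖k (x - o)‖ ≤ 4 * δ → x ∈ W) {L : ℝ × ℝ → E × Γ}
    (hL : ∀ z : ℝ × ℝ, ‖z‖ ≤ 3 * δ → ‖k ((L z).1 - o) - ((0, 0), z)‖ ≤ 3 * δ / 10) (hη : 0 ≤ η)
    {p : Ch R ℝ} (hp : p ∈ C R (fun t => t ⊆ Icc (-(3 * δ)) (3 * δ) ∧ Sm η t) 2)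
    (ep : bd p = sg R [3 * δ] - sg R [-(3 * δ)])
    (hs : ∀ t ⊆ Icc (-(3 * δ)) (3 * δ) ×ˢ Icc (-(3 * δ)) (3 * δ), Sm η t → BLs φ ε (L '' t))
    {N N0 N1 N2 N3 : Set E} (hN : ∀ x ∈ N, ‖k (x - o)‖ < 5 * δ / 2)
    (hN0 : ∀ x ∈ N0, δ / 2 < (k (x - o)).1.1) (hN1 : ∀ x ∈ N1, δ / 2 < (k (x - o)).1.2)
    (hN2 : ∀ x ∈ N2, (k (x - o)).1.1 < -(δ / 2)) (hN3 : ∀ x ∈ N3, (k (x - o)).1.2 < -(δ / 2))
    {a a0 a1 a2 a3 : Ch R (E × Γ)} (ha : a ∈ CC R φ N 3) (ea : bd a = a0 + a1 + a2 + a3)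
    (ha0 : a0 ∈ CC R φ (N ∩ N0) 2) (ha1 : a1 ∈ CC R φ (N ∩ N1) 2) (ha2 : a2 ∈ CC R φ (N ∩ N2) 2)
    (ha3 : a3 ∈ CC R φ (N ∩ N3) 2) {y0 y1 : E × Γ} (e0 : bd a0 = sg R [y1] - sg R [y0])
    (hy0 : y0.1 ∈ N3) (hy1 : y1.1 ∈ N ∩ N0 ∩ N1) :
    ∃ g, blP R φ k a (mp L (blSh p p)) = -MonoidAlgebra.of R Γ g := by
  have cv : ∀ {N' : Set E} {n} {c : Ch R (E × Γ)}, c ∈ CC R φ (N ∩ N') n →
      c ∈ C R (fun s => Ad φ (· ⊆ N) s ∧ s ⊆ Prod.fst ⁻¹' N ∩ Prod.fst ⁻¹' N') n :=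
    fun hc => C_mono (fun s hs => ⟨hs.mono fun _ h => h.trans inter_subset_left,
      fun v hv => hs.blmem hv⟩) hc
  have nz : ∀ z ∈ Icc (-(3 * δ)) (3 * δ) ×ˢ Icc (-(3 * δ)) (3 * δ), ‖z‖ ≤ 3 * δ := fun z hz =>
    max_le (abs_le.2 hz.1) (abs_le.2 hz.2)
  have cz : ∀ z ∈ Icc (-(3 * δ)) (3 * δ) ×ˢ Icc (-(3 * δ)) (3 * δ),
      |(k ((L z).1 - o)).1.1| ≤ 3 * δ / 10 ∧ |(k ((L z).1 - o)).1.2| ≤ 3 * δ / 10 ∧
      |(k ((L z).1 - o)).2.1 - z.1| ≤ 3 * δ / 10 ∧ |(k ((L z).1 - o)).2.2 - z.2| ≤ 3 * δ / 10 := by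
    intro z hz
    obtain ⟨h1, h2, h3, h4⟩ := bl_comp (k ((L z).1 - o) - ((0, 0), z))
    simp only [Prod.fst_sub, Prod.snd_sub, sub_zero] at h1 h2 h3 h4
    have := hL z (nz z hz)
    exact ⟨h1.trans this, h2.trans this, h3.trans this, h4.trans this⟩
  have df : ∀ x y : E, k (x - y) = k (x - o) - k (y - o) := fun x y => by
    rw [← map_sub, sub_sub_sub_cancel_right]
  have m0 : -(3 * δ) ∈ Icc (-(3 * δ)) (3 * δ) := ⟨le_rfl, by linarith⟩
  have m1 : 3 * δ ∈ Icc (-(3 * δ)) (3 * δ) := ⟨by linarith, le_rfl⟩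
  refine ⟨y1.2 * φ y1.1 (L (-(3 * δ), -(3 * δ))).1 * (L (-(3 * δ), -(3 * δ))).2⁻¹, ?_⟩
  rw [← mp_id a, blP, blQ_mp]
  refine bl_box (f := blLab R φ ∘ Prod.map id L) (K := Ad φ (· ⊆ N)) (N := Prod.fst ⁻¹' N) hη m0 m1 hp ep (fun s t h1 h2 h3 => ?_)
    (C_mono (fun s hs => ⟨hs, fun v hv => hs.blmem hv⟩) ha) ea (cv ha0) (cv ha1) (cv ha2) (cv ha3)
    e0 hy0 hy1 (fun x hx z hz => if_pos ?_) (fun x hx z hz => if_pos ?_)
    (fun x hx z hz => if_neg ?_) (fun x hx z hz => if_neg ?_)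
    fun x hx d hd => ⟨if_neg ?_, if_pos ?_, if_neg ?_, if_pos ?_⟩
  · have := blc_lab (R := R) hφ (bl_cvx k o (convex_closedBall 0 (4 * δ)))
      (fun x hx => hW x (mem_closedBall_zero_iff.1 hx)) (s := s) (t := L '' t)
      (fun v hv => ⟨mem_closedBall_zero_iff.2 (by linarith [hN _ (h1.blmem hv)]), h1.2 v hv⟩)
      (by
        rintro _ ⟨z, hz, rfl⟩
        refine ⟨mem_closedBall_zero_iff.2 ?_, fun w hw => (hs t h2 h3 _ ⟨z, hz, rfl⟩ w hw).2⟩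
        have h4 := norm_sub_norm_le (k ((L z).1 - o)) ((0, 0), z)
        have h5 : ‖(((0, 0), z) : BL4)‖ = ‖z‖ := by simp
        linarith [hL z (nz z (h2 hz)), nz z (h2 hz)])
    exact fun x hx y hy => this _ ⟨hx.1, _, hx.2, rfl⟩ _ ⟨hy.1, _, hy.2, rfl⟩
  all_goals simp only [Prod.map, id, df _ (L _).1, Prod.fst_sub, Prod.snd_sub, not_lt]
  · linarith [hN0 _ hx, abs_le.1 (cz z hz).1]
  · linarith [hN1 _ hx, abs_le.1 (cz z hz).2.1]
  · linarith [hN2 _ hx, abs_le.1 (cz z hz).1]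
  · linarith [hN3 _ hx, abs_le.1 (cz z hz).2.1]
  · linarith [hN _ hx, abs_le.1 (bl_comp (k (x.1 - o))).2.2.1,
      abs_le.1 (cz (_, d) ⟨m1, hd⟩).2.2.1]
  · linarith [hN _ hx, abs_le.1 (bl_comp (k (x.1 - o))).2.2.1,
      abs_le.1 (cz (_, d) ⟨m0, hd⟩).2.2.1]
  · linarith [hN _ hx, abs_le.1 (bl_comp (k (x.1 - o))).2.2.2,
      abs_le.1 (cz (d, _) ⟨hd, m1⟩).2.2.2]
  · linarith [hN _ hx, abs_le.1 (bl_comp (k (x.1 - o))).2.2.2,
      abs_le.1 (cz (d, _) ⟨hd, m0⟩).2.2.2]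

end

theorem blanch (R : Type) [CommRing R] {Γ : Type} [Group Γ] {W : Set E4} (hW : IsOpen W)
    (h0 : (0 : E4) ∉ W) {K : Set S3} (hK : IsClosed K) {s r : ℝ} (hs : s = 1 ∨ s = -1)
    (hr : 1 / 2 ≤ r) (hE : EndAt W K s r) {φ : E4 → E4 → Γ} (hφ : Coc W φ) {D : ℂ → S3}
    {β : ℝ → S3} (hB : Box Subtype.val K D β) {Δ r₁ r₂ q : MonoidAlgebra R Γ} (hΔ : Kills Δ φ W)
    (hq : ∀ γ, Commute q (MonoidAlgebra.of R Γ γ)) {ξ : NN R φ (OO K β r)}
    (h1 : inc R φ (OO_sub hs hr hE β) ξ = 0) {γ : Γ}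
    (h2 : (rhoN R φ _).asAlgebraHom r₁ ξ = (rhoN R φ _).asAlgebraHom r₂
      (rhoN R φ _ γ (hol (lev r (Mg R φ (OO K β r))) (circ fun θ => D θ)).v))
    (h3 : hol (lev r φ) β = 1)
    (h4 : (rhoN R φ W).asAlgebraHom q (hol (lev r (Mg R φ W)) β).v = 0) :
    ∃ (w : MonoidAlgebra R Γ) (σ : ℤˣ), Δ * (r₁ * w - (σ : ℤ) • (r₂ * bar q)) = 0 := by
  have hOW := OO_sub hs hr hE β
  have hOO := OO_open hK hr hB.cb hB.per
  have hm : ∀ z : ℝ × ℝ, z.2 ∈ Icc (-(3 / 8)) (3 / 8) → blG β s r z ∈ W := fun z hz =>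
    (hE _ _ (bl_pos hs hr hz) (by rcases hs with rfl | rfl <;> linarith [hz.2])).2 (hB.bK _)
  let O : Set E4 := W ∩ {x | |s * (‖x‖ - r)| < 1 / 4}
  have O1 : O ⊆ BLU W s r (-(1 / 4)) := fun x hx =>
    ⟨hx.1, (abs_lt.1 (show |s * (‖x‖ - r)| < 1 / 4 from hx.2)).1⟩
  have O2 : ∀ x ∈ BLU W s r (1 / 4), x ∉ O := fun x hx hx' =>
    lt_asymm hx.2 (abs_lt.1 (show |s * (‖x‖ - r)| < 1 / 4 from hx'.2)).2
  have O3 : OO K β r ⊆ O := fun x hx => ⟨hOW hx, by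
    obtain ⟨y, t, ht, -, -, rfl⟩ := hx
    rw [mem_ofPred_eq, Ends_norm y (by linarith [(abs_lt.1 ht).1])]
    rcases hs with rfl | rfl <;> simpa [abs_sub_comm] using ht⟩
  have O4 : ∀ z ∈ BLQ, blG β s r z ∉ OO K β r := by
    rintro z hz ⟨y, t, ht, -, hy, e⟩
    exact hy ⟨_, (Ends_inj (bl_pos hs hr hz.2) (by linarith [(abs_lt.1 ht).1]) e).1⟩
  obtain ⟨k, κ, δ, hδ, hδ', hκ, l1, l2, l3, l4⟩ := bl_local hB hs hr (O := O)
    ((hW.inter (isOpen_lt (by fun_prop) continuous_const)).mem_nhds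
      ⟨(hE _ _ (by linarith) (by simp)).2 (hB.bK 0), by
        rw [mem_ofPred_eq, Ends_norm _ (by linarith)]; simp⟩)
  let N : Set E4 := {x | k (x - r • (β 0).1) ∈ Metric.ball 0 (5 * δ / 2)}
  have hN : ∀ x, x ∈ N ↔ ‖k (x - r • (β 0).1)‖ < 5 * δ / 2 := fun x => mem_ball_zero_iff
  have NO : N ⊆ O := fun x hx => l1 x (by linarith [(hN x).1 hx])
  have NW : N ⊆ W := NO.trans inter_subset_left
  have lin1 : IsLinearMap ℝ fun u : BL4 => u.1.1 := ⟨fun _ _ => rfl, fun _ _ => rfl⟩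
  have lin2 : IsLinearMap ℝ fun u : BL4 => u.1.2 := ⟨fun _ _ => rfl, fun _ _ => rfl⟩
  obtain ⟨a, a0, a1, a2, a3, y0, y1, g, ha, ea, ha0, ha1, ha2, ha3, e0, hy0, hy1, hbd, hg⟩ :=
    bl_disc (R := R) hOO hOW hφ (f := fun z => r • (D z).1) (by have := hB.cD; fun_prop)
      (fun z hz hz' => ⟨D z, r, by simp, hB.DK z hz, hB.Db z hz hz', rfl⟩) hδ (by linarith)
      (bl_cvx k _ (convex_ball 0 _)) NW (bl_cvx k (r • (β 0).1) (convex_halfSpace_gt lin1 (δ / 2)))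
      (bl_cvx k (r • (β 0).1) (convex_halfSpace_gt lin2 (δ / 2)))
      (bl_cvx k (r • (β 0).1) (convex_halfSpace_lt lin1 (-(δ / 2))))
      (bl_cvx k (r • (β 0).1) (convex_halfSpace_lt lin2 (-(δ / 2))))
      fun x y hxy z hz hx hy => by
        have := l2 z hz.le
        rw [hx, hy] at this
        exact ⟨(hN _).2 (bl_signs hδ hxy this).1, (bl_signs hδ hxy this).2⟩
  obtain ⟨x, hx, rfl⟩ := cls_surj ξ
  obtain ⟨X', hX', eX'⟩ := cls_eq_zero.1 ((inc_cls _ hx).symm.trans h1)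
  obtain ⟨X, hX, eX⟩ := bl_push hW h0 hs hr hE hφ (c := -(1 / 4)) (by norm_num) hX'
    (eX' ▸ CC_mono (O3.trans O1) hx)
  have h2' : (rhoN R φ _).asAlgebraHom r₁ (cls x hx) =
      (rhoN R φ _).asAlgebraHom (r₂ * MonoidAlgebra.of R Γ (γ * g)) (cls _ hbd) := by
    rw [h2, map_mul, Representation.asAlgebraHom_of, map_mul]
    exact congrArg (fun v => (rhoN R φ _).asAlgebraHom r₂ (rhoN R φ _ γ v)) hg
  rw [rhoN_alg, rhoN_alg, cls_eq] at h2'
  obtain ⟨A, hA, eA⟩ := h2'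
  generalize hr₃ : r₂ * MonoidAlgebra.of R Γ (γ * g) = r₃ at eA
  have hZ : (rho R E4 Γ).asAlgebraHom r₁ X - A - (rho R E4 Γ).asAlgebraHom r₃ a ∈
      CC R φ (BLU W s r (-(1 / 4))) 3 :=
    sub_mem (sub_mem (rho_mem _ hX) (CC_mono (O3.trans O1) hA))
      (rho_mem _ (CC_mono (NO.trans O1) ha))
  obtain ⟨V', hV', eV'⟩ := hΔ _ (CC_mono inter_subset_left hZ) (by
    rw [map_sub, map_sub, bd_rho, bd_rho, eX, eX', eA]; abel)
  obtain ⟨V, hV, eV⟩ := bl_push hW h0 hs hr hE hφ (c := -(1 / 4)) (by norm_num) hV'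
    (eV' ▸ rho_mem _ hZ)
  obtain ⟨ρ1, p1, m1⟩ := bl_margin (BLU_open hW s r _) hV
  obtain ⟨ρ2, p2, m2⟩ := bl_margin hOO hA
  obtain ⟨ρ3, p3, m3⟩ := bl_margin (O := N) (Metric.isOpen_ball.preimage (by fun_prop)) ha
  obtain ⟨ε, hε, hn⟩ := exists_BLn hκ (lt_min p1 (lt_min p2 p3))
  replace m1 := m1 _ (min_le_left _ (min ρ2 ρ3))
  replace m2 := m2 _ ((min_le_right ρ1 _).trans (min_le_left _ ρ3))
  replace m3 := m3 _ ((min_le_right ρ1 _).trans (min_le_right ρ2 _))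
  generalize min ρ1 (min ρ2 ρ3) = ρ at hn m1 m2 m3
  obtain ⟨S, S1, S2, S3, S4⟩ := bl_sd R hφ hε
  have S5 : ∀ {U : Set E4} {n}, U ⊆ W → n ≤ 4 → ∀ c ∈ C R (Ad φ fun t => t ⊆ U ∧
      ∀ x ∈ t, Metric.ball x ρ ⊆ U) n, S c ∈ C R (BLa φ ε ρ U) n := fun hU hn c hc =>
    C_mono (fun t ht => ⟨ht.bls, fun v hv => ht.1.1.2 _ (subset_convexHull ℝ _ ⟨v, hv, rfl⟩)⟩)
      (S4 _ (fun _ _ e h => ⟨e.trans h.1, fun x hx => h.2 x (e hx)⟩)
        (fun _ h => h.1.trans hU) _ hn c hc)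
  have S6 : ∀ {U : Set E4} {n}, U ⊆ W → n ≤ 4 → ∀ c ∈ CC R φ U n, S c ∈ CC R φ U n :=
    fun hU hn c hc => C_mono (Ad.mono fun _ h => h.1)
      (S4 _ (her_sub _) (fun _ h => h.trans hU) _ hn c hc)
  replace m1 := S5 inter_subset_left le_rfl _ m1
  replace m2 := S5 hOW (by norm_num) _ m2
  replace m3 := S5 NW (by norm_num) _ m3
  obtain ⟨L, η, p, b, u, v, hη, hL, hp, ep, hLs, hb, eb, hv, hu, hu', eu⟩ :=
    bl_cyl (R := R) hW hs hr hφ hB.cb hB.per hm h3 (δ := 3 * δ) (by linarith) (by linarith) hε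
  rw [← eu, rhoN_alg, cls_eq_zero] at h4
  obtain ⟨Y0, hY0, eY0⟩ := h4
  obtain ⟨Y1, hY1, eY1⟩ := bl_push hW h0 hs hr hE hφ (c := 1 / 4) (by norm_num) hY0
    (eY0 ▸ rho_mem _ (C_mono (Ad.mono fun _ h => h.1) hu))
  obtain ⟨c', hc', d, -, e, he, eY2⟩ := refine (hφ.mono inter_subset_left)
    (fun x _ => bl_loc_sm hε x) (mach_her_and (her_sub _) (her_Sm ε)) (fun _ h => h.1) hY1
    (by rw [eY1, eY0]; exact rho_mem _ hu)
  have hY := add_mem hc' he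
  have eY : bd (c' + e) = (rho R E4 Γ).asAlgebraHom q u := by
    rw [← eY0, ← eY1, eY2]; simp
  generalize c' + e = Y at hY eY
  have hYO : Y ∈ C R (fun t => BLs φ ε t ∧ ∀ w ∈ t, w.1 ∉ O) 3 :=
    C_mono (fun t ht => ⟨ht.bls, fun w hw =>
      O2 _ (ht.1.1 (subset_convexHull ℝ _ ⟨w, hw, rfl⟩))⟩) hY
  have IQ : Icc (-(3 * δ)) (3 * δ) ×ˢ Icc (-(3 * δ)) (3 * δ) ⊆ BLQ :=
    prod_mono (Icc_subset_Icc (by linarith) (by linarith))
      (Icc_subset_Icc (by linarith) (by linarith))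
  have hc : mp L (blSh p p) + b ∈ C R (fun t => BLs φ ε t ∧ ∀ w ∈ t, w.1 ∉ OO K β r) 3 := by
    refine add_mem (mp_mem (fun t ht => ⟨hLs t (ht.1.trans IQ) ht.2, ?_⟩) (bl_sh_mem hp hp))
      (C_mono (fun t ht => ⟨ht.1, fun w hw => ?_⟩) hb)
    · rintro _ ⟨z, hz, rfl⟩
      exact hL z ▸ O4 z (IQ (ht.1 hz))
    · obtain ⟨z, hz, -, e⟩ := ht.2 w hw
      exact e ▸ O4 z hz
  obtain ⟨g0, hg0⟩ := bl_centre hφ hδ (fun x hx => (l1 x hx).1) (fun z hz => hL z ▸ l3 z hz) hη hp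
    ep (fun t ht => hLs t (ht.trans IQ)) (fun x => (hN x).1) (fun _ h => h) (fun _ h => h)
    (fun _ h => h) (fun _ h => h) (S6 NW (by norm_num) _ ha)
    (by rw [S3 _ _ (CC_mono NW ha), ea]; simp only [map_add])
    (S6 (inter_subset_left.trans NW) (by norm_num) _ ha0)
    (S6 (inter_subset_left.trans NW) (by norm_num) _ ha1)
    (S6 (inter_subset_left.trans NW) (by norm_num) _ ha2)
    (S6 (inter_subset_left.trans NW) (by norm_num) _ ha3)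
    (by rw [S3 _ _ (CC_mono (inter_subset_left.trans NW) ha0), e0, map_sub, S2 _ (NW hy0.1),
      S2 _ (NW hy1.1.1)]) hy0.2 hy1
  have mV : S V ∈ C R (BLa φ ε ρ W) 4 :=
    C_mono (fun t ht => ⟨ht.1, fun v hv => (ht.2 v hv).trans inter_subset_left⟩) m1
  have s1 := blP_stokes hφ hn mV (C_mono (fun _ h => h.1) hc)
  have s2 := blP_stokes hφ hn mV (C_mono (fun _ h => h.1) hYO)
  have f1 : blP R φ k (S V) v = 0 := blP_far hn m1 (C_mono (fun t ht => ⟨ht.1, fun w hw h => by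
    have := h.2
    rw [mem_ofPred_eq, ht.2 w hw] at this
    norm_num at this⟩) hv)
  have f2 := blP_far hn m2 hc
  have f3 := blP_far hn m2 (C_mono (fun t ht => ⟨ht.1, fun w hw h => ht.2 w hw (O3 h)⟩) hYO)
  have f4 := blP_far hn m3 (C_mono (fun t ht => ⟨ht.1, fun w hw h => ht.2 w hw (NO h)⟩) hYO)
  have f5 := blP_far hn m3 (C_mono (fun t ht => ⟨ht.1, fun w hw h => by
    obtain ⟨z, hz, hz', e⟩ := ht.2 w hw
    exact ((hN _).1 (e ▸ h)).not_ge (l4 z hz hz')⟩) hb)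
  have f6 : blP R φ k (S a) (mp L (blSh p p) + b) = -MonoidAlgebra.of R Γ g0 := by
    rw [map_add, hg0, f5, add_zero]
  have eS : ∀ y, blP R φ k (bd (S V)) y = Δ * (r₁ * blP R φ k (S X) y - blP R φ k (S A) y -
      r₃ * blP R φ k (S a) y) := fun y => by
    rw [S3 _ _ (CC_mono inter_subset_left hV), eV, eV', S1, blP_rho_left]
    simp only [map_sub, S1, LinearMap.sub_apply, blP_rho_left]
  rw [eS, eb, map_sub, f1, f2, f6] at s1
  rw [eS, eY, blP_rho_right, f3, f4] at s2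
  refine ⟨(blP R φ k (S X) (mp L (blSh p p) + b) * bar q + blP R φ k (S X) Y) *
    MonoidAlgebra.of R Γ (γ * g * g0)⁻¹, -1, ?_⟩
  have u1 : r₂ * bar q =
      r₃ * MonoidAlgebra.of R Γ g0 * bar q * MonoidAlgebra.of R Γ (γ * g * g0)⁻¹ := by
    rw [← hr₃, mul_assoc r₂, ← map_mul, mul_assoc r₂, bl_bar_comm hq, mul_assoc, mul_assoc,
      ← map_mul, mul_inv_cancel, map_one, mul_one]
  have n4 : (-1 : R) ^ 4 = 1 := by norm_num
  rw [n4, one_smul] at s1 s2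
  have key : Δ * (r₁ * (blP R φ k (S X) (mp L (blSh p p) + b) * bar q + blP R φ k (S X) Y) +
      r₃ * MonoidAlgebra.of R Γ g0 * bar q) = 0 := by
    have := congrArg (· * bar q) s1
    linear_combination (norm := noncomm_ring) this + s2
  have := congrArg (· * MonoidAlgebra.of R Γ (γ * g * g0)⁻¹) key
  rw [u1]
  simp only [Units.val_neg, Units.val_one, neg_smul, one_smul, sub_neg_eq_add]
  linear_combination (norm := noncomm_ring) this

end Pool.Agent.MP_b8a826_gt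

end
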