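import Pool.Agent.MP_b8a826_gt.Mg.KSide2
import Pool.Agent.MP_b8a826_gt.Mg.BL

-- part MP_b8a826_gt.AlgA
section

/-! Algebra modulo two: the finite quotient in which the longitude survives. -/

namespace Pool.Agent.MP_b8a826_gt
open Set MonoidAlgebra

theorem Br.tau {G A : Type} [Group G] [CommGroup A] (τ : G →* A) {m s : G} (h : Br m s) :
    τ s = τ m ∧ τ (lw m s) = 1 := by
  have e : τ m * τ s * τ m = τ s * τ m * τ s := by simpa using congrArg τ h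
  have e' : τ s = τ m := by
    rw [mul_comm (τ s) (τ m)] at e
    exact (mul_left_cancel e).symm
  refine ⟨e', ?_⟩
  simp only [lw, map_mul, map_pow, map_inv, e']
  rw [← sq, ← pow_mul, inv_pow, mul_inv_cancel]

/-- Plan: both sides equal `s * m ^ 2 * s * m⁻¹ ^ 4`; use `s m s⁻¹ = m⁻¹ s m` and
`(m s) ^ 3 = (s m) ^ 3 = s m m s m m`. -/
theorem Br.lw_eq {G : Type} [Group G] {m s : G} (h : Br m s) :
    ∀ a b, a = s * m⁻¹ → b = m * a * m⁻¹ → lw m s = s * m * (b * a * b⁻¹ * a⁻¹) * (s * m)⁻¹ := by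
  rintro a b rfl rfl
  have h' : m * s * m = s * m * s := h
  have k : s * m * s⁻¹ = m⁻¹ * s * m := by
    calc s * m * s⁻¹ = m⁻¹ * (m * s * m) * s⁻¹ := by group
      _ = m⁻¹ * (s * m * s) * s⁻¹ := by rw [h']
      _ = m⁻¹ * s * m := by group
  calc lw m s = (m * s * m) * (s * m * s) * m⁻¹ ^ 6 := by rw [lw]; simp only [pow_succ]; group
    _ = (s * m * s) * (m * s * m) * m⁻¹ ^ 6 := by rw [h']
    _ = s * m * (s * m * s) * m * m⁻¹ ^ 6 := by group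
    _ = s * m * (m * s * m) * m * m⁻¹ ^ 6 := by rw [h']
    _ = s * m * m * s * m⁻¹ * m⁻¹ * m⁻¹ * (m⁻¹ * s * m) * m⁻¹ * s⁻¹ := by group
    _ = s * m * m * s * m⁻¹ * m⁻¹ * m⁻¹ * (s * m * s⁻¹) * m⁻¹ * s⁻¹ := by rw [k]
    _ = s * m * m * s * m⁻¹ * m⁻¹ * (m⁻¹ * s * m) * s⁻¹ * m⁻¹ * s⁻¹ := by group
    _ = s * m * m * s * m⁻¹ * m⁻¹ * (s * m * s⁻¹) * s⁻¹ * m⁻¹ * s⁻¹ := by rw [k]
    _ = _ := by group

theorem Br.cent {G : Type} [Group G] {m s : G} (h : Br m s) :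
    ∀ g ∈ Subgroup.closure {m, s}, Commute ((m * s) ^ 3) g := by
  have h' : m * s * m = s * m * s := h
  have e : (m * s) ^ 3 = m * s * m * (m * s * m) := by
    calc (m * s) ^ 3 = m * s * m * (s * m * s) := by simp only [pow_succ]; group
      _ = _ := by rw [← h']
  have k1 : m * s * m * s = m * (m * s * m) := by
    calc m * s * m * s = m * (s * m * s) := by group
      _ = _ := by rw [← h']
  have k2 : m * s * m * m = s * (m * s * m) := by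
    calc m * s * m * m = s * m * s * m := by rw [h']
      _ = _ := by group
  intro g hg
  rw [e]
  induction hg using Subgroup.closure_induction with
  | mem x hx =>
    rcases hx with rfl | rfl
    · rw [Commute, SemiconjBy, mul_assoc _ _ x, k2, ← mul_assoc _ s, k1, mul_assoc x]
    · rw [Commute, SemiconjBy, mul_assoc _ _ x, k1, ← mul_assoc _ m, k2, mul_assoc x]
  | one => exact Commute.one_right _
  | mul x y _ _ h1 h2 => exact h1.mul_right h2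
  | inv x _ h1 => exact h1.inv_right

theorem Br.map {G G' : Type} [Group G] [Group G'] (k : G →* G') {m s : G} (h : Br m s) :
    Br (k m) (k s) := by
  simpa [Br] using congrArg k h

theorem map_lw {G G' : Type} [Group G] [Group G'] (k : G →* G') (m s : G) :
    k (lw m s) = lw (k m) (k s) := by simp [lw]

theorem z0_root : 2 * z0 ^ 2 - 3 * z0 + 2 = 0 := by
  have h7 : ((√7 : ℝ) : ℂ) ^ 2 = 7 := by
    rw [← Complex.ofReal_pow, Real.sq_sqrt (by norm_num)]; norm_num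
  unfold z0
  linear_combination (Complex.I ^ 2 / 8) * h7 + (7 / 8) * Complex.I_sq

theorem z0_conj : z0 * (starRingEnd ℂ) z0 = 1 := by
  have h7 : ((√7 : ℝ) : ℂ) ^ 2 = 7 := by
    rw [← Complex.ofReal_pow, Real.sq_sqrt (by norm_num)]; norm_num
  unfold z0
  simp only [map_div₀, map_add, map_mul, Complex.conj_ofReal, Complex.conj_I, map_ofNat]
  linear_combination (-Complex.I ^ 2 / 16) * h7 - (7 / 16) * Complex.I_sq

/-- Plan: `a n = 2 ^ n * (z ^ n + z̄ ^ n)` satisfies `a (n+2) = 3 a (n+1) - 4 a n`, so it is an odd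
integer for `n ≥ 1`; a real power `z ^ M = ±1` would give the even number `± 2 ^ (M+1)`. -/
theorem z0_pow_im {M : ℕ} (hM : M ≠ 0) : (z0 ^ M).im ≠ 0 := by
  have key : ∀ n : ℕ, ∃ p q : ℤ, Even p ∧ Odd q ∧ (2 * z0) ^ (n + 1) = p + q * (2 * z0) := by
    intro n
    induction n with
    | zero => exact ⟨0, 1, by simp, by simp, by simp⟩
    | succ n ih =>
      obtain ⟨p, q, hp, hq, e⟩ := ih
      refine ⟨-4 * q, p + 3 * q, ⟨-2 * q, by ring⟩, hp.add_odd (Odd.mul (by decide) hq), ?_⟩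
      rw [pow_succ, e]
      push_cast
      linear_combination (2 * q : ℂ) * z0_root
  obtain ⟨n, rfl⟩ := Nat.exists_eq_succ_of_ne_zero hM
  obtain ⟨p, q, -, hq, e⟩ := key n
  intro h0
  have h1 : ((2 * z0) ^ (n + 1)).im = 0 := by
    rw [mul_pow, show (2 : ℂ) ^ (n + 1) = ((2 ^ (n + 1) : ℝ) : ℂ) by push_cast; rfl,
      Complex.im_ofReal_mul, h0, mul_zero]
  have h2 : z0.im = √7 / 4 := by simp [z0]
  have h3 : (0 : ℝ) < √7 := by positivity
  rw [e] at h1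
  simp only [Complex.add_im, Complex.intCast_im, Complex.mul_im, Complex.intCast_re,
    Complex.re_ofNat, Complex.im_ofNat, h2, zero_mul, add_zero, zero_add] at h1
  have h4 : (q : ℝ) = 0 := (mul_eq_zero.1 h1).resolve_right (by positivity)
  have h5 : q = 0 := by exact_mod_cast h4
  rw [h5] at hq
  exact absurd hq (by decide)

/-- Plan: `MonoidAlgebra (ZMod 2) MZ` is a domain; evaluate (`MonoidAlgebra.lift`) at a root `ω` of
`X² + X + 1` in `AlgebraicClosure (ZMod 2)` or `GaloisField 2 2`; `ω⁻¹` is a root too. -/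
theorem f1a {t : MZ} (ht : Gen t) {Δ : MonoidAlgebra (ZMod 2) MZ} (hΔ : Δ ≠ 0)
    (w : MonoidAlgebra (ZMod 2) MZ) (σ : ℤˣ) :
    Δ * ((of _ _ (t * t) - of _ _ t + 1) * w - (σ : ℤ) • ((of _ _ t - 1) * bar 1)) ≠ 0 := by
  refine mul_ne_zero hΔ fun h0 => ?_
  obtain ⟨ω, hω⟩ : ∃ ω : AlgebraicClosure (ZMod 2), ω * ω - ω + 1 = 0 := by
    obtain ⟨ω, hω⟩ := IsAlgClosed.exists_root (k := AlgebraicClosure (ZMod 2))
      (Polynomial.X ^ 2 - Polynomial.X + 1) (by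
        rw [show (Polynomial.X ^ 2 - Polynomial.X + 1 :
          Polynomial (AlgebraicClosure (ZMod 2))).degree = 2 by compute_degree!]
        decide)
    exact ⟨ω, by simpa [sq] using hω⟩
  have h1 : ω ≠ 0 := by rintro rfl; simp at hω
  have h2 : ω - 1 ≠ 0 := fun e => by
    rw [sub_eq_zero.1 e] at hω; simp at hω
  obtain ⟨f, hf⟩ : ∃ f : MZ →* AlgebraicClosure (ZMod 2), f t = ω := by
    rcases ht with rfl | rfl
    · exact ⟨(Units.coeHom _).comp (zpowersHom _ (Units.mk0 ω h1)), by simp⟩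
    · exact ⟨(Units.coeHom _).comp (zpowersHom _ (Units.mk0 ω h1)⁻¹), by simp⟩
  have hb : bar (1 : MonoidAlgebra (ZMod 2) MZ) = 1 := by
    simp [bar, MonoidAlgebra.one_def]
  have := congrArg (MonoidAlgebra.lift (ZMod 2) (AlgebraicClosure (ZMod 2)) MZ f) h0
  simp only [hb, map_sub, map_mul, map_add, map_one, map_zsmul, lift_of, hf, hω, zero_mul, mul_one,
    zero_sub, map_zero, neg_eq_zero] at this
  rcases Int.units_eq_one_or σ with rfl | rfl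
  · exact h2 (by simpa only [Units.val_one, one_zsmul] using this)
  · exact h2 (by simpa only [Units.val_neg, Units.val_one, neg_zsmul, one_zsmul, neg_eq_zero]
      using this)

/-- A common central power. Plan: conjugation by `g` permutes each fibre of `τ`, a finite set with
`n = card τ.ker` elements, so `g ^ n !` is central; take `e = n ! * n`. -/
theorem exists_cent {Γ : Type} [Group Γ] (τ : Γ →* MZ) [Finite τ.ker] : ∃ e : ℕ, e ≠ 0 ∧
    (∀ g γ : Γ, Commute (g ^ e) γ) ∧ ∀ g g' : Γ, τ g = τ g' → g ^ e = g' ^ e := by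
  have := Fintype.ofFinite τ.ker
  set n := Fintype.card τ.ker with hn
  have c1 : ∀ g γ : Γ, Commute (g ^ n.factorial) γ := by
    intro g γ
    have key : ∀ i j : ℕ, i < j → j ≤ n → γ⁻¹ * (g ^ i * γ * (g ^ i)⁻¹) =
        γ⁻¹ * (g ^ j * γ * (g ^ j)⁻¹) → Commute (g ^ n.factorial) γ := by
      intro i j hij hj e
      obtain ⟨k, rfl⟩ := Nat.exists_eq_add_of_lt hij
      obtain ⟨c, hc⟩ := Nat.dvd_factorial (Nat.succ_pos k) (show k + 1 ≤ n by omega)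
      rw [hc, pow_mul]
      refine Commute.pow_left ?_ c
      have e' := mul_left_cancel e
      rw [add_assoc, pow_add] at e'
      generalize g ^ (k + 1) = u at e' ⊢
      calc u * γ = (g ^ i)⁻¹ * (g ^ i * u * γ * (g ^ i * u)⁻¹) * (g ^ i * u) := by group
        _ = γ * u := by rw [← e']; group
    obtain ⟨i, j, hij, e⟩ := Fintype.exists_ne_map_eq_of_card_lt
      (fun i : Fin (n + 1) => (⟨γ⁻¹ * (g ^ i.1 * γ * (g ^ i.1)⁻¹), by
        simp [MonoidHom.mem_ker, mul_comm]⟩ : τ.ker)) (by simp [hn])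
    have e' := congrArg Subtype.val e
    rcases lt_or_gt_of_ne (Fin.val_ne_of_ne hij) with h | h
    · exact key i j h (Nat.lt_succ_iff.1 j.2) e'
    · exact key j i h (Nat.lt_succ_iff.1 i.2) e'.symm
  refine ⟨n.factorial * n, mul_ne_zero n.factorial_ne_zero Fintype.card_ne_zero,
    fun g γ => ?_, fun g g' e => ?_⟩
  · rw [pow_mul]; exact (c1 g γ).pow_left n
  · have hk : (g ^ n.factorial)⁻¹ * g' ^ n.factorial ∈ τ.ker := by
      simp [MonoidHom.mem_ker, e]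
    have h1 := congrArg Subtype.val (pow_card_eq_one (x := (⟨_, hk⟩ : τ.ker)))
    rw [Subgroup.coe_pow, (c1 g _).inv_left.mul_pow, inv_pow] at h1
    rw [pow_mul, pow_mul]
    exact inv_mul_eq_one.1 h1

end Pool.Agent.MP_b8a826_gt

end

-- part MP_b8a826_gt.AlgB
section

/-! The normalised derivation and the rational vanishing of the pattern class. -/

namespace Pool.Agent.MP_b8a826_gt
open Set MonoidAlgebra Polynomial

variable {Γ N : Type} [Group Γ] [AddCommGroup N]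

/-- The central element `(1 - ℓ) (s - 1)` of the group ring. -/
noncomputable def nu (ℓ s : Γ) : MonoidAlgebra ℤ Γ := (1 - of ℤ Γ ℓ) * (of ℤ Γ s - 1)

theorem nu_comm {ℓ s : Γ} (hℓ : ∀ γ, Commute ℓ γ) (hs : ∀ γ, Commute s γ) (γ : Γ) :
    Commute (nu ℓ s) (of ℤ Γ γ) := by
  have h : ∀ a : Γ, (∀ γ, Commute a γ) → Commute (of ℤ Γ a) (of ℤ Γ γ) :=
    fun a ha => (ha γ).map _
  exact ((Commute.one_left _).sub_left (h ℓ hℓ)).mul_left ((h s hs).sub_left (Commute.one_left _))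

theorem rho_comm (ρ : Representation ℤ Γ N) {ν : MonoidAlgebra ℤ Γ}
    (hν : ∀ γ, Commute ν (of ℤ Γ γ)) (γ : Γ) (v : N) :
    ρ.asAlgebraHom ν (ρ γ v) = ρ γ (ρ.asAlgebraHom ν v) := by
  rw [← ρ.asAlgebraHom_of, ← Module.End.mul_apply, ← map_mul, (hν γ).eq, map_mul]; rfl

/-- The normalising endomorphism of the semidirect product. -/
noncomputable def kap (ρ : Representation ℤ Γ N) {ν : MonoidAlgebra ℤ Γ}
    (hν : ∀ γ, Commute ν (of ℤ Γ γ)) (n : ℤ) (y : N) : SD ρ →* SD ρ where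
  toFun x := ⟨n • (2 • ρ.asAlgebraHom ν x.v + ρ x.g (ρ.asAlgebraHom ν y) - ρ.asAlgebraHom ν y), x.g⟩
  map_one' := by ext <;> simp
  map_mul' x x' := by
    ext
    · simp only [SD.mul_v, SD.mul_g, map_add, map_mul, Module.End.mul_apply, rho_comm ρ hν,
        map_zsmul, map_sub, map_nsmul]
      module
    · rfl

theorem rho_nu (ρ : Representation ℤ Γ N) {ℓ : Γ} (s : Γ) (h2 : ℓ ^ 2 = 1) (v : N) :
    ρ ℓ (ρ.asAlgebraHom (nu ℓ s) v) = -ρ.asAlgebraHom (nu ℓ s) v := by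
  have : of ℤ Γ ℓ * nu ℓ s = -nu ℓ s := by
    have : of ℤ Γ ℓ * of ℤ Γ ℓ = 1 := by rw [← map_mul, ← sq, h2, map_one]
    rw [nu, ← mul_assoc, mul_sub (of ℤ Γ ℓ) 1, this, mul_one, ← neg_mul, neg_sub]
  rw [← ρ.asAlgebraHom_of, ← Module.End.mul_apply, ← map_mul, this, map_neg]; rfl

/-- On the group of a trefoil the normalised derivation is inner. Plan: `H = ((m b) ^ 3) ^ j` commutes
with `g` (`Br.cent`), so `(s - 1) (k g).v = (g - 1) (k H).v`; `v = 2 (1 - ℓ) (k H).v + ν y`. -/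
theorem kap_inner {π : Type} [Group π] {ρ : Representation ℤ Γ N} (k : π →* SD ρ) {ℓ s : Γ}
    (hℓ : ∀ γ, Commute ℓ γ) (hs : ∀ γ, Commute s γ) (y : N) {m b : π} (hb : Br m b) {j : ℤ}
    (hj : s = (k ((m * b) ^ 3)).g ^ j) : ∃ v, ∀ g ∈ Subgroup.closure {m, b},
      (kap ρ (nu_comm hℓ hs) 1 y (k g)).v = ρ (k g).g v - v := by
  have hH : (k (((m * b) ^ 3) ^ j)).g = s := by
    rw [hj, map_zpow]
    exact map_zpow (SD.snd ρ) _ j
  set u := (k (((m * b) ^ 3) ^ j)).v with hu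
  refine ⟨2 • (u - ρ ℓ u) + ρ.asAlgebraHom (nu ℓ s) y, fun g hg => ?_⟩
  have h1 := congrArg (fun x => (k x).v) ((hb.cent g hg).zpow_left j).eq
  simp only [map_mul, SD.mul_v, hH, ← hu] at h1
  have h2 : ρ s (k g).v - (k g).v = ρ (k g).g u - u := by
    rw [sub_eq_sub_iff_add_eq_add, add_comm, h1, add_comm]
  have h3 : ρ ℓ (ρ (k g).g u) = ρ (k g).g (ρ ℓ u) := by
    rw [← Module.End.mul_apply, ← map_mul, (hℓ _).eq, map_mul, Module.End.mul_apply]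
  have h4 : ρ.asAlgebraHom (nu ℓ s) (k g).v = ρ (k g).g (u - ρ ℓ u) - (u - ρ ℓ u) := by
    rw [nu, map_mul, map_sub, map_sub, map_one, ρ.asAlgebraHom_of, ρ.asAlgebraHom_of,
      Module.End.mul_apply, LinearMap.sub_apply (ρ s), Module.End.one_apply, h2,
      LinearMap.sub_apply, Module.End.one_apply, map_sub, map_sub, h3]
    abel
  change (1 : ℤ) • (2 • ρ.asAlgebraHom (nu ℓ s) (k g).v + ρ (k g).g (ρ.asAlgebraHom (nu ℓ s) y) -
    ρ.asAlgebraHom (nu ℓ s) y) = _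
  rw [h4, map_add, map_nsmul]
  module

end Pool.Agent.MP_b8a826_gt

end

-- part MP_b8a826_gt.AlgF4
section

namespace Pool.Agent.MP_b8a826_gt
open Set MonoidAlgebra Polynomial

variable {Γ N : Type} [Group Γ] [AddCommGroup N]

section Act
variable {R : Type} [CommRing R] {P : MonoidAlgebra ℤ Γ →+ R} {a a' : MonoidAlgebra ℤ Γ} {b b' : R}

/-- Left multiplication by `a` corresponds to multiplication by `b` under `P`. -/
def AlgF4Act (P : MonoidAlgebra ℤ Γ →+ R) (a : MonoidAlgebra ℤ Γ) (b : R) : Prop :=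
  ∀ x, P (a * x) = b * P x

theorem AlgF4Act.one : AlgF4Act P 1 1 := fun x => by rw [one_mul, one_mul]

theorem AlgF4Act.add (h : AlgF4Act P a b) (h' : AlgF4Act P a' b') :
    AlgF4Act P (a + a') (b + b') := fun x => by rw [add_mul, map_add, h, h', add_mul]

theorem AlgF4Act.sub (h : AlgF4Act P a b) (h' : AlgF4Act P a' b') :
    AlgF4Act P (a - a') (b - b') := fun x => by rw [sub_mul, map_sub, h, h', sub_mul]

theorem AlgF4Act.mul (h : AlgF4Act P a b) (h' : AlgF4Act P a' b') :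
    AlgF4Act P (a * a') (b * b') := fun x => by rw [mul_assoc, h, h', mul_assoc]

theorem AlgF4Act.zsmul (h : AlgF4Act P a b) (n : ℤ) : AlgF4Act P (n • a) (n • b) := fun x => by
  rw [smul_mul_assoc, map_zsmul, h, smul_mul_assoc]

theorem AlgF4Act.nsmul (h : AlgF4Act P a b) (n : ℕ) : AlgF4Act P (n • a) (n • b) := fun x => by
  rw [smul_mul_assoc, map_nsmul, h, smul_mul_assoc]

theorem AlgF4Act.pow (h : AlgF4Act P a b) (n : ℕ) : AlgF4Act P (a ^ n) (b ^ n) := by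
  induction n with
  | zero => rw [pow_zero, pow_zero]; exact AlgF4Act.one
  | succ n ih => rw [pow_succ, pow_succ]; exact ih.mul h

theorem AlgF4Act.aeval (h : AlgF4Act P a b) (r : ℤ[X]) :
    AlgF4Act P (Polynomial.aeval a r) (Polynomial.aeval b r) := by
  induction r using Polynomial.induction_on' with
  | add p q hp hq => rw [map_add, map_add]; exact hp.add hq
  | monomial n c =>
    rw [aeval_monomial, aeval_monomial, ← Algebra.smul_def, ← Algebra.smul_def]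
    exact (h.pow n).zsmul c

theorem AlgF4Act.of_basis {g : Γ} (h : ∀ γ, P (of ℤ Γ (g * γ)) = b * P (of ℤ Γ γ)) :
    AlgF4Act P (of ℤ Γ g) b := by
  intro x
  induction x using MonoidAlgebra.induction_on with
  | of m => rw [← map_mul, h]
  | add x y hx hy => rw [mul_add, map_add, map_add, hx, hy, mul_add]
  | smul r x hx => rw [mul_smul_comm, map_zsmul, map_zsmul, hx, mul_smul_comm]

theorem AlgF4Act.inv {g : Γ} {u : Rˣ} (h : AlgF4Act P (of ℤ Γ g) u) :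
    AlgF4Act P (of ℤ Γ g⁻¹) ((u⁻¹ : Rˣ) : R) := fun x => by
  have := h (of ℤ Γ g⁻¹ * x)
  rw [← mul_assoc, ← map_mul, mul_inv_cancel, map_one, one_mul] at this
  rw [this, ← mul_assoc, Units.inv_mul, one_mul]

theorem AlgF4_proj (τ : Γ →* MZ) {t ℓ : Γ} (ht : Gen (τ t)) (hτ : τ ℓ = 1) (h1 : ℓ ≠ 1)
    (h2 : ℓ ^ 2 = 1) (hℓ : ∀ γ, Commute ℓ γ) (T : Rˣ) : ∃ P : MonoidAlgebra ℤ Γ →+ R,
      P 1 = 1 ∧ AlgF4Act P (of ℤ Γ t) T ∧ AlgF4Act P (of ℤ Γ ℓ) (-1) := by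
  classical
  obtain ⟨e, he1, het, heℓ⟩ : ∃ e : Γ → ℤ, e 1 = 0 ∧ (∀ γ, e (t * γ) = 1 + e γ) ∧
      ∀ γ, e (ℓ * γ) = e γ := by
    refine ⟨fun γ => (τ t).toAdd * (τ γ).toAdd, by simp, fun γ => ?_, fun γ => by simp [hτ]⟩
    simp only [map_mul, toAdd_mul]
    rcases ht with ht | ht <;> rw [ht, toAdd_ofAdd] <;> ring
  have hll : ℓ * ℓ = 1 := by rw [← sq, h2]
  let s : Γ → R := fun γ => if γ = t ^ e γ then 1 else if γ = t ^ e γ * ℓ then -1 else 0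
  have hst : ∀ γ, s (t * γ) = s γ := fun γ => by
    simp only [s, het, zpow_add, zpow_one, mul_assoc, mul_right_inj]
  have hsl : ∀ γ, s (ℓ * γ) = -s γ := fun γ => by
    have a1 : ℓ * γ = t ^ e γ ↔ γ = t ^ e γ * ℓ := by
      rw [← (hℓ _).eq]
      constructor
      · intro h; rw [← h, ← mul_assoc, hll, one_mul]
      · intro h; rw [congrArg (ℓ * ·) h, ← mul_assoc, hll, one_mul]
    have a2 : ℓ * γ = t ^ e γ * ℓ ↔ γ = t ^ e γ := by rw [← (hℓ _).eq, mul_right_inj]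
    have a3 : γ = t ^ e γ → γ ≠ t ^ e γ * ℓ := fun h h' =>
      h1 (mul_left_cancel (a := t ^ e γ) (by rw [← h', mul_one]; exact h))
    simp only [s, heℓ, a1, a2]
    by_cases c1 : γ = t ^ e γ
    · rw [if_neg (a3 c1), if_pos c1, if_pos c1]
    · rw [if_neg c1, if_neg c1]
      split_ifs <;> simp
  let P : MonoidAlgebra ℤ Γ →+ R :=
    liftNC (Int.castAddHom R) fun γ => s γ * ((T ^ e γ : Rˣ) : R)
  have hP : ∀ γ, P (of ℤ Γ γ) = s γ * ((T ^ e γ : Rˣ) : R) := fun γ => by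
    simp only [P, of_apply, liftNC_single, Int.coe_castAddHom, Int.cast_one, one_mul]
  refine ⟨P, ?_, AlgF4Act.of_basis fun γ => ?_, AlgF4Act.of_basis fun γ => ?_⟩
  · rw [← map_one (of ℤ Γ), hP]
    simp [s, he1]
  · rw [hP, hP, hst, het, zpow_add, zpow_one, Units.val_mul]; ring
  · rw [hP, hP, hsl, heℓ]; ring

end Act

theorem AlgF4_bar {ℓ : Γ} (h2 : ℓ ^ 2 = 1) (hℓ : ∀ γ, Commute ℓ γ) (s : Γ) (n : ℤ) :
    bar (n • nu ℓ s) = n • nu ℓ s⁻¹ := by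
  have hi : ℓ⁻¹ = ℓ := inv_eq_of_mul_eq_one_right (by rw [← sq, h2])
  have hb : ∀ x, bar x = mapDomainLinearMap ℤ ℤ (fun g : Γ => g⁻¹) x := fun _ => rfl
  have ho : ∀ g : Γ, mapDomainLinearMap ℤ ℤ (fun g : Γ => g⁻¹) (of ℤ Γ g) = of ℤ Γ g⁻¹ :=
    fun g => mapDomainLinearMap_single _ _ _
  have hn : ∀ s : Γ, nu ℓ s = of ℤ Γ s - of ℤ Γ 1 - of ℤ Γ (ℓ * s) + of ℤ Γ ℓ := fun s => by
    rw [nu, map_mul, map_one]; noncomm_ring
  rw [hb, map_zsmul, hn, hn, map_add, map_sub, map_sub, ho, ho, ho, ho, inv_one, mul_inv_rev, hi,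
    (hℓ _).eq]

/-- Plan. The additive map `p : ℤ[Γ] → ℤ[MZ]` (a domain) sending `t ^ i ↦ T ^ i`, `t ^ i ℓ ↦ -T ^ i`
and all other group elements to zero satisfies `p (t x) = T p x`, `p (ℓ x) = -p x`, `p 1 = 1`.
`bar (nu ℓ s) = nu ℓ s⁻¹`. Cancel `p (T ^ M) ≠ 0` and evaluate at `z0` (`z0_root`, `z0_pow_im`). -/
theorem f4 (τ : Γ →* MZ) {t ℓ : Γ} (ht : Gen (τ t)) (hτ : τ ℓ = 1) (h1 : ℓ ≠ 1) (h2 : ℓ ^ 2 = 1)
    (hℓ : ∀ γ, Commute ℓ γ) {M : ℕ} (hM : M ≠ 0) {p r₂ : ℤ[X]} (hp : p ≠ 0) (hr : aeval z0 r₂ ≠ 0)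
    (c : ℤ) {n : ℤ} (hn : n ≠ 0) (w : MonoidAlgebra ℤ Γ) (σ : ℤˣ) :
    aeval (of ℤ Γ (t ^ M)) p * (c • (2 • of ℤ Γ (t * t) - 3 • of ℤ Γ t + 2 • 1) * w -
      (σ : ℤ) • (aeval (of ℤ Γ t) r₂ * (n • nu ℓ (t ^ M)) * bar (n • nu ℓ (t ^ M)))) ≠ 0 := by
  intro h0
  obtain ⟨T, hT⟩ := LaurentPolynomial.isUnit_T (R := ℤ) 1
  obtain ⟨P, hP1, hPt, hPl⟩ := AlgF4_proj τ ht hτ h1 h2 hℓ T
  have hM1 : AlgF4Act P (of ℤ Γ (t ^ M)) ((T ^ M : (LaurentPolynomial ℤ)ˣ) : _) := by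
    rw [map_pow, Units.val_pow_eq_pow_val]; exact hPt.pow M
  have hnu := ((AlgF4Act.one.sub hPl).mul (hM1.sub AlgF4Act.one)).zsmul n
  have hnu' := ((AlgF4Act.one.sub hPl).mul (hM1.inv.sub AlgF4Act.one)).zsmul n
  have hq := ((((hPt.mul hPt).nsmul 2).sub (hPt.nsmul 3)).add (AlgF4Act.one.nsmul 2)).zsmul c
  have hr2 := ((hPt.aeval r₂).mul hnu).mul hnu' 1
  rw [mul_one, hP1, mul_one] at hr2
  have hE := congrArg P h0
  rw [hM1.aeval p, map_zero, map_sub, map_zsmul, AlgF4_bar h2 hℓ, map_mul (of ℤ Γ) t t, hq, nu, nu,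
    hr2] at hE
  have hp' : aeval ((T ^ M : (LaurentPolynomial ℤ)ˣ) : LaurentPolynomial ℤ) p ≠ 0 := by
    rw [Units.val_pow_eq_pow_val, ← expand_aeval, hT, ← toLaurent_X]
    have : ∀ f : ℤ[X], aeval (toLaurent (X : ℤ[X])) f = toLaurent f := fun f => by
      have := aeval_algHom_apply (toLaurentAlg (R := ℤ)) (X : ℤ[X]) f
      rwa [aeval_X_left_apply] at this
    rw [this, toLaurent_ne_zero]
    exact (expand_ne_zero (Nat.pos_of_ne_zero hM)).2 hp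
  have hE' := (mul_eq_zero.1 hE).resolve_left hp'
  have hz : z0 ≠ 0 := fun h => by simpa [h] using z0_conj
  let ev : LaurentPolynomial ℤ →+* ℂ := LaurentPolynomial.eval₂ (Int.castRingHom ℂ) (Units.mk0 z0 hz)
  have hev : ev T = z0 := by
    rw [hT]; simp [ev, LaurentPolynomial.eval₂_T]
  have hevM : ev ((T ^ M : (LaurentPolynomial ℤ)ˣ) : _) = z0 ^ M := by
    rw [Units.val_pow_eq_pow_val, map_pow, hev]
  have hevM' : ev (((T ^ M)⁻¹ : (LaurentPolynomial ℤ)ˣ) : _) = (z0 ^ M)⁻¹ := by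
    rw [← hevM]
    exact eq_inv_of_mul_eq_one_left (by rw [← map_mul, Units.inv_mul, map_one])
  have hevr : ev (aeval (T : LaurentPolynomial ℤ) r₂) = aeval z0 r₂ := by
    rw [← hev]
    exact (aeval_algHom_apply ev.toIntAlgHom _ r₂).symm
  have hF := congrArg ev hE'
  simp only [map_sub, map_mul, map_zsmul, map_nsmul, map_add, map_one, map_neg, map_zero, hev, hevM,
    hevM'] at hF
  rw [← hevr] at hr
  have hroot : 2 • (z0 * z0) - 3 • z0 + 2 • (1 : ℂ) = 0 := by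
    simp only [nsmul_eq_mul]; push_cast; linear_combination z0_root
  have hne : z0 ^ M - 1 ≠ 0 := fun h => z0_pow_im hM (by rw [sub_eq_zero.1 h]; simp)
  have hne' : (z0 ^ M)⁻¹ - 1 ≠ 0 := fun h => hne (by rw [inv_eq_one.1 (sub_eq_zero.1 h), sub_self])
  have hn' : (n : ℂ) ≠ 0 := Int.cast_ne_zero.2 hn
  have hσ : ((σ : ℤ) : ℂ) ≠ 0 := Int.cast_ne_zero.2 σ.ne_zero
  have h2' : (1 : ℂ) - -1 ≠ 0 := by norm_num
  rw [hroot, smul_zero, zero_mul, zero_sub, neg_eq_zero] at hF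
  simp only [zsmul_eq_mul] at hF
  exact mul_ne_zero hσ (mul_ne_zero (mul_ne_zero hr (mul_ne_zero hn' (mul_ne_zero h2' hne)))
    (mul_ne_zero hn' (mul_ne_zero h2' hne'))) hF

end Pool.Agent.MP_b8a826_gt

end

-- part MP_b8a826_gt.Glue
section

/-! Holonomy of the Magnus cocycle at an end, and the two applications of the linking form. -/

namespace Pool.Agent.MP_b8a826_gt
open Set MonoidAlgebra Polynomial

variable {W : Set E4} {K : Set S3} {s r : ℝ} {G G' : Type} [Group G] [Group G']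

theorem EndAt.mem (hr : 1 / 2 ≤ r) (hE : EndAt W K s r) {x : S3} (hx : x ∉ K) : r • x.1 ∈ W :=
  (hE x r (by linarith) (by simp)).2 hx

theorem EndAt.fl (hW : IsOpen W) (hr : 1 / 2 ≤ r) (hE : EndAt W K s r) {φ : E4 → E4 → G}
    (hφ : Coc W φ) : Fl (lev r φ) Kᶜ := hφ.lev hW fun _ hx => hE.mem hr hx

theorem mem_OO {β : ℝ → S3} {x : S3} (hx : x ∈ (K ∪ range β)ᶜ) : r • x.1 ∈ OO K β r :=
  ⟨x, r, by simp, fun h => hx (Or.inl h), fun h => hx (Or.inr h), rfl⟩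

theorem hol_lev_gauge {U : Set E4} (hU : IsOpen U) {φ : E4 → E4 → G} (hφ : Coc U φ)
    {ψ : E4 → E4 → G'} (k : G →* G') {a : E4 → G'}
    (h : ∀ x y, segment ℝ x y ⊆ U → ψ x y = (a x)⁻¹ * k (φ x y) * a y) {c : ℝ → S3}
    (hc : Continuous c) (hm : ∀ t, r • (c t).1 ∈ U) :
    hol (lev r ψ) c = (a (r • (c 0).1))⁻¹ * k (hol (lev r φ) c) * a (r • (c 1).1) := by
  have hv : Cv U fun t => r • (c t).1 := ⟨by fun_prop, hm⟩
  have h1 := hol_gauge ((hφ.map k).fl hU) hv (gau_of_seg hU h)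
  rw [hol_map (hφ.fl hU) hv k] at h1
  exact h1

theorem hol_Mg_g (R : Type) [CommRing R] {U : Set E4} (hU : IsOpen U) {φ : E4 → E4 → G}
    (hφ : Coc U φ) {c : ℝ → S3} (hc : Continuous c) (hm : ∀ t, r • (c t).1 ∈ U) :
    (hol (lev r (Mg R φ U)) c).g = hol (lev r φ) c := by
  have := hol_lev_gauge hU (coc_Mg (R := R) hφ) (ψ := φ) (SD.snd _) (a := fun _ => 1)
    (fun x y _ => by simp) hc hm
  simpa using this.symm

theorem hol_inc (R : Type) [CommRing R] {U U' : Set E4} (hU : IsOpen U) (h : U ⊆ U')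
    {φ : E4 → E4 → G} (hφ : Coc U' φ) {c : ℝ → S3} (hc : Continuous c)
    (hm : ∀ t, r • (c t).1 ∈ U) :
    incSD R φ h (hol (lev r (Mg R φ U)) c) = hol (lev r (Mg R φ U')) c := by
  have := hol_lev_gauge hU (coc_Mg (R := R) (hφ.mono h)) (ψ := Mg R φ U') (incSD R φ h)
    (a := fun _ => 1) (fun x y hs => by simp [incSD_Mg hφ h hs]) hc hm
  simpa using this.symm

/-- The class of the trefoil survives modulo two. -/
theorem step1 (hW : IsOpen W) (h0 : (0 : E4) ∉ W) (hK : IsClosed K) (hs : s = 1 ∨ s = -1)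
    (hr : 1 / 2 ≤ r) (hE : EndAt W K s r) {φ : E4 → E4 → MZ} (hφ : Coc W φ)
    {Δ : MonoidAlgebra (ZMod 2) MZ} (hΔ : Δ ≠ 0) (hk : Kills Δ φ W) {X : Set S3} (hX : X ⊆ Kᶜ)
    {m σ β : ℝ → S3} {D : ℂ → S3} (hm : Cv (X \ range β) m) (hσ : Cv (X \ range β) σ)
    (hB : Box Subtype.val K D β) (hg : Gen (hol (lev r φ) m))
    (h1 : ∀ (G : Type) [Group G] (ψ : S3 → S3 → G), Fl ψ X →
      Br (hol ψ m) (hol ψ σ) ∧ (hol ψ σ = hol ψ m → hol ψ β = 1))
    (h2 : ∀ (N : Type) [AddCommGroup N] [Module (ZMod 2) N] (ρ : Representation (ZMod 2) MZ N)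
      (ψ : S3 → S3 → SD ρ), Fl ψ (X \ range β) → ∀ m' n ξ, m' = hol ψ m →
      n = hol ψ (circ fun θ => D θ) → ξ = (hol ψ σ * m'⁻¹).v → n.g = 1 →
      ∃ γ, ρ (m'.g * m'.g) ξ - ρ m'.g ξ + ξ = ρ m'.g (ρ γ n.v) - ρ γ n.v) :
    hol (lev r (Mg (ZMod 2) φ W)) σ * (hol (lev r (Mg (ZMod 2) φ W)) m)⁻¹ ≠ 1 := by
  intro h
  have hO := OO_open hK hr hB.cb hB.per
  have hOW := OO_sub hs hr hE β
  have sub : ∀ x ∈ X \ range β, r • x.1 ∈ OO K β r := fun x hx =>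
    mem_OO fun h => h.elim (hX hx.1) hx.2
  have hb := (h1 _ _ ((hE.fl hW hr (coc_Mg hφ)).mono hX)).2 (mul_inv_eq_one.1 h)
  have hD : ∀ t, r • (circ (fun θ => D θ) t).1 ∈ OO K β r := fun t =>
    mem_OO fun h => h.elim (hB.DK _ (Circle.norm_coe _).le)
      (hB.Db _ (Circle.norm_coe _).le (Circle.coe_ne_zero _))
  have cD : Continuous (circ fun θ : Circle => D θ) := circ_cont (hB.cD.comp (by fun_prop))
  obtain ⟨γ, hγ⟩ := h2 _ _ _ (((coc_Mg (R := ZMod 2) (hφ.mono hOW)).lev hO sub)) _ _ _ rfl rfl rfl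
    (by rw [hol_Mg_g _ hO (hφ.mono hOW) cD hD]
        exact hol_disc (hE.fl hW hr hφ) hB.cD.continuousOn hB.DK)
  rw [hol_Mg_g _ hO (hφ.mono hOW) hm.1 fun t => sub _ (hm.2 t)] at hγ
  obtain ⟨w, ε, hw⟩ := blanch (ZMod 2) hW h0 hK hs hr hE hφ hB hk (q := 1) (γ := γ)
    (r₁ := of _ _ (hol (lev r φ) m * hol (lev r φ) m) - of _ _ (hol (lev r φ) m) + 1)
    (r₂ := of _ _ (hol (lev r φ) m) - 1) (fun _ => Commute.one_left _)
    (ξ := (hol (lev r (Mg (ZMod 2) φ _)) σ * (hol (lev r (Mg (ZMod 2) φ _)) m)⁻¹).v)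
    (by
      have := congrArg SD.v h
      rw [← hol_inc _ hO hOW hφ hm.1 fun t => sub _ (hm.2 t),
        ← hol_inc _ hO hOW hφ hσ.1 fun t => sub _ (hσ.2 t), ← map_inv, ← map_mul] at this
      exact this)
    (by
      simp only [map_add, map_sub, map_one, Representation.asAlgebraHom_of, LinearMap.add_apply,
        LinearMap.sub_apply, Module.End.one_apply]
      exact hγ)
    (by rw [← hol_Mg_g (ZMod 2) hW hφ hB.cb fun t => hE.mem hr (hB.bK t), hb]; rfl)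
    (by rw [hb]; simp)
  exact f1a hg hΔ w ε hw

end Pool.Agent.MP_b8a826_gt

end

-- part MP_b8a826_gt.Glue2
section

/-! The second application of the linking form, at the end containing the pattern. -/

namespace Pool.Agent.MP_b8a826_gt
open Set MonoidAlgebra Polynomial

variable {Γ N N' : Type} [Group Γ] [AddCommGroup N] [AddCommGroup N']

theorem kap_v (ρ : Representation ℤ Γ N) {ν : MonoidAlgebra ℤ Γ}
    (hν : ∀ γ, Commute ν (of ℤ Γ γ)) (n : ℤ) (y : N) (x : SD ρ) : (kap ρ hν n y x).v =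
      n • (2 • ρ.asAlgebraHom ν x.v + ρ x.g (ρ.asAlgebraHom ν y) - ρ.asAlgebraHom ν y) := rfl

@[simp] theorem kap_g (ρ : Representation ℤ Γ N) {ν : MonoidAlgebra ℤ Γ}
    (hν : ∀ γ, Commute ν (of ℤ Γ γ)) (n : ℤ) (y : N) (x : SD ρ) : (kap ρ hν n y x).g = x.g := rfl

theorem kap_neg (ρ : Representation ℤ Γ N) {ℓ s : Γ} (hℓ : ∀ γ, Commute ℓ γ)
    (hs : ∀ γ, Commute s γ) (h2 : ℓ ^ 2 = 1) (n : ℤ) (y : N) (x : SD ρ) :
    ρ ℓ (kap ρ (nu_comm hℓ hs) n y x).v = -(kap ρ (nu_comm hℓ hs) n y x).v := by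
  have : ρ ℓ (ρ x.g (ρ.asAlgebraHom (nu ℓ s) y)) = -ρ x.g (ρ.asAlgebraHom (nu ℓ s) y) := by
    rw [← Module.End.mul_apply, ← map_mul, (hℓ _).eq, map_mul, Module.End.mul_apply,
      rho_nu ρ s h2, map_neg]
  simp only [kap_v, map_zsmul, map_sub, map_add, map_nsmul, rho_nu ρ s h2, this]
  module

theorem kap_self (ρ : Representation ℤ Γ N) {s : Γ} {L : SD ρ} (hℓ : ∀ γ, Commute L.g γ)
    (hs : ∀ γ, Commute s γ) (h2 : L.g ^ 2 = 1) (n : ℤ) :
    (kap ρ (nu_comm hℓ hs) n L.v L).v = 0 := by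
  simp only [kap_v, rho_nu ρ s h2]
  module

theorem kap_one (ρ : Representation ℤ Γ N) {ν : MonoidAlgebra ℤ Γ}
    (hν : ∀ γ, Commute ν (of ℤ Γ γ)) (n : ℤ) (y : N) {x : SD ρ} (hx : x.g = 1) :
    (kap ρ hν n y x).v = ρ.asAlgebraHom ((2 * n) • ν) x.v := by
  simp only [kap_v, hx, map_one, Module.End.one_apply, map_zsmul, LinearMap.smul_apply]
  module

theorem alg_equiv {ρ : Representation ℤ Γ N} {ρ' : Representation ℤ Γ N'} (f : N →+ N')
    (hf : ∀ g v, f (ρ g v) = ρ' g (f v)) (r : MonoidAlgebra ℤ Γ) (v : N) :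
    f (ρ.asAlgebraHom r v) = ρ'.asAlgebraHom r (f v) := by
  induction r using MonoidAlgebra.induction_linear with
  | zero => simp
  | add a b h1 h2 => simp [h1, h2]
  | single γ r => simp [hf]

variable {W : Set E4} {s r : ℝ} {X : Type} [TopologicalSpace X]

/-- What the pattern side provides in the complement of the auxiliary loop. -/
def PRel (U : Set X) (u l n : ℝ → X) : Prop :=
  ∀ (Γ N : Type) [Group Γ] [AddCommGroup N] (ρ : Representation ℤ Γ N)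
    (ψ : X → X → SD ρ), Fl ψ U → ∀ U L n', U = hol ψ u →
    L = hol ψ l → n' = hol ψ n → L.v = 0 → n'.g = 1 →
    (∀ γ, Commute L.g γ) → ρ L.g U.v = -U.v → ρ L.g n'.v = -n'.v →
    ∃ (γ : Γ) (c : ℤ) (r₂ : ℤ[X]), c ≠ 0 ∧ aeval z0 r₂ ≠ 0 ∧
      c • (2 • ρ (U.g * U.g) U.v - 3 • ρ U.g U.v + 2 • U.v) = aeval (ρ U.g) r₂ (ρ γ n'.v)

theorem step3_alg {U U' : Set X} (hU : U ⊆ U') {u l d β : ℝ → X} (hu : Cv U u) (hl : Cv U l)
    (hd : Cv U d) (hβ : Cv U' β) {ρ : Representation ℤ Γ N} {ρ' : Representation ℤ Γ N'}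
    (i : N →+ N') (hi : ∀ g v, i (ρ g v) = ρ' g (i v)) {ψ : X → X → SD ρ} {ψ' : X → X → SD ρ'}
    (fO : Fl ψ U) (fW : Fl ψ' U') (iu : SD.map i hi (hol ψ u) = hol ψ' u)
    (il : SD.map i hi (hol ψ l) = hol ψ' l) (gn : (hol ψ d).g = 1)
    (τ : Γ →* MZ) {t ℓ : Γ} (ht : (hol ψ' u).g = t) (hℓ : (hol ψ' l).g = ℓ)
    (gt : Gen (τ t)) (τℓ : τ ℓ = 1) (n1 : ℓ ≠ 1) (h2 : ℓ ^ 2 = 1) (cℓ : ∀ γ, Commute ℓ γ)
    {M : ℕ} (hM : M ≠ 0) (cM : ∀ γ, Commute (t ^ M) γ) {p : ℤ[X]} (hp : p ≠ 0) {n : ℤ}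
    (hn : n ≠ 0) (hξ : n • (kap _ (nu_comm cℓ cM) 1 (hol ψ' l).v (hol ψ' u)).v = 0)
    (P1 : ∀ (G : Type) [Group G] (ψ : X → X → G), Fl ψ U' →
      Commute (hol ψ u) (hol ψ l) → hol ψ β = 1) (P2 : PRel U u l d)
    (BL : ∀ r₁ r₂ q : MonoidAlgebra ℤ Γ, (∀ γ, Commute q (of ℤ Γ γ)) → ∀ ξ, i ξ = 0 → ∀ γ,
      ρ.asAlgebraHom r₁ ξ = ρ.asAlgebraHom r₂ (ρ γ (hol ψ d).v) → (hol ψ' β).g = 1 →
      ρ'.asAlgebraHom q (hol ψ' β).v = 0 → ∃ (w : MonoidAlgebra ℤ Γ) (σ : ℤˣ),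
        aeval (of ℤ Γ (t ^ M)) p * (r₁ * w - (σ : ℤ) • (r₂ * bar q)) = 0) : False := by
  have hb := P1 _ _ (fW.map (kap _ (nu_comm cℓ cM) n (hol ψ' l).v)) (by
    rw [hol_map fW (hu.mono hU), hol_map fW (hl.mono hU)]
    have e1 : (kap _ (nu_comm cℓ cM) n (hol ψ' l).v (hol ψ' u)).v = 0 := by
      rw [← hξ, kap_v, kap_v, one_smul]
    subst hℓ
    have e2 := kap_self _ cℓ cM h2 n
    refine SD.ext ?_ ?_
    · rw [SD.mul_v, SD.mul_v, e1, e2, map_zero, map_zero]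
    · exact (cℓ _).symm.eq)
  rw [hol_map fW hβ] at hb
  have hbg : (hol ψ' β).g = 1 := congrArg SD.g hb
  have hbv := congrArg SD.v hb
  rw [kap_one _ _ _ _ hbg] at hbv
  have gl : (hol ψ l).g = ℓ := by rw [← hℓ, ← il]; rfl
  have gu : (hol ψ u).g = t := by rw [← ht, ← iu]; rfl
  obtain ⟨γ, c, r₂, -, hr₂, hrel⟩ := P2 _ _ _ _ (fO.map (kap _ (nu_comm cℓ cM) n (hol ψ l).v))
    _ _ _ (hol_map fO hu _).symm (hol_map fO hl _).symm (hol_map fO hd _).symm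
    (by subst gl; exact kap_self _ cℓ cM h2 n) gn (by rw [kap_g, gl]; exact cℓ)
    (by rw [kap_g, gl]; exact kap_neg _ cℓ cM h2 _ _ _)
    (by rw [kap_g, gl]; exact kap_neg _ cℓ cM h2 _ _ _)
  simp only [kap_g, gu] at hrel
  rw [kap_one _ _ _ _ gn] at hrel
  have cq : ∀ γ, Commute ((2 * n) • nu ℓ (t ^ M)) (of ℤ Γ γ) := fun γ =>
    (nu_comm cℓ cM γ).smul_left _
  obtain ⟨w, ε, hw⟩ := BL (c • (2 • of ℤ Γ (t * t) - 3 • of ℤ Γ t + 2 • 1))
    (aeval (of ℤ Γ t) r₂ * ((2 * n) • nu ℓ (t ^ M))) _ cq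
    (kap _ (nu_comm cℓ cM) n (hol ψ l).v (hol ψ u)).v
    (by
      rw [← hξ, ← iu, ← il]
      simp only [kap_v, map_zsmul, map_sub, map_add, map_nsmul, one_smul, hi, alg_equiv i hi,
        SD.map_v, SD.map_g]) γ
    (by
      rw [map_mul ρ.asAlgebraHom, Module.End.mul_apply, rho_comm _ cq, ← aeval_algHom_apply,
        Representation.asAlgebraHom_of, ← hrel]
      simp only [map_zsmul, map_add, map_sub, map_nsmul, map_one, Representation.asAlgebraHom_of,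
        LinearMap.add_apply, LinearMap.sub_apply, LinearMap.smul_apply, Module.End.one_apply])
    hbg hbv
  exact f4 τ gt τℓ n1 h2 cℓ hM hp hr₂ c (mul_ne_zero two_ne_zero hn) w ε hw

theorem step3 {e : X → S3} (he : Continuous e) (hi : Function.Injective e) {K : Set X}
    (hW : IsOpen W) (h0 : (0 : E4) ∉ W) (hK : IsClosed (e '' K)) (hs : s = 1 ∨ s = -1)
    (hr : 1 / 2 ≤ r) (hE : EndAt W (e '' K) s r) {φ : E4 → E4 → Γ} (hφ : Coc W φ)
    {u l β : ℝ → X} {D : ℂ → X} (hu : Cv (K ∪ range β)ᶜ u) (hl : Cv (K ∪ range β)ᶜ l)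
    (hB : Box Subtype.val (e '' K) (e ∘ D) (e ∘ β)) (cβ : Continuous β) (cD : Continuous D)
    (τ : Γ →* MZ) {t ℓ : Γ} (ht : hol (lev r φ) (e ∘ u) = t) (hℓ : hol (lev r φ) (e ∘ l) = ℓ)
    (gt : Gen (τ t)) (τℓ : τ ℓ = 1) (n1 : ℓ ≠ 1) (h2 : ℓ ^ 2 = 1) (cℓ : ∀ γ, Commute ℓ γ)
    {M : ℕ} (hM : M ≠ 0) (cM : ∀ γ, Commute (t ^ M) γ) {p : ℤ[X]} (hp : p ≠ 0)
    (hk : Kills (aeval (of ℤ Γ (t ^ M)) p) φ W) {n : ℤ} (hn : n ≠ 0)
    (hξ : n • (kap _ (nu_comm cℓ cM) 1 (hol (lev r (Mg ℤ φ W)) (e ∘ l)).v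
      (hol (lev r (Mg ℤ φ W)) (e ∘ u))).v = 0)
    (P1 : ∀ (G : Type) [Group G] (ψ : X → X → G), Fl ψ Kᶜ →
      Commute (hol ψ u) (hol ψ l) → hol ψ β = 1)
    (P2 : PRel (K ∪ range β)ᶜ u l (circ fun θ => D θ)) : False := by
  have hO := OO_open hK hr hB.cb hB.per
  have hOW := OO_sub hs hr hE (e ∘ β)
  have nK : ∀ x, x ∉ K → e x ∉ e '' K := fun x hx h => hx ((hi.mem_set_image).1 h)
  have sub' : ∀ x ∈ (K ∪ range β)ᶜ, e x ∈ (e '' K ∪ range (e ∘ β))ᶜ := fun x hx h =>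
    h.elim (nK x fun h' => hx (Or.inl h')) fun ⟨a, ha⟩ => hx (Or.inr ⟨a, hi ha⟩)
  have hDm : Cv (K ∪ range β)ᶜ (circ fun θ : Circle => D θ) :=
    ⟨circ_cont (cD.comp (by fun_prop)), fun a h => h.elim
      (fun h => hB.DK _ (Circle.norm_coe _).le (mem_image_of_mem e h))
      fun ⟨b, hb⟩ => hB.Db _ (Circle.norm_coe _).le (Circle.coe_ne_zero _) ⟨b, congrArg e hb⟩⟩
  have hβ : Cv Kᶜ β := ⟨cβ, fun a h => hB.bK a (mem_image_of_mem e h)⟩
  have kK : (K ∪ range β)ᶜ ⊆ Kᶜ := compl_subset_compl.2 subset_union_left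
  have gW : ∀ c, Cv Kᶜ c → (hol (lev r (Mg ℤ φ W)) (e ∘ c)).g = hol (lev r φ) (e ∘ c) :=
    fun c hc => hol_Mg_g ℤ hW hφ (he.comp hc.1) fun a => hE.mem hr (nK _ (hc.2 a))
  have iO : ∀ c, Cv (K ∪ range β)ᶜ c →
      incSD ℤ φ hOW (hol (lev r (Mg ℤ φ _)) (e ∘ c)) = hol (lev r (Mg ℤ φ W)) (e ∘ c) :=
    fun c hc => hol_inc ℤ hO hOW hφ (he.comp hc.1) fun a => mem_OO (sub' _ (hc.2 a))
  refine step3_alg kK hu hl hDm hβ (inc ℤ φ hOW).toAddMonoidHom (inc_rho hOW)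
    (ψ := pb e (lev r (Mg ℤ φ (OO (e '' K) (e ∘ β) r)))) (ψ' := pb e (lev r (Mg ℤ φ W)))
    (((coc_Mg (hφ.mono hOW)).lev hO fun _ => mem_OO).pb he.continuousOn sub')
    ((hE.fl hW hr (coc_Mg hφ)).pb he.continuousOn nK) (iO u hu) (iO l hl)
    ((hol_Mg_g ℤ hO (hφ.mono hOW) (he.comp hDm.1) fun a => mem_OO (sub' _ (hDm.2 a))).trans
      (hol_disc (hE.fl hW hr hφ) hB.cD.continuousOn hB.DK)) τ
    ((gW u (hu.mono kK)).trans ht) ((gW l (hl.mono kK)).trans hℓ) gt τℓ n1 h2 cℓ hM cM hp hn hξ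
    P1 P2 fun r₁ r₂ q hq ξ h1 γ h2 h3 h4 => ?_
  exact blanch ℤ hW h0 hK hs hr hE hφ hB hk hq h1 h2 ((gW β hβ).symm.trans h3) h4

end Pool.Agent.MP_b8a826_gt

end

-- part MP_b8a826_gt.AlgF2
section

/-! The finite quotient in which the longitude survives. -/

namespace Pool.Agent.MP_b8a826_gt
open Set MonoidAlgebra

theorem algF2_const {A : Type} {t : MZ} (ht : Gen t) {D : ℤ → A}
    (h : ∀ i, D (i + t.toAdd) = D i) (i j : ℤ) : D i = D j := by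
  have h1 : ∀ i, D (i + 1) = D i := fun i => by
    rcases ht with rfl | rfl
    · exact h i
    · have := h (i + 1)
      rw [toAdd_ofAdd, add_neg_cancel_right] at this
      exact this.symm
  have h2 : ∀ i, D i = D 0 := fun i => by
    induction i using Int.induction_on with
    | zero => rfl
    | succ n ih => rw [h1, ih]
    | pred n ih => rw [← h1, sub_add_cancel, ih]
  rw [h2 i, h2 j]

theorem algF2_per {A : Type} {K : ℕ} (hK : 0 < K) {D : ℤ → A} {a : A}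
    (h : ∀ i, D (i + K) = D i) (h0 : ∀ j : Fin K, D (j : ℕ) = a) (i : ℤ) : D i = a := by
  have hp : Function.Periodic D (K : ℤ) := h
  have hK' : (0 : ℤ) < K := by exact_mod_cast hK
  have e1 := Int.emod_nonneg i hK'.ne'
  have e2 := Int.emod_lt_of_pos i hK'
  have := h0 ⟨(i % K).toNat, by omega⟩
  rw [Int.toNat_of_nonneg e1, Int.emod_def, mul_comm] at this
  rw [← this]
  exact (hp.sub_int_mul_eq _).symm

section
variable {π N : Type} [Group π] [AddCommGroup N] [Module (ZMod 2) N] {τ : π →* MZ}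
  {ρ : Representation (ZMod 2) MZ N} {k : π →* SD ρ}

theorem algF2_mul (hk : ∀ g, (k g).g = τ g) (g h : π) :
    (k (g * h)).v = (k g).v + ρ (τ g) (k h).v := by rw [map_mul, SD.mul_v, hk]

theorem algF2_conj (hk : ∀ g, (k g).g = τ g) (c : π) {g : π} (hg : τ g = 1) :
    τ (c * g * c⁻¹) = 1 ∧ (k (c * g * c⁻¹)).v = ρ (τ c) (k g).v := by
  refine ⟨by simp [hg], ?_⟩
  have e := algF2_mul hk c c⁻¹
  rw [mul_inv_cancel, map_one, SD.one_v] at e
  rw [algF2_mul hk, algF2_mul hk, map_mul τ, hg, mul_one, add_right_comm, ← e, zero_add]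

theorem algF2_comm (hk : ∀ g, (k g).g = τ g) {a b : π} (ha : τ a = 1) (hb : τ b = 1) :
    τ (b * a * b⁻¹ * a⁻¹) = 1 ∧ (k (b * a * b⁻¹ * a⁻¹)).v = 0 := by
  refine ⟨by simp [ha, hb], ?_⟩
  obtain ⟨h1, h2⟩ := algF2_conj hk b ha
  have e := algF2_mul hk a a⁻¹
  rw [mul_inv_cancel, map_one, SD.one_v, ha] at e
  rw [algF2_mul hk, h1, h2, hb, e]
  simp

theorem algF2_lw (hk : ∀ g, (k g).g = τ g) {m s : π} (hb : Br m s) :
    τ (lw m s) = 1 ∧ (k (lw m s)).v = 0 := by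
  have ha : τ (s * m⁻¹) = 1 := by simp [(hb.tau τ).1]
  obtain ⟨h1, h2⟩ := algF2_comm hk ha (algF2_conj hk m ha).1
  rw [hb.lw_eq _ _ rfl rfl]
  obtain ⟨h3, h4⟩ := algF2_conj hk (s * m) h1
  exact ⟨h3, by rw [h4, h2, map_zero]⟩

theorem algF2_fix (hk : ∀ g, (k g).g = τ g) (hfin : {v | ∃ g, τ g = 1 ∧ (k g).v = v}.Finite)
    {m : π} (hm : Gen (τ m)) : ∃ K : ℕ, 0 < K ∧ ∀ g, τ g = 1 →
      ρ (Multiplicative.ofAdd (K : ℤ)) (k g).v = (k g).v := by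
  obtain ⟨c, hc⟩ : ∃ c, τ c = Multiplicative.ofAdd 1 := by
    rcases hm with hm | hm
    · exact ⟨m, hm⟩
    · exact ⟨m⁻¹, by rw [map_inv, hm]; rfl⟩
  have := hfin.to_subtype
  let f : {v | ∃ g, τ g = 1 ∧ (k g).v = v} → {v | ∃ g, τ g = 1 ∧ (k g).v = v} := fun v =>
    ⟨ρ (τ c) v.1, by
      obtain ⟨g, hg, e⟩ := v.2
      exact ⟨c * g * c⁻¹, (algF2_conj hk c hg).1, by rw [(algF2_conj hk c hg).2, e]⟩⟩
  have hf : Function.Injective f := fun v w e => by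
    have e1 : ρ (τ c) v.1 = ρ (τ c) w.1 := congrArg Subtype.val e
    have e2 := congrArg (ρ (τ c)⁻¹) e1
    simp only [Representation.inv_self_apply] at e2
    exact Subtype.ext e2
  let e := Equiv.ofBijective f (Finite.injective_iff_bijective.mp hf)
  have key : ∀ (n : ℕ) v, ((e ^ n) v).1 = ρ (Multiplicative.ofAdd (n : ℤ)) v.1 := by
    intro n v
    induction n with
    | zero => simp
    | succ n ih =>
      rw [pow_succ', Equiv.Perm.mul_apply]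
      show ρ (τ c) ((e ^ n) v).1 = _
      rw [ih, hc, ← Module.End.mul_apply, ← map_mul, ← ofAdd_add, add_comm]
      simp
  obtain ⟨K, hK, h1⟩ := (isOfFinOrder_of_finite e).exists_pow_eq_one
  refine ⟨K, hK, fun g hg => ?_⟩
  rw [← key K ⟨_, g, hg, rfl⟩, h1]
  rfl

theorem algF2_dual {u v : N} (hu : u ≠ 0) (huv : u ≠ v) :
    ∃ x : N →ₗ[ZMod 2] ZMod 2, x u = 1 ∧ x v = 0 := by
  have hn : u ∉ Submodule.span (ZMod 2) {v} := by
    rw [Submodule.mem_span_singleton]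
    rintro ⟨a, rfl⟩
    have : ∀ a : ZMod 2, a = 0 ∨ a = 1 := by decide
    rcases this a with rfl | rfl
    · exact hu (zero_smul _ _)
    · exact huv (one_smul _ _)
  obtain ⟨x, h1, h2⟩ := Submodule.exists_dual_map_eq_bot_of_notMem hn inferInstance
  refine ⟨x, ?_, ?_⟩
  · generalize x u = a at h1
    revert a; decide
  · have : x v ∈ (Submodule.span (ZMod 2) {v}).map x :=
      Submodule.mem_map_of_mem (Submodule.mem_span_singleton_self v)
    rw [h2] at this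
    exact this

/-- The kernel of the finite quotient. -/
def algF2_Nn {F : π → ℤ → ZMod 2}
    (hF : ∀ g h, (k g).v = 0 ∨ (k h).v = 0 → ∀ i, F (g * h) i = F g i + F h (i + (τ g).toAdd)) :
    Subgroup π where
  carrier := {g | τ g = 1 ∧ (k g).v = 0 ∧ ∀ i, F g i = 0}
  one_mem' := ⟨map_one _, by simp, fun i => by
    have := hF 1 1 (Or.inl (by simp)) i
    simpa using this⟩
  mul_mem' := by
    rintro g h ⟨a1, a2, a3⟩ ⟨b1, b2, b3⟩
    exact ⟨by simp [a1, b1], by simp [a2, b2], fun i => by rw [hF _ _ (Or.inl a2), a3, b3, add_zero]⟩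
  inv_mem' := by
    rintro g ⟨a1, a2, a3⟩
    refine ⟨by simp [a1], by simp [a2], fun i => ?_⟩
    have h1 := hF 1 1 (Or.inl (by simp)) i
    have h2 := hF g g⁻¹ (Or.inl a2) i
    simp only [mul_one, map_one, toAdd_one, add_zero, left_eq_add] at h1
    simpa [a1, a3, h1] using h2.symm

theorem algF2_Fconj (hk : ∀ g, (k g).g = τ g) {F : π → ℤ → ZMod 2}
    (hF : ∀ g h, (k g).v = 0 ∨ (k h).v = 0 → ∀ i, F (g * h) i = F g i + F h (i + (τ g).toAdd))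
    (c : π) {g : π} (h1 : τ g = 1) (h2 : (k g).v = 0) (i : ℤ) :
    F (c * g * c⁻¹) i = F g (i + (τ c).toAdd) := by
  obtain ⟨h3, h4⟩ := algF2_conj hk c h1
  have e1 := hF c g (Or.inr h2) i
  have e2 := hF (c * g * c⁻¹) c (Or.inl (by rw [h4, h2, map_zero])) i
  rw [inv_mul_cancel_right, h3, toAdd_one, add_zero, e1] at e2
  linear_combination -e2

theorem algF2_normal (hk : ∀ g, (k g).g = τ g) {F : π → ℤ → ZMod 2}
    (hF : ∀ g h, (k g).v = 0 ∨ (k h).v = 0 → ∀ i, F (g * h) i = F g i + F h (i + (τ g).toAdd)) :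
    (algF2_Nn hF).Normal := ⟨by
  rintro g ⟨a1, a2, a3⟩ c
  obtain ⟨h3, h4⟩ := algF2_conj hk c a1
  exact ⟨h3, by rw [h4, a2, map_zero], fun i => by rw [algF2_Fconj hk hF c a1 a2, a3]⟩⟩

/-- Elements of the kernel with the same invariants differ by an element with trivial `Y`. -/
theorem algF2_diff (hk : ∀ g, (k g).g = τ g) {F : π → ℤ → ZMod 2}
    (hF : ∀ g h, (k g).v = 0 ∨ (k h).v = 0 → ∀ i, F (g * h) i = F g i + F h (i + (τ g).toAdd))
    {g h : π} (hg : τ g = 1) (hh : τ h = 1) (e : (k g).v = (k h).v) :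
    τ (g⁻¹ * h) = 1 ∧ (k (g⁻¹ * h)).v = 0 ∧ ∀ i, F (g⁻¹ * h) i = F h i - F g i := by
  have h2 : (k (g⁻¹ * h)).v = 0 := by
    have := algF2_mul hk g (g⁻¹ * h)
    rw [mul_inv_cancel_left, hg, e] at this
    simpa using this
  refine ⟨by simp [hg, hh], h2, fun i => ?_⟩
  have := hF g (g⁻¹ * h) (Or.inr h2) i
  rw [mul_inv_cancel_left, hg, toAdd_one, add_zero] at this
  linear_combination -this

end

/-- Plan. `Y g = (k g).v`, `a = s m⁻¹`, `b = m a m⁻¹`, `t = τ m`. The braid relation gives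
`(1 + t + t²) Y a = 0`, so `Y a`, `Y b = t Y a` are independent over `ZMod 2`; take dual functionals
`x₁`, `x₂`. `C g h i = x₁ (ρ i (Y g)) * x₂ (ρ i (ρ (τ g) (Y h)))` is a two-cocycle; `hs` gives `T`, `F`.
`Nn = {g | τ g = 1, Y g = 0, F g = 0}` is a normal subgroup, `Γ = π ⧸ Nn`. For `τ g = 1`, `Y g = 0`:
`F (c g c⁻¹) i = F g (i + τ c)`. `F ⁅b, a⁆ i = T (fun _ => 1) i = 1` since the action on the span of
`Y a`, `Y b` has determinant one; use `Br.lw_eq`. Finiteness: some `ρ K`, `K > 0`, fixes the finite set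
`hfin`, so `g ↦ F g (i + K) - F g i` is additive on the kernel of `τ` and `hur` makes `F g` periodic
when `Y g = 0`. Fourth powers of the kernel lie in `Nn`. Elements with `τ g = 1`, `Y g = 0` commute with
the kernel modulo `Nn` and have order at most two; `lw m' s'` also commutes with `m'`. -/
theorem f2 {π N : Type} [Group π] [AddCommGroup N] [Module (ZMod 2) N] (τ : π →* MZ)
    {ρ : Representation (ZMod 2) MZ N} (k : π →* SD ρ) (hk : ∀ g, (k g).g = τ g)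
    (hfin : {v | ∃ g, τ g = 1 ∧ (k g).v = v}.Finite)
    (hur : ∀ α : π → ZMod 2, (∀ g h, τ g = 1 → τ h = 1 → α (g * h) = α g + α h) →
      ∀ g, τ g = 1 → (k g).v = 0 → α g = 0)
    (hs : Split (ZMod 2) τ) {m s : π} (hb : Br m s) (hm : Gen (τ m))
    (hne : (k (s * m⁻¹)).v ≠ 0) :
    ∃ (Γ : Type) (_ : Group Γ) (q : π →* Γ) (τ' : Γ →* MZ), Function.Surjective q ∧
      (∀ g, τ' (q g) = τ g) ∧ Finite τ'.ker ∧ IsPGroup 2 τ'.ker ∧ q (lw m s) ≠ 1 ∧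
      ∀ m' s', Br m' s' → Gen (τ m') → (∀ γ, Commute (q (lw m' s')) γ) ∧ q (lw m' s') ^ 2 = 1 := by
  have two : ∀ v : N, v + v = 0 := fun v => by
    rw [← two_smul (ZMod 2), show (2 : ZMod 2) = 0 from rfl, zero_smul]
  have two' : ∀ a : ZMod 2, a + a = 0 := by decide
  obtain ⟨a, ha⟩ : ∃ a, a = s * m⁻¹ := ⟨_, rfl⟩
  obtain ⟨b, hb'⟩ : ∃ b, b = m * a * m⁻¹ := ⟨_, rfl⟩
  rw [← ha] at hne
  have ta : τ a = 1 := by simp [ha, (hb.tau τ).1]
  obtain ⟨tb, yb⟩ : τ b = 1 ∧ (k b).v = ρ (τ m) (k a).v := hb' ▸ algF2_conj hk m ta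
  have yc : ρ (τ m) (k b).v = (k b).v - (k a).v := by
    have e : b = a * (m * b * m⁻¹) := by
      have : m * s * m = s * m * s := hb
      rw [hb', ha]
      calc m * (s * m⁻¹) * m⁻¹ = s * m⁻¹ * (m * s⁻¹ * (m * s * m) * m⁻¹ * m⁻¹ * m⁻¹) := by group
        _ = s * m⁻¹ * (m * s⁻¹ * (s * m * s) * m⁻¹ * m⁻¹ * m⁻¹) := by rw [this]
        _ = _ := by group
    have := algF2_mul hk a (m * b * m⁻¹)
    rw [← e, (algF2_conj hk m tb).2, ta] at this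
    simp only [map_one, Module.End.one_apply] at this
    exact eq_sub_of_add_eq' this.symm
  have hb0 : (k b).v ≠ 0 := fun e => by
    have := congrArg (ρ (τ m)⁻¹) yb
    rw [e, map_zero, Representation.inv_self_apply] at this
    exact hne this.symm
  have hab : (k a).v ≠ (k b).v := fun e => by
    rw [← e, sub_self] at yc
    exact hb0 (yb.trans yc)
  obtain ⟨x₁, x11, x12⟩ := algF2_dual hne hab
  obtain ⟨x₂, x22, x21⟩ := algF2_dual hb0 hab.symm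
  obtain ⟨C, hC⟩ : ∃ C : π → π → ℤ → ZMod 2, ∀ g h i, C g h i =
      x₁ (ρ (Multiplicative.ofAdd i) (k g).v) *
        x₂ (ρ (Multiplicative.ofAdd i) (ρ (τ g) (k h).v)) := ⟨_, fun _ _ _ => rfl⟩
  obtain ⟨T, T1, T2, F, hF0⟩ := hs C fun g h j i => by
    simp only [hC, SD.mul_v, hk, ofAdd_add, ofAdd_toAdd, map_mul, map_add, Module.End.mul_apply]
    ring
  have hF : ∀ g h, (k g).v = 0 ∨ (k h).v = 0 →
      ∀ i, F (g * h) i = F g i + F h (i + (τ g).toAdd) := fun g h e i => by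
    have h0 : C g h = 0 := by
      funext i
      rcases e with e | e <;> simp [hC, e]
    have := hF0 g h i
    rw [h0, map_zero, Pi.zero_apply] at this
    linear_combination -this
  have hN := algF2_normal hk hF
  obtain ⟨K, hK, fixK⟩ := algF2_fix hk hfin hm
  have per : ∀ g, τ g = 1 → (k g).v = 0 → ∀ i, F g (i + K) = F g i := fun g h1 h2 i => by
    refine sub_eq_zero.mp (hur (fun g => F g (i + K) - F g i) (fun g h hg hh => ?_) g h1 h2)
    have e1 := hF0 g h i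
    have e2 := hF0 g h (i + K)
    have e3 : (fun j => C g h (j + K)) = C g h := by
      funext j
      simp only [hC, hg, ofAdd_add, map_mul, map_one, Module.End.mul_apply, Module.End.one_apply,
        fixK g hg, fixK h hh]
    rw [← T1, e3] at e2
    rw [hg, toAdd_one, add_zero] at e1 e2
    linear_combination e1 - e2
  refine ⟨π ⧸ algF2_Nn hF, inferInstance, QuotientGroup.mk' _,
    QuotientGroup.lift _ τ fun g hg => hg.1, QuotientGroup.mk'_surjective _, fun g => rfl,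
    ?_, ?_, ?_, ?_⟩
  · have := hfin.to_subtype
    have ho : ∀ γ : (QuotientGroup.lift (algF2_Nn hF) τ fun g hg => hg.1).ker,
        τ γ.1.out = 1 := fun γ => by
      have h1 := γ.2
      rw [MonoidHom.mem_ker, ← QuotientGroup.out_eq' γ.1] at h1
      exact h1
    refine Finite.of_injective (β := {v | ∃ g, τ g = 1 ∧ (k g).v = v} × (Fin K → ZMod 2))
      (fun γ => (⟨_, γ.1.out, ho γ, rfl⟩, fun j => F γ.1.out (j : ℕ))) fun γ γ' e => ?_
    obtain ⟨e1, e2⟩ := Prod.mk.inj e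
    obtain ⟨d1, d2, d3⟩ := algF2_diff hk hF (ho γ) (ho γ') (congrArg Subtype.val e1)
    apply Subtype.ext
    rw [← QuotientGroup.out_eq' γ.1, ← QuotientGroup.out_eq' γ'.1, QuotientGroup.eq]
    refine ⟨d1, d2, algF2_per hK (per _ d1 d2) fun j => ?_⟩
    rw [d3, sub_eq_zero]
    exact (congrFun e2 j).symm
  · rintro ⟨γ, hγ⟩
    obtain ⟨g, rfl⟩ := QuotientGroup.mk_surjective γ
    have hg : τ g = 1 := hγ
    refine ⟨2, Subtype.ext ?_⟩
    show ((g : π ⧸ algF2_Nn hF) ^ 2 ^ 2) = 1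
    rw [← QuotientGroup.mk_pow, QuotientGroup.eq_one_iff,
      show g ^ 2 ^ 2 = g * g * (g * g) by norm_num [pow_succ, mul_assoc]]
    have h2 : (k (g * g)).v = 0 := by rw [algF2_mul hk, hg]; simpa using two _
    have h1 : τ (g * g) = 1 := by simp [hg]
    refine ⟨by rw [map_mul, h1, mul_one], by rw [algF2_mul hk, h2]; simp, fun i => ?_⟩
    rw [hF _ _ (Or.inl h2), h1, toAdd_one, add_zero, two']
  · intro e
    rw [QuotientGroup.mk'_apply, QuotientGroup.eq_one_iff, hb.lw_eq a b ha hb'] at e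
    obtain ⟨c1, c2⟩ := algF2_comm hk ta tb
    have e1 := e.2.2 (-(τ (s * m)).toAdd)
    rw [algF2_Fconj hk hF _ c1 c2, neg_add_cancel] at e1
    have e2 := hF (b * a * b⁻¹ * a⁻¹) (a * b) (Or.inl c2) 0
    rw [c1, toAdd_one, add_zero, e1, zero_add,
      show b * a * b⁻¹ * a⁻¹ * (a * b) = b * a by group] at e2
    have e3 := hF0 a b 0
    have e4 := hF0 b a 0
    rw [ta, toAdd_one, add_zero] at e3
    rw [tb, toAdd_one, add_zero] at e4
    have e5 : C a b - C b a = fun _ => 1 := by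
      funext i
      rw [algF2_const hm (D := C a b - C b a) (fun i => ?_) i 0]
      · simp [hC, ta, tb, x11, x12, x21, x22]
      · simp only [Pi.sub_apply, hC, ta, tb, ofAdd_add, ofAdd_toAdd, map_mul, map_one,
          Module.End.mul_apply, Module.End.one_apply, ← yb, yc, map_sub]
        ring
    have e6 := T2 1 0
    rw [← e5, map_sub, Pi.sub_apply, ← e3, ← e4, e2] at e6
    have : (0 : ZMod 2) = 1 := by linear_combination e6
    exact zero_ne_one this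
  · intro m' s' hb2 hm2
    obtain ⟨l1, l2⟩ := algF2_lw hk hb2
    have cm : m' * lw m' s' * m'⁻¹ = lw m' s' := by
      have h1 : Commute ((m' * s') ^ 3) m' := hb2.cent m' (Subgroup.subset_closure (by simp))
      have h2 : Commute (lw m' s') m' :=
        h1.mul_left ((Commute.refl m').inv_left.pow_left 6)
      rw [← h2.eq, mul_inv_cancel_right]
    have cst : ∀ i j, F (lw m' s') i = F (lw m' s') j :=
      algF2_const hm2 fun i => by rw [← algF2_Fconj hk hF m' l1 l2, cm]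
    constructor
    · intro γ
      obtain ⟨c, rfl⟩ := QuotientGroup.mk_surjective γ
      obtain ⟨h3, h4⟩ := algF2_conj hk c l1
      rw [l2, map_zero] at h4
      obtain ⟨d1, d2, d3⟩ := algF2_diff hk hF l1 h3 (l2.trans h4.symm)
      have e : ((lw m' s' : π) : π ⧸ algF2_Nn hF) = (c * lw m' s' * c⁻¹ : π) := by
        rw [QuotientGroup.eq]
        exact ⟨d1, d2, fun i => by rw [d3, algF2_Fconj hk hF c l1 l2, cst _ i, sub_self]⟩
      show ((lw m' s' : π) : π ⧸ algF2_Nn hF) * c = c * (lw m' s' : π)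
      nth_rewrite 1 [e]
      rw [← QuotientGroup.mk_mul, ← QuotientGroup.mk_mul, inv_mul_cancel_right]
    · rw [← map_pow, QuotientGroup.mk'_apply, QuotientGroup.eq_one_iff, sq]
      refine ⟨by rw [map_mul, l1, mul_one], by rw [algF2_mul hk, l2]; simp, fun i => ?_⟩
      rw [hF _ _ (Or.inl l2), l1, toAdd_one, add_zero, two']

end Pool.Agent.MP_b8a826_gt

end

-- part MP_b8a826_gt.AlgF3
section

namespace Pool.Agent.MP_b8a826_gt
open Set MonoidAlgebra Polynomial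

variable {Γ N : Type} [Group Γ] [AddCommGroup N]

/-- The skew form on the complex numbers. -/
def algF3_br (a b : ℂ) : ℝ := (a * (starRingEnd ℂ) b).im

theorem algF3_br_eq (a b : ℂ) : algF3_br a b = a.im * b.re - a.re * b.im := by
  simp only [algF3_br, Complex.mul_im, Complex.conj_re, Complex.conj_im]; ring

theorem algF3_fin (τ' : Γ →* MZ) [Finite τ'.ker] (i : ℤ) :
    {γ | τ' γ = Multiplicative.ofAdd i}.Finite := by
  rcases {γ | τ' γ = Multiplicative.ofAdd i}.eq_empty_or_nonempty with h | ⟨c, hc⟩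
  · rw [h]; exact Set.finite_empty
  · refine ((Set.toFinite (τ'.ker : Set Γ)).image fun x => c * x).subset fun γ hγ => ?_
    refine ⟨c⁻¹ * γ, ?_, mul_inv_cancel_left _ _⟩
    have h1 : τ' c = Multiplicative.ofAdd i := hc
    have h2 : τ' γ = Multiplicative.ofAdd i := hγ
    simp [h1, h2]

/-- Sum over a fibre. -/
noncomputable def algF3_sm (τ' : Γ →* MZ) [Finite τ'.ker] (φ : Γ → ℝ) (i : ℤ) : ℝ :=
  ∑ γ ∈ (algF3_fin τ' i).toFinset, φ γ

section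
variable {τ' : Γ →* MZ} [Finite τ'.ker]

theorem algF3_shift (φ : Γ → ℝ) (c : Γ) (i : ℤ) :
    algF3_sm τ' φ (i + (τ' c).toAdd) = algF3_sm τ' (fun γ => φ (γ * c)) i := by
  symm
  refine Finset.sum_equiv (Equiv.mulRight c) (fun γ => ?_) fun _ _ => rfl
  simp only [Finite.mem_toFinset, mem_ofPred_eq, Equiv.coe_mulRight, map_mul, ofAdd_add,
    ofAdd_toAdd, mul_left_inj]

theorem algF3_comb {φ₁ φ₂ φ₃ φ₄ : Γ → ℝ} (h : ∀ γ, φ₁ γ + φ₂ γ = φ₃ γ + φ₄ γ) (i : ℤ) :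
    algF3_sm τ' φ₁ i + algF3_sm τ' φ₂ i = algF3_sm τ' φ₃ i + algF3_sm τ' φ₄ i := by
  simp only [algF3_sm, ← Finset.sum_add_distrib, h]

theorem algF3_zero {φ : Γ → ℝ} (h : ∀ γ, φ γ = 0) (i : ℤ) : algF3_sm τ' φ i = 0 :=
  Finset.sum_eq_zero fun γ _ => h γ

theorem algF3_odd {φ : Γ → ℝ} {c : Γ} (hc : τ' c = 1) (h : ∀ γ, φ (γ * c) = -φ γ) (i : ℤ) :
    algF3_sm τ' φ i = 0 := by
  have e := algF3_shift (τ' := τ') φ c i
  rw [hc, toAdd_one, add_zero] at e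
  simp only [h, algF3_sm, Finset.sum_neg_distrib] at e ⊢
  linarith

variable {π : Type} [Group π] {q : π →* Γ} {X : π → Γ → ℂ}

/-- The two-cocycle. -/
noncomputable def algF3_C (τ' : Γ →* MZ) [Finite τ'.ker] (q : π →* Γ) (X : π → Γ → ℂ)
    (g h : π) : ℤ → ℝ := algF3_sm τ' fun γ => algF3_br (X g γ) (X h (γ * q g))

theorem algF3_coc (hX : ∀ g h γ, X (g * h) γ = X g γ + X h (γ * q g)) (g h j : π) (i : ℤ) :
    algF3_C τ' q X h j (i + (τ' (q g)).toAdd) - algF3_C τ' q X (g * h) j i +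
      algF3_C τ' q X g (h * j) i - algF3_C τ' q X g h i = 0 := by
  simp only [algF3_C]
  rw [algF3_shift]
  have := algF3_comb (τ' := τ')
    (φ₁ := fun γ => algF3_br (X h (γ * q g)) (X j (γ * q g * q h)))
    (φ₂ := fun γ => algF3_br (X g γ) (X (h * j) (γ * q g)))
    (φ₃ := fun γ => algF3_br (X (g * h) γ) (X j (γ * q (g * h))))
    (φ₄ := fun γ => algF3_br (X g γ) (X h (γ * q g))) (fun γ => by
      simp only [hX, map_mul, ← mul_assoc, algF3_br_eq, Complex.add_re, Complex.add_im]; ring) i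
  linarith

theorem algF3_X1 (hX : ∀ g h γ, X (g * h) γ = X g γ + X h (γ * q g)) (γ : Γ) : X 1 γ = 0 := by
  simpa using hX 1 1 γ

variable {T : (ℤ → ℝ) →+ (ℤ → ℝ)} {F : π → ℤ → ℝ}

/-- The vanishing property that passes to inverses and conjugates. -/
def algF3_Z (τ' : Γ →* MZ) (q : π →* Γ) (X : π → Γ → ℂ) (F : π → ℤ → ℝ) (w : π) : Prop :=
  τ' (q w) = 1 ∧ (∀ γ, Commute (q w) γ) ∧ q w * q w = 1 ∧ (∀ γ, X w (γ * q w) = -X w γ) ∧
    ∀ i, F w i = 0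

theorem algF3_inv (hX : ∀ g h γ, X (g * h) γ = X g γ + X h (γ * q g))
    (hF : ∀ g h i, F g i + F h (i + (τ' (q g)).toAdd) - F (g * h) i = T (algF3_C τ' q X g h) i)
    {w : π} (hw : algF3_Z τ' q X F w) : algF3_Z τ' q X F w⁻¹ := by
  obtain ⟨h1, h2, h3, h4, h5⟩ := hw
  have e : q w⁻¹ = q w := by rw [map_inv]; exact inv_eq_of_mul_eq_one_right h3
  have e1 : ∀ γ, X w⁻¹ (γ * q w) = -X w γ := fun γ => by
    have := hX w w⁻¹ γ
    rw [mul_inv_cancel, algF3_X1 hX] at this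
    linear_combination -this
  have F1 : ∀ i, F 1 i = 0 := fun i => by
    have := hF 1 1 i
    have h0 : algF3_C τ' q X 1 1 = 0 := funext fun i =>
      algF3_zero (fun γ => by simp [algF3_X1 hX, algF3_br]) i
    simpa [h0] using this
  refine ⟨e ▸ h1, e ▸ h2, e ▸ h3, fun γ => ?_, fun i => ?_⟩
  · have := e1 (γ * q w)
    rw [mul_assoc, h3, mul_one, h4] at this
    rw [e, e1, this, neg_neg]
  · have := hF w w⁻¹ i
    have h0 : algF3_C τ' q X w w⁻¹ = 0 := funext fun i =>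
      algF3_zero (fun γ => by
        simp only [e1, algF3_br_eq, Complex.neg_re, Complex.neg_im]; ring) i
    simpa [h0, h1, h5, F1] using this

theorem algF3_conj (hX : ∀ g h γ, X (g * h) γ = X g γ + X h (γ * q g))
    (hF : ∀ g h i, F g i + F h (i + (τ' (q g)).toAdd) - F (g * h) i = T (algF3_C τ' q X g h) i)
    {w w' : π} (hw : algF3_Z τ' q X F w) (hc : IsConj w' w) (i : ℤ) : F w' i = 0 := by
  obtain ⟨h1, h2, h3, h4, h5⟩ := hw
  obtain ⟨c, hc⟩ := isConj_iff.mp hc.symm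
  have e0 : w' * c = c * w := by rw [← hc, inv_mul_cancel_right]
  have e : q w' = q w := by
    rw [← hc, map_mul, map_mul, map_inv, ← (h2 _).eq, mul_inv_cancel_right]
  have e1 : ∀ γ, X w' γ = X c γ + X w (γ * q c) - X c (γ * q w) := fun γ => by
    have a1 := hX w' c γ
    rw [e0, hX, e] at a1
    linear_combination -a1
  have e2 : algF3_C τ' q X w' c = algF3_C τ' q X c w := by
    funext i
    have a1 := algF3_odd (τ' := τ') (φ := fun γ => algF3_br (X c γ) (X c (γ * q w))) h1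
      (fun γ => by simp only [mul_assoc, h3, mul_one, algF3_br_eq]; ring) i
    have a2 := algF3_shift (τ' := τ') (fun γ => algF3_br (X c γ) (X w (γ * q c))) (q w) i
    rw [h1, toAdd_one, add_zero] at a2
    have a3 := algF3_comb (τ' := τ')
      (φ₁ := fun γ => algF3_br (X w' γ) (X c (γ * q w'))) (φ₂ := fun _ => 0)
      (φ₃ := fun γ => algF3_br (X c γ) (X c (γ * q w)))
      (φ₄ := fun γ => algF3_br (X c (γ * q w)) (X w (γ * q w * q c))) (fun γ => by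
        rw [mul_assoc γ, (h2 _).eq, ← mul_assoc, h4, e, e1]
        simp only [algF3_br_eq, Complex.add_re, Complex.add_im, Complex.sub_re, Complex.sub_im,
          Complex.neg_re, Complex.neg_im]
        ring) i
    have a4 := algF3_zero (τ' := τ') (φ := fun _ => 0) (fun _ => rfl) i
    simp only [algF3_C]
    linarith
  have b1 := hF w' c i
  have b2 := hF c w i
  rw [e0, e, h1, toAdd_one, add_zero, e2] at b1
  rw [h5] at b2
  linarith

theorem algF3_lw (T1 : ∀ f j i, T (fun i => f (i + j)) i = T f (i + j))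
    (hF : ∀ g h i, F g i + F h (i + (τ' (q g)).toAdd) - F (g * h) i = T (algF3_C τ' q X g h) i)
    {m s : π} (hb : Br m s) (hc : (∀ γ, Commute (q (lw m s)) γ) ∧ q (lw m s) ^ 2 = 1) {ω : Γ → ℂ}
    (hω : ∀ g ∈ Subgroup.closure {m, s}, ∀ γ, X g γ = ω (γ * q g) - ω γ) :
    algF3_Z τ' q X F (lw m s) := by
  have hm : m ∈ Subgroup.closure {m, s} := Subgroup.subset_closure (by simp)
  have hs : s ∈ Subgroup.closure {m, s} := Subgroup.subset_closure (by simp)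
  generalize Subgroup.closure {m, s} = H at hω hm hs
  obtain ⟨t1, t2⟩ : τ' (q s) = τ' (q m) ∧ τ' (q (lw m s)) = 1 := hb.tau (τ'.comp q)
  have h3 : q (lw m s) * q (lw m s) = 1 := by rw [← sq, hc.2]
  have hl : lw m s ∈ H := mul_mem (pow_mem (mul_mem hm hs) _) (pow_mem (inv_mem hm) _)
  refine ⟨t2, hc.1, h3, fun γ => ?_, fun i => ?_⟩
  · rw [hω _ hl, hω _ hl, mul_assoc, h3, mul_one, neg_sub]
  obtain ⟨f, hf⟩ : ∃ f : π → ℤ → ℝ, ∀ g,
      f g = algF3_sm τ' fun γ => algF3_br (ω γ) (ω (γ * q g)) := ⟨_, fun _ => rfl⟩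
  obtain ⟨G, hG⟩ : ∃ G : π → ℤ → ℝ, ∀ g i, G g i = F g i - T (f g) i := ⟨_, fun _ _ => rfl⟩
  have der : ∀ g ∈ H, ∀ h ∈ H, ∀ i, G (g * h) i = G g i + G h (i + (τ' (q g)).toAdd) := by
    intro g hg h hh i
    have e : algF3_C τ' q X g h = f g + (fun i => f h (i + (τ' (q g)).toAdd)) - f (g * h) := by
      funext i
      simp only [Pi.add_apply, Pi.sub_apply, hf, algF3_C]
      rw [algF3_shift]
      have := algF3_comb (τ' := τ') (φ₁ := fun γ => algF3_br (X g γ) (X h (γ * q g)))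
        (φ₂ := fun γ => algF3_br (ω γ) (ω (γ * q (g * h))))
        (φ₃ := fun γ => algF3_br (ω γ) (ω (γ * q g)))
        (φ₄ := fun γ => algF3_br (ω (γ * q g)) (ω (γ * q g * q h))) (fun γ => by
          simp only [hω g hg, hω h hh, map_mul, ← mul_assoc, algF3_br_eq, Complex.sub_re,
            Complex.sub_im]
          ring) i
      linarith
    have := hF g h i
    rw [e, map_sub, map_add, Pi.sub_apply, Pi.add_apply, T1] at this
    simp only [hG]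
    linarith
  have ha : s * m⁻¹ ∈ H := mul_mem hs (inv_mem hm)
  have ta : τ' (q (s * m⁻¹)) = 1 := by simp [t1]
  have e := hb.lw_eq _ _ rfl rfl
  generalize s * m⁻¹ = a at ha ta e
  have hb' : m * a * m⁻¹ ∈ H := mul_mem (mul_mem hm ha) (inv_mem hm)
  have tb : τ' (q (m * a * m⁻¹)) = 1 := by
    rw [map_mul q, map_mul q, map_mul, map_mul, ta]; simp
  generalize m * a * m⁻¹ = b at hb' tb e
  have hw : b * a * b⁻¹ * a⁻¹ ∈ H := mul_mem (mul_mem (mul_mem hb' ha) (inv_mem hb')) (inv_mem ha)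
  have tw : τ' (q (b * a * b⁻¹ * a⁻¹)) = 1 := by simp [ta, tb]
  have Gw : ∀ i, G (b * a * b⁻¹ * a⁻¹) i = 0 := fun i => by
    have a1 := der _ hw _ (mul_mem ha hb') i
    have a2 := der _ ha _ hb' i
    have a3 := der _ hb' _ ha i
    rw [show b * a * b⁻¹ * a⁻¹ * (a * b) = b * a by group] at a1
    simp only [ta, tb, tw, toAdd_one, add_zero] at a1 a2 a3
    linarith
  have b1 := der _ hl _ (mul_mem hs hm) i
  have b2 := der _ (mul_mem hs hm) _ hw i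
  rw [t2, toAdd_one, add_zero] at b1
  rw [Gw, ← eq_mul_inv_iff_mul_eq.mp e] at b2
  have b3 : f (lw m s) = 0 := by
    rw [hf]
    funext i
    exact algF3_odd t2 (fun γ => by simp only [mul_assoc, h3, mul_one, algF3_br_eq]; ring) i
  have b4 := hG (lw m s) i
  rw [b3, map_zero, Pi.zero_apply] at b4
  linarith

theorem algF3_quad (hX : ∀ g h γ, X (g * h) γ = X g γ + X h (γ * q g))
    (T2 : ∀ a i, T (fun _ => a) i = a)
    (hF : ∀ g h i, F g i + F h (i + (τ' (q g)).toAdd) - F (g * h) i = T (algF3_C τ' q X g h) i)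
    {u l w : π} (hQ : Quad u l w) (hu : Gen (τ' (q u))) (hl : τ' (q l) = 1)
    (xu : ∀ γ, X u (γ * q u) = z0 * X u γ) (xl : ∀ γ, X u (γ * q l) = -X u γ)
    (xl0 : ∀ γ, X l γ = 0) (Fl : ∀ i, F l i = 0) (Fw : F w 0 = 0) (γ₀ : Γ) : X u γ₀ = 0 := by
  by_contra h0
  have key : ∀ g ∈ Subgroup.closure {u, l}, ∃ a x : ℂ, (∀ γ, X u (γ * q g) = a * X u γ) ∧
      ∀ γ, X g γ = x * X u γ := by
    intro g hg
    induction hg using Subgroup.closure_induction with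
    | mem g hg =>
      rcases hg with rfl | rfl
      · exact ⟨z0, 1, xu, by simp⟩
      · exact ⟨-1, 0, by simp [xl], by simp [xl0]⟩
    | one => exact ⟨1, 0, by simp, by simp [algF3_X1 hX]⟩
    | mul g h _ _ ihg ihh =>
      obtain ⟨a, x, h1, h2⟩ := ihg
      obtain ⟨a', x', h3, h4⟩ := ihh
      refine ⟨a * a', x + a * x', fun γ => ?_, fun γ => ?_⟩
      · rw [map_mul, ← mul_assoc, h3, h1]; ring
      · rw [hX, h2, h4, h1]; ring
    | inv g _ ih =>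
      obtain ⟨a, x, h1, h2⟩ := ih
      have e : ∀ γ, X u γ = a * X u (γ * q g⁻¹) := fun γ => by
        rw [← h1, map_inv, inv_mul_cancel_right]
      have ha : a ≠ 0 := fun ha => h0 (by rw [e, ha, zero_mul])
      have e1 : ∀ γ, X u (γ * q g⁻¹) = a⁻¹ * X u γ := fun γ => by
        rw [e γ, inv_mul_cancel_left₀ ha]
      refine ⟨a⁻¹, -(x * a⁻¹), e1, fun γ => ?_⟩
      have := hX g⁻¹ g γ
      rw [inv_mul_cancel, algF3_X1 hX, h2, e1] at this
      linear_combination -this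
  obtain ⟨a, ha⟩ : ∃ a : π → ℂ, ∀ g, a g = X u (γ₀ * q g) / X u γ₀ := ⟨_, fun _ => rfl⟩
  obtain ⟨x, hx⟩ : ∃ x : π → ℂ, ∀ g, x g = X g γ₀ / X u γ₀ := ⟨_, fun _ => rfl⟩
  have key2 : ∀ g ∈ Subgroup.closure {u, l}, (∀ γ, X u (γ * q g) = a g * X u γ) ∧
      ∀ γ, X g γ = x g * X u γ := fun g hg => by
    obtain ⟨a', x', h1, h2⟩ := key g hg
    rw [ha, hx, h1, h2, mul_div_cancel_right₀ _ h0, mul_div_cancel_right₀ _ h0]
    exact ⟨h1, h2⟩
  have nz : Complex.normSq z0 = 1 := by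
    have := z0_conj
    rw [Complex.mul_conj] at this
    exact_mod_cast this
  have cst : ∀ i j, algF3_sm τ' (fun γ => Complex.normSq (X u γ)) i =
      algF3_sm τ' (fun γ => Complex.normSq (X u γ)) j := by
    have h : ∀ i, algF3_sm τ' (fun γ => Complex.normSq (X u γ)) (i + (τ' (q u)).toAdd) =
        algF3_sm τ' (fun γ => Complex.normSq (X u γ)) i := fun i => by
      rw [algF3_shift]
      simp only [xu, map_mul, nz, one_mul]
    generalize algF3_sm τ' (fun γ => Complex.normSq (X u γ)) = D at h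
    have h1 : ∀ i, D (i + 1) = D i := fun i => by
      rcases hu with hu | hu <;> rw [hu, toAdd_ofAdd] at h
      · exact h i
      · rw [← h (i + 1), add_neg_cancel_right]
    have h2 : ∀ i, D i = D 0 := fun i => by
      induction i using Int.induction_on with
      | zero => rfl
      | succ n ih => rw [h1, ih]
      | pred n ih => rw [← h1, sub_add_cancel, ih]
    exact fun i j => by rw [h2 i, h2 j]
  have hS := hQ (fun g => (τ' (q g)).toAdd) a x F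
    (algF3_sm τ' (fun γ => Complex.normSq (X u γ)) 0) (fun g hg h hh => ?_) (by simp [hl])
    (by rw [ha, xu, mul_div_cancel_right₀ _ h0]) (by rw [ha, xl, neg_div, div_self h0])
    (by rw [hx, div_self h0]) (by rw [hx, xl0, zero_div]) (funext Fl) Fw
  · rw [cst 0 (τ' γ₀).toAdd, algF3_sm,
      Finset.sum_eq_zero_iff_of_nonneg fun _ _ => Complex.normSq_nonneg _] at hS
    exact h0 (Complex.normSq_eq_zero.mp (hS γ₀ (by simp)))
  · obtain ⟨g1, g2⟩ := key2 g hg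
    obtain ⟨g3, g4⟩ := key2 h hh
    refine ⟨by simp, ?_, ?_, fun i => ?_⟩
    · rw [ha, map_mul, ← mul_assoc, g3, g1, div_eq_iff h0]; ring
    · rw [hx, hX, g2, g4, g1, div_eq_iff h0]; ring
    · have e : algF3_C τ' q X g h = fun _ => algF3_sm τ' (fun γ => Complex.normSq (X u γ)) 0 *
          (x g * (starRingEnd ℂ) (a g * x h)).im := by
        funext j
        rw [cst 0 j]
        simp only [algF3_C, algF3_sm, Finset.sum_mul]
        refine Finset.sum_congr rfl fun γ _ => ?_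
        rw [g2, g4, g1]
        simp only [algF3_br_eq, Complex.mul_re, Complex.mul_im, Complex.normSq_apply,
          Complex.conj_re, Complex.conj_im]
        ring
      have := hF g h i
      rw [e, T2] at this
      linarith

end

theorem algF3_rec {f : ℕ → ℝ} (h : ∀ j, 2 * f (j + 2) - 3 * f (j + 1) + 2 * f j = 0) (M : ℕ) :
    (f (M + 1) : ℂ) - z0 * f M = (starRingEnd ℂ) z0 ^ M * (f 1 - z0 * f 0) := by
  have h1 := z0_conj
  have h2 : 2 * (z0 + (starRingEnd ℂ) z0) = 3 := by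
    have := z0_root
    linear_combination (starRingEnd ℂ) z0 * this + (3 - 2 * z0) * h1
  induction M with
  | zero => simp
  | succ n ih =>
    have h3 : (2 * f (n + 2) - 3 * f (n + 1) + 2 * f n : ℂ) = 0 := by exact_mod_cast h n
    rw [pow_succ', mul_assoc, ← ih]
    linear_combination (1 / 2) * h3 - (1 / 2) * (f (n + 1) : ℂ) * h2 + (f n : ℂ) * h1

/-- Plan. `Y g = (k g).v`, `q g = (k g).g`, `t = q u`, `s = t ^ M`, `ξ = Y u`. If `ξ` is not torsion there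
is an additive `x₀ : N →+ ℝ` (or `ℚ`) with `x₀ ξ ≠ 0`. `X g γ = x₀ (ρ (s γ) (Y g)) - conj z0 ^ M * x₀ (ρ γ (Y g))`
satisfies `X (g h) γ = X g γ + X h (γ * q g)`. `B i f f' = ∑ over τ' γ = ofAdd i of Im (f γ * conj (f' γ))`
(finite fibres), `C g h i = B i (X g) (fun γ => X h (γ * q g))` is a two-cocycle; `hs` gives `T`, `F`.
On a braid pair `X g γ = ω (γ q g) - ω γ`, `C = δ f` with `f g i = B i ω (ω (· * q g))`, so `F - T f` is a
derivation, vanishing on `lw` by `Br.lw_eq`; `B i ω (ω (· * ℓ)) = 0` for central `ℓ` of order two; hence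
`F (lw ..) = 0`, also for inverses and conjugates. `hA` gives `X u (γ t) = z0 * X u γ`
(`b j = f (j+1) - z0 f j` satisfies `b (j+1) = conj z0 * b j`). If `X u ≠ 0`, on the closure of `{u, l}`
`X u (γ q g) = a g * X u γ`, `X g = x g * X u` (closure induction), `S = ∑ ‖X u γ‖²` does not depend on the
fibre, `hQ` gives `S = 0`. So `X u 1 = 0`, whose imaginary part contradicts `z0_pow_im`. -/
theorem f3 {π : Type} [Group π] (τ : π →* MZ) (τ' : Γ →* MZ) [Finite τ'.ker]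
    {ρ : Representation ℤ Γ N} (k : π →* SD ρ) (hτ : ∀ g, τ' (k g).g = τ g) (hs : Split ℝ τ)
    {m₀ b₀ m₁ b₁ u l w : π} (h₀ : Br m₀ b₀) (h₁ : Br m₁ b₁)
    (c₀ : (∀ γ, Commute (k (lw m₀ b₀)).g γ) ∧ (k (lw m₀ b₀)).g ^ 2 = 1)
    (c₁ : (∀ γ, Commute (k (lw m₁ b₁)).g γ) ∧ (k (lw m₁ b₁)).g ^ 2 = 1)
    (i₀ : ∃ v, ∀ g ∈ Subgroup.closure {m₀, b₀}, (k g).v = ρ (k g).g v - v)
    (i₁ : ∃ v, ∀ g ∈ Subgroup.closure {m₁, b₁}, (k g).v = ρ (k g).g v - v)
    (hl : l = lw m₀ b₀ ∨ l = (lw m₀ b₀)⁻¹) (hw : IsConj w (lw m₁ b₁) ∨ IsConj w (lw m₁ b₁)⁻¹)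
    (hwm : w ∈ Subgroup.closure {u, l}) (hQ : Quad u l w) (hu : Gen (τ u)) (hlv : (k l).v = 0)
    (hlu : ρ (k l).g (k u).v = -(k u).v) {M : ℕ} (hM : M ≠ 0)
    (hMc : ∀ γ, Commute ((k u).g ^ M) γ) {c : ℤ} (hc : c ≠ 0)
    (hA : c • (2 • ρ ((k u).g * (k u).g) (k u).v - 3 • ρ (k u).g (k u).v + 2 • (k u).v) = 0) :
    ∃ n : ℤ, n ≠ 0 ∧ n • (k u).v = 0 := by
  by_contra hn
  have inj : Function.Injective (zmultiplesHom N (k u).v) := by
    rw [injective_iff_map_eq_zero]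
    intro n h
    by_contra h0
    exact hn ⟨n, h0, h⟩
  obtain ⟨x₀, hx₀⟩ := (Module.Baer.of_divisible ℝ).extension_property_addMonoidHom _ inj
    (Int.castAddHom ℝ)
  have x1 : x₀ (k u).v = 1 := by simpa using DFunLike.congr_fun hx₀ 1
  obtain ⟨q, hq⟩ : ∃ q : π →* Γ, ∀ g, (k g).g = q g := ⟨(SD.snd ρ).comp k, fun _ => rfl⟩
  have hY : ∀ g h, (k (g * h)).v = (k g).v + ρ (q g) (k h).v := fun g h => by
    rw [map_mul, SD.mul_v, hq]
  simp only [hq] at hτ c₀ c₁ i₀ i₁ hlu hMc hA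
  obtain ⟨Ω, hΩ⟩ : ∃ Ω : N → Γ → ℂ, ∀ v γ, Ω v γ =
      x₀ (ρ (q u ^ M * γ) v) - (starRingEnd ℂ) z0 ^ M * x₀ (ρ γ v) := ⟨_, fun _ _ => rfl⟩
  have Ωρ : ∀ v γ δ, Ω (ρ δ v) γ = Ω v (γ * δ) := fun v γ δ => by
    simp only [hΩ, map_mul, Module.End.mul_apply]
  have Ωa : ∀ v v' γ, Ω (v + v') γ = Ω v γ + Ω v' γ := fun v v' γ => by
    simp only [hΩ, map_add]; push_cast; ring
  have Ωs : ∀ v v' γ, Ω (v - v') γ = Ω v γ - Ω v' γ := fun v v' γ => by
    simp only [hΩ, map_sub]; push_cast; ring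
  have hX : ∀ g h γ, Ω (k (g * h)).v γ = Ω (k g).v γ + Ω (k h).v (γ * q g) := fun g h γ => by
    rw [hY, Ωa, Ωρ]
  obtain ⟨T, T1, T2, F, hF⟩ := hs (algF3_C τ' q fun g => Ω (k g).v) fun g h j i => by
    rw [← hτ]; exact algF3_coc hX g h j i
  simp only [← hτ] at hF
  obtain ⟨v₀, i₀⟩ := i₀
  obtain ⟨v₁, i₁⟩ := i₁
  have z₀ := algF3_lw T1 hF h₀ c₀ (ω := Ω v₀) fun g hg γ => by rw [i₀ g hg, Ωs, Ωρ]
  have z₁ := algF3_lw T1 hF h₁ c₁ (ω := Ω v₁) fun g hg γ => by rw [i₁ g hg, Ωs, Ωρ]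
  have zl : algF3_Z τ' q (fun g => Ω (k g).v) F l := by
    rcases hl with rfl | rfl
    · exact z₀
    · exact algF3_inv hX hF z₀
  have zw : F w 0 = 0 := by
    rcases hw with hw | hw
    · exact algF3_conj hX hF z₁ hw 0
    · exact algF3_conj hX hF (algF3_inv hX hF z₁) hw 0
  have hA' : ∀ γ, 2 * x₀ (ρ (γ * q u * q u) (k u).v) - 3 * x₀ (ρ (γ * q u) (k u).v) +
      2 * x₀ (ρ γ (k u).v) = 0 := fun γ => by
    have := congrArg (fun v => x₀ (ρ γ v)) hA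
    simp only [map_zsmul, map_add, map_sub, map_nsmul, map_zero, zsmul_eq_mul, nsmul_eq_mul,
      mul_eq_zero, Int.cast_eq_zero, hc, false_or, map_mul, Module.End.mul_apply] at this ⊢
    exact_mod_cast this
  have h0 := algF3_quad hX T2 hF hQ (hτ u ▸ hu) zl.1 (fun γ => ?_) (fun γ => ?_) (fun γ => ?_)
    zl.2.2.2.2 zw 1
  · have := congrArg Complex.im h0
    rw [hΩ, map_one, Module.End.one_apply, x1, ← map_pow (starRingEnd ℂ)] at this
    exact z0_pow_im hM (by simpa [-map_pow] using this)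
  · have := algF3_rec (f := fun j => x₀ (ρ (γ * q u ^ j) (k u).v)) (fun j => by
      simpa only [pow_succ, ← mul_assoc] using hA' (γ * q u ^ j)) M
    simp only [pow_succ, ← mul_assoc, pow_zero, mul_one, one_mul] at this
    simp only [hΩ, ← mul_assoc, (hMc γ).eq]
    linear_combination this
  · rw [← Ωρ, hlu]
    simp only [hΩ, map_neg]; push_cast; ring
  · simp [hΩ, hlv]

end Pool.Agent.MP_b8a826_gt

end

-- part MP_b8a826_gt.AlexMV
section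

/-! Mayer-Vietoris arguments for integral chains. -/

namespace Pool.Agent.MP_b8a826_gt
open Set

variable {E : Type} [NormedAddCommGroup E] [NormedSpace ℝ E] {U V : Set E} {n : ℕ}

theorem CB_inter {c : Ch ℤ (E × Unit)} (h : c ∈ CB ℤ U n) (h' : c ∈ CB ℤ V n) :
    c ∈ CB ℤ (U ∩ V) n :=
  C_mono (fun _ hs => ⟨subset_inter hs.1.1 hs.2.1, hs.1.2⟩) (C_and h h')

theorem CB_or {c : Ch ℤ (E × Unit)} (h : c ∈ C ℤ (Ad φ1 fun s => s ⊆ U ∨ s ⊆ V) n) :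
    ∃ a ∈ CB ℤ U n, ∃ b ∈ CB ℤ V n, c = a + b :=
  C_or (C_mono (fun _ hs => hs.1.imp (fun h => ⟨h, hs.2⟩) fun h => ⟨h, hs.2⟩) h)

theorem CB_empty {c : Ch ℤ (E × Unit)} (h : c ∈ CB ℤ (∅ : Set E) (n + 1)) : c = 0 :=
  C_eq_zero (fun _ ⟨_, hv⟩ hs => hs.1 (subset_convexHull ℝ _ (mem_image_of_mem _ hv))) h

theorem pt_mem {x : E} (hx : x ∈ U) : sg ℤ [(x, ())] ∈ CB ℤ U 1 :=
  sg_mem rfl ⟨by simpa using hx, fun _ _ _ _ => rfl⟩

theorem CB_zero {c : Ch ℤ (E × Unit)} (h : c ∈ CB ℤ U 0) : ∃ k : ℤ, c = k • sg ℤ [] :=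
  C_ind (p := fun c => ∃ k : ℤ, c = k • sg ℤ []) ⟨0, by simp⟩
    (by rintro _ _ ⟨a, rfl⟩ ⟨b, rfl⟩; exact ⟨a + b, (add_smul _ _ _).symm⟩)
    (by rintro r _ ⟨a, rfl⟩; exact ⟨r * a, (mul_smul _ _ _).symm⟩)
    (fun l hl _ => ⟨1, by simp [List.length_eq_zero_iff.1 hl]⟩) h

theorem acyc_zero (h : U.Nonempty) : Acyc U 0 := fun z hz _ => by
  obtain ⟨k, rfl⟩ := CB_zero hz
  obtain ⟨x, hx⟩ := h
  exact ⟨k • sg ℤ [(x, ())], Submodule.smul_mem _ k (pt_mem hx), by rw [map_smul, bd1]⟩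

theorem acyc_star {x : E} (hx : x ∈ U) (h : StarConvex ℝ x U) (n : ℕ) : Acyc U n := by
  intro z hz h0
  refine ⟨cone (x, ()) z, cone_mem (fun s hs => ⟨?_, fun _ _ _ _ => rfl⟩) hz, by
    rw [bd_cone, h0, map_zero, sub_zero]⟩
  rw [image_insert_eq]
  rcases (Prod.fst '' s).eq_empty_or_nonempty with h' | h'
  · simpa [h'] using hx
  · rw [convexHull_insert h', convexJoin_singleton_left]
    exact iUnion₂_subset fun y hy => h.segment_subset (hs.1 hy)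

theorem mv_ref (hU : IsOpen U) (hV : IsOpen V) {w a b : Ch ℤ (E × Unit)}
    (hw : w ∈ CB ℤ (U ∪ V) (n + 1)) (ha : a ∈ CB ℤ U n) (hb : b ∈ CB ℤ V n) (h : bd w = a + b) :
    ∃ u ∈ CB ℤ U (n + 1), ∃ v ∈ CB ℤ V (n + 1), ∃ d ∈ CB ℤ (U ∪ V) (n + 2), w = u + v + bd d := by
  obtain ⟨c, hc, d, hd, e, he, rfl⟩ := refine (coc_one (U ∪ V)) (g := fun s => s ⊆ U ∨ s ⊆ V)
    (g₀ := fun s => s ⊆ U ∨ s ⊆ V) (fun x hx => by
      rcases hx with hx | hx
      · obtain ⟨ε, h1, h2⟩ := Metric.isOpen_iff.1 hU x hx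
        exact ⟨ε, h1, fun s hs => Or.inl (hs.trans h2)⟩
      · obtain ⟨ε, h1, h2⟩ := Metric.isOpen_iff.1 hV x hx
        exact ⟨ε, h1, fun s hs => Or.inr (hs.trans h2)⟩)
    (fun s t hst ht => ht.imp hst.trans hst.trans)
    (fun s hs => hs.elim (subset_union_of_subset_left · _) (subset_union_of_subset_right · _)) hw
    (h ▸ add_mem (C_mono (Ad.mono fun _ => Or.inl) ha) (C_mono (Ad.mono fun _ => Or.inr) hb))
  obtain ⟨u, hu, v, hv, h'⟩ := CB_or (add_mem (C_mono (Ad.mono fun _ => And.right) hc) he)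
  exact ⟨u, hu, v, hv, d, hd, by rw [← h']; abel⟩

/-- A cycle of the intersection bounding in both pieces bounds in the intersection. -/
theorem mv_inter (hU : IsOpen U) (hV : IsOpen V) (h : Acyc (U ∪ V) (n + 1))
    {a b : Ch ℤ (E × Unit)} (ha : a ∈ CB ℤ U (n + 1)) (hb : b ∈ CB ℤ V (n + 1))
    (e : bd a = bd b) : ∃ c ∈ CB ℤ (U ∩ V) (n + 1), bd c = bd a := by
  obtain ⟨w, hw, h1⟩ := h (a + -b) (add_mem (CC_mono subset_union_left ha)
    (neg_mem (CC_mono subset_union_right hb))) (by simp [e])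
  obtain ⟨u, hu, v, hv, d, -, rfl⟩ := mv_ref hU hV hw ha (neg_mem hb) h1
  simp only [map_add, bd_bd, add_zero] at h1
  refine ⟨a - bd u, CB_inter (sub_mem ha (bd_CC hu)) ?_, by simp⟩
  rw [show a - bd u = b + bd v by rw [sub_eq_iff_eq_add, add_assoc, add_comm (bd v), h1]; abel]
  exact add_mem hb (bd_CC hv)

theorem acyc_inter (hU : IsOpen U) (hV : IsOpen V) (h : Acyc (U ∪ V) (n + 1)) (h1 : Acyc U n)
    (h2 : Acyc V n) : Acyc (U ∩ V) n := fun z hz h0 => by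
  obtain ⟨a, ha, e1⟩ := h1 z (CC_mono inter_subset_left hz) h0
  obtain ⟨b, hb, e2⟩ := h2 z (CC_mono inter_subset_right hz) h0
  obtain ⟨c, hc, e⟩ := mv_inter hU hV h ha hb (e1.trans e2.symm)
  exact ⟨c, hc, e.trans e1⟩

/-- Cycles of a piece come from the intersection when the union is acyclic. -/
theorem mv_surj (hU : IsOpen U) (hV : IsOpen V) (h : Acyc (U ∪ V) n) {z : Ch ℤ (E × Unit)}
    (hz : z ∈ CB ℤ U n) (h0 : bd z = 0) :
    ∃ z' ∈ CB ℤ (U ∩ V) n, bd z' = 0 ∧ ∃ u ∈ CB ℤ U (n + 1), z = z' + bd u := by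
  obtain ⟨w, hw, h1⟩ := h z (CC_mono subset_union_left hz) h0
  obtain ⟨u, hu, v, hv, d, -, rfl⟩ := mv_ref hU hV hw hz (zero_mem _) (by rw [h1, add_zero])
  simp only [map_add, bd_bd, add_zero] at h1
  refine ⟨bd v, CB_inter ?_ (bd_CC hv), bd_bd v, u, hu, by rw [← h1, add_comm]⟩
  rw [show bd v = z - bd u by rw [← h1]; abel]
  exact sub_mem hz (bd_CC hu)

theorem mv_gen (hU : IsOpen U) (hV : IsOpen V) {z : Ch ℤ (E × Unit)}
    (hz : z ∈ CB ℤ (U ∪ V) (n + 1)) (h0 : bd z = 0) :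
    ∃ u ∈ CB ℤ U (n + 1), ∃ v ∈ CB ℤ V (n + 1), ∃ d ∈ CB ℤ (U ∪ V) (n + 2), z = u + v + bd d ∧
      bd v = -bd u ∧ bd u ∈ CB ℤ (U ∩ V) n := by
  obtain ⟨u, hu, v, hv, d, hd, rfl⟩ := mv_ref hU hV hz (zero_mem _) (zero_mem _) (by simp [h0])
  simp only [map_add, bd_bd, add_zero] at h0
  refine ⟨u, hu, v, hv, d, hd, rfl, eq_neg_of_add_eq_zero_right h0, CB_inter (bd_CC hu) ?_⟩
  rw [eq_neg_of_add_eq_zero_left h0]
  exact neg_mem (bd_CC hv)

theorem mv_glue (h1 : Acyc U (n + 1)) (h2 : Acyc V (n + 1)) {u v c : Ch ℤ (E × Unit)}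
    (hu : u ∈ CB ℤ U (n + 1)) (hv : v ∈ CB ℤ V (n + 1)) (hc : c ∈ CB ℤ (U ∩ V) (n + 1))
    (e1 : bd c = bd u) (e2 : bd v = -bd u) : ∃ w ∈ CB ℤ (U ∪ V) (n + 2), bd w = u + v := by
  obtain ⟨a, ha, h3⟩ := h1 (u - c) (sub_mem hu (CC_mono inter_subset_left hc)) (by simp [e1])
  obtain ⟨b, hb, h4⟩ := h2 (v + c) (add_mem hv (CC_mono inter_subset_right hc)) (by simp [e1, e2])
  exact ⟨a + b, add_mem (CC_mono subset_union_left ha) (CC_mono subset_union_right hb), by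
    rw [map_add, h3, h4]; abel⟩

theorem acyc_union (hU : IsOpen U) (hV : IsOpen V) (h : Acyc (U ∩ V) n) (h1 : Acyc U (n + 1))
    (h2 : Acyc V (n + 1)) : Acyc (U ∪ V) (n + 1) := fun z hz h0 => by
  obtain ⟨u, hu, v, hv, d, hd, rfl, e1, e2⟩ := mv_gen hU hV hz h0
  obtain ⟨c, hc, e3⟩ := h _ e2 (bd_bd u)
  obtain ⟨w, hw, e⟩ := mv_glue h1 h2 hu hv hc e3 e1
  exact ⟨w + d, add_mem hw hd, by rw [map_add, e]⟩

theorem CB_disj (hU : IsOpen U) (hV : IsOpen V) (h : Disjoint U V) {c : Ch ℤ (E × Unit)}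
    (hc : c ∈ CB ℤ (U ∪ V) n) : ∃ a ∈ CB ℤ U n, ∃ b ∈ CB ℤ V n, c = a + b :=
  CB_or (C_mono (fun _ hs => ⟨(convex_convexHull ℝ _).isPreconnected.subset_or_subset hU hV h hs.1,
    hs.2⟩) hc)

end Pool.Agent.MP_b8a826_gt

end

-- part MP_b8a826_gt.AlexSw
section

/-! Complements of cones over embedded cells are acyclic. -/

namespace Pool.Agent.MP_b8a826_gt
open Set

variable {E : Type} [NormedAddCommGroup E] [NormedSpace ℝ E]

/-- A chain is carried by a compact subset. -/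
theorem AlexSw_cpt {U : Set E} {n : ℕ} {v : Ch ℤ (E × Unit)} (hv : v ∈ CB ℤ U n) :
    ∃ K, IsCompact K ∧ K ⊆ U ∧ v ∈ CB ℤ K n := by
  refine ⟨⋃ l ∈ v.support, convexHull ℝ (Prod.fst '' {x | x ∈ l}),
    v.support.isCompact_biUnion fun l _ => ?_, iUnion₂_subset fun l hl => ?_,
    mem_C.2 fun l hl => ⟨(mem_C.1 hv l hl).1, ?_, (mem_C.1 hv l hl).2.2⟩⟩
  · exact ((List.finite_toSet l).image _).isCompact_convexHull ℝ
  · exact (mem_C.1 hv l (Finsupp.mem_support_iff.1 hl)).2.1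
  · exact subset_iUnion₂_of_subset l (Finsupp.mem_support_iff.2 hl) Subset.rfl

/-- Plan: fix a cycle `z` in `(Z a b)ᶜ`; `P s t` := `z` bounds in `(Z s t)ᶜ`. `P s t`, `P t u` give `P s u`
by `mv_inter` (union `(Z t t)ᶜ`, intersection `(Z s u)ᶜ`). A bounding chain in `(Z t t)ᶜ` lies in a compact
set (finite union of hulls of lists), so `P s u` holds for `s ≤ t ≤ u` near `t`. Continuity induction
on `[a, b]` (`IsClosed.Icc_subset_of_forall_mem_nhdsWithin` or a supremum). -/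
theorem sweep {Z : ℝ → ℝ → Set E} {a b : ℝ} (hab : a ≤ b)
    (hc : ∀ s t, a ≤ s → s ≤ t → t ≤ b → IsClosed (Z s t))
    (hu : ∀ s t u, a ≤ s → s ≤ t → t ≤ u → u ≤ b → Z s u = Z s t ∪ Z t u ∧ Z s t ∩ Z t u = Z t t)
    (hk : ∀ t ∈ Icc a b, ∀ K, IsCompact K → K ⊆ (Z t t)ᶜ → ∃ δ > 0, ∀ s u, a ≤ s → s ≤ t → t ≤ u →
      u ≤ b → t - δ ≤ s → u ≤ t + δ → K ⊆ (Z s u)ᶜ)
    (h : ∀ t ∈ Icc a b, ∀ n, Acyc (Z t t)ᶜ n) (n : ℕ) : Acyc (Z a b)ᶜ n := by
  intro z hz h0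
  have sub : ∀ s t, a ≤ s → s ≤ t → t ≤ b → Z s t ⊆ Z a b := fun s t h1 h2 h3 => by
    rw [(hu a s b le_rfl h1 (h2.trans h3) le_rfl).1, (hu s t b h1 h2 h3 le_rfl).1]
    exact subset_union_left.trans subset_union_right
  have loc : ∀ t ∈ Icc a b, ∃ δ > 0, ∀ s u, a ≤ s → s ≤ t → t ≤ u → u ≤ b → t - δ ≤ s →
      u ≤ t + δ → ∃ v ∈ CB ℤ (Z s u)ᶜ (n + 1), bd v = z := by
    intro t ht
    obtain ⟨v, hv, e⟩ := h t ht n z (CC_mono (compl_subset_compl.2 (sub t t ht.1 le_rfl ht.2)) hz) h0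
    obtain ⟨K, hK, h1, h2⟩ := AlexSw_cpt hv
    obtain ⟨δ, hδ, H⟩ := hk t ht K hK h1
    exact ⟨δ, hδ, fun s u a1 a2 a3 a4 a5 a6 => ⟨v, CC_mono (H s u a1 a2 a3 a4 a5 a6) h2, e⟩⟩
  set A : Set ℝ := {t | t ∈ Icc a b ∧ ∃ v ∈ CB ℤ (Z a t)ᶜ (n + 1), bd v = z} with hA
  have ha : a ∈ A := by
    obtain ⟨δ, hδ, H⟩ := loc a ⟨le_rfl, hab⟩
    exact ⟨⟨le_rfl, hab⟩, H a a le_rfl le_rfl le_rfl hab (by linarith) (by linarith)⟩
  have hb : BddAbove A := ⟨b, fun t ht => ht.1.2⟩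
  have hcb : sSup A ≤ b := csSup_le ⟨a, ha⟩ fun t ht => ht.1.2
  obtain ⟨δ, hδ, H⟩ := loc (sSup A) ⟨le_csSup hb ha, hcb⟩
  obtain ⟨s, hs, hs'⟩ := exists_lt_of_lt_csSup ⟨a, ha⟩ (sub_lt_self (sSup A) hδ)
  have h1 : sSup A ≤ min b (sSup A + δ) := le_min hcb (by linarith)
  have h2 := le_csSup hb hs
  obtain ⟨v, hv, e⟩ := H s _ hs.1.1 h2 h1 (min_le_left _ _) hs'.le (min_le_right _ _)
  obtain ⟨v', hv', e'⟩ := hs.2
  obtain ⟨e1, e2⟩ := hu a s _ le_rfl hs.1.1 (h2.trans h1) (min_le_left _ _)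
  obtain ⟨c, hc', e3⟩ := mv_inter (hc a s le_rfl hs.1.1 hs.1.2).isOpen_compl
    (hc s _ hs.1.1 (h2.trans h1) (min_le_left _ _)).isOpen_compl
    (by rw [← compl_inter, e2]; exact h s hs.1 _) hv' hv (e'.trans e.symm)
  rw [← compl_union, ← e1] at hc'
  have h3 : min b (sSup A + δ) ≤ sSup A :=
    le_csSup hb ⟨⟨hs.1.1.trans (h2.trans h1), min_le_left _ _⟩, c, hc', e3.trans e'⟩
  rw [min_eq_left ((min_le_iff.1 h3).elim (fun h => by linarith) fun h => by linarith)] at hc'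
  exact ⟨c, hc', e3.trans e'⟩

/-- The cone over the image of `S`. -/
def cn (J : ℝ × ℝ → E) (S : Set (ℝ × ℝ)) : Set E := {x | ∃ t : ℝ, 0 ≤ t ∧ ∃ p ∈ S, x = t • J p}

theorem AlexSw_bd {J : ℝ × ℝ → E} (hJ : Continuous J) {S : Set (ℝ × ℝ)} (hS : IsCompact S)
    (hne : ∀ p ∈ S, J p ≠ 0) (R : ℝ) : ∃ M, ∀ p ∈ S, ∀ r : ℝ, 0 ≤ r → ‖r • J p‖ ≤ R → r ≤ M := by
  obtain ⟨m, hm, H⟩ := hS.exists_forall_le' (f := fun p => ‖J p‖) hJ.norm.continuousOn (a := 0)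
    fun p hp => norm_pos_iff.2 (hne p hp)
  refine ⟨R / m, fun p hp r hr h => ?_⟩
  rw [norm_smul, Real.norm_of_nonneg hr] at h
  exact (le_div_iff₀ hm).2 ((mul_le_mul_of_nonneg_left (H p hp) hr).trans h)

theorem AlexSw_closed {J : ℝ × ℝ → E} (hJ : Continuous J) {S : Set (ℝ × ℝ)} (hS : IsCompact S)
    (hne : ∀ p ∈ S, J p ≠ 0) : IsClosed (cn J S) := by
  refine isClosed_of_closure_subset fun x hx => ?_
  obtain ⟨M, hM⟩ := AlexSw_bd hJ hS hne (‖x‖ + 1)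
  have hK : IsCompact ((fun y : ℝ × ℝ × ℝ => y.1 • J y.2) '' Icc 0 M ×ˢ S) :=
    (isCompact_Icc.prod hS).image (by fun_prop)
  have h1 : x ∈ closure (Metric.ball 0 (‖x‖ + 1) ∩ cn J S) :=
    Metric.isOpen_ball.inter_closure ⟨by simp, hx⟩
  obtain ⟨y, hy, rfl⟩ := closure_minimal (by
    rintro _ ⟨h1, r, hr, p, hp, rfl⟩
    exact ⟨(r, p), ⟨⟨hr, hM p hp r hr (mem_ball_zero_iff.1 h1).le⟩, hp⟩, rfl⟩) hK.isClosed h1
  exact ⟨y.1, hy.1.1, y.2, hy.2, rfl⟩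

theorem AlexSw_union (J : ℝ × ℝ → E) (S S' : Set (ℝ × ℝ)) : cn J (S ∪ S') = cn J S ∪ cn J S' := by
  ext x
  constructor
  · rintro ⟨r, hr, p, hp | hp, e⟩
    exacts [Or.inl ⟨r, hr, p, hp, e⟩, Or.inr ⟨r, hr, p, hp, e⟩]
  · rintro (⟨r, hr, p, hp, e⟩ | ⟨r, hr, p, hp, e⟩)
    exacts [⟨r, hr, p, Or.inl hp, e⟩, ⟨r, hr, p, Or.inr hp, e⟩]

theorem AlexSw_inter {J : ℝ × ℝ → E} {S S' Y : Set (ℝ × ℝ)} (hne : ∀ p ∈ S, J p ≠ 0)
    (hY : Y.Nonempty) (h1 : ∀ y ∈ Y, ∃ p ∈ S, J y = J p) (h2 : ∀ y ∈ Y, ∃ p ∈ S', J y = J p)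
    (H : ∀ p ∈ S, ∀ q ∈ S', ∀ r : ℝ, 0 < r → J p = r • J q → ∃ y ∈ Y, J p = J y) :
    cn J S ∩ cn J S' = cn J Y := by
  refine Subset.antisymm ?_ ?_
  · rintro _ ⟨⟨r, hr, p, hp, rfl⟩, r', hr', q, hq, e⟩
    rcases hr.eq_or_lt with rfl | h0
    · obtain ⟨y, hy⟩ := hY
      exact ⟨0, le_rfl, y, hy, by simp⟩
    · have h3 : 0 < r' := hr'.lt_of_ne (by
        rintro rfl
        exact smul_ne_zero h0.ne' (hne p hp) (by simpa using e))
      obtain ⟨y, hy, e'⟩ := H p hp q hq (r⁻¹ * r') (by positivity) (by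
        rw [mul_smul, ← e, inv_smul_smul₀ h0.ne'])
      exact ⟨r, hr, y, hy, by rw [e']⟩
  · rintro _ ⟨r, hr, y, hy, rfl⟩
    obtain ⟨p, hp, e⟩ := h1 y hy
    obtain ⟨q, hq, e'⟩ := h2 y hy
    exact ⟨⟨r, hr, p, hp, by rw [e]⟩, r, hr, q, hq, by rw [e']⟩

/-- The complement of a ray. -/
theorem AlexSw_pt {J : ℝ × ℝ → E} {p : ℝ × ℝ} (hp : J p ≠ 0) (n : ℕ) : Acyc (cn J {p})ᶜ n := by
  have h0 : -J p ∉ cn J {p} := by
    rintro ⟨r, hr, q, rfl, e⟩
    refine smul_ne_zero (show r + 1 ≠ 0 by positivity) hp ?_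
    rw [add_smul, ← e, one_smul, neg_add_cancel]
  refine acyc_star h0 (fun x hx α β hα hβ hs => ?_) n
  rintro ⟨r, hr, q, rfl, e⟩
  rcases hβ.eq_or_lt with rfl | h1
  · rw [add_zero] at hs
    exact h0 ⟨r, hr, q, rfl, by simpa [hs] using e⟩
  · refine hx ⟨β⁻¹ * (r + α), by positivity, q, rfl, ?_⟩
    rw [mul_smul, add_smul, ← e, eq_inv_smul_iff₀ h1.ne']
    simp

/-- Sweeping a cone along the first coordinate. -/
theorem AlexSw_gen {J : ℝ × ℝ → E} (hJ : Continuous J) {a b : ℝ} (hab : a ≤ b) {T : Set ℝ}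
    (hT : IsCompact T) (hT' : T.Nonempty) (hne : ∀ p ∈ Icc a b ×ˢ T, J p ≠ 0)
    (hi : ∀ p ∈ Icc a b ×ˢ T, ∀ q ∈ Icc a b ×ˢ T, ∀ r : ℝ, 0 < r → J p = r • J q →
      ∀ t, p.1 ≤ t → t ≤ q.1 → ∃ y ∈ T, J p = J (t, y))
    (h : ∀ t ∈ Icc a b, ∀ n, Acyc (cn J (Icc t t ×ˢ T))ᶜ n) (n : ℕ) :
    Acyc (cn J (Icc a b ×ˢ T))ᶜ n := by
  have sub : ∀ {s t}, a ≤ s → t ≤ b → Icc s t ×ˢ T ⊆ Icc a b ×ˢ T := fun h1 h2 =>
    prod_mono_left (Icc_subset_Icc h1 h2)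
  refine sweep (Z := fun s t => cn J (Icc s t ×ˢ T)) hab (fun s t h1 _ h2 =>
    AlexSw_closed hJ (isCompact_Icc.prod hT) fun p hp => hne p (sub h1 h2 hp))
    (fun s t u h1 h2 h3 h4 => ⟨?_, ?_⟩) (fun t ht K hK hK' => ?_) h n
  · rw [← AlexSw_union, ← union_prod, Icc_union_Icc_eq_Icc h2 h3]
  · refine AlexSw_inter (fun p hp => hne p (sub h1 (h3.trans h4) hp))
      ((nonempty_Icc.2 le_rfl).prod hT')
      (fun y hy => ⟨y, prod_mono_left (Icc_subset_Icc_left h2) hy, rfl⟩)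
      (fun y hy => ⟨y, prod_mono_left (Icc_subset_Icc_right h3) hy, rfl⟩) fun p hp q hq r hr e => ?_
    obtain ⟨y, hy, e'⟩ := hi p (sub h1 (h3.trans h4) hp) q (sub (h1.trans h2) h4 hq) r hr e t
      hp.1.2 hq.1.1
    exact ⟨(t, y), ⟨⟨le_rfl, le_rfl⟩, hy⟩, e'⟩
  · obtain ⟨R, hR⟩ := hK.isBounded.exists_norm_le
    obtain ⟨M, hM⟩ := AlexSw_bd hJ (isCompact_Icc.prod hT) hne R
    have hA : IsCompact ((fun y : ℝ × ℝ × ℝ => y.2.1) '' (Icc 0 M ×ˢ Icc a b ×ˢ T ∩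
        (fun y : ℝ × ℝ × ℝ => y.1 • J y.2) ⁻¹' K)) :=
      ((isCompact_Icc.prod (isCompact_Icc.prod hT)).inter_right
        (hK.isClosed.preimage (by fun_prop))).image (by fun_prop)
    obtain ⟨δ, hδ, H⟩ := Metric.isOpen_iff.1 hA.isClosed.isOpen_compl t (by
      rintro ⟨y, ⟨h1, h2⟩, rfl⟩
      exact hK' h2 ⟨y.1, h1.1.1, y.2, ⟨⟨le_rfl, le_rfl⟩, h1.2.2⟩, rfl⟩)
    refine ⟨δ / 2, half_pos hδ, fun s u h1 _ _ h4 h5 h6 x hx => ?_⟩
    rintro ⟨r, hr, p, hp, rfl⟩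
    refine H (a := p.1) ?_ ⟨(r, p), ⟨⟨⟨hr, hM p (sub h1 h4 hp) r hr (hR _ hx)⟩, sub h1 h4 hp⟩, hx⟩,
      rfl⟩
    rw [Metric.mem_ball, Real.dist_eq, abs_lt]
    constructor <;> linarith [hp.1.1, hp.1.2]

/-- A two-sphere of rays, parametrised by longitude (period one) and latitude in `[-1, 2]`. -/
structure Sph (J : ℝ × ℝ → E) : Prop where
  cont : Continuous J
  ne : ∀ p : ℝ × ℝ, p.2 ∈ Icc (-1 : ℝ) 2 → J p ≠ 0
  per : ∀ a v, J (a + 1, v) = J (a, v)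
  south : ∀ a b, J (a, -1) = J (b, -1)
  north : ∀ a b, J (a, 2) = J (b, 2)
  inj : ∀ (p q : ℝ × ℝ) (t : ℝ), p.2 ∈ Icc (-1 : ℝ) 2 → q.2 ∈ Icc (-1 : ℝ) 2 → 0 < t →
    J p = t • J q → p.2 = q.2 ∧ (p.2 = -1 ∨ p.2 = 2 ∨ ∃ k : ℤ, p.1 = q.1 + k)

theorem Sph.closed {J : ℝ × ℝ → E} (h : Sph J) {S : Set (ℝ × ℝ)} (hS : IsCompact S)
    (hS' : ∀ p ∈ S, p.2 ∈ Icc (-1 : ℝ) 2) : IsClosed (cn J S) := by
  exact AlexSw_closed h.cont hS fun p hp => h.ne p (hS' p hp)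

/-- Plan: a point: the complement of a ray is star-convex about `-J p` (`acyc_star`); an arc
`{a} × [v, w]` is swept by points, the rectangle by arcs (`sweep`; for `hk` use compactness of the
normalised images or the tube lemma). -/
theorem Sph.rect {J : ℝ × ℝ → E} (h : Sph J) {a b v w : ℝ} (hab : a ≤ b) (hb : b < a + 1)
    (hv : -1 ≤ v) (hvw : v ≤ w) (hw : w ≤ 2) (n : ℕ) : Acyc (cn J (Icc a b ×ˢ Icc v w))ᶜ n := by
  have hI : ∀ y ∈ Icc v w, y ∈ Icc (-1 : ℝ) 2 := fun y hy => ⟨hv.trans hy.1, hy.2.trans hw⟩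
  refine AlexSw_gen h.cont hab isCompact_Icc (nonempty_Icc.2 hvw) (fun p hp => h.ne p (hI _ hp.2))
    (fun p hp q hq r hr e t h1 h2 => ⟨p.2, hp.2, ?_⟩) (fun t _ m => ?_) n
  · obtain ⟨-, h3 | h3 | ⟨k, h3⟩⟩ := h.inj p q r (hI _ hp.2) (hI _ hq.2) hr e
    · rw [← Prod.mk.eta (p := p), h3]; exact h.south _ _
    · rw [← Prod.mk.eta (p := p), h3]; exact h.north _ _
    · have h4 : (-1 : ℤ) < k := by
        have : ((-1 : ℤ) : ℝ) < k := by push_cast; linarith [hp.1.1, hq.1.2]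
        exact_mod_cast this
      have h5 : (0 : ℝ) ≤ k := by exact_mod_cast (by omega : 0 ≤ k)
      rw [show t = p.1 by linarith]
  · have e : cn J (Icc t t ×ˢ Icc v w) = cn (J ∘ Prod.swap) (Icc v w ×ˢ Icc t t) := by
      ext x
      exact ⟨fun ⟨r, hr, p, hp, e⟩ => ⟨r, hr, p.swap, ⟨hp.2, hp.1⟩, e⟩,
        fun ⟨r, hr, p, hp, e⟩ => ⟨r, hr, p.swap, ⟨hp.2, hp.1⟩, e⟩⟩
    rw [e]
    refine AlexSw_gen (h.cont.comp continuous_swap) hvw isCompact_Icc (nonempty_Icc.2 le_rfl)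
      (fun p hp => h.ne p.swap (hI _ hp.1)) (fun p hp q hq r hr e t h1 h2 => ⟨p.2, hp.2, ?_⟩)
      (fun u hu m => ?_) m
    · have : p.1 = q.1 := (h.inj p.swap q.swap r (hI _ hp.1) (hI _ hq.1) hr e).1
      rw [show t = p.1 by linarith]
    · rw [Icc_self, Icc_self, singleton_prod_singleton]
      exact AlexSw_pt (J := J ∘ Prod.swap) (p := (u, t)) (h.ne (t, u) (hI _ hu)) m

/-- Gluing two cells along a cell. -/
theorem Sph.un {J : ℝ × ℝ → E} (h : Sph J) {S S' Y : Set (ℝ × ℝ)} (hS : IsCompact S)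
    (hS' : IsCompact S') (i1 : ∀ p ∈ S, p.2 ∈ Icc (-1 : ℝ) 2) (i2 : ∀ p ∈ S', p.2 ∈ Icc (-1 : ℝ) 2)
    (hY : Y.Nonempty) (h1 : ∀ y ∈ Y, ∃ p ∈ S, J y = J p) (h2 : ∀ y ∈ Y, ∃ p ∈ S', J y = J p)
    (H : ∀ p ∈ S, ∀ q ∈ S', p.2 = q.2 → (p.2 = -1 ∨ p.2 = 2 ∨ ∃ k : ℤ, p.1 = q.1 + k) →
      ∃ y ∈ Y, J p = J y) (a1 : ∀ n, Acyc (cn J S)ᶜ n) (a2 : ∀ n, Acyc (cn J S')ᶜ n)
    (a3 : ∀ n, Acyc (cn J Y)ᶜ n) (n : ℕ) : Acyc (cn J (S ∪ S'))ᶜ n := by
  rw [AlexSw_union, compl_union]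
  refine acyc_inter (h.closed hS i1).isOpen_compl (h.closed hS' i2).isOpen_compl ?_ (a1 n) (a2 n)
  rw [← compl_inter, AlexSw_inter (fun p hp => h.ne p (i1 p hp)) hY h1 h2 fun p hp q hq r hr e =>
    (h.inj p q r (i1 p hp) (i2 q hq) hr e).elim (H p hp q hq)]
  exact a3 _

/-- The sphere minus an open coordinate rectangle. Plan: `acyc_inter` for closed `X`, `Y` with
`Xᶜ`, `Yᶜ`, `(X ∩ Y)ᶜ` acyclic gives `(X ∪ Y)ᶜ` acyclic; the lune meets each triangle in two arcs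
with a pole in common. -/
theorem Sph.disc {J : ℝ × ℝ → E} (h : Sph J) {a b v w : ℝ} (hab : a < b) (hb : b < a + 1)
    (hv : -1 < v) (hvw : v < w) (hw : w < 2) (n : ℕ) :
    Acyc (cn J (Icc b (a + 1) ×ˢ Icc (-1) 2 ∪ Icc a b ×ˢ Icc (-1) v ∪ Icc a b ×ˢ Icc w 2))ᶜ n := by
  have cp : ∀ a b v w : ℝ, IsCompact (Icc a b ×ˢ Icc v w) := fun _ _ _ _ =>
    isCompact_Icc.prod isCompact_Icc
  have nk : ∀ k : ℤ, a ≠ b + k := fun k e => by
    have h1 : ((-1 : ℤ) : ℝ) < k := by push_cast; linarith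
    have h2 : (k : ℝ) < (0 : ℤ) := by push_cast; linarith
    have h3 : (-1 : ℤ) < k := by exact_mod_cast h1
    have h4 : k < 0 := by exact_mod_cast h2
    omega
  have la : a < a + 1 := lt_add_one a
  have lb : b < b + 1 := lt_add_one b
  -- two meridian arcs with a pole in common
  have arc : ∀ c v w : ℝ, -1 ≤ v → v ≤ w → w ≤ 2 → c ∈ Icc v w → (∀ x y, J (x, c) = J (y, c)) →
      (∀ y ∈ Icc v w, y = -1 ∨ y = 2 → y = c) → ∀ m,
      Acyc (cn J (Icc a a ×ˢ Icc v w ∪ Icc b b ×ˢ Icc v w))ᶜ m := by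
    intro c v w h1 h2 h3 hc hJ hp
    refine h.un (Y := Icc a a ×ˢ Icc c c) (cp _ _ _ _) (cp _ _ _ _)
      (fun p hp => ⟨h1.trans hp.2.1, hp.2.2.trans h3⟩)
      (fun p hp => ⟨h1.trans hp.2.1, hp.2.2.trans h3⟩) ⟨(a, c), by simp⟩ ?_ ?_ ?_
      (h.rect le_rfl la h1 h2 h3) (h.rect le_rfl lb h1 h2 h3)
      (h.rect le_rfl la (h1.trans hc.1) le_rfl (hc.2.trans h3))
    · rintro ⟨x, y⟩ hy
      obtain ⟨rfl, rfl⟩ : x = a ∧ y = c := by simpa using hy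
      exact ⟨_, ⟨by simp, hc⟩, rfl⟩
    · rintro ⟨x, y⟩ hy
      obtain ⟨rfl, rfl⟩ : x = a ∧ y = c := by simpa using hy
      exact ⟨(b, y), ⟨by simp, hc⟩, hJ _ _⟩
    · rintro ⟨x, y⟩ hx ⟨x', y'⟩ hx' - hk
      obtain rfl : x = a := by simpa using hx.1
      obtain rfl : x' = b := by simpa using hx'.1
      rw [← or_assoc] at hk
      obtain rfl := hp y hx.2 (hk.resolve_right fun ⟨k, e⟩ => nk k e)
      exact ⟨(x, y), by simp, rfl⟩
  -- the arcs lie in the lune, and a triangle meets the lune only there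
  have s1 : ∀ v w : ℝ, -1 ≤ v → w ≤ 2 → ∀ y ∈ Icc a a ×ˢ Icc v w ∪ Icc b b ×ˢ Icc v w,
      ∃ p ∈ Icc b (a + 1) ×ˢ Icc (-1 : ℝ) 2, J y = J p := by
    rintro v w h1 h2 ⟨x, y⟩ (hy | hy)
    · obtain rfl : x = a := by simpa using hy.1
      exact ⟨(x + 1, y), ⟨⟨hb.le, le_rfl⟩, h1.trans hy.2.1, hy.2.2.trans h2⟩, (h.per _ _).symm⟩
    · obtain rfl : x = b := by simpa using hy.1
      exact ⟨(x, y), ⟨⟨le_rfl, hb.le⟩, h1.trans hy.2.1, hy.2.2.trans h2⟩, rfl⟩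
  have s2 : ∀ v w : ℝ, ∀ y ∈ Icc a a ×ˢ Icc v w ∪ Icc b b ×ˢ Icc v w,
      ∃ p ∈ Icc a b ×ˢ Icc v w, J y = J p := by
    rintro v w y (hy | hy)
    · exact ⟨y, ⟨⟨hy.1.1, hy.1.2.trans hab.le⟩, hy.2⟩, rfl⟩
    · exact ⟨y, ⟨⟨hab.le.trans hy.1.1, hy.1.2⟩, hy.2⟩, rfl⟩
  have s3 : ∀ v w : ℝ, ∀ p ∈ Icc b (a + 1) ×ˢ Icc (-1 : ℝ) 2, ∀ q ∈ Icc a b ×ˢ Icc v w,
      p.2 = q.2 → (p.2 = -1 ∨ p.2 = 2 ∨ ∃ k : ℤ, p.1 = q.1 + k) →
      ∃ y ∈ Icc a a ×ˢ Icc v w ∪ Icc b b ×ˢ Icc v w, J p = J y := by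
    rintro v w ⟨x, y⟩ hp ⟨x', y'⟩ hq (rfl : y = y') hk
    have ma : (a, y) ∈ Icc a a ×ˢ Icc v w ∪ Icc b b ×ˢ Icc v w := Or.inl ⟨by simp, hq.2⟩
    rcases hk with (rfl : y = -1) | (rfl : y = 2) | ⟨k, (e : x = x' + k)⟩
    · exact ⟨_, ma, h.south _ _⟩
    · exact ⟨_, ma, h.north _ _⟩
    · have h1 : b ≤ x := hp.1.1
      have h2 : x ≤ a + 1 := hp.1.2
      have h3 : a ≤ x' := hq.1.1
      have h4 : x' ≤ b := hq.1.2
      rcases le_or_gt k 0 with hk | hk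
      · have : (k : ℝ) ≤ 0 := by exact_mod_cast hk
        exact ⟨(b, y), Or.inr ⟨by simp, hq.2⟩, by rw [show x = b by linarith]⟩
      · have : (1 : ℝ) ≤ k := by exact_mod_cast hk
        exact ⟨_, ma, by rw [show x = a + 1 by linarith, h.per]⟩
  have hv2 : v ≤ 2 := by linarith
  have hw1 : -1 ≤ w := by linarith
  refine h.un (Y := Icc a a ×ˢ Icc w 2 ∪ Icc b b ×ˢ Icc w 2) ((cp _ _ _ _).union (cp _ _ _ _))
    (cp _ _ _ _) ?_ (fun p hp => ⟨hw1.trans hp.2.1, hp.2.2⟩)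
    ⟨(a, 2), Or.inl ⟨by simp, hw.le, le_rfl⟩⟩
    (fun y hy => (s1 w 2 hw1 le_rfl y hy).imp fun p hp => ⟨Or.inl hp.1, hp.2⟩) (s2 w 2) ?_ ?_
    (h.rect hab.le hb hw1 hw.le le_rfl) (arc 2 w 2 hw1 hw.le le_rfl ⟨hw.le, le_rfl⟩ h.north
      fun y hy e => e.resolve_left fun e => by linarith [hy.1]) n
  · rintro p (hp | hp)
    · exact hp.2
    · exact ⟨hp.2.1, hp.2.2.trans hv2⟩
  · rintro p (hp | hp) q hq e hk
    · exact s3 w 2 p hp q hq e hk
    · linarith [hp.2.2, hq.2.1]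
  · exact h.un (Y := Icc a a ×ˢ Icc (-1) v ∪ Icc b b ×ˢ Icc (-1) v) (cp _ _ _ _) (cp _ _ _ _)
      (fun p hp => hp.2) (fun p hp => ⟨hp.2.1, hp.2.2.trans hv2⟩)
      ⟨(a, -1), Or.inl ⟨by simp, le_rfl, hv.le⟩⟩ (s1 (-1) v le_rfl hv2) (s2 (-1) v) (s3 (-1) v)
      (h.rect hb.le (by linarith) le_rfl (by norm_num) le_rfl) (h.rect hab.le hb le_rfl hv.le hv2)
      (arc (-1) (-1) v le_rfl hv.le hv2 ⟨le_rfl, hv.le⟩ h.south
        fun y hy e => e.resolve_right fun e => by linarith [hy.2])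

end Pool.Agent.MP_b8a826_gt

end

-- part MP_b8a826_gt.AlexJ
section

/-! The extended annulus as a sphere of rays, and acyclic complements of large discs in it. -/

namespace Pool.Agent.MP_b8a826_gt
open Set unitInterval

/-- The point of the annulus with longitude `p.1` and clamped height `p.2`. -/
noncomputable def AJ (A : Circle × I → S3 × I) (p : ℝ × ℝ) : S3 × I :=
  A (Circle.exp (2 * Real.pi * p.1), projIcc 0 1 zero_le_one p.2)

/-- Homogeneous coordinates `a / b` of the radius. -/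
noncomputable def Ja (A : Circle × I → S3 × I) (p : ℝ × ℝ) : ℝ := 1 + min p.2 0 + (AJ A p).2

noncomputable def Jb (p : ℝ × ℝ) : ℝ := 2 - max p.2 1

/-- The ray of the point `(a / b) • y` under `x ↦ (2 x, ‖x‖² - 1)`. -/
noncomputable def JJ (A : Circle × I → S3 × I) (p : ℝ × ℝ) : E4 × ℝ :=
  ((2 * Ja A p * Jb p) • (AJ A p).1.1, Ja A p ^ 2 - Jb p ^ 2)

section
variable {A : C(Circle × I, S3 × I)}

theorem AlexJ_cont : Continuous (AJ A) :=
  A.continuous.comp ((Circle.exp.continuous.comp (by fun_prop)).prodMk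
    (continuous_projIcc.comp continuous_snd))

theorem AlexJ_ca : Continuous (Ja A) :=
  (continuous_const.add (continuous_snd.min continuous_const)).add
    (continuous_subtype_val.comp AlexJ_cont.snd)

theorem AlexJ_cb : Continuous Jb := continuous_const.sub (continuous_snd.max continuous_const)

theorem AlexJ_lo (hA : Conc A) {p : ℝ × ℝ} (h : p.2 ≤ 0) : (AJ A p).2 = 0 :=
  (hA.p0 _ _).2 (projIcc_of_le_left _ h)

theorem AlexJ_hi (hA : Conc A) {p : ℝ × ℝ} (h : 1 ≤ p.2) : (AJ A p).2 = 1 :=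
  (hA.p1 _ _).2 (projIcc_of_right_le _ h)

theorem AlexJ_a0 {p : ℝ × ℝ} (h : -1 ≤ p.2) : 0 ≤ Ja A p := by
  have := (AJ A p).2.2.1
  have : -1 ≤ min p.2 0 := le_min h (by norm_num)
  unfold Ja; linarith

theorem AlexJ_a1 {p : ℝ × ℝ} (h : -1 < p.2) : 0 < Ja A p := by
  have := (AJ A p).2.2.1
  have : -1 < min p.2 0 := lt_min h (by norm_num)
  unfold Ja; linarith

theorem AlexJ_b0 {p : ℝ × ℝ} (h : p.2 ≤ 2) : 0 ≤ Jb p := by
  have : max p.2 1 ≤ 2 := max_le h (by norm_num)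
  unfold Jb; linarith

theorem AlexJ_b1 {p : ℝ × ℝ} (h : p.2 < 2) : 0 < Jb p := by
  have : max p.2 1 < 2 := max_lt h (by norm_num)
  unfold Jb; linarith

theorem AlexJ_south (hA : Conc A) (a : ℝ) : Ja A (a, -1) = 0 ∧ JJ A (a, -1) = (0, -1) := by
  have : Ja A (a, -1) = 0 := by
    rw [Ja, AlexJ_lo hA (by norm_num)]; norm_num
  refine ⟨this, ?_⟩
  rw [JJ, this]; norm_num [Jb]

theorem AlexJ_north (hA : Conc A) (a : ℝ) : Jb (a, 2) = 0 ∧ JJ A (a, 2) = (0, 4) := by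
  have : Jb (a, 2) = 0 := by norm_num [Jb]
  refine ⟨this, ?_⟩
  rw [JJ, this, Ja, AlexJ_hi hA (by norm_num)]; norm_num

theorem AlexJ_lev (hA : Conc A) {p : ℝ × ℝ} (h : p.2 < 2) :
    projIcc 0 1 zero_le_one (Ja A p / Jb p - 1) = (AJ A p).2 := by
  rcases le_total p.2 0 with h0 | h0
  · rw [Ja, AlexJ_lo hA h0, Jb, min_eq_left h0, max_eq_right (by linarith)]
    exact projIcc_of_le_left _ (by norm_num; exact h0)
  rcases le_total p.2 1 with h1 | h1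
  · rw [Ja, Jb, min_eq_right h0, max_eq_right h1]
    norm_num
  · rw [Ja, AlexJ_hi hA h1, Jb, min_eq_right h0, max_eq_left h1]
    refine projIcc_of_right_le _ ?_
    rw [le_sub_iff_add_le, le_div_iff₀ (by linarith)]
    norm_num; linarith

theorem AlexJ_per (a v : ℝ) (k : ℤ) : AJ A (a + k, v) = AJ A (a, v) := by
  simp only [AJ]
  rw [(Circle.exp_eq_exp (x := 2 * Real.pi * (a + k)) (y := 2 * Real.pi * a)).2 ⟨k, by ring⟩]

theorem AlexJ_sq {a b c d t : ℝ} (ht : 0 < t) (h1 : 2 * a * b = t * (2 * c * d))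
    (h2 : a ^ 2 - b ^ 2 = t * (c ^ 2 - d ^ 2)) : a ^ 2 = t * c ^ 2 ∧ b ^ 2 = t * d ^ 2 := by
  have h3 : (a ^ 2 + b ^ 2) ^ 2 = (t * (c ^ 2 + d ^ 2)) ^ 2 := by
    have e1 : (a ^ 2 + b ^ 2) ^ 2 = (2 * a * b) ^ 2 + (a ^ 2 - b ^ 2) ^ 2 := by ring
    rw [e1, h1, h2]; ring
  have h4 := (pow_left_inj₀ (by positivity) (by positivity) two_ne_zero).1 h3
  constructor <;> linarith

theorem AlexJ_height (hA : Conc A) {p q : ℝ × ℝ} (e : AJ A p = AJ A q)
    (h : Ja A p * Jb q = Ja A q * Jb p) : p.2 = q.2 := by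
  have c : max 0 (min 1 p.2) = max 0 (min 1 q.2) :=
    congrArg Subtype.val (congrArg Prod.snd (hA.inj e))
  have lo := AlexJ_lo hA (p := q)
  have hi := AlexJ_hi hA (p := q)
  simp only [Ja, Jb, e] at h
  rcases le_total q.2 0 with h0 | h0
  · rw [lo h0] at h
    simp only [max_def, min_def, Icc.coe_zero] at h c
    split_ifs at h c <;> linarith
  rcases le_total 1 q.2 with h1 | h1
  · rw [hi h1] at h
    simp only [max_def, min_def, Icc.coe_one] at h c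
    split_ifs at h c <;> linarith
  rcases h0.eq_or_lt with h0 | h0
  · rw [lo h0.ge] at h
    simp only [max_def, min_def, Icc.coe_zero] at h c
    split_ifs at h c <;> linarith
  rcases h1.eq_or_lt with h1 | h1
  · rw [hi h1.ge] at h
    simp only [max_def, min_def, Icc.coe_one] at h c
    split_ifs at h c <;> linarith
  simp only [max_def, min_def] at c
  split_ifs at c <;> linarith

end

/-- Plan for `inj`: with `N (y, h) = √(‖y‖² + h²)` one has `N (JJ p) = a² + b²`, so `a p ² = t a q ²`,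
`b p ² = t b q ²`; if `a b ≠ 0` the radius `a / b` and the direction agree, and
`projIcc (a / b - 1)` is the level of `AJ A p`; use `hA.inj`, `hA.p0`, `hA.p1`. -/
theorem sph_JJ {A : C(Circle × I, S3 × I)} (hA : Conc A) : Sph (JJ A) := by
  refine ⟨?_, fun p hp e => ?_, fun a v => ?_, fun a b => ?_, fun a b => ?_,
    fun p q t hp hq ht e => ?_⟩
  · exact (((continuous_const.mul AlexJ_ca).mul AlexJ_cb).smul
      (continuous_subtype_val.comp AlexJ_cont.fst)).prodMk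
      ((AlexJ_ca.pow 2).sub (AlexJ_cb.pow 2))
  · obtain ⟨e1, e2⟩ := Prod.mk.inj e
    have e3 := congrArg norm e1
    rw [norm_smul, norm_eq_of_mem_sphere, mul_one, norm_zero, norm_eq_zero] at e3
    have e4 := AlexJ_sq (c := 0) (d := 0) one_pos (by rw [e3]; ring) (by rw [e2]; simp)
    rcases lt_or_ge p.2 2 with h | h
    · have := AlexJ_b1 h
      nlinarith [e4.2]
    · have := AlexJ_a1 (A := A) (p := p) (by linarith)
      nlinarith [e4.1]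
  · have := AlexJ_per (A := A) a v 1
    rw [Int.cast_one] at this
    simp only [JJ, Ja, Jb, this]
  · rw [(AlexJ_south hA a).2, (AlexJ_south hA b).2]
  · rw [(AlexJ_north hA a).2, (AlexJ_north hA b).2]
  have e1 : (2 * Ja A p * Jb p) • (AJ A p).1.1 = t • (2 * Ja A q * Jb q) • (AJ A q).1.1 :=
    congrArg Prod.fst e
  have e2 : Ja A p ^ 2 - Jb p ^ 2 = t * (Ja A q ^ 2 - Jb q ^ 2) := congrArg Prod.snd e
  have a0 := AlexJ_a0 (A := A) hp.1
  have b0 := AlexJ_b0 hp.2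
  have c0 := AlexJ_a0 (A := A) hq.1
  have d0 := AlexJ_b0 hq.2
  have e3 := congrArg norm e1
  rw [smul_smul, norm_smul, norm_smul, norm_eq_of_mem_sphere, norm_eq_of_mem_sphere, mul_one,
    mul_one, Real.norm_of_nonneg (by positivity), Real.norm_of_nonneg (by positivity)] at e3
  obtain ⟨f1, f2⟩ := AlexJ_sq ht e3 e2
  rcases hp.1.eq_or_lt with s1 | s1
  · refine ⟨?_, Or.inl s1.symm⟩
    by_contra hne
    have := AlexJ_a1 (A := A) (lt_of_le_of_ne hq.1 fun h => hne (s1.symm.trans h))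
    have e5 : Ja A p = 0 := by
      rw [show p = (p.1, -1) from Prod.ext rfl s1.symm]; exact (AlexJ_south hA _).1
    rw [e5] at f1
    nlinarith [mul_pos ht (pow_pos this 2)]
  rcases hp.2.eq_or_lt with s2 | s2
  · refine ⟨?_, Or.inr (Or.inl s2)⟩
    by_contra hne
    have := AlexJ_b1 (lt_of_le_of_ne hq.2 fun h => hne (s2.trans h.symm))
    have e5 : Jb p = 0 := by
      rw [show p = (p.1, 2) from Prod.ext rfl s2]; exact (AlexJ_north hA _).1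
    rw [e5] at f2
    nlinarith [mul_pos ht (pow_pos this 2)]
  have a1 := AlexJ_a1 (A := A) s1
  have b1 := AlexJ_b1 s2
  have d1 : 0 < Jb q := lt_of_le_of_ne d0 fun h => by
    rw [← h] at f2; nlinarith [pow_pos b1 2]
  have s3 : q.2 < 2 := lt_of_le_of_ne hq.2 fun h => d1.ne' (by
    rw [show q = (q.1, 2) from Prod.ext rfl h]; exact (AlexJ_north hA _).1)
  have g1 : Ja A p * Jb q = Ja A q * Jb p := by
    refine (pow_left_inj₀ (by positivity) (by positivity) two_ne_zero).1 ?_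
    rw [mul_pow, mul_pow, f1, f2]; ring
  have g2 : AJ A p = AJ A q := by
    refine Prod.ext (Subtype.ext ?_) ?_
    · rw [smul_smul, ← e3] at e1
      exact smul_right_injective _ (by positivity) e1
    · rw [← AlexJ_lev hA s2, ← AlexJ_lev hA s3, (div_eq_div_iff b1.ne' d1.ne').2 g1]
  refine ⟨AlexJ_height hA g2 g1, Or.inr (Or.inr ?_)⟩
  obtain ⟨k, hk⟩ := Circle.exp_eq_exp.1 (congrArg Prod.fst (hA.inj g2))
  refine ⟨k, mul_left_cancel₀ (by positivity : 2 * Real.pi ≠ 0) ?_⟩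
  rw [hk]; ring

/-- Stereographic transfer. Plan: `acyc_dom` with `f x = (2 • x, ‖x‖² - 1)`,
`g (y, h) = (√(‖y‖² + h²) - h)⁻¹ • y`, `g (f x) = x`, `f (g p)` a positive multiple of `p`. -/
theorem acyc_stereo {Z : Set (E4 × ℝ)} (hZ : IsClosed Z) (hc : ∀ p ∈ Z, ∀ t : ℝ, 0 ≤ t → t • p ∈ Z)
    (hN : ((0 : E4), (1 : ℝ)) ∈ Z) {n : ℕ} (h : Acyc Zᶜ n) :
    Acyc {x : E4 | ((2 : ℝ) • x, ‖x‖ ^ 2 - 1) ∉ Z} n := by
  have cF : Continuous fun x : E4 => (((2 : ℝ) • x, ‖x‖ ^ 2 - 1) : E4 × ℝ) := by fun_prop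
  have hd : ∀ p ∈ Zᶜ, 0 < √(‖p.1‖ ^ 2 + p.2 ^ 2) - p.2 := by
    intro p hp
    by_contra hc'
    have h1 : √(‖p.1‖ ^ 2 + p.2 ^ 2) ≤ p.2 := by linarith
    obtain ⟨h2, h3⟩ := Real.sqrt_le_iff.1 h1
    have h4 : p.1 = 0 := norm_eq_zero.1 (by nlinarith [norm_nonneg p.1])
    refine hp ?_
    convert hc _ hN p.2 h2
    exact Prod.ext (by simpa using h4) (by simp)
  refine acyc_dom (hZ.isOpen_compl.preimage cF) hZ.isOpen_compl cF.continuousOn (fun _ hx => hx)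
    (g := fun p => (√(‖p.1‖ ^ 2 + p.2 ^ 2) - p.2)⁻¹ • p.1)
    (ContinuousOn.smul (ContinuousOn.inv₀ (by fun_prop) fun p hp => (hd p hp).ne')
      continuous_fst.continuousOn) (fun p hp hq => hp ?_) (H := Prod.snd)
    continuous_snd.continuousOn (fun _ hx => hx.2) (fun x _ => ⟨rfl, ?_⟩) h
  · have h1 := hd p hp
    have h2 := Real.sq_sqrt (show 0 ≤ ‖p.1‖ ^ 2 + p.2 ^ 2 by positivity)
    beta_reduce at hq
    generalize √(‖p.1‖ ^ 2 + p.2 ^ 2) = M at *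
    convert hc _ hq ((M - p.2) / 2) (by positivity)
    refine Prod.ext ?_ ?_
    · simp only [Prod.smul_fst, smul_smul]
      rw [show (M - p.2) / 2 * (2 * (M - p.2)⁻¹) = 1 by field_simp, one_smul]
    · simp only [Prod.smul_snd, smul_eq_mul, norm_smul, mul_pow, Real.norm_eq_abs, sq_abs]
      field_simp
      linear_combination h2
  · have : √(‖(2 : ℝ) • x‖ ^ 2 + (‖x‖ ^ 2 - 1) ^ 2) = ‖x‖ ^ 2 + 1 := by
      rw [Real.sqrt_eq_iff_mul_self_eq (by positivity) (by positivity), norm_smul]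
      norm_num; ring
    simp only [this, smul_smul]
    rw [show (‖x‖ ^ 2 + 1 - (‖x‖ ^ 2 - 1))⁻¹ * 2 = 1 by ring, one_smul]

/-- The point of the extended annulus with parameter `p`. -/
noncomputable def AlexJ_j (A : Circle × I → S3 × I) (p : ℝ × ℝ) : E4 :=
  (Ja A p / Jb p) • (AJ A p).1.1

section
variable {A : C(Circle × I, S3 × I)}

theorem AlexJ_F {p : ℝ × ℝ} (h : p.2 < 2) :
    JJ A p = Jb p ^ 2 • (((2 : ℝ) • AlexJ_j A p, ‖AlexJ_j A p‖ ^ 2 - 1) : E4 × ℝ) := by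
  have b1 := (AlexJ_b1 h).ne'
  refine Prod.ext ?_ ?_
  · simp only [JJ, AlexJ_j, Prod.smul_fst, smul_smul]
    congr 1; field_simp
  · simp only [JJ, AlexJ_j, Prod.smul_snd, smul_eq_mul, norm_smul, norm_eq_of_mem_sphere, mul_one,
      Real.norm_eq_abs, sq_abs]
    field_simp

theorem AlexJ_ray {x y : E4} {s : ℝ} (hs : 0 ≤ s)
    (e : (((2 : ℝ) • x, ‖x‖ ^ 2 - 1) : E4 × ℝ) = s • ((2 : ℝ) • y, ‖y‖ ^ 2 - 1)) : x = y := by
  obtain ⟨e1, e2⟩ := Prod.mk.inj e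
  rw [smul_comm] at e1
  have e3 : x = s • y := smul_right_injective _ two_ne_zero e1
  rw [e3, norm_smul, mul_pow, Real.norm_eq_abs, sq_abs, smul_eq_mul] at e2
  have e4 : (s - 1) * (s * ‖y‖ ^ 2 + 1) = 0 := by linear_combination e2
  have e5 : s = 1 := by
    rcases mul_eq_zero.1 e4 with h | h
    · linarith
    · nlinarith [mul_nonneg hs (sq_nonneg ‖y‖)]
  rw [e3, e5, one_smul]

theorem AlexJ_notMem (hA : Conc A) {p : ℝ × ℝ} (h1 : -1 ≤ p.2) (h2 : p.2 < 2) :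
    AlexJ_j A p ∉ WA A := by
  rcases (AlexJ_a0 (A := A) h1).eq_or_lt with h | h
  · rw [AlexJ_j, ← h, zero_div, zero_smul]; exact zero_notMem_WA
  · rw [AlexJ_j, mem_WA _ (div_pos h (AlexJ_b1 h2)), AlexJ_lev hA h2, not_not]
    exact ⟨_, rfl⟩

theorem AlexJ_surj (hA : Conc A) {x : E4} (hx : x ∉ WA A) (h0 : x ≠ 0) :
    ∃ p : ℝ × ℝ, -1 < p.2 ∧ p.2 < 2 ∧ AlexJ_j A p = x := by
  have r0 := norm_pos_iff.2 h0
  rw [← Ends_dir_smul h0, mem_WA _ r0, not_not] at hx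
  obtain ⟨⟨θ, u⟩, e⟩ := hx
  obtain ⟨a, rfl⟩ : ∃ a, Circle.exp (2 * Real.pi * a) = θ :=
    ⟨Complex.arg θ / (2 * Real.pi), by rw [mul_div_cancel₀ _ (by positivity), Circle.exp_arg]⟩
  suffices ∃ v : ℝ, -1 < v ∧ v < 2 ∧ projIcc 0 1 zero_le_one v = u ∧
      (1 + min v 0 + projIcc 0 1 zero_le_one (‖x‖ - 1)) / (2 - max v 1) = ‖x‖ by
    obtain ⟨v, v1, v2, v3, v4⟩ := this
    have e1 : AJ A (a, v) = (Ends_dir x, projIcc 0 1 zero_le_one (‖x‖ - 1)) := by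
      rw [AJ, v3, e]
    refine ⟨(a, v), v1, v2, ?_⟩
    rw [AlexJ_j, Ja, Jb, e1, v4, Ends_dir_smul h0]
  rcases le_total ‖x‖ 1 with h1 | h1
  · have l : projIcc 0 1 zero_le_one (‖x‖ - 1) = 0 := projIcc_of_le_left _ (by linarith)
    obtain rfl : u = 0 := (hA.p0 _ u).1 (by rw [e]; exact l)
    refine ⟨‖x‖ - 1, by linarith, by linarith, l, ?_⟩
    rw [l, min_eq_left (by linarith), max_eq_right (by linarith)]; norm_num
  rcases le_total 2 ‖x‖ with h2 | h2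
  · have l : projIcc 0 1 zero_le_one (‖x‖ - 1) = 1 := projIcc_of_right_le _ (by linarith)
    obtain rfl : u = 1 := (hA.p1 _ u).1 (by rw [e]; exact l)
    have h3 : 2 / ‖x‖ ≤ 1 := (div_le_one r0).2 h2
    have h4 : 0 < 2 / ‖x‖ := by positivity
    refine ⟨2 - 2 / ‖x‖, by linarith, by linarith, projIcc_of_right_le _ (by linarith), ?_⟩
    rw [l, min_eq_right (by linarith), max_eq_left (by linarith)]
    norm_num
  · refine ⟨u, by linarith [u.2.1], by linarith [u.2.2], projIcc_val _ u, ?_⟩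
    rw [projIcc_of_mem _ ⟨by linarith, by linarith⟩, min_eq_right u.2.1, max_eq_right u.2.2]
    norm_num

end

/-- Plan: `j p = (Ja A p / Jb p) • (AJ A p).1` parametrises `(WA A)ᶜ` by `p.2 ∈ [-1, 2)`; `x = j p₀` with
`-1 < p₀.2 < 2`; choose a small rectangle `(a,b) × (v,w)` about `p₀` mapped into `N` and let `D` be the set
of `x` with `(2 x, ‖x‖² - 1)` in the cone of `Sph.disc`. -/
theorem alex_disc {A : C(Circle × I, S3 × I)} (hA : Conc A) {x : E4} (hx : x ∉ WA A) (h0 : x ≠ 0)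
    {N : Set E4} (hN : IsOpen N) (hxN : x ∈ N) :
    ∃ D : Set E4, IsClosed D ∧ D ⊆ (WA A)ᶜ ∧ (WA A)ᶜ \ D ⊆ N ∧ x ∉ D ∧ ∀ n, Acyc Dᶜ n := by
  obtain ⟨⟨a, v⟩, v1, v2, rfl⟩ := AlexJ_surj hA hx h0
  have hS := sph_JJ hA
  have cj : ContinuousAt (AlexJ_j A) (a, v) :=
    (AlexJ_ca.continuousAt.div AlexJ_cb.continuousAt (AlexJ_b1 v2).ne').smul
      (continuous_subtype_val.comp AlexJ_cont.fst).continuousAt
  obtain ⟨ε, hε, hb⟩ := Metric.mem_nhds_iff.1 (cj (hN.mem_nhds hxN))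
  obtain ⟨δ, d0, d1, d2, d3, d4⟩ : ∃ δ : ℝ, 0 < δ ∧ δ < ε ∧ δ < 1 / 2 ∧ δ < v + 1 ∧ δ < 2 - v := by
    obtain ⟨δ, d0, d1⟩ := exists_between
      (show 0 < min (min ε (1 / 2)) (min (v + 1) (2 - v)) by
        simp only [lt_min_iff] at *; refine ⟨⟨hε, ?_⟩, ?_, ?_⟩ <;> linarith)
    simp only [lt_min_iff] at d1
    exact ⟨δ, d0, d1.1.1, d1.1.2, d1.2.1, d1.2.2⟩
  set S : Set (ℝ × ℝ) := Icc (a + δ) (a - δ + 1) ×ˢ Icc (-1) 2 ∪
    Icc (a - δ) (a + δ) ×ˢ Icc (-1) (v - δ) ∪ Icc (a - δ) (a + δ) ×ˢ Icc (v + δ) 2 with hSd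
  have S2 : ∀ p ∈ S, p.2 ∈ Icc (-1 : ℝ) 2 := by
    rintro p ((h | h) | h)
    · exact h.2
    · exact ⟨h.2.1, by linarith [h.2.2]⟩
    · exact ⟨by linarith [h.2.1], h.2.2⟩
  have cZ : IsClosed (cn (JJ A) S) := hS.closed
    (((isCompact_Icc.prod isCompact_Icc).union (isCompact_Icc.prod isCompact_Icc)).union
      (isCompact_Icc.prod isCompact_Icc)) S2
  have m1 : ∀ w ∈ Icc (-1 : ℝ) 2, (a + δ, w) ∈ S := fun w hw =>
    Or.inl (Or.inl ⟨⟨le_rfl, by linarith⟩, hw⟩)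
  refine ⟨{x | (((2 : ℝ) • x, ‖x‖ ^ 2 - 1) : E4 × ℝ) ∈ cn (JJ A) S}, cZ.preimage (by fun_prop),
    ?_, ?_, ?_, fun n => ?_⟩
  · rintro y ⟨t, ht, p, hp, e⟩
    rcases (S2 p hp).2.eq_or_lt with h | h
    · rw [show p = (p.1, 2) from Prod.ext rfl h, (AlexJ_north hA _).2] at e
      obtain ⟨e1, -⟩ := Prod.mk.inj e
      obtain rfl : y = 0 := by simpa using e1
      exact zero_notMem_WA
    · rw [AlexJ_F h, smul_smul] at e
      rw [AlexJ_ray (by positivity) e]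
      exact AlexJ_notMem hA (S2 p hp).1 h
  · rintro y ⟨y1, y2⟩
    have y0 : y ≠ 0 := by
      rintro rfl
      exact y2 ⟨1, zero_le_one, _, m1 (-1) ⟨le_rfl, by norm_num⟩, by
        rw [(AlexJ_south hA _).2]; simp⟩
    obtain ⟨⟨b, w⟩, w1, w2, rfl⟩ := AlexJ_surj hA y1 y0
    obtain ⟨c, c1, c2, e⟩ : ∃ c, a - δ ≤ c ∧ c < a - δ + 1 ∧
        AlexJ_j A (b, w) = AlexJ_j A (c, w) := by
      refine ⟨b + (-⌊b - (a - δ)⌋ : ℤ), ?_, ?_, ?_⟩
      · push_cast; linarith [Int.floor_le (b - (a - δ))]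
      · push_cast; linarith [Int.lt_floor_add_one (b - (a - δ))]
      · simp only [AlexJ_j, Ja, Jb, AlexJ_per]
    rw [e] at y2 ⊢
    have nS : (c, w) ∉ S := fun h => y2 ⟨(Jb (c, w) ^ 2)⁻¹, by positivity, _, h, by
      rw [AlexJ_F (p := (c, w)) w2, smul_smul,
        inv_mul_cancel₀ (pow_pos (AlexJ_b1 (p := (c, w)) w2) 2).ne', one_smul]⟩
    have c3 : c < a + δ := not_le.1 fun h => nS (Or.inl (Or.inl ⟨⟨h, c2.le⟩, w1.le, w2.le⟩))
    have w3 : v - δ < w := not_le.1 fun h => nS (Or.inl (Or.inr ⟨⟨c1, c3.le⟩, w1.le, h⟩))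
    have w4 : w < v + δ := not_le.1 fun h => nS (Or.inr ⟨⟨c1, c3.le⟩, h, w2.le⟩)
    refine hb ?_
    rw [Metric.mem_ball, Prod.dist_eq, max_lt_iff, Real.dist_eq, Real.dist_eq, abs_lt, abs_lt]
    refine ⟨⟨?_, ?_⟩, ?_, ?_⟩ <;> linarith
  · rintro ⟨t, ht, q, hq, e⟩
    have e1 : JJ A (a, v) = (Jb (a, v) ^ 2 * t) • JJ A q := by
      rw [AlexJ_F (p := (a, v)) v2, e, smul_smul]
    have t0 : 0 < Jb (a, v) ^ 2 * t := by
      refine lt_of_le_of_ne (by positivity) fun h => hS.ne (a, v) ⟨v1.le, v2.le⟩ ?_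
      rw [e1, ← h, zero_smul]
    obtain ⟨f1, f2⟩ := hS.inj _ _ _ ⟨v1.le, v2.le⟩ (S2 q hq) t0 e1
    have f3 : v = q.2 := f1
    rcases hq with (h | h) | h
    · obtain ⟨k, hk⟩ := (f2.resolve_left v1.ne').resolve_left v2.ne
      have hk' : a = q.1 + k := hk
      have k1 : (k : ℝ) < 0 := by linarith [h.1.1]
      have k2 : (-1 : ℝ) < k := by linarith [h.1.2]
      have k3 : k < 0 := by exact_mod_cast k1
      have k4 : -1 < k := by exact_mod_cast k2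
      omega
    · linarith [h.2.2]
    · linarith [h.2.1]
  · refine acyc_stereo cZ ?_ ⟨1 / 4, by norm_num, _, m1 2 ⟨by norm_num, le_rfl⟩, ?_⟩
      (hS.disc (by linarith) (by linarith) (by linarith) (by linarith) (by linarith) n)
    · rintro _ ⟨t, ht, p, hp, rfl⟩ s hs
      exact ⟨s * t, mul_nonneg hs ht, p, hp, smul_smul _ _ _⟩
    · rw [(AlexJ_north hA _).2]; simp

end Pool.Agent.MP_b8a826_gt

end

-- part MP_b8a826_gt.AlexH
section

/-! First homology and integral cocycles. -/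

namespace Pool.Agent.MP_b8a826_gt
open Set

variable {E : Type} [NormedAddCommGroup E] [NormedSpace ℝ E] {U : Set E}

omit [NormedAddCommGroup E] [NormedSpace ℝ E] in
theorem AlexH_wt (τ : E → E → MZ) (x y : E × Unit) : wt τ (sg ℤ [x, y]) = (τ x.1 y.1).toAdd :=
  ev_sg _ _

theorem AlexH_ad2 (x y : E × Unit) : Ad φ1 (· ⊆ U) {v | v ∈ [x, y]} ↔ segment ℝ x.1 y.1 ⊆ U := by
  have e : Prod.fst '' {v | v ∈ [x, y]} = {x.1, y.1} := by
    rw [← image_pair]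
    congr 1
    ext v
    simp
  rw [Ad, e, convexHull_pair]
  exact ⟨And.left, fun h => ⟨h, fun _ _ _ _ => rfl⟩⟩

theorem AlexH_ad3 (x y z : E × Unit) :
    Ad φ1 (· ⊆ U) {v | v ∈ [x, y, z]} ↔ convexHull ℝ {x.1, y.1, z.1} ⊆ U := by
  have e : Prod.fst '' {v | v ∈ [x, y, z]} = {x.1, y.1, z.1} := by
    rw [← image_pair, ← image_insert_eq]
    congr 1
    ext v
    simp
  rw [Ad, e]
  exact ⟨And.left, fun h => ⟨h, fun _ _ _ _ => rfl⟩⟩

theorem AlexH_seg {x y z : E} (h : convexHull ℝ {x, y, z} ⊆ U) :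
    segment ℝ x y ⊆ U ∧ segment ℝ y z ⊆ U ∧ segment ℝ x z ⊆ U := by
  refine ⟨?_, ?_, ?_⟩ <;>
    exact ((convex_convexHull ℝ _).segment_subset (subset_convexHull ℝ _ (by simp))
      (subset_convexHull ℝ _ (by simp))).trans h

theorem AlexH_zero {P Q : Set E} (hd : Disjoint P Q) {a : Ch ℤ (E × Unit)} {n : ℕ}
    (h : a ∈ CB ℤ P (n + 1)) (h' : a ∈ CB ℤ Q (n + 1)) : a = 0 :=
  CB_empty (hd.inter_eq ▸ CB_inter h h')

theorem wt_bd {τ : E → E → MZ} (hτ : Coc U τ) {v : Ch ℤ (E × Unit)} (hv : v ∈ CB ℤ U 3) :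
    wt τ (bd v) = 0 := by
  refine C_map (wt τ ∘ₗ bd) ⊥ (fun l hl h => ?_) hv
  obtain ⟨x, y, z, rfl⟩ := List.length_eq_three.1 hl
  rw [LinearMap.comp_apply, bd3, map_add, map_sub, AlexH_wt, AlexH_wt, AlexH_wt,
    ← hτ _ _ _ ((AlexH_ad3 x y z).1 h), toAdd_mul, Submodule.mem_bot]
  ring

/-- Plan: if `U ⊆ u ∪ v` with disjoint traces, the sum of the coefficients of the points in `u` kills
boundaries of edges, but not `[x] - [y]`. -/
theorem preconn_of_acyc (h : Acyc U 1) : IsPreconnected U := by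
  classical
  rintro u v hu hv hU ⟨x, hx, hxu⟩ ⟨y, hy, hyv⟩
  by_contra hne
  obtain ⟨f, hf⟩ : ∃ f : Ch ℤ (E × Unit) →ₗ[ℤ] ℤ, ∀ a, f (sg ℤ [a]) = if a.1 ∈ u then 1 else 0 :=
    ⟨ev fun l => match l with
      | [a] => if a.1 ∈ u then 1 else 0
      | _ => 0, fun a => ev_sg _ _⟩
  have key : ∀ a b : E, segment ℝ a b ⊆ U → a ∈ u → b ∈ u := fun a b hs ha => by
    by_contra hb
    obtain ⟨w, h1, h2⟩ := (convex_segment a b).isPreconnected u v hu hv (hs.trans hU)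
      ⟨a, left_mem_segment ℝ a b, ha⟩
      ⟨b, right_mem_segment ℝ a b, (hU (hs (right_mem_segment ℝ a b))).resolve_left hb⟩
    exact hne ⟨w, hs h1, h2⟩
  obtain ⟨w, hw, e⟩ := h _ (sub_mem (pt_mem hx) (pt_mem hy)) (by rw [map_sub, bd1, bd1, sub_self])
  have h0 : f (bd w) = 0 := by
    refine C_map (f ∘ₗ bd) ⊥ (fun l hl h => ?_) hw
    obtain ⟨a, b, rfl⟩ := List.length_eq_two.1 hl
    have hs := (AlexH_ad2 a b).1 h
    have : b.1 ∈ u ↔ a.1 ∈ u := ⟨key _ _ (segment_symm ℝ a.1 b.1 ▸ hs), key _ _ hs⟩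
    rw [LinearMap.comp_apply, bd2, map_sub, hf, hf, Submodule.mem_bot]
    simp only [this, sub_self]
  rw [e, map_sub, hf, hf, if_pos hxu, if_neg fun hyu => hne ⟨y, hy, hyu, hyv⟩] at h0
  simp at h0

/-- One polygon represents an arc for all cocycles on all larger open sets. Plan: induction along
the interval; on a small ball use `Coc.triv` and `tr_arc`. -/
theorem exists_poly (hU : IsOpen U) {c : ℝ → E} (hc : Continuous c) {s t : ℝ} (hst : s ≤ t)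
    (hm : ∀ r ∈ Icc s t, c r ∈ U) : ∃ a ∈ CB ℤ U 2, bd a = sg ℤ [(c t, ())] - sg ℤ [(c s, ())] ∧
      ∀ (W : Set E) (τ : E → E → MZ), IsOpen W → U ⊆ W → (∀ r, c r ∈ W) → Coc W τ →
        wt τ a = (tr (pb c τ) univ s t).toAdd := by
  refine (isPreconnected_Icc (a := s) (b := t)).induction₂' (fun s t => ∃ a ∈ CB ℤ U 2,
    bd a = sg ℤ [(c t, ())] - sg ℤ [(c s, ())] ∧
      ∀ (W : Set E) (τ : E → E → MZ), IsOpen W → U ⊆ W → (∀ r, c r ∈ W) → Coc W τ →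
        wt τ a = (tr (pb c τ) univ s t).toAdd) (fun x hx => ?_) ?_ (left_mem_Icc.2 hst)
    (right_mem_Icc.2 hst)
  · obtain ⟨ε, h1, h2⟩ := Metric.isOpen_iff.1 hU _ (hm x hx)
    obtain ⟨δ, h3, h4⟩ := Metric.mem_nhds_iff.1
      (hc.continuousAt.preimage_mem_nhds (Metric.ball_mem_nhds (c x) h1))
    have key : ∀ a ∈ Metric.ball x δ, ∀ b ∈ Metric.ball x δ, ∃ e ∈ CB ℤ U 2,
        bd e = sg ℤ [(c b, ())] - sg ℤ [(c a, ())] ∧
        ∀ (W : Set E) (τ : E → E → MZ), IsOpen W → U ⊆ W → (∀ r, c r ∈ W) → Coc W τ →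
          wt τ e = (tr (pb c τ) univ a b).toAdd := by
      intro a ha b hb
      refine ⟨sg ℤ [(c a, ()), (c b, ())], sg_mem rfl ((AlexH_ad2 _ _).2
        (((convex_ball _ _).segment_subset (h4 ha) (h4 hb)).trans h2)), bd2 _ _,
        fun W τ hW hUW hcW hτ => ?_⟩
      rw [tr_arc (hτ.fl hW) ⟨hc, hcW⟩ (hτ.triv (convex_ball _ _) (h2.trans hUW) (h4 ha))
        fun r hr => h4 ((convex_ball x δ).ordConnected.uIcc_subset ha hb hr),
        hτ.self (hcW a), inv_one, one_mul, AlexH_wt]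
    filter_upwards [mem_nhdsWithin_of_mem_nhds (Metric.ball_mem_nhds x h3)] with y hy
    exact ⟨key x (Metric.mem_ball_self h3) y hy, key y hy x (Metric.mem_ball_self h3)⟩
  · rintro x y z - - - ⟨a, ha, a1, a2⟩ ⟨b, hb, b1, b2⟩
    refine ⟨a + b, add_mem ha hb, by rw [map_add, a1, b1]; abel, fun W τ h1 h2 h3 h4 => ?_⟩
    rw [map_add, a2 W τ h1 h2 h3 h4, b2 W τ h1 h2 h3 h4, ← toAdd_mul, tr_mul]

/-- Plan: `deg z` is the unique `k` with `z - k • m` a boundary, a linear map on cycles; choose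
`p x ∈ CB ℤ U 2` with boundary `[x] - [x₀]` and put `τ x y = ofAdd (deg (p x + [x, y] - p y))`. -/
theorem exists_tau (h1 : Acyc U 1) {m : Ch ℤ (E × Unit)} (hm : m ∈ CB ℤ U 2) (h0 : bd m = 0)
    (hg : ∀ z ∈ CB ℤ U 2, bd z = 0 → ∃ k : ℤ, ∃ v ∈ CB ℤ U 3, z = k • m + bd v)
    (hi : ∀ k : ℤ, (∃ v ∈ CB ℤ U 3, bd v = k • m) → k = 0) : ∃ τ, Coc U τ ∧ H1 U τ := by
  obtain rfl | ⟨x₀, hx₀⟩ := U.eq_empty_or_nonempty
  · exact absurd (hi 1 ⟨0, zero_mem _, by rw [CB_empty hm]; simp⟩) one_ne_zero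
  have hp : ∀ x, ∃ a, x ∈ U → a ∈ CB ℤ U 2 ∧ bd a = sg ℤ [(x, ())] - sg ℤ [(x₀, ())] := by
    intro x
    by_cases hx : x ∈ U
    · obtain ⟨a, ha⟩ := h1 _ (sub_mem (pt_mem hx) (pt_mem hx₀))
        (by rw [map_sub, bd1, bd1, sub_self])
      exact ⟨a, fun _ => ha⟩
    · exact ⟨0, fun h => absurd h hx⟩
  choose p hp using hp
  obtain ⟨D, hD⟩ : ∃ D : Ch ℤ (E × Unit) → ℤ → Prop,
      ∀ z k, D z k ↔ ∃ v ∈ CB ℤ U 3, z = k • m + bd v := ⟨_, fun _ _ => Iff.rfl⟩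
  have uq : ∀ z k k', D z k → D z k' → k = k' := fun z k k' h h' => by
    obtain ⟨v, hv, e⟩ := (hD _ _).1 h
    obtain ⟨v', hv', e'⟩ := (hD _ _).1 h'
    refine sub_eq_zero.1 (hi _ ⟨v' - v, sub_mem hv' hv, ?_⟩)
    rw [map_sub, sub_smul, sub_eq_sub_iff_add_eq_add, add_comm, ← e', e]
  have ad : ∀ z k z' k', D z k → D z' k' → D (z + z') (k + k') := fun z k z' k' h h' => by
    obtain ⟨v, hv, rfl⟩ := (hD _ _).1 h
    obtain ⟨v', hv', rfl⟩ := (hD _ _).1 h'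
    exact (hD _ _).2 ⟨v + v', add_mem hv hv', by rw [map_add, add_smul]; abel⟩
  have sm : ∀ (r : ℤ) z k, D z k → D (r • z) (r • k) := fun r z k h => by
    obtain ⟨v, hv, rfl⟩ := (hD _ _).1 h
    exact (hD _ _).2 ⟨r • v, Submodule.smul_mem _ r hv, by rw [map_smul, smul_add, smul_assoc]⟩
  have ht : ∀ x y : E, ∃ k : MZ, segment ℝ x y ⊆ U →
      D (p x + sg ℤ [(x, ()), (y, ())] - p y) k.toAdd := by
    intro x y
    by_cases h : segment ℝ x y ⊆ U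
    · have hx := hp x (h (left_mem_segment ℝ x y))
      have hy := hp y (h (right_mem_segment ℝ x y))
      obtain ⟨k, hk⟩ := hg _ (sub_mem (add_mem hx.1 (sg_mem (l := [(x, ()), (y, ())]) rfl
        ((AlexH_ad2 _ _).2 h))) hy.1) (by rw [map_sub, map_add, hx.2, hy.2, bd2]; abel)
      exact ⟨Multiplicative.ofAdd k, fun _ => (hD _ _).2 hk⟩
    · exact ⟨1, fun h' => absurd h' h⟩
  choose τ hτ using ht
  obtain ⟨L, hL⟩ : ∃ L : Ch ℤ (E × Unit) →ₗ[ℤ] Ch ℤ (E × Unit), ∀ a, L (sg ℤ [a]) = p a.1 :=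
    ⟨ev fun l => match l with
      | [a] => p a.1
      | _ => 0, fun a => ev_sg _ _⟩
  have key : ∀ z ∈ CB ℤ U 2, D (z - L (bd z)) (wt τ z) := fun z hz => by
    refine C_ind (p := fun z => D (z - L (bd z)) (wt τ z))
      ((hD _ _).2 ⟨0, zero_mem _, by simp⟩) (fun a b ha hb => ?_) (fun r a ha => ?_)
      (fun l hl h => ?_) hz
    · rw [map_add, map_add, map_add, ← sub_add_sub_comm]
      exact ad _ _ _ _ ha hb
    · rw [map_smul, map_smul, map_smul, ← smul_sub]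
      exact sm _ _ _ ha
    · obtain ⟨a, b, rfl⟩ := List.length_eq_two.1 hl
      rw [bd2, map_sub, hL, hL, AlexH_wt, ← sub_add, sub_add_eq_add_sub, add_comm]
      exact hτ _ _ ((AlexH_ad2 a b).1 h)
  have key' : ∀ z ∈ CB ℤ U 2, bd z = 0 → D z (wt τ z) := fun z hz h => by
    simpa [h] using key z hz
  refine ⟨τ, fun x y z h => ?_, fun z hz e e' => ?_, m, hm, h0,
    uq _ _ _ (key' m hm h0) ((hD _ _).2 ⟨0, zero_mem _, by simp⟩)⟩
  · obtain ⟨s1, s2, s3⟩ := AlexH_seg h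
    have h3 : D (bd (sg ℤ [(x, ()), (y, ()), (z, ())])) 0 :=
      (hD _ _).2 ⟨_, sg_mem rfl ((AlexH_ad3 (x, ()) (y, ()) (z, ())).2 h), by simp⟩
    have h4 := ad _ _ _ _ (hτ x z s3) h3
    rw [add_zero, bd3] at h4
    refine Multiplicative.toAdd.injective (uq _ _ _ ?_ h4)
    rw [toAdd_mul]
    convert ad _ _ _ _ (hτ x y s1) (hτ y z s2) using 1
    abel
  · obtain ⟨v, hv, e''⟩ := (hD _ _).1 (key' z hz e)
    exact ⟨v, hv, by rw [e'', e', zero_smul, zero_add]⟩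

/-- A union of two acyclic open sets meeting in two acyclic pieces is a homology circle. -/
theorem circle_hom {M₁ M₂ P Q : Set E} (o₁ : IsOpen M₁) (o₂ : IsOpen M₂) (oP : IsOpen P)
    (oQ : IsOpen Q) (hi : M₁ ∩ M₂ = P ∪ Q) (hd : Disjoint P Q) (a₁ : ∀ n, Acyc M₁ n)
    (a₂ : ∀ n, Acyc M₂ n) (aP : ∀ n, Acyc P n) (aQ : ∀ n, Acyc Q n) {p q : E} (hp : p ∈ P)
    (hq : q ∈ Q) {c₁ c₂ : Ch ℤ (E × Unit)} (h₁ : c₁ ∈ CB ℤ M₁ 2) (h₂ : c₂ ∈ CB ℤ M₂ 2)
    (e₁ : bd c₁ = sg ℤ [(q, ())] - sg ℤ [(p, ())]) (e₂ : bd c₂ = sg ℤ [(p, ())] - sg ℤ [(q, ())]) :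
    Acyc (M₁ ∪ M₂) 1 ∧ Acyc (M₁ ∪ M₂) 3 ∧
      (∀ z ∈ CB ℤ (M₁ ∪ M₂) 2, bd z = 0 →
        ∃ k : ℤ, ∃ v ∈ CB ℤ (M₁ ∪ M₂) 3, z = k • (c₁ + c₂) + bd v) ∧
      ∀ k : ℤ, (∃ v ∈ CB ℤ (M₁ ∪ M₂) 3, bd v = k • (c₁ + c₂)) → k = 0 := by
  refine ⟨acyc_union o₁ o₂ (acyc_zero ⟨p, hi ▸ Or.inl hp⟩) (a₁ 1) (a₂ 1),
    acyc_union o₁ o₂ (fun z hz h0 => ?_) (a₁ 3) (a₂ 3), fun z hz h0 => ?_, ?_⟩
  · obtain ⟨a, ha, b, hb, rfl⟩ := CB_disj oP oQ hd (hi ▸ hz)
    rw [map_add] at h0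
    have h1 : bd a = 0 := AlexH_zero hd (bd_CC ha)
      (eq_neg_of_add_eq_zero_left h0 ▸ neg_mem (bd_CC hb))
    obtain ⟨a', ha', rfl⟩ := aP 2 a ha h1
    obtain ⟨b', hb', rfl⟩ := aQ 2 b hb (bd_bd a' ▸ zero_add (bd b) ▸ h1 ▸ h0)
    exact ⟨a' + b', hi ▸ add_mem (CC_mono subset_union_left ha') (CC_mono subset_union_right hb'),
      map_add _ _ _⟩
  · obtain ⟨u, hu, v, hv, d, hd', rfl, e1, e2⟩ := mv_gen o₁ o₂ hz h0
    obtain ⟨a, ha, b, hb, e⟩ := CB_disj oP oQ hd (hi ▸ e2)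
    obtain ⟨k, hk⟩ := CB_zero (bd_CC ha)
    have h1 : bd b = -(k • sg ℤ []) := by
      rw [← hk]
      exact eq_neg_of_add_eq_zero_right (by rw [← map_add, ← e, bd_bd])
    obtain ⟨a', ha', e3⟩ := aP 1 _ (sub_mem ha (Submodule.smul_mem _ k (pt_mem hp)))
      (by rw [map_sub, map_smul, bd1, hk, sub_self])
    obtain ⟨b', hb', e4⟩ := aQ 1 _ (add_mem hb (Submodule.smul_mem _ k (pt_mem hq)))
      (by rw [map_add, map_smul, bd1, h1, neg_add_cancel])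
    obtain ⟨w, hw, e5⟩ := mv_glue (a₁ 2) (a₂ 2) (add_mem hu (Submodule.smul_mem _ k h₁))
      (add_mem hv (Submodule.smul_mem _ k h₂)) (c := a' + b')
      (hi ▸ add_mem (CC_mono subset_union_left ha') (CC_mono subset_union_right hb'))
      (by rw [map_add, map_add, map_smul, e3, e4, e, e₁, smul_sub]; abel)
      (by rw [map_add, map_add, map_smul, map_smul, e1, e₁, e₂, smul_sub, smul_sub]; abel)
    refine ⟨-k, w + d, add_mem hw hd', ?_⟩
    rw [map_add, e5, neg_smul, smul_add]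
    abel
  · rintro k ⟨v, hv, e⟩
    rw [smul_add] at e
    obtain ⟨u, hu, w, hw, d, -, rfl⟩ := mv_ref o₁ o₂ hv (Submodule.smul_mem _ k h₁)
      (Submodule.smul_mem _ k h₂) e
    simp only [map_add, bd_bd, add_zero] at e
    have h1 : k • c₁ - bd u ∈ CB ℤ M₂ 2 := by
      rw [show k • c₁ - bd u = bd w - k • c₂ by rw [sub_eq_sub_iff_add_eq_add, ← e, add_comm]]
      exact sub_mem (bd_CC hw) (Submodule.smul_mem _ k h₂)
    obtain ⟨a, ha, b, hb, e1⟩ := CB_disj oP oQ hd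
      (hi ▸ CB_inter (sub_mem (Submodule.smul_mem _ k h₁) (bd_CC hu)) h1)
    have e2 := congrArg bd e1
    rw [map_sub, map_smul, bd_bd, sub_zero, e₁, map_add, smul_sub] at e2
    have h2 : bd a + k • sg ℤ [(p, ())] = 0 := by
      refine AlexH_zero hd (add_mem (bd_CC ha) (Submodule.smul_mem _ k (pt_mem hp))) ?_
      rw [show bd a + k • sg ℤ [(p, ())] = k • sg ℤ [(q, ())] - bd b by
        rw [sub_eq_iff_eq_add.1 e2]; abel]
      exact sub_mem (Submodule.smul_mem _ k (pt_mem hq)) (bd_CC hb)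
    have e3 := congrArg bd h2
    rw [map_add, bd_bd, zero_add, map_smul, bd1, map_zero] at e3
    simpa [sg] using e3

end Pool.Agent.MP_b8a826_gt

end
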