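import Pool.Agent.MP_b8a826_gt.Mg.KSide2

-- part MP_b8a826_gt.KSide3
section

/-! The relations among the holonomies, and two auxiliary lemmas. -/

namespace Pool.Agent.MP_b8a826_gt
open Set Filter Topology Real

/-! ### Algebra -/

section Alg
variable {G : Type} [Group G]

theorem k_alg0 {b c : G} (h1 : b * c = c * b) (h2 : b * c * c * b * c = 1) :
    c⁻¹ * b⁻¹ * c⁻¹ = b * c ∧ (b * c) ^ 3 = b := by
  constructor
  · have h3 : c * b * c * (b * c) = 1 := by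
      rw [← h1, ← h2, mul_assoc (b * c * c) b c]
    rw [← mul_right_inj (c * b * c), h3]
    group
  · calc (b * c) ^ 3 = b * (c * b * c * b * c) := by simp only [pow_succ, pow_zero]; group
      _ = b := by rw [← h1, h2, mul_one]

theorem k_alg1 {b c μ : G} (h1 : b * c = c * b) (h2 : b * c * c * b * c = 1) :
    c⁻¹ * b⁻¹ * μ⁻¹ * (μ * c⁻¹) * (c⁻¹ * b⁻¹ * μ⁻¹) * (μ * c⁻¹)⁻¹ * (c⁻¹ * b⁻¹ * μ⁻¹)⁻¹ =
      μ⁻¹ * b⁻¹ * c⁻¹ := by
  have h3 := (k_alg0 h1 h2).1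
  calc _ = (b * c * c * b * c)⁻¹ * μ⁻¹ * (c⁻¹ * b⁻¹ * c⁻¹)⁻¹ := by group
    _ = μ⁻¹ * (c * b)⁻¹ := by rw [h2, h3, h1]; group
    _ = _ := by group

theorem k_lw {m s : G} (h : Br m s) : m⁻¹ ^ 6 * (s * m) ^ 3 = lw m s := by
  have h1 : (s * m) ^ 3 = (m * s) ^ 3 := by
    calc (s * m) ^ 3 = (s * m * s) * (m * s * m) := by simp only [pow_succ, pow_zero]; group
      _ = (m * s * m) * (s * m * s) := by rw [← h]
      _ = _ := by simp only [pow_succ, pow_zero]; group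
  have h2 : Commute m ((m * s) ^ 3) := by
    rw [Commute, SemiconjBy]
    nth_rewrite 1 [← h1]
    simp only [pow_succ, pow_zero]
    group
  rw [h1, lw]
  exact (h2.inv_left.pow_left 6).eq

theorem k_lw_comm {A : Type} [CommGroup A] {m s : A} (h : Br m s) : lw m s = 1 := by
  have h1 : m = s := by
    have h2 : m * s * m = m * s * s := by rw [h, mul_comm s m]
    exact mul_left_cancel h2
  rw [lw, ← h1, ← sq, ← pow_mul, inv_pow]
  exact mul_inv_cancel _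

theorem k_fox {N : Type} [AddCommGroup N] [Module (ZMod 2) N] {ρ : Representation (ZMod 2) MZ N}
    {m s n g : SD ρ} (h : s * m * s * m⁻¹ * s⁻¹ = g * n * g⁻¹ * m * (g * n * g⁻¹)⁻¹)
    (hn : n.g = 1) : ∃ γ, ρ (m.g * m.g) (s * m⁻¹).v - ρ m.g (s * m⁻¹).v + (s * m⁻¹).v =
      ρ m.g (ρ γ n.v) - ρ γ n.v := by
  have e : ∀ (t : MZ) (v : N), ρ t (ρ t⁻¹ v) = v := fun t v => by
    rw [← Module.End.mul_apply, ← map_mul, mul_inv_cancel, map_one, Module.End.one_apply]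
  have h1 : (g * n * g⁻¹).g = 1 := by simp [hn]
  have h2 : (g * n * g⁻¹).v = ρ g.g n.v := by simp [hn, e]
  refine ⟨g.g, ?_⟩
  rw [← h2]
  generalize g * n * g⁻¹ = ν at h h1
  have h3 : s * (m * s) = ν * (m * (ν⁻¹ * (s * m))) := by
    calc _ = s * m * s * m⁻¹ * s⁻¹ * (s * m) := by group
      _ = _ := by rw [h]; group
  have h4 : s.g = m.g := by
    have h5 := congrArg SD.g h3
    simp only [SD.mul_g, SD.inv_g, h1, inv_one, one_mul] at h5
    rw [mul_comm s.g m.g, mul_comm m.g s.g] at h5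
    exact mul_right_cancel h5
  have h5 := congrArg SD.v h3
  simp only [SD.mul_v, SD.inv_v, SD.inv_g, h1, h4, inv_one, map_one, Module.End.one_apply, map_add,
    map_neg] at h5
  have h6 : (s * m⁻¹).v = s.v - m.v := by simp [h4, e, sub_eq_add_neg]
  rw [h6, map_mul, Module.End.mul_apply, ← ZModModule.neg_eq_self (ρ m.g ν.v - ν.v)]
  simp only [map_sub]
  rw [← sub_eq_zero] at h5 ⊢
  rw [← h5]
  abel

end Alg

/-! ### Maps to the circle -/

theorem k_arg_fl {X : Type} [TopologicalSpace X] {f : X → Circle} {U : Set X}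
    (hf : ContinuousOn f U) :
    Fl (fun x y => Multiplicative.ofAdd (Complex.arg (f y / f x : Circle))) U := by
  intro x hx
  have h1 : ContinuousWithinAt (fun y => (f y : ℂ)) U x :=
    continuous_subtype_val.continuousAt.comp_continuousWithinAt (hf x hx)
  refine ⟨_, h1 (Metric.ball_mem_nhds _ one_half_pos), fun a ha b hb c hc => ?_⟩
  have h2 : ∀ a b, (f a : ℂ) ∈ Metric.ball (f x : ℂ) (1 / 2) →
      (f b : ℂ) ∈ Metric.ball (f x : ℂ) (1 / 2) → |Complex.arg (f b / f a : Circle)| < π / 2 := by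
    intro a b ha hb
    refine Complex.abs_arg_lt_pi_div_two_iff.2 (Or.inl ?_)
    have h3 : ‖((f b / f a : Circle) : ℂ) - 1‖ < 1 := by
      rw [Circle.coe_div, div_sub_one (Circle.coe_ne_zero _), norm_div, Circle.norm_coe, div_one,
        ← dist_eq_norm]
      linarith [dist_triangle_right (f b : ℂ) (f a) (f x), Metric.mem_ball.1 ha,
        Metric.mem_ball.1 hb]
    have h4 := (abs_lt.1 ((Complex.abs_re_le_norm _).trans_lt h3)).1
    rw [Complex.sub_re, Complex.one_re] at h4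
    linarith
  have h3 := abs_lt.1 (h2 a b ha hb)
  have h4 := abs_lt.1 (h2 b c hb hc)
  rw [← ofAdd_add, ← (Complex.arg_mul_eq_add_arg_iff (Circle.coe_ne_zero _)
    (Circle.coe_ne_zero _)).2 ⟨by linarith [h3.1, h4.1], by linarith [h3.2, h4.2]⟩,
    ← Circle.coe_mul, mul_comm, div_mul_div_cancel]

theorem k_lift {F : Circle → Circle} (hF : Continuous F)
    (h : hol (fun x y => Multiplicative.ofAdd (Complex.arg (F y / F x : Circle))) (circ id) = 1) :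
    ∃ g : C(Circle, ℝ), ∀ θ, F θ = Circle.exp (g θ) := by
  let q : C(ℝ, Circle) := ⟨fun t => Circle.exp (2 * π * t), by fun_prop⟩
  have hq : IsQuotientMap q := IsOpenMap.isQuotientMap
    (isLocalHomeomorph_circleExp.isOpenMap.comp (isOpenMap_smul₀ (by positivity : 2 * π ≠ 0)))
    q.continuous k_surj
  obtain ⟨g, ⟨-, hg⟩, -⟩ := Circle.isCoveringMap_exp.existsUnique_continuousMap_lifts
    ((⟨F, hF⟩ : C(Circle, Circle)).comp q) 0 _ (Circle.exp_arg _)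
  have hg' : ∀ t, Circle.exp (g t) = F (q t) := congrFun hg
  have h1 : Triv (pb (circ id) fun x y => Multiplicative.ofAdd (Complex.arg (F y / F x : Circle)))
      univ fun t => Multiplicative.ofAdd (g t) := fun t _ => by
    filter_upwards [nhdsWithin_le_nhds (g.continuous.continuousAt (x := t)
      (Metric.ball_mem_nhds _ pi_pos))] with a ha
    have h2 := abs_lt.1 (Real.dist_eq _ _ ▸ Metric.mem_ball.1 ha)
    change Multiplicative.ofAdd (Complex.arg (F (q a) / F (q t) : Circle)) = _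
    rw [← hg', ← hg', ← Circle.exp_sub, Circle.arg_exp h2.1 h2.2.le, ← ofAdd_neg, ← ofAdd_add,
      neg_add_eq_sub]
  rw [hol, tr_eq h1 isPreconnected_univ trivial trivial, inv_mul_eq_one] at h
  have h2 : Function.Periodic g 1 := congrFun (Circle.isCoveringMap_exp.eq_of_comp_eq
    (g₁ := fun t => g (t + 1)) (g₂ := g) (by fun_prop) g.continuous (by
      ext1 t
      simp [hg', q, mul_add]) 0 (by rw [zero_add]; exact (Multiplicative.ofAdd.injective h).symm))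
  have h3 : Function.FactorsThrough g q := fun a b e => by
    obtain ⟨n, hn⟩ := Circle.exp_eq_exp.1 e
    rw [show a = b + n * 1 from mul_left_cancel₀ (by positivity : 2 * π ≠ 0) (by linarith)]
    exact h2.int_mul n b
  refine ⟨hq.lift g h3, fun θ => ?_⟩
  obtain ⟨t, rfl⟩ := hq.surjective θ
  rw [← hg']
  exact congrArg _ (DFunLike.congr_fun (hq.lift_comp g h3) t).symm

/-! ### The relations -/

/-- A rectangle in the real slice, without the point of the figure eight. -/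
def kR : Set (ℂ × ℝ) := {p | p.1.im = 0 ∧ 5 / 2 ≤ p.1.re ∧ p.1.re ≤ 3 ∧ 0 ≤ p.2 ∧ p.2 ≤ 1 ∧
  (p.1.re = 3 → p.2 ≠ 1 / 2)}

theorem kR_star : StarConvex ℝ (((5 / 2 : ℝ) : ℂ), (1 / 2 : ℝ)) kR := by
  rintro p ⟨h1, h2, h3, h4, h5, h6⟩ a b ha hb hab
  have e1 : (a • (((5 / 2 : ℝ) : ℂ), (1 / 2 : ℝ)) + b • p).1.re = a * (5 / 2) + b * p.1.re := by
    simp
  have e2 : (a • (((5 / 2 : ℝ) : ℂ), (1 / 2 : ℝ)) + b • p).2 = a * (1 / 2) + b * p.2 := by simp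
  refine ⟨by simp [h1], ?_, ?_, ?_, ?_, fun e => ?_⟩ <;> simp only [e1, e2] at *
  · nlinarith
  · nlinarith
  · positivity
  · nlinarith
  · have h7 : a = 0 := by nlinarith
    have h8 : b = 1 := by linarith
    rw [h7, h8] at e ⊢
    simpa using h6 (by simpa using e)

theorem kR_mem {x t : ℝ} (h1 : 5 / 2 ≤ x) (h2 : x ≤ 3) (h3 : 0 ≤ t) (h4 : t ≤ 1)
    (h5 : x = 3 → t ≠ 1 / 2) : ((x : ℂ), t) ∈ kR := ⟨Complex.ofReal_im x, h1, h2, h3, h4, h5⟩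

theorem kD_circ (s : ℝ) : circ (fun θ => kD θ) s =
    (((3 + cos (2 * π * s) / 4 : ℝ) : ℂ), 1 / 2 + sin (2 * π * s) / 4) := by
  simp only [circ, kD, Circle.coe_exp, Complex.exp_ofReal_mul_I_re, Complex.exp_ofReal_mul_I_im]

variable {G : Type} [Group G] {φ : ℂ × ℝ → ℂ × ℝ → G} {Z : Set (ℂ × ℝ)} {B : ℂ × ℝ → G}
  {L : Set ℝ} {b c μ : G}

theorem KDat.rel (h : KDat φ Z L B b c μ) (hf : hol φ kfc = 1) (hZ : ∀ q, kcyl q ∈ Z)
    (hR : kR ⊆ Z) (hL : ∀ t ∈ L, 0 ≤ t → t ≤ 1 → t = 1 / 2) {m s : G}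
    (hm : m = hol φ fun s => kcyl (s, 0))
    (hs : s = (B (kcyl (0, 0)))⁻¹ * (c⁻¹ * b⁻¹ * μ⁻¹) * B (kcyl (0, 0))) :
    ∃ g, s * m * s * m⁻¹ * s⁻¹ = g * hol φ (circ fun θ => kD θ) * g⁻¹ * m *
      (g * hol φ (circ fun θ => kD θ) * g⁻¹)⁻¹ := by
  obtain ⟨B', hB'⟩ := exists_triv_star (h.fl.mono hR) kR_star
  obtain ⟨ν, W, hν, hW⟩ := k_cyl h.fl hZ
  have hY : kC L ⊆ kY L := fun p hp => ⟨hp.1, hp.2.1.ge⟩
  have r1 : ∀ u, 0 ≤ cos (2 * π * u) → circ (fun θ => kD θ) u ∈ kY L := fun u hu => by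
    have := sin_sq_add_cos_sq (2 * π * u)
    rw [kD_circ]
    refine hY (kC_mem (by linarith) fun e => ?_)
    have e1 := hL _ e (by linarith [neg_one_le_sin (2 * π * u)])
      (by linarith [sin_le_one (2 * π * u)])
    have e2 : sin (2 * π * u) = 0 := by linarith
    rw [e2] at this
    nlinarith
  have r2 : ∀ u, cos (2 * π * u) ≤ 0 → circ (fun θ => kD θ) u ∈ kR := fun u hu => by
    have := sin_sq_add_cos_sq (2 * π * u)
    rw [kD_circ]
    refine kR_mem (by linarith [neg_one_le_cos (2 * π * u)]) (by linarith)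
      (by linarith [neg_one_le_sin (2 * π * u)]) (by linarith [sin_le_one (2 * π * u)])
      fun e1 e2 => ?_
    have e3 : sin (2 * π * u) = 0 := by linarith
    have e4 : cos (2 * π * u) = 0 := by linarith
    rw [e3, e4] at this
    norm_num at this
  have hγ : Cv Z (circ fun θ => kD θ) := ⟨circ_cont (kD_cont.comp continuous_subtype_val),
    fun u => (le_total 0 _).elim (fun e => h.sub (r1 u e).1) fun e => hR (r2 u e)⟩
  have v1 : circ (fun θ => kD θ) (1 / 4) = (((3 : ℝ) : ℂ), 3 / 4) := by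
    rw [kD_circ, show 2 * π * (1 / 4) = π / 2 by ring, cos_pi_div_two, sin_pi_div_two]
    norm_num
  have v2 : circ (fun θ => kD θ) (3 / 4) = (((3 : ℝ) : ℂ), 1 / 4) := by
    rw [kD_circ, show 2 * π * (3 / 4) = π / 2 + π by ring, cos_add_pi, sin_add_pi, cos_pi_div_two,
      sin_pi_div_two]
    norm_num
  have k0 := k_path h.up hB' (γ := fun s => (((5 / 2 + s / 2 : ℝ) : ℂ), s / 4)) (by fun_prop)
    fun s hs => ⟨hY (kC_mem (by linarith [hs.1]) fun e => by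
        linarith [hL _ e (by linarith [hs.1]) (by linarith [hs.2]), hs.2]),
      kR_mem (by linarith [hs.1]) (by linarith [hs.2]) (by linarith [hs.1]) (by linarith [hs.2])
        fun _ e => by linarith [hs.2]⟩
  have k1 := k_path h.up hB' (γ := fun s => (((5 / 2 + s / 2 : ℝ) : ℂ), 1 - s / 4)) (by fun_prop)
    fun s hs => ⟨hY (kC_mem (by linarith [hs.1]) fun e => by
        linarith [hL _ e (by linarith [hs.2]) (by linarith [hs.1]), hs.2]),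
      kR_mem (by linarith [hs.1]) (by linarith [hs.2]) (by linarith [hs.2]) (by linarith [hs.1])
        fun _ e => by linarith [hs.2]⟩
  rw [show (5 / 2 + 0 / 2 : ℝ) = 5 / 2 by norm_num, show (5 / 2 + 1 / 2 : ℝ) = 3 by norm_num]
    at k0 k1
  rw [zero_div, ← kcyl_zero] at k0
  rw [zero_div, sub_zero, ← kcyl_zero, show (1 - 1 / 4 : ℝ) = 3 / 4 by norm_num] at k1
  have hn : hol φ (circ fun θ => kD θ) = (B (kD 1))⁻¹ * (B (kcyl (0, 1)) * (B' (kcyl (0, 1)))⁻¹) *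
      (B (kcyl (0, 0)) * (B' (kcyl (0, 0)))⁻¹)⁻¹ * B (kD 1) := by
    rw [hol, ← tr_mul _ _ 0 (1 / 4) 1, ← tr_mul _ _ (1 / 4) (3 / 4) 1,
      tr_arc h.fl hγ h.up (a := 0) fun u hu => r1 u (by
        rw [uIcc_of_le (by norm_num)] at hu
        exact cos_nonneg_of_mem_Icc ⟨by nlinarith [pi_pos, hu.1], by nlinarith [pi_pos, hu.2]⟩),
      tr_arc h.fl hγ hB' (a := 1 / 4) fun u hu => r2 u (by
        rw [uIcc_of_le (by norm_num)] at hu
        exact cos_nonpos_of_pi_div_two_le_of_le (by nlinarith [pi_pos, hu.1])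
          (by nlinarith [pi_pos, hu.2])),
      tr_arc h.fl hγ h.up (a := 3 / 4) fun u hu => r1 u (by
        rw [uIcc_of_le (by norm_num)] at hu
        rw [← cos_sub_two_pi]
        exact cos_nonneg_of_mem_Icc ⟨by nlinarith [pi_pos, hu.1], by nlinarith [pi_pos, hu.2]⟩),
      v1, v2, k0, k1, circ_zero, circ_one, Circle.coe_one]
    group
  have hv := hol_triv h.fl (c := kcyl ∘ fun s => (0, s))
    ⟨kcyl_cont.comp (by fun_prop), fun _ => hZ _⟩ hB' fun t ht => by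
      rw [Function.comp_apply, kcyl_zero]
      exact kR_mem le_rfl (by norm_num) ht.1 ht.2 (by norm_num)
  have w0 := hW (fun s => (s, 0)) (by fun_prop)
  have w1 := hW (fun s => (s, 1)) (by fun_prop)
  rw [hW _ (by fun_prop)] at hv
  have hν' : ∀ t, W (1, t) = ν * W (0, t) := fun t => by simpa using hν 0 t
  rw [hν'] at w0 w1
  have m0 : m = _ := hm.trans h.mer0
  have m1 := h.mer1.symm.trans w1
  have m2 : m = _ := hm.trans w0
  simp only [Function.comp] at hv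
  refine ⟨(B (kcyl (0, 0)))⁻¹ * B (kD 1), ?_⟩
  calc _ = (B (kcyl (0, 0)))⁻¹ * B (kcyl (0, 1)) * ((B (kcyl (0, 1)))⁻¹ * (μ⁻¹ * b⁻¹ * c⁻¹) *
          B (kcyl (0, 1))) * (B (kcyl (0, 1)))⁻¹ * B (kcyl (0, 0)) := by
        rw [← k_alg1 h.comm (h.fill hf), hs, m0]; group
    _ = (B (kcyl (0, 0)))⁻¹ * B (kcyl (0, 1)) * (((W (0, 0))⁻¹ * W (0, 1))⁻¹ * m *
          ((W (0, 0))⁻¹ * W (0, 1))) * (B (kcyl (0, 1)))⁻¹ * B (kcyl (0, 0)) := by
        rw [m1, m2]; group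
    _ = _ := by rw [hv, hn]; group

theorem KDat.long (h : KDat φ Z ∅ B b c μ) (hf : hol φ kfc = 1) {m s : G}
    (hm : m = hol φ fun s => kcyl (s, 0))
    (hs : s = (B (kcyl (0, 0)))⁻¹ * (c⁻¹ * b⁻¹ * μ⁻¹) * B (kcyl (0, 0))) :
    hol φ (kcyl ∘ fun s => (-6 * s, 2 * s)) = m⁻¹ ^ 6 * (s * m) ^ 3 := by
  have hF : ∀ q, kcyl q ∈ kF ∅ := fun q => ⟨kcyl_U q, fun e => e.elim⟩
  have hY : ∀ t, kcyl (0, t) ∈ kY ∅ := fun t =>
    ⟨hF _, by rw [kcyl_zero]; exact (Complex.ofReal_im _).ge⟩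
  obtain ⟨ν, W, hν, hW⟩ := k_cyl h.fl fun q => h.sub (hF q)
  have hv := hol_triv h.fl (c := kcyl ∘ fun s => (0, 2 * s))
    ⟨kcyl_cont.comp (by fun_prop), fun _ => h.sub (hF _)⟩ h.up fun t _ => hY _
  have e : kcyl (0, 2) = kT (kT (kcyl (0, 0))) := by
    simp only [kT, kcyl, neg_neg]
    norm_num
  rw [hW _ (by fun_prop)] at hv
  simp only [Function.comp, mul_zero, mul_one] at hv
  rw [e, h.hb _ (hY 0)] at hv
  have h6 : ∀ n : ℕ, W (-6 + n, 2) = ν ^ n * W (-6, 2) := fun n => by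
    induction n with
    | zero => simp
    | succ n ih => rw [Nat.cast_succ, ← add_assoc, hν, ih, pow_succ', mul_assoc]
  have h7 := h6 6
  rw [show (-6 + (6 : ℕ) : ℝ) = 0 by norm_num] at h7
  have w0 := hW (fun s => (s, 0)) (by fun_prop)
  rw [show W (1, 0) = ν * W (0, 0) by simpa using hν 0 0] at w0
  have h8 : (s * m) ^ 3 = (W (0, 0))⁻¹ * W (0, 2) := by
    obtain ⟨a1, a2⟩ := k_alg0 h.comm (h.fill hf)
    have a3 : s * m = (B (kcyl (0, 0)))⁻¹ * (b * c) * (B (kcyl (0, 0)))⁻¹⁻¹ := by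
      rw [hs, hm, h.mer0, ← a1]; group
    rw [a3, conj_pow, a2, hv]
    group
  have h9 : m⁻¹ = (W (0, 0))⁻¹ * ν⁻¹ * (W (0, 0))⁻¹⁻¹ := by
    rw [hm.trans w0]; group
  rw [hW _ (by fun_prop), h8, h9, conj_pow, h7]
  simp only [mul_zero, mul_one]
  group

theorem kbz_re (s : ℝ) : (kbz s).1.re = 3 * cos (2 * π * s) := k_re _ _

theorem kbz_im (s : ℝ) : (kbz s).1.im = sin (2 * (2 * π * s)) := k_im _ _

/-- The lemniscate. -/
def kΓ : Set ℂ := {ζ | 81 * ζ.im ^ 2 = 4 * ζ.re ^ 2 * (9 - ζ.re ^ 2)}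

theorem kbz_mem (s : ℝ) : (kbz s).1 ∈ kΓ := by
  rw [kΓ, mem_ofPred_eq, kbz_re, kbz_im, sin_two_mul, mul_pow, mul_pow, sin_sq]
  ring

theorem kΓ_neg {ζ : ℂ} (h : ζ ∈ kΓ) : -ζ ∈ kΓ := by simpa [kΓ] using h

theorem kΓ_box {ζ : ℂ} (h : ζ ∈ kΓ) : |ζ.re| ≤ 3 ∧ |ζ.im| ≤ 1 := by
  have h1 : 81 * ζ.im ^ 2 = 4 * ζ.re ^ 2 * (9 - ζ.re ^ 2) := h
  constructor
  · refine abs_le_of_sq_le_sq' ?_ (by norm_num) |> abs_le.2
    by_contra hc
    nlinarith [sq_nonneg ζ.im]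
  · refine abs_le_of_sq_le_sq' ?_ (by norm_num) |> abs_le.2
    nlinarith [sq_nonneg (2 * ζ.re ^ 2 - 9)]

theorem kΓ_far {ζ : ℂ} (h : ζ ∈ kΓ) : 1 / 4 < (ζ.re - 2) ^ 2 + ζ.im ^ 2 := by
  have h1 : 81 * ζ.im ^ 2 = 4 * ζ.re ^ 2 * (9 - ζ.re ^ 2) := h
  by_contra hc
  have h2 : ζ.re ≤ 5 / 2 := by nlinarith [sq_nonneg ζ.im]
  have h3 : 3 / 2 ≤ ζ.re := by nlinarith [sq_nonneg ζ.im]
  have h4 : 9 / 4 ≤ ζ.re ^ 2 := by nlinarith
  have h5 : ζ.re ^ 2 ≤ 25 / 4 := by nlinarith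
  nlinarith [sq_nonneg (ζ.re - 2)]

theorem kΓ_U {ζ : ℂ} (h : ζ ∈ kΓ) : ζ ∈ kU := by
  have h1 := kΓ_far (kΓ_neg h)
  rw [Complex.neg_re, Complex.neg_im] at h1
  exact mem_kU.2 ⟨(kΓ_far h).le, by nlinarith⟩

theorem KDat.eight (h : KDat φ Z ∅ B b c μ) (e : c⁻¹ * b⁻¹ * μ⁻¹ = μ * c⁻¹) : hol φ kbz = 1 := by
  have hF : ∀ s, kbz s ∈ kF ∅ := fun s => ⟨kΓ_U (kbz_mem s), fun e => e.elim⟩
  have hγ : Cv Z kbz := ⟨kbz_cont, fun s => h.sub (hF s)⟩
  have hC : ∀ t : ℝ, (((3 : ℝ) : ℂ), t) ∈ kC ∅ := fun t => kC_mem (by norm_num) fun e => e.elim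
  have hi : ∀ u, (kbz u).1.im = sin (4 * (π * u)) := fun u => by
    rw [kbz_im]; congr 1; ring
  have k0 := k_path h.up h.dn (γ := fun s => (((3 / 2 - 3 / 2 * s : ℝ) : ℂ), s / 2)) (by fun_prop)
    fun s hs => by
      have h1 := kM_mem (L := ∅) (x := 3 / 2 - 3 / 2 * s) (t := s / 2) (by linarith [hs.2])
        (by linarith [hs.1]) fun e => e
      exact ⟨⟨h1, (Complex.ofReal_im _).ge⟩, kY_dn h.per h1 (Complex.ofReal_im _).le⟩
  rw [show (3 / 2 - 3 / 2 * 0 : ℝ) = 3 / 2 by norm_num, zero_div,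
    show (3 / 2 - 3 / 2 * 1 : ℝ) = 0 by norm_num, h.hp, Function.comp_apply, mul_inv_cancel_right,
    Function.comp_apply] at k0
  have v0 : kbz 0 = (((3 : ℝ) : ℂ), 1 / 2) := by simp [kbz]
  have v1 : kbz (1 / 4) = (((0 : ℝ) : ℂ), 1 / 2) := by
    rw [kbz, show 2 * π * (1 / 4) = π / 2 by ring, show 2 * (π / 2) = π by ring]
    simp
  have v2 : kbz (1 / 2) = kT (((3 : ℝ) : ℂ), -(1 / 2)) := by
    rw [kbz, show 2 * π * (1 / 2) = π by ring, kT]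
    norm_num
  have v3 : kbz (3 / 4) = (((0 : ℝ) : ℂ), 1 / 2) := by
    rw [kbz, show 2 * π * (3 / 4) = π / 2 + π by ring,
      show 2 * (π / 2 + π) = π + 2 * π by ring, cos_add_pi, sin_add_two_pi]
    simp
  have v4 : kbz 1 = (((3 : ℝ) : ℂ), 1 / 2) := by
    rw [kbz, mul_one, show 2 * (2 * π) = 2 * π + 2 * π by ring, sin_add_two_pi]
    simp
  rw [hol, ← tr_mul _ _ 0 (1 / 4) 1, ← tr_mul _ _ (1 / 4) (1 / 2) 1,
    ← tr_mul _ _ (1 / 2) (3 / 4) 1,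
    h.tr_up hγ (by norm_num) fun u hu => ⟨hF u, by
      have := k_sin (a := 4) (s := u) 0 (by simpa using hu.1) (by norm_num; linarith [hu.2])
      rw [hi]; linarith⟩,
    h.tr_dn hγ (by norm_num) fun u hu => ⟨hF u, by
      have := k_sin (a := 4) (s := u) 1 (by norm_num; linarith [hu.1])
        (by norm_num; linarith [hu.2])
      rw [hi]; linarith⟩,
    h.tr_up hγ (by norm_num) fun u hu => ⟨hF u, by
      have := k_sin (a := 4) (s := u) 2 (by norm_num; linarith [hu.1])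
        (by norm_num; linarith [hu.2])
      rw [hi]; linarith⟩,
    h.tr_dn hγ (by norm_num) fun u hu => ⟨hF u, by
      have := k_sin (a := 4) (s := u) 3 (by norm_num; linarith [hu.1])
        (by norm_num; linarith [hu.2])
      rw [hi]; linarith⟩, v0, v1, v2, v3, v4, h.left (hC _), h.hc _ (hC (1 / 2)),
    eq_mul_of_mul_inv_eq k0.symm]
  calc _ = (c * B (kT (((3 : ℝ) : ℂ), 1 / 2)))⁻¹ * ((c⁻¹ * b⁻¹ * μ⁻¹)⁻¹ * (μ * c⁻¹)) *
        (c * B (kT (((3 : ℝ) : ℂ), 1 / 2))) := by group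
    _ = 1 := by rw [e]; group

end Pool.Agent.MP_b8a826_gt

end

-- part MP_b8a826_gt.KSide
section

/-! The trefoil, its tubular neighbourhood and the group of its exterior. -/

namespace Pool.Agent.MP_b8a826_gt
open Set

section Aux
open Real

/-- The levels of the figure eight. -/
def kL : Set ℝ := {t | ∃ n : ℤ, t = 1 / 2 + n}

theorem kL_per (t : ℝ) : t + 1 ∈ kL ↔ t ∈ kL :=
  ⟨fun ⟨n, h⟩ => ⟨n - 1, by push_cast; linarith⟩, fun ⟨n, h⟩ => ⟨n + 1, by push_cast; linarith⟩⟩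

theorem kL_half (t : ℝ) (ht : t ∈ kL) (h0 : 0 ≤ t) (h1 : t ≤ 1) : t = 1 / 2 := by
  obtain ⟨n, rfl⟩ := ht
  have h2 : (-1 : ℤ) < n := by exact_mod_cast (by linarith : (-1 : ℝ) < n)
  have h3 : n < (1 : ℤ) := by exact_mod_cast (by linarith : (n : ℝ) < 1)
  rw [show n = 0 by omega]
  simp

theorem kL_zero : (0 : ℝ) ∉ kL := fun h => by linarith [kL_half 0 h le_rfl zero_le_one]

theorem k_tube {y : S3} (h : y ∉ XK kE) : ∃ p, kxi p = y ∧ ‖p.1 - 2‖ < 1 / 2 := by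
  obtain ⟨⟨θ, d⟩, hd, rfl⟩ := not_not.1 h
  obtain ⟨s, rfl⟩ := k_surj θ
  refine ⟨_, (kE_xi s d).symm, kk_half ?_⟩
  rwa [norm_mul, norm_pow, norm_inv, Circle.norm_coe, inv_one, one_pow, one_mul]

theorem kxi_XK {p : ℂ × ℝ} (hp : p.1 ∈ kU) : kxi p ∈ XK kE := by
  by_contra h
  obtain ⟨q, e, hq⟩ := k_tube h
  rcases (kxi_eq e).2.2 with h1 | h1 <;> rw [h1] at hq
  · exact hp.1.not_gt hq
  · rw [← norm_neg, neg_sub, sub_neg_eq_add, add_comm] at hq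
    exact hp.2.not_gt hq

theorem kxi_free {p : ℂ × ℝ} (hp : p.1 ∈ kU) (h : p.2 ∈ kL → p.1 ∉ kΓ) :
    kxi p ∈ XK kE \ range (kxi ∘ kbz) := by
  refine ⟨kxi_XK hp, fun ⟨s, e⟩ => ?_⟩
  obtain ⟨h1, -, h2⟩ := kxi_eq e.symm
  refine h h1 ?_
  rcases h2 with h2 | h2 <;> rw [h2]
  exacts [kbz_mem s, kΓ_neg (kbz_mem s)]

theorem kF_free {p : ℂ × ℝ} (hp : p ∈ kF kL) : kxi p ∈ XK kE \ range (kxi ∘ kbz) :=
  kxi_free hp.1 fun h h' => (hp.2 h).elim (kΓ_box h').1.not_gt (kΓ_box h').2.not_gt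

theorem kcyl_free (q : ℝ × ℝ) : kxi (kcyl q) ∈ XK kE \ range (kxi ∘ kbz) :=
  kxi_free (kcyl_U q) fun _ h => by
    have h1 := kΓ_far h
    rw [kcyl_re, kcyl_im] at h1
    nlinarith [sin_sq_add_cos_sq (2 * π * q.1)]

theorem kR_free {p : ℂ × ℝ} (hp : p ∈ kR) : kxi p ∈ XK kE \ range (kxi ∘ kbz) := by
  obtain ⟨h1, h2, h3, h4, h5, h6⟩ := hp
  refine kxi_free (mem_kU.2 ⟨by nlinarith, by nlinarith⟩) fun h h' => h6 ?_ (kL_half _ h h4 h5)
  have h7 : 81 * p.1.im ^ 2 = 4 * p.1.re ^ 2 * (9 - p.1.re ^ 2) := h'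
  have h8 : 9 - p.1.re ^ 2 = 0 := by
    refine (mul_eq_zero.1 ?_).resolve_left (by positivity : 4 * p.1.re ^ 2 ≠ 0)
    rw [← h7, h1]
    norm_num
  nlinarith

/-- The meridian disc of the braid axis. -/
noncomputable def kDa (v : ℂ) : E4 := (√(‖v‖ ^ 2 + ‖(5 : ℂ)‖ ^ 2))⁻¹ • !₂[v, 5]

theorem kDa_pos (v : ℂ) : 0 < ‖v‖ ^ 2 + ‖(5 : ℂ)‖ ^ 2 := by
  have : ‖(5 : ℂ)‖ ≠ 0 := by simp
  positivity

theorem kDa_mem (v : ℂ) : kDa v ∈ Metric.sphere (0 : E4) 1 := by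
  have h := kDa_pos v
  rw [mem_sphere_zero_iff_norm, kDa, norm_smul, norm_inv, Real.norm_of_nonneg (sqrt_nonneg _),
    ← sqrt_sq (norm_nonneg !₂[v, 5]), k_norm_sq]
  exact inv_mul_cancel₀ (sqrt_ne_zero'.2 h)

theorem kDa_cont : Continuous kDa := by
  have h : Continuous fun v : ℂ => (√(‖v‖ ^ 2 + ‖(5 : ℂ)‖ ^ 2))⁻¹ :=
    Continuous.inv₀ (by fun_prop) fun v => sqrt_ne_zero'.2 (kDa_pos v)
  exact h.smul (by fun_prop)

theorem kDa_far {v : ℂ} (hv : ‖v‖ ≤ 1) {p : ℂ × ℝ} (e : (kxi p).1 = kDa v) : 5 ≤ ‖p.1‖ := by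
  obtain ⟨x, hx, hn⟩ : ∃ x : Circle × ℂ, kNa (cV x) = kDa v ∧ ‖x.2‖ = ‖p.1‖ :=
    ⟨_, e, by simp only [kP, norm_mul, norm_pow, Circle.norm_coe, one_pow, one_mul]⟩
  have h : 0 < (√(‖v‖ ^ 2 + ‖(5 : ℂ)‖ ^ 2))⁻¹ := inv_pos.2 (sqrt_pos.2 (kDa_pos v))
  have h0 : ‖kNa (cV x) 1‖ = ‖x.2‖ * ‖kNa (cV x) 0‖ := by
    rw [kNa_zero, kNa_one, norm_smul, norm_smul]
    simp [cV, mul_comm]
  have h1 : ‖kDa v 0‖ = (√(‖v‖ ^ 2 + ‖(5 : ℂ)‖ ^ 2))⁻¹ * ‖v‖ := by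
    rw [← Real.norm_of_nonneg h.le, ← norm_smul]
    rfl
  have h2 : ‖kDa v 1‖ = (√(‖v‖ ^ 2 + ‖(5 : ℂ)‖ ^ 2))⁻¹ * ‖(5 : ℂ)‖ := by
    rw [← Real.norm_of_nonneg h.le, ← norm_smul]
    rfl
  rw [hx, h1, h2, hn, mul_left_comm, mul_right_inj' h.ne', Complex.norm_ofNat] at h0
  nlinarith [norm_nonneg p.1]

theorem k_fill {G : Type} [Group G] {ψ : S3 → S3 → G} (h : Fl ψ (XK kE \ range (kxi ∘ kbz))) :
    hol (pb kxi ψ) kfc = 1 := by
  have h1 := hol_disc h (D := fun v => ⟨kDa v, kDa_mem v⟩) (kDa_cont.subtype_mk _).continuousOn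
    fun v hv => ⟨by
      by_contra hc
      obtain ⟨p, e, hp⟩ := k_tube hc
      have h2 := norm_sub_norm_le p.1 2
      rw [Complex.norm_ofNat] at h2
      linarith [kDa_far hv (congrArg Subtype.val e)], fun ⟨s, e⟩ => by
      have h2 := kΓ_box (kbz_mem s)
      linarith [kDa_far hv (congrArg Subtype.val e), Complex.norm_le_abs_re_add_abs_im (kbz s).1,
        h2.1, h2.2]⟩
  rw [hol_pb, ← h1]
  congr 1
  ext1 s
  have e : kP (Circle.exp (π * s), (kfc s).1) = (Circle.exp (2 * π * s), 5) := by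
    refine Prod.ext ?_ ?_
    · simp only [kP, ← Circle.exp_natCast_mul, mul_assoc, Nat.cast_ofNat]
    · simp only [kP, kfc]
      field_simp
  refine Subtype.ext ?_
  change kNa (cV (kP (Circle.exp (π * s), (kfc s).1))) = kDa (Circle.exp (2 * π * s))
  rw [e, kDa, Circle.norm_coe, one_pow]
  rfl

theorem kE_mer (s : ℝ) : kE (1, Circle.exp (2 * π * s)) = kxi (kcyl (s, 0)) := by
  have h := kE_xi 0 (Circle.exp (2 * π * s))
  rw [mul_zero, Circle.exp_zero, Circle.coe_one, inv_one, one_pow, one_mul, kk_circ, mul_zero] at h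
  exact h

theorem kE_lon (s : ℝ) : kE (Circle.exp (2 * π * s), 1) = kxi (kcyl (-6 * s, 2 * s)) := by
  have h := Circle.exp_natCast_mul (2 * π * s) 6
  have e : (Circle.exp (2 * π * s) : ℂ)⁻¹ ^ 6 * 1 = Circle.exp (2 * π * (-6 * s)) := by
    rw [show 2 * π * (-6 * s) = -(((6 : ℕ) : ℝ) * (2 * π * s)) by push_cast; ring, Circle.exp_neg, h]
    simp
  rw [kE_xi, e, kk_circ]
  rfl

theorem kD_C {z : ℂ} (hz : ‖z‖ ≤ 1) : (kD z).1 ∈ kU :=
  (kC_mem (L := ∅) (t := 0) (by linarith [(abs_le.1 ((Complex.abs_re_le_norm z).trans hz)).1])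
    fun e => e.elim).1.1

theorem k_core : (range fun θ => kE (θ, 0)) ⊆ (XK kE)ᶜ := by
  rintro _ ⟨θ, rfl⟩ h
  exact h ⟨_, by simp, rfl⟩

theorem k_box : Box Subtype.val (range fun θ => kE (θ, 0)) (kxi ∘ kD) (kxi ∘ kbz) where
  cD := kxi_cont.comp kD_cont
  cb := kxi_cont.comp kbz_cont
  per t := by
    simp only [Function.comp, kbz, mul_add, mul_one, cos_add_two_pi]
    rw [show 2 * (2 * π) = 2 * π + 2 * π by ring, ← add_assoc, sin_add_two_pi, sin_add_two_pi]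
  zero := by simp [kbz, kD]
  ne t ht e := by
    have h := congrArg Complex.re ((kxi_eq e).2.1 rfl)
    rw [kbz_re, kbz_re, mul_zero, cos_zero] at h
    have h1 := (cos_eq_one_iff_of_lt_of_lt (x := 2 * π * t) (by nlinarith [pi_pos, ht.1])
      (by nlinarith [pi_pos, ht.2])).1 (by linarith)
    nlinarith [pi_pos, ht.1]
  bK t e := k_core e (kxi_XK (kΓ_U (kbz_mem t)))
  DK z hz e := k_core e (kxi_XK (kD_C hz))
  Db z hz h0 := by
    have h1 := abs_le.1 ((Complex.abs_re_le_norm z).trans hz)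
    have h2 := abs_le.1 ((Complex.abs_im_le_norm z).trans hz)
    refine (kxi_free (kD_C hz) fun h h' => h0 ?_).2
    have h3 : 1 / 2 + z.im / 4 = 1 / 2 := kL_half _ h (by linarith) (by linarith)
    have h4 : 81 * (0 : ℝ) ^ 2 = 4 * (3 + z.re / 4) ^ 2 * (9 - (3 + z.re / 4) ^ 2) := h'
    have h5 : 0 < 3 + z.re / 4 := by linarith
    have h6 : 9 - (3 + z.re / 4) ^ 2 = 0 := by
      refine (mul_eq_zero.1 ?_).resolve_left (by positivity : 4 * (3 + z.re / 4) ^ 2 ≠ 0)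
      rw [← h4]
      norm_num
    exact Complex.ext (by rw [Complex.zero_re]; nlinarith) (by rw [Complex.zero_im]; linarith)
  tv := by
    refine KTv.map (D := kD) (β := kbz) ?_ (by simp [kbz, kD]) (kxi_imm _)
    have h1 : HasFDerivAt kD _ 0 := (Complex.ofRealCLM.hasFDerivAt.comp 0
      ((Complex.reCLM.hasFDerivAt.mul_const 4⁻¹).const_add 3)).prodMk
      ((Complex.imCLM.hasFDerivAt.mul_const 4⁻¹).const_add (1 / 2))
    have h2 : HasDerivAt (fun s : ℝ => 2 * π * s) _ 0 := (hasDerivAt_id 0).const_mul _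
    have h3 : HasDerivAt kbz _ 0 := ((h2.cos.const_mul 3).ofReal_comp.add
      ((h2.const_mul 2).sin.ofReal_comp.mul_const Complex.I)).prodMk (hasDerivAt_const 0 _)
    refine ⟨_, _, h1, h3, fun z a e => ?_⟩
    have e1 := congrArg (fun p => p.1.re) e
    have e2 := congrArg (fun p => p.1.im) e
    have e3 := congrArg Prod.snd e
    exact ⟨Complex.ext (by simpa using e1) (by simpa using e3), by simpa [pi_ne_zero] using e2⟩

end Aux

theorem kside : ∃ e : C(Circle × ℂ, S3), Topology.IsOpenEmbedding e ∧ Seifert e ∧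
    (∀ (K : Set (Circle × ℂ)) (D : ℂ → Circle × ℂ) (β : ℝ → Circle × ℂ), Box cV K D β →
      (D 0).2 ≠ 0 → Box Subtype.val (e '' K) (e ∘ D) (e ∘ β)) ∧
    ∃ (σ : ℝ → S3) (D : ℂ → S3) (β : ℝ → S3), Lp (XK e \ range β) (e (1, 1)) σ ∧
      (∀ θ : Circle, e (1, θ) ∉ range β) ∧ (∀ z, ‖z‖ ≤ 1 → D z ∈ XK e) ∧ (∀ t, β t ∈ XK e) ∧
      Box Subtype.val (range fun θ => e (θ, 0)) D β ∧
      (∀ (G : Type) [Group G] (ψ : S3 → S3 → G), Fl ψ (XK e) →
        Br (hol ψ (e ∘ mV)) (hol ψ σ) ∧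
        (hol ψ (e ∘ lV) = lw (hol ψ (e ∘ mV)) (hol ψ σ) ∨
          hol ψ (e ∘ lV) = (lw (hol ψ (e ∘ mV)) (hol ψ σ))⁻¹) ∧
        (hol ψ σ = hol ψ (e ∘ mV) → hol ψ β = 1)) ∧
      ∀ (N : Type) [AddCommGroup N] [Module (ZMod 2) N] (ρ : Representation (ZMod 2) MZ N)
        (ψ : S3 → S3 → SD ρ), Fl ψ (XK e \ range β) → ∀ m n ξ, m = hol ψ (e ∘ mV) →
        n = hol ψ (circ fun θ => D θ) → ξ = (hol ψ σ * m⁻¹).v → n.g = 1 →
        ∃ γ, ρ (m.g * m.g) ξ - ρ m.g ξ + ξ = ρ m.g (ρ γ n.v) - ρ γ n.v := by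
  obtain ⟨σ, hσ, Hσ⟩ := k_sigma kL_per kL_zero
  have em : kE ∘ mV = kxi ∘ fun s => kcyl (s, 0) := funext kE_mer
  have el : kE ∘ lV = kxi ∘ kcyl ∘ fun s => (-6 * s, 2 * s) := funext kE_lon
  have e0 : kxi (kcyl (0, 0)) = kE (1, 1) := by simpa using (kE_mer 0).symm
  have hT : ∀ {G : Type} (ψ : S3 → S3 → G), pb kT (pb kxi ψ) = pb kxi ψ := fun ψ => by
    ext p q
    simp only [pb, kxi_T]
  have hD : ∀ z, ‖z‖ ≤ 1 → (kxi ∘ kD) z ∈ XK kE := fun z hz => kxi_XK (kD_C hz)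
  have H : ∀ (G : Type) [Group G] (ψ : S3 → S3 → G), Fl ψ (XK kE) →
      Br (hol ψ (kE ∘ mV)) (hol ψ (kxi ∘ σ)) ∧
      hol ψ (kE ∘ lV) = lw (hol ψ (kE ∘ mV)) (hol ψ (kxi ∘ σ)) ∧
      (hol ψ (kxi ∘ σ) = hol ψ (kE ∘ mV) → hol ψ (kxi ∘ kbz) = 1) := by
    intro G _ ψ hψ
    have hf := k_fill (hψ.mono sdiff_subset)
    obtain ⟨B, b, c, μ, h⟩ := k_dat (L := ∅)
      (hψ.pb kxi_cont.continuousOn (mapsTo_preimage _ _)) (fun p hp => kxi_XK hp.1) (hT ψ)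
      (fun _ => Iff.rfl) fun e => e
    have hs := Hσ h (empty_subset _)
    obtain ⟨g, hg⟩ := h.rel hf (fun q => (kcyl_free q).1) (fun p hp => (kR_free hp).1)
      (fun _ e => e.elim) rfl hs
    have hn : hol (pb kxi ψ) (circ fun θ => kD θ) = 1 :=
      hol_disc hψ (D := kxi ∘ kD) (kxi_cont.comp kD_cont).continuousOn hD
    rw [em, el, ← hol_pb, ← hol_pb, ← hol_pb, ← hol_pb]
    have hb : Br (hol (pb kxi ψ) fun s => kcyl (s, 0)) (hol (pb kxi ψ) σ) := by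
      rw [hn, mul_one, mul_inv_cancel, one_mul, inv_one, mul_one, mul_inv_eq_iff_eq_mul,
        mul_inv_eq_iff_eq_mul] at hg
      exact hg.symm
    refine ⟨hb, (h.long hf rfl hs).trans (k_lw hb), fun e => h.eight ?_⟩
    rw [hs, h.mer0] at e
    exact mul_left_cancel (mul_right_cancel e)
  refine ⟨kE, kE_emb, fun f hf => ?_, fun K D β h _ => kE_box K D β h, kxi ∘ σ, kxi ∘ kD, kxi ∘ kbz,
    ⟨⟨kxi_cont.comp hσ.1.1, fun t => kF_free (hσ.1.2 t)⟩, (congrArg kxi hσ.2.1).trans e0,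
      (congrArg kxi hσ.2.2).trans e0⟩, fun θ => ?_, hD, fun t => kxi_XK (kΓ_U (kbz_mem t)), k_box,
    fun G _ ψ hψ => ⟨(H G ψ hψ).1, Or.inl (H G ψ hψ).2.1, (H G ψ hψ).2.2⟩,
    fun N _ _ ρ ψ hψ m n ξ hm hn hξ h1 => ?_⟩
  · obtain ⟨h1, h2, -⟩ := H _ _ (k_arg_fl (hf.mono (subset_compl_comm.1 k_core)))
    rw [k_lw_comm h1] at h2
    refine k_lift (F := fun θ => f (kE (θ, 1))) (hf.comp_continuous (by fun_prop) fun θ => ?_) h2
    rintro ⟨θ', e⟩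
    simpa using congrArg Prod.snd (kE_inj e)
  · obtain ⟨s, rfl⟩ := k_surj θ
    rw [kE_mer]
    exact (kcyl_free _).2
  · obtain ⟨B, b, c, μ, h⟩ := k_dat (L := kL)
      (hψ.pb kxi_cont.continuousOn (mapsTo_preimage _ _)) (fun p hp => kF_free hp) (hT ψ)
      kL_per kL_zero
    rw [em, ← hol_pb] at hm
    obtain ⟨g, hg⟩ := h.rel (k_fill hψ) kcyl_free (fun p hp => kR_free hp) kL_half hm
      (Hσ h Subset.rfl)
    have hn' : hol (pb kxi ψ) (circ fun θ => kD θ) = n := hn.symm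
    rw [hn'] at hg
    rw [hξ]
    exact k_fox hg h1

end Pool.Agent.MP_b8a826_gt

end
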