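import Pool.Agent.MP_b8a826_gt.Chain
import Pool.Agent.MP_a5f24b_gt.Flat
import Pool.Agent.MP_b8a826_gt.Defs

-- part MP_b8a826_gt.Cov
section

/-! Chains of small affine simplices in a covering given by a group-valued cocycle. -/

namespace Pool.Agent.MP_b8a826_gt
open Set

variable {E : Type} [NormedAddCommGroup E] [NormedSpace ℝ E] {G : Type} [Group G]
  {R : Type} [CommRing R]

/-- Cocycle on the affine triangles inside `U`. -/
def Coc (U : Set E) (φ : E → E → G) : Prop :=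
  ∀ x y z, convexHull ℝ {x, y, z} ⊆ U → φ x y * φ y z = φ x z

/-- Admissible vertex sets upstairs: the hull downstairs satisfies `g`, the labels match. -/
def Ad (φ : E → E → G) (g : Set E → Prop) (s : Set (E × G)) : Prop :=
  g (convexHull ℝ (Prod.fst '' s)) ∧ ∀ v ∈ s, ∀ w ∈ s, w.2 = v.2 * φ v.1 w.1

/-- Chains (lists of length `n`) of the covering over `U`. -/
abbrev CC (R : Type) [CommRing R] (φ : E → E → G) (U : Set E) (n : ℕ) :
    Submodule R (Ch R (E × G)) := C R (Ad φ (· ⊆ U)) n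

/-- The trivial cocycle. -/
def φ1 : E → E → Unit := fun _ _ => 1

/-- Chains of `U` itself. -/
abbrev CB (R : Type) [CommRing R] (U : Set E) (n : ℕ) : Submodule R (Ch R (E × Unit)) :=
  CC R φ1 U n

/-- Deck transformations. -/
noncomputable def act (γ : G) : Ch R (E × G) →ₗ[R] Ch R (E × G) := mp fun v => (v.1, γ * v.2)

/-- Deck transformations as a representation. -/
noncomputable def rho (R E G : Type) [CommRing R] [Group G] :
    Representation R G (Ch R (E × G)) where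
  toFun γ := mp fun v => (v.1, γ * v.2)
  map_one' := LinearMap.ext fun c => by
    simp only [one_mul]; exact mp_id c
  map_mul' a b := LinearMap.ext fun c => by
    simp [mp_mp, Function.comp_def, mul_assoc]

omit [NormedAddCommGroup E] [NormedSpace ℝ E] in
theorem rho_apply (γ : G) (c : Ch R (E × G)) : rho R E G γ c = act γ c := rfl

omit [NormedAddCommGroup E] [NormedSpace ℝ E] in
theorem bd_act (γ : G) (c : Ch R (E × G)) : bd (act γ c) = act γ (bd c) := bd_mp _ _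

omit [NormedAddCommGroup E] [NormedSpace ℝ E] in
theorem act_one (c : Ch R (E × G)) : act (1 : G) c = c := by
  simp only [act, one_mul]; exact mp_id c

omit [NormedAddCommGroup E] [NormedSpace ℝ E] in
theorem act_mul (a b : G) (c : Ch R (E × G)) : act (a * b) c = act a (act b c) := by
  simp [act, mp_mp, Function.comp_def, mul_assoc]

theorem coc_one (U : Set E) : Coc U φ1 := fun _ _ _ _ => rfl

theorem Coc.mono {U U' : Set E} {φ : E → E → G} (h : Coc U φ) (h' : U' ⊆ U) : Coc U' φ :=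
  fun x y z hz => h x y z (hz.trans h')

theorem Coc.map {G' : Type} [Group G'] {U : Set E} {φ : E → E → G} (h : Coc U φ) (k : G →* G') :
    Coc U fun x y => k (φ x y) := fun x y z hz => by rw [← map_mul, h x y z hz]

theorem Coc.self {U : Set E} {φ : E → E → G} (h : Coc U φ) {x : E} (hx : x ∈ U) : φ x x = 1 := by
  simpa using h x x x (by simpa using hx)

theorem Coc.symm {U : Set E} {φ : E → E → G} (h : Coc U φ) {x y : E} (hx : segment ℝ x y ⊆ U) :
    φ y x = (φ x y)⁻¹ := by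
  have e : ({x, y, x} : Set E) = {x, y} := by ext; simp; tauto
  have := h x y x (by rwa [e, convexHull_pair])
  rw [h.self (hx (left_mem_segment ℝ x y))] at this
  exact (inv_eq_of_mul_eq_one_right this).symm

omit [NormedAddCommGroup E] [NormedSpace ℝ E] in
theorem her_sub (U : Set E) : Her (· ⊆ U) := fun _ _ h h' => h.trans h'

theorem her_Ad {φ : E → E → G} {g : Set E → Prop} (hg : Her g) : Her (Ad φ g) :=
  fun _ _ h h' => ⟨hg _ _ (convexHull_mono (image_mono h)) h'.1,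
    fun v hv w hw => h'.2 v (h hv) w (h hw)⟩

theorem Ad.mono {φ : E → E → G} {g g' : Set E → Prop} (h : ∀ s, g s → g' s) (s : Set (E × G))
    (hs : Ad φ g s) : Ad φ g' s := ⟨h _ hs.1, hs.2⟩

theorem CC_mono {φ : E → E → G} {U U' : Set E} (h : U ⊆ U') {n : ℕ} {c : Ch R (E × G)}
    (hc : c ∈ CC R φ U n) : c ∈ CC R φ U' n :=
  C_mono (Ad.mono fun _ hs => hs.trans h) hc

theorem bd_CC {φ : E → E → G} {U : Set E} {n : ℕ} {c : Ch R (E × G)}
    (hc : c ∈ CC R φ U (n + 1)) : bd c ∈ CC R φ U n := bd_mem (her_Ad (her_sub U)) hc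

theorem act_mem {φ : E → E → G} {g : Set E → Prop} {n : ℕ} (γ : G) {c : Ch R (E × G)}
    (hc : c ∈ C R (Ad φ g) n) : act γ c ∈ C R (Ad φ g) n := by
  refine mp_mem (fun s hs => ⟨?_, ?_⟩) hc
  · rw [image_image]; exact hs.1
  · rintro _ ⟨v, hv, rfl⟩ _ ⟨w, hw, rfl⟩
    simp only [mul_assoc, ← hs.2 v hv w hw]

theorem rho_mem {φ : E → E → G} {g : Set E → Prop} {n : ℕ} (r : MonoidAlgebra R G)
    {c : Ch R (E × G)} (hc : c ∈ C R (Ad φ g) n) :
    (rho R E G).asAlgebraHom r c ∈ C R (Ad φ g) n := by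
  induction r using MonoidAlgebra.induction_linear with
  | zero => simp
  | add a b h1 h2 => simpa using add_mem h1 h2
  | single γ r =>
    rw [Representation.asAlgebraHom_single]
    exact Submodule.smul_mem _ r (act_mem γ hc)

omit [NormedAddCommGroup E] [NormedSpace ℝ E] in
theorem bd_rho (r : MonoidAlgebra R G) (c : Ch R (E × G)) :
    bd ((rho R E G).asAlgebraHom r c) = (rho R E G).asAlgebraHom r (bd c) := by
  induction r using MonoidAlgebra.induction_linear with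
  | zero => simp
  | add a b h1 h2 => simp [h1, h2]
  | single γ r => simp [rho_apply, bd_act]

/-- All subsets of some ball about `x` satisfy `g`. -/
def Loc (g : Set E → Prop) (x : E) : Prop := ∃ ε > 0, ∀ s ⊆ Metric.ball x ε, g s

/-- Integral cycles of length `n` bound. -/
def Acyc (U : Set E) (n : ℕ) : Prop :=
  ∀ z ∈ CB ℤ U n, bd z = 0 → ∃ v ∈ CB ℤ U (n + 1), bd v = z

/-- Evaluation of an integral cocycle on one-chains. -/
noncomputable def wt (τ : E → E → Multiplicative ℤ) : Ch ℤ (E × Unit) →ₗ[ℤ] ℤ :=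
  ev fun l => match l with
    | [x, y] => (τ x.1 y.1).toAdd
    | _ => 0

/-- The cocycle `τ` identifies the first homology with the integers. -/
def H1 (U : Set E) (τ : E → E → Multiplicative ℤ) : Prop :=
  (∀ z ∈ CB ℤ U 2, bd z = 0 → wt τ z = 0 → ∃ v ∈ CB ℤ U 3, bd v = z) ∧
    ∃ z ∈ CB ℤ U 2, bd z = 0 ∧ wt τ z = 1

/-- `U` deforms into a compact subset. -/
def FD (U : Set E) : Prop :=
  ∃ K, IsCompact K ∧ K ⊆ U ∧ ∃ H : ℝ × E → E, ContinuousOn H (Icc 0 1 ×ˢ U) ∧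
    MapsTo H (Icc 0 1 ×ˢ U) U ∧ ∀ x ∈ U, H (0, x) = x ∧ H (1, x) ∈ K

/-- A finitely dominated open homology circle (up to degree two). -/
structure Good (U : Set E) : Prop where
  op : IsOpen U
  conn : IsPreconnected U
  h2 : Acyc U 3
  h1 : ∃ τ, Coc U τ ∧ H1 U τ
  fd : FD U

/-- `Δ` annihilates the second homology of the covering. -/
def Kills (Δ : MonoidAlgebra R G) (φ : E → E → G) (U : Set E) : Prop :=
  ∀ z ∈ CC R φ U 3, bd z = 0 → ∃ v ∈ CC R φ U 4, bd v = (rho R E G).asAlgebraHom Δ z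

end Pool.Agent.MP_b8a826_gt

end

-- part MP_b8a826_gt.Hol
section

/-! Flat cocycles, trivialisations, transport and holonomy. -/

namespace Pool.Agent.MP_b8a826_gt
open Set Filter Topology

variable {G G' : Type} [Group G] [Group G'] {X Y : Type} [TopologicalSpace X] [TopologicalSpace Y]

/-- `ψ` satisfies the cocycle identity locally within `U`. -/
def Fl (ψ : X → X → G) (U : Set X) : Prop :=
  ∀ x ∈ U, ∃ N ∈ 𝓝[U] x, ∀ a ∈ N, ∀ b ∈ N, ∀ c ∈ N, ψ a b * ψ b c = ψ a c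

/-- Pull-back of a cocycle. -/
def pb (f : Y → X) (ψ : X → X → G) : Y → Y → G := fun p q => ψ (f p) (f q)

/-- `B` trivialises `ψ` on `D`. -/
def Triv (ψ : X → X → G) (D : Set X) (B : X → G) : Prop :=
  ∀ x ∈ D, ∀ᶠ a in 𝓝[D] x, ψ x a = (B x)⁻¹ * B a

open Classical in
/-- Transport from `p` to `q` inside a set on which `ψ` is trivial. -/
noncomputable def tr (ψ : X → X → G) (D : Set X) (p q : X) : G :=
  if h : ∃ B, Triv ψ D B then (h.choose p)⁻¹ * h.choose q else 1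

/-- Holonomy along the part `[0,1]` of a curve. -/
noncomputable def hol (ψ : X → X → G) (c : ℝ → X) : G := tr (pb c ψ) univ 0 1

/-- A map of the circle as a periodic curve. -/
noncomputable def circ (f : Circle → X) : ℝ → X := fun t => f (Circle.exp (2 * Real.pi * t))

/-- A curve in `U`. -/
def Cv (U : Set X) (c : ℝ → X) : Prop := Continuous c ∧ ∀ t, c t ∈ U

/-- A loop in `U` based at `p`. -/
def Lp (U : Set X) (p : X) (c : ℝ → X) : Prop := Cv U c ∧ c 0 = p ∧ c 1 = p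

/-- Locally within `U`, `ψ'` is the gauge transform of `ψ` by `a`. -/
def Gau (ψ ψ' : X → X → G) (a : X → G) (U : Set X) : Prop :=
  ∀ x ∈ U, ∀ᶠ y in 𝓝[U] x, ψ' x y = (a x)⁻¹ * ψ x y * a y

theorem Fl.mono {ψ : X → X → G} {U V : Set X} (h : Fl ψ U) (hV : V ⊆ U) : Fl ψ V :=
  fun x hx => let ⟨N, hN, h'⟩ := h x (hV hx); ⟨N, nhdsWithin_mono _ hV hN, h'⟩

theorem Fl.pb {ψ : X → X → G} {U : Set X} {D : Set Y} {f : Y → X} (h : Fl ψ U)
    (hf : ContinuousOn f D) (hm : MapsTo f D U) : Fl (pb f ψ) D := fun x hx => by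
  obtain ⟨N, hN, h'⟩ := h _ (hm hx)
  exact ⟨f ⁻¹' N, ((hf x hx).tendsto_nhdsWithin hm) hN, fun a ha b hb c hc => h' _ ha _ hb _ hc⟩

theorem Fl.map {ψ : X → X → G} {U : Set X} (h : Fl ψ U) (k : G →* G') :
    Fl (fun x y => k (ψ x y)) U := fun x hx => by
  obtain ⟨N, hN, h'⟩ := h x hx
  exact ⟨N, hN, fun a ha b hb c hc => by rw [← map_mul, h' a ha b hb c hc]⟩

theorem Fl.self {ψ : X → X → G} {U : Set X} (h : Fl ψ U) {x : X} (hx : x ∈ U) : ψ x x = 1 := by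
  obtain ⟨N, hN, h'⟩ := h x hx
  have := mem_of_mem_nhdsWithin hx hN
  simpa using h' x this x this x this

theorem Triv.mono {ψ : X → X → G} {D D' : Set X} {B : X → G} (h : Triv ψ D B) (hD : D' ⊆ D) :
    Triv ψ D' B := fun x hx => (h x (hD hx)).filter_mono (nhdsWithin_mono _ hD)

theorem Triv.pb {ψ : X → X → G} {D : Set X} {D' : Set Y} {B : X → G} {f : Y → X} (h : Triv ψ D B)
    (hf : ContinuousOn f D') (hm : MapsTo f D' D) : Triv (pb f ψ) D' (B ∘ f) := fun x hx =>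
  ((hf x hx).tendsto_nhdsWithin hm).eventually (h _ (hm hx))

theorem Triv.map {ψ : X → X → G} {D : Set X} {B : X → G} (h : Triv ψ D B) (k : G →* G') :
    Triv (fun x y => k (ψ x y)) D fun x => k (B x) := fun x hx =>
  (h x hx).mono fun a ha => by simp [ha]

theorem Triv.mul {ψ : X → X → G} {D : Set X} {B : X → G} (h : Triv ψ D B) (g : G) :
    Triv ψ D fun x => g * B x := fun x hx => (h x hx).mono fun a ha => by rw [ha]; group

theorem Triv.gauge {ψ ψ' : X → X → G} {D : Set X} {B a : X → G} (h : Triv ψ D B)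
    (ha : Gau ψ ψ' a D) : Triv ψ' D fun x => B x * a x := fun x hx => by
  filter_upwards [h x hx, ha x hx] with y h1 h2
  rw [h2, h1]; group

/-- Two trivialisations differ by a constant on a preconnected set. -/
theorem Triv.uniq {ψ : X → X → G} {D : Set X} {B B' : X → G} (h : Triv ψ D B) (h' : Triv ψ D B')
    (hD : IsPreconnected D) {x y : X} (hx : x ∈ D) (hy : y ∈ D) :
    B x * (B' x)⁻¹ = B y * (B' y)⁻¹ := by
  refine MP_a5f24b_gt.const_of_loc (F := fun x => B x * (B' x)⁻¹) hD (fun w hw => ?_) hx hy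
  filter_upwards [h w hw, h' w hw] with u h1 h2
  have : B u = B w * ((B' w)⁻¹ * B' u) := by rw [← h2, h1]; group
  rw [this]; group

theorem Triv.two {ψ : X → X → G} {D : Set X} {B : X → G} (h : Triv ψ D B) (hf : Fl ψ D) {x : X}
    (hx : x ∈ D) : ∃ N ∈ 𝓝[D] x, ∀ a ∈ N, ∀ b ∈ N, ψ a b = (B a)⁻¹ * B b := by
  obtain ⟨N, hN, h'⟩ := hf x hx
  refine ⟨_, inter_mem hN (h x hx), fun a ha b hb => ?_⟩
  have := h' x (mem_of_mem_nhdsWithin hx hN) a ha.1 b hb.1
  rw [ha.2, hb.2] at this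
  rw [eq_inv_mul_of_mul_eq this]; group

theorem tr_eq {ψ : X → X → G} {D : Set X} {B : X → G} (h : Triv ψ D B) (hD : IsPreconnected D)
    {p q : X} (hp : p ∈ D) (hq : q ∈ D) : tr ψ D p q = (B p)⁻¹ * B q := by
  have h0 : ∃ B, Triv ψ D B := ⟨B, h⟩
  rw [tr, dif_pos h0]
  have := h0.choose_spec.uniq h hD hp hq
  rw [eq_mul_inv_iff_mul_eq] at this
  rw [← this]; group

theorem tr_mul (ψ : X → X → G) (D : Set X) (p q r : X) :
    tr ψ D p q * tr ψ D q r = tr ψ D p r := by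
  unfold tr; split_ifs <;> group

theorem tr_self (ψ : X → X → G) (D : Set X) (p : X) : tr ψ D p p = 1 := by
  unfold tr; split_ifs <;> group

theorem tr_inv (ψ : X → X → G) (D : Set X) (p q : X) : (tr ψ D p q)⁻¹ = tr ψ D q p := by
  rw [inv_eq_iff_mul_eq_one, tr_mul, tr_self]

theorem Fl.flatAt {ψ : X → X → G} (h : Fl ψ univ) (x : X) :
    MP_a5f24b_gt.FlatAt (fun w u => (ψ w u)⁻¹) x := by
  obtain ⟨N, hN, h'⟩ := h x trivial
  rw [nhdsWithin_univ] at hN
  filter_upwards [eventually_mem_nhds_iff.2 hN] with v hv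
  filter_upwards [hv] with u hu
  rw [← h' x (mem_of_mem_nhds hN) v (mem_of_mem_nhds hv) u hu]; group

/-- A trivialisation is transported along a homotopy. -/
theorem triv_of_homotopy {ψ : X → X → G} {U : Set X} (h : Fl ψ U) {D : Set Y} {H : ℝ × Y → X}
    (hc : ContinuousOn H (Icc 0 1 ×ˢ D)) (hm : MapsTo H (Icc 0 1 ×ˢ D) U) {B₀ : Y → G}
    (h0 : Triv (pb (fun y => H (0, y)) ψ) D B₀) : ∃ B, Triv (pb (fun y => H (1, y)) ψ) D B := by
  classical
  let K : D × ℝ → ℝ × Y := fun w => (projIcc (0 : ℝ) 1 zero_le_one w.2, w.1)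
  have hK : Continuous K := by fun_prop
  have hK' : ∀ w, K w ∈ Icc (0 : ℝ) 1 ×ˢ D := fun w => ⟨Subtype.prop _, w.1.2⟩
  have hf : Fl (pb (H ∘ K) ψ) univ :=
    h.pb (hc.comp_continuous hK hK').continuousOn fun w _ => hm (hK' w)
  obtain ⟨b, hb⟩ := MP_a5f24b_gt.triv_prod hf.flatAt (b0 := fun y => (B₀ y)⁻¹) (fun y => by
    have := h0 y y.2
    rw [nhdsWithin_eq_map_subtype_coe y.2, eventually_map] at this
    filter_upwards [this] with y' hy
    simp only [pb] at hy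
    simp [pb, K, hy])
  refine ⟨fun y => if hy : y ∈ D then (b (⟨y, hy⟩, 1))⁻¹ else 1, fun y hy => ?_⟩
  rw [nhdsWithin_eq_map_subtype_coe hy, eventually_map]
  have h3 : ContinuousAt (fun y' : D => (y', (1 : ℝ))) ⟨y, hy⟩ := by fun_prop
  filter_upwards [h3.eventually (hb (⟨y, hy⟩, 1))] with y' hy'
  simp only [pb, K, Function.comp, projIcc_right] at hy'
  simp only [pb, dif_pos hy, dif_pos y'.2, Subtype.coe_eta]
  rw [inv_eq_iff_eq_inv.1 hy']; group

/-- A flat cocycle is trivial on a contractible set. -/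
theorem exists_triv {ψ : X → X → G} {D : Set X} (h : Fl ψ D) {H : ℝ × X → X} {x₀ : X}
    (hc : ContinuousOn H (Icc 0 1 ×ˢ D)) (hm : MapsTo H (Icc 0 1 ×ˢ D) D)
    (h0 : ∀ x ∈ D, H (0, x) = x₀) (h1 : ∀ x ∈ D, H (1, x) = x) : ∃ B, Triv ψ D B := by
  obtain ⟨B, hB⟩ := triv_of_homotopy h hc hm (B₀ := fun _ => 1) (fun x hx => by
    filter_upwards [self_mem_nhdsWithin] with a ha
    have : x₀ ∈ D := h0 x hx ▸ hm ⟨left_mem_Icc.2 zero_le_one, hx⟩
    simp [pb, h0 x hx, h0 a ha, h.self this])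
  refine ⟨B, fun x hx => ?_⟩
  filter_upwards [hB x hx, self_mem_nhdsWithin] with a ha ha'
  simpa [pb, h1 x hx, h1 a ha'] using ha

theorem exists_triv_star {E : Type} [NormedAddCommGroup E] [NormedSpace ℝ E] {ψ : E → E → G}
    {D : Set E} (h : Fl ψ D) {x₀ : E} (hD : StarConvex ℝ x₀ D) : ∃ B, Triv ψ D B :=
  exists_triv h (H := fun p => (1 - p.1) • x₀ + p.1 • p.2) (x₀ := x₀) (by fun_prop)
    (fun p hp => hD hp.2 (sub_nonneg.2 hp.1.2) hp.1.1 (by ring)) (by simp) (by simp)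

theorem exists_triv_convex {E : Type} [NormedAddCommGroup E] [NormedSpace ℝ E] {ψ : E → E → G}
    {D : Set E} (h : Fl ψ D) (hD : Convex ℝ D) : ∃ B, Triv ψ D B := by
  rcases D.eq_empty_or_nonempty with rfl | ⟨x, hx⟩
  · exact ⟨fun _ => 1, fun x hx => hx.elim⟩
  · exact exists_triv_star h (hD hx)

theorem Cv.triv {ψ : X → X → G} {U : Set X} (h : Fl ψ U) {c : ℝ → X} (hc : Cv U c) :
    ∃ B, Triv (pb c ψ) univ B :=
  exists_triv_convex (h.pb hc.1.continuousOn fun t _ => hc.2 t) convex_univ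

/-- Transport along an arc lying in a trivialised set. -/
theorem tr_arc {ψ : X → X → G} {U D : Set X} (h : Fl ψ U) {c : ℝ → X} (hc : Cv U c) {B : X → G}
    (hB : Triv ψ D B) {a b : ℝ} (hD : ∀ t ∈ uIcc a b, c t ∈ D) :
    tr (pb c ψ) univ a b = (B (c a))⁻¹ * B (c b) := by
  obtain ⟨B', hB'⟩ := hc.triv h
  rw [tr_eq hB' isPreconnected_univ trivial trivial]
  have := (hB'.mono (subset_univ _)).uniq (hB.pb hc.1.continuousOn hD) isPreconnected_uIcc
    left_mem_uIcc right_mem_uIcc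
  rw [eq_mul_inv_iff_mul_eq] at this
  rw [← this]; simp only [Function.comp]; group

theorem hol_triv {ψ : X → X → G} {U D : Set X} (h : Fl ψ U) {c : ℝ → X} (hc : Cv U c) {B : X → G}
    (hB : Triv ψ D B) (hD : ∀ t ∈ Icc (0 : ℝ) 1, c t ∈ D) :
    hol ψ c = (B (c 0))⁻¹ * B (c 1) := tr_arc h hc hB (by rwa [uIcc_of_le zero_le_one])

theorem hol_map {ψ : X → X → G} {U : Set X} (h : Fl ψ U) {c : ℝ → X} (hc : Cv U c) (k : G →* G') :
    hol (fun x y => k (ψ x y)) c = k (hol ψ c) := by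
  obtain ⟨B, hB⟩ := hc.triv h
  have := tr_eq (hB.map k) isPreconnected_univ (p := 0) (q := 1) trivial trivial
  rw [hol, hol, tr_eq hB isPreconnected_univ trivial trivial, map_mul, map_inv]
  exact this

theorem hol_gauge {ψ ψ' : X → X → G} {U : Set X} (h : Fl ψ U) {c : ℝ → X} (hc : Cv U c)
    {a : X → G} (ha : Gau ψ ψ' a U) : hol ψ' c = (a (c 0))⁻¹ * hol ψ c * a (c 1) := by
  obtain ⟨B, hB⟩ := hc.triv h
  have hg : Gau (pb c ψ) (pb c ψ') (a ∘ c) univ := fun t _ =>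
    ((hc.1.continuousOn t (mem_univ t)).tendsto_nhdsWithin fun s _ => hc.2 s).eventually (ha _ (hc.2 t))
  rw [hol, hol, tr_eq hB isPreconnected_univ trivial trivial,
    tr_eq (hB.gauge hg) isPreconnected_univ trivial trivial]
  simp only [Function.comp]; group

omit [TopologicalSpace X] [TopologicalSpace Y] in
theorem hol_pb (ψ : X → X → G) (f : Y → X) (c : ℝ → Y) : hol (pb f ψ) c = hol ψ (f ∘ c) := rfl

/-- Freely homotopic loops have conjugate holonomy; the conjugator is the track of the base. -/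
theorem hol_homotopy {ψ : X → X → G} {U : Set X} (h : Fl ψ U) {H : ℝ × ℝ → X} (hc : Continuous H)
    (hU : ∀ p, H p ∈ U) (hl : ∀ s, H (s, 0) = H (s, 1)) :
    hol ψ (fun t => H (0, t)) * hol ψ (fun s => H (s, 0)) =
      hol ψ (fun s => H (s, 0)) * hol ψ fun t => H (1, t) := by
  obtain ⟨B, hB⟩ := exists_triv_convex (h.pb hc.continuousOn fun p _ => hU p) convex_univ
  have hf := h.pb hc.continuousOn fun p (_ : p ∈ univ) => hU p
  have e : ∀ c : ℝ → ℝ × ℝ, Continuous c → hol ψ (H ∘ c) = (B (c 0))⁻¹ * B (c 1) :=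
    fun c hc => hol_triv hf ⟨hc, fun _ => trivial⟩ hB fun _ _ => trivial
  have e0 := e (fun t => (0, t)) (by fun_prop)
  have e1 := e (fun t => (1, t)) (by fun_prop)
  have e2 := e (fun s => (s, 0)) (by fun_prop)
  have e3 := e (fun s => (s, 1)) (by fun_prop)
  simp only [Function.comp_def] at e0 e1 e2 e3
  rw [e0, e1]
  nth_rewrite 1 [show (fun s => H (s, 0)) = fun s => H (s, 1) from funext hl]
  rw [e2, e3]; group

theorem isConj_of_homotopy {ψ : X → X → G} {U : Set X} (h : Fl ψ U) {H : ℝ × ℝ → X}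
    (hc : Continuous H) (hU : ∀ p, H p ∈ U) (hl : ∀ s, H (s, 0) = H (s, 1)) :
    IsConj (hol ψ fun t => H (0, t)) (hol ψ fun t => H (1, t)) := by
  have := hol_homotopy h hc hU hl
  refine isConj_iff.2 ⟨(hol ψ fun s => H (s, 0))⁻¹, ?_⟩
  rw [mul_assoc, inv_inv, this]; group

theorem circ_cont {f : Circle → X} (hf : Continuous f) : Continuous (circ f) := by
  unfold circ; fun_prop

omit [TopologicalSpace X] in
theorem circ_zero (f : Circle → X) : circ f 0 = f 1 := by simp [circ]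

omit [TopologicalSpace X] in
theorem circ_one (f : Circle → X) : circ f 1 = f 1 := by simp [circ]

theorem circ_lp {f : Circle → X} (hf : Continuous f) {U : Set X} (hU : ∀ θ, f θ ∈ U) :
    Lp U (f 1) (circ f) := ⟨⟨circ_cont hf, fun _ => hU _⟩, circ_zero f, circ_one f⟩

/-- Reparametrisation. -/
theorem tr_reparam {ψ : X → X → G} {U : Set X} (h : Fl ψ U) {c : ℝ → X} (hc : Cv U c) {k : ℝ → ℝ}
    (hk : Continuous k) (a b : ℝ) :
    tr (pb (c ∘ k) ψ) univ a b = tr (pb c ψ) univ (k a) (k b) := by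
  obtain ⟨B, hB⟩ := hc.triv h
  rw [tr_eq hB isPreconnected_univ trivial trivial]
  exact tr_eq (hB.pb hk.continuousOn (mapsTo_univ _ univ)) isPreconnected_univ trivial trivial

/-- Transport depends only on the arc. -/
theorem tr_congr {ψ : X → X → G} {U : Set X} (h : Fl ψ U) {c c' : ℝ → X} (hc : Cv U c)
    (hc' : Cv U c') {a b : ℝ} (he : ∀ t ∈ uIcc a b, c t = c' t) :
    tr (pb c ψ) univ a b = tr (pb c' ψ) univ a b := by
  obtain ⟨B, hB⟩ := hc.triv h
  obtain ⟨B', hB'⟩ := hc'.triv h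
  have h2 : Triv (pb c ψ) (uIcc a b) B' := fun t ht => by
    filter_upwards [hB'.mono (subset_univ _) t ht, self_mem_nhdsWithin] with s hs hs'
    rw [← hs, pb, pb, he t ht, he s hs']
  have := (hB.mono (subset_univ _)).uniq h2 isPreconnected_uIcc left_mem_uIcc right_mem_uIcc
  rw [tr_eq hB isPreconnected_univ trivial trivial, tr_eq hB' isPreconnected_univ trivial trivial]
  rw [eq_mul_inv_iff_mul_eq] at this
  rw [← this]; group

/-- Concatenation of curves. -/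
noncomputable def cat (c d : ℝ → X) : ℝ → X := fun t => if t ≤ 1 / 2 then c (2 * t) else d (2 * t - 1)

/-- The reverse curve. -/
def rev (c : ℝ → X) : ℝ → X := fun t => c (1 - t)

omit [TopologicalSpace X] in
theorem cat_zero (c d : ℝ → X) : cat c d 0 = c 0 := by simp [cat]

omit [TopologicalSpace X] in
theorem cat_one (c d : ℝ → X) : cat c d 1 = d 1 := by norm_num [cat]

theorem Cv.cat {U : Set X} {c d : ℝ → X} (hc : Cv U c) (hd : Cv U d) (e : c 1 = d 0) :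
    Cv U (cat c d) := by
  refine ⟨Continuous.if_le (hc.1.comp (by fun_prop)) (hd.1.comp (by fun_prop)) continuous_id
    continuous_const (fun t ht => ?_), fun t => ?_⟩
  · have : t = 1 / 2 := ht
    subst this; norm_num [e]
  · unfold MP_b8a826_gt.cat; split_ifs
    exacts [hc.2 _, hd.2 _]

theorem Cv.rev {U : Set X} {c : ℝ → X} (hc : Cv U c) : Cv U (rev c) :=
  ⟨hc.1.comp (by fun_prop), fun _ => hc.2 _⟩

theorem Cv.mono {U V : Set X} {c : ℝ → X} (hc : Cv U c) (h : U ⊆ V) : Cv V c :=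
  ⟨hc.1, fun t => h (hc.2 t)⟩

theorem hol_cat {ψ : X → X → G} {U : Set X} (h : Fl ψ U) {c d : ℝ → X} (hc : Cv U c) (hd : Cv U d)
    (e : c 1 = d 0) : hol ψ (cat c d) = hol ψ c * hol ψ d := by
  have h1 : Cv U (c ∘ fun t => 2 * t) := ⟨hc.1.comp (by fun_prop), fun _ => hc.2 _⟩
  have h2 : Cv U (d ∘ fun t => 2 * t - 1) := ⟨hd.1.comp (by fun_prop), fun _ => hd.2 _⟩
  rw [hol, ← tr_mul _ _ 0 (1 / 2) 1, tr_congr h (hc.cat hd e) h1 (a := 0),
    tr_congr h (hc.cat hd e) h2 (b := 1), tr_reparam h hc (by fun_prop),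
    tr_reparam h hd (by fun_prop)]
  · norm_num [hol]
  · intro t ht
    rw [uIcc_of_le (by norm_num)] at ht
    rcases ht.1.eq_or_lt with rfl | h'
    · norm_num [MP_b8a826_gt.cat, e]
    · simp only [MP_b8a826_gt.cat, if_neg (not_le.2 h'), Function.comp]
  · intro t ht
    rw [uIcc_of_le (by norm_num)] at ht
    simp only [MP_b8a826_gt.cat, if_pos ht.2, Function.comp]

theorem hol_rev {ψ : X → X → G} {U : Set X} (h : Fl ψ U) {c : ℝ → X} (hc : Cv U c) :
    hol ψ (rev c) = (hol ψ c)⁻¹ := by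
  have := tr_reparam h hc (k := fun t => 1 - t) (by fun_prop) 0 1
  rw [hol, hol, tr_inv]
  simp only [sub_zero, sub_self] at this
  exact this

theorem exists_cv {D : Set X} {p q : X} (h : JoinedIn D p q) : ∃ c, Cv D c ∧ c 0 = p ∧ c 1 = q := by
  obtain ⟨γ, hγ⟩ := h
  refine ⟨γ.extend, ⟨γ.continuous_extend, fun t => ?_⟩, γ.extend_zero, γ.extend_one⟩
  obtain ⟨s, hs⟩ : γ.extend t ∈ range γ := γ.extend_range ▸ mem_range_self t
  exact hs ▸ hγ s

end Pool.Agent.MP_b8a826_gt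

end

-- part MP_b8a826_gt.Mag
section

/-! Semidirect products and the Magnus cocycle of a covering. -/

namespace Pool.Agent.MP_b8a826_gt
open Set Filter Topology

section SD
variable {R G N N' : Type} [CommRing R] [Group G] [AddCommGroup N] [Module R N]
  [AddCommGroup N'] [Module R N']

/-- The semidirect product of a representation with its group. -/
@[ext] structure SD (ρ : Representation R G N) where
  v : N
  g : G

variable {ρ : Representation R G N} {ρ' : Representation R G N'}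

instance : Mul (SD ρ) := ⟨fun x y => ⟨x.v + ρ x.g y.v, x.g * y.g⟩⟩
instance : One (SD ρ) := ⟨⟨0, 1⟩⟩
instance : Inv (SD ρ) := ⟨fun x => ⟨-ρ x.g⁻¹ x.v, x.g⁻¹⟩⟩

@[simp] theorem SD.mul_v (x y : SD ρ) : (x * y).v = x.v + ρ x.g y.v := rfl
@[simp] theorem SD.mul_g (x y : SD ρ) : (x * y).g = x.g * y.g := rfl
@[simp] theorem SD.one_v : (1 : SD ρ).v = 0 := rfl
@[simp] theorem SD.one_g : (1 : SD ρ).g = 1 := rfl
@[simp] theorem SD.inv_v (x : SD ρ) : x⁻¹.v = -ρ x.g⁻¹ x.v := rfl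
@[simp] theorem SD.inv_g (x : SD ρ) : x⁻¹.g = x.g⁻¹ := rfl

instance : Group (SD ρ) := Group.ofLeftAxioms
  (fun x y z => by ext <;> simp [mul_assoc, add_assoc])
  (fun x => by ext <;> simp)
  (fun x => by ext <;> simp)

/-- Projection to the group. -/
def SD.snd (ρ : Representation R G N) : SD ρ →* G := ⟨⟨SD.g, rfl⟩, fun _ _ => rfl⟩

@[simp] theorem SD.snd_apply (x : SD ρ) : SD.snd ρ x = x.g := rfl

/-- The map induced by an equivariant additive map. -/
def SD.map (f : N →+ N') (hf : ∀ g v, f (ρ g v) = ρ' g (f v)) : SD ρ →* SD ρ' where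
  toFun x := ⟨f x.v, x.g⟩
  map_one' := by ext <;> simp
  map_mul' x y := by ext <;> simp [hf]

@[simp] theorem SD.map_v (f : N →+ N') (hf : ∀ g v, f (ρ g v) = ρ' g (f v)) (x : SD ρ) :
    (SD.map f hf x).v = f x.v := rfl
@[simp] theorem SD.map_g (f : N →+ N') (hf : ∀ g v, f (ρ g v) = ρ' g (f v)) (x : SD ρ) :
    (SD.map f hf x).g = x.g := rfl

end SD

variable {E : Type} [NormedAddCommGroup E] [NormedSpace ℝ E] {G : Type} [Group G]
  {R : Type} [CommRing R]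

theorem Coc.fl {U : Set E} {φ : E → E → G} (h : Coc U φ) (hU : IsOpen U) : Fl φ U := by
  intro x hx
  obtain ⟨ε, hε, hb⟩ := Metric.isOpen_iff.1 hU x hx
  refine ⟨_, mem_nhdsWithin_of_mem_nhds (Metric.ball_mem_nhds x hε), fun a ha b hb' c hc => ?_⟩
  refine h a b c ((convexHull_min ?_ (convex_ball x ε)).trans hb)
  simp [insert_subset_iff, ha, hb', hc]

theorem gau_of_seg {U : Set E} (hU : IsOpen U) {ψ ψ' : E → E → G} {a : E → G}
    (h : ∀ x y, segment ℝ x y ⊆ U → ψ' x y = (a x)⁻¹ * ψ x y * a y) : Gau ψ ψ' a U := by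
  intro x hx
  obtain ⟨ε, hε, hb⟩ := Metric.isOpen_iff.1 hU x hx
  filter_upwards [mem_nhdsWithin_of_mem_nhds (Metric.ball_mem_nhds x hε)] with y hy
  exact h x y (((convex_ball x ε).segment_subset (Metric.mem_ball_self hε) hy).trans hb)

/-- On a convex subset a cocycle is trivialised by its values from one point. -/
theorem Coc.triv {U D : Set E} {φ : E → E → G} (h : Coc U φ) (hD : Convex ℝ D) (hU : D ⊆ U) {p : E}
    (hp : p ∈ D) : Triv φ D (φ p) := fun x hx => by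
  filter_upwards [self_mem_nhdsWithin] with a ha
  rw [← h p x a ((convexHull_min (by simp [insert_subset_iff, hp, hx, ha]) hD).trans hU)]
  group

/-- One-chains of the covering. -/
def C1 (R : Type) [CommRing R] (φ : E → E → G) (U : Set E) : Type := CC R φ U 2

noncomputable instance (φ : E → E → G) (U : Set E) : AddCommGroup (C1 R φ U) :=
  inferInstanceAs (AddCommGroup (CC R φ U 2))

noncomputable instance (φ : E → E → G) (U : Set E) : Module R (C1 R φ U) :=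
  inferInstanceAs (Module R (CC R φ U 2))

/-- Boundaries among the one-chains. -/
noncomputable def Bd (R : Type) [CommRing R] (φ : E → E → G) (U : Set E) :
    Submodule R (C1 R φ U) where
  carrier := {c | ∃ v ∈ CC R φ U 3, bd v = c.1}
  add_mem' := fun ⟨v, hv, h⟩ ⟨w, hw, h'⟩ => ⟨v + w, add_mem hv hw, by rw [map_add, h, h']; rfl⟩
  zero_mem' := ⟨0, zero_mem _, map_zero _⟩
  smul_mem' := fun r _ ⟨v, hv, h⟩ => ⟨r • v, Submodule.smul_mem _ r hv, by rw [map_smul, h]; rfl⟩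

/-- One-chains of the covering modulo boundaries. -/
abbrev NN (R : Type) [CommRing R] (φ : E → E → G) (U : Set E) : Type := C1 R φ U ⧸ Bd R φ U

/-- The class of a one-chain. -/
noncomputable def cls {φ : E → E → G} {U : Set E} (c : Ch R (E × G)) (hc : c ∈ CC R φ U 2) :
    NN R φ U := (Bd R φ U).mkQ (⟨c, hc⟩ : CC R φ U 2)

theorem cls_eq_zero {φ : E → E → G} {U : Set E} {c : Ch R (E × G)} {hc : c ∈ CC R φ U 2} :
    cls c hc = 0 ↔ ∃ v ∈ CC R φ U 3, bd v = c := Submodule.Quotient.mk_eq_zero _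

theorem cls_eq {φ : E → E → G} {U : Set E} {c d : Ch R (E × G)} {hc : c ∈ CC R φ U 2}
    {hd : d ∈ CC R φ U 2} : cls c hc = cls d hd ↔ ∃ v ∈ CC R φ U 3, bd v = c - d :=
  Submodule.Quotient.eq _

theorem cls_zero {φ : E → E → G} {U : Set E} : cls (0 : Ch R (E × G)) (zero_mem (CC R φ U 2)) = 0 :=
  rfl

theorem cls_add {φ : E → E → G} {U : Set E} {c d : Ch R (E × G)} (hc : c ∈ CC R φ U 2)
    (hd : d ∈ CC R φ U 2) : cls (c + d) (add_mem hc hd) = cls c hc + cls d hd := rfl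

theorem cls_sub {φ : E → E → G} {U : Set E} {c d : Ch R (E × G)} (hc : c ∈ CC R φ U 2)
    (hd : d ∈ CC R φ U 2) : cls (c - d) (sub_mem hc hd) = cls c hc - cls d hd := rfl

theorem cls_smul {φ : E → E → G} {U : Set E} (r : R) {c : Ch R (E × G)} (hc : c ∈ CC R φ U 2) :
    cls (r • c) (Submodule.smul_mem _ r hc) = r • cls c hc := rfl

theorem cls_congr {φ : E → E → G} {U : Set E} {c d : Ch R (E × G)} {hc : c ∈ CC R φ U 2}
    {hd : d ∈ CC R φ U 2} (h : c = d) : cls c hc = cls d hd := by subst h; rfl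

theorem cls_surj {φ : E → E → G} {U : Set E} (x : NN R φ U) : ∃ c hc, x = cls c hc := by
  obtain ⟨c, rfl⟩ := (Bd R φ U).mkQ_surjective x
  exact ⟨c.1, c.2, rfl⟩

/-- A map of chains inducing a map of one-chains modulo boundaries. -/
noncomputable def mapN {G' : Type} [Group G'] {φ : E → E → G} {φ' : E → E → G'} {U U' : Set E}
    (f : Ch R (E × G) →ₗ[R] Ch R (E × G')) (h2 : ∀ c ∈ CC R φ U 2, f c ∈ CC R φ' U' 2)
    (h3 : ∀ v ∈ CC R φ U 3, ∃ w ∈ CC R φ' U' 3, bd w = f (bd v)) : NN R φ U →ₗ[R] NN R φ' U' :=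
  (Bd R φ U).mapQ (Bd R φ' U')
    { toFun := fun c => (⟨f c.1, h2 _ c.2⟩ : CC R φ' U' 2)
      map_add' := fun a b => Subtype.ext (f.map_add a.1 b.1)
      map_smul' := fun r a => Subtype.ext (f.map_smul r a.1) }
    fun _ ⟨v, hv, e⟩ => let ⟨w, hw, e'⟩ := h3 v hv; ⟨w, hw, by rw [e', e]; rfl⟩

theorem mapN_cls {G' : Type} [Group G'] {φ : E → E → G} {φ' : E → E → G'} {U U' : Set E}
    (f : Ch R (E × G) →ₗ[R] Ch R (E × G')) (h2 : ∀ c ∈ CC R φ U 2, f c ∈ CC R φ' U' 2)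
    (h3 : ∀ v ∈ CC R φ U 3, ∃ w ∈ CC R φ' U' 3, bd w = f (bd v)) {c : Ch R (E × G)}
    (hc : c ∈ CC R φ U 2) : mapN f h2 h3 (cls c hc) = cls (f c) (h2 c hc) := rfl

/-- A deck transformation on one-chains modulo boundaries. -/
noncomputable def actN (R : Type) [CommRing R] (φ : E → E → G) (U : Set E) (γ : G) :
    NN R φ U →ₗ[R] NN R φ U :=
  mapN (act γ) (fun _ => act_mem γ) fun v hv => ⟨_, act_mem γ hv, bd_act γ v⟩

theorem actN_cls {φ : E → E → G} {U : Set E} (γ : G) {c : Ch R (E × G)} (hc : c ∈ CC R φ U 2) :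
    actN R φ U γ (cls c hc) = cls (act γ c) (act_mem γ hc) := mapN_cls _ _ _ hc

theorem actN_one {φ : E → E → G} {U : Set E} (x : NN R φ U) : actN R φ U 1 x = x := by
  obtain ⟨c, hc, rfl⟩ := cls_surj x
  rw [actN_cls 1 hc]
  exact cls_congr (act_one c)

theorem actN_mul {φ : E → E → G} {U : Set E} (a b : G) (x : NN R φ U) :
    actN R φ U (a * b) x = actN R φ U a (actN R φ U b x) := by
  obtain ⟨c, hc, rfl⟩ := cls_surj x
  rw [actN_cls b hc, actN_cls a (act_mem b hc), actN_cls (a * b) hc]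
  exact cls_congr (act_mul a b c)

/-- Deck transformations on one-chains modulo boundaries. -/
noncomputable def rhoN (R : Type) [CommRing R] (φ : E → E → G) (U : Set E) :
    Representation R G (NN R φ U) where
  toFun := actN R φ U
  map_one' := LinearMap.ext actN_one
  map_mul' a b := LinearMap.ext (actN_mul a b)

theorem rhoN_cls {φ : E → E → G} {U : Set E} (γ : G) {c : Ch R (E × G)} (hc : c ∈ CC R φ U 2) :
    rhoN R φ U γ (cls c hc) = cls (act γ c) (act_mem γ hc) := actN_cls γ hc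

theorem rhoN_alg {φ : E → E → G} {U : Set E} (r : MonoidAlgebra R G) {c : Ch R (E × G)}
    (hc : c ∈ CC R φ U 2) : (rhoN R φ U).asAlgebraHom r (cls c hc) =
      cls ((rho R E G).asAlgebraHom r c) (rho_mem r hc) := by
  induction r using MonoidAlgebra.induction_linear with
  | zero =>
    rw [map_zero, LinearMap.zero_apply, ← cls_zero]
    exact cls_congr (by simp)
  | add a b h1 h2 =>
    rw [map_add, LinearMap.add_apply, h1, h2, ← cls_add]
    exact cls_congr (by simp)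
  | single γ r =>
    simp only [Representation.asAlgebraHom_single, LinearMap.smul_apply, rhoN_cls]
    rfl

/-- The map induced by an inclusion. -/
noncomputable def inc (R : Type) [CommRing R] (φ : E → E → G) {U U' : Set E} (h : U ⊆ U') :
    NN R φ U →ₗ[R] NN R φ U' :=
  mapN LinearMap.id (fun _ hc => CC_mono h hc) fun v hv => ⟨v, CC_mono h hv, rfl⟩

theorem inc_cls {φ : E → E → G} {U U' : Set E} (h : U ⊆ U') {c : Ch R (E × G)}
    (hc : c ∈ CC R φ U 2) : inc R φ h (cls c hc) = cls c (CC_mono h hc) := rfl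

theorem inc_rho {φ : E → E → G} {U U' : Set E} (h : U ⊆ U') (γ : G) (x : NN R φ U) :
    inc R φ h (rhoN R φ U γ x) = rhoN R φ U' γ (inc R φ h x) := by
  obtain ⟨c, hc, rfl⟩ := cls_surj x
  rfl

theorem edge_mem {φ : E → E → G} {U : Set E} (hφ : Coc U φ) {x y : E} (h : segment ℝ x y ⊆ U)
    (γ : G) : sg R [(x, γ), (y, γ * φ x y)] ∈ CC R φ U 2 := by
  refine sg_mem rfl ⟨?_, ?_⟩
  · have : Prod.fst '' {v | v ∈ [(x, γ), (y, γ * φ x y)]} = {x, y} := by
      rw [← set_map]; ext; simp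
    rwa [this, convexHull_pair]
  · simp [hφ.self (h (left_mem_segment ℝ x y)), hφ.self (h (right_mem_segment ℝ x y)), hφ.symm h]

theorem tri_mem {φ : E → E → G} {U : Set E} (hφ : Coc U φ) {x y z : E}
    (h : convexHull ℝ {x, y, z} ⊆ U) (γ : G) :
    sg R [(x, γ), (y, γ * φ x y), (z, γ * φ x z)] ∈ CC R φ U 3 := by
  have T := hφ.triv (convex_convexHull ℝ _) h (p := x) (subset_convexHull ℝ _ (by simp))
  have e : ∀ a ∈ ({x, y, z} : Set E), ∀ b ∈ ({x, y, z} : Set E), φ x b = φ x a * φ a b := by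
    intro a ha b hb
    refine (hφ x a b ((convexHull_mono ?_).trans h)).symm
    simp only [insert_subset_iff, singleton_subset_iff]
    exact ⟨by simp, ha, hb⟩
  have hx : φ x x = 1 := hφ.self (h (subset_convexHull ℝ _ (by simp)))
  refine sg_mem rfl ⟨?_, ?_⟩
  · have : Prod.fst '' {v | v ∈ [(x, γ), (y, γ * φ x y), (z, γ * φ x z)]} = {x, y, z} := by
      rw [← set_map]; ext; simp
    rwa [this]
  · have : ∀ v ∈ {v | v ∈ [(x, γ), (y, γ * φ x y), (z, γ * φ x z)]},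
        v.1 ∈ ({x, y, z} : Set E) ∧ v.2 = γ * φ x v.1 := by simp [hx]
    intro v hv w hw
    rw [(this v hv).2, (this w hw).2, e _ (this v hv).1 _ (this w hw).1, mul_assoc]

open Classical in
/-- The Magnus cocycle: an edge is sent to the class of its lift and its label. -/
noncomputable def Mg (R : Type) [CommRing R] (φ : E → E → G) (U : Set E) (x y : E) :
    SD (rhoN R φ U) :=
  ⟨if h : sg R [(x, (1 : G)), (y, 1 * φ x y)] ∈ CC R φ U 2 then cls _ h else 0, φ x y⟩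

@[simp] theorem Mg_g (φ : E → E → G) (U : Set E) (x y : E) : (Mg R φ U x y).g = φ x y := rfl

theorem Mg_v {φ : E → E → G} {U : Set E} (hφ : Coc U φ) {x y : E} (h : segment ℝ x y ⊆ U) :
    (Mg R φ U x y).v = cls _ (edge_mem hφ h 1) := dif_pos (edge_mem hφ h 1)

theorem coc_Mg {φ : E → E → G} {U : Set E} (hφ : Coc U φ) : Coc U (Mg R φ U) := by
  intro x y z h
  have s : ∀ a ∈ ({x, y, z} : Set E), ∀ b ∈ ({x, y, z} : Set E), segment ℝ a b ⊆ U :=
    fun a ha b hb => ((convex_convexHull ℝ _).segment_subset (subset_convexHull ℝ _ ha)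
      (subset_convexHull ℝ _ hb)).trans h
  ext
  · rw [SD.mul_v, Mg_v hφ (s x (by simp) y (by simp)), Mg_v hφ (s y (by simp) z (by simp)),
      Mg_v hφ (s x (by simp) z (by simp)), rhoN_cls, ← cls_add, cls_eq]
    refine ⟨_, tri_mem hφ h 1, ?_⟩
    simp [bd3, act, hφ x y z h]
    abel
  · exact hφ x y z h

/-- The homomorphism of semidirect products induced by an inclusion. -/
noncomputable def incSD (R : Type) [CommRing R] (φ : E → E → G) {U U' : Set E} (h : U ⊆ U') :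
    SD (rhoN R φ U) →* SD (rhoN R φ U') := SD.map (inc R φ h).toAddMonoidHom (inc_rho h)

theorem incSD_Mg {φ : E → E → G} {U U' : Set E} (hφ : Coc U' φ) (h : U ⊆ U') {x y : E}
    (hs : segment ℝ x y ⊆ U) : incSD R φ h (Mg R φ U x y) = Mg R φ U' x y := by
  ext
  · rw [Mg_v hφ (hs.trans h), incSD, SD.map_v, Mg_v (hφ.mono h) hs]; rfl
  · rfl

/-- The anti-involution of the group ring. -/
noncomputable def bar (q : MonoidAlgebra R G) : MonoidAlgebra R G :=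
  MonoidAlgebra.mapDomain (fun g => g⁻¹) q

end Pool.Agent.MP_b8a826_gt

end

-- part MP_b8a826_gt.Ifc
section

/-! Notions shared by the layers of the proof. -/

namespace Pool.Agent.MP_b8a826_gt
open Set unitInterval Metric

abbrev E4 : Type := EuclideanSpace ℂ (Fin 2)
abbrev MZ : Type := Multiplicative ℤ

/-- A generator of the infinite cyclic group. -/
def Gen (g : MZ) : Prop := g = Multiplicative.ofAdd 1 ∨ g = Multiplicative.ofAdd (-1)

/-- Restriction of a cocycle to the sphere of radius `r`. -/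
noncomputable def lev {G : Type} (r : ℝ) (φ : E4 → E4 → G) : S3 → S3 → G :=
  fun x y => φ (r • x.1) (r • y.1)

/-- Near radius `r` and beyond it (inwards for `s = 1`, outwards for `s = -1`) the set `W` is the
cone over the complement of `K`. -/
def EndAt (W : Set E4) (K : Set S3) (s r : ℝ) : Prop :=
  ∀ (x : S3) (t : ℝ), 0 < t → s * (t - r) ≤ 1 / 2 → (t • x.1 ∈ W ↔ x ∉ K)

/-- A loop `β` and a disc `D` in the complement of `K` meeting once, transversally. -/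
structure Box {X F : Type} [TopologicalSpace X] [NormedAddCommGroup F] [NormedSpace ℝ F]
    (ι : X → F) (K : Set X) (D : ℂ → X) (β : ℝ → X) : Prop where
  cD : Continuous D
  cb : Continuous β
  per : ∀ t, β (t + 1) = β t
  zero : β 0 = D 0
  ne : ∀ t ∈ Ioo (0 : ℝ) 1, β t ≠ β 0
  bK : ∀ t, β t ∉ K
  DK : ∀ z, ‖z‖ ≤ 1 → D z ∉ K
  Db : ∀ z, ‖z‖ ≤ 1 → z ≠ 0 → D z ∉ range β
  tv : ∃ (D' : ℂ →L[ℝ] F) (b' : F), HasFDerivAt (ι ∘ D) D' 0 ∧ HasDerivAt (ι ∘ β) b' 0 ∧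
    ∀ (z : ℂ) (a : ℝ), D' z + a • b' = 0 → z = 0 ∧ a = 0

/-- The shell about radius `r` with the cones over `K` and `β` removed. -/
def OO (K : Set S3) (β : ℝ → S3) (r : ℝ) : Set E4 :=
  {x | ∃ (y : S3) (t : ℝ), |t - r| < 1 / 4 ∧ y ∉ K ∧ y ∉ range β ∧ x = t • y.1}

/-- A chart flattening `K` in codimension two. -/
def Chart {F X : Type} [NormedAddCommGroup F] [TopologicalSpace X] (K : Set X)
    (Θ : OpenPartialHomeomorph (F × ℂ) X) : Prop :=
  closedBall 0 1 ⊆ Θ.source ∧ ∀ v ∈ Θ.source, Θ v ∈ K ↔ v.2 = 0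

/-- Meridians of flat charts generate the first homology. -/
def Mer (W : Set E4) : Prop :=
  ∀ τ : E4 → E4 → MZ, Coc W τ → H1 W τ → ∀ Θ : OpenPartialHomeomorph ((ℝ × ℝ) × ℂ) E4,
    Chart Wᶜ Θ → Gen (hol τ (circ fun θ => Θ (0, θ)))

/-- A family of push-offs of `K`. -/
def Track {X : Type} [TopologicalSpace X] (K : Circle → X) (Λ : Circle × ℝ → X) : Prop :=
  Continuous Λ ∧ (∀ θ, Λ (θ, 0) = K θ) ∧ ∀ θ s, 0 < s → s ≤ 1 → Λ (θ, s) ∉ range K

/-- A concordance annulus. -/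
structure Conc (A : C(Circle × I, S3 × I)) : Prop where
  inj : Function.Injective A
  p0 : ∀ θ u, (A (θ, u)).2 = 0 ↔ u = 0
  p1 : ∀ θ u, (A (θ, u)).2 = 1 ↔ u = 1
  flat : LocFlat (range A)

/-- The complement of the annulus, placed in the shell of radii between one and two and extended
radially. -/
def WA (A : Circle × I → S3 × I) : Set E4 :=
  {x | ∃ (y : S3) (t : ℝ), 0 < t ∧ x = t • y.1 ∧ (y, projIcc 0 1 zero_le_one (t - 1)) ∉ range A}

/-- Universal property of a cocycle. -/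
def UP {E π : Type} [NormedAddCommGroup E] [NormedSpace ℝ E] [Group π] (W : Set E)
    (φ : E → E → π) : Prop :=
  ∀ (G Γ : Type) [Group G] [Group Γ] (ψ : E → E → G) (f : G →* Γ) (q : π →* Γ), Coc W ψ →
    (∀ x y, segment ℝ x y ⊆ W → f (ψ x y) = q (φ x y)) →
    ∃ (k : π →* G) (a : E → G), (∀ g, f (k g) = q g) ∧ (∀ x ∈ W, f (a x) = 1) ∧
      ∀ x y, segment ℝ x y ⊆ W → ψ x y = (a x)⁻¹ * k (φ x y) * a y

/-- Two-cocycles with values in sequences split after applying a shift-invariant operator that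
fixes the constants. -/
def Split (A : Type) [AddCommGroup A] {π : Type} [Group π] (τ : π →* MZ) : Prop :=
  ∀ C : π → π → ℤ → A,
    (∀ g h j k, C h j (k + (τ g).toAdd) - C (g * h) j k + C g (h * j) k - C g h k = 0) →
    ∃ T : (ℤ → A) →+ (ℤ → A), (∀ f j k, T (fun i => f (i + j)) k = T f (k + j)) ∧
      (∀ a k, T (fun _ => a) k = a) ∧ ∃ F : π → ℤ → A, ∀ g h k,
        F g k + F h (k + (τ g).toAdd) - F (g * h) k = T (C g h) k

/-- The braid relation. -/
def Br {G : Type} [Group G] (m s : G) : Prop := m * s * m = s * m * s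

/-- The longitude in the group of the trefoil. -/
def lw {G : Type} [Group G] (m s : G) : G := (m * s) ^ 3 * m⁻¹ ^ 6

/-- A root of `2 t² - 3 t + 2`. -/
noncomputable def z0 : ℂ := (3 + √7 * Complex.I) / 4

/-- The quadratic form attached to the word `w` in `u`, `l` is non-degenerate at `z0`. -/
def Quad {G : Type} [Group G] (u l w : G) : Prop :=
  ∀ (d : G → ℤ) (a x : G → ℂ) (F : G → ℤ → ℝ) (S : ℝ),
    (∀ g ∈ Subgroup.closure {u, l}, ∀ h ∈ Subgroup.closure {u, l},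
      d (g * h) = d g + d h ∧ a (g * h) = a g * a h ∧ x (g * h) = x g + a g * x h ∧
      ∀ k, F (g * h) k = F g k + F h (k + d g) - S * (x g * (starRingEnd ℂ) (a g * x h)).im) →
    d l = 0 → a u = z0 → a l = -1 → x u = 1 → x l = 0 → F l = 0 → F w 0 = 0 → S = 0

/-- The solid torus inside the plane times the plane. -/
def cV (x : Circle × ℂ) : ℂ × ℂ := (x.1, x.2)

/-- Longitude of the solid torus. -/
noncomputable def lV : ℝ → Circle × ℂ := circ fun θ => (θ, 1)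

/-- Meridian of the solid torus. -/
noncomputable def mV : ℝ → Circle × ℂ := circ fun θ => (1, θ)

/-- The closed exterior of the companion. -/
def XK (e : Circle × ℂ → S3) : Set S3 := (e '' {x | ‖x.2‖ < 1})ᶜ

theorem Coc.lev {G : Type} [Group G] {W : Set E4} {φ : E4 → E4 → G} (h : Coc W φ) (hW : IsOpen W)
    {r : ℝ} {U : Set S3} (hU : ∀ x ∈ U, r • x.1 ∈ W) : Fl (lev r φ) U :=
  (h.fl hW).pb (f := fun x : S3 => r • x.1) (by fun_prop) hU

/-- The boundary of a disc has trivial holonomy. -/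
theorem hol_disc {X G : Type} [TopologicalSpace X] [Group G] {ψ : X → X → G} {U : Set X}
    (h : Fl ψ U) {D : ℂ → X} (hD : ContinuousOn D (closedBall 0 1))
    (hU : ∀ z, ‖z‖ ≤ 1 → D z ∈ U) : hol ψ (circ fun θ => D θ) = 1 := by
  have hf := h.pb hD fun z hz => hU z (by simpa using hz)
  obtain ⟨B, hB⟩ := exists_triv_convex hf (convex_closedBall 0 1)
  have := hol_triv hf (c := circ fun θ => (θ : ℂ)) ⟨circ_cont (by fun_prop), fun t =>
    mem_closedBall_zero_iff.2 (Circle.norm_coe _).le⟩ hB fun t _ =>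
    mem_closedBall_zero_iff.2 (Circle.norm_coe _).le
  rw [circ_zero, circ_one, inv_mul_cancel] at this
  exact this

end Pool.Agent.MP_b8a826_gt

end

-- part MP_b8a826_gt.KSide1
section

/-! The tubular neighbourhood of the trefoil. -/

namespace Pool.Agent.MP_b8a826_gt
open Set Filter Topology Real OpenPartialHomeomorph

/-! ### Immersions -/

section Imm
variable {F F' F'' : Type} [NormedAddCommGroup F] [NormedSpace ℝ F] [NormedAddCommGroup F']
  [NormedSpace ℝ F'] [NormedAddCommGroup F''] [NormedSpace ℝ F'']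

/-- The derivative at `x` exists and is injective. -/
def KImm (f : F → F') (x : F) : Prop :=
  ∃ f' : F →L[ℝ] F', HasFDerivAt f f' x ∧ Function.Injective f'

theorem KImm.comp {g : F' → F''} {f : F → F'} {x : F} (hg : KImm g (f x)) (hf : KImm f x) :
    KImm (g ∘ f) x :=
  let ⟨_, h1, h2⟩ := hg
  let ⟨_, h3, h4⟩ := hf
  ⟨_, h1.comp x h3, h2.comp h4⟩

theorem KImm.of_left {f : F → F'} {g : F' → F} {x : F} (hf : DifferentiableAt ℝ f x)
    (hg : DifferentiableAt ℝ g (f x)) (h : ∀ᶠ y in 𝓝 x, g (f y) = y) : KImm f x := by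
  refine ⟨_, hf.hasFDerivAt, Function.LeftInverse.injective (g := fderiv ℝ g (f x)) fun v => ?_⟩
  have h1 := hg.hasFDerivAt.comp x hf.hasFDerivAt
  have h2 : HasFDerivAt (g ∘ f) (ContinuousLinearMap.id ℝ F) x :=
    (hasFDerivAt_id x).congr_of_eventuallyEq h
  exact DFunLike.congr_fun (h1.unique h2) v

/-- Transversality of a disc and a curve. -/
def KTv (D : ℂ → F) (β : ℝ → F) : Prop :=
  ∃ (D' : ℂ →L[ℝ] F) (b' : F), HasFDerivAt D D' 0 ∧ HasDerivAt β b' 0 ∧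
    ∀ (z : ℂ) (a : ℝ), D' z + a • b' = 0 → z = 0 ∧ a = 0

theorem KTv.map {D : ℂ → F} {β : ℝ → F} (h : KTv D β) (h0 : β 0 = D 0) {f : F → F'}
    (hf : KImm f (D 0)) : KTv (f ∘ D) (f ∘ β) := by
  obtain ⟨D', b', h1, h2, h3⟩ := h
  obtain ⟨f', h4, h5⟩ := hf
  refine ⟨_, _, h4.comp 0 h1, (h0 ▸ h4 : HasFDerivAt f f' (β 0)).comp_hasDerivAt 0 h2,
    fun z a e => h3 z a (h5 ?_)⟩
  rw [map_add, map_smul, map_zero]
  exact e

end Imm

/-! ### The standard solid torus -/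

/-- The standard embedding on the ambient space. -/
noncomputable def kNa (x : ℂ × ℂ) : E4 := (√(1 + ‖x.2‖ ^ 2))⁻¹ • !₂[x.1, x.2]

/-- Its inverse. -/
noncomputable def kNi (y : E4) : ℂ × ℂ := (√(1 - ‖y 1‖ ^ 2))⁻¹ • (y 0, y 1)

theorem kNa_zero (x : ℂ × ℂ) : kNa x 0 = (√(1 + ‖x.2‖ ^ 2))⁻¹ • x.1 := by simp [kNa]

theorem kNa_one (x : ℂ × ℂ) : kNa x 1 = (√(1 + ‖x.2‖ ^ 2))⁻¹ • x.2 := by simp [kNa]

theorem kNa_lt (x : ℂ × ℂ) : ‖kNa x 1‖ < 1 := by
  rw [kNa_one]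
  exact mem_ball_zero_iff.1 (univUnitBall.map_source (mem_univ x.2))

theorem kNa_sq (x : ℂ × ℂ) : 1 - ‖kNa x 1‖ ^ 2 = (1 + ‖x.2‖ ^ 2)⁻¹ := by
  have h : 0 < 1 + ‖x.2‖ ^ 2 := by positivity
  rw [kNa_one, norm_smul, mul_pow, norm_inv, Real.norm_of_nonneg (sqrt_nonneg _), inv_pow,
    sq_sqrt h.le]
  field_simp
  ring

theorem kNi_kNa (x : ℂ × ℂ) : kNi (kNa x) = x := by
  have h : √(1 + ‖x.2‖ ^ 2) ≠ 0 := by positivity
  rw [kNi, kNa_sq, sqrt_inv, inv_inv, kNa_zero, kNa_one, ← Prod.smul_mk, smul_smul,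
    mul_inv_cancel₀ h, one_smul]

theorem kNa_diff : Differentiable ℝ kNa := by
  have h1 : Differentiable ℝ fun x : ℂ × ℂ => (√(1 + ‖x.2‖ ^ 2))⁻¹ :=
    (((differentiable_snd.norm_sq ℝ).const_add 1).sqrt fun x => by positivity).inv
      fun x => by positivity
  refine h1.smul ?_
  have h2 : Differentiable ℝ fun x : ℂ × ℂ => (![x.1, x.2] : Fin 2 → ℂ) := by
    refine differentiable_pi.2 fun i => ?_
    fin_cases i
    · exact differentiable_fst
    · exact differentiable_snd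
  exact ((EuclideanSpace.equiv (Fin 2) ℂ).symm.differentiable.restrictScalars ℝ).comp h2

theorem kNi_diff {y : E4} (hy : ‖y 1‖ < 1) : DifferentiableAt ℝ kNi y := by
  have h0 : 0 < 1 - ‖y 1‖ ^ 2 := by nlinarith [norm_nonneg (y 1)]
  have h : ∀ i, DifferentiableAt ℝ (fun z : E4 => z i) y := fun i => by fun_prop
  exact ((((h 1).norm_sq ℝ).const_sub 1).sqrt h0.ne').inv (by positivity) |>.smul
    ((h 0).prodMk (h 1))

theorem kNa_imm (x : ℂ × ℂ) : KImm kNa x :=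
  KImm.of_left (kNa_diff x) (kNi_diff (kNa_lt x)) (Eventually.of_forall kNi_kNa)

theorem k_norm_sq (y : E4) : ‖y‖ ^ 2 = ‖y 0‖ ^ 2 + ‖y 1‖ ^ 2 := by
  rw [EuclideanSpace.norm_sq_eq, Fin.sum_univ_two]

theorem kN_mem (x : Circle × ℂ) : kNa (cV x) ∈ Metric.sphere (0 : E4) 1 := by
  have h : 0 < 1 + ‖x.2‖ ^ 2 := by positivity
  have h1 := kNa_sq (cV x)
  have h2 : ‖kNa (cV x) 0‖ ^ 2 = (1 + ‖x.2‖ ^ 2)⁻¹ := by
    rw [kNa_zero, norm_smul, mul_pow, norm_inv, Real.norm_of_nonneg (sqrt_nonneg _), inv_pow,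
      sq_sqrt (by positivity)]
    simp [cV]
  rw [mem_sphere_zero_iff_norm, ← sq_eq_sq₀ (norm_nonneg _) zero_le_one, k_norm_sq, h2]
  change 1 - _ = (1 + ‖x.2‖ ^ 2)⁻¹ at h1
  linarith

/-- The standard embedding of the open solid torus into the sphere. -/
noncomputable def kN (x : Circle × ℂ) : S3 := ⟨kNa (cV x), kN_mem x⟩

theorem k_cV_emb : IsEmbedding cV := IsEmbedding.subtypeVal.prodMap IsEmbedding.id

theorem kN_cont : Continuous kN :=
  (kNa_diff.continuous.comp k_cV_emb.continuous).subtype_mk _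

theorem kN_inj : Function.Injective kN := fun x y h => k_cV_emb.injective (by
  have h1 : kNa (cV x) = kNa (cV y) := congrArg Subtype.val h
  rw [← kNi_kNa (cV x), h1, kNi_kNa])

theorem kN_surj (y : S3) (hy : ‖y.1 1‖ < 1) : ∃ x, kN x = y := by
  have h0 : 0 < 1 - ‖y.1 1‖ ^ 2 := by nlinarith [norm_nonneg (y.1 1)]
  have h1 : ‖y.1 0‖ ^ 2 = 1 - ‖y.1 1‖ ^ 2 := by
    have := k_norm_sq y.1
    rw [mem_sphere_zero_iff_norm.1 y.2] at this
    linarith
  have h2 : ‖y.1 0‖ = √(1 - ‖y.1 1‖ ^ 2) := by rw [← h1, sqrt_sq (norm_nonneg _)]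
  have h3 : √(1 - ‖y.1 1‖ ^ 2) ≠ 0 := by positivity
  have h4 : 1 + ‖(kNi y.1).2‖ ^ 2 = (1 - ‖y.1 1‖ ^ 2)⁻¹ := by
    rw [kNi, Prod.smul_snd, norm_smul, mul_pow, norm_inv, Real.norm_of_nonneg (sqrt_nonneg _),
      inv_pow, sq_sqrt h0.le]
    field_simp
    ring
  refine ⟨(⟨(kNi y.1).1, ?_⟩, (kNi y.1).2), Subtype.ext ?_⟩
  · refine mem_sphere_zero_iff_norm.2 ?_
    rw [kNi, Prod.smul_fst, norm_smul, norm_inv, Real.norm_of_nonneg (sqrt_nonneg _), h2,
      inv_mul_cancel₀ h3]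
  · change kNa (kNi y.1) = y.1
    ext i
    fin_cases i
    · change kNa _ 0 = y.1 0
      rw [kNa_zero, h4, sqrt_inv, inv_inv, kNi, Prod.smul_fst, smul_smul, mul_inv_cancel₀ h3,
        one_smul]
    · change kNa _ 1 = y.1 1
      rw [kNa_one, h4, sqrt_inv, inv_inv, kNi, Prod.smul_snd, smul_smul, mul_inv_cancel₀ h3,
        one_smul]

theorem kN_open : IsOpenMap kN := by
  intro V hV
  obtain ⟨V', hV', rfl⟩ := k_cV_emb.isInducing.isOpen_iff.1 hV
  have h1 : IsOpen {y : S3 | ‖y.1 1‖ < 1} := isOpen_lt (by fun_prop) continuous_const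
  have h2 : ContinuousOn (fun y : S3 => kNi y.1) {y : S3 | ‖y.1 1‖ < 1} := fun y hy =>
    ((kNi_diff hy).continuousAt.comp continuous_subtype_val.continuousAt).continuousWithinAt
  convert h2.isOpen_inter_preimage h1 hV' using 1
  ext y
  constructor
  · rintro ⟨x, hx, rfl⟩
    refine ⟨kNa_lt _, ?_⟩
    change kNi (kNa (cV x)) ∈ V'
    rwa [kNi_kNa]
  · rintro ⟨h3, h4⟩
    obtain ⟨x, rfl⟩ := kN_surj y h3
    refine ⟨x, ?_, rfl⟩
    change kNi (kNa (cV x)) ∈ V' at h4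
    rwa [kNi_kNa] at h4

/-! ### The tube -/

/-- The plane as a disc about `2`. -/
noncomputable def kk (d : ℂ) : ℂ := 2 + (√2)⁻¹ • univUnitBall d

/-- Its inverse. -/
noncomputable def kki (w : ℂ) : ℂ := univUnitBall.symm (√2 • (w - 2))

theorem kk_aux (d : ℂ) : √2 • (kk d - 2) = univUnitBall d := by
  rw [kk, add_sub_cancel_left, smul_smul, mul_inv_cancel₀ (by positivity), one_smul]

theorem kki_kk (d : ℂ) : kki (kk d) = d := by
  rw [kki, kk_aux]
  exact univUnitBall.left_inv (mem_univ d)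

theorem kk_diff : Differentiable ℝ kk :=
  (((contDiff_univUnitBall (n := 1)).differentiable one_ne_zero).const_smul (√2)⁻¹).const_add 2

theorem kki_diff (d : ℂ) : DifferentiableAt ℝ kki (kk d) := by
  have h1 : DifferentiableAt ℝ (univUnitBall.symm : ℂ → ℂ) (√2 • (kk d - 2)) := by
    rw [kk_aux]
    exact ((contDiffOn_univUnitBall_symm (n := 1)).contDiffAt
      (Metric.isOpen_ball.mem_nhds (univUnitBall.map_source (mem_univ d)))).differentiableAt
      one_ne_zero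
  exact h1.comp (kk d) (f := fun w : ℂ => √2 • (w - 2)) (by fun_prop)

theorem kk_open : IsOpenMap kk :=
  (isOpenMap_add_left 2).comp ((isOpenMap_smul₀ (by positivity : (√2)⁻¹ ≠ 0)).comp
    (univUnitBall.isOpenEmbedding rfl).isOpenMap)

theorem kk_norm (d : ℂ) : ‖kk d - 2‖ ^ 2 = ‖d‖ ^ 2 / (2 * (1 + ‖d‖ ^ 2)) := by
  have h : 0 < 1 + ‖d‖ ^ 2 := by positivity
  rw [kk, add_sub_cancel_left, univUnitBall_apply, norm_smul, norm_smul, norm_inv, norm_inv,
    Real.norm_of_nonneg (sqrt_nonneg _), Real.norm_of_nonneg (sqrt_nonneg _), mul_pow, mul_pow,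
    inv_pow, inv_pow, sq_sqrt h.le, sq_sqrt zero_le_two]
  field_simp

theorem kk_lt (d : ℂ) : ‖kk d - 2‖ < 1 := by
  have h : 0 < 1 + ‖d‖ ^ 2 := by positivity
  rw [← sq_lt_sq₀ (norm_nonneg _) zero_le_one, kk_norm, div_lt_iff₀ (by positivity)]
  nlinarith [sq_nonneg ‖d‖]

theorem kk_half {d : ℂ} (hd : ‖d‖ < 1) : ‖kk d - 2‖ < 1 / 2 := by
  have h : 0 < 1 + ‖d‖ ^ 2 := by positivity
  rw [← sq_lt_sq₀ (norm_nonneg _) (by norm_num), kk_norm, div_lt_iff₀ (by positivity)]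
  nlinarith [norm_nonneg d]

theorem kk_circ (θ : Circle) : kk θ = 2 + θ / 2 := by
  rw [kk, univUnitBall_apply, Circle.norm_coe, smul_smul, one_pow, one_add_one_eq_two, ← mul_inv,
    mul_self_sqrt zero_le_two, Complex.real_smul]
  push_cast
  ring

theorem kk_re (d : ℂ) : 1 < (kk d).re := by
  have h := (Complex.abs_re_le_norm (kk d - 2)).trans_lt (kk_lt d)
  rw [Complex.sub_re, Complex.re_ofNat, abs_lt] at h
  linarith [h.1]

theorem ktw_aux (n : ℤ) : Continuous fun x : Circle × ℂ => ((x.1 ^ n : Circle) : ℂ) := by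
  have h : Continuous fun x : Circle × ℂ => x.1 ^ n := continuous_fst.zpow n
  exact continuous_subtype_val.comp h

/-- The twist. -/
noncomputable def ktw (n : ℤ) : Circle × ℂ ≃ₜ Circle × ℂ where
  toFun x := (x.1, (x.1 ^ n : Circle) * x.2)
  invFun x := (x.1, (x.1 ^ (-n) : Circle) * x.2)
  left_inv x := by simp [zpow_ne_zero]
  right_inv x := by simp [zpow_ne_zero]
  continuous_toFun := continuous_fst.prodMk ((ktw_aux n).mul continuous_snd)
  continuous_invFun := continuous_fst.prodMk ((ktw_aux (-n)).mul continuous_snd)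

/-- The double covering of the solid torus. -/
noncomputable def kP (x : Circle × ℂ) : Circle × ℂ := (x.1 ^ 2, (x.1 : ℂ) ^ 3 * x.2)

/-- The framed tube about `2` upstairs. -/
noncomputable def kG (x : Circle × ℂ) : Circle × ℂ := (x.1, kk ((x.1 : ℂ)⁻¹ ^ 6 * x.2))

theorem kP_cont : Continuous kP := by unfold kP; fun_prop

theorem kG_cont : Continuous kG := by
  have h : Continuous fun x : Circle × ℂ => ((x.1⁻¹ : Circle) : ℂ) ^ 6 * x.2 := by fun_prop
  exact continuous_fst.prodMk (kk_diff.continuous.comp h)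

theorem kP_open : IsOpenMap kP := by
  have h := ((Circle.isQuotientCoveringMap_npow 2).isCoveringMap.isOpenMap.prodMap
    (IsOpenMap.id (X := ℂ))).comp (ktw 3).isOpenMap
  exact h

theorem kG_open : IsOpenMap kG := by
  have h := ((IsOpenMap.id (X := Circle)).prodMap kk_open).comp (ktw (-6)).isOpenMap
  convert h using 1
  ext1 x
  simp [kG, ktw]

theorem kP_eq {x y : Circle × ℂ} (h : kP x = kP y) :
    x.1 ^ 2 = y.1 ^ 2 ∧ (x.1 = y.1 → x.2 = y.2) ∧ (x = y ∨ x.2 = -y.2) := by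
  have h1 : x.1 ^ 2 = y.1 ^ 2 := congrArg Prod.fst h
  have h2 : (x.1 : ℂ) ^ 3 * x.2 = (y.1 : ℂ) ^ 3 * y.2 := congrArg Prod.snd h
  have h3 : (y.1 : ℂ) ^ 3 ≠ 0 := pow_ne_zero _ (Circle.coe_ne_zero _)
  have h4 : x.1 = y.1 → x.2 = y.2 := fun e => by
    rw [e] at h2
    exact mul_left_cancel₀ h3 h2
  refine ⟨h1, h4, ?_⟩
  have h5 : (x.1 : ℂ) ^ 2 = (y.1 : ℂ) ^ 2 := congrArg Subtype.val h1
  rcases sq_eq_sq_iff_eq_or_eq_neg.1 h5 with e | e
  · exact Or.inl (Prod.ext (Circle.ext e) (h4 (Circle.ext e)))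
  · rw [e] at h2
    exact Or.inr (mul_left_cancel₀ h3 (by linear_combination -h2))

/-- The tubular neighbourhood of the trefoil. -/
noncomputable def kE : C(Circle × ℂ, S3) :=
  ⟨kN ∘ kP ∘ kG, kN_cont.comp (kP_cont.comp kG_cont)⟩

theorem kE_inj : Function.Injective kE := fun x y h => by
  rcases (kP_eq (kN_inj h)).2.2 with e | e
  · have h1 : x.1 = y.1 := (congrArg Prod.fst e : (kG x).1 = (kG y).1)
    have h2 := congrArg (fun z => kki z.2) e
    simp only [kG, kki_kk, h1] at h2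
    exact Prod.ext h1 (mul_left_cancel₀ (pow_ne_zero _ (inv_ne_zero (Circle.coe_ne_zero _))) h2)
  · have h1 := congrArg Complex.re e
    simp only [kG, Complex.neg_re] at h1
    linarith [kk_re ((x.1 : ℂ)⁻¹ ^ 6 * x.2), kk_re ((y.1 : ℂ)⁻¹ ^ 6 * y.2)]

theorem kE_emb : IsOpenEmbedding kE :=
  .of_continuous_injective_isOpenMap kE.continuous kE_inj (kN_open.comp (kP_open.comp kG_open))

/-- The covering on the ambient space. -/
noncomputable def kPa (x : ℂ × ℂ) : ℂ × ℂ := (x.1 ^ 2, x.1 ^ 3 * x.2)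

/-- The framed tube on the ambient space. -/
noncomputable def kGa (x : ℂ × ℂ) : ℂ × ℂ := (x.1, kk (x.1⁻¹ ^ 6 * x.2))

theorem kPa_imm {x : ℂ × ℂ} (hx : x.1 ≠ 0) : KImm kPa x := by
  have h1 : HasFDerivAt (fun y : ℂ × ℂ => y.1) (ContinuousLinearMap.fst ℝ ℂ ℂ) x := hasFDerivAt_fst
  have h2 : HasFDerivAt (fun y : ℂ × ℂ => y.2) (ContinuousLinearMap.snd ℝ ℂ ℂ) x := hasFDerivAt_snd
  refine ⟨_, (h1.pow 2).prodMk ((h1.pow 3).mul h2), (injective_iff_map_eq_zero _).2 fun v hv => ?_⟩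
  have h3 : v.1 = 0 := by simpa [hx] using congrArg Prod.fst hv
  have h4 : v.2 = 0 := by simpa [hx, h3] using congrArg Prod.snd hv
  exact Prod.ext h3 h4

theorem kGa_imm {x : ℂ × ℂ} (hx : x.1 ≠ 0) : KImm kGa x := by
  have h1 : ∀ y : ℂ × ℂ, y.1 ≠ 0 → DifferentiableAt ℝ (fun y : ℂ × ℂ => y.1⁻¹) y :=
    fun y hy => differentiableAt_fst.inv hy
  have h2 : DifferentiableAt ℝ (fun y : ℂ × ℂ => kki y.2) (kGa x) :=
    DifferentiableAt.comp (g := kki) (kGa x) (kki_diff _) differentiableAt_snd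
  have h3 : DifferentiableAt ℝ (fun y : ℂ × ℂ => (y.1, y.1 ^ 6 * kki y.2)) (kGa x) :=
    differentiableAt_fst.prodMk ((differentiableAt_fst.pow 6).mul h2)
  refine KImm.of_left
    (differentiableAt_fst.prodMk ((kk_diff _).comp x (((h1 x hx).pow 6).mul differentiableAt_snd)))
    h3 ?_
  filter_upwards [continuous_fst.continuousAt.eventually_ne hx] with y hy
  simp only [kGa, kki_kk]
  rw [← mul_assoc, ← mul_pow, mul_inv_cancel₀ hy, one_pow, one_mul]

theorem kE_box (K : Set (Circle × ℂ)) (D : ℂ → Circle × ℂ) (β : ℝ → Circle × ℂ)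
    (h : Box cV K D β) : Box Subtype.val (kE '' K) (kE ∘ D) (kE ∘ β) where
  cD := kE.continuous.comp h.cD
  cb := kE.continuous.comp h.cb
  per t := congrArg kE (h.per t)
  zero := congrArg kE h.zero
  ne t ht e := h.ne t ht (kE_inj e)
  bK t e := h.bK t ((kE_inj.mem_set_image).1 e)
  DK z hz e := h.DK z hz ((kE_inj.mem_set_image).1 e)
  Db z hz h0 e := h.Db z hz h0 (let ⟨t, ht⟩ := e; ⟨t, kE_inj ht⟩)
  tv := by
    have h0 : (cV (D 0)).1 ≠ 0 := Circle.coe_ne_zero _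
    exact KTv.map (D := cV ∘ D) (β := cV ∘ β) h.tv (congrArg cV h.zero)
      ((kNa_imm _).comp ((kPa_imm (x := kGa (cV (D 0))) h0).comp (kGa_imm h0)))

/-! ### Coordinates on the complement of the braid axis -/

/-- The coordinates. -/
noncomputable def kxi (p : ℂ × ℝ) : S3 := kN (kP (Circle.exp (π * p.2), p.1))

/-- The deck transformation. -/
def kT (p : ℂ × ℝ) : ℂ × ℝ := (-p.1, p.2 + 1)

theorem kxi_cont : Continuous kxi := kN_cont.comp (kP_cont.comp (by fun_prop))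

theorem kxi_T (p : ℂ × ℝ) : kxi (kT p) = kxi p := by
  have h : Circle.exp (π * (p.2 + 1)) = -Circle.exp (π * p.2) := by
    ext
    simp [mul_add]
  simp only [kxi, kT, h, kP]
  congr 2
  · ext
    simp
  · simp only [Circle.coe_neg]
    ring

theorem kxi_eq {p q : ℂ × ℝ} (h : kxi p = kxi q) : (∃ n : ℤ, p.2 = q.2 + n) ∧
    (p.2 = q.2 → p.1 = q.1) ∧ (p.1 = q.1 ∨ p.1 = -q.1) := by
  obtain ⟨h1, h2, h3⟩ := kP_eq (kN_inj h)
  refine ⟨?_, fun e => h2 (by simp only [e]), h3.imp_left fun e => congrArg Prod.snd e⟩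
  simp only [← Circle.exp_natCast_mul] at h1
  obtain ⟨n, hn⟩ := Circle.exp_eq_exp.1 h1
  refine ⟨n, mul_left_cancel₀ (by positivity : 2 * π ≠ 0) ?_⟩
  push_cast at hn
  linarith

theorem kE_xi (s : ℝ) (d : ℂ) : kE (Circle.exp (2 * π * s), d) =
    kxi (kk ((Circle.exp (2 * π * s) : ℂ)⁻¹ ^ 6 * d), 2 * s) := by
  rw [kxi, show π * (2 * s) = 2 * π * s by ring]
  rfl

theorem k_surj (θ : Circle) : ∃ s, Circle.exp (2 * π * s) = θ := by
  obtain ⟨t, rfl⟩ := Circle.exp_surjective θ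
  exact ⟨t / (2 * π), by rw [mul_div_cancel₀ _ (by positivity)]⟩

theorem kxi_imm (p : ℂ × ℝ) : KImm (Subtype.val ∘ kxi) p := by
  have h1 : HasFDerivAt (fun q : ℂ × ℝ => q.1) (ContinuousLinearMap.fst ℝ ℂ ℝ) p := hasFDerivAt_fst
  have h2 : HasFDerivAt (fun q : ℂ × ℝ => ((π * q.2 : ℝ) : ℂ) * Complex.I) _ p :=
    (Complex.ofRealCLM.hasFDerivAt.comp p (hasFDerivAt_snd.const_mul π)).mul_const Complex.I
  have h3 : KImm (fun q : ℂ × ℝ => (Complex.exp (((π * q.2 : ℝ) : ℂ) * Complex.I), q.1)) p := by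
    refine ⟨_, h2.cexp.prodMk h1, (injective_iff_map_eq_zero _).2 fun v hv => ?_⟩
    have h3 : v.2 = 0 := by simpa [pi_ne_zero] using congrArg Prod.fst hv
    have h4 : v.1 = 0 := by simpa using congrArg Prod.snd hv
    exact Prod.ext h4 h3
  exact (kNa_imm _).comp ((kPa_imm (Complex.exp_ne_zero _)).comp h3)

end Pool.Agent.MP_b8a826_gt

end

-- part MP_b8a826_gt.KSide2
section

/-! Regions, curves and transport in the coordinates about the braid axis. -/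

namespace Pool.Agent.MP_b8a826_gt
open Set Filter Topology Real

/-! ### Sets that can be pushed into a convex set -/

section Push
variable {E G : Type} [NormedAddCommGroup E] [NormedSpace ℝ E] [Group G] {D Q : Set E} {v : E}

theorem k_join (h1 : ∀ p ∈ D, ∀ s ∈ Icc (0 : ℝ) 1, p + s • v ∈ D) (h2 : ∀ p ∈ D, p + v ∈ Q)
    (hQ : Convex ℝ Q) (hD : Q ⊆ D) {p q : E} (hp : p ∈ D) (hq : q ∈ D) : JoinedIn D p q := by
  have h : ∀ p ∈ D, JoinedIn D p (p + v) := fun p hp => JoinedIn.of_segment_subset (by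
    rw [segment_eq_image']
    rintro _ ⟨s, hs, rfl⟩
    simpa using h1 p hp s hs)
  exact ((h p hp).trans (JoinedIn.of_segment_subset
    ((hQ.segment_subset (h2 p hp) (h2 q hq)).trans hD))).trans (h q hq).symm

omit [NormedSpace ℝ E] in
theorem k_conn (h : ∀ p ∈ D, ∀ q ∈ D, JoinedIn D p q) : IsPreconnected D := by
  rcases D.eq_empty_or_nonempty with rfl | ⟨p, hp⟩
  · exact isPreconnected_empty
  · exact (show IsPathConnected D from ⟨p, hp, fun q hq => h p hp q hq⟩).isConnected.isPreconnected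

theorem k_triv {φ : E → E → G} (hφ : Fl φ D) (h1 : ∀ p ∈ D, ∀ s ∈ Icc (0 : ℝ) 1, p + s • v ∈ D)
    (h2 : ∀ p ∈ D, p + v ∈ Q) (hQ : Convex ℝ Q) (hD : Q ⊆ D) : ∃ B, Triv φ D B := by
  obtain ⟨B, hB⟩ := exists_triv_convex (hφ.mono hD) hQ
  have h0 : Triv (pb (fun y => y + (1 - (0 : ℝ)) • v) φ) D _ :=
    hB.pb (by fun_prop) fun p hp => by simpa using h2 p hp
  obtain ⟨B', hB'⟩ := triv_of_homotopy hφ (H := fun p : ℝ × E => p.2 + (1 - p.1) • v) (D := D)
    (by fun_prop) (fun p hp => h1 _ hp.2 _ ⟨by linarith [hp.1.2], by linarith [hp.1.1]⟩) h0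
  refine ⟨B', ?_⟩
  convert hB' using 1
  ext x y
  simp [pb]

end Push

theorem k_path {X G : Type} [TopologicalSpace X] [Group G] {φ : X → X → G} {D D' : Set X}
    {B B' : X → G} (h : Triv φ D B) (h' : Triv φ D' B') {γ : ℝ → X} (hγ : Continuous γ)
    (hD : ∀ s ∈ Icc (0 : ℝ) 1, γ s ∈ D ∧ γ s ∈ D') :
    B (γ 0) * (B' (γ 0))⁻¹ = B (γ 1) * (B' (γ 1))⁻¹ :=
  (h.pb hγ.continuousOn fun s hs => (hD s hs).1).uniq
    (h'.pb hγ.continuousOn fun s hs => (hD s hs).2) isPreconnected_Icc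
    (left_mem_Icc.2 zero_le_one) (right_mem_Icc.2 zero_le_one)

/-! ### Regions -/

/-- The plane outside the two discs. -/
def kU : Set ℂ := {ζ | 1 / 2 ≤ ‖ζ - 2‖ ∧ 1 / 2 ≤ ‖ζ + 2‖}

/-- Free points, when a box is blocked at the levels in `L`. -/
def kF (L : Set ℝ) : Set (ℂ × ℝ) := {p | p.1 ∈ kU ∧ (p.2 ∈ L → 3 < |p.1.re| ∨ 1 < |p.1.im|)}

/-- The upper half. -/
def kY (L : Set ℝ) : Set (ℂ × ℝ) := {p | p ∈ kF L ∧ 0 ≤ p.1.im}

/-- The right part of the real slice. -/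
def kC (L : Set ℝ) : Set (ℂ × ℝ) := {p | p ∈ kF L ∧ p.1.im = 0 ∧ 5 / 2 ≤ p.1.re}

theorem mem_kU {ζ : ℂ} :
    ζ ∈ kU ↔ 1 / 4 ≤ (ζ.re - 2) ^ 2 + ζ.im ^ 2 ∧ 1 / 4 ≤ (ζ.re + 2) ^ 2 + ζ.im ^ 2 := by
  have h : ∀ w : ℂ, 1 / 2 ≤ ‖w‖ ↔ 1 / 4 ≤ w.re ^ 2 + w.im ^ 2 := fun w => by
    rw [← sq_le_sq₀ (by norm_num) (norm_nonneg _), Complex.sq_norm, Complex.normSq_apply]
    norm_num [sq]
  simp only [kU, mem_ofPred_eq, h]
  simp

variable {L : Set ℝ}

theorem kF_T (hL : ∀ t, t + 1 ∈ L ↔ t ∈ L) {p : ℂ × ℝ} : kT p ∈ kF L ↔ p ∈ kF L := by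
  simp only [kF, kT, mem_ofPred_eq, mem_kU, hL, Complex.neg_re, Complex.neg_im, abs_neg]
  refine and_congr_left fun _ => ?_
  constructor <;> rintro ⟨h1, h2⟩ <;> constructor <;> nlinarith

theorem kY_dn (hL : ∀ t, t + 1 ∈ L ↔ t ∈ L) {p : ℂ × ℝ} (hp : p ∈ kF L) (h : p.1.im ≤ 0) :
    kT p ∈ kY L := ⟨(kF_T hL).2 hp, by simpa [kT] using h⟩

theorem kY_TT (hL : ∀ t, t + 1 ∈ L ↔ t ∈ L) {p : ℂ × ℝ} (hp : p ∈ kY L) : kT (kT p) ∈ kY L :=
  kY_dn hL ((kF_T hL).2 hp.1) (by simpa [kT] using hp.2)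

theorem kY_push (L : Set ℝ) :
    (∀ p ∈ kY L, ∀ s ∈ Icc (0 : ℝ) 1, p + s • (5 * Complex.I, (0 : ℝ)) ∈ kY L) ∧
    (∀ p ∈ kY L, p + (5 * Complex.I, (0 : ℝ)) ∈ {p : ℂ × ℝ | 5 ≤ p.1.im}) ∧
    Convex ℝ {p : ℂ × ℝ | 5 ≤ p.1.im} ∧ {p : ℂ × ℝ | 5 ≤ p.1.im} ⊆ kY L := by
  refine ⟨fun p ⟨⟨h1, h2⟩, h3⟩ s hs => ?_, fun p hp => by simpa using hp.2,
    (convex_halfSpace_im_ge 5).is_linear_preimage (LinearMap.fst ℝ ℂ ℝ).isLinear, fun p hp => ?_⟩
  · have e1 : (p + s • (5 * Complex.I, (0 : ℝ))).1.re = p.1.re := by simp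
    have e2 : (p + s • (5 * Complex.I, (0 : ℝ))).1.im = p.1.im + s * 5 := by simp
    have e3 : (p + s • (5 * Complex.I, (0 : ℝ))).2 = p.2 := by simp
    have h4 := hs.1
    rw [mem_kU] at h1
    refine ⟨⟨mem_kU.2 ?_, fun h => ?_⟩, by rw [e2]; positivity⟩
    · rw [e1, e2]
      constructor <;> nlinarith [h1.1, h1.2, mul_nonneg h3 h4]
    · rw [e1, e2, abs_of_nonneg (by positivity : 0 ≤ p.1.im + s * 5)]
      rw [e3] at h
      refine (h2 h).imp_right fun h5 => ?_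
      rw [abs_of_nonneg h3] at h5
      linarith
  · have h : 5 ≤ p.1.im := hp
    refine ⟨⟨mem_kU.2 ⟨?_, ?_⟩, fun _ => Or.inr (lt_abs.2 (Or.inl ?_))⟩, ?_⟩ <;>
      nlinarith [sq_nonneg (p.1.re - 2), sq_nonneg (p.1.re + 2)]

theorem kY_join {p q : ℂ × ℝ} (hp : p ∈ kY L) (hq : q ∈ kY L) : JoinedIn (kY L) p q :=
  k_join (kY_push L).1 (kY_push L).2.1 (kY_push L).2.2.1 (kY_push L).2.2.2 hp hq

theorem kC_mem {x t : ℝ} (hx : 5 / 2 ≤ x) (h : t ∈ L → 3 < x) : ((x : ℂ), t) ∈ kC L :=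
  ⟨⟨mem_kU.2 ⟨by simp only [Complex.ofReal_re, Complex.ofReal_im]; nlinarith,
    by simp only [Complex.ofReal_re, Complex.ofReal_im]; nlinarith⟩,
    fun ht => Or.inl (lt_abs.2 (Or.inl (h ht)))⟩, Complex.ofReal_im x, hx⟩

theorem kC_conn : IsPreconnected (kC L) := by
  have e : ∀ p : ℂ × ℝ, p.1.im = 0 → ∀ s : ℝ,
      p + s • ((1 : ℂ), (0 : ℝ)) = (((p.1.re + s : ℝ) : ℂ), p.2) := fun p hp s =>
    Prod.ext (Complex.ext (by simp) (by simp [hp])) (by simp)
  refine k_conn fun p hp q hq => k_join (v := ((1 : ℂ), (0 : ℝ)))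
    (Q := {p : ℂ × ℝ | p.1.im ≤ 0} ∩ ({p | 0 ≤ p.1.im} ∩ {p | 7 / 2 ≤ p.1.re})) ?_ ?_ ?_ ?_ hp hq
  · rintro p ⟨⟨-, h2⟩, h3, h4⟩ s hs
    rw [e p h3]
    refine kC_mem (by linarith [hs.1]) fun h => ?_
    have h5 := h2 h
    rw [h3, abs_of_nonneg (by linarith : 0 ≤ p.1.re), abs_zero] at h5
    linarith [hs.1, h5.resolve_right (by norm_num)]
  · rintro p ⟨-, h3, h4⟩
    refine ⟨by simp [h3], by simp [h3], ?_⟩
    simp only [mem_ofPred_eq, Prod.fst_add, Complex.add_re, Complex.one_re]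
    linarith
  · exact ((convex_halfSpace_im_le 0).is_linear_preimage (LinearMap.fst ℝ ℂ ℝ).isLinear).inter
      (((convex_halfSpace_im_ge 0).is_linear_preimage (LinearMap.fst ℝ ℂ ℝ).isLinear).inter
        ((convex_halfSpace_re_ge (7 / 2)).is_linear_preimage (LinearMap.fst ℝ ℂ ℝ).isLinear))
  · rintro p ⟨h1, h2, h3⟩
    have h4 : 7 / 2 ≤ p.1.re := h3
    have h5 := e p (le_antisymm h1 h2) 0
    rw [zero_smul, add_zero, add_zero] at h5
    rw [h5]
    exact kC_mem (by linarith) fun _ => by linarith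

theorem kM_mem {x t : ℝ} (h1 : -(3 / 2) ≤ x) (h2 : x ≤ 3 / 2) (h : t ∉ L) : ((x : ℂ), t) ∈ kF L :=
  ⟨mem_kU.2 ⟨by simp only [Complex.ofReal_re, Complex.ofReal_im]; nlinarith,
    by simp only [Complex.ofReal_re, Complex.ofReal_im]; nlinarith⟩, fun ht => (h ht).elim⟩

theorem kT_real (x t : ℝ) : kT ((x : ℂ), t) = (((-x : ℝ) : ℂ), t + 1) := by simp [kT]

/-! ### Curves -/

/-- The cylinder about the right strand. -/
noncomputable def kcyl (q : ℝ × ℝ) : ℂ × ℝ := (2 + Circle.exp (2 * π * q.1) / 2, q.2)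

/-- The meridian of the braid axis. -/
noncomputable def kfc (s : ℝ) : ℂ × ℝ := (5 * (Circle.exp (π * s) : ℂ)⁻¹ ^ 3, s)

/-- The figure eight. -/
noncomputable def kbz (s : ℝ) : ℂ × ℝ :=
  (((3 * cos (2 * π * s) : ℝ) : ℂ) + (sin (2 * (2 * π * s)) : ℝ) * Complex.I, 1 / 2)

/-- The small disc. -/
noncomputable def kD (z : ℂ) : ℂ × ℝ := (((3 + z.re / 4 : ℝ) : ℂ), 1 / 2 + z.im / 4)

theorem kcyl_cont : Continuous kcyl := by unfold kcyl; fun_prop

theorem kfc_eq (s : ℝ) : kfc s =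
    (((5 * cos (3 * (π * s)) : ℝ) : ℂ) + (-(5 * sin (3 * (π * s))) : ℝ) * Complex.I, s) := by
  have h : (Circle.exp (π * s) : ℂ)⁻¹ ^ 3 = Circle.exp (-(3 * (π * s))) := by
    have h := Circle.exp_natCast_mul (π * s) 3
    rw [Nat.cast_ofNat] at h
    rw [Circle.exp_neg, h]
    simp
  rw [kfc, h, Circle.coe_exp, Complex.exp_mul_I, ← Complex.ofReal_cos, ← Complex.ofReal_sin,
    cos_neg, sin_neg]
  push_cast
  congr 1
  ring

theorem kfc_cont : Continuous kfc := by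
  rw [funext kfc_eq]
  fun_prop

theorem kbz_cont : Continuous kbz := by unfold kbz; fun_prop

theorem kD_cont : Continuous kD := by unfold kD; fun_prop

theorem kcyl_re (q : ℝ × ℝ) : (kcyl q).1.re = 2 + cos (2 * π * q.1) / 2 := by
  simp only [kcyl, Circle.coe_exp, Complex.add_re, Complex.re_ofNat, Complex.div_ofNat_re,
    Complex.exp_ofReal_mul_I_re]

theorem kcyl_im (q : ℝ × ℝ) : (kcyl q).1.im = sin (2 * π * q.1) / 2 := by
  simp only [kcyl, Circle.coe_exp, Complex.add_im, Complex.im_ofNat, Complex.div_ofNat_im,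
    Complex.exp_ofReal_mul_I_im, zero_add]

theorem kcyl_U (q : ℝ × ℝ) : (kcyl q).1 ∈ kU := by
  rw [mem_kU, kcyl_re, kcyl_im]
  constructor <;> nlinarith [sin_sq_add_cos_sq (2 * π * q.1), neg_one_le_cos (2 * π * q.1)]

theorem kcyl_per (u t : ℝ) : kcyl (u + 1, t) = kcyl (u, t) := by
  simp [kcyl, mul_add]

theorem kcyl_zero (t : ℝ) : kcyl (0, t) = (((5 / 2 : ℝ) : ℂ), t) := by
  norm_num [kcyl]

theorem kcyl_half (t : ℝ) : kcyl (1 / 2, t) = (((3 / 2 : ℝ) : ℂ), t) := by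
  have h : 2 * π * (1 / 2) = π := by ring
  simp only [kcyl, h, Circle.coe_exp, Complex.exp_pi_mul_I]
  norm_num

theorem k_sin {a s : ℝ} (n : ℕ) (h1 : n ≤ a * s) (h2 : a * s ≤ n + 1) :
    0 ≤ (-1) ^ n * sin (a * (π * s)) := by
  have h := sin_add_nat_mul_pi (a * (π * s) - n * π) n
  rw [sub_add_cancel] at h
  rw [h, ← mul_assoc, ← mul_pow, neg_mul_neg, one_mul, one_pow, one_mul]
  exact sin_nonneg_of_nonneg_of_le_pi (by nlinarith [pi_pos]) (by nlinarith [pi_pos])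

theorem k_re (x y : ℝ) : ((x : ℂ) + y * Complex.I).re = x := by simp

theorem k_im (x y : ℝ) : ((x : ℂ) + y * Complex.I).im = y := by simp

theorem kfc_im (s : ℝ) : (kfc s).1.im = -(5 * sin (3 * (π * s))) := by
  rw [kfc_eq]; exact k_im _ _

theorem kfc_F (s : ℝ) : kfc s ∈ kF L := by
  have h := sin_sq_add_cos_sq (3 * (π * s))
  have h1 := neg_one_le_cos (3 * (π * s))
  have h2 := cos_le_one (3 * (π * s))
  have e1 : (kfc s).1.re = 5 * cos (3 * (π * s)) := by rw [kfc_eq]; exact k_re _ _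
  have e2 := kfc_im s
  refine ⟨mem_kU.2 ?_, fun _ => ?_⟩
  · rw [e1, e2]
    constructor <;> nlinarith
  · rw [e1, e2]
    by_contra hc
    obtain ⟨h3, h4⟩ := not_or.1 hc
    have h5 := sq_le_sq' (abs_le.1 (not_lt.1 h3)).1 (abs_le.1 (not_lt.1 h3)).2
    have h6 := sq_le_sq' (abs_le.1 (not_lt.1 h4)).1 (abs_le.1 (not_lt.1 h4)).2
    nlinarith

theorem kfc_val : kfc 0 = (((5 : ℝ) : ℂ), 0) ∧ kfc (1 / 3) = kT (((5 : ℝ) : ℂ), -(2 / 3)) ∧
    kfc (2 / 3) = (((5 : ℝ) : ℂ), 2 / 3) ∧ kfc 1 = kT (((5 : ℝ) : ℂ), 0) := by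
  have e1 : 3 * (π * (1 / 3)) = π := by ring
  have e2 : 3 * (π * (2 / 3)) = 2 * π := by ring
  have e3 : 3 * (π * 1) = π + 2 * π := by ring
  simp only [kfc_eq, e1, e2, e3, kT, cos_add_two_pi, sin_add_two_pi]
  norm_num

/-! ### The basic computation -/

section Calc
variable {G : Type} [Group G] {φ : ℂ × ℝ → ℂ × ℝ → G} {Z : Set (ℂ × ℝ)} {B : ℂ × ℝ → G}

theorem kT_cont : Continuous kT := by unfold kT; fun_prop

theorem k_trivT (hT : pb kT φ = φ) {D : Set (ℂ × ℝ)} (hB : Triv φ D B) :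
    Triv φ (kT ⁻¹' D) (B ∘ kT) := by
  have h := hB.pb kT_cont.continuousOn (mapsTo_preimage kT D)
  rwa [hT] at h

/-- The data of the diagram. -/
structure KDat (φ : ℂ × ℝ → ℂ × ℝ → G) (Z : Set (ℂ × ℝ)) (L : Set ℝ) (B : ℂ × ℝ → G)
    (b c μ : G) : Prop where
  fl : Fl φ Z
  sub : kF L ⊆ Z
  per : ∀ t, t + 1 ∈ L ↔ t ∈ L
  zero : (0 : ℝ) ∉ L
  up : Triv φ (kY L) B
  dn : Triv φ (kT ⁻¹' kY L) (B ∘ kT)
  hb : ∀ p ∈ kY L, B (kT (kT p)) = b * B p
  hc : ∀ p ∈ kC L, B p = c * B (kT p)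
  hp : B (((3 / 2 : ℝ) : ℂ), 0) = μ * B (kT (((3 / 2 : ℝ) : ℂ), 0))
  hm : B (((-(3 / 2) : ℝ) : ℂ), 0) = μ * B (kT (((-(3 / 2) : ℝ) : ℂ), 0))
  comm : b * c = c * b

theorem k_dat (hφ : Fl φ Z) (hZ : kF L ⊆ Z) (hT : pb kT φ = φ) (hL : ∀ t, t + 1 ∈ L ↔ t ∈ L)
    (h0 : (0 : ℝ) ∉ L) : ∃ B b c μ, KDat φ Z L B b c μ := by
  obtain ⟨B, hB⟩ := k_triv (hφ.mono fun p hp => hZ hp.1) (kY_push L).1 (kY_push L).2.1
    (kY_push L).2.2.1 (kY_push L).2.2.2
  have h1 := k_trivT hT hB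
  have h2 := (k_trivT hT h1).mono (D' := kY L) fun p hp => kY_TT hL hp
  have hP : (((5 / 2 : ℝ) : ℂ), (0 : ℝ)) ∈ kC L := kC_mem le_rfl fun h => (h0 h).elim
  have hY : kC L ⊆ kY L := fun p hp => ⟨hp.1, hp.2.1.ge⟩
  have hY' : kC L ⊆ kT ⁻¹' kY L := fun p hp => kY_dn hL hp.1 hp.2.1.le
  obtain ⟨b, hb⟩ : ∃ b, ∀ p ∈ kY L, B (kT (kT p)) = b * B p := ⟨_, fun p hp =>
    eq_mul_of_mul_inv_eq (h2.uniq hB (k_conn fun _ hp _ hq => kY_join hp hq) hp (hY hP))⟩
  obtain ⟨c, hc⟩ : ∃ c, ∀ p ∈ kC L, B p = c * B (kT p) := ⟨_, fun p hp =>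
    eq_mul_of_mul_inv_eq ((hB.mono hY).uniq (h1.mono hY') kC_conn hp hP)⟩
  have h3 := k_path hB h1 (γ := fun s => (((3 / 2 - 3 * s : ℝ) : ℂ), (0 : ℝ))) (by fun_prop)
    fun s hs => by
      have h := kM_mem (x := 3 / 2 - 3 * s) (by linarith [hs.2]) (by linarith [hs.1]) h0
      exact ⟨⟨h, (Complex.ofReal_im _).ge⟩, kY_dn hL h (Complex.ofReal_im _).le⟩
  rw [show (3 / 2 - 3 * 0 : ℝ) = 3 / 2 by norm_num,
    show (3 / 2 - 3 * 1 : ℝ) = -(3 / 2) by norm_num] at h3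
  refine ⟨B, _, _, _, hφ, hZ, hL, h0, hB, h1, hb, hc, eq_mul_of_mul_inv_eq rfl,
    eq_mul_of_mul_inv_eq h3.symm, ?_⟩
  have hP2 : kT (kT (((5 / 2 : ℝ) : ℂ), (0 : ℝ))) ∈ kC L := by
    rw [kT_real, kT_real, neg_neg]
    exact kC_mem le_rfl fun h => (h0 ((hL _).1 ((hL _).1 h))).elim
  have e1 := hc _ hP2
  rw [hb _ (hY hP), hb _ (hY' hP), hc _ hP, ← mul_assoc, ← mul_assoc] at e1
  exact mul_right_cancel e1

variable {b c μ : G} (h : KDat φ Z L B b c μ)
include h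

theorem KDat.tr_up {γ : ℝ → ℂ × ℝ} (hγ : Cv Z γ) {s t : ℝ} (hs : s ≤ t)
    (hD : ∀ u ∈ Icc s t, γ u ∈ kF L ∧ 0 ≤ (γ u).1.im) :
    tr (pb γ φ) univ s t = (B (γ s))⁻¹ * B (γ t) :=
  tr_arc h.fl hγ h.up (by rwa [uIcc_of_le hs])

theorem KDat.tr_dn {γ : ℝ → ℂ × ℝ} (hγ : Cv Z γ) {s t : ℝ} (hs : s ≤ t)
    (hD : ∀ u ∈ Icc s t, γ u ∈ kF L ∧ (γ u).1.im ≤ 0) :
    tr (pb γ φ) univ s t = (B (kT (γ s)))⁻¹ * B (kT (γ t)) :=
  tr_arc h.fl hγ h.dn (by
    rw [uIcc_of_le hs]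
    exact fun u hu => kY_dn h.per (hD u hu).1 (hD u hu).2)

theorem KDat.left {p : ℂ × ℝ} (hp : p ∈ kC L) : B (kT (kT p)) = b * c * B (kT p) := by
  rw [h.hb p ⟨hp.1, hp.2.1.ge⟩, h.hc p hp, mul_assoc]

theorem KDat.fill (hf : hol φ kfc = 1) : b * c * c * b * c = 1 := by
  have hγ : Cv Z kfc := ⟨kfc_cont, fun s => h.sub (kfc_F s)⟩
  have hC : ∀ t : ℝ, (((5 : ℝ) : ℂ), t) ∈ kC L := fun t => kC_mem (by norm_num) fun _ => by norm_num
  obtain ⟨v0, v1, v2, v3⟩ := kfc_val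
  rw [hol, ← tr_mul _ _ 0 (1 / 3) 1, ← tr_mul _ _ (1 / 3) (2 / 3) 1,
    h.tr_dn hγ (by norm_num) fun u hu => ⟨kfc_F u, by
      have := k_sin (a := 3) (s := u) 0 (by simpa using hu.1) (by norm_num; linarith [hu.2])
      rw [kfc_im]; linarith⟩,
    h.tr_up hγ (by norm_num) fun u hu => ⟨kfc_F u, by
      have := k_sin (a := 3) (s := u) 1 (by norm_num; linarith [hu.1])
        (by norm_num; linarith [hu.2])
      rw [kfc_im]; linarith⟩,
    h.tr_dn hγ (by norm_num) fun u hu => ⟨kfc_F u, by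
      have := k_sin (a := 3) (s := u) 2 (by norm_num; linarith [hu.1])
        (by norm_num; linarith [hu.2])
      rw [kfc_im]; linarith⟩, v0, v1, v2, v3, h.left (hC _), h.left (hC _), h.hc _ (hC (2 / 3))]
    at hf
  rw [← conj_eq_one_iff (a := (B (kT (((5 : ℝ) : ℂ), 0)))⁻¹), ← hf]
  group

theorem KDat.mer {t : ℝ} (ht : t ∉ L) : hol φ (fun s => kcyl (s, t)) =
    (B (kcyl (0, t)))⁻¹ * (B (((3 / 2 : ℝ) : ℂ), t) * (B (kT (((3 / 2 : ℝ) : ℂ), t)))⁻¹ * c⁻¹) *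
      B (kcyl (0, t)) := by
  have hF : ∀ s, kcyl (s, t) ∈ kF L := fun s => ⟨kcyl_U _, fun e => (ht e).elim⟩
  have hγ : Cv Z fun s => kcyl (s, t) := ⟨kcyl_cont.comp (by fun_prop), fun s => h.sub (hF s)⟩
  have e1 : kcyl (1, t) = kcyl (0, t) := by simpa using kcyl_per 0 t
  have e2 : B (kcyl (0, t)) = c * B (kT (kcyl (0, t))) := by
    rw [kcyl_zero]
    exact h.hc _ (kC_mem le_rfl fun e => (ht e).elim)
  rw [hol, ← tr_mul _ _ 0 (1 / 2) 1,
    h.tr_up hγ (by norm_num) fun u hu => ⟨hF u, by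
      have := k_sin (a := 2) (s := u) 0 (by simpa using hu.1) (by norm_num; linarith [hu.2])
      rw [kcyl_im, mul_assoc]; linarith⟩,
    h.tr_dn hγ (by norm_num) fun u hu => ⟨hF u, by
      have := k_sin (a := 2) (s := u) 1 (by norm_num; linarith [hu.1])
        (by norm_num; linarith [hu.2])
      rw [kcyl_im, mul_assoc]; linarith⟩, e1, kcyl_half, e2]
  group

theorem KDat.mer0 : hol φ (fun s => kcyl (s, 0)) =
    (B (kcyl (0, 0)))⁻¹ * (μ * c⁻¹) * B (kcyl (0, 0)) := by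
  rw [h.mer h.zero, h.hp]
  group

theorem KDat.mer1 : hol φ (fun s => kcyl (s, 1)) =
    (B (kcyl (0, 1)))⁻¹ * (μ⁻¹ * b⁻¹ * c⁻¹) * B (kcyl (0, 1)) := by
  have e : (((3 / 2 : ℝ) : ℂ), (1 : ℝ)) = kT (((-(3 / 2) : ℝ) : ℂ), 0) := by
    rw [kT_real, neg_neg, zero_add]
  rw [h.mer fun e => h.zero ((h.per 0).1 (by simpa using e)), e,
    h.hb _ ⟨kM_mem le_rfl (by norm_num) h.zero, (Complex.ofReal_im _).ge⟩, h.hm]
  group

omit h in
theorem k_sigma (hL : ∀ t, t + 1 ∈ L ↔ t ∈ L) (h0 : (0 : ℝ) ∉ L) : ∃ σ, Lp (kF L) (kcyl (0, 0)) σ ∧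
    ∀ {G : Type} [Group G] {φ : ℂ × ℝ → ℂ × ℝ → G} {Z : Set (ℂ × ℝ)} {B : ℂ × ℝ → G} {L' : Set ℝ}
      {b c μ : G}, KDat φ Z L' B b c μ → L' ⊆ L →
      hol φ σ = (B (kcyl (0, 0)))⁻¹ * (c⁻¹ * b⁻¹ * μ⁻¹) * B (kcyl (0, 0)) := by
  have hP : kcyl (0, 0) ∈ kF L := ⟨kcyl_U _, fun e => (h0 e).elim⟩
  have hi : (kcyl (0, 0)).1.im = 0 := by rw [kcyl_zero]; exact Complex.ofReal_im _
  have hq : (((-(3 / 2) : ℝ) : ℂ), (0 : ℝ)) ∈ kF L := kM_mem le_rfl (by norm_num) h0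
  obtain ⟨γ₁, c1, a1, b1⟩ := exists_cv (kY_join ⟨hP, hi.ge⟩ (kY_dn hL hP hi.le))
  obtain ⟨γ₂, c2, a2, b2⟩ := exists_cv (kY_join (kY_TT hL ⟨hP, hi.ge⟩)
    (kY_dn hL hq (Complex.ofReal_im _).le))
  obtain ⟨γ₃, c3, a3, b3⟩ := exists_cv (kY_join ⟨hq, (Complex.ofReal_im _).ge⟩ ⟨hP, hi.ge⟩)
  let γ : ℝ → ℂ × ℝ := fun s => (-(γ₂ s).1, (γ₂ s).2 - 1)
  have hγ : ∀ s, kT (γ s) = γ₂ s := fun s => by simp [γ, kT]
  have inj : Function.Injective kT := fun p q e => by simpa [kT, Prod.ext_iff] using e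
  have a2' : γ 0 = kT (kcyl (0, 0)) := inj ((hγ 0).trans a2)
  have b2' : γ 1 = _ := inj ((hγ 1).trans b2)
  have d1 : Cv (kF L) γ₁ := c1.mono fun _ hp => hp.1
  have d2 : Cv (kF L) γ := ⟨by have := c2.1; fun_prop, fun s => (kF_T hL).1 (hγ s ▸ (c2.2 s).1)⟩
  have d3 : Cv (kF L) γ₃ := c3.mono fun _ hp => hp.1
  have e1 : γ₁ 1 = γ 0 := b1.trans a2'.symm
  have e2 : cat γ₁ γ 1 = γ₃ 0 := by rw [cat_one, b2', a3]
  refine ⟨cat (cat γ₁ γ) γ₃, ⟨(d1.cat d2 e1).cat d3 e2, by rw [cat_zero, cat_zero, a1],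
    by rw [cat_one, b3]⟩, fun {G} _ {φ Z B L' b c μ} h hL' => ?_⟩
  have s1 : kF L ⊆ kF L' := fun p hp => ⟨hp.1, fun e => hp.2 (hL' e)⟩
  have s2 : kF L ⊆ Z := s1.trans h.sub
  have s3 : kY L ⊆ kY L' := fun p hp => ⟨s1 hp.1, hp.2⟩
  have hC : kcyl (0, 0) ∈ kC L' := by
    rw [kcyl_zero]
    exact kC_mem le_rfl fun e => (h.zero e).elim
  rw [hol_cat h.fl ((d1.cat d2 e1).mono s2) (d3.mono s2) e2,
    hol_cat h.fl (d1.mono s2) (d2.mono s2) e1,
    hol_triv h.fl (d1.mono s2) h.up fun t _ => s3 (c1.2 t),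
    hol_triv h.fl (d2.mono s2) h.dn fun t _ => s3 (hγ t ▸ c2.2 t : kT (γ t) ∈ kY L),
    hol_triv h.fl (d3.mono s2) h.up fun t _ => s3 (c3.2 t), a1, b1, a2', b2', a3, b3]
  simp only [Function.comp]
  rw [h.left hC, h.hm, h.hc _ hC]
  group

omit h in
theorem k_cyl (hφ : Fl φ Z) (hZ : ∀ q, kcyl q ∈ Z) : ∃ (ν : G) (W : ℝ × ℝ → G),
    (∀ u t, W (u + 1, t) = ν * W (u, t)) ∧ ∀ γ : ℝ → ℝ × ℝ, Continuous γ →
      hol φ (kcyl ∘ γ) = (W (γ 0))⁻¹ * W (γ 1) := by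
  have hf : Fl (pb kcyl φ) univ := hφ.pb kcyl_cont.continuousOn fun q _ => hZ q
  obtain ⟨W, hW⟩ := exists_triv_convex hf convex_univ
  have h1 := hW.pb (f := fun q : ℝ × ℝ => (q.1 + 1, q.2)) (D' := univ) (by fun_prop)
    (mapsTo_univ _ _)
  have e : pb (fun q : ℝ × ℝ => (q.1 + 1, q.2)) (pb kcyl φ) = pb kcyl φ := by
    ext p q
    simp only [pb, kcyl_per]
  rw [e] at h1
  exact ⟨_, W, fun u t => eq_mul_of_mul_inv_eq
    (h1.uniq hW isPreconnected_univ (x := (u, t)) (y := 0) trivial trivial),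
    fun γ hγ => hol_triv hf ⟨hγ, fun _ => trivial⟩ hW fun _ _ => trivial⟩

end Calc

end Pool.Agent.MP_b8a826_gt

end
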