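import Pool.Agent.MP_b8a826_gt.Mg.AlexH
import Pool.Agent.MP_b8a826_gt.Mg.BL
import Pool.Agent.MP_b8a826_gt.Mg.KSide2

-- part MP_b8a826_gt.Alex
section

/-! Alexander duality for the complement of the annulus. -/

namespace Pool.Agent.MP_b8a826_gt
open Set unitInterval Metric

theorem acyc_img {F E : Type} [NormedAddCommGroup F] [NormedSpace ℝ F] [NormedAddCommGroup E]
    [NormedSpace ℝ E] (Θ : OpenPartialHomeomorph F E) {S : Set F} (hS : IsOpen S)
    (h : S ⊆ Θ.source) {x : F} (hx : x ∈ S) (hc : StarConvex ℝ x S) (n : ℕ) : Acyc (Θ '' S) n :=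
  acyc_dom (Θ.isOpen_image_of_subset_source hS h) hS (f := Θ.symm) (g := Θ) (H := Prod.snd)
    (Θ.continuousOn_symm.mono (image_subset_iff.2 fun _ hy => Θ.map_source (h hy)))
    (by rintro _ ⟨y, hy, rfl⟩; rwa [Θ.left_inv (h hy)]) (Θ.continuousOn.mono h)
    (mapsTo_image _ _) continuousOn_snd (fun _ hp => hp.2)
    (by rintro _ ⟨y, hy, rfl⟩; simp [Θ.left_inv (h hy)]) (acyc_star hx hc n)

theorem star_slit (ε : ℝ) :
    StarConvex ℝ ((0, (ε / 2 : ℝ) * Complex.I) : (ℝ × ℝ) × ℂ)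
      {v | v.2.re ≠ 0 ∨ 0 < ε * v.2.im ∨ ε = 0} := by
  intro v hv a b ha hb hab
  simp only [mem_ofPred_eq, Prod.snd_add, Prod.smul_snd, Complex.add_re, Complex.add_im,
    Complex.real_smul, Complex.mul_re, Complex.mul_im, Complex.ofReal_re, Complex.ofReal_im,
    Complex.I_re, Complex.I_im] at hv ⊢
  rcases eq_or_ne ε 0 with h | h
  · exact Or.inr (Or.inr h)
  have := mul_self_pos.2 h
  rcases hb.eq_or_lt with rfl | hb'
  · refine Or.inr (Or.inl ?_)
    rw [add_zero] at hab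
    subst hab
    nlinarith
  · rcases hv with hv | hv | hv
    · exact Or.inl (by simpa using ⟨hb'.ne', hv⟩)
    · exact Or.inr (Or.inl (by nlinarith [mul_pos hb' hv, mul_nonneg ha this.le]))
    · exact absurd hv h

theorem alex_chart {A : C(Circle × I, S3 × I)} (hA : Conc A)
    {Θ : OpenPartialHomeomorph ((ℝ × ℝ) × ℂ) E4} (hΘ : Chart (WA A)ᶜ Θ) :
    Acyc (WA A) 1 ∧ Acyc (WA A) 3 ∧ ∃ m ∈ CB ℤ (WA A) 2, bd m = 0 ∧
      (∀ z ∈ CB ℤ (WA A) 2, bd z = 0 → ∃ k : ℤ, ∃ v ∈ CB ℤ (WA A) 3, z = k • m + bd v) ∧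
      (∀ k : ℤ, (∃ v ∈ CB ℤ (WA A) 3, bd v = k • m) → k = 0) ∧
      ∀ τ, Coc (WA A) τ → wt τ m = (hol τ (circ fun θ => Θ (0, θ))).toAdd := by
  obtain ⟨δ, hδ, hs⟩ := (isCompact_closedBall (0 : (ℝ × ℝ) × ℂ) 1).exists_thickening_subset_open
    Θ.open_source hΘ.1
  rw [thickening_closedBall hδ zero_le_one] at hs
  set B := ball (0 : (ℝ × ℝ) × ℂ) (δ + 1)
  have mB : ∀ v : (ℝ × ℝ) × ℂ, ‖v‖ ≤ 1 → v ∈ B := fun v hv => by
    rw [mem_ball_zero_iff]; linarith
  have op : ∀ S, IsOpen S → IsOpen (Θ '' (B ∩ S)) := fun S hS =>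
    Θ.isOpen_image_of_subset_source (isOpen_ball.inter hS) (inter_subset_left.trans hs)
  have ac : ∀ S, IsOpen S → ∀ x, ‖x‖ ≤ 1 → x ∈ S → StarConvex ℝ x S → ∀ n,
      Acyc (Θ '' (B ∩ S)) n := fun S hS x h1 h2 h3 n =>
    acyc_img Θ (isOpen_ball.inter hS) (inter_subset_left.trans hs) ⟨mB x h1, h2⟩
      ((convex_ball _ _ (mB x h1)).inter h3) n
  have hW : IsOpen (WA A) := open_WA
  have inW : ∀ v ∈ B, Θ v ∈ WA A ↔ v.2 ≠ 0 := fun v hv => by
    rw [Ne, ← hΘ.2 v (hs hv), mem_compl_iff, not_not]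
  let S : ℝ → Set ((ℝ × ℝ) × ℂ) := fun ε => {v | v.2.re ≠ 0 ∨ 0 < ε * v.2.im ∨ ε = 0}
  let T : ℝ → Set ((ℝ × ℝ) × ℂ) := fun ε => {v | 0 < ε * v.2.re}
  have oS : ∀ ε, IsOpen (S ε) := fun ε => (isOpen_ne_fun (by fun_prop) (by fun_prop)).union
    ((isOpen_lt (f := fun _ => (0 : ℝ)) (g := fun v : (ℝ × ℝ) × ℂ => ε * v.2.im) (by fun_prop)
      (by fun_prop)).union isOpen_const)
  have oT : ∀ ε, IsOpen (T ε) := fun ε => isOpen_lt (by fun_prop) (by fun_prop)
  have aS : ∀ ε : ℝ, ε ^ 2 = 1 → ∀ n, Acyc (Θ '' (B ∩ S ε)) n := fun ε h =>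
    ac _ (oS ε) _ (by
      rcases sq_eq_one_iff.1 h with rfl | rfl <;> norm_num)
      (Or.inr (Or.inl (by simp; nlinarith))) (star_slit ε)
  have aT : ∀ ε : ℝ, ε ^ 2 = 1 → ∀ n, Acyc (Θ '' (B ∩ T ε)) n := fun ε h =>
    ac _ (oT ε) (0, ε) (by
      rcases sq_eq_one_iff.1 h with rfl | rfl <;> norm_num)
      (by simp [T]; nlinarith) (Convex.starConvex (fun v hv w hw a b ha hb hab => by
        simp only [T, mem_ofPred_eq, Prod.snd_add, Prod.smul_snd, Complex.add_re,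
          Complex.real_smul, Complex.mul_re, Complex.ofReal_re, Complex.ofReal_im] at hv hw ⊢
        rcases ha.eq_or_lt with rfl | ha'
        · rw [zero_add] at hab; subst hab; simpa using hw
        · nlinarith [mul_pos ha' hv, mul_nonneg hb hw.le]) (by simp [T]; nlinarith))
  have inj : InjOn Θ B := Θ.injOn.mono hs
  have cc : Continuous (circ fun θ : Circle => Θ (0, θ)) :=
    circ_cont (Θ.continuousOn.comp_continuous (by fun_prop) fun θ => hΘ.1 (by simp))
  have cB : ∀ θ : Circle, ((0, θ) : (ℝ × ℝ) × ℂ) ∈ B := fun θ => mB _ (by simp)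
  have cS : ∀ ε r : ℝ, ε ^ 2 = 1 → 0 ≤ ε * Real.sin (2 * Real.pi * r) →
      circ (fun θ : Circle => Θ (0, θ)) r ∈ Θ '' (B ∩ S ε) := fun ε r h1 h2 => by
    refine ⟨_, ⟨cB _, ?_⟩, rfl⟩
    simp only [S, mem_ofPred_eq, Circle.coe_exp, Complex.exp_ofReal_mul_I_re,
      Complex.exp_ofReal_mul_I_im]
    by_contra h
    push Not at h
    have := Real.sin_sq_add_cos_sq (2 * Real.pi * r)
    have h3 := le_antisymm h.2.1 h2
    rw [h.1, (mul_eq_zero.1 h3).resolve_left h.2.2] at this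
    norm_num at this
  obtain ⟨c₁, h₁, e₁, w₁⟩ := exists_poly (op _ (oS 1)) cc (s := 0) (t := 1 / 2) (by norm_num)
    fun r hr => cS 1 r (by norm_num) (by
      rw [one_mul]
      exact Real.sin_nonneg_of_nonneg_of_le_pi (by have := hr.1; positivity)
        (by nlinarith [hr.2, Real.pi_pos]))
  obtain ⟨c₂, h₂, e₂, w₂⟩ := exists_poly (op _ (oS (-1))) cc (s := 1 / 2) (t := 1) (by norm_num)
    fun r hr => cS (-1) r (by norm_num) (by
      have := Real.sin_nonneg_of_nonneg_of_le_pi (x := 2 * Real.pi - 2 * Real.pi * r)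
        (by nlinarith [hr.2, Real.pi_pos]) (by nlinarith [hr.1, Real.pi_pos])
      rw [Real.sin_two_pi_sub] at this
      linarith)
  have half : circ (fun θ : Circle => Θ (0, θ)) (1 / 2) = Θ (0, -1) := by
    have : 2 * Real.pi * (1 / 2) = Real.pi := by ring
    simp only [circ, this, Circle.coe_exp, Complex.exp_pi_mul_I]
  rw [half, circ_zero] at e₁
  rw [half, circ_one] at e₂
  have hM : Θ '' (B ∩ S 1) ∪ Θ '' (B ∩ S (-1)) = Θ '' (B ∩ {v | v.2 ≠ 0}) := by
    rw [← image_union, ← inter_union_distrib_left]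
    congr 2
    ext v
    simp only [S, mem_union, mem_ofPred_eq, Ne, Complex.ext_iff, Complex.zero_re, Complex.zero_im]
    rcases eq_or_ne v.2.re 0 with h | h
    · rcases lt_trichotomy v.2.im 0 with h' | h' | h'
      · simp [h, h', h'.ne]
      · simp [h, h']
      · simp [h, h', h'.ne']
    · simp [h]
  obtain ⟨m1, m3, mg, mi⟩ := circle_hom (op _ (oS 1)) (op _ (oS (-1))) (op _ (oT 1))
    (op _ (oT (-1))) (by
      rw [← inj.image_inter inter_subset_left inter_subset_left, ← image_union,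
        ← inter_union_distrib_left, ← inter_inter_distrib_left]
      congr 2
      ext v
      simp only [S, T, mem_union, mem_inter_iff, mem_ofPred_eq]
      rcases lt_trichotomy v.2.re 0 with h | h | h
      · simp [h, h.ne]
      · simp [h]; exact le_of_lt
      · simp [h, h.ne'])
    (by
      rw [disjoint_iff_inter_eq_empty, ← inj.image_inter inter_subset_left inter_subset_left,
        image_eq_empty, eq_empty_iff_forall_notMem]
      intro v hv
      have h1 : 0 < 1 * v.2.re := hv.1.2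
      have h2 : 0 < -1 * v.2.re := hv.2.2
      linarith)
    (aS 1 (by norm_num)) (aS (-1) (by norm_num)) (aT 1 (by norm_num)) (aT (-1) (by norm_num))
    ⟨_, ⟨cB 1, by simp [T]⟩, rfl⟩ ⟨(0, -1), ⟨mB _ (by simp), by simp [T]⟩, rfl⟩ h₁ h₂ e₁ e₂
  rw [hM] at m1 m3 mg mi
  obtain ⟨a, ha1, ha⟩ : ∃ a : ℝ × ℝ, ‖a‖ ≤ 1 ∧ Θ (a, 0) ≠ 0 := by
    by_contra h
    push Not at h
    have := inj (mB (0, 0) (by simp)) (mB ((1, 0), 0) (by simp))
      ((h 0 (by simp)).trans (h (1, 0) (by simp)).symm)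
    simp [Prod.ext_iff] at this
  have aB : ((a, 0) : (ℝ × ℝ) × ℂ) ∈ B := mB _ (by simpa using ha1)
  obtain ⟨D, hD, D1, D2, D3, D4⟩ := alex_disc hA (by simp [inW _ aB]) ha (op _ isOpen_univ)
    ⟨_, ⟨aB, trivial⟩, rfl⟩
  have WD : WA A ⊆ Dᶜ := subset_compl_comm.1 D1
  have oN := (op _ isOpen_univ).inter hD.isOpen_compl
  have hU : WA A ∪ Θ '' (B ∩ univ) ∩ Dᶜ = Dᶜ := by
    refine (union_subset WD inter_subset_right).antisymm fun x hx => ?_
    by_cases h : x ∈ WA A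
    exacts [Or.inl h, Or.inr ⟨D2 ⟨h, hx⟩, hx⟩]
  have hI : WA A ∩ (Θ '' (B ∩ univ) ∩ Dᶜ) = Θ '' (B ∩ {v | v.2 ≠ 0}) := by
    ext x
    constructor
    · rintro ⟨h, ⟨v, hv, rfl⟩, -⟩
      exact ⟨v, ⟨hv.1, (inW v hv.1).1 h⟩, rfl⟩
    · rintro ⟨v, hv, rfl⟩
      exact ⟨(inW v hv.1).2 hv.2, ⟨v, ⟨hv.1, trivial⟩, rfl⟩, WD ((inW v hv.1).2 hv.2)⟩
  have MW : Θ '' (B ∩ {v | v.2 ≠ 0}) ⊆ WA A := hI ▸ inter_subset_left
  have red : ∀ n, ∀ z ∈ CB ℤ (WA A) n, bd z = 0 → ∃ z' ∈ CB ℤ (Θ '' (B ∩ {v | v.2 ≠ 0})) n,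
      bd z' = 0 ∧ ∃ u ∈ CB ℤ (WA A) (n + 1), z = z' + bd u := fun n z hz h0 =>
    hI ▸ mv_surj hW oN (hU.symm ▸ D4 n) hz h0
  have up : ∀ n, Acyc (Θ '' (B ∩ {v | v.2 ≠ 0})) n → Acyc (WA A) n := fun n h z hz h0 => by
    obtain ⟨z', h1, h2, u, hu, rfl⟩ := red n z hz h0
    obtain ⟨v, hv, rfl⟩ := h z' h1 h2
    exact ⟨v + u, add_mem (CC_mono MW hv) hu, map_add _ _ _⟩
  have mM : c₁ + c₂ ∈ CB ℤ (Θ '' (B ∩ {v | v.2 ≠ 0})) 2 :=
    hM ▸ add_mem (CC_mono subset_union_left h₁) (CC_mono subset_union_right h₂)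
  have m0 : bd (c₁ + c₂) = 0 := by rw [map_add, e₁, e₂]; simp
  refine ⟨up 1 m1, up 3 m3, c₁ + c₂, CC_mono MW mM, m0, fun z hz h0 => ?_, fun k ⟨v, hv, e⟩ => ?_,
    fun τ hτ => ?_⟩
  · obtain ⟨z', h1, h2, u, hu, rfl⟩ := red 2 z hz h0
    obtain ⟨k, v, hv, rfl⟩ := mg z' h1 h2
    exact ⟨k, v + u, add_mem (CC_mono MW hv) hu, by rw [map_add, add_assoc]⟩
  · obtain ⟨ε, hε, hb⟩ := Metric.mem_nhds_iff.1
      ((Θ.continuousAt (hs aB)).preimage_mem_nhds (hD.isOpen_compl.mem_nhds D3))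
    have a3 := ac {v | v.2 ≠ 0 ∨ v.1 ∈ ball a ε} ((isOpen_ne_fun (by fun_prop) (by fun_prop)).union
      (isOpen_ball.preimage continuous_fst)) (a, 0) (by simpa using ha1) (Or.inr (mem_ball_self hε))
      (fun w hw s t hs ht hst => by
        rcases ht.eq_or_lt with rfl | ht'
        · rw [add_zero] at hst; subst hst; exact Or.inr (by simpa using hε)
        · rcases hw with hw | hw
          · exact Or.inl (by simpa using ⟨ht'.ne', hw⟩)
          · exact Or.inr (convex_ball a ε (mem_ball_self hε) hw hs ht hst)) 2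
    obtain ⟨v', hv', e'⟩ := a3 _ (CC_mono (image_mono (inter_subset_inter_right _ fun _ => Or.inl))
      (Submodule.smul_mem _ k mM)) (by rw [map_smul, m0, smul_zero])
    obtain ⟨c, hc, ec⟩ := mv_inter hW oN (hU.symm ▸ D4 3) hv (CC_mono (by
      rintro _ ⟨w, hw, rfl⟩
      refine ⟨⟨w, ⟨hw.1, trivial⟩, rfl⟩, ?_⟩
      by_cases h : w.2 = 0
      · refine hb ?_
        have := hw.2.resolve_left (not_not.2 h)
        rw [mem_ball, Prod.dist_eq, h, dist_self]
        exact max_lt this hε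
      · exact WD ((inW w hw.1).2 h)) hv') (e.trans e'.symm)
    exact mi k ⟨c, hI ▸ hc, ec.trans e⟩
  · have cW : ∀ r, circ (fun θ : Circle => Θ (0, θ)) r ∈ WA A := fun r =>
      (inW _ (cB _)).2 (Circle.coe_ne_zero _)
    rw [map_add, w₁ _ τ hW ((hM ▸ subset_union_left :).trans MW) cW hτ,
      w₂ _ τ hW ((hM ▸ subset_union_right :).trans MW) cW hτ, ← toAdd_mul, tr_mul, hol]

theorem alex_core {A : C(Circle × I, S3 × I)} (hA : Conc A)
    (hc : ∃ Θ : OpenPartialHomeomorph ((ℝ × ℝ) × ℂ) E4, Chart (WA A)ᶜ Θ) :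
    IsPreconnected (WA A) ∧ Acyc (WA A) 3 ∧ (∃ τ, Coc (WA A) τ ∧ H1 (WA A) τ) ∧ Mer (WA A) := by
  obtain ⟨Θ, hΘ⟩ := hc
  obtain ⟨h1, h3, m, hm, h0, hg, hi, -⟩ := alex_chart hA hΘ
  refine ⟨preconn_of_acyc h1, h3, exists_tau h1 hm h0 hg hi, fun τ hτ h Θ hΘ => ?_⟩
  obtain ⟨-, -, m, -, -, hg, -, hw⟩ := alex_chart hA hΘ
  obtain ⟨z, hz, z0, z1⟩ := h.2
  obtain ⟨k, v, hv, rfl⟩ := hg z hz z0
  rw [map_add, wt_bd hτ hv, add_zero, map_smul, hw τ hτ, smul_eq_mul] at z1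
  exact (Int.eq_one_or_neg_one_of_mul_eq_one' z1).imp (fun h => congrArg Multiplicative.ofAdd h.2)
    fun h => congrArg Multiplicative.ofAdd h.2

end Pool.Agent.MP_b8a826_gt

end

-- part MP_b8a826_gt.FinD
section

/-! The complement of the annulus deforms into a compact subset. -/

namespace Pool.Agent.MP_b8a826_gt
open Set unitInterval Filter Topology Metric

section
variable {X P : Type} [MetricSpace X] [MetricSpace P]

/-- A deformation of `U` whose end map clears a neighbourhood of every point of `B` outside `U`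
and creates no new accumulation points outside `U`. -/
def FinD_P (U B : Set X) : Prop :=
  ∃ H : ℝ × X → X, ContinuousOn H (Icc 0 1 ×ˢ U) ∧ MapsTo H (Icc 0 1 ×ˢ U) U ∧
    (∀ x ∈ U, H (0, x) = x) ∧ ∀ S ⊆ U, ∀ p ∉ U,
      p ∈ closure ((fun x => H (1, x)) '' S) → p ∈ closure S ∧ p ∉ B

theorem FinD_union {U B B' : Set X} (h : FinD_P U B) (h' : FinD_P U B') : FinD_P U (B ∪ B') := by
  obtain ⟨H, c, m, z, k⟩ := h
  obtain ⟨H', c', m', z', k'⟩ := h'
  have mm : MapsTo (fun p : ℝ × X => (p.1, H p)) (Icc 0 1 ×ˢ U) (Icc 0 1 ×ˢ U) :=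
    fun p hp => ⟨hp.1, m hp⟩
  refine ⟨fun p => H' (p.1, H p), c'.comp (continuousOn_fst.prodMk c) mm, m'.comp mm,
    fun x hx => by simp only [z x hx, z' x hx], fun S hS p hp h => ?_⟩
  have h1 := k' ((fun x => H (1, x)) '' S)
    (by rintro _ ⟨x, hx, rfl⟩; exact m ⟨right_mem_Icc.2 zero_le_one, hS hx⟩) p hp
    (by rwa [image_image])
  have h2 := k S hS p hp h1.1
  exact ⟨h2.1, fun h => h.elim h2.2 h1.2⟩

/-- The push-off in a chart. -/
noncomputable def FinD_m (b : P) (ε : ℝ) (s : ℝ) (w : P × ℂ) : P × ℂ :=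
  (w.1, (max ‖w.2‖ (s * (ε - dist w.1 b)) / ‖w.2‖) • w.2)

theorem FinD_norm {b : P} {ε s : ℝ} {w : P × ℂ} (hw : w.2 ≠ 0) :
    ‖(FinD_m b ε s w).2‖ = max ‖w.2‖ (s * (ε - dist w.1 b)) := by
  have := norm_pos_iff.2 hw
  simp only [FinD_m, norm_smul]
  rw [Real.norm_of_nonneg (by positivity), div_mul_cancel₀ _ this.ne']

theorem FinD_id {b : P} {ε s : ℝ} {w : P × ℂ} (hw : w.2 ≠ 0)
    (h : s * (ε - dist w.1 b) ≤ ‖w.2‖) : FinD_m b ε s w = w := by
  simp [FinD_m, max_eq_left h, div_self (norm_ne_zero_iff.2 hw)]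

theorem FinD_out {b : P} {ε s : ℝ} {w : P × ℂ} (hs : s ∈ Icc (0 : ℝ) 1) (hw : w.2 ≠ 0)
    (h : w ∉ closedBall (b, (0 : ℂ)) ε) : FinD_m b ε s w = w := by
  refine FinD_id hw ?_
  rw [mem_closedBall, Prod.dist_eq, max_le_iff, not_and_or, not_le, not_le, dist_zero_right] at h
  have h0 := dist_nonneg (x := w.1) (y := b)
  have h1 := norm_nonneg w.2
  rcases h with h | h
  · nlinarith [hs.1]
  · nlinarith [hs.1, hs.2]

theorem FinD_in {b : P} {ε s : ℝ} {w : P × ℂ} (hs : s ∈ Icc (0 : ℝ) 1) (hw : w.2 ≠ 0)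
    (h : w ∈ closedBall (b, (0 : ℂ)) ε) : FinD_m b ε s w ∈ closedBall (b, (0 : ℂ)) ε := by
  rw [mem_closedBall, Prod.dist_eq, max_le_iff, dist_zero_right] at h ⊢
  refine ⟨h.1, ?_⟩
  rw [FinD_norm hw, max_le_iff]
  have h0 := dist_nonneg (x := w.1) (y := b)
  exact ⟨h.2, by nlinarith [hs.1, hs.2, h.1]⟩

theorem FinD_dist {b : P} {ε s : ℝ} {w : P × ℂ} (hw : w.2 ≠ 0) :
    dist w (FinD_m b ε s w) ≤ 2 * ‖(FinD_m b ε s w).2‖ := by
  have h1 : ‖w.2‖ ≤ ‖(FinD_m b ε s w).2‖ := by rw [FinD_norm hw]; exact le_max_left _ _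
  have h2 := norm_sub_le w.2 (FinD_m b ε s w).2
  have h3 := norm_nonneg (FinD_m b ε s w).2
  rw [Prod.dist_eq, max_le_iff, dist_eq_norm w.2]
  exact ⟨by simp only [FinD_m, dist_self]; positivity, by linarith⟩

theorem FinD_local [LocallyCompactSpace P] {U : Set X} (φ : OpenPartialHomeomorph X (P × ℂ))
    (hφ : ∀ y ∈ φ.source, y ∉ U ↔ (φ y).2 = 0) {a : X} (ha : a ∈ φ.source) (haU : a ∉ U) :
    ∃ B ∈ 𝓝 a, FinD_P U B := by
  classical
  obtain ⟨C, hC, h1, h2⟩ := exists_compact_subset φ.open_target (φ.map_source ha)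
  obtain ⟨ε, hε, h3⟩ := nhds_basis_closedBall.mem_iff.1 (mem_interior_iff_mem_nhds.1 h1)
  have e0 : φ a = ((φ a).1, 0) := Prod.ext rfl ((hφ a ha).1 haU)
  generalize (φ a).1 = b at e0
  rw [e0] at h3
  have hT : closedBall (b, (0 : ℂ)) ε ⊆ φ.target := h3.trans h2
  have hK : IsClosed (φ.symm '' closedBall (b, (0 : ℂ)) ε) :=
    ((hC.of_isClosed_subset isClosed_closedBall h3).image_of_continuousOn
      (φ.continuousOn_symm.mono hT)).isClosed
  have ne : ∀ x ∈ U, x ∈ φ.source → (φ x).2 ≠ 0 := fun x hx hs h => (hφ x hs).2 h hx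
  have tg : ∀ s ∈ Icc (0 : ℝ) 1, ∀ x ∈ U, x ∈ φ.source → FinD_m b ε s (φ x) ∈ φ.target := by
    intro s hs x hx hx'
    by_cases h : φ x ∈ closedBall (b, (0 : ℂ)) ε
    · exact hT (FinD_in hs (ne x hx hx') h)
    · rw [FinD_out hs (ne x hx hx') h]; exact φ.map_source hx'
  let H : ℝ × X → X := fun p => if p.2 ∈ φ.source then φ.symm (FinD_m b ε p.1 (φ p.2)) else p.2
  have Hin : ∀ s x, x ∈ φ.source → H (s, x) = φ.symm (FinD_m b ε s (φ x)) :=
    fun s x hx => if_pos hx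
  have Hout : ∀ s ∈ Icc (0 : ℝ) 1, ∀ x ∈ U, x ∉ φ.symm '' closedBall (b, (0 : ℂ)) ε →
      H (s, x) = x := by
    intro s hs x hx h
    by_cases hx' : x ∈ φ.source
    · rw [Hin s x hx', FinD_out hs (ne x hx hx') fun h' => h ⟨_, h', φ.left_inv hx'⟩,
        φ.left_inv hx']
    · exact if_neg hx'
  have sub : φ.symm '' closedBall (b, (0 : ℂ)) ε ⊆ φ.source := by
    rintro _ ⟨w, hw, rfl⟩; exact φ.map_target (hT hw)
  refine ⟨{x | dist (φ x).1 b < ε} ∩ φ.source, inter_mem ?_ (φ.open_source.mem_nhds ha), H,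
    fun p hp => ?_, fun p hp => ?_, fun x hx => ?_, fun S hS p hp h => ?_⟩
  · refine ((continuous_fst.continuousAt.comp (φ.continuousAt ha)).dist
      continuousAt_const).eventually_lt continuousAt_const ?_
    simpa [e0] using hε
  · by_cases hs : p.2 ∈ φ.source
    · have hn : Prod.snd ⁻¹' φ.source ∈ 𝓝 p :=
        (φ.open_source.preimage continuous_snd).mem_nhds hs
      have c1 : ContinuousAt (fun q : ℝ × X => φ q.2) p :=
        (φ.continuousAt hs).comp continuous_snd.continuousAt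
      have c2 : ContinuousAt (fun q : ℝ × X => FinD_m b ε q.1 (φ q.2)) p :=
        c1.fst.prodMk (((c1.snd.norm.max (continuousAt_fst.mul (continuousAt_const.sub
          (c1.fst.dist continuousAt_const)))).div c1.snd.norm
          (norm_ne_zero_iff.2 (ne _ hp.2 hs))).smul c1.snd)
      refine ((ContinuousAt.comp (f := fun q : ℝ × X => FinD_m b ε q.1 (φ q.2))
        (φ.continuousAt_symm (tg _ hp.1 _ hp.2 hs)) c2).congr ?_).continuousWithinAt
      filter_upwards [hn] with q hq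
      exact (Hin q.1 q.2 hq).symm
    · refine continuous_snd.continuousWithinAt.congr_of_eventuallyEq ?_
        (Hout _ hp.1 _ hp.2 fun h => hs (sub h))
      filter_upwards [self_mem_nhdsWithin, mem_nhdsWithin_of_mem_nhds
        ((hK.isOpen_compl.preimage continuous_snd).mem_nhds fun h => hs (sub h))] with q hq hq'
      exact Hout _ hq.1 _ hq.2 hq'
  · by_cases hs : p.2 ∈ φ.source
    · have ht := tg _ hp.1 _ hp.2 hs
      rw [show H p = _ from Hin p.1 p.2 hs]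
      by_contra hc
      have := (hφ _ (φ.map_target ht)).1 hc
      rw [φ.right_inv ht, ← norm_eq_zero, FinD_norm (ne _ hp.2 hs)] at this
      exact (norm_pos_iff.2 (ne _ hp.2 hs)).not_ge (this ▸ le_max_left _ _)
    · rw [show H p = p.2 from if_neg hs]; exact hp.2
  · by_cases hs : x ∈ φ.source
    · rw [Hin 0 x hs, FinD_id (ne x hx hs) (by simp), φ.left_inv hs]
    · exact if_neg hs
  have h01 : (1 : ℝ) ∈ Icc (0 : ℝ) 1 := right_mem_Icc.2 zero_le_one
  obtain ⟨y, hy, hl⟩ := mem_closure_iff_seq_limit.1 h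
  choose x hx hxy using hy
  by_cases hs : p ∈ φ.source
  · have ev : ∀ᶠ n in atTop, x n ∈ φ.source ∧ φ (y n) = FinD_m b ε 1 (φ (x n)) := by
      filter_upwards [hl.eventually (φ.open_source.mem_nhds hs)] with n hn
      have hn' : x n ∈ φ.source := by
        by_contra hc
        have : H (1, x n) = x n := if_neg hc
        exact hc (this ▸ (show H (1, x n) = y n from hxy n) ▸ hn)
      refine ⟨hn', ?_⟩
      rw [← hxy n]
      simp only [Hin 1 _ hn']
      exact φ.right_inv (tg 1 h01 _ (hS (hx n)) hn')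
    have l1 : Tendsto (fun n => φ (y n)) atTop (𝓝 (φ p)) := (φ.continuousAt hs).tendsto.comp hl
    have l2 : Tendsto (fun n => ‖(φ (y n)).2‖) atTop (𝓝 0) := by
      simpa [(hφ p hs).1 hp] using l1.snd_nhds.norm
    have l3 : Tendsto (fun n => φ (x n)) atTop (𝓝 (φ p)) := by
      refine l1.congr_dist (squeeze_zero' (Eventually.of_forall fun _ => dist_nonneg) ?_
        (by simpa using l2.const_mul 2))
      filter_upwards [ev] with n hn
      rw [hn.2, dist_comm]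
      exact FinD_dist (ne _ (hS (hx n)) hn.1)
    constructor
    · refine mem_closure_of_tendsto (f := x) (b := atTop) ?_ (Eventually.of_forall hx)
      have := (φ.continuousAt_symm (φ.map_source hs)).tendsto.comp l3
      rw [φ.left_inv hs] at this
      refine this.congr' ?_
      filter_upwards [ev] with n hn
      exact φ.left_inv hn.1
    · rintro ⟨h4, -⟩
      have l4 : Tendsto (fun n => ε - dist (φ (x n)).1 b) atTop (𝓝 (ε - dist (φ p).1 b)) :=
        tendsto_const_nhds.sub (l3.fst_nhds.dist tendsto_const_nhds)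
      refine (sub_pos.2 h4).not_ge (le_of_tendsto_of_tendsto l4 l2 ?_)
      filter_upwards [ev] with n hn
      rw [hn.2, FinD_norm (ne _ (hS (hx n)) hn.1), one_mul]
      exact le_max_right _ _
  · refine ⟨mem_closure_of_tendsto (f := x) (b := atTop) (hl.congr' ?_)
      (Eventually.of_forall hx), fun h => hs h.2⟩
    filter_upwards [hl.eventually (hK.isOpen_compl.mem_nhds fun h => hs (sub h))] with n hn
    rw [← hxy n]
    refine Hout 1 h01 _ (hS (hx n)) fun h => hn ?_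
    obtain ⟨w, hw, e⟩ := h
    have hn' : x n ∈ φ.source := sub ⟨w, hw, e⟩
    rw [← hxy n]
    refine ⟨_, FinD_in h01 (ne _ (hS (hx n)) hn') ?_, (Hin 1 _ hn').symm⟩
    rwa [← e, φ.right_inv (hT hw)]

end

theorem FinD_all {B : Set (S3 × I)} (hB : IsCompact B) (h : LocFlat B) : FinD_P Bᶜ B := by
  have : LocallyCompactSpace (Ici (0 : ℝ)) := isClosed_Ici.locallyCompactSpace
  refine hB.induction_on (p := FinD_P Bᶜ) ?_ ?_ (fun _ _ => FinD_union) fun x hx => ?_
  · exact ⟨Prod.snd, continuousOn_snd, fun p hp => hp.2, fun _ _ => rfl,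
      fun S _ p _ h => ⟨by simpa using h, id⟩⟩
  · rintro s t hst ⟨H, c, m, z, k⟩
    exact ⟨H, c, m, z, fun S hS p hp h => ⟨(k S hS p hp h).1, fun h' => (k S hS p hp h).2 (hst h')⟩⟩
  · obtain ⟨φ, h1, h2⟩ := h x hx
    obtain ⟨N, hN, hP⟩ := FinD_local (U := Bᶜ)
      (φ.transHomeomorph (Homeomorph.prodAssoc _ _ _).symm)
      (fun y hy => not_not.trans (h2 y hy)) h1 (not_not.2 hx)
    exact ⟨N, mem_nhdsWithin_of_mem_nhds hN, hP⟩

theorem fd_WA {A : C(Circle × I, S3 × I)} (hA : Conc A) : FD (WA A) := by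
  obtain ⟨H, c, m, z, k⟩ := FinD_all (isCompact_range A.continuous) hA.flat
  let π : E4 → S3 × I := fun x => (Ends_dir x, projIcc 0 1 zero_le_one (‖x‖ - 1))
  have ne : ∀ x ∈ WA A, x ≠ 0 := fun x hx h => zero_notMem_WA (h ▸ hx)
  have hπ : MapsTo π (WA A) (range A)ᶜ := fun x hx =>
    (mem_WA _ (norm_pos_iff.2 (ne x hx))).1 ((Ends_dir_smul (ne x hx)).symm ▸ hx)
  have cπ : ContinuousOn π (WA A) :=
    ((Ends_pol.continuousOn_symm.mono ne).fst).prodMk
      (continuous_projIcc.comp (by fun_prop)).continuousOn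
  let q : ℝ × E4 → ℝ × (S3 × I) := fun p => (max (2 * p.1 - 1) 0, π p.2)
  have mq : MapsTo q (Icc 0 1 ×ˢ WA A) (Icc 0 1 ×ˢ (range A)ᶜ) := fun p hp =>
    ⟨⟨le_max_right _ _, max_le (by linarith [hp.1.2]) zero_le_one⟩, hπ hp.2⟩
  have cπ' : ContinuousOn (fun p : ℝ × E4 => π p.2) (Icc 0 1 ×ˢ WA A) :=
    cπ.comp continuousOn_snd fun p hp => hp.2
  have cq : ContinuousOn (fun p => H (q p)) (Icc 0 1 ×ˢ WA A) :=
    c.comp (ContinuousOn.prodMk (by fun_prop) cπ') mq
  have top : ∀ w : S3 × I, w ∉ range A → ((w.2 : ℝ) + 1) • w.1.1 ∈ WA A := fun w hw => by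
    rw [mem_WA _ (by linarith [w.2.2.1]), add_sub_cancel_right, projIcc_val]
    exact hw
  refine ⟨(fun w : S3 × I => ((w.2 : ℝ) + 1) • w.1.1) ''
    closure ((fun x => H (1, x)) '' (range A)ᶜ), isClosed_closure.isCompact.image (by fun_prop),
    ?_, fun p => (((H (q p)).2 : ℝ) + 1 + max (1 - 2 * p.1) 0 * (‖p.2‖ - 1 - (π p.2).2)) •
      (H (q p)).1.1, ?_, fun p hp => ?_, fun x hx => ⟨?_, ?_⟩⟩
  · rintro _ ⟨w, hw, rfl⟩
    exact top w fun h => (k _ subset_rfl w (not_not.2 h) hw).2 h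
  · refine ContinuousOn.smul (((continuous_subtype_val.comp_continuousOn cq.snd).add
      continuousOn_const).add (ContinuousOn.mul (by fun_prop) (ContinuousOn.sub (by fun_prop)
      (continuous_subtype_val.comp_continuousOn cπ'.snd))))
      (continuous_subtype_val.comp_continuousOn cq.fst)
  · rcases le_total (2 * p.1) 1 with h | h
    · have e : H (q p) = π p.2 := by
        simp only [q, max_eq_right (sub_nonpos.2 h)]; exact z _ (hπ hp.2)
      have h0 := norm_pos_iff.2 (ne _ hp.2)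
      have h1 := hp.1.1
      have h2 := (π p.2).2.2.1
      simp only [e, max_eq_left (sub_nonneg.2 h)]
      have h5 := mul_nonneg h1 h2
      have h6 := mul_nonneg (sub_nonneg.2 h) h0.le
      rw [mem_WA _ (by rcases h1.eq_or_lt with h7 | h7 <;> nlinarith)]
      suffices e2 : projIcc 0 1 zero_le_one (((π p.2).2 : ℝ) + 1 + (1 - 2 * p.1) *
          (‖p.2‖ - 1 - (π p.2).2) - 1) = projIcc 0 1 zero_le_one (‖p.2‖ - 1) by
        rw [e2]; exact hπ hp.2
      rcases le_total (‖p.2‖ - 1) 0 with h3 | h3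
      · simp only [π, projIcc_of_le_left _ h3]
        exact projIcc_of_le_left _ (by nlinarith)
      rcases le_total (‖p.2‖ - 1) 1 with h4 | h4
      · simp only [π, projIcc_of_mem _ ⟨h3, h4⟩]
        rw [sub_self, mul_zero, add_zero, add_sub_cancel_right, projIcc_of_mem _ ⟨h3, h4⟩]
      · simp only [π, projIcc_of_right_le _ h4]
        exact projIcc_of_right_le _ (by nlinarith)
    · simp only [max_eq_right (sub_nonpos.2 h), zero_mul, add_zero]
      exact top _ (m (mq hp))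
  · have e : H (q (0, x)) = π x := by
      simp only [q]; rw [max_eq_right (by norm_num)]; exact z _ (hπ hx)
    simp only [e]
    rw [max_eq_left (by norm_num)]
    convert Ends_dir_smul (ne x hx) using 2
    ring
  · refine ⟨H (q (1, x)), subset_closure ⟨π x, hπ hx, ?_⟩, ?_⟩
    · simp only [q]; norm_num
    · simp only []; rw [max_eq_right (by norm_num), zero_mul, add_zero]

end Pool.Agent.MP_b8a826_gt

end

-- part MP_b8a826_gt.Periph1
section

/-! Extension of a twisted flat cocycle across a set with cyclic local complement groups. -/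

namespace Pool.Agent.MP_b8a826_gt
open Set Filter Topology

variable {X G : Type} [TopologicalSpace X] [Group G]

/-- Local trivialisation twisted by powers of `h`. -/
def PTw (ψ : X → X → G) (τ : G →* MZ) (D : Set X) (h : G) (b : X → G) : Prop :=
  ∀ x ∈ D, ∀ᶠ y in 𝓝 x, b y = h ^ (-(τ (ψ x y)).toAdd) * b x * ψ x y

theorem PTw.mono {ψ : X → X → G} {τ : G →* MZ} {D D' : Set X} {h : G} {b : X → G}
    (hT : PTw ψ τ D h b) (hD : D' ⊆ D) : PTw ψ τ D' h b := fun x hx => hT x (hD hx)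

omit [TopologicalSpace X] in
theorem periph_triv_step {ψ : X → X → G} {c : ℝ → X} {B : ℝ → G} (hB : Triv (pb c ψ) univ B)
    (t : ℝ) : ∀ᶠ s in 𝓝 t, B s = B t * ψ (c t) (c s) := by
  have := hB t trivial
  rw [nhdsWithin_univ] at this
  filter_upwards [this] with s hs
  rw [pb] at hs
  rw [hs]; group

theorem PTw.hol_eq {ψ : X → X → G} {τ : G →* MZ} {D Y : Set X} {h : G} {b : X → G}
    (hT : PTw ψ τ D h b) (hf : Fl ψ Y) (hD : D ⊆ Y) {c : ℝ → X} (hc : Cv D c) :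
    hol ψ c = (b (c 0))⁻¹ * h ^ (τ (hol ψ c)).toAdd * b (c 1) := by
  obtain ⟨B, hB⟩ := (hc.mono hD).triv hf
  have e : hol ψ c = (B 0)⁻¹ * B 1 := tr_eq hB isPreconnected_univ trivial trivial
  have key := MP_a5f24b_gt.const_of_loc
    (F := fun t => h ^ (τ (B t)).toAdd * b (c t) * (B t)⁻¹) isPreconnected_univ (fun t _ => by
      rw [nhdsWithin_univ]
      filter_upwards [periph_triv_step hB t, (hc.1.tendsto t).eventually (hT _ (hc.2 t))]
        with s h1 h2
      rw [h1, h2, map_mul, toAdd_mul, zpow_add, zpow_neg]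
      group) (mem_univ 0) (mem_univ 1)
  rw [e, map_mul, map_inv, toAdd_mul, toAdd_inv, zpow_add, zpow_neg]
  have : b (c 1) = (h ^ (τ (B 1)).toAdd)⁻¹ * (h ^ (τ (B 0)).toAdd * b (c 0) * (B 0)⁻¹) * B 1 := by
    rw [key]; group
  rw [this]; group

theorem periph_mu_eq {ψ : X → X → G} {τ : G →* MZ} {D Y : Set X} {h h' : G} {b b' : X → G}
    (hT : PTw ψ τ D h b) (hT' : PTw ψ τ D h' b') (hf : Fl ψ Y) (hD : D ⊆ Y) {y : X} {c : ℝ → X}
    (hc : Lp D y c) (hg : Gen (τ (hol ψ c))) :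
    (b y)⁻¹ * h * b y = (b' y)⁻¹ * h' * b' y := by
  have e1 := hT.hol_eq hf hD hc.1
  have e2 := hT'.hol_eq hf hD hc.1
  rw [hc.2.1, hc.2.2] at e1 e2
  rcases hg with hg | hg
  · rw [hg, toAdd_ofAdd, zpow_one] at e1 e2
    rw [← e1, ← e2]
  · rw [hg, toAdd_ofAdd, zpow_neg, zpow_one] at e1 e2
    have := congrArg (·⁻¹) (e1.symm.trans e2)
    simpa [mul_assoc] using this

theorem periph_hol_tw {ψ χ : X → X → G} {τ : G →* MZ} {Y : Set X} (hf : Fl ψ Y) {c : ℝ → X}
    (hc : Cv Y c) (μ : X → G)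
    (h1 : ∀ t, ∀ᶠ s in 𝓝 t, μ (c s) = (ψ (c t) (c s))⁻¹ * μ (c t) * ψ (c t) (c s) ∧
      χ (c t) (c s) = μ (c t) ^ (-(τ (ψ (c t) (c s))).toAdd) * ψ (c t) (c s))
    (h0 : τ (hol ψ c) = 1) : hol χ c = hol ψ c := by
  obtain ⟨B, hB⟩ := hc.triv hf
  have e : hol ψ c = (B 0)⁻¹ * B 1 := tr_eq hB isPreconnected_univ trivial trivial
  have key : ∀ t, B t * μ (c t) * (B t)⁻¹ = B 0 * μ (c 0) * (B 0)⁻¹ := fun t =>
    MP_a5f24b_gt.const_of_loc (F := fun t => B t * μ (c t) * (B t)⁻¹) isPreconnected_univ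
      (fun t _ => by
        rw [nhdsWithin_univ]
        filter_upwards [periph_triv_step hB t, h1 t] with s h1 h2
        rw [h1, h2.1]; group) (mem_univ t) (mem_univ 0)
  set m := B 0 * μ (c 0) * (B 0)⁻¹ with hm
  have hB' : Triv (pb c χ) univ fun t => m ^ (-(τ (B t)).toAdd) * B t := by
    intro t _
    rw [nhdsWithin_univ]
    filter_upwards [periph_triv_step hB t, h1 t] with s h1 h2
    have e3 : μ (c t) = (B t)⁻¹ * m * (B t)⁻¹⁻¹ := by rw [← key t]; group
    rw [pb, h2.2, h1, map_mul, toAdd_mul, e3, conj_zpow]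
    group
  rw [hol, tr_eq hB' isPreconnected_univ trivial trivial, e]
  rw [e, map_mul, map_inv, inv_mul_eq_one] at h0
  rw [h0]; group

/-- Arbitrarily small good neighbourhoods. -/
def PBox (ψ : X → X → G) (τ : G →* MZ) (S : Set X) (x : X) : Prop :=
  ∀ V ∈ 𝓝 x, ∃ N, IsOpen N ∧ x ∈ N ∧ N ⊆ V ∧ IsPreconnected (N \ S) ∧ (N \ S).Nonempty ∧
    (∃ h b, PTw ψ τ (N \ S) h b) ∧ ∀ y ∈ N \ S, ∃ c, Lp (N \ S) y c ∧ Gen (τ (hol ψ c))

theorem periph_pair {ψ : X → X → G} {τ : G →* MZ} {S : Set X} (hf : Fl ψ Sᶜ) {a : X}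
    (ha : PBox ψ τ S a) {N N' : Set X} (hN : N ∈ 𝓝 a) (hN' : N' ∈ 𝓝 a) {h h' : G}
    {b b' : X → G} (hT : PTw ψ τ (N \ S) h b) (hT' : PTw ψ τ (N' \ S) h' b') :
    ∃ T, ∀ᶠ y in 𝓝 a, y ∉ S → b y * (b' y)⁻¹ = T ∧ (b y)⁻¹ * h * b y = (b' y)⁻¹ * h' * b' y := by
  obtain ⟨M, hM, haM, hMV, hcon, ⟨y0, hy0⟩, -, hl⟩ := ha _ (inter_mem hN hN')
  have t1 : PTw ψ τ (M \ S) h b := hT.mono fun y hy => ⟨(hMV hy.1).1, hy.2⟩
  have t2 : PTw ψ τ (M \ S) h' b' := hT'.mono fun y hy => ⟨(hMV hy.1).2, hy.2⟩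
  have mu : ∀ y ∈ M \ S, (b y)⁻¹ * h * b y = (b' y)⁻¹ * h' * b' y := fun y hy => by
    obtain ⟨c, hc, hg⟩ := hl y hy
    exact periph_mu_eq t1 t2 hf (fun _ h => h.2) hc hg
  refine ⟨b y0 * (b' y0)⁻¹, ?_⟩
  filter_upwards [hM.mem_nhds haM] with y hy hyS
  refine ⟨MP_a5f24b_gt.const_of_loc (F := fun y => b y * (b' y)⁻¹) hcon (fun w hw => ?_)
    ⟨hy, hyS⟩ hy0, mu y ⟨hy, hyS⟩⟩
  refine Eventually.filter_mono nhdsWithin_le_nhds ?_
  filter_upwards [t1 w hw, t2 w hw] with u h1 h2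
  have e : h = (b w * (b' w)⁻¹) * h' * (b w * (b' w)⁻¹)⁻¹ := by
    have : h = b w * ((b w)⁻¹ * h * b w) * (b w)⁻¹ := by group
    rw [this, mu w hw]; group
  rw [h1, h2, e, conj_zpow]
  group

theorem periph_ext [RegularSpace X] [T2Space X] {ψ : X → X → G} {τ : G →* MZ} {S : Set X}
    (hS : IsCompact S) (hne : S.Nonempty) (hf : Fl ψ Sᶜ) (hB : ∀ x ∈ S, PBox ψ τ S x) :
    ∃ (U : Set X) (χ : X → X → G), (∀ x ∈ S, U ∈ 𝓝 x) ∧ Fl χ U ∧
      ∀ c, Cv (U \ S) c → τ (hol ψ c) = 1 → hol χ c = hol ψ c := by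
  classical
  have : Nonempty S := hne.to_subtype
  have h0 : ∀ i : S, ∃ (N C : Set X) (h : G) (b : X → G), IsOpen N ∧ IsClosed C ∧ C ∈ 𝓝 i.1 ∧
      C ⊆ N ∧ PTw ψ τ (N \ S) h b := by
    intro i
    obtain ⟨N, hN, hi, -, -, -, ⟨h, b, hT⟩, -⟩ := hB i i.2 univ univ_mem
    obtain ⟨C, hC, hC', hCN⟩ := exists_mem_nhds_isClosed_subset (hN.mem_nhds hi)
    exact ⟨N, C, h, b, hN, hC', hC, hCN, hT⟩
  choose N C h b hN hC hCn hCN hT using h0
  obtain ⟨t, ht⟩ := hS.elim_nhds_subcover' (fun x hx => interior (C ⟨x, hx⟩))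
    fun x hx => interior_mem_nhds.2 (hCn ⟨x, hx⟩)
  have freq : ∀ a ∈ S, ∃ᶠ y in 𝓝 a, y ∉ S := by
    intro a ha
    rw [frequently_iff]
    intro V hV
    obtain ⟨M, -, -, hMV, -, ⟨y, hy⟩, -⟩ := hB a ha V hV
    exact ⟨y, hMV hy.1, hy.2⟩
  have pair : ∀ a ∈ S, ∀ i j : S, ∃ T, a ∈ N i → a ∈ N j → ∀ᶠ y in 𝓝 a, y ∉ S →
      b i y * (b j y)⁻¹ = T ∧ (b i y)⁻¹ * h i * b i y = (b j y)⁻¹ * h j * b j y := by
    intro a ha i j
    by_cases hij : a ∈ N i ∧ a ∈ N j
    · obtain ⟨T, hT'⟩ := periph_pair hf (hB a ha) ((hN i).mem_nhds hij.1) ((hN j).mem_nhds hij.2)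
        (hT i) (hT j)
      exact ⟨T, fun _ _ => hT'⟩
    · exact ⟨1, fun h1 h2 => absurd ⟨h1, h2⟩ hij⟩
  have hr : ∀ a, ∃ r, (a ∉ S → r = a) ∧ (a ∈ S → ∀ i ∈ t, ∀ j ∈ t, a ∈ N i → a ∈ N j →
      ∀ᶠ y in 𝓝 a, y ∉ S → b i y * (b j y)⁻¹ = b i r * (b j r)⁻¹) := by
    intro a
    by_cases ha : a ∈ S
    · choose T hT' using pair a ha
      have h1 : ∀ᶠ y in 𝓝 a, ∀ i ∈ t, ∀ j ∈ t, a ∈ N i → a ∈ N j → y ∉ S →
          b i y * (b j y)⁻¹ = T i j := by
        rw [eventually_all_finset]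
        intro i _
        rw [eventually_all_finset]
        intro j _
        by_cases hij : a ∈ N i ∧ a ∈ N j
        · filter_upwards [hT' i j hij.1 hij.2] with y hy _ _ hyS using (hy hyS).1
        · exact Eventually.of_forall fun y h1 h2 => absurd ⟨h1, h2⟩ hij
      obtain ⟨r, hr1, hr2⟩ := ((freq a ha).and_eventually h1).exists
      refine ⟨r, fun h => absurd ha h, fun _ i hi j hj h2 h3 => ?_⟩
      filter_upwards [hT' i j h2 h3] with y hy hyS
      rw [(hy hyS).1, hr2 i hi j hj h2 h3 hr1]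
    · exact ⟨a, fun _ => rfl, fun h => absurd h ha⟩
  choose r hr1 hr2 using hr
  have cl3 : ∀ a ∈ S, ∀ i ∈ t, ∀ j ∈ t, a ∈ N i → a ∈ N j →
      ∀ᶠ y in 𝓝 a, b i (r y) * (b j (r y))⁻¹ = b i (r a) * (b j (r a))⁻¹ := by
    intro a ha i hi j hj h1 h2
    filter_upwards [(hr2 a ha i hi j hj h1 h2).eventually_nhds, (hN i).mem_nhds h1,
      (hN j).mem_nhds h2] with y hy h3 h4
    by_cases hyS : y ∈ S
    · obtain ⟨z, hz, h5, h6⟩ := ((freq y hyS).and_eventually
        (hy.and (hr2 y hyS i hi j hj h3 h4))).exists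
      rw [← h6 hz, h5 hz]
    · rw [hr1 y hyS]
      exact hy.self_of_nhds hyS
  have near : ∀ x : X, ∀ᶠ a in 𝓝 x, ∀ i ∈ t, a ∈ C i → x ∈ C i := by
    intro x
    rw [eventually_all_finset]
    intro i _
    by_cases hx : x ∈ C i
    · exact Eventually.of_forall fun _ _ => hx
    · filter_upwards [(hC i).isOpen_compl.mem_nhds hx] with a ha h1 using absurd h1 ha
  have hidx : ∀ x : X, ∃ i : S, (∃ j ∈ t, x ∈ C j) → i ∈ t ∧ x ∈ C i := by
    intro x
    by_cases hx : ∃ j ∈ t, x ∈ C j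
    · obtain ⟨j, hj⟩ := hx
      exact ⟨j, fun _ => hj⟩
    · exact ⟨Classical.arbitrary _, fun h => absurd h hx⟩
  choose idx hidx using hidx
  refine ⟨{x | (∃ i ∈ t, x ∈ C i) ∧ ∀ i ∈ t, ∀ j ∈ t, x ∈ C i → x ∈ C j →
      (∀ᶠ y in 𝓝 x, b i (r y) * (b j (r y))⁻¹ = b i (r x) * (b j (r x))⁻¹) ∧
      (x ∉ S → (b i x)⁻¹ * h i * b i x = (b j x)⁻¹ * h j * b j x)},
    fun a c => (b (idx a) (r a))⁻¹ * b (idx a) (r c), fun a ha => ?_, fun x hx => ?_,
    fun c hc hτ => ?_⟩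
  · obtain ⟨k, hk, hak⟩ := mem_iUnion₂.1 (ht ha)
    have h1 : ∀ᶠ x in 𝓝 a, ∀ i ∈ t, ∀ j ∈ t, a ∈ C i → a ∈ C j →
        (∀ᶠ y in 𝓝 x, b i (r y) * (b j (r y))⁻¹ = b i (r x) * (b j (r x))⁻¹) ∧
        (x ∉ S → (b i x)⁻¹ * h i * b i x = (b j x)⁻¹ * h j * b j x) := by
      rw [eventually_all_finset]
      intro i hi
      rw [eventually_all_finset]
      intro j hj
      by_cases hij : a ∈ C i ∧ a ∈ C j
      · obtain ⟨T, hT'⟩ := pair a ha i j
        filter_upwards [(cl3 a ha i hi j hj (hCN i hij.1) (hCN j hij.2)).eventually_nhds,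
          hT' (hCN i hij.1) (hCN j hij.2)] with x h2 h3 _ _
        refine ⟨?_, fun hx => (h3 hx).2⟩
        filter_upwards [h2] with y hy
        rw [hy, h2.self_of_nhds]
      · exact Eventually.of_forall fun y h1 h2 => absurd ⟨h1, h2⟩ hij
    filter_upwards [h1, near a, mem_interior_iff_mem_nhds.1 hak] with x h2 h3 h4
    exact ⟨⟨k, hk, h4⟩, fun i hi j hj h5 h6 => h2 i hi j hj (h3 i hi h5) (h3 j hj h6)⟩
  · have h1 : ∀ᶠ a in 𝓝 x, ∀ i ∈ t, ∀ j ∈ t, x ∈ C i → x ∈ C j →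
        b i (r a) * (b j (r a))⁻¹ = b i (r x) * (b j (r x))⁻¹ := by
      rw [eventually_all_finset]
      intro i hi
      rw [eventually_all_finset]
      intro j hj
      by_cases hij : x ∈ C i ∧ x ∈ C j
      · filter_upwards [(hx.2 i hi j hj hij.1 hij.2).1] with y hy _ _ using hy
      · exact Eventually.of_forall fun y h1 h2 => absurd ⟨h1, h2⟩ hij
    refine ⟨_, inter_mem self_mem_nhdsWithin (mem_nhdsWithin_of_mem_nhds (h1.and (near x))),
      fun a ha a' ha' c hc => ?_⟩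
    have i1 := hidx a ha.1.1
    have i2 := hidx a' ha'.1.1
    have e1 := ha'.2.1 _ i1.1 _ i2.1 (ha.2.2 _ i1.1 i1.2) (ha'.2.2 _ i2.1 i2.2)
    have e2 := hc.2.1 _ i1.1 _ i2.1 (ha.2.2 _ i1.1 i1.2) (ha'.2.2 _ i2.1 i2.2)
    have e3 : b (idx a) (r c) = b (idx a) (r a') * (b (idx a') (r a'))⁻¹ * b (idx a') (r c) := by
      rw [e1, ← e2]; group
    simp only
    rw [e3]; group
  · refine periph_hol_tw hf (hc.mono fun _ h => h.2)
      (fun x => (b (idx x) x)⁻¹ * h (idx x) * b (idx x) x) (fun s => ?_) hτ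
    have hx := hc.2 s
    have h1 : ∀ᶠ y in 𝓝 (c s), ∀ i ∈ t, c s ∈ C i →
        b i y = h i ^ (-(τ (ψ (c s) y)).toAdd) * b i (c s) * ψ (c s) y := by
      rw [eventually_all_finset]
      intro i _
      by_cases hi : c s ∈ C i
      · filter_upwards [hT i _ ⟨hCN i hi, hx.2⟩] with y hy _ using hy
      · exact Eventually.of_forall fun y h1 => absurd h1 hi
    filter_upwards [(hc.1.tendsto s).eventually (h1.and (near (c s)))] with s' h2
    have hy := hc.2 s'
    have i1 := hidx _ hx.1.1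
    have i2 := hidx _ hy.1.1
    have i3 := h2.2 _ i2.1 i2.2
    constructor
    · rw [(hx.1.2 _ i1.1 _ i2.1 i1.2 i3).2 hx.2, h2.1 _ i2.1 i3]
      group
    · rw [hr1 _ hx.2, hr1 _ hy.2, h2.1 _ i1.1 i1.2]
      have : (b (idx (c s)) (c s))⁻¹ * h (idx (c s)) * b (idx (c s)) (c s) =
          (b (idx (c s)) (c s))⁻¹ * h (idx (c s)) * (b (idx (c s)) (c s))⁻¹⁻¹ := by rw [inv_inv]
      rw [this, conj_zpow]
      group

end Pool.Agent.MP_b8a826_gt

end

-- part MP_b8a826_gt.Periph2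
section

/-! Good neighbourhoods from flat charts. -/

namespace Pool.Agent.MP_b8a826_gt
open Set Filter Topology Metric

variable {X G : Type} [TopologicalSpace X] [Group G]

theorem periph_cont_pI : Continuous (projIci (0 : ℝ)) :=
  Continuous.subtype_mk (f := fun s : ℝ => max 0 s) (by fun_prop) _

/-- Polar covering of the model space. -/
noncomputable def periphE (v : ℝ × ℝ × ℂ) : Ici (0 : ℝ) × ℝ × ℂ :=
  (projIci 0 v.1, v.2.1, Complex.exp v.2.2)

theorem periphE_cont : Continuous periphE := by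
  have := periph_cont_pI
  unfold periphE
  fun_prop

theorem periph_box {ψ : X → X → G} {τ : G →* MZ} {S : Set X} (hf : Fl ψ Sᶜ)
    (e : OpenPartialHomeomorph X (Ici (0 : ℝ) × ℝ × ℂ))
    (he : ∀ y ∈ e.source, y ∈ S ↔ (e y).2.2 = 0) {x : X} (hx : x ∈ e.source) (hS : x ∈ S)
    (hM : ∀ ε > 0, ball (e x) ε ⊆ e.target → ∃ s u δ : ℝ, 0 ≤ s ∧ dist s (e x).1 < ε ∧
      dist u (e x).2.1 < ε ∧ 0 < δ ∧ δ < ε ∧
      Gen (τ (hol ψ (circ fun θ => e.symm (projIci 0 s, u, (δ : ℂ) * θ))))) :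
    PBox ψ τ S x := by
  intro V hV
  have h1 : e.target ∩ e.symm ⁻¹' V ∈ 𝓝 (e x) :=
    inter_mem (e.open_target.mem_nhds (e.map_source hx))
      ((e.continuousAt_symm (e.map_source hx)).preimage_mem_nhds (by rwa [e.left_inv hx]))
  obtain ⟨ε, hε, hb⟩ := Metric.mem_nhds_iff.1 h1
  have hx0 : (e x).2.2 = 0 := (he x hx).1 hS
  set N := e.source ∩ e ⁻¹' ball (e x) ε with hN
  have hNo : IsOpen N := e.isOpen_inter_preimage isOpen_ball
  set D : Set (ℝ × ℝ × ℂ) :=
    (Ici 0 ∩ ball ((e x).1 : ℝ) ε) ×ˢ ball (e x).2.1 ε ×ˢ {w | w.re < Real.log ε} with hD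
  have hDc : Convex ℝ D :=
    ((convex_Ici _).inter (convex_ball _ _)).prod ((convex_ball _ _).prod (convex_halfSpace_re_lt _))
  have hDb : ∀ v ∈ D, periphE v ∈ ball (e x) ε := by
    intro v hv
    rw [mem_ball, Prod.dist_eq, Prod.dist_eq, max_lt_iff, max_lt_iff]
    refine ⟨?_, hv.2.1, ?_⟩
    · rw [Subtype.dist_eq]
      simp only [periphE, projIci_of_mem hv.1.1]
      exact hv.1.2
    · rw [hx0, dist_zero_right]
      simp only [periphE, Complex.norm_exp]
      exact (Real.lt_log_iff_exp_lt hε).1 hv.2.2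
  set π : ℝ × ℝ × ℂ → X := fun v => e.symm (periphE v) with hπ
  have hπc : ContinuousOn π D :=
    e.continuousOn_symm.comp periphE_cont.continuousOn fun v hv => (hb (hDb v hv)).1
  have hπm : MapsTo π D (N \ S) := by
    intro v hv
    have h2 := (hb (hDb v hv)).1
    refine ⟨⟨e.map_target h2, ?_⟩, fun h3 => ?_⟩
    · simp only [mem_preimage, hπ, e.right_inv h2]
      exact hDb v hv
    · have := (he _ (e.map_target h2)).1 h3
      rw [show e (π v) = periphE v from e.right_inv h2] at this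
      exact Complex.exp_ne_zero _ this
  have hlift : ∀ y ∈ N, ∀ w : ℂ, Complex.exp w = (e y).2.2 →
      (((e y).1 : ℝ), (e y).2.1, w) ∈ D ∧ π (((e y).1 : ℝ), (e y).2.1, w) = y := by
    intro y hy w hw
    have h2 := hy.2
    rw [mem_preimage, mem_ball, Prod.dist_eq, Prod.dist_eq, max_lt_iff, max_lt_iff] at h2
    refine ⟨⟨⟨(e y).1.2, h2.1⟩, h2.2.1, ?_⟩, ?_⟩
    · have h3 := h2.2.2
      rw [hx0, dist_zero_right, ← hw, Complex.norm_exp] at h3
      exact (Real.lt_log_iff_exp_lt hε).2 h3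
    · simp only [hπ, periphE, projIci_coe, hw]
      exact e.left_inv hy.1
  have hne0 : ∀ y ∈ N \ S, (e y).2.2 ≠ 0 := fun y hy h => hy.2 ((he y hy.1.1).2 h)
  have hfl : Fl (pb π ψ) D := hf.pb hπc fun v hv => (hπm hv).2
  obtain ⟨B, hB⟩ := exists_triv_convex hfl hDc
  set ω : ℂ := 2 * Real.pi * Complex.I with hω
  have hωre : ∀ t : ℝ, ((t : ℂ) * ω).re = 0 := fun t => by simp [hω]
  set T : ℝ → ℝ × ℝ × ℂ → ℝ × ℝ × ℂ := fun t v => (v.1, v.2.1, v.2.2 + t * ω) with hT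
  have hTm : ∀ t, MapsTo (T t) D D := fun t v hv =>
    ⟨hv.1, hv.2.1, by
      have := hv.2.2
      simp only [hT, mem_ofPred_eq, Complex.add_re, hωre, add_zero] at this ⊢
      exact this⟩
  have hT0 : ∀ v, T 0 v = v := fun v => by simp [hT]
  have hπT : ∀ v, π (T 1 v) = π v := fun v => by
    simp [hπ, hT, periphE, Complex.exp_add, hω]
  have hB1 : Triv (pb π ψ) D (B ∘ T 1) := by
    have := hB.pb (f := T 1) (by simp only [hT]; fun_prop) (hTm 1)
    intro v hv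
    filter_upwards [this v hv] with a ha
    simpa only [pb, hπT] using ha
  obtain ⟨s, u, δ, hs, hs', hu, hδ, hδε, hgen⟩ := hM ε hε fun v hv => (hb hv).1
  have hv0 : (s, u, (Real.log δ : ℂ)) ∈ D :=
    ⟨⟨hs, hs'⟩, hu, by simpa using Real.log_lt_log hδ hδε⟩
  set g := B (T 1 (s, u, (Real.log δ : ℂ))) * (B (s, u, (Real.log δ : ℂ)))⁻¹ with hg
  have hBg : ∀ v ∈ D, B (T 1 v) = g * B v := fun v hv => by
    have := hB1.uniq hB hDc.isPreconnected hv hv0
    rw [hg, ← Function.comp_apply (f := B), ← Function.comp_apply (f := B) (g := T 1), ← this]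
    simp
  have hloop : ∀ v ∈ D, Lp (N \ S) (π v) (fun t => π (T t v)) ∧
      τ (hol ψ fun t => π (T t v)) = τ g := by
    intro v hv
    have hc : Cv D fun t => T t v := ⟨by simp only [hT]; fun_prop, fun t => hTm t hv⟩
    refine ⟨⟨⟨hπc.comp_continuous hc.1 hc.2, fun t => hπm (hc.2 t)⟩, by simp only [hT0],
      hπT v⟩, ?_⟩
    have := hol_triv hfl hc hB fun t _ => hc.2 t
    rw [hol_pb] at this
    rw [show (fun t => π (T t v)) = π ∘ fun t => T t v from rfl, this, hT0, hBg v hv]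
    simp [mul_comm]
  have hgg : Gen (τ g) := by
    rw [← (hloop _ hv0).2]
    convert hgen using 4 with t
    simp only [hπ, hT, circ, periphE, Complex.exp_add, Circle.coe_exp, hω]
    rw [← Complex.ofReal_exp, Real.exp_log hδ]
    congr 5
    push_cast
    ring
  obtain ⟨h, hh⟩ : ∃ h : G, h ^ (τ g).toAdd = g := by
    rcases hgg with h | h
    · exact ⟨g, by rw [h, toAdd_ofAdd, zpow_one]⟩
    · exact ⟨g⁻¹, by rw [h, toAdd_ofAdd]; simp⟩
  set bt : ℝ × ℝ × ℂ → G := fun v => h ^ (-(τ (B v)).toAdd) * B v with hbt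
  have hinv1 : ∀ v ∈ D, bt (T 1 v) = bt v := fun v hv => by
    simp only [hbt, hBg v hv, map_mul, toAdd_mul]
    nth_rewrite 2 [← hh]
    group
  have hadd : ∀ a b v, T a (T b v) = T (b + a) v := fun a b v => by
    simp only [hT]; push_cast; ring_nf
  have hinv : ∀ v ∈ D, ∀ k : ℤ, bt (T k v) = bt v := by
    intro v hv k
    induction k using Int.induction_on with
    | zero => simp [hT0]
    | succ k ih =>
      rw [← ih, ← hinv1 _ (hTm ((k : ℤ) : ℝ) hv), hadd]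
      push_cast; rfl
    | pred k ih =>
      rw [← ih, ← hinv1 _ (hTm _ hv), hadd]
      push_cast
      rw [sub_add_cancel]
  refine ⟨N, hNo, ⟨hx, mem_ball_self hε⟩, fun y hy => ?_, ?_, ⟨_, hπm hv0⟩,
    ⟨h, fun y => bt (((e y).1 : ℝ), (e y).2.1, Complex.log (e y).2.2), fun y hy => ?_⟩,
    fun y hy => ?_⟩
  · have := (hb hy.2).2
    rwa [mem_preimage, e.left_inv hy.1] at this
  · have : N \ S = π '' D := by
      refine Subset.antisymm (fun y hy => ?_) (image_subset_iff.2 hπm)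
      have := hlift y hy.1 _ (Complex.exp_log (hne0 y hy))
      exact ⟨_, this.1, this.2⟩
    rw [this]
    exact hDc.isPreconnected.image _ hπc
  · have hz := hne0 y hy
    have hec : ContinuousAt e y := e.continuousAt hy.1.1
    set l : X → ℝ × ℝ × ℂ := fun a => (((e a).1 : ℝ), (e a).2.1,
      Complex.log (e y).2.2 + Complex.log ((e a).2.2 / (e y).2.2)) with hl
    have hly : l y = (((e y).1 : ℝ), (e y).2.1, Complex.log (e y).2.2) := by
      simp [hl, div_self hz]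
    have hlc : ContinuousAt l y := by
      have h2 : ContinuousAt (fun a => Complex.log ((e a).2.2 / (e y).2.2)) y :=
        ContinuousAt.clog (by fun_prop) (by simp [div_self hz])
      simp only [hl]
      fun_prop
    have hev : ∀ᶠ a in 𝓝 y, a ∈ N ∧ (e a).2.2 ≠ 0 :=
      Eventually.and (hNo.mem_nhds hy.1) ((by fun_prop : ContinuousAt (fun a => (e a).2.2) y).eventually_ne hz)
    have hexp : ∀ a, (e a).2.2 ≠ 0 → Complex.exp (Complex.log (e y).2.2 +
        Complex.log ((e a).2.2 / (e y).2.2)) = (e a).2.2 := fun a ha => by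
      rw [Complex.exp_add, Complex.exp_log hz, Complex.exp_log (div_ne_zero ha hz)]
      field_simp
    have hy' := hlift y hy.1 _ (Complex.exp_log hz)
    have htend : Tendsto l (𝓝 y) (𝓝[D] (((e y).1 : ℝ), (e y).2.1, Complex.log (e y).2.2)) := by
      rw [tendsto_nhdsWithin_iff]
      exact ⟨hly ▸ hlc, hev.mono fun a ha => (hlift a ha.1 _ (hexp a ha.2)).1⟩
    filter_upwards [hev, htend.eventually (hB _ hy'.1)] with a ha h2
    have ha' := hlift a ha.1 _ (hexp a ha.2)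
    rw [pb, hy'.2, show π (l a) = a from ha'.2] at h2
    obtain ⟨k, hk⟩ := Complex.exp_eq_exp_iff_exists_int.1
      ((Complex.exp_log ha.2).trans (hexp a ha.2).symm)
    have h3 : (((e a).1 : ℝ), (e a).2.1, Complex.log (e a).2.2) = T k (l a) := by
      simp only [hT, hl, hk, hω]
      push_cast; rfl
    rw [h3, hinv _ ha'.1]
    have h4 : B (l a) = B (((e y).1 : ℝ), (e y).2.1, Complex.log (e y).2.2) * ψ y a := by
      rw [h2]; group
    simp only [hbt]
    rw [show (((e a).1 : ℝ), (e a).2.1, Complex.log (e y).2.2 +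
      Complex.log ((e a).2.2 / (e y).2.2)) = l a from rfl, h4, map_mul, toAdd_mul]
    group
  · have hy' := hlift y hy.1 _ (Complex.exp_log (hne0 y hy))
    have := hloop _ hy'.1
    rw [hy'.2] at this
    exact ⟨_, this.1, this.2 ▸ hgg⟩

end Pool.Agent.MP_b8a826_gt

end

-- part MP_b8a826_gt.Periph
section

/-! Null-homologous push-offs of the two boundary knots are conjugate. -/

namespace Pool.Agent.MP_b8a826_gt
open Set unitInterval Filter Topology Metric

/-- The shell embedding. -/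
noncomputable def periphI (p : S3 × I) : E4 := (1 + (p.2 : ℝ)) • p.1.1

theorem periphI_cont : Continuous periphI := by
  unfold periphI; fun_prop

theorem periphI_mem {A : C(Circle × I, S3 × I)} (p : S3 × I) :
    periphI p ∈ WA A ↔ p ∉ range A := by
  rw [periphI, mem_WA _ (by linarith [p.2.2.1]), add_sub_cancel_left, projIcc_val]

theorem periphI_norm (p : S3 × I) : ‖periphI p‖ = 1 + p.2 := by
  rw [periphI, norm_smul, mem_sphere_zero_iff_norm.1 p.1.2, mul_one,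
    Real.norm_of_nonneg (by linarith [p.2.2.1])]

open Classical in
/-- Radial projection. -/
noncomputable def periphN (y₀ : S3) (x : E4) : S3 :=
  if h : x = 0 then y₀ else ⟨‖x‖⁻¹ • x, by
    rw [mem_sphere_zero_iff_norm, norm_smul, norm_inv, norm_norm,
      inv_mul_cancel₀ (norm_ne_zero_iff.2 h)]⟩

theorem periphN_val (y₀ : S3) {x : E4} (h : x ≠ 0) : (periphN y₀ x).1 = ‖x‖⁻¹ • x := by
  rw [periphN, dif_neg h]

/-- The open shell as a chart. -/
noncomputable def periphShell (y₀ : S3) : OpenPartialHomeomorph (S3 × I) E4 where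
  toFun := periphI
  invFun x := (periphN y₀ x, projIcc 0 1 zero_le_one (‖x‖ - 1))
  source := {p | 0 < (p.2 : ℝ) ∧ (p.2 : ℝ) < 1}
  target := {x | 1 < ‖x‖ ∧ ‖x‖ < 2}
  map_source' p hp := by
    simp only [mem_ofPred_eq, periphI_norm] at hp ⊢
    constructor <;> linarith [hp.1, hp.2]
  map_target' x hx := by
    simp only [mem_ofPred_eq] at hx ⊢
    rw [projIcc_of_mem _ ⟨by linarith [hx.1], by linarith [hx.2]⟩]
    constructor <;> simp only <;> linarith [hx.1, hx.2]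
  left_inv' p hp := by
    have h1 : (0 : ℝ) < 1 + p.2 := by linarith [p.2.2.1]
    have h0 : periphI p ≠ 0 := by
      rw [← norm_ne_zero_iff, periphI_norm]; exact h1.ne'
    refine Prod.ext (Subtype.ext ?_) ?_
    · simp only
      rw [periphN_val _ h0, periphI_norm, periphI, smul_smul, inv_mul_cancel₀ h1.ne', one_smul]
    · simp only
      rw [periphI_norm, add_sub_cancel_left, projIcc_val]
  right_inv' x hx := by
    have h0 : x ≠ 0 := by
      rw [← norm_ne_zero_iff]; linarith [hx.1]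
    rw [periphI]
    simp only
    rw [periphN_val _ h0, projIcc_of_mem _ ⟨by linarith [hx.1], by linarith [hx.2]⟩, smul_smul,
      add_sub_cancel, mul_inv_cancel₀ (norm_ne_zero_iff.2 h0), one_smul]
  open_source := by
    have h : Continuous fun p : S3 × I => (p.2 : ℝ) := by fun_prop
    exact (isOpen_lt continuous_const h).inter (isOpen_lt h continuous_const)
  open_target := (isOpen_lt continuous_const continuous_norm).inter
    (isOpen_lt continuous_norm continuous_const)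
  continuousOn_toFun := periphI_cont.continuousOn
  continuousOn_invFun := by
    refine ContinuousOn.prodMk ?_ (continuous_projIcc.comp (by fun_prop)).continuousOn
    rw [IsInducing.subtypeVal.continuousOn_iff]
    have h0 : ∀ x ∈ {x : E4 | 1 < ‖x‖ ∧ ‖x‖ < 2}, x ≠ 0 := fun x hx => by
      rw [← norm_ne_zero_iff]; linarith [hx.1]
    refine ContinuousOn.congr (f := fun x : E4 => ‖x‖⁻¹ • x) ?_ fun x hx => periphN_val _ (h0 x hx)
    exact (continuous_norm.continuousOn.inv₀ fun x hx => norm_ne_zero_iff.2 (h0 x hx)).smul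
      continuousOn_id

/-- Translation into the open half space. -/
noncomputable def periphK (s u : ℝ) : OpenPartialHomeomorph ((ℝ × ℝ) × ℂ) (Ici (0 : ℝ) × ℝ × ℂ) where
  toFun v := (projIci 0 (s + v.1.1), u + v.1.2, v.2)
  invFun w := (((w.1 : ℝ) - s, w.2.1 - u), w.2.2)
  source := {v | 0 < s + v.1.1}
  target := {w | 0 < (w.1 : ℝ)}
  map_source' v hv := lt_of_lt_of_le (show (0 : ℝ) < s + v.1.1 from hv) (le_max_right 0 _)
  map_target' w hw := by simpa using hw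
  left_inv' v hv := by
    have : (0 : ℝ) ≤ s + v.1.1 := le_of_lt hv
    change ((max 0 (s + v.1.1) - s, u + v.1.2 - u), v.2) = v
    simp [max_eq_right this]
  right_inv' w _ := by
    simp only [add_sub_cancel]
    exact Prod.ext (projIci_coe w.1) rfl
  open_source := isOpen_lt continuous_const (by fun_prop)
  open_target := isOpen_lt continuous_const (by fun_prop)
  continuousOn_toFun := by
    have := periph_cont_pI
    fun_prop
  continuousOn_invFun := by fun_prop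

theorem periph_dense {O : Set (Circle × I)} (hO : IsOpen O) (hne : O.Nonempty) :
    ∃ q ∈ O, q.2 ≠ 0 ∧ q.2 ≠ 1 := by
  have h1 : Dense ({0}ᶜ ∩ {1}ᶜ : Set I) :=
    (dense_compl_singleton 0).inter_of_isOpen_left (dense_compl_singleton 1) isOpen_compl_singleton
  obtain ⟨q, hq, h2⟩ := (dense_univ.prod h1).inter_open_nonempty O hO hne
  exact ⟨q, hq, h2.2.1, h2.2.2⟩

theorem periph_pbox {A : C(Circle × I, S3 × I)} (hA : Conc A) (hM : Mer (WA A)) {G : Type}
    [Group G] {φ : E4 → E4 → G} (hφ : Coc (WA A) φ) (τ : G →* MZ)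
    (h1 : H1 (WA A) fun x y => τ (φ x y)) {x : S3 × I} (hx : x ∈ range A) :
    PBox (pb periphI φ) τ (range A) x := by
  have hf : Fl (pb periphI φ) (range A)ᶜ :=
    (hφ.fl open_WA).pb periphI_cont.continuousOn fun p hp => (periphI_mem p).2 hp
  obtain ⟨e, hxe, he⟩ := hA.flat x hx
  refine periph_box hf e he hxe hx fun ε hε hb => ?_
  have hx0 : (e x).2.2 = 0 := (he x hxe).1 hx
  have hO : IsOpen (e.source ∩ e ⁻¹' (ball (e x) ε ∩ {w | 0 < (w.1 : ℝ)})) :=
    e.isOpen_inter_preimage (isOpen_ball.inter (isOpen_lt continuous_const (by fun_prop)))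
  obtain ⟨q, hq, hq0, hq1⟩ := periph_dense (hO.preimage A.continuous) (by
    have hp : (0 : ℝ) ≤ (e x).1 := (e x).1.2
    let w : Ici (0 : ℝ) × ℝ × ℂ := (⟨(e x).1 + ε / 2, by
      simp only [mem_Ici]; linarith⟩, (e x).2)
    have hw : w ∈ ball (e x) ε := by
      rw [mem_ball, Prod.dist_eq, max_lt_iff, Subtype.dist_eq]
      simp only [w, dist_self, Real.dist_eq, add_sub_cancel_left]
      exact ⟨by rw [abs_of_pos (by linarith)]; linarith, hε⟩
    have hw' := e.map_target (hb hw)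
    obtain ⟨q, hq⟩ := (he _ hw').2 (by rw [e.right_inv (hb hw)]; exact hx0)
    refine ⟨q, ?_⟩
    rw [mem_preimage, hq]
    refine ⟨hw', ?_⟩
    rw [mem_preimage, e.right_inv (hb hw)]
    refine ⟨hw, ?_⟩
    simp only [w, mem_ofPred_eq]
    linarith)
  set a := A q with ha
  have has : a ∈ e.source := hq.1
  have hab : e a ∈ ball (e x) ε := hq.2.1
  have hap : 0 < ((e a).1 : ℝ) := hq.2.2
  have ha0 : (e a).2.2 = 0 := (he a has).1 ⟨q, rfl⟩
  set Θ₁ := (periphK (e a).1 (e a).2.1).trans (e.symm.trans (periphShell a.1)) with hΘ₁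
  have hK0 : periphK (e a).1 (e a).2.1 0 = e a := by
    change (projIci 0 (((e a).1 : ℝ) + 0), (e a).2.1 + 0, (0 : ℂ)) = e a
    rw [add_zero, add_zero, projIci_coe, ← ha0]
  have h0 : (0 : (ℝ × ℝ) × ℂ) ∈ Θ₁.source := by
    rw [hΘ₁, OpenPartialHomeomorph.trans_source, OpenPartialHomeomorph.trans_source]
    refine ⟨by simpa [periphK] using hap, ?_⟩
    rw [mem_preimage, hK0]
    refine ⟨e.map_source has, ?_⟩
    rw [mem_preimage, e.left_inv has]
    refine ⟨lt_of_le_of_ne a.2.2.1 fun h => hq0 ((hA.p0 q.1 q.2).1 (Subtype.ext h.symm)),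
      lt_of_le_of_ne a.2.2.2 fun h => hq1 ((hA.p1 q.1 q.2).1 (Subtype.ext h))⟩
  obtain ⟨η, hη, hηb⟩ := Metric.isOpen_iff.1 Θ₁.open_source 0 h0
  set δ := min η ε / 2 with hδ
  have hδ0 : 0 < δ := by positivity
  have hδη : δ < η := by have := min_le_left η ε; linarith
  have hδε : δ < ε := by have := min_le_right η ε; linarith
  set Θ := (Homeomorph.smulOfNeZero δ hδ0.ne').toOpenPartialHomeomorph.trans Θ₁ with hΘ
  have hΘs : ∀ v, v ∈ Θ.source ↔ δ • v ∈ Θ₁.source := fun v => by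
    rw [hΘ, OpenPartialHomeomorph.trans_source]; simp
  have hΘv : ∀ v, Θ v = periphI (e.symm (periphK (e a).1 (e a).2.1 (δ • v))) := fun v => rfl
  have hC : Chart (WA A)ᶜ Θ := by
    refine ⟨fun v hv => (hΘs v).2 (hηb ?_), fun v hv => ?_⟩
    · rw [mem_ball_zero_iff, norm_smul, Real.norm_of_nonneg hδ0.le]
      have := mem_closedBall_zero_iff.1 hv
      nlinarith
    · have h2 := (hΘs v).1 hv
      rw [hΘ₁, OpenPartialHomeomorph.trans_source, OpenPartialHomeomorph.trans_source] at h2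
      have h3 : periphK (e a).1 (e a).2.1 (δ • v) ∈ e.target := h2.2.1
      rw [hΘv, mem_compl_iff, periphI_mem, not_not, he _ (e.map_target h3), e.right_inv h3]
      change δ • v.2 = 0 ↔ _
      simp [hδ0.ne']
  have hg := hM _ (hφ.map τ) h1 Θ hC
  have hcv : Cv (WA A) (circ fun θ => Θ (0, θ)) := by
    have hm : ∀ θ : Circle, ((0 : ℝ × ℝ), (θ : ℂ)) ∈ Θ.source := fun θ =>
      hC.1 (by simp [Prod.norm_def])
    refine ⟨circ_cont (Θ.continuousOn.comp_continuous (by fun_prop) hm), fun t => ?_⟩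
    by_contra h
    exact Circle.coe_ne_zero _ ((hC.2 _ (hm _)).1 h)
  rw [hol_map (hφ.fl open_WA) hcv] at hg
  rw [mem_ball, Prod.dist_eq, Prod.dist_eq, max_lt_iff, max_lt_iff] at hab
  refine ⟨(e a).1, (e a).2.1, δ, hap.le, hab.1, hab.2.1, hδ0, hδε, ?_⟩
  rw [hol_pb]
  convert hg using 3
  funext t
  simp [circ, hΘv, periphK]

theorem periph_end {A : C(Circle × I, S3 × I)} {G : Type} [Group G] {φ : E4 → E4 → G}
    (hφ : Coc (WA A) φ) (τ : G →* MZ) {U : Set (S3 × I)} {χ : S3 × I → S3 × I → G}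
    (hU : ∀ x ∈ range A, U ∈ 𝓝 x) (hχ : Fl χ U)
    (hP : ∀ c, Cv (U \ range A) c → τ (hol (pb periphI φ) c) = 1 →
      hol χ c = hol (pb periphI φ) c) {u : I} (hu : ∀ θ w, (A (θ, w)).2 = u ↔ w = u) {r : ℝ}
    (hr : ∀ a ∈ Icc (0 : ℝ) 1, 0 < r + a * (1 + u - r) ∧
      projIcc 0 1 zero_le_one (r + a * (1 + u - r) - 1) = u)
    {Λ : Circle × ℝ → S3} (h : Track (fun θ => (A (θ, u)).1) Λ)
    (ht : τ (hol (lev r φ) (circ fun θ => Λ (θ, 1))) = 1) :
    IsConj (hol (lev r φ) (circ fun θ => Λ (θ, 1))) (hol χ (circ fun θ => A (θ, u))) := by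
  obtain ⟨hc, h0, hK⟩ := h
  have hA0 : ∀ θ, (Λ (θ, 0), u) = A (θ, u) := fun θ =>
    Prod.ext (h0 θ) ((hu θ u).2 rfl).symm
  have hout : ∀ θ s, 0 < s → s ≤ 1 → (Λ (θ, s), u) ∉ range A := by
    rintro θ s h1 h2 ⟨⟨θ', w⟩, hq⟩
    have hw : w = u := (hu θ' w).1 (by rw [hq])
    subst hw
    exact hK θ s h1 h2 ⟨θ', by simp only [hq]⟩
  have hev : ∀ᶠ s in 𝓝 (0 : ℝ), ∀ θ ∈ (univ : Set Circle), (Λ (θ, s), u) ∈ U := by
    refine isCompact_univ.eventually_forall_of_forall_eventually fun θ _ => ?_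
    have h3 : ContinuousAt (fun z : ℝ × Circle => (Λ (z.2, z.1), u)) (0, θ) := by fun_prop
    exact h3.preimage_mem_nhds (by simp only [hA0]; exact hU _ ⟨_, rfl⟩)
  obtain ⟨η, hη, hb⟩ := Metric.eventually_nhds_iff_ball.1 hev
  set s₀ := min η 1 / 2 with hs₀
  have p0 : 0 < s₀ := by positivity
  have p1 : s₀ < η := by have := min_le_left η 1; linarith
  have p2 : s₀ < 1 := by have := min_le_right η 1; linarith
  have hin : ∀ θ s, 0 ≤ s → s ≤ s₀ → (Λ (θ, s), u) ∈ U := fun θ s h1 h2 =>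
    hb s (by rw [mem_ball_zero_iff, Real.norm_of_nonneg h1]; linarith) θ trivial
  set k : ℝ → ℝ := fun a => projIcc (0 : ℝ) 1 zero_le_one a with hk
  have hkc : Continuous k := continuous_subtype_val.comp continuous_projIcc
  have hkm : ∀ a, k a ∈ Icc (0 : ℝ) 1 := fun a => Subtype.prop _
  have hk0 : k 0 = 0 := by simp [hk]
  have hk1 : k 1 = 1 := by simp [hk]
  have c1 := isConj_of_homotopy (hφ.fl open_WA) (H := fun p : ℝ × ℝ =>
      (r + k p.1 * (1 + u - r)) • (Λ (Circle.exp (2 * Real.pi * p.2), 1 + k p.1 * (s₀ - 1))).1)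
    (by fun_prop) (fun p => by
      rw [mem_WA _ (hr _ (hkm _)).1, (hr _ (hkm _)).2]
      have := hkm p.1
      exact hout _ _ (by nlinarith [this.1, this.2]) (by nlinarith [this.1, this.2]))
    (fun s => by simp)
  have c2 := isConj_of_homotopy hχ (H := fun p : ℝ × ℝ =>
      (Λ (Circle.exp (2 * Real.pi * p.2), (1 - k p.1) * s₀), u))
    (by fun_prop) (fun p => by
      have := hkm p.1
      exact hin _ _ (by nlinarith [this.1, this.2]) (by nlinarith [this.1, this.2]))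
    (fun s => by simp)
  simp only [hk0, hk1, zero_mul, add_zero, one_mul, add_sub_cancel, sub_zero, sub_self,
    hA0] at c1 c2
  have hcv : Cv (U \ range A) fun t => (Λ (Circle.exp (2 * Real.pi * t), s₀), u) :=
    ⟨by fun_prop, fun t => ⟨hin _ _ p0.le le_rfl, hout _ _ p0 p2.le⟩⟩
  have c3 : IsConj (hol (lev r φ) (circ fun θ => Λ (θ, 1)))
      (hol (pb periphI φ) fun t => (Λ (Circle.exp (2 * Real.pi * t), s₀), u)) := c1
  have e := hP _ hcv (by rw [← isConj_iff_eq.1 (τ.map_isConj c3), ht])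
  rw [← e] at c3
  exact c3.trans c2

theorem periph {A : C(Circle × I, S3 × I)} (hA : Conc A) (hM : Mer (WA A)) {G : Type} [Group G]
    {φ : E4 → E4 → G} (hφ : Coc (WA A) φ) (τ : G →* MZ) (h1 : H1 (WA A) fun x y => τ (φ x y))
    {Λ₀ Λ₁ : Circle × ℝ → S3} (h₀ : Track (fun θ => (A (θ, 0)).1) Λ₀)
    (h₁ : Track (fun θ => (A (θ, 1)).1) Λ₁)
    (t₀ : τ (hol (lev (1 / 2) φ) (circ fun θ => Λ₀ (θ, 1))) = 1)
    (t₁ : τ (hol (lev (5 / 2) φ) (circ fun θ => Λ₁ (θ, 1))) = 1) :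
    IsConj (hol (lev (1 / 2) φ) (circ fun θ => Λ₀ (θ, 1)))
      (hol (lev (5 / 2) φ) (circ fun θ => Λ₁ (θ, 1))) := by
  have hf : Fl (pb periphI φ) (range A)ᶜ :=
    (hφ.fl open_WA).pb periphI_cont.continuousOn fun p hp => (periphI_mem p).2 hp
  obtain ⟨U, χ, hU, hχ, hP⟩ := periph_ext (isCompact_range A.continuous) (range_nonempty A) hf
    fun x hx => periph_pbox hA hM hφ τ h1 hx
  have c0 := periph_end hφ τ hU hχ hP hA.p0 (r := 1 / 2) (fun a ha => by
    have := ha.1; have := ha.2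
    simp only [Icc.coe_zero]
    exact ⟨by linarith, projIcc_of_le_left _ (by linarith)⟩) h₀ t₀
  have c1 := periph_end hφ τ hU hχ hP hA.p1 (r := 5 / 2) (fun a ha => by
    have := ha.1; have := ha.2
    simp only [Icc.coe_one]
    exact ⟨by linarith, projIcc_of_right_le _ (by linarith)⟩) h₁ t₁
  have c2 := isConj_of_homotopy hχ (H := fun p : ℝ × ℝ =>
      A (Circle.exp (2 * Real.pi * p.2), projIcc 0 1 zero_le_one p.1))
    (A.continuous.comp ((by fun_prop : Continuous fun p : ℝ × ℝ =>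
      Circle.exp (2 * Real.pi * p.2)).prodMk (continuous_projIcc.comp continuous_fst)))
    (fun p => mem_of_mem_nhds (hU _ ⟨_, rfl⟩)) (fun s => by simp)
  simp only [projIcc_left, projIcc_right] at c2
  exact (c0.trans c2).trans c1.symm

end Pool.Agent.MP_b8a826_gt

end

-- part MP_b8a826_gt.Univ1
section

/-! The edge-path group and its universal property. -/

namespace Pool.Agent.MP_b8a826_gt
open Set

variable {E : Type} [NormedAddCommGroup E] [NormedSpace ℝ E] {G : Type} [Group G]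

/-- `g` is the product of `φ` along a polygon in `W` from `b` to `x`. -/
inductive Rch (W : Set E) (φ : E → E → G) (b : E) : E → G → Prop
  | refl : Rch W φ b b 1
  | step {x y : E} {g : G} : Rch W φ b x g → segment ℝ x y ⊆ W → Rch W φ b y (g * φ x y)

theorem Rch.trans {W : Set E} {φ : E → E → G} {b x y : E} {g h : G} (h1 : Rch W φ b x g)
    (h2 : Rch W φ x y h) : Rch W φ b y (g * h) := by
  induction h2 with
  | refl => simpa using h1
  | step _ hs ih => rw [← mul_assoc]; exact ih.step hs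

theorem Rch.symm {W : Set E} {φ : E → E → G} (hφ : Coc W φ) {b x : E} {g : G}
    (h : Rch W φ b x g) : Rch W φ x b g⁻¹ := by
  induction h with
  | refl => simpa using Rch.refl
  | @step x y g _ hs ih =>
    have := (Rch.refl.step (φ := φ) (b := y) (y := x) (by rwa [segment_symm])).trans ih
    rwa [one_mul, hφ.symm hs, ← mul_inv_rev] at this

theorem rch_of_conn {W : Set E} (ho : IsOpen W) (hc : IsPreconnected W) (φ : E → E → G) {b x : E}
    (hb : b ∈ W) (hx : x ∈ W) : ∃ g, Rch W φ b x g := by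
  refine hc.induction₂' (fun x y => (∃ g, Rch W φ b x g) → ∃ g, Rch W φ b y g) ?_
    (fun x y z _ _ _ h1 h2 h => h2 (h1 h)) hb hx ⟨1, .refl⟩
  intro x hx
  obtain ⟨ε, hε, hb⟩ := Metric.isOpen_iff.1 ho x hx
  filter_upwards [mem_nhdsWithin_of_mem_nhds (Metric.ball_mem_nhds x hε)] with y hy
  have hs := ((convex_ball x ε).segment_subset (Metric.mem_ball_self hε) hy).trans hb
  exact ⟨fun ⟨g, h⟩ => ⟨_, h.step hs⟩, fun ⟨g, h⟩ => ⟨_, h.step (by rwa [segment_symm])⟩⟩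

theorem seg_of_Ad {φ : E → E → G} {U : Set E} {s : Set (E × G)} (h : Ad φ (· ⊆ U) s)
    {v w : E × G} (hv : v ∈ s) (hw : w ∈ s) : segment ℝ v.1 w.1 ⊆ U :=
  ((convex_convexHull ℝ _).segment_subset (subset_convexHull ℝ _ (mem_image_of_mem _ hv))
    (subset_convexHull ℝ _ (mem_image_of_mem _ hw))).trans h.1

theorem tri_of_Ad {φ : E → E → G} {U : Set E} {s : Set (E × G)} (h : Ad φ (· ⊆ U) s)
    {u v w : E × G} (hu : u ∈ s) (hv : v ∈ s) (hw : w ∈ s) :
    convexHull ℝ {u.1, v.1, w.1} ⊆ U := by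
  refine (convexHull_mono ?_).trans h.1
  simp only [insert_subset_iff, singleton_subset_iff]
  exact ⟨mem_image_of_mem _ hu, mem_image_of_mem _ hv, mem_image_of_mem _ hw⟩

theorem len1 {α : Type} {l : List α} (h : l.length = 1) : ∃ x, l = [x] := List.length_eq_one_iff.1 h
theorem len2 {α : Type} {l : List α} (h : l.length = 2) : ∃ x y, l = [x, y] :=
  List.length_eq_two.1 h
theorem len3 {α : Type} {l : List α} (h : l.length = 3) : ∃ x y z, l = [x, y, z] :=
  List.length_eq_three.1 h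
theorem len4 {α : Type} {l : List α} (h : l.length = 4) : ∃ x y z w, l = [x, y, z, w] := by
  obtain ⟨x, l, rfl⟩ := List.exists_cons_of_length_eq_add_one h
  obtain ⟨y, z, w, rfl⟩ := len3 (by simpa using h : l.length = 3)
  exact ⟨x, y, z, w, rfl⟩

theorem wt_gauge {U : Set E} {τ τ' : E → E → MZ} {a : E → MZ}
    (h : ∀ x y, segment ℝ x y ⊆ U → τ x y = (a x)⁻¹ * τ' x y * a y) {z : Ch ℤ (E × Unit)}
    (hz : z ∈ CB ℤ U 2) (h0 : bd z = 0) : wt τ z = wt τ' z := by
  let A : Ch ℤ (E × Unit) →ₗ[ℤ] ℤ := ev fun l => match l with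
    | [x] => (a x.1).toAdd
    | _ => 0
  have := C_ext (f := wt τ) (g := wt τ' + A ∘ₗ bd) (fun l h1 h2 => by
    obtain ⟨x, y, rfl⟩ := len2 h1
    simp only [wt, A, ev_sg, LinearMap.add_apply, LinearMap.comp_apply, bd2, map_sub]
    rw [h _ _ (seg_of_Ad h2 (v := x) (w := y) (by simp) (by simp))]
    simp only [toAdd_mul, toAdd_inv]
    ring) hz
  simpa [h0] using this

theorem surj_of_H1 {U : Set E} {φ : E → E → G} {τ : G →* MZ} (h : H1 U fun x y => τ (φ x y)) :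
    Function.Surjective τ := by
  obtain ⟨z, -, -, hz⟩ := h.2
  have key : ∀ c, ∃ g, (τ g).toAdd = wt (fun x y => τ (φ x y)) c := by
    refine ch_ind ⟨1, by simp⟩ ?_ fun r l => ?_
    · rintro a b ⟨g, hg⟩ ⟨g', hg'⟩
      exact ⟨g * g', by simp [hg, hg']⟩
    · have : ∃ g, (τ g).toAdd = wt (fun x y => τ (φ x y)) (sg ℤ l) := by
        simp only [wt, ev_sg]
        split
        · exact ⟨_, rfl⟩
        · exact ⟨1, by simp⟩
      obtain ⟨g, hg⟩ := this
      exact ⟨g ^ r, by simp [hg]⟩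
  obtain ⟨g, hg⟩ := key z
  intro n
  refine ⟨g ^ n.toAdd, Multiplicative.toAdd.injective ?_⟩
  simp [hg, hz]

theorem exists_pi {W : Set E} (hW : Good W) :
    ∃ (π : Type) (_ : Group π) (φ : E → E → π) (τ : π →* MZ) (b : E), b ∈ W ∧ Coc W φ ∧
      H1 W (fun x y => τ (φ x y)) ∧ UP W φ ∧ ∀ g, Rch W φ b b g := by
  classical
  obtain ⟨τ0, hτ0, hH⟩ := hW.h1
  obtain ⟨b, hb⟩ : ∃ b, b ∈ W := by
    obtain ⟨z, hz, -, h1⟩ := hH.2
    by_contra hn
    have : z = 0 := C_eq_zero (n := 1) (fun s ⟨v, hv⟩ hs =>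
      hn ⟨v.1, seg_of_Ad hs hv hv (left_mem_segment ℝ _ _)⟩) hz
    simp [this] at h1
  let rels : Set (FreeGroup (E × E)) := {r | ∃ x y z, convexHull ℝ {x, y, z} ⊆ W ∧
    r = FreeGroup.of (x, y) * FreeGroup.of (y, z) * (FreeGroup.of (x, z))⁻¹}
  let φ0 : E → E → PresentedGroup rels := fun x y => PresentedGroup.of (x, y)
  have h0 : Coc W φ0 := fun x y z h => by
    have := PresentedGroup.one_of_mem (rels := rels) ⟨x, y, z, h, rfl⟩
    rw [map_mul, map_mul, map_inv, mul_inv_eq_one] at this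
    exact this
  have hL : ∀ (G : Type) [Group G] (ψ : E → E → G), Coc W ψ →
      ∃ L : PresentedGroup rels →* G, ∀ x y, L (φ0 x y) = ψ x y := fun G _ ψ hψ =>
    ⟨PresentedGroup.toGroup (f := fun p => ψ p.1 p.2) (by
      rintro _ ⟨x, y, z, h, rfl⟩
      simp [hψ x y z h]), fun x y => PresentedGroup.toGroup.of _⟩
  let π : Subgroup (PresentedGroup rels) :=
    { carrier := {g | Rch W φ0 b b g}
      mul_mem' := Rch.trans
      one_mem' := .refl
      inv_mem' := Rch.symm h0 }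
  have hp : ∀ x, ∃ g, (x ∈ W → Rch W φ0 b x g) ∧ (x = b → g = 1) := fun x => by
    by_cases hx : x = b
    · exact ⟨1, fun _ => hx ▸ .refl, fun _ => rfl⟩
    by_cases hx' : x ∈ W
    · obtain ⟨g, hg⟩ := rch_of_conn hW.op hW.conn φ0 hb hx'
      exact ⟨g, fun _ => hg, fun h => absurd h hx⟩
    · exact ⟨1, fun h => absurd h hx', fun _ => rfl⟩
  choose p hp hpb using hp
  have pb : p b = 1 := hpb b rfl
  let φ : E → E → π := fun x y => if h : segment ℝ x y ⊆ W then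
    ⟨p x * φ0 x y * (p y)⁻¹, ((hp x (h (left_mem_segment ℝ x y))).step h).trans
      ((hp y (h (right_mem_segment ℝ x y))).symm h0)⟩ else 1
  have hφ : ∀ x y, segment ℝ x y ⊆ W → (φ x y : PresentedGroup rels) = p x * φ0 x y * (p y)⁻¹ :=
    fun x y h => by simp only [φ, dif_pos h]
  have hc : Coc W φ := fun x y z h => by
    have s : ∀ a ∈ ({x, y, z} : Set E), ∀ b ∈ ({x, y, z} : Set E), segment ℝ a b ⊆ W :=
      fun a ha b hb => ((convex_convexHull ℝ _).segment_subset (subset_convexHull ℝ _ ha)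
        (subset_convexHull ℝ _ hb)).trans h
    apply Subtype.ext
    rw [Subgroup.coe_mul, hφ _ _ (s x (by simp) y (by simp)), hφ _ _ (s y (by simp) z (by simp)),
      hφ _ _ (s x (by simp) z (by simp)), ← h0 x y z h]
    group
  have tr : ∀ {x g}, Rch W φ0 b x g → ∃ h : π, (h : PresentedGroup rels) = g * (p x)⁻¹ ∧
      Rch W φ b x h := by
    intro x g h
    induction h with
    | refl => exact ⟨1, by simp [pb], .refl⟩
    | step _ hs ih =>
      obtain ⟨h, e, r⟩ := ih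
      exact ⟨_, by rw [Subgroup.coe_mul, e, hφ _ _ hs]; group, r.step hs⟩
  have hR : ∀ g : π, Rch W φ b b g := fun g => by
    obtain ⟨h, e, r⟩ := tr g.2
    rwa [Subtype.ext (show (h : PresentedGroup rels) = g by rw [e, pb]; simp)] at r
  have hU : UP W φ := by
    intro G Γ _ _ ψ f q hψ hq
    obtain ⟨L, hL⟩ := hL G ψ hψ
    have key : ∀ {x} {h : π}, Rch W φ b x h → f (L (h * p x)) = q h := by
      intro x h r
      induction r with
      | refl => simp [pb]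
      | @step x y h _ hs ih =>
        rw [map_mul q, ← ih, ← hq _ _ hs, ← hL, ← map_mul, ← map_mul, Subgroup.coe_mul, hφ _ _ hs]
        congr 2
        group
    refine ⟨L.comp π.subtype, fun x => L (p x), fun g => ?_, fun x hx => ?_, fun x y hs => ?_⟩
    · simpa [pb] using key (hR g)
    · obtain ⟨h, e, r⟩ := tr (hp x hx)
      have e' : h = 1 := Subtype.ext (by simpa using e)
      simpa [e'] using key r
    · simp only [MonoidHom.comp_apply, Subgroup.subtype_apply, hφ _ _ hs, map_mul, map_inv, hL]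
      group
  obtain ⟨τ, a, -, -, ha⟩ := hU MZ Unit τ0 1 1 hτ0 fun _ _ _ => rfl
  refine ⟨π, inferInstance, φ, τ, b, hb, hc, ⟨fun z hz h1 h2 => hH.1 z hz h1 ?_, ?_⟩, hU, hR⟩
  · rw [wt_gauge ha hz h1, h2]
  · obtain ⟨z, hz, h1, h2⟩ := hH.2
    exact ⟨z, hz, h1, by rw [← wt_gauge ha hz h1, h2]⟩

end Pool.Agent.MP_b8a826_gt

end

-- part MP_b8a826_gt.Univ2
section

/-! Maps between coverings, norms and reduction modulo two. -/

namespace Pool.Agent.MP_b8a826_gt
open Set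

variable {E : Type} [NormedAddCommGroup E] [NormedSpace ℝ E] {G G' : Type} [Group G] [Group G']
  {R : Type} [CommRing R] {φ : E → E → G} {U : Set E}

/-- The map of coverings induced by a homomorphism. -/
noncomputable def up (κ : G →* G') : Ch R (E × G) →ₗ[R] Ch R (E × G') := mp fun v => (v.1, κ v.2)

theorem up_mem (κ : G →* G') {n : ℕ} {c : Ch R (E × G)} (hc : c ∈ CC R φ U n) :
    up κ c ∈ CC R (fun x y => κ (φ x y)) U n := by
  refine mp_mem (fun s hs => ⟨?_, ?_⟩) hc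
  · rw [image_image]; exact hs.1
  · rintro _ ⟨v, hv, rfl⟩ _ ⟨w, hw, rfl⟩
    simp only [hs.2 v hv w hw, map_mul]

omit [NormedAddCommGroup E] [NormedSpace ℝ E] in
theorem bd_up (κ : G →* G') (c : Ch R (E × G)) : bd (up κ c) = up κ (bd c) := bd_mp _ _

omit [NormedAddCommGroup E] [NormedSpace ℝ E] in
theorem up_act (κ : G →* G') (γ : G) (c : Ch R (E × G)) :
    up κ (act γ c) = act (κ γ) (up κ c) := by
  simp [up, act, mp_mp, Function.comp_def]

/-- Differences of chains and their translates. -/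
noncomputable def Dif (R : Type) [CommRing R] (φ : E → E → G) (U : Set E) (H : Set G) (n : ℕ) :
    Submodule R (Ch R (E × G)) :=
  Submodule.span R {d | ∃ h ∈ H, ∃ c ∈ CC R φ U n, d = act h c - c}

theorem dif_mem {H : Set G} {n : ℕ} {h : G} (hh : h ∈ H) {c : Ch R (E × G)}
    (hc : c ∈ CC R φ U n) : act h c - c ∈ Dif R φ U H n :=
  Submodule.subset_span ⟨h, hh, c, hc, rfl⟩

theorem dif_ind {H : Set G} {n : ℕ} {M : Type} [AddCommGroup M] [Module R M]
    (L L' : Ch R (E × G) →ₗ[R] M) (m : ℕ)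
    (h : ∀ h ∈ H, ∀ c ∈ CC R φ U n, ∃ w ∈ CC R φ U m, L (act h c - c) = L' w)
    {c : Ch R (E × G)} (hc : c ∈ Dif R φ U H n) : ∃ w ∈ CC R φ U m, L c = L' w := by
  have : Dif R φ U H n ≤ ((CC R φ U m).map L').comap L := Submodule.span_le.2 (by
    rintro _ ⟨g, hg, c, hc, rfl⟩
    obtain ⟨w, hw, e⟩ := h g hg c hc
    exact ⟨w, hw, e.symm⟩)
  obtain ⟨w, hw, e⟩ := this hc
  exact ⟨w, hw, e.symm⟩

/-- Lifting of lists along a homomorphism. -/
noncomputable def lf (R : Type) [CommRing R] (κ : G →* G') (φ : E → E → G) :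
    Ch R (E × G') →ₗ[R] Ch R (E × G) :=
  ev fun l => match l with
    | [] => sg R []
    | v :: l => sg R ((v :: l).map fun w => (w.1, Function.invFun κ v.2 * φ v.1 w.1))

theorem up_surj (hφ : Coc U φ) {κ : G →* G'} (hκ : Function.Surjective κ) {n : ℕ}
    {c : Ch R (E × G')} (hc : c ∈ CC R (fun x y => κ (φ x y)) U n) :
    ∃ d ∈ CC R φ U n, up κ d = c := by
  refine ⟨lf R κ φ c, C_map _ _ (fun l h1 h2 => ?_) hc,
    C_ext (f := up κ ∘ₗ lf R κ φ) (g := LinearMap.id) (fun l h1 h2 => ?_) hc⟩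
  · rcases l with _ | ⟨v, l⟩
    · simp only [lf, ev_sg]
      exact sg_mem h1 ⟨by simp, by simp⟩
    · simp only [lf, ev_sg]
      refine sg_mem (by simpa using h1) ?_
      rw [set_map]
      refine ⟨by rw [image_image]; exact h2.1, ?_⟩
      rintro _ ⟨a, ha, rfl⟩ _ ⟨b, hb, rfl⟩
      simp only [mul_assoc, hφ _ _ _ (tri_of_Ad h2 (u := v) (by simp) ha hb)]
  · rcases l with _ | ⟨v, l⟩
    · simp [lf, up]
    · simp only [lf, up, LinearMap.comp_apply, ev_sg, mp_sg, LinearMap.id_apply, List.map_map]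
      congr 1
      refine (List.map_congr_left fun w hw => ?_).trans (List.map_id _)
      simp only [Function.comp_apply, map_mul, Function.rightInverse_invFun hκ v.2, id]
      rw [← h2.2 v (by simp) w hw]

theorem up_ker (κ : G →* G') {n : ℕ} {c : Ch R (E × G)} (hc : c ∈ CC R φ U (n + 1))
    (h0 : up κ c = 0) : c ∈ Dif R φ U κ.ker (n + 1) := by
  have := C_map (lf R κ φ ∘ₗ up κ - LinearMap.id) (Dif R φ U κ.ker (n + 1)) (fun l h1 h2 => by
    obtain ⟨v, l, rfl⟩ := List.exists_cons_of_length_eq_add_one h1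
    have hk : Function.invFun κ (κ v.2) * v.2⁻¹ ∈ κ.ker := by
      rw [MonoidHom.mem_ker, map_mul, Function.invFun_eq (f := κ) ⟨v.2, rfl⟩]; simp
    convert dif_mem hk (sg_mem (R := R) h1 h2) using 1
    simp only [LinearMap.sub_apply, LinearMap.comp_apply, LinearMap.id_apply, up, mp_sg, act,
      List.map_cons, lf, ev_sg, List.map_map]
    have e : ∀ w ∈ v :: l, Function.invFun κ (κ v.2) * φ v.1 w.1 =
        Function.invFun κ (κ v.2) * v.2⁻¹ * w.2 := fun w hw => by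
      rw [h2.2 v (by simp) w hw]; group
    rw [e v (by simp)]
    congr 3
    exact List.map_congr_left fun w hw => by
      simp only [Function.comp_apply, e w (List.mem_cons_of_mem _ hw)]) hc
  simpa [h0] using this

omit [NormedAddCommGroup E] [NormedSpace ℝ E] in
theorem act_apply (γ : G) (c : Ch R (E × G)) (l : List (E × G)) :
    act γ c (l.map fun v => (v.1, γ * v.2)) = c l := by
  classical
  have hi : Function.Injective (List.map fun v : E × G => (v.1, γ * v.2)) :=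
    List.map_injective_iff.2 fun a b h => by
      simp only [Prod.mk.injEq, mul_right_inj] at h
      exact Prod.ext h.1 h.2
  refine ch_ind (p := fun c => act γ c (l.map fun v => (v.1, γ * v.2)) = c l) (by simp)
    (fun a b h1 h2 => by simp [h1, h2]) (fun r m => ?_) c
  rw [map_smul, act, mp_sg]
  simp [sg, Finsupp.single_apply, hi.eq_iff]

omit [NormedAddCommGroup E] [NormedSpace ℝ E] in
theorem act_inj {K : Set (E × MZ) → Prop} {n : ℕ} {c : Ch R (E × MZ)} (hc : c ∈ C R K (n + 1))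
    (h : act (Multiplicative.ofAdd (1 : ℤ)) c = c) : c = 0 := by
  ext l
  by_contra hl
  obtain ⟨v, l, rfl⟩ := List.exists_cons_of_length_eq_add_one (mem_C.1 hc l hl).1
  have hk : ∀ k : ℕ, act (Multiplicative.ofAdd (k : ℤ)) c = c := fun k => by
    induction k with
    | zero => exact act_one c
    | succ k ih => rw [Nat.cast_succ, ofAdd_add, act_mul, h, ih]
  refine infinite_of_injective_forall_mem
    (f := fun k : ℕ => (v :: l).map fun v => (v.1, Multiplicative.ofAdd (k : ℤ) * v.2))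
    (fun a b hab => ?_) (fun k => ?_) c.support.finite_toSet
  · simp only [List.map_cons, List.cons.injEq, Prod.mk.injEq, true_and, mul_left_inj] at hab
    exact_mod_cast Multiplicative.ofAdd.injective hab.1
  · rw [Finset.mem_coe, Finsupp.mem_support_iff, ← hk k, act_apply]
    exact hl

theorem dif_cyc {φ : E → E → MZ} {H : Set MZ} {n : ℕ} {c : Ch R (E × MZ)}
    (hc : c ∈ Dif R φ U H n) :
    ∃ w ∈ CC R φ U n, c = act (Multiplicative.ofAdd (1 : ℤ)) w - w := by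
  refine dif_ind LinearMap.id (act (Multiplicative.ofAdd (1 : ℤ)) - LinearMap.id) n
    (fun h hh c hc => ?_) hc
  clear hh
  simp only [LinearMap.id_apply, LinearMap.sub_apply]
  induction h using Multiplicative.rec with | ofAdd k => ?_
  induction k using Int.induction_on with
  | zero => exact ⟨0, zero_mem _, by simp [act_one]⟩
  | succ k ih =>
    obtain ⟨w, hw, e⟩ := ih
    refine ⟨w + act (Multiplicative.ofAdd (k : ℤ)) c, add_mem hw (act_mem _ hc), ?_⟩
    rw [add_comm (k : ℤ), ofAdd_add, act_mul, map_add, ← sub_add_sub_cancel _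
      (act (Multiplicative.ofAdd (k : ℤ)) c), e]
    abel
  | pred k ih =>
    obtain ⟨w, hw, e⟩ := ih
    refine ⟨w - act (Multiplicative.ofAdd (-(k : ℤ) - 1)) c, sub_mem hw (act_mem _ hc), ?_⟩
    rw [LinearMap.map_sub, ← act_mul, ← ofAdd_add, add_sub_cancel, ← sub_add_sub_cancel _
      (act (Multiplicative.ofAdd (-(k : ℤ))) c), e]
    abel

section Norm
variable {H : Type} [Group H] [Fintype H]

/-- The norm of a finite group of deck transformations. -/
noncomputable def nm (ι : H →* G) : Ch R (E × G) →ₗ[R] Ch R (E × G) := ∑ h, act (ι h)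

omit [NormedAddCommGroup E] [NormedSpace ℝ E] in
theorem nm_apply (ι : H →* G) (c : Ch R (E × G)) : nm ι c = ∑ h, act (ι h) c := by
  simp [nm, LinearMap.sum_apply]

omit [NormedAddCommGroup E] [NormedSpace ℝ E] in
theorem bd_nm (ι : H →* G) (c : Ch R (E × G)) : bd (nm ι c) = nm ι (bd c) := by
  simp [nm_apply, bd_act]

theorem nm_mem (ι : H →* G) {n : ℕ} {c : Ch R (E × G)} (hc : c ∈ CC R φ U n) :
    nm ι c ∈ CC R φ U n := by
  rw [nm_apply]
  exact Submodule.sum_mem _ fun h _ => act_mem _ hc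

omit [NormedAddCommGroup E] [NormedSpace ℝ E] in
theorem nm_act (ι : H →* G) (h : H) (c : Ch R (E × G)) : nm ι (act (ι h) c) = nm ι c := by
  simp only [nm_apply, ← act_mul, ← map_mul]
  exact Fintype.sum_equiv (Equiv.mulRight h) _ _ fun _ => rfl

theorem nm_dif (ι : H →* G) {n : ℕ} {c : Ch R (E × G)} (hc : c ∈ Dif R φ U ι.range n) :
    nm ι c = 0 := by
  obtain ⟨w, -, e⟩ := dif_ind (nm ι) 0 n (by
    rintro _ ⟨h, rfl⟩ c _
    exact ⟨0, zero_mem _, by simp [nm_act]⟩) hc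
  exact e

theorem nm_ker {ι : H →* G} (hι : Function.Injective ι) {n : ℕ} {c : Ch R (E × G)}
    (hc : c ∈ CC R φ U (n + 1)) (h0 : nm ι c = 0) : c ∈ Dif R φ U ι.range (n + 1) := by
  classical
  let rp : G → G := fun g => (Quotient.mk (QuotientGroup.rightRel ι.range) g).out
  have r1 : ∀ g, ∃ h, ι h * g = rp g := fun g => by
    obtain ⟨h, e⟩ := QuotientGroup.rightRel_apply.1
      (Quotient.mk_out (s := QuotientGroup.rightRel ι.range) g)
    exact ⟨h⁻¹, by rw [map_inv, e]; simp [rp]⟩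
  have r2 : ∀ g h, rp (ι h * g) = rp g := fun g h => congrArg Quotient.out
    (Quotient.sound (QuotientGroup.rightRel_apply.2 ⟨h⁻¹, by simp⟩))
  let μ : Ch R (E × G) →ₗ[R] Ch R (E × G) := ev fun l => match l with
    | [] => 0
    | v :: l => if rp v.2 = v.2 then sg R (v :: l) else 0
  have := C_map (μ ∘ₗ nm ι - LinearMap.id) (Dif R φ U ι.range (n + 1)) (fun l h1 h2 => by
    obtain ⟨v, l, rfl⟩ := List.exists_cons_of_length_eq_add_one h1
    obtain ⟨h, e⟩ := r1 v.2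
    convert dif_mem (H := ι.range) (h := ι h) (MonoidHom.mem_range.2 ⟨h, rfl⟩) (sg_mem (R := R) h1 h2) using 1
    simp only [LinearMap.sub_apply, LinearMap.comp_apply, LinearMap.id_apply, nm_apply, map_sum,
      act, mp_sg, List.map_cons, μ, ev_sg, r2]
    rw [Finset.sum_eq_single h, if_pos e.symm]
    · intro h' _ hne
      rw [if_neg]
      rw [← e, mul_left_inj]
      exact fun h => hne (hι h).symm
    · simp) hc
  simpa [h0] using this

end Norm

section Red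
variable {V : Type} {K : Set V → Prop} {n : ℕ}

theorem red_surj {c : Ch (ZMod 2) V} (hc : c ∈ C (ZMod 2) K n) :
    ∃ d ∈ C ℤ K n, red (ZMod 2) d = c := by
  refine C_ind (p := fun c => ∃ d ∈ C ℤ K n, red (ZMod 2) d = c) ⟨0, zero_mem _, map_zero _⟩
    ?_ ?_ (fun l h1 h2 => ⟨_, sg_mem h1 h2, red_sg l⟩) hc
  · rintro _ _ ⟨a, ha, rfl⟩ ⟨b, hb, rfl⟩
    exact ⟨a + b, add_mem ha hb, map_add _ _ _⟩
  · rintro r _ ⟨a, ha, rfl⟩
    obtain ⟨k, rfl⟩ := ZMod.intCast_surjective r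
    exact ⟨k • a, Submodule.smul_mem _ k ha, by rw [map_zsmul, Int.cast_smul_eq_zsmul]⟩

theorem red_ker {c : Ch ℤ V} (hc : c ∈ C ℤ K n) (h0 : red (ZMod 2) c = 0) :
    ∃ w ∈ C ℤ K n, c = (2 : ℤ) • w := by
  refine ⟨c.mapRange (· / 2) (by simp), mem_C.2 fun l hl => mem_C.1 hc l fun h => hl ?_, ?_⟩
  · simp [h]
  · ext l
    have : ((c l : ℤ) : ZMod 2) = 0 := by rw [← red_apply, h0]; rfl
    have h2 := (ZMod.intCast_zmod_eq_zero_iff_dvd _ 2).1 this
    simp only [Finsupp.smul_apply, Finsupp.mapRange_apply, smul_eq_mul]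
    exact (Int.mul_ediv_cancel' h2).symm

theorem red_two (c : Ch ℤ V) : red (ZMod 2) ((2 : ℤ) • c) = 0 := by
  ext l
  rw [red_apply]
  simp only [Finsupp.smul_apply, smul_eq_mul, Int.cast_mul, Finsupp.zero_apply]
  rw [show ((2 : ℤ) : ZMod 2) = 0 from rfl, zero_mul]

theorem two_inj {c : Ch ℤ V} (h : (2 : ℤ) • c = 0) : c = 0 := by
  ext l
  simpa using congrArg (fun d : Ch ℤ V => d l) h

/-- Cycles modulo two lift to integral cycles when there is no two-torsion one degree down. -/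
theorem lift_cyc (hK : Her K) (h : ∀ u ∈ C ℤ K n, bd u = 0 → ∀ z ∈ C ℤ K (n + 1),
      bd z = (2 : ℤ) • u → ∃ e ∈ C ℤ K (n + 1), bd e = u) {c : Ch (ZMod 2) V}
    (hc : c ∈ C (ZMod 2) K (n + 1)) (h0 : bd c = 0) :
    ∃ d ∈ C ℤ K (n + 1), bd d = 0 ∧ red (ZMod 2) d = c := by
  obtain ⟨d, hd, rfl⟩ := red_surj hc
  rw [bd_red] at h0
  obtain ⟨u, hu, e⟩ := red_ker (bd_mem hK hd) h0
  obtain ⟨f, hf, e'⟩ := h u hu (two_inj (by rw [← map_smul, ← e, bd_bd])) d hd e
  refine ⟨d - (2 : ℤ) • f, sub_mem hd (Submodule.smul_mem _ _ hf), ?_, ?_⟩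
  · rw [map_sub, map_smul, e', e, sub_self]
  · rw [map_sub, red_two, sub_zero]

end Red

end Pool.Agent.MP_b8a826_gt

end

-- part MP_b8a826_gt.Univ3
section

/-! Finite generation over Laurent polynomials and the determinant trick. -/

namespace Pool.Agent.MP_b8a826_gt
open Set Polynomial

section Alg
variable {Λ M : Type} [CommRing Λ] [AddCommGroup M] [Module Λ M] {Z B S : Submodule Λ M}

theorem det_alg (hS : S.FG) (hSZ : S ≤ Z) (hZ : Z ≤ S ⊔ B) (F a : Λ)
    (h : ∀ z ∈ Z, ∃ w ∈ Z, F • z - a • w ∈ B) :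
    ∃ (N : ℕ) (b : Λ), ∀ z ∈ Z, (F ^ N + a * b) • z ∈ B := by
  have hm : ∀ z ∈ Z, B.mkQ z ∈ S.map B.mkQ := fun z hz => by
    obtain ⟨s, hs, b, hb, rfl⟩ := Submodule.mem_sup.1 (hZ hz)
    exact ⟨s, hs, by simp [(Submodule.Quotient.mk_eq_zero B).2 hb]⟩
  have : Module.Finite Λ (S.map B.mkQ) := Module.Finite.iff_fg.2 (hS.map _)
  obtain ⟨p, h1, -, h2, h3⟩ :=
    LinearMap.exists_monic_and_natDegree_eq_and_coeff_mem_pow_and_aeval_eq_zero Λ
      (algebraMap Λ (Module.End Λ (S.map B.mkQ)) F) (Ideal.span {a}) (by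
        rintro _ ⟨⟨_, z, hz, rfl⟩, rfl⟩
        obtain ⟨w, hw, e⟩ := h z (hSZ hz)
        have : (algebraMap Λ (Module.End Λ (S.map B.mkQ)) F) ⟨_, z, hz, rfl⟩ =
            a • ⟨_, hm w hw⟩ := Subtype.ext ((Submodule.Quotient.eq B).2 e)
        rw [this]
        exact Submodule.smul_mem_smul (Ideal.mem_span_singleton_self a) trivial)
  have h4 : p.eval F - F ^ p.natDegree ∈ Ideal.span {a} := by
    have e : p.eval F - F ^ p.natDegree = ∑ i ∈ Finset.range p.natDegree, p.coeff i * F ^ i := by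
      rw [eval_eq_sum_range, Finset.sum_range_succ, h1.coeff_natDegree]; ring
    rw [e]
    refine Ideal.sum_mem _ fun i hi => Ideal.mul_mem_right _ _ ?_
    exact Ideal.pow_le_self (Nat.sub_ne_zero_of_lt (Finset.mem_range.1 hi)) (h2 i)
  obtain ⟨b, hb⟩ := Ideal.mem_span_singleton.1 h4
  refine ⟨p.natDegree, b, fun z hz => ?_⟩
  rw [aeval_algebraMap_apply, coe_aeval_eq_eval] at h3
  have := congrArg Subtype.val (LinearMap.congr_fun h3 ⟨_, hm z hz⟩)
  rw [← hb, add_sub_cancel]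
  exact (Submodule.Quotient.mk_eq_zero B).1 this

theorem fin_alg (hS : S.FG) (hZ : Z ≤ S ⊔ B) (Δ : Λ) [Finite (Λ ⧸ Ideal.span {Δ})]
    (h : ∀ z ∈ S, Δ • z ∈ B) : ∃ T : Set M, T.Finite ∧ T ⊆ S ∧ ∀ z ∈ Z, ∃ t ∈ T, z - t ∈ B := by
  have : Module.Finite Λ (S.map B.mkQ) := Module.Finite.iff_fg.2 (hS.map _)
  have ht : Module.IsTorsionBySet Λ (S.map B.mkQ) (Ideal.span {Δ}) := by
    rw [Module.isTorsionBySet_span_singleton_iff]
    rintro ⟨_, z, hz, rfl⟩
    exact Subtype.ext ((Submodule.Quotient.mk_eq_zero B).2 (h z hz))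
  let _ := ht.module
  have : Module.Finite (Λ ⧸ Ideal.span {Δ}) (S.map B.mkQ) :=
    Module.Finite.of_restrictScalars_finite Λ _ _
  have : Finite (S.map B.mkQ) := Module.finite_of_finite (Λ ⧸ Ideal.span {Δ})
  have hc : ∀ x : S.map B.mkQ, ∃ s ∈ S, B.mkQ s = x := fun x => x.2
  choose f hf hf' using hc
  refine ⟨range f, finite_range f, range_subset_iff.2 hf, fun z hz => ?_⟩
  obtain ⟨s, hs, b, hb, rfl⟩ := Submodule.mem_sup.1 (hZ hz)
  refine ⟨_, mem_range_self ⟨_, s, hs, rfl⟩, (Submodule.Quotient.eq B).1 ?_⟩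
  refine Eq.trans ((Submodule.Quotient.eq B).2 ?_) (hf' ⟨_, s, hs, rfl⟩).symm
  simpa using hb

end Alg

/-- Laurent polynomials. -/
abbrev Lam (R : Type) [CommRing R] : Type := MonoidAlgebra R MZ

/-- The generator. -/
noncomputable def tt (R : Type) [CommRing R] : Lam R :=
  MonoidAlgebra.of R MZ (Multiplicative.ofAdd 1)

theorem tt_unit (R : Type) [CommRing R] : IsUnit (tt R) := (Group.isUnit _).map _

theorem univ_poly {R : Type} [CommRing R] (Δ : Lam R) :
    ∃ (N : ℕ) (p : R[X]), aeval (tt R) p = tt R ^ N * Δ := by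
  induction Δ using MonoidAlgebra.induction_on with
  | of m =>
    refine ⟨(-m.toAdd).toNat, X ^ m.toAdd.toNat, ?_⟩
    rw [aeval_X_pow, tt, ← MonoidHom.map_pow, ← MonoidHom.map_pow, ← MonoidHom.map_mul]
    congr 1
    apply Multiplicative.toAdd.injective
    simp only [toAdd_pow, toAdd_ofAdd, toAdd_mul, nsmul_eq_mul, mul_one]
    omega
  | add x y h1 h2 =>
    obtain ⟨N, p, h1⟩ := h1
    obtain ⟨M, q, h2⟩ := h2
    exact ⟨N + M, X ^ M * p + X ^ N * q, by simp only [map_add, map_mul, aeval_X_pow, h1, h2]; ring⟩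
  | smul r x h =>
    obtain ⟨N, p, h⟩ := h
    exact ⟨N, r • p, by rw [map_smul, h, mul_smul_comm]⟩

theorem fin_quot {Δ : Lam (ZMod 2)} (hΔ : Δ ≠ 0) : Finite (Lam (ZMod 2) ⧸ Ideal.span {Δ}) ∧
    ∃ M : ℕ, M ≠ 0 ∧ Δ ∣ tt (ZMod 2) ^ M - 1 := by
  obtain ⟨N, p, hp⟩ := univ_poly Δ
  have hp0 : p ≠ 0 := by
    rintro rfl
    exact hΔ (((tt_unit _).pow N).mul_right_eq_zero.1 (by rw [← hp, map_zero]))
  let mk := Ideal.Quotient.mkₐ (ZMod 2) (Ideal.span {Δ})
  have h0 : aeval (mk (tt _)) p = 0 := by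
    rw [aeval_algHom_apply, hp]
    exact Ideal.Quotient.eq_zero_iff_mem.2
      (Ideal.mul_mem_left _ _ (Ideal.mem_span_singleton_self Δ))
  let g : AdjoinRoot p →+* Lam (ZMod 2) ⧸ Ideal.span {Δ} :=
    AdjoinRoot.lift (algebraMap _ _) (mk (tt _)) h0
  have hg : ∀ q, g (AdjoinRoot.mk p q) = mk (aeval (tt _) q) := fun q => by
    rw [← aeval_algHom_apply]; exact AdjoinRoot.lift_mk _ _
  have : Module.Finite (ZMod 2) (AdjoinRoot p) := (AdjoinRoot.powerBasis hp0).finite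
  have : Finite (AdjoinRoot p) := Module.finite_of_finite (ZMod 2)
  obtain ⟨M, hM, h1⟩ : ∃ M : ℕ, M ≠ 0 ∧ mk (tt _) ^ M = 1 := by
    have key : ∀ i j : ℕ, i < j → AdjoinRoot.mk p (X ^ i) = AdjoinRoot.mk p (X ^ j) →
        ∃ M : ℕ, M ≠ 0 ∧ mk (tt _) ^ M = 1 := fun i j hij e => by
      have := congrArg g e
      rw [hg, hg, aeval_X_pow, aeval_X_pow, map_pow, map_pow] at this
      refine ⟨j - i, by omega, (((tt_unit _).map mk).pow i).mul_left_cancel ?_⟩
      rw [← pow_add, mul_one, this, Nat.add_sub_cancel' hij.le]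
    obtain ⟨i, j, hij, e⟩ :=
      Finite.exists_ne_map_eq_of_infinite fun i : ℕ => AdjoinRoot.mk p (X ^ i)
    rcases lt_or_gt_of_ne hij with h | h
    exacts [key i j h e, key j i h e.symm]
  refine ⟨Finite.of_surjective g fun x => ?_, M, hM, ?_⟩
  · obtain ⟨r, rfl⟩ := Ideal.Quotient.mkₐ_surjective (ZMod 2) _ x
    obtain ⟨k, q, hq⟩ := univ_poly r
    obtain ⟨m, rfl⟩ := Nat.exists_eq_succ_of_ne_zero hM
    refine ⟨AdjoinRoot.mk p (X ^ (m * k) * q), ?_⟩
    rw [hg, map_mul, aeval_X_pow, hq, ← mul_assoc, ← pow_add, map_mul, map_pow, ← Nat.succ_mul,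
      pow_mul, h1, one_pow, one_mul]
  · rw [← Ideal.mem_span_singleton, ← Ideal.Quotient.eq]
    exact (map_pow mk _ _).trans h1

variable {E : Type} [NormedAddCommGroup E] [NormedSpace ℝ E] {G : Type} [Group G]
  {R : Type} [CommRing R] {φ : E → E → G} {W : Set E}

/-- The action of the integers through `σ`. -/
noncomputable def rs (R E : Type) [CommRing R] (σ : MZ →* G) :
    Representation R MZ (Ch R (E × G)) := (rho R E G).comp σ

/-- The action of Laurent polynomials. -/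
noncomputable abbrev AA (σ : MZ →* G) : Lam R →ₐ[R] Module.End R (Ch R (E × G)) :=
  (rs R E σ).asAlgebraHom

omit [NormedAddCommGroup E] [NormedSpace ℝ E] in
theorem AA_of (σ : MZ →* G) (a : MZ) :
    AA σ (MonoidAlgebra.of R MZ a) = (act (σ a) : Ch R (E × G) →ₗ[R] Ch R (E × G)) :=
  Representation.asAlgebraHom_of _ _

omit [NormedAddCommGroup E] [NormedSpace ℝ E] in
theorem AA_mem (σ : MZ →* G) {N : Submodule R (Ch R (E × G))} (h : ∀ γ, ∀ c ∈ N, act γ c ∈ N)
    (r : Lam R) {c : Ch R (E × G)} (hc : c ∈ N) : AA σ r c ∈ N := by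
  induction r using MonoidAlgebra.induction_on with
  | of m => rw [AA_of]; exact h _ c hc
  | add x y h1 h2 => rw [map_add]; exact add_mem h1 h2
  | smul r x h => rw [map_smul]; exact N.smul_mem r h

/-- Chains as a module over Laurent polynomials. -/
def MM (R E : Type) [CommRing R] (_σ : MZ →* G) : Type := Ch R (E × G)

noncomputable instance (σ : MZ →* G) : AddCommGroup (MM R E σ) :=
  inferInstanceAs (AddCommGroup (Ch R (E × G)))

noncomputable instance (σ : MZ →* G) : Module (Lam R) (MM R E σ) :=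
  Module.compHom (Ch R (E × G)) (AA σ : Lam R →ₐ[R] Module.End R (Ch R (E × G))).toRingHom

/-- An invariant submodule as a module over Laurent polynomials. -/
noncomputable def sb (σ : MZ →* G) (N : Submodule R (Ch R (E × G)))
    (h : ∀ γ, ∀ c ∈ N, act γ c ∈ N) : Submodule (Lam R) (MM R E σ) where
  carrier := {c : Ch R (E × G) | c ∈ N}
  add_mem' := fun ha hb => N.add_mem ha hb
  zero_mem' := N.zero_mem
  smul_mem' := fun r _ hc => AA_mem σ h r hc

/-- Cycles. -/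
noncomputable def ZZ (σ : MZ →* G) (φ : E → E → G) (W : Set E) (n : ℕ) :
    Submodule (Lam R) (MM R E σ) :=
  sb σ (CC R φ W n ⊓ LinearMap.ker bd) fun γ c hc =>
    ⟨act_mem γ hc.1, by rw [SetLike.mem_coe, LinearMap.mem_ker, bd_act, hc.2, map_zero]⟩

/-- Boundaries. -/
noncomputable def BB (σ : MZ →* G) (φ : E → E → G) (W : Set E) (n : ℕ) :
    Submodule (Lam R) (MM R E σ) :=
  sb σ ((CC R φ W n).map bd) fun γ _ ⟨v, hv, e⟩ => ⟨_, act_mem γ hv, by rw [bd_act, e]⟩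

theorem fg_cyc [IsNoetherianRing R] (hW : IsOpen W) (hF : FD W) (hφ : Coc W φ) (σ : MZ →* G)
    {T : Set G} (hT : T.Finite) (hc : ∀ g, ∃ a, ∃ t ∈ T, g = σ a * t) (n : ℕ) :
    ∃ S : Submodule (Lam R) (MM R E σ), S.FG ∧ S ≤ ZZ σ φ W (n + 1) ∧
      ZZ σ φ W (n + 1) ≤ S ⊔ BB σ φ W (n + 2) := by
  have : IsNoetherianRing (Lam R) := Algebra.FiniteType.isNoetherianRing R _
  obtain ⟨P, hP⟩ := fin_dom hW hF
  let Q : Set (E × G) := (fun p : E × E × G => (p.2.1, p.2.2 * φ p.1 p.2.1)) ''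
    ((P : Set E) ×ˢ (P : Set E) ×ˢ T)
  have hQ : Finite Q := (P.finite_toSet.prod (P.finite_toSet.prod hT)).image _
  let L : Set (List (E × G)) := List.map Subtype.val '' {l : List Q | l.length = n + 1}
  have hL : L.Finite := (List.finite_length_eq Q (n + 1)).image _
  let S0 : Submodule (Lam R) (MM R E σ) :=
    Submodule.span _ ((fun l => (sg R l : Ch R (E × G))) '' L)
  have h0 : S0.FG := Submodule.fg_span (hL.image _)
  refine ⟨ZZ σ φ W (n + 1) ⊓ S0, h0.of_le inf_le_right, inf_le_left, fun z hz => ?_⟩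
  obtain ⟨z', hz', v, hv, e⟩ := hP R G φ hφ n _ hz.1 hz.2
  refine Submodule.mem_sup.2 ⟨z', ⟨⟨C_mono (fun _ h => h.1) hz', ?_⟩, ?_⟩, (bd v : Ch R (E × G)),
    ⟨v, hv, rfl⟩, e.symm⟩
  · have := congrArg bd e
    rw [map_add, bd_bd, add_zero] at this
    exact this.symm.trans hz.2
  · refine C_ind (p := fun c => (c : MM R E σ) ∈ S0) S0.zero_mem (fun _ _ => S0.add_mem)
      (fun r c h => ?_) (fun l h1 h2 => ?_) hz'
    · have := S0.smul_mem (algebraMap R _ r) h
      change AA σ (algebraMap R _ r) c ∈ S0 at this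
      rwa [AlgHom.commutes] at this
    obtain ⟨v, l, rfl⟩ := List.exists_cons_of_length_eq_add_one h1
    obtain ⟨a, t, ht, e⟩ := hc v.2
    have hq : ∀ w ∈ (v :: l).map fun w => (w.1, (σ a)⁻¹ * w.2), w ∈ Q := by
      intro w hw
      obtain ⟨u, hu, rfl⟩ := List.mem_map.1 hw
      refine ⟨(v.1, u.1, t), ⟨h2.2 v (by simp), h2.2 u hu, ht⟩, Prod.ext rfl ?_⟩
      simp only [h2.1.2 v (by simp) u hu, e]
      group
    have e2 : sg R (v :: l) = AA σ (MonoidAlgebra.of R MZ a)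
        (sg R ((v :: l).map fun w => (w.1, (σ a)⁻¹ * w.2))) := by
      rw [AA_of, act, mp_sg, List.map_map]
      simp [Function.comp_def]
    rw [e2]
    refine S0.smul_mem _ (Submodule.subset_span ⟨_, ⟨List.attachWith _ _ hq, ?_, ?_⟩, rfl⟩)
    · simpa using h1
    · exact List.attachWith_map_subtype_val hq

theorem det_trick [IsNoetherianRing R] (hW : IsOpen W) (hF : FD W) (hφ : Coc W φ) (σ : MZ →* G)
    {T : Set G} (hT : T.Finite) (hc : ∀ g, ∃ a, ∃ t ∈ T, g = σ a * t) (n : ℕ) (F a : Lam R)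
    (h : ∀ z ∈ CC R φ W (n + 1), bd z = 0 → ∃ w ∈ CC R φ W (n + 1), bd w = 0 ∧
      ∃ v ∈ CC R φ W (n + 2), bd v = AA σ F z - AA σ a w) :
    ∃ (N : ℕ) (b : Lam R), ∀ z ∈ CC R φ W (n + 1), bd z = 0 →
      ∃ v ∈ CC R φ W (n + 2), bd v = AA σ (F ^ N + a * b) z := by
  obtain ⟨S, h1, h2, h3⟩ := fg_cyc (R := R) hW hF hφ σ hT hc n
  obtain ⟨N, b, hb⟩ := det_alg h1 h2 h3 F a fun z hz => by
    obtain ⟨w, hw, hw', v, hv, e⟩ := h _ hz.1 hz.2
    exact ⟨w, ⟨hw, hw'⟩, v, hv, e⟩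
  exact ⟨N, b, fun z hz h0 => hb z ⟨hz, h0⟩⟩

theorem fin_cyc {φ : E → E → MZ} (hW : IsOpen W) (hF : FD W) (hφ : Coc W φ) (n : ℕ)
    {Δ : Lam (ZMod 2)} (hΔ : Δ ≠ 0) (h : ∀ z ∈ CC (ZMod 2) φ W (n + 1), bd z = 0 →
      ∃ v ∈ CC (ZMod 2) φ W (n + 2), bd v = AA (MonoidHom.id MZ) Δ z) :
    ∃ T : Set (Ch (ZMod 2) (E × MZ)), T.Finite ∧ T ⊆ CC (ZMod 2) φ W (n + 1) ∧
      ∀ z ∈ CC (ZMod 2) φ W (n + 1), bd z = 0 →
        ∃ t ∈ T, ∃ v ∈ CC (ZMod 2) φ W (n + 2), bd v = z - t := by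
  obtain ⟨S, h1, h2, h3⟩ := fg_cyc (R := ZMod 2) hW hF hφ (MonoidHom.id MZ) (finite_singleton 1)
    (fun g => ⟨g, 1, rfl, by simp⟩) n
  have := (fin_quot hΔ).1
  obtain ⟨T, t1, t2, t3⟩ := fin_alg h1 h3 Δ fun z hz => h _ (h2 hz).1 (h2 hz).2
  exact ⟨T, t1, fun t ht => (h2 (t2 ht)).1, fun z hz h0 => t3 z ⟨hz, h0⟩⟩

end Pool.Agent.MP_b8a826_gt

end

-- part MP_b8a826_gt.Univ4
section

/-! The Wang sequence and the splitting of two-cocycles. -/

namespace Pool.Agent.MP_b8a826_gt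
open Set

variable {E : Type} [NormedAddCommGroup E] [NormedSpace ℝ E] {G : Type} [Group G]
  {R : Type} [CommRing R] {W : Set E} {χ : E → E → MZ}

theorem wang [IsNoetherianRing R] (hW : IsOpen W) (hF : FD W) (hχ : Coc W χ) (n : ℕ)
    (hA : ∀ z ∈ CC R χ W (n + 2), bd z = 0 →
      ∃ v ∈ CB R W (n + 3), bd v = up (1 : MZ →* Unit) z) :
    ∃ b : Lam R, ∀ z ∈ CC R χ W (n + 2), bd z = 0 →
      ∃ v ∈ CC R χ W (n + 3), bd v = AA (MonoidHom.id MZ) (1 + (tt R - 1) * b) z := by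
  obtain ⟨N, b, h⟩ := det_trick (R := R) hW hF hχ (MonoidHom.id MZ) (finite_singleton 1)
    (fun g => ⟨g, 1, rfl, by simp⟩) (n + 1) 1 (tt R - 1) fun z hz h0 => by
      obtain ⟨v, hv, e⟩ := hA z hz h0
      obtain ⟨v', hv', rfl⟩ := up_surj (κ := (1 : MZ →* Unit)) hχ (fun _ => ⟨1, rfl⟩) hv
      obtain ⟨w, hw, e'⟩ := dif_cyc (up_ker (1 : MZ →* Unit) (sub_mem hz (bd_CC hv'))
        (by rw [map_sub, ← bd_up, e, sub_self]))
      refine ⟨w, hw, act_inj (bd_CC hw) ?_, v', hv', ?_⟩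
      · rw [← bd_act, ← sub_eq_zero, ← map_sub, ← e', map_sub, h0, bd_bd, sub_self]
      · rw [map_one, map_sub, map_one, tt, AA_of]
        simp only [Module.End.one_apply, LinearMap.sub_apply, MonoidHom.id_apply, ← e']
        abel
  exact ⟨b, by simpa only [one_pow] using h⟩

theorem aug_ne [Nontrivial R] (b : Lam R) : 1 + (tt R - 1) * b ≠ 0 := fun h => by
  simpa [tt] using congrArg (MonoidAlgebra.lift R R MZ 1) h

theorem Rch.path {φ : E → E → G} (hφ : Coc W φ) {b x : E} {g : G} (h : Rch W φ b x g) :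
    ∃ c ∈ CC R φ W 2, bd c = sg R [(x, g)] - sg R [(b, 1)] := by
  induction h with
  | refl => exact ⟨0, zero_mem _, by simp⟩
  | step _ hs ih =>
    obtain ⟨c, hc, e⟩ := ih
    exact ⟨_, add_mem hc (edge_mem hφ hs _), by rw [map_add, e, bd2]; abel⟩

theorem acyc_one (ho : IsOpen W) (hc : IsPreconnected W) {b : E} (hb : b ∈ W) : Acyc W 1 := by
  intro z hz h0
  have := C_map (LinearMap.id - cone (b, ()) ∘ₗ bd) ((CB ℤ W 2).map bd) (fun l h1 h2 => by
    obtain ⟨x, rfl⟩ := len1 h1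
    obtain ⟨g, hg⟩ := rch_of_conn ho hc φ1 hb
      (seg_of_Ad h2 (v := x) (w := x) (by simp) (by simp) (left_mem_segment ℝ _ _))
    obtain ⟨c, hc, e⟩ := hg.path (R := ℤ) (coc_one W)
    exact ⟨c, hc, by rw [e]; simp [bd1]⟩) hz
  simpa [h0] using this

theorem univ_wt_bd (hχ : Coc W χ) {z : Ch ℤ (E × Unit)} (hz : z ∈ CB ℤ W 3) : wt χ (bd z) = 0 :=
  C_ext (f := wt χ ∘ₗ bd) (g := 0) (fun l h1 h2 => by
    obtain ⟨x, y, z, rfl⟩ := len3 h1
    simp only [LinearMap.comp_apply, bd3, map_add, map_sub, wt, ev_sg, LinearMap.zero_apply]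
    rw [← hχ _ _ _ (tri_of_Ad h2 (u := x) (v := y) (w := z) (by simp) (by simp) (by simp))]
    simp) hz

theorem acyc2_three (h2 : Acyc W 3) (hχ : Coc W χ) (hH : H1 W χ) {z : Ch (ZMod 2) (E × Unit)}
    (hz : z ∈ CB (ZMod 2) W 3) (h0 : bd z = 0) : ∃ v ∈ CB (ZMod 2) W 4, bd v = z := by
  obtain ⟨d, hd, d0, rfl⟩ := lift_cyc (her_Ad (her_sub W)) (fun u hu u0 z hz e => hH.1 u hu u0 (by
    have := univ_wt_bd hχ hz
    rw [e, map_smul] at this
    simpa using this)) hz h0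
  obtain ⟨v, hv, e⟩ := h2 d hd d0
  exact ⟨_, red_mem hv, by rw [bd_red, e]⟩

theorem acyc2_two (h1 : Acyc W 1) (hH : H1 W χ) {z : Ch (ZMod 2) (E × MZ)}
    (hz : z ∈ CC (ZMod 2) χ W 2) (h0 : bd z = 0) :
    ∃ v ∈ CB (ZMod 2) W 3, bd v = up (1 : MZ →* Unit) z := by
  obtain ⟨d, hd, d0, e⟩ := lift_cyc (her_Ad (her_sub W)) (fun u hu u0 _ _ _ => h1 u hu u0)
    (up_mem (1 : MZ →* Unit) hz) (by rw [bd_up, h0, map_zero])
  let w2 : Ch (ZMod 2) (E × Unit) →ₗ[ZMod 2] ZMod 2 := ev fun l => (wt χ (sg ℤ l) : ZMod 2)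
  let k2 : Ch (ZMod 2) (E × MZ) →ₗ[ZMod 2] ZMod 2 := ev fun l => match l with
    | [x] => (x.2.toAdd : ZMod 2)
    | _ => 0
  have e1 : ∀ d, w2 (red (ZMod 2) d) = (wt χ d : ZMod 2) :=
    ch_ind (by simp) (fun a b h1 h2 => by simp [h1, h2]) fun r l => by simp [w2]
  have e2 := C_ext (f := w2 ∘ₗ up (1 : MZ →* Unit)) (g := k2 ∘ₗ bd) (fun l h1 h2 => by
    obtain ⟨x, y, rfl⟩ := len2 h1
    simp only [LinearMap.comp_apply, up, mp_sg, bd2, map_sub, w2, k2, wt, ev_sg, List.map_cons,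
      List.map_nil, h2.2 x (by simp) y (by simp), toAdd_mul]
    simp) hz
  simp only [LinearMap.comp_apply, h0, map_zero, ← e, e1] at e2
  obtain ⟨m, hm⟩ := (ZMod.intCast_zmod_eq_zero_iff_dvd _ 2).1 e2
  obtain ⟨z0, hz0, z1, z2⟩ := hH.2
  obtain ⟨v, hv, e3⟩ := hH.1 (d - (2 : ℤ) • m • z0)
    (sub_mem hd (Submodule.smul_mem _ _ (Submodule.smul_mem _ _ hz0))) (by simp [d0, z1])
    (by simp [hm, z2])
  exact ⟨_, red_mem hv, by rw [bd_red, e3, map_sub, red_two, sub_zero, e]⟩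

section Split
variable {π A : Type} [Group π] [AddCommGroup A]

theorem ext_inj {M N : Type} [AddCommGroup M] [AddCommGroup N] [Module R M] [Module R N]
    [Module R A] [Module.Injective R A] (S : Submodule R M) (d : M →ₗ[R] N) (c : M →ₗ[R] A)
    (h : ∀ v ∈ S, d v = 0 → c v = 0) : ∃ f : N →ₗ[R] A, ∀ v ∈ S, f (d v) = c v := by
  obtain ⟨f, hf⟩ := Module.Injective.out (R := R) (Q := A)
    ((LinearMap.ker (d ∘ₗ S.subtype)).liftQ (d ∘ₗ S.subtype) le_rfl)
    (LinearMap.ker_eq_bot.1 (Submodule.ker_liftQ_eq_bot _ _ _ le_rfl))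
    ((LinearMap.ker (d ∘ₗ S.subtype)).liftQ (c ∘ₗ S.subtype) fun v hv => h v v.2 hv)
  exact ⟨f, fun v hv => hf (Submodule.Quotient.mk ⟨v, hv⟩)⟩

/-- The cocycle condition. -/
def Cy (τ : π →* MZ) (C : π → π → ℤ → A) : Prop :=
  ∀ g h j k, C h j (k + (τ g).toAdd) - C (g * h) j k + C g (h * j) k - C g h k = 0

/-- The extension defined by a cocycle. -/
@[ext] structure Ex {τ : π →* MZ} {C : π → π → ℤ → A} (h : Cy τ C) where
  u : ℤ → A
  g : π

variable {τ : π →* MZ} {C : π → π → ℤ → A} {h : Cy τ C}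

instance : Mul (Ex h) :=
  ⟨fun x y => ⟨fun k => x.u k + y.u (k + (τ x.g).toAdd) - C x.g y.g k, x.g * y.g⟩⟩
instance : One (Ex h) := ⟨⟨C 1 1, 1⟩⟩
instance : Inv (Ex h) :=
  ⟨fun x => ⟨fun k => C 1 1 k + C x.g⁻¹ x.g k - x.u (k + (τ x.g⁻¹).toAdd), x.g⁻¹⟩⟩

theorem Ex.mul_u (x y : Ex h) (k : ℤ) :
    (x * y).u k = x.u k + y.u (k + (τ x.g).toAdd) - C x.g y.g k := rfl
theorem Ex.mul_g (x y : Ex h) : (x * y).g = x.g * y.g := rfl

instance : Group (Ex h) := Group.ofLeftAxioms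
  (fun x y z => by
    ext k
    · simp only [Ex.mul_u, Ex.mul_g, map_mul, toAdd_mul, add_assoc]
      linear_combination (norm := abel) h x.g y.g z.g k
    · exact mul_assoc _ _ _)
  (fun x => by
    ext k
    · have := h 1 1 x.g k
      change C 1 1 k + x.u (k + (τ 1).toAdd) - C 1 x.g k = _
      simp only [map_one, toAdd_one, add_zero, one_mul] at this ⊢
      linear_combination (norm := abel) -this
    · exact one_mul _)
  (fun x => by
    ext k
    · change C 1 1 k + C x.g⁻¹ x.g k - x.u (k + (τ x.g⁻¹).toAdd) + x.u (k + (τ x.g⁻¹).toAdd) -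
        C x.g⁻¹ x.g k = C 1 1 k
      abel
    · exact inv_mul_cancel _)

/-- Shifts of sequences. -/
def sh (R A : Type) [CommRing R] [AddCommGroup A] [Module R A] :
    Representation R MZ (ℤ → A) where
  toFun a := LinearMap.funLeft R A fun k => k + a.toAdd
  map_one' := by ext; simp
  map_mul' a b := by ext; simp [add_assoc]

theorem split_of [Module R A] [Module.Injective R A] {φ : E → E → π} (hφ : Coc W φ) (hU : UP W φ)
    (τ : π →* MZ) (b : Lam R) (hk : ∀ z ∈ CC R (fun x y => τ (φ x y)) W 3, bd z = 0 →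
      ∃ v ∈ CC R (fun x y => τ (φ x y)) W 4,
        bd v = AA (MonoidHom.id MZ) (1 + (tt R - 1) * b) z) : Split A τ := by
  intro C hC
  let T := (sh R A).asAlgebraHom (1 + (tt R - 1) * b)
  have T1 : ∀ a f, T (sh R A a f) = sh R A a (T f) := fun a f => by
    rw [← Representation.asAlgebraHom_of, ← Module.End.mul_apply, ← map_mul, mul_comm, map_mul]
    rfl
  have T1' : ∀ (f : ℤ → A) j k, T (fun i => f (i + j)) k = T f (k + j) := fun f j k =>
    congrFun (T1 (Multiplicative.ofAdd j) f) k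
  have T2 : ∀ a : A, T (fun _ => a) = fun _ => a := fun a => by
    have : (sh R A).asAlgebraHom (tt R - 1) (fun _ => a) = 0 := by
      rw [map_sub, map_one, tt, Representation.asAlgebraHom_of]
      exact sub_self _
    simp only [T]
    rw [mul_comm, map_add, map_one, map_mul, LinearMap.add_apply, Module.End.mul_apply, this,
      map_zero, add_zero, Module.End.one_apply]
  have hC' : Cy τ fun g h => T (C g h) := fun g h j k => by
    have : (fun i => C h j (i + (τ g).toAdd)) - C (g * h) j + C g (h * j) - C g h = 0 :=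
      funext fun i => hC g h j i
    have := congrFun (congrArg T this) k
    rw [map_sub, map_add, map_sub, map_zero] at this
    simpa only [Pi.sub_apply, Pi.add_apply, T1', Pi.zero_apply] using this
  let cc : Ch R (E × MZ) →ₗ[R] (ℤ → A) := ev fun l => match l with
    | [x, y, z] => sh R A x.2 (C (φ x.1 y.1) (φ y.1 z.1))
    | _ => 0
  have c1 : ∀ a c, cc (act a c) = sh R A a (cc c) := fun a =>
    ch_ext (f := cc ∘ₗ act a) (g := sh R A a ∘ₗ cc) fun l => by
      simp only [LinearMap.comp_apply, act, mp_sg, cc, ev_sg]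
      rcases l with _ | ⟨x, _ | ⟨y, _ | ⟨z, _ | ⟨w, l⟩⟩⟩⟩ <;> simp
  have c2 : ∀ r c, cc (AA (MonoidHom.id MZ) r c) = (sh R A).asAlgebraHom r (cc c) := fun r c => by
    induction r using MonoidAlgebra.induction_on with
    | of m => rw [AA_of, Representation.asAlgebraHom_of]; exact c1 m c
    | add x y h1 h2 => simp only [map_add, LinearMap.add_apply, h1, h2]
    | smul r x h => simp only [map_smul, LinearMap.smul_apply, h]
  have c3 : ∀ v ∈ CC R (fun x y => τ (φ x y)) W 4, cc (bd v) = 0 := fun v hv =>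
    C_ext (f := cc ∘ₗ bd) (g := 0) (fun l h1 h2 => by
      obtain ⟨x, y, z, w, rfl⟩ := len4 h1
      simp only [LinearMap.comp_apply, bd4, map_add, map_sub, cc, ev_sg, LinearMap.zero_apply]
      rw [← hφ _ _ _ (tri_of_Ad h2 (u := x) (v := y) (w := z) (by simp) (by simp) (by simp)),
        ← hφ _ _ _ (tri_of_Ad h2 (u := y) (v := z) (w := w) (by simp) (by simp) (by simp)),
        h2.2 x (by simp) y (by simp)]
      ext k
      simpa [sh, add_assoc] using hC (φ x.1 y.1) (φ y.1 z.1) (φ z.1 w.1) (k + x.2.toAdd)) hv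
  obtain ⟨f, hf⟩ := ext_inj (CC R (fun x y => τ (φ x y)) W 3) bd
    (LinearMap.proj 0 ∘ₗ T ∘ₗ cc) fun z hz h0 => by
      obtain ⟨v, hv, e⟩ := hk z hz h0
      simp only [LinearMap.comp_apply, T, ← c2, ← e, c3 v hv, map_zero]
  let ψ : E → E → Ex hC' := fun x y => ⟨fun k => f (sg R [(x, Multiplicative.ofAdd k),
    (y, Multiplicative.ofAdd k * τ (φ x y))]), φ x y⟩
  have hψ : Coc W ψ := fun x y z h => by
    ext k
    · have := hf _ (tri_mem (hφ.map τ) h (Multiplicative.ofAdd k))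
      simp only [bd3, map_add, map_sub, LinearMap.comp_apply, cc, ev_sg, T1,
        LinearMap.proj_apply] at this
      simp only [Ex.mul_u, ψ, ofAdd_add, ofAdd_toAdd, mul_assoc, ← map_mul, hφ x y z h]
      have e : sh R A (Multiplicative.ofAdd k) (T (C (φ x y) (φ y z))) 0 =
          T (C (φ x y) (φ y z)) k := by simp [sh]
      rw [← e, ← this]
      abel
    · exact hφ x y z h
  obtain ⟨k, a, h1, -, -⟩ := hU _ π ψ ⟨⟨Ex.g, rfl⟩, fun _ _ => rfl⟩ (MonoidHom.id π) hψ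
    fun _ _ _ => rfl
  have h1' : ∀ g, (k g).g = g := h1
  refine ⟨T.toAddMonoidHom, T1', fun a k => congrFun (T2 a) k, fun g => (k g).u, fun g h i => ?_⟩
  simp only [map_mul, Ex.mul_u, h1']
  simp

end Split

end Pool.Agent.MP_b8a826_gt

end

-- part MP_b8a826_gt.Univ5
section

/-! The first homology of the infinite cyclic covering modulo two. -/

namespace Pool.Agent.MP_b8a826_gt
open Set

variable {E : Type} [NormedAddCommGroup E] [NormedSpace ℝ E] {π : Type} [Group π] {W : Set E}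
  {φ : E → E → π} {τ : π →* MZ}

/-- The one-cochain of the covering defined by a function on the kernel. -/
noncomputable def hurD (φ : E → E → π) (t : π) (α : π → ZMod 2) :
    Ch (ZMod 2) (E × MZ) →ₗ[ZMod 2] ZMod 2 :=
  ev fun l => match l with
    | [x, y] => α (t ^ x.2.toAdd * φ x.1 y.1 * (t ^ y.2.toAdd)⁻¹)
    | _ => 0

theorem tau_zpow {t : π} (ht : τ t = Multiplicative.ofAdd 1) (a : MZ) : τ (t ^ a.toAdd) = a :=
  Multiplicative.toAdd.injective (by simp [ht])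

theorem hurD_bd (hφ : Coc W φ) {t : π} (ht : τ t = Multiplicative.ofAdd 1) {α : π → ZMod 2}
    (hα : ∀ g h, τ g = 1 → τ h = 1 → α (g * h) = α g + α h) {v : Ch (ZMod 2) (E × MZ)}
    (hv : v ∈ CC (ZMod 2) (fun x y => τ (φ x y)) W 3) : hurD φ t α (bd v) = 0 :=
  C_ext (f := hurD φ t α ∘ₗ bd) (g := 0) (fun l h1 h2 => by
    obtain ⟨x, y, z, rfl⟩ := len3 h1
    simp only [LinearMap.comp_apply, bd3, map_add, map_sub, hurD, ev_sg, LinearMap.zero_apply]
    have e : ∀ v ∈ [x, y, z], ∀ w ∈ [x, y, z],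
        τ (t ^ v.2.toAdd * φ v.1 w.1 * (t ^ w.2.toAdd)⁻¹) = 1 := fun v hv w hw => by
      rw [map_mul, map_mul, map_inv, tau_zpow ht, tau_zpow ht, h2.2 v hv w hw, mul_inv_cancel]
    have := hα _ _ (e x (by simp) y (by simp)) (e y (by simp) z (by simp))
    rw [← hφ _ _ _ (tri_of_Ad h2 (u := x) (v := y) (w := z) (by simp) (by simp) (by simp)),
      sub_add_eq_add_sub, add_comm, ← this, sub_eq_zero]
    congr 1
    group) hv

theorem hur (ho : IsOpen W) (hF : FD W) (hφ : Coc W φ) (hτ : Function.Surjective τ) {b : E}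
    (hb : b ∈ W) (hR : ∀ g, Rch W φ b b g) {Δ : Lam (ZMod 2)} (hΔ : Δ ≠ 0)
    (hk : ∀ z ∈ CC (ZMod 2) (fun x y => τ (φ x y)) W 2, bd z = 0 →
      ∃ v ∈ CC (ZMod 2) (fun x y => τ (φ x y)) W 3, bd v = AA (MonoidHom.id MZ) Δ z)
    (k : π →* SD (rhoN (ZMod 2) (fun x y => τ (φ x y)) W))
    (a : E → SD (rhoN (ZMod 2) (fun x y => τ (φ x y)) W)) (ha : ∀ x ∈ W, (a x).g = 1)
    (hM : ∀ x y, segment ℝ x y ⊆ W →
      Mg (ZMod 2) (fun x y => τ (φ x y)) W x y = (a x)⁻¹ * k (φ x y) * a y) :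
    {v | ∃ g, τ g = 1 ∧ (k g).v = v}.Finite ∧
      ∀ α : π → ZMod 2, (∀ g h, τ g = 1 → τ h = 1 → α (g * h) = α g + α h) →
        ∀ g, τ g = 1 → (k g).v = 0 → α g = 0 := by
  classical
  have hχ := hφ.map τ
  obtain ⟨t, ht⟩ := hτ (Multiplicative.ofAdd 1)
  have key : ∀ {x g}, Rch W φ b x g → ∃ c, ∃ hc : c ∈ CC (ZMod 2) (fun x y => τ (φ x y)) W 2,
      bd c = sg _ [(x, τ g)] - sg _ [(b, 1)] ∧ (a b)⁻¹ * k g * a x = ⟨cls c hc, τ g⟩ ∧
      ∀ α : π → ZMod 2, (∀ g h, τ g = 1 → τ h = 1 → α (g * h) = α g + α h) →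
        hurD φ t α c = α (g * (t ^ (τ g).toAdd)⁻¹) := by
    intro x g h
    induction h with
    | refl =>
      refine ⟨0, zero_mem _, by simp, ?_, fun α hα => ?_⟩
      · rw [map_one, mul_one, inv_mul_cancel, map_one]; rfl
      · simpa [eq_comm] using hα 1 1 (map_one _) (map_one _)
    | @step x y g _ hs ih =>
      obtain ⟨c, hc, e1, e2, e3⟩ := ih
      refine ⟨_, add_mem hc (edge_mem hχ hs (τ g)), ?_, ?_, fun α hα => ?_⟩
      · rw [map_add, e1, bd2, map_mul]; abel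
      · have : (a b)⁻¹ * k (g * φ x y) * a y =
            ((a b)⁻¹ * k g * a x) * ((a x)⁻¹ * k (φ x y) * a y) := by rw [map_mul]; group
        rw [this, e2, ← hM x y hs]
        ext
        · rw [SD.mul_v, Mg_v hχ hs, rhoN_cls, ← cls_add]
          exact cls_congr (by simp [act])
        · simp
      · rw [map_add, e3 α hα]
        simp only [hurD, ev_sg]
        rw [← hα _ _ (by rw [map_mul, map_inv, tau_zpow ht, mul_inv_cancel])
          (by rw [map_mul, map_mul, map_inv, tau_zpow ht, tau_zpow ht, mul_inv_cancel]), map_mul τ]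
        simp only [mul_assoc, inv_mul_cancel_left]
  have loop : ∀ g, τ g = 1 → ∃ c, ∃ hc : c ∈ CC (ZMod 2) (fun x y => τ (φ x y)) W 2,
      bd c = 0 ∧ (k g).v = cls c hc ∧
      ∀ α : π → ZMod 2, (∀ g h, τ g = 1 → τ h = 1 → α (g * h) = α g + α h) →
        hurD φ t α c = α g := fun g hg => by
    obtain ⟨c, hc, e1, e2, e3⟩ := key (hR g)
    refine ⟨c, hc, by rw [e1, hg, sub_self], ?_, fun α hα => by simpa [hg] using e3 α hα⟩
    have : k g = a b * ⟨cls c hc, τ g⟩ * (a b)⁻¹ := by rw [← e2]; group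
    rw [this]
    simp [ha b hb, hg]
  constructor
  · obtain ⟨T, t1, t2, t3⟩ := fin_cyc ho hF hχ 1 hΔ hk
    have : Finite T := t1
    refine (finite_range fun s : T => cls s.1 (t2 s.2)).subset ?_
    rintro _ ⟨g, hg, rfl⟩
    obtain ⟨c, hc, e1, e2, -⟩ := loop g hg
    obtain ⟨s, hs, h⟩ := t3 c hc e1
    exact ⟨⟨s, hs⟩, (e2.trans (cls_eq.2 h)).symm⟩
  · intro α hα g hg h0
    obtain ⟨c, hc, -, e2, e3⟩ := loop g hg
    obtain ⟨v, hv, e⟩ := cls_eq_zero.1 (e2.symm.trans h0)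
    rw [← e3 α hα, ← e, hurD_bd hφ ht hα hv]

end Pool.Agent.MP_b8a826_gt

end

-- part MP_b8a826_gt.Univ6
section

/-! Descent through a finite two-group of deck transformations. -/

namespace Pool.Agent.MP_b8a826_gt
open Set Polynomial

theorem sum_split {H M : Type} [Group H] [Fintype H] [AddCommMonoid M] (K : Subgroup H)
    [Fintype K] (hK : K.index = 2) {σ : H} (hσ : σ ∉ K) (f : H → M) :
    ∑ h, f h = ∑ k : K, f k + ∑ k : K, f (σ * k) ∧ ∑ h, f h = ∑ k : K, f k + ∑ k : K, f (k * σ) := by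
  have key : ∀ e : H ≃ H, (∀ h, e h ∈ K ↔ h ∉ K) → ∑ h, f h = ∑ k : K, f k + ∑ k : K, f (e k) := by
    intro e he
    let u : K ⊕ K → H := Sum.elim (fun k : K => k.1) fun k : K => e k.1
    refine Eq.trans ?_ (Fintype.sum_sum_type fun x => f (u x))
    refine (Fintype.sum_bijective u ⟨?_, ?_⟩ _ _ fun _ => rfl).symm
    · rintro (a | a) (b | b) h
      · exact congrArg _ (Subtype.ext h)
      · exact absurd b.2 ((he b).1 (by rw [← show (a : H) = e b from h]; exact a.2))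
      · exact absurd a.2 ((he a).1 (by rw [show e a = (b : H) from h]; exact b.2))
      · exact congrArg _ (Subtype.ext (e.injective h))
    · intro h
      by_cases hh : h ∈ K
      · exact ⟨.inl ⟨h, hh⟩, rfl⟩
      · refine ⟨.inr ⟨e.symm h, by_contra fun h' => hh ?_⟩, e.apply_symm_apply h⟩
        simpa using (he _).2 h'
  exact ⟨key (Equiv.mulLeft σ) fun h => by simp [Subgroup.mul_mem_iff_of_index_two hK, hσ],
    key (Equiv.mulRight σ) fun h => by simp [Subgroup.mul_mem_iff_of_index_two hK, hσ]⟩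

theorem exists_per {Δ : Lam (ZMod 2)} (hΔ : Δ ≠ 0) :
    ∃ M : ℕ, M ≠ 0 ∧ ∀ a : MZ, Δ ∣ MonoidAlgebra.of _ _ (a ^ M) - 1 := by
  obtain ⟨M, hM, h⟩ := (fin_quot hΔ).2
  refine ⟨M, hM, fun a => ?_⟩
  rw [← Ideal.mem_span_singleton, ← Ideal.Quotient.eq] at h ⊢
  let g := ((Ideal.Quotient.mk (Ideal.span {Δ})).toMonoidHom.comp
    (MonoidAlgebra.of (ZMod 2) MZ)).toHomUnits
  have h1 : g (Multiplicative.ofAdd 1 ^ M) = 1 := Units.ext (by
    rw [tt, ← MonoidHom.map_pow] at h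
    exact h)
  have h2 : a ^ M = (Multiplicative.ofAdd 1 ^ M) ^ a.toAdd :=
    Multiplicative.toAdd.injective (by simp [mul_comm])
  have h3 : g (a ^ M) = 1 := by rw [h2, map_zpow, h1, one_zpow]
  exact congrArg Units.val h3

variable {E : Type} [NormedAddCommGroup E] [NormedSpace ℝ E] {Γ : Type} [Group Γ] {W : Set E}
  {ψ : E → E → Γ}

omit [NormedAddCommGroup E] [NormedSpace ℝ E] in
theorem bd_AA {R : Type} [CommRing R] (σ : MZ →* Γ) (r : Lam R) (c : Ch R (E × Γ)) :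
    bd (AA σ r c) = AA σ r (bd c) := by
  induction r using MonoidAlgebra.induction_on with
  | of m => rw [AA_of, bd_act]
  | add x y h1 h2 => simp only [map_add, LinearMap.add_apply, h1, h2]
  | smul r x h => simp only [map_smul, LinearMap.smul_apply, h]

/-- An equivariant chain map. -/
def Eqv (ψ : E → E → Γ) (W : Set E) (F : Module.End (ZMod 2) (Ch (ZMod 2) (E × Γ))) : Prop :=
  (∀ γ c, F (act γ c) = act γ (F c)) ∧ (∀ c, bd (F c) = F (bd c)) ∧
    ∀ n, ∀ c ∈ CC (ZMod 2) ψ W n, F c ∈ CC (ZMod 2) ψ W n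

/-- `F` annihilates the second homology of the invariant chains. -/
def PP (ψ : E → E → Γ) (W : Set E) {H : Type} [Group H] [Fintype H] (ι : H →* Γ)
    (F : Module.End (ZMod 2) (Ch (ZMod 2) (E × Γ))) : Prop :=
  ∀ c ∈ CC (ZMod 2) ψ W 3, bd (nm ι c) = 0 → ∃ v ∈ CC (ZMod 2) ψ W 4, bd (nm ι v) = F (nm ι c)

theorem Eqv.nm {F : Module.End (ZMod 2) (Ch (ZMod 2) (E × Γ))} (hF : Eqv ψ W F) {H : Type}
    [Group H] [Fintype H] (ι : H →* Γ) (c : Ch (ZMod 2) (E × Γ)) : nm ι (F c) = F (nm ι c) := by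
  simp only [nm_apply, map_sum, hF.1]

theorem Eqv.mul {F : Module.End (ZMod 2) (Ch (ZMod 2) (E × Γ))} (hF : Eqv ψ W F) :
    Eqv ψ W (F * F) :=
  ⟨fun γ c => by simp [hF.1], fun c => by simp [hF.2.1], fun n c hc => hF.2.2 n _ (hF.2.2 n c hc)⟩

theorem PP.desc {F : Module.End (ZMod 2) (Ch (ZMod 2) (E × Γ))} (hF : Eqv ψ W F) {H : Type}
    [Group H] [Fintype H] {ι : H →* Γ} (hι : Function.Injective ι) (h : PP ψ W ι F)
    (K : Subgroup H) [Fintype K] (hK : K.index = 2) : PP ψ W (ι.comp K.subtype) (F * F) := by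
  obtain ⟨σ, hσ⟩ : ∃ σ, σ ∉ K := by
    by_contra hn
    rw [(Subgroup.eq_top_iff' K).2 (by simpa using hn), Subgroup.index_top] at hK
    omega
  have l : ∀ c : Ch (ZMod 2) (E × Γ),
      nm ι c = nm (ι.comp K.subtype) c + act (ι σ) (nm (ι.comp K.subtype) c) := fun c => by
    simp only [nm_apply, map_sum, ← act_mul]
    simpa using (sum_split K hK hσ fun h => act (ι h) c).1
  have r : ∀ σ ∉ K, ∀ c : Ch (ZMod 2) (E × Γ),
      nm ι c = nm (ι.comp K.subtype) (c + act (ι σ) c) := fun σ hσ c => by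
    simp only [nm_apply, map_add, ← act_mul]
    simpa using (sum_split K hK hσ fun h => act (ι h) c).2
  intro c hc h0
  obtain ⟨v, hv, e⟩ := h c hc (by rw [l, map_add, bd_act, h0, map_zero, add_zero])
  have h1 := sub_mem (hF.2.2 _ c hc) (bd_CC hv)
  obtain ⟨c2, hc2, e2⟩ := dif_ind (nm (ι.comp K.subtype)) (nm ι) 3 (by
    rintro _ ⟨g, rfl⟩ c hc
    by_cases hg : g ∈ K
    · exact ⟨0, zero_mem _, by
        rw [map_sub, map_zero, sub_eq_zero]; exact nm_act (ι.comp K.subtype) ⟨g, hg⟩ c⟩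
    · refine ⟨c, hc, ?_⟩
      rw [r g hg, add_comm, sub_eq_add_neg, ← neg_one_smul (ZMod 2) c,
        show (-1 : ZMod 2) = 1 from rfl, one_smul])
    (nm_ker hι h1 (by rw [map_sub, hF.nm, ← bd_nm, e, sub_self]))
  rw [map_sub, hF.nm, ← bd_nm] at e2
  obtain ⟨v2, hv2, e3⟩ := h c2 hc2 (by rw [← e2, map_sub, hF.2.1, h0, bd_bd, map_zero, sub_self])
  refine ⟨F v + (v2 + act (ι σ) v2), add_mem (hF.2.2 _ v hv) (add_mem hv2 (act_mem _ hv2)), ?_⟩
  rw [map_add, ← r σ hσ, map_add, e3, ← e2, hF.nm, hF.2.1, map_sub, Module.End.mul_apply]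
  abel

theorem PP.bot (n : ℕ) : ∀ {F : Module.End (ZMod 2) (Ch (ZMod 2) (E × Γ))}, Eqv ψ W F →
    ∀ {H : Type} [Group H] [Fintype H] {ι : H →* Γ}, Function.Injective ι → Nat.card H = 2 ^ n →
      PP ψ W ι F → ∀ c ∈ CC (ZMod 2) ψ W 3, bd c = 0 →
        ∃ v ∈ CC (ZMod 2) ψ W 4, bd v = (F ^ 2 ^ n) c := by
  induction n with
  | zero =>
    intro F _ H _ _ ι _ hc h c hc' h0
    have : Subsingleton H := (Nat.card_eq_one_iff_unique.1 hc).1
    have e : ∀ c : Ch (ZMod 2) (E × Γ), nm ι c = c := fun c => by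
      rw [nm_apply, Fintype.sum_subsingleton _ 1, map_one, act_one]
    simpa only [e, pow_zero, pow_one] using h c hc' (by rw [e, h0])
  | succ n ih =>
    intro F hF H _ _ ι hι hc h
    obtain ⟨K, hK⟩ := Sylow.exists_subgroup_card_pow_prime (G := H) 2 (n := n)
      (by rw [hc]; exact pow_dvd_pow 2 n.le_succ)
    have h2 : K.index = 2 := by
      have := K.card_mul_index
      rw [hK, hc, pow_succ] at this
      exact Nat.eq_of_mul_eq_mul_left (by positivity) this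
    let _ := Fintype.ofFinite K
    have := ih hF.mul (ι := ι.comp K.subtype) (hι.comp K.subtype_injective) hK (h.desc hF hι K h2)
    rwa [← sq, ← pow_mul, ← pow_succ'] at this

theorem two_step (ho : IsOpen W) (hF : FD W) (hψ : Coc W ψ) {τ' : Γ →* MZ}
    (hτ : Function.Surjective τ') [Finite τ'.ker] (h2 : IsPGroup 2 τ'.ker) {s : Γ}
    (hs : ∀ γ, Commute s γ) (hs' : τ' s ≠ 1) {Δ : Lam (ZMod 2)} (hΔ : Δ ≠ 0)
    (hk : Kills Δ (fun x y => τ' (ψ x y)) W) :
    ∃ p : ℤ[X], p ≠ 0 ∧ Kills (aeval (MonoidAlgebra.of ℤ Γ s) p) ψ W := by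
  obtain ⟨M, hM, hd⟩ := exists_per hΔ
  obtain ⟨n, hn⟩ := IsPGroup.iff_card.1 h2
  let _ := Fintype.ofFinite τ'.ker
  have hE : Eqv ψ W (act (s ^ M) - 1) :=
    ⟨fun γ c => by simp [← act_mul, ((hs γ).pow_left M).eq], fun c => by simp [bd_act],
      fun n c hc => sub_mem (act_mem _ hc) hc⟩
  have hr : (τ'.ker.subtype.range : Set Γ) = τ'.ker := by rw [Subgroup.range_subtype]
  have hP : PP ψ W τ'.ker.subtype (act (s ^ M) - 1) := by
    intro c hc h0
    obtain ⟨w, -, e0⟩ := dif_ind (up τ') 0 2 (by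
      rintro _ ⟨g, rfl⟩ c _
      exact ⟨0, zero_mem _, by
        rw [map_sub, up_act, show τ' (τ'.ker.subtype g) = 1 from g.2, act_one, sub_self]; rfl⟩)
      (nm_ker τ'.ker.subtype_injective (bd_CC hc) (by rw [← bd_nm, h0]))
    obtain ⟨v, hv, e⟩ := hk _ (up_mem τ' hc) (by rw [bd_up, e0]; rfl)
    obtain ⟨d, hd⟩ := hd (τ' s)
    obtain ⟨v', hv', e'⟩ := up_surj hψ hτ (rho_mem d hv)
    refine ⟨v', hv', ?_⟩
    have := nm_dif τ'.ker.subtype (hr ▸ up_ker τ' (sub_mem (hE.2.2 _ c hc) (bd_CC hv')) (by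
      rw [map_sub, ← bd_up, e', bd_rho, e, ← Module.End.mul_apply, ← map_mul, mul_comm, ← hd,
        map_sub, map_one, Representation.asAlgebraHom_of]
      simp only [LinearMap.sub_apply, Module.End.one_apply, map_sub, up_act, rho_apply, map_pow τ',
        sub_self]))
    rw [map_sub, hE.nm, ← bd_nm, sub_eq_zero] at this
    exact this.symm
  have hB := hP.bot n hE τ'.ker.subtype_injective hn
  let σ := zpowersHom Γ s
  have eA : ∀ (R : Type) [CommRing R], (AA σ ((tt R ^ M - 1) ^ 2 ^ n) :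
      Module.End R (Ch R (E × Γ))) = (act (s ^ M) - 1) ^ 2 ^ n := fun R _ => by
    rw [map_pow, map_sub, map_one, tt, ← MonoidHom.map_pow, AA_of]
    simp [σ]
  have eR : ∀ (j : ℕ) (c : Ch ℤ (E × Γ)), red (ZMod 2) (((act (s ^ M) - 1) ^ j :
      Module.End ℤ (Ch ℤ (E × Γ))) c) = ((act (s ^ M) - 1) ^ j :
        Module.End (ZMod 2) (Ch (ZMod 2) (E × Γ))) (red (ZMod 2) c) := fun j => by
    induction j with
    | zero => simp
    | succ j ih =>
      intro c
      rw [pow_succ, pow_succ, Module.End.mul_apply, Module.End.mul_apply, ih]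
      simp [act, mp_red]
  have hm : (τ' s).toAdd ≠ 0 := fun h => hs' (Multiplicative.toAdd.injective h)
  have hT : {γ | (τ' γ).toAdd ∈ Ico 0 |(τ' s).toAdd|}.Finite := by
    refine Finite.of_finite_fibers (fun γ => (τ' γ).toAdd)
      ((finite_Ico 0 |(τ' s).toAdd|).subset (by rintro _ ⟨γ, h, rfl⟩; exact h)) ?_
    rintro _ ⟨γ, -, rfl⟩
    refine (finite_range fun k : τ'.ker => γ * k).subset fun g hg => ?_
    have : τ' g = τ' γ := Multiplicative.toAdd.injective hg.2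
    exact ⟨⟨γ⁻¹ * g, by simp [MonoidHom.mem_ker, this]⟩, by simp⟩
  obtain ⟨N, b, hb⟩ := det_trick (R := ℤ) ho hF hψ σ hT (fun g =>
    ⟨Multiplicative.ofAdd ((τ' g).toAdd / (τ' s).toAdd),
      (s ^ ((τ' g).toAdd / (τ' s).toAdd))⁻¹ * g, by
        have e : (τ' ((s ^ ((τ' g).toAdd / (τ' s).toAdd))⁻¹ * g)).toAdd =
            (τ' g).toAdd % (τ' s).toAdd := by
          simp only [map_mul, map_inv, map_zpow, toAdd_mul, toAdd_inv, toAdd_zpow, smul_eq_mul,
            Int.emod_def]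
          ring
        rw [mem_ofPred_eq, e]
        exact ⟨Int.emod_nonneg _ hm, Int.emod_lt_abs _ hm⟩, by simp [σ]⟩) 2
    ((tt ℤ ^ M - 1) ^ 2 ^ n) 2 fun z hz h0 => by
      obtain ⟨v, hv, e⟩ := hB _ (red_mem hz) (by rw [bd_red, h0, map_zero])
      obtain ⟨v', hv', rfl⟩ := red_surj hv
      obtain ⟨w, hw, e'⟩ := red_ker (sub_mem (AA_mem σ (fun γ _ => act_mem γ)
        ((tt ℤ ^ M - 1) ^ 2 ^ n) hz) (bd_CC hv')) (by rw [map_sub, eA, eR, ← e, bd_red, sub_self])
      refine ⟨w, hw, two_inj ?_, v', hv', ?_⟩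
      · rw [← map_smul, ← e', map_sub, bd_AA, h0, bd_bd, map_zero, sub_self]
      · rw [map_ofNat, Module.End.ofNat_apply, ← Nat.cast_smul_eq_nsmul ℤ]
        exact (sub_sub_cancel _ _).symm.trans (congrArg _ e')
  obtain ⟨N', p, hp⟩ := univ_poly b
  refine ⟨X ^ N' * ((X ^ M - 1) ^ 2 ^ n) ^ N + 2 * p, fun h => ?_, fun z hz h0 => ?_⟩
  · have := congrArg (Polynomial.map (Int.castRingHom (ZMod 2))) h
    have e2 : (2 : (ZMod 2)[X]) = 0 := CharP.cast_eq_zero _ 2
    simp only [Polynomial.map_add, Polynomial.map_mul, Polynomial.map_pow, map_X,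
      Polynomial.map_sub, Polynomial.map_one, Polynomial.map_ofNat, e2, zero_mul, add_zero,
      Polynomial.map_zero] at this
    exact mul_ne_zero (pow_ne_zero _ X_ne_zero) (pow_ne_zero _ (pow_ne_zero _
      (X_pow_sub_C_ne_zero (Nat.pos_of_ne_zero hM) 1))) this
  · obtain ⟨v, hv, e⟩ := hb z hz h0
    refine ⟨AA σ (tt ℤ ^ N') v, AA_mem σ (fun γ _ => act_mem γ) _ hv, ?_⟩
    have e1 : ∀ q : ℤ[X], (rho ℤ E Γ).asAlgebraHom (aeval (MonoidAlgebra.of ℤ Γ s) q) =
        AA σ (aeval (tt ℤ) q) := fun q => by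
      rw [← aeval_algHom_apply, ← aeval_algHom_apply, tt, AA_of, Representation.asAlgebraHom_of]
      simp only [σ, zpowersHom_apply, toAdd_ofAdd, zpow_one]
      rfl
    rw [bd_AA, e, ← Module.End.mul_apply, ← map_mul, e1]
    simp only [map_add, map_mul, map_pow, aeval_X, map_sub, map_one, map_ofNat, hp, mul_add]
    congr 2
    simp only [← map_pow, ← map_mul, ← map_ofNat (AA σ) 2, mul_left_comm]

end Pool.Agent.MP_b8a826_gt

end

-- part MP_b8a826_gt.Univ
section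

/-! The fundamental group and the homology of its coverings. -/

namespace Pool.Agent.MP_b8a826_gt
open Set Polynomial

theorem univ_pack {E : Type} [NormedAddCommGroup E] [NormedSpace ℝ E] {W : Set E} (hW : Good W) :
    ∃ (π : Type) (_ : Group π) (φ : E → E → π) (τ : π →* MZ),
      Coc W φ ∧ H1 W (fun x y => τ (φ x y)) ∧ UP W φ ∧ Split (ZMod 2) τ ∧ Split ℝ τ ∧
      (∃ Δ : MonoidAlgebra (ZMod 2) MZ, Δ ≠ 0 ∧ Kills Δ (fun x y => τ (φ x y)) W) ∧
      (∀ (k : π →* SD (rhoN (ZMod 2) (fun x y => τ (φ x y)) W))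
        (a : E → SD (rhoN (ZMod 2) (fun x y => τ (φ x y)) W)), (∀ g, (k g).g = τ g) →
        (∀ x ∈ W, (a x).g = 1) →
        (∀ x y, segment ℝ x y ⊆ W →
          Mg (ZMod 2) (fun x y => τ (φ x y)) W x y = (a x)⁻¹ * k (φ x y) * a y) →
        {v | ∃ g, τ g = 1 ∧ (k g).v = v}.Finite ∧
        ∀ α : π → ZMod 2, (∀ g h, τ g = 1 → τ h = 1 → α (g * h) = α g + α h) →
          ∀ g, τ g = 1 → (k g).v = 0 → α g = 0) ∧
      ∀ (Γ : Type) [Group Γ] (q : π →* Γ) (τ' : Γ →* MZ) (s : Γ), Function.Surjective q →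
        (∀ g, τ' (q g) = τ g) → Finite τ'.ker → IsPGroup 2 τ'.ker → (∀ γ, Commute s γ) →
        τ' s ≠ 1 → ∃ p : ℤ[X], p ≠ 0 ∧
          Kills (aeval (MonoidAlgebra.of ℤ Γ s) p) (fun x y => q (φ x y)) W := by
  obtain ⟨π, _, φ, τ, b, hb, hφ, hH, hU, hR⟩ := exists_pi hW
  have hτ := surj_of_H1 hH
  have hχ := hφ.map τ
  obtain ⟨b1, h1⟩ := wang (R := ZMod 2) hW.op hW.fd hχ 0 fun z hz h0 =>
    acyc2_two (acyc_one hW.op hW.conn hb) hH hz h0
  obtain ⟨b2, h2⟩ := wang (R := ZMod 2) hW.op hW.fd hχ 1 fun z hz h0 =>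
    acyc2_three hW.h2 hχ hH (up_mem (1 : MZ →* Unit) hz) (by rw [bd_up, h0, map_zero])
  obtain ⟨b3, h3⟩ := wang (R := ℤ) hW.op hW.fd hχ 1 fun z hz h0 =>
    hW.h2 _ (up_mem (1 : MZ →* Unit) hz) (by rw [bd_up, h0, map_zero])
  have i1 : Module.Injective ℤ ℝ := (Module.Baer.of_divisible ℝ).injective
  have i2 : Module.Injective (ZMod 2) (ZMod 2) :=
    Module.injective_of_isSemisimpleRing _ _
  refine ⟨π, inferInstance, φ, τ, hφ, hH, hU, split_of hφ hU τ b2 h2, split_of hφ hU τ b3 h3,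
    ⟨_, aug_ne b2, h2⟩, fun k a _ ha hM => hur hW.op hW.fd hφ hτ hb hR (aug_ne b1) h1 k a ha hM,
    fun Γ _ q τ' s _ hq _ hp hs hs' => two_step hW.op hW.fd (hφ.map q)
      (fun n => let ⟨g, hg⟩ := hτ n; ⟨q g, (hq g).trans hg⟩) hp hs hs' (aug_ne b2) ?_⟩
  simp only [hq]
  exact h2

end Pool.Agent.MP_b8a826_gt

end
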