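import Pool.Agent.MP_b8a826_gt.Mg.KSide2
import Pool.Agent.MP_b8a826_gt.PDef
import Pool.Agent.MP_b8a826_gt.Mg.AlexH
import Pool.Agent.MP_b8a826_gt.Mg.Univ
import Pool.Agent.MP_b8a826_gt.Mg.KSide

-- part MP_b8a826_gt.PSide1
section

/-! The spiral pattern: definitions and point-set facts. -/

namespace Pool.Agent.MP_b8a826_gt
open Set Real

/-- Coordinates (angle, depth, height) on the infinite cyclic covering of the solid torus. -/
abbrev R3 : Type := ℝ × ℝ × ℝ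

noncomputable def psY (x : ℝ) : ℝ := √(1 - x ^ 2)
/-- Angle of the descending strand at height `x`. -/
noncomputable def psTh (x : ℝ) : ℝ := arccos x / (2 * π) + psY x
/-- Depth of the descending strand at height `x`. -/
noncomputable def psRh (x : ℝ) : ℝ := x * psY x
/-- The covering map. -/
noncomputable def psJ (p : R3) : Circle × ℂ :=
  (Circle.exp (2 * π * p.1), ((p.2.1 : ℂ) + p.2.2 * Complex.I) / 2)
noncomputable def psA (x : ℝ) : ℝ := |4 * |x| - 2| - 1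
noncomputable def psB (x : ℝ) : ℝ := x * (1 - 2 * |x|)

/-- The pattern (`s = 0`) and its push-offs. -/
noncomputable def psL (q : Circle × ℝ) : Circle × ℂ :=
  (q.1 * Circle.exp (2 * π * ((q.1 : ℂ).im + q.2 * psA (q.1 : ℂ).re / 4)),
    ((((q.1 : ℂ).re * (q.1 : ℂ).im + q.2 * |(q.1 : ℂ).re * (q.1 : ℂ).im| * psB (q.1 : ℂ).re : ℝ) : ℂ) +
      (q.1 : ℂ).re * Complex.I) / 2)

@[fun_prop] theorem psY_cont : Continuous psY := by unfold psY; fun_prop
@[fun_prop] theorem psTh_cont : Continuous psTh := by unfold psTh; fun_prop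
@[fun_prop] theorem psRh_cont : Continuous psRh := by unfold psRh; fun_prop
@[fun_prop] theorem psJ_cont : Continuous psJ := by unfold psJ; fun_prop
@[fun_prop] theorem psA_cont : Continuous psA := by unfold psA; fun_prop
@[fun_prop] theorem psB_cont : Continuous psB := by unfold psB; fun_prop
@[fun_prop] theorem psL_cont : Continuous psL := by unfold psL; fun_prop

/-- The pattern. -/
noncomputable def psP : C(Circle, Circle × ℂ) := ⟨fun z => psL (z, 0), by fun_prop⟩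

/-- A sign. -/
def Sg (σ : ℝ) : Prop := σ = 1 ∨ σ = -1

/-- The preimage of the pattern. -/
def InP (p : R3) : Prop :=
  |p.2.2| ≤ 1 ∧ ∃ (σ : ℝ) (k : ℤ), Sg σ ∧ p.1 = k + σ * psTh p.2.2 ∧ p.2.1 = σ * psRh p.2.2

/-- The preimage of the dual loop. -/
def InB (p : R3) : Prop := p.2.2 = 0 ∧ ∃ k : ℤ, 225 * (p.1 - k) ^ 2 + 16 * p.2.1 ^ 2 = 36

/-- The lift of the dual loop. -/
noncomputable def psBt (t : ℝ) : R3 := (2 / 5 * sin (2 * π * t), 3 / 2 * cos (2 * π * t), 0)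

@[fun_prop] theorem psBt_cont : Continuous psBt := by unfold psBt; fun_prop

/-- The push-off of the strand of sign `σ`. -/
noncomputable def psC (k : ℤ) (σ s x : ℝ) : R3 :=
  (k + σ * psTh x + s * psA x / 4, σ * psRh x + s * |psRh x| * psB x, x)

theorem psC_cont (k : ℤ) (σ s : ℝ) : Continuous (psC k σ s) := by unfold psC; fun_prop

theorem psY_nonneg (x : ℝ) : 0 ≤ psY x := sqrt_nonneg _

theorem psY_sq {x : ℝ} (h : |x| ≤ 1) : psY x ^ 2 = 1 - x ^ 2 :=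
  sq_sqrt (by nlinarith [sq_abs x, abs_nonneg x])

theorem psY_pos {x : ℝ} (h : |x| < 1) : 0 < psY x :=
  sqrt_pos.2 (by nlinarith [sq_abs x, abs_nonneg x])

theorem psTh_val : psTh 0 = 5 / 4 ∧ psTh 1 = 0 ∧ psTh (-1) = 1 / 2 := by
  have := pi_pos
  refine ⟨?_, ?_, ?_⟩ <;> simp [psTh, psY]
  · field_simp; norm_num
  · field_simp

theorem psRh_val : psRh 0 = 0 ∧ psRh 1 = 0 ∧ psRh (-1) = 0 := by simp [psRh, psY]

theorem psRh_le {x : ℝ} (h : |x| ≤ 1) : |psRh x| ≤ 1 / 2 := by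
  have h1 := psY_sq h
  rw [psRh, abs_le]
  constructor <;> nlinarith [sq_nonneg (x - psY x), sq_nonneg (x + psY x)]

theorem psJ_eq {p q : R3} : psJ p = psJ q ↔ (∃ k : ℤ, p.1 = q.1 + k) ∧ p.2 = q.2 := by
  have := pi_pos
  rw [psJ, psJ, Prod.mk.injEq, Circle.exp_eq_exp]
  refine and_congr (exists_congr fun k => ⟨fun h => ?_, fun h => by rw [h]; ring⟩) ⟨fun h => ?_,
    fun h => by rw [h]⟩
  · exact mul_left_cancel₀ (a := 2 * π) (by positivity) (by rw [h]; ring)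
  · have h1 := congrArg Complex.re h
    have h2 := congrArg Complex.im h
    simp at h1 h2
    exact Prod.ext h1 h2

theorem ps_circle (z : Circle) : ∃ σ x : ℝ, Sg σ ∧ |x| ≤ 1 ∧ z = Circle.exp (σ * arccos x) := by
  have h1 := Complex.neg_pi_lt_arg z
  have h2 := Complex.arg_le_pi z
  rcases le_total 0 (Complex.arg z) with h | h
  · exact ⟨1, cos (Complex.arg z), Or.inl rfl, abs_cos_le_one _, by
      rw [arccos_cos h h2, one_mul, Circle.exp_arg]⟩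
  · exact ⟨-1, cos (-Complex.arg z), Or.inr rfl, abs_cos_le_one _, by
      rw [arccos_cos (by linarith) (by linarith), neg_one_mul, neg_neg, Circle.exp_arg]⟩

theorem psL_exp {σ x : ℝ} (hσ : Sg σ) (hx : |x| ≤ 1) (k : ℤ) (s : ℝ) :
    psL (Circle.exp (σ * arccos x), s) = psJ (psC k σ s x) := by
  have := pi_pos
  obtain ⟨h1, h2⟩ := abs_le.1 hx
  have hr : ((Circle.exp (σ * arccos x) : Circle) : ℂ).re = x := by
    rw [Circle.coe_exp, Complex.exp_ofReal_mul_I_re]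
    rcases hσ with rfl | rfl <;> simp [cos_arccos h1 h2]
  have hi : ((Circle.exp (σ * arccos x) : Circle) : ℂ).im = σ * psY x := by
    rw [Circle.coe_exp, Complex.exp_ofReal_mul_I_im]
    rcases hσ with rfl | rfl <;> simp [sin_arccos, psY]
  simp only [psL, psJ, psC, hr, hi, ← Circle.exp_add]
  congr 1
  · refine Circle.exp_eq_exp.2 ⟨-k, ?_⟩
    simp only [psTh, Int.cast_neg]
    field_simp
    ring
  · congr 3
    rcases hσ with rfl | rfl <;> simp [psRh]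

theorem mem_psP {p : R3} : psJ p ∈ range psP ↔ InP p := by
  constructor
  · rintro ⟨z, hz⟩
    obtain ⟨σ, x, hσ, hx, rfl⟩ := ps_circle z
    have h := (psL_exp hσ hx 0 0).symm.trans hz
    obtain ⟨⟨k, hk⟩, h2⟩ := psJ_eq.1 h.symm
    have e : p.2.2 = x := congrArg Prod.snd h2
    refine ⟨e ▸ hx, σ, k, hσ, ?_, ?_⟩
    · rw [hk, e]; simp [psC, add_comm]
    · rw [e, h2]; simp [psC]
  · rintro ⟨hx, σ, k, hσ, h1, h2⟩
    refine ⟨_, (psL_exp hσ hx k 0).trans ?_⟩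
    congr 1
    exact Prod.ext (by simp [psC, h1]) (Prod.ext (by simp [psC, h2]) rfl)

theorem mem_psBt {p : R3} (h : psJ p ∈ range (psJ ∘ psBt)) : InB p := by
  obtain ⟨t, ht⟩ := h
  obtain ⟨⟨k, hk⟩, h2⟩ := psJ_eq.1 ht.symm
  refine ⟨congrArg Prod.snd h2, k, ?_⟩
  rw [hk, h2]
  simp only [psBt]
  nlinarith [sin_sq_add_cos_sq (2 * π * t)]

theorem ps_noint {y : ℝ} (j k : ℤ) (h1 : j < y) (h2 : y < j + 1) : y ≠ k := by
  rintro rfl
  have h3 : j < k := by exact_mod_cast h1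
  have h4 : k < j + 1 := by exact_mod_cast h2
  omega

theorem InB.bd {p : R3} (h : InB p) : p.2.2 = 0 ∧ |p.2.1| ≤ 3 / 2 ∧
    ∃ k : ℤ, |p.1 - k| ≤ 2 / 5 ∧ 225 * (p.1 - k) ^ 2 + 16 * p.2.1 ^ 2 = 36 := by
  obtain ⟨h0, k, hk⟩ := h
  refine ⟨h0, abs_le_of_sq_le_sq' ?_ (by norm_num) |> abs_le.2, k,
    abs_le_of_sq_le_sq' ?_ (by norm_num) |> abs_le.2, hk⟩ <;>
  nlinarith [sq_nonneg (p.1 - k), sq_nonneg p.2.1]

theorem InP.bd {p : R3} (h : InP p) : |p.2.1| ≤ 1 / 2 := by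
  obtain ⟨hx, σ, k, hσ, -, h2⟩ := h
  have := psRh_le hx
  rcases hσ with rfl | rfl <;> simpa [h2] using this

theorem psA_le {x : ℝ} (h : |x| ≤ 1) : |psA x| ≤ 1 ∧ |psB x| ≤ 1 := by
  have h0 := abs_nonneg x
  constructor
  · rw [psA, abs_le]
    rcases abs_cases (4 * |x| - 2) with h1 | h1 <;> constructor <;> linarith
  · rw [psB, abs_mul]
    exact mul_le_one₀ h (abs_nonneg _) (abs_le.2 ⟨by linarith, by linarith⟩)

theorem psA_zero {x : ℝ} (h : psA x = 0) : x = 1 / 4 ∨ x = -(1 / 4) ∨ x = 3 / 4 ∨ x = -(3 / 4) := by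
  unfold psA at h
  rcases abs_cases (4 * |x| - 2) with h1 | h1 <;> rcases abs_cases x with h2 | h2
  · right; right; left; linarith
  · right; right; right; linarith
  · left; linarith
  · right; left; linarith

theorem psRh_zero {x : ℝ} (hx : |x| ≤ 1) (h : psRh x = 0) :
    psA x = 1 ∧ (psTh x = 5 / 4 ∨ psTh x = 0 ∨ psTh x = 1 / 2) := by
  obtain ⟨t1, t2, t3⟩ := psTh_val
  rcases mul_eq_zero.1 h with rfl | h1
  · exact ⟨by norm_num [psA], Or.inl t1⟩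
  · have h2 := psY_sq hx
    rw [h1] at h2
    have h3 : (x - 1) * (x + 1) = 0 := by linarith
    rcases mul_eq_zero.1 h3 with h4 | h4
    · obtain rfl : x = 1 := by linarith
      exact ⟨by norm_num [psA], Or.inr (Or.inl t2)⟩
    · obtain rfl : x = -1 := by linarith
      exact ⟨by norm_num [psA], Or.inr (Or.inr t3)⟩

/-- The strands on the line of sight through a point of the push-off. -/
theorem psC_line {k : ℤ} {σ s x r : ℝ} (hσ : Sg σ) (hs : 0 < s) (hs1 : s ≤ 1)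
    (h : InP ((psC k σ s x).1, r, x)) :
    psRh x ≠ 0 ∧ ((psA x = 0 ∧ r = σ * psRh x) ∨ r = -(σ * psRh x)) := by
  obtain ⟨hx, σ', j, hσ', h1, h2⟩ := h
  simp only [psC] at hx h1 h2
  obtain ⟨a1, a2⟩ := abs_le.1 (psA_le hx).1
  have e : σ' = σ ∨ σ' = -σ := by
    rcases hσ with rfl | rfl <;> rcases hσ' with rfl | rfl <;> simp
  have b1 : -1 ≤ s * psA x := by nlinarith
  have b2 : s * psA x ≤ 1 := by nlinarith
  rcases e with rfl | rfl
  · have h3 : s * psA x / 4 = ((j - k : ℤ) : ℝ) := by push_cast; linarith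
    have h4 : j - k = 0 := by
      have c1 : ((j - k : ℤ) : ℝ) < 1 := by linarith
      have c2 : (-1 : ℝ) < ((j - k : ℤ) : ℝ) := by linarith
      have c3 : j - k < 1 := by exact_mod_cast c1
      have c4 : -1 < j - k := by exact_mod_cast c2
      omega
    rw [h4] at h3
    have h5 : psA x = 0 := by simpa [hs.ne'] using h3
    exact ⟨fun h6 => by linarith [(psRh_zero hx h6).1], Or.inl ⟨h5, h2⟩⟩
  · refine ⟨fun h6 => ?_, Or.inr (by rw [h2, neg_mul])⟩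
    obtain ⟨h7, h8⟩ := psRh_zero hx h6
    have h9 : 2 * σ * psTh x + s / 4 = ((j - k : ℤ) : ℝ) := by
      rw [h7] at h1; push_cast; linarith
    rcases hσ with rfl | rfl <;> rcases h8 with h8 | h8 | h8 <;> rw [h8] at h9
    · exact ps_noint 2 _ (by push_cast; linarith) (by push_cast; linarith) h9
    · exact ps_noint 0 _ (by push_cast; linarith) (by push_cast; linarith) h9
    · exact ps_noint 1 _ (by push_cast; linarith) (by push_cast; linarith) h9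
    · exact ps_noint (-3) _ (by push_cast; linarith) (by push_cast; linarith) h9
    · exact ps_noint 0 _ (by push_cast; linarith) (by push_cast; linarith) h9
    · exact ps_noint (-1) _ (by push_cast; linarith) (by push_cast; linarith) h9

theorem psB_ne {x : ℝ} (h : psA x = 0) : psB x ≠ 0 := by
  rcases psA_zero h with rfl | rfl | rfl | rfl <;> norm_num [psB, abs_of_pos, abs_of_neg]

theorem psC_notP {k : ℤ} {σ s : ℝ} (hσ : Sg σ) (hs : 0 < s) (hs1 : s ≤ 1) (x : ℝ) :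
    ¬ InP (psC k σ s x) := fun h => by
  obtain ⟨h1, h2⟩ := psC_line hσ hs hs1 h
  have h3 := abs_pos.2 h1
  obtain ⟨b1, b2⟩ := abs_le.1 (psA_le h.1).2
  simp only [psC] at h2 b1 b2
  rcases h2 with ⟨h4, h5⟩ | h5
  · exact mul_ne_zero (mul_ne_zero hs.ne' h3.ne') (psB_ne h4) (by linarith)
  · have h6 : |σ * psRh x| = |psRh x| := by rcases hσ with rfl | rfl <;> simp
    have h7 : |s * psB x| ≤ 1 := abs_le.2 ⟨by nlinarith, by nlinarith⟩
    have h8 : 2 * (σ * psRh x) = -(|psRh x| * (s * psB x)) := by linarith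
    have h9 := congrArg abs h8
    rw [abs_mul, h6, abs_neg, abs_mul, abs_abs, abs_two] at h9
    nlinarith

theorem psP_track : Track psP psL := by
  refine ⟨psL_cont, fun _ => rfl, fun z s hs hs1 h => ?_⟩
  obtain ⟨σ, x, hσ, hx, rfl⟩ := ps_circle z
  rw [psL_exp hσ hx 0] at h
  exact psC_notP hσ hs hs1 x (mem_psP.1 h)

theorem psP_apply (z : Circle) : psP z = (z * Circle.exp (2 * π * (z : ℂ).im),
    ((((z : ℂ).re * (z : ℂ).im : ℝ) : ℂ) + (z : ℂ).re * Complex.I) / 2) := by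
  simp [psP, psL]

theorem ps_re_im (z : Circle) : (z : ℂ).re ^ 2 + (z : ℂ).im ^ 2 = 1 := by
  have h := Circle.normSq_coe z
  rw [Complex.normSq_apply] at h
  linarith

theorem psP_normSq (z : Circle) :
    ‖(psP z).2‖ ^ 2 = (z : ℂ).re ^ 2 * (1 + (z : ℂ).im ^ 2) / 4 := by
  rw [psP_apply, ← Complex.normSq_eq_norm_sq, Complex.normSq_apply]
  simp
  ring

theorem psP_norm (z : Circle) : ‖(psP z).2‖ < 1 := by
  refine lt_of_pow_lt_pow_left₀ 2 zero_le_one ?_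
  rw [psP_normSq]
  have := ps_re_im z
  nlinarith [sq_nonneg (z : ℂ).re, sq_nonneg (z : ℂ).im]

theorem psP_inj : Function.Injective psP := fun z w h => by
  rw [psP_apply, psP_apply, Prod.mk.injEq] at h
  have h1 := congrArg Complex.re h.2
  have h2 := congrArg Complex.im h.2
  simp at h1 h2
  by_cases h0 : (z : ℂ).re = 0
  · have key : ∀ v : Circle, (v : ℂ).re = 0 → Circle.exp (2 * π * (v : ℂ).im) = 1 := fun v hv => by
      have h3 := ps_re_im v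
      rw [hv] at h3
      have h4 : ((v : ℂ).im - 1) * ((v : ℂ).im + 1) = 0 := by linarith
      rcases mul_eq_zero.1 h4 with h5 | h5
      · rw [show (v : ℂ).im = ((1 : ℤ) : ℝ) by push_cast; linarith, Circle.exp_two_pi_mul_int]
      · rw [show (v : ℂ).im = ((-1 : ℤ) : ℝ) by push_cast; linarith, Circle.exp_two_pi_mul_int]
    have h6 := h.1
    rwa [key z h0, key w (h2 ▸ h0), mul_one, mul_one] at h6
  · rw [← h2] at h1
    exact Circle.ext (Complex.ext h2 (mul_left_cancel₀ h0 h1))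

theorem psP_homotopic :
    ContinuousMap.Homotopic (ContinuousMap.fst.comp psP) (ContinuousMap.id Circle) :=
  ⟨⟨⟨fun q => q.2 * Circle.exp (2 * π * ((1 - (q.1 : ℝ)) * (q.2 : ℂ).im)), by fun_prop⟩,
    fun z => by simp [psP_apply], fun z => by simp⟩⟩

/-- The disc dual to the loop. -/
noncomputable def psD (z : ℂ) : Circle × ℂ := (1, 3 / 4 + z / 4)

theorem psD_eq (z : ℂ) : psD z = psJ (0, 3 / 2 + z.re / 2, z.im / 2) := by
  simp only [psD, psJ, mul_zero, Circle.exp_zero, Prod.mk.injEq, true_and]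
  conv_lhs => rw [← Complex.re_add_im z]
  push_cast
  ring

theorem psBt_notP (t : ℝ) : ¬ InP (psBt t) := by
  rintro ⟨-, σ, k, hσ, h1, h2⟩
  simp only [psBt, psTh_val.1, psRh_val.1, mul_zero] at h1 h2
  have h3 := sin_sq_add_cos_sq (2 * π * t)
  have h4 : cos (2 * π * t) = 0 := by linarith
  have h5 : (sin (2 * π * t) - 1) * (sin (2 * π * t) + 1) = 0 := by rw [h4] at h3; linarith
  rcases hσ with rfl | rfl <;> rcases mul_eq_zero.1 h5 with h6 | h6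
  · exact ps_noint (y := -17 / 20) (-1) k (by norm_num) (by norm_num) (by linarith)
  · exact ps_noint (y := -33 / 20) (-2) k (by norm_num) (by norm_num) (by linarith)
  · exact ps_noint (y := 33 / 20) 1 k (by norm_num) (by norm_num) (by linarith)
  · exact ps_noint (y := 17 / 20) 0 k (by norm_num) (by norm_num) (by linarith)

theorem ps_box : Box cV (range psP) psD (psJ ∘ psBt) := by
  have hp := pi_pos
  refine ⟨by unfold psD; fun_prop, by fun_prop, fun t => ?_, ?_, fun t ht h => ?_,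
    fun t h => psBt_notP t (mem_psP.1 h), fun z hz h => ?_, fun z hz h0 h => ?_, ?_⟩
  · simp only [Function.comp, psBt, mul_add, mul_one, sin_add_two_pi, cos_add_two_pi]
  · simp [psD_eq, psBt]
  · have h1 := congrArg Prod.fst (psJ_eq.1 h).2
    simp only [psBt, mul_zero, cos_zero] at h1
    obtain ⟨n, hn⟩ := (cos_eq_one_iff (2 * π * t)).1 (by linarith)
    exact ps_noint 0 n (by simpa using ht.1) (by simpa using ht.2)
      (mul_left_cancel₀ (a := 2 * π) (by positivity) (by rw [← hn]; ring))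
  · rw [psD_eq] at h
    have h1 := (abs_le.1 (mem_psP.1 h).bd).2
    have h2 := (abs_le.1 ((Complex.abs_re_le_norm z).trans hz)).1
    simp only at h1
    linarith
  · rw [psD_eq] at h
    obtain ⟨h1, -, k, h2, h3⟩ := (mem_psBt h).bd
    have h4 := (abs_le.1 ((Complex.abs_re_le_norm z).trans hz)).1
    simp only [zero_sub, abs_neg] at h1 h2 h3
    have h5 : k = 0 := by
      have h6 : |k| < 1 := by exact_mod_cast (show |(k : ℝ)| < 1 by linarith)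
      exact Int.abs_lt_one_iff.1 h6
    subst h5
    have h7 : z.re * (z.re + 6) = 0 := by simp at h3; linarith
    exact h0 (Complex.ext ((mul_eq_zero.1 h7).resolve_right (by linarith)) (by simpa using h1))
  · have d1 : HasFDerivAt (cV ∘ psD) ((0 : ℂ →L[ℝ] ℂ).prod ((1 / 4 : ℝ) • ContinuousLinearMap.id ℝ ℂ))
        0 := by
      have e : cV ∘ psD = fun z : ℂ => ((1 : ℂ), (3 / 4 : ℂ) + (1 / 4 : ℝ) • z) := by
        funext z
        simp only [cV, psD, Function.comp, Circle.coe_one, Complex.real_smul]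
        congr 1
        push_cast
        ring
      rw [e]
      exact (hasFDerivAt_const _ _).prodMk
        (((hasFDerivAt_id (0 : ℂ)).const_smul (1 / 4 : ℝ)).const_add (3 / 4 : ℂ))
    have d0 : HasDerivAt (fun t : ℝ => 2 * π * t) (2 * π) 0 := by
      simpa using (hasDerivAt_id (0 : ℝ)).const_mul (2 * π)
    have d2 := (((d0.sin.const_mul (2 / 5)).const_mul (2 * π)).ofReal_comp.mul_const
      Complex.I).cexp
    have d3 := (((d0.cos.const_mul (3 / 2)).ofReal_comp).add_const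
      (((0 : ℝ) : ℂ) * Complex.I)).div_const 2
    refine ⟨_, _, d1, d2.prodMk d3, fun z a h => ?_⟩
    rw [Prod.ext_iff] at h
    simp [hp.ne'] at h
    exact ⟨h.2, h.1⟩

theorem ps_lV_notB (θ : Circle) : (θ, (1 : ℂ)) ∉ range (psJ ∘ psBt) := by
  rintro ⟨t, ht⟩
  have h := congrArg (fun q : Circle × ℂ => q.2.re) ht
  simp [psJ, psBt] at h
  have := cos_le_one (2 * π * t)
  rw [← Complex.ofReal_ofNat, ← Complex.ofReal_mul, ← Complex.ofReal_mul,
    Complex.cos_ofReal_re] at h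
  linarith

end Pool.Agent.MP_b8a826_gt

end

-- part MP_b8a826_gt.PSide2
section

/-! The spiral pattern is unknotted in the sphere. -/

namespace Pool.Agent.MP_b8a826_gt
open Set Real Topology

theorem ps_norm_sq (a b : ℂ) : ‖(!₂[a, b] : E4)‖ ^ 2 = ‖a‖ ^ 2 + ‖b‖ ^ 2 := by
  rw [EuclideanSpace.norm_sq_eq]
  simp [Fin.sum_univ_two]

theorem ps_mem_sphere {a b : ℂ} (h : ‖a‖ ^ 2 + ‖b‖ ^ 2 = 1) :
    (!₂[a, b] : E4) ∈ Metric.sphere (0 : E4) 1 := by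
  rw [mem_sphere_zero_iff_norm, ← sq_eq_sq₀ (norm_nonneg _) zero_le_one, ps_norm_sq, h, one_pow]

theorem ps_sphere_eq (y : S3) : ‖y.1 0‖ ^ 2 + ((y.1 1).re ^ 2 + (y.1 1).im ^ 2) = 1 := by
  have h := mem_sphere_zero_iff_norm.1 y.2
  have h2 := EuclideanSpace.norm_sq_eq y.1
  rw [h, Fin.sum_univ_two, Complex.sq_norm (y.1 1), Complex.normSq_apply] at h2
  linarith

/-- Inverse stereographic projection. -/
noncomputable def psI (p : ℂ × ℝ) : S3 :=
  ⟨!₂[2 * p.1 / ((‖p.1‖ ^ 2 + p.2 ^ 2 + 1 : ℝ) : ℂ),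
      (((‖p.1‖ ^ 2 + p.2 ^ 2 - 1 : ℝ) : ℂ) + 2 * p.2 * Complex.I) /
        ((‖p.1‖ ^ 2 + p.2 ^ 2 + 1 : ℝ) : ℂ)], ps_mem_sphere (by
    have h : 0 < ‖p.1‖ ^ 2 + p.2 ^ 2 + 1 := by positivity
    rw [norm_div, norm_div, Complex.norm_real, Real.norm_of_nonneg h.le, div_pow, div_pow,
      Complex.sq_norm (_ + _), Complex.normSq_apply, norm_mul]
    simp only [Complex.add_re, Complex.ofReal_re, Complex.mul_re, Complex.re_ofNat,
      Complex.im_ofNat, Complex.ofReal_im, Complex.I_re, Complex.I_im, Complex.mul_im,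
      Complex.add_im, Complex.norm_ofNat]
    field_simp
    ring)⟩

/-- Stereographic projection. -/
noncomputable def psS (y : E4) : ℂ × ℝ :=
  (y 0 / ((1 - (y 1).re : ℝ) : ℂ), (y 1).im / (1 - (y 1).re))

/-- The centre of the projection. -/
noncomputable def psN : S3 := ⟨!₂[0, 1], ps_mem_sphere (by simp)⟩

theorem psI_val (p : ℂ × ℝ) : (psI p).1 0 = 2 * p.1 / ((‖p.1‖ ^ 2 + p.2 ^ 2 + 1 : ℝ) : ℂ) ∧
    ((psI p).1 1).re = (‖p.1‖ ^ 2 + p.2 ^ 2 - 1) / (‖p.1‖ ^ 2 + p.2 ^ 2 + 1) ∧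
    ((psI p).1 1).im = 2 * p.2 / (‖p.1‖ ^ 2 + p.2 ^ 2 + 1) := by
  refine ⟨rfl, ?_, ?_⟩
  · change (_ / _ : ℂ).re = _
    rw [Complex.div_ofReal_re]
    simp only [Complex.add_re, Complex.ofReal_re, Complex.mul_re, Complex.re_ofNat,
      Complex.im_ofNat, Complex.ofReal_im, Complex.I_re, Complex.I_im, Complex.mul_im]
    ring
  · change (_ / _ : ℂ).im = _
    rw [Complex.div_ofReal_im]
    simp only [Complex.add_im, Complex.ofReal_re, Complex.mul_re, Complex.re_ofNat,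
      Complex.im_ofNat, Complex.ofReal_im, Complex.I_re, Complex.I_im, Complex.mul_im]
    ring

theorem psS_psI (p : ℂ × ℝ) : psS (psI p).1 = p ∧ ((psI p).1 1).re ≠ 1 := by
  obtain ⟨h1, h2, h3⟩ := psI_val p
  have h : 0 < ‖p.1‖ ^ 2 + p.2 ^ 2 + 1 := by positivity
  have e : 1 - ((psI p).1 1).re = 2 / (‖p.1‖ ^ 2 + p.2 ^ 2 + 1) := by
    rw [h2]; field_simp; ring
  refine ⟨?_, fun h4 => ?_⟩
  · rw [psS, e, h1, h3]
    have h' : ((‖p.1‖ ^ 2 + p.2 ^ 2 + 1 : ℝ) : ℂ) ≠ 0 := Complex.ofReal_ne_zero.2 h.ne'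
    refine Prod.ext ?_ ?_
    · simp only [Complex.ofReal_div]
      field_simp
      simp [mul_comm]
    · simp only
      field_simp
  · rw [h4, sub_self] at e
    exact (div_pos two_pos h).ne e

theorem psI_psS {y : S3} (hy : (y.1 1).re ≠ 1) : psI (psS y.1) = y := by
  have h0 := ps_sphere_eq y
  have h1 : 1 - (y.1 1).re ≠ 0 := sub_ne_zero.2 hy.symm
  have e : ‖(psS y.1).1‖ ^ 2 + (psS y.1).2 ^ 2 + 1 = 2 / (1 - (y.1 1).re) := by
    simp only [psS, norm_div, Complex.norm_real, Real.norm_eq_abs, div_pow, sq_abs]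
    field_simp
    linarith
  obtain ⟨h2, h3, h4⟩ := psI_val (psS y.1)
  have e' : ‖(psS y.1).1‖ ^ 2 + (psS y.1).2 ^ 2 - 1 = 2 / (1 - (y.1 1).re) - 2 := by linarith
  rw [e] at h2 h4
  rw [e, e'] at h3
  have h' : ((1 - (y.1 1).re : ℝ) : ℂ) ≠ 0 := Complex.ofReal_ne_zero.2 h1
  refine Subtype.ext (PiLp.ext (Fin.forall_fin_two.2 ⟨?_, Complex.ext ?_ ?_⟩))
  · rw [h2]
    simp only [psS, Complex.ofReal_div]
    field_simp
    simp [mul_comm]
  · rw [h3]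
    field_simp
    ring
  · rw [h4]
    simp only [psS]
    field_simp

theorem ps_eq_N {y : S3} (hy : (y.1 1).re = 1) : y = psN := by
  have h0 := ps_sphere_eq y
  rw [hy] at h0
  have h1 : ‖y.1 0‖ ^ 2 = 0 := by nlinarith [sq_nonneg ‖y.1 0‖, sq_nonneg (y.1 1).im]
  have h2 : (y.1 1).im ^ 2 = 0 := by nlinarith [sq_nonneg ‖y.1 0‖, sq_nonneg (y.1 1).im]
  refine Subtype.ext (PiLp.ext (Fin.forall_fin_two.2 ⟨?_, Complex.ext hy ?_⟩))
  · simpa [psN] using h1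
  · simpa [psN] using h2

theorem psI_cont : Continuous psI := by
  refine Continuous.subtype_mk ?_ _
  have h : ∀ p : ℂ × ℝ, ((‖p.1‖ ^ 2 + p.2 ^ 2 + 1 : ℝ) : ℂ) ≠ 0 := fun p =>
    Complex.ofReal_ne_zero.2 (by positivity)
  refine (PiLp.continuous_toLp 2 _).comp (continuous_pi (Fin.forall_fin_two.2 ⟨?_, ?_⟩))
  · exact Continuous.div (by fun_prop) (by fun_prop) h
  · exact Continuous.div (by fun_prop) (by fun_prop) h

theorem psI_range : range psI = {psN}ᶜ := by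
  ext y
  constructor
  · rintro ⟨p, rfl⟩ h
    exact (psS_psI p).2 (by rw [mem_singleton_iff.1 h]; simp [psN])
  · exact fun h => ⟨_, psI_psS fun h' => h (ps_eq_N h')⟩

theorem psI_emb : IsEmbedding psI := by
  have h : Continuous fun y : range psI => psS y.1.1 := by
    have h0 : ∀ y : range psI, 1 - (y.1.1 1).re ≠ 0 := by
      rintro ⟨_, p, rfl⟩
      exact sub_ne_zero.2 (psS_psI p).2.symm
    refine Continuous.prodMk (Continuous.div (by fun_prop) (by fun_prop) fun y => ?_)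
      (Continuous.div (by fun_prop) (by fun_prop) h0)
    exact Complex.ofReal_ne_zero.2 (h0 y)
  exact IsEmbedding.subtypeVal.comp (IsEmbedding.of_leftInverse (f := fun y : range psI => psS y.1.1)
    (g := rangeFactorization psI) (fun p => (psS_psI p).1) h psI_cont.rangeFactorization)

theorem ps_extend (g : ℂ × ℝ ≃ₜ ℂ × ℝ) :
    ∃ h : S3 ≃ₜ S3, h psN = psN ∧ ∀ p, h (psI p) = psI (g p) := by
  let e₁ := OnePoint.equivOfIsEmbeddingOfRangeEq psN psI psI_emb psI_range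
  let e₂ := OnePoint.equivOfIsEmbeddingOfRangeEq psN (psI ∘ g) (psI_emb.comp g.isEmbedding)
    (by rw [g.surjective.range_comp, psI_range])
  refine ⟨e₁.symm.trans e₂, ?_, fun p => ?_⟩
  · exact congrArg e₂ (e₁.symm_apply_apply OnePoint.infty)
  · exact congrArg e₂ (e₁.symm_apply_apply p)

/-- Rescaling of the height. -/
noncomputable def psG1 : ℂ × ℝ ≃ₜ ℂ × ℝ where
  toFun p := (p.1, 2 * p.2 / max (1 / 2) (min ‖p.1‖ 2))
  invFun p := (p.1, p.2 * max (1 / 2) (min ‖p.1‖ 2) / 2)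
  left_inv p := by
    have : 0 < max (1 / 2) (min ‖p.1‖ 2) := lt_max_of_lt_left (by norm_num)
    refine Prod.ext rfl ?_
    simp only
    field_simp
  right_inv p := by
    have : 0 < max (1 / 2) (min ‖p.1‖ 2) := lt_max_of_lt_left (by norm_num)
    refine Prod.ext rfl ?_
    simp only
    field_simp
  continuous_toFun := Continuous.prodMk continuous_fst (Continuous.div (by fun_prop) (by fun_prop)
    fun p => (lt_max_of_lt_left (by norm_num)).ne')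
  continuous_invFun := by fun_prop

noncomputable def psR (x : ℝ) : ℝ := √(1 + x ^ 2 * (1 + psY x ^ 2) / 4)
noncomputable def psU (x : ℝ) : ℝ := x * cos (2 * π * psY x) - psY x * sin (2 * π * psY x)
noncomputable def psV (x : ℝ) : ℝ := cos (2 * π * psY x) + 2 * π * x * sinc (2 * π * psY x)
/-- Centre of the two points at height `x`. -/
noncomputable def psCe (x : ℝ) : ℂ :=
  ((psR x * psU x : ℝ) + (x / 2 * psY x ^ 2 * psV x : ℝ) * Complex.I) / ((1 + x ^ 2 / 4 : ℝ) : ℂ)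
/-- Direction of the two points at height `x`. -/
noncomputable def psM (x : ℝ) : ℂ :=
  ((x / 2 * psU x : ℝ) + (psR x * psV x : ℝ) * Complex.I) / ((1 + x ^ 2 / 4 : ℝ) : ℂ)

theorem ps_sinc (y : ℝ) : y * sinc y = sin y := by
  rcases eq_or_ne y 0 with rfl | h
  · simp
  · rw [sinc_of_ne_zero h]; field_simp

theorem psV_mul (x : ℝ) :
    psY x * psV x = psY x * cos (2 * π * psY x) + x * sin (2 * π * psY x) := by
  rw [← ps_sinc (2 * π * psY x), psV]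
  ring

theorem psR_pos (x : ℝ) : 0 < psR x := sqrt_pos.2 (by positivity)

theorem psM_ne (x : ℝ) : psM x ≠ 0 := fun h => by
  have h0 : ((1 + x ^ 2 / 4 : ℝ) : ℂ) ≠ 0 := Complex.ofReal_ne_zero.2 (by positivity)
  have h1 := (div_eq_zero_iff.1 h).resolve_right h0
  have h2 := congrArg Complex.re h1
  have h3 := congrArg Complex.im h1
  simp only [Complex.add_re, Complex.ofReal_re, Complex.mul_re, Complex.ofReal_im, Complex.I_re,
    Complex.I_im, Complex.add_im, Complex.mul_im, Complex.zero_re, Complex.zero_im] at h2 h3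
  have h4 : psV x = 0 := (mul_eq_zero.1 (by linarith)).resolve_left (psR_pos x).ne'
  have h5 : x = 0 := by
    by_contra hx
    have h6 : psU x = 0 := (mul_eq_zero.1 (by linarith)).resolve_left (div_ne_zero hx two_ne_zero)
    have h7 := psV_mul x
    rw [h4] at h7
    rw [psU] at h6
    have h8 := sin_sq_add_cos_sq (2 * π * psY x)
    have h9 : x * (sin (2 * π * psY x) ^ 2 + cos (2 * π * psY x) ^ 2) = 0 := by
      linear_combination cos (2 * π * psY x) * h6 - sin (2 * π * psY x) * h7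
    rw [h8, mul_one] at h9
    exact hx h9
  subst h5
  simp [psV, psY] at h4

theorem psM_cont : Continuous psM ∧ Continuous psCe := by
  have h0 : ∀ x : ℝ, ((1 + x ^ 2 / 4 : ℝ) : ℂ) ≠ 0 := fun x =>
    Complex.ofReal_ne_zero.2 (by positivity)
  have h1 : Continuous psR := by unfold psR; fun_prop
  have h2 : Continuous psU := by unfold psU; fun_prop
  have h3 : Continuous psV := by
    have := continuous_sinc
    unfold psV; fun_prop
  exact ⟨Continuous.div (by fun_prop) (by fun_prop) h0, Continuous.div (by fun_prop) (by fun_prop) h0⟩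

/-- The level-preserving straightening. -/
noncomputable def psG2 : ℂ × ℝ ≃ₜ ℂ × ℝ where
  toFun p := ((p.1 - psCe p.2) / psM p.2, p.2)
  invFun p := (p.1 * psM p.2 + psCe p.2, p.2)
  left_inv p := by simp [psM_ne]
  right_inv p := by simp [psM_ne]
  continuous_toFun := by
    obtain ⟨h1, h2⟩ := psM_cont
    exact Continuous.prodMk (Continuous.div (by fun_prop) (by fun_prop) fun p => psM_ne _)
      continuous_snd
  continuous_invFun := by
    obtain ⟨h1, h2⟩ := psM_cont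
    fun_prop

/-- A permutation of the coordinates. -/
noncomputable def psG3 : ℂ × ℝ ≃ₜ ℂ × ℝ where
  toFun p := (p.2 + p.1.re * Complex.I, p.1.im)
  invFun p := (p.1.im + p.2 * Complex.I, p.1.re)
  left_inv p := by simp
  right_inv p := by simp
  continuous_toFun := by fun_prop
  continuous_invFun := by fun_prop

theorem ps_std_mem (q : Circle × ℂ) : std q ∈ Metric.sphere (0 : E4) 1 := by
  have h : 0 < √(1 + ‖q.2‖ ^ 2) := sqrt_pos.2 (by positivity)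
  rw [mem_sphere_zero_iff_norm, std, norm_smul, norm_inv, Real.norm_of_nonneg h.le,
    ← sqrt_sq (norm_nonneg (!₂[(q.1 : ℂ), q.2] : E4)), ps_norm_sq, Circle.norm_coe, one_pow]
  exact inv_mul_cancel₀ h.ne'

theorem ps_image (z : Circle) : (std (psP z) 1).re ≠ 1 ∧
    psG3 (psG2 (psG1 (psS (std (psP z))))) = ((z : ℂ), 0) := by
  have hp := pi_pos
  have hn := psP_normSq z
  have h1 := ps_re_im z
  have e0 : std (psP z) 0 = ((√(1 + ‖(psP z).2‖ ^ 2))⁻¹ : ℝ) * ((psP z).1 : ℂ) := rfl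
  have e1 : std (psP z) 1 = ((√(1 + ‖(psP z).2‖ ^ 2))⁻¹ : ℝ) * (psP z).2 := rfl
  have e2 : ((psP z).1 : ℂ) = z * Complex.exp ((2 * π * (z : ℂ).im : ℝ) * Complex.I) := by
    rw [psP_apply]; rfl
  have e3 : (psP z).2.re = (z : ℂ).re * (z : ℂ).im / 2 := by rw [psP_apply]; simp
  have e4 : (psP z).2.im = (z : ℂ).re / 2 := by rw [psP_apply]; simp
  have hz := (Complex.re_add_im z).symm
  have hz1 := Circle.norm_coe (psP z).1
  generalize (z : ℂ).re = x at *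
  generalize (z : ℂ).im = y at *
  have hx : |x| ≤ 1 := abs_le_of_sq_le_sq' (by nlinarith) zero_le_one |> abs_le.2
  have hY := psY_sq hx
  have hy : y ^ 2 = psY x ^ 2 := by linarith
  have hR : √(1 + ‖(psP z).2‖ ^ 2) = psR x := by rw [hn, hy]; rfl
  have hR0 := psR_pos x
  have hR2 : psR x ^ 2 = 1 + x ^ 2 * (1 + y ^ 2) / 4 := by
    rw [hy]; exact sq_sqrt (by positivity)
  have hR1 : 1 ≤ psR x := by nlinarith [sq_nonneg x, sq_nonneg y, sq_nonneg (x * y)]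
  have hR3 : psR x ≤ 3 / 2 := by nlinarith [sq_nonneg x, sq_nonneg y, sq_nonneg (x ^ 2 - 1)]
  have b1 : x * y / 2 ≤ 1 / 4 := by nlinarith [sq_nonneg (x - y)]
  have b2 : -(1 / 4) ≤ x * y / 2 := by nlinarith [sq_nonneg (x + y)]
  have hd : 0 < psR x - x * y / 2 := by linarith
  rw [hR] at e0 e1
  have r1 : (std (psP z) 1).re = (psR x)⁻¹ * (x * y / 2) := by
    rw [e1, Complex.re_ofReal_mul, e3]
  have r2 : (std (psP z) 1).im = (psR x)⁻¹ * (x / 2) := by rw [e1, Complex.im_ofReal_mul, e4]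
  have r3 : 1 - (std (psP z) 1).re = (psR x)⁻¹ * (psR x - x * y / 2) := by
    rw [r1]; field_simp
  refine ⟨fun h => ?_, ?_⟩
  · rw [h, sub_self] at r3
    exact (mul_pos (inv_pos.2 hR0) hd).ne r3
  have hc : ((psR x : ℝ) : ℂ) ≠ 0 := Complex.ofReal_ne_zero.2 hR0.ne'
  have hc' : ((psR x - x * y / 2 : ℝ) : ℂ) ≠ 0 := Complex.ofReal_ne_zero.2 hd.ne'
  have s1 : psS (std (psP z)) = (((psP z).1 : ℂ) / ((psR x - x * y / 2 : ℝ) : ℂ),
      x / 2 / (psR x - x * y / 2)) := by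
    rw [psS, r3, r2, e0, Complex.ofReal_mul, mul_div_mul_left _ _ (by simpa using hc),
      mul_div_mul_left _ _ (inv_ne_zero hR0.ne')]
  have s2 : psG1 (psS (std (psP z))) = (((psP z).1 : ℂ) / ((psR x - x * y / 2 : ℝ) : ℂ), x) := by
    rw [s1]
    change (_, 2 * _ / max _ (min ‖_ / _‖ _)) = _
    rw [norm_div, hz1, Complex.norm_real, Real.norm_of_nonneg hd.le,
      min_eq_left ((div_le_iff₀ hd).2 (by linarith)),
      max_eq_right ((le_div_iff₀ hd).2 (by linarith))]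
    congr 1
    rw [div_div_eq_mul_div, div_one, mul_assoc, div_mul_cancel₀ _ hd.ne']
    ring
  have s3 : ((psP z).1 : ℂ) / ((psR x - x * y / 2 : ℝ) : ℂ) = y * psM x + psCe x := by
    have h0 : ((1 + x ^ 2 / 4 : ℝ) : ℂ) ≠ 0 := Complex.ofReal_ne_zero.2 (by positivity)
    have h2 : ((psP z).1 : ℂ) = (psU x : ℝ) + (y * psV x : ℝ) * Complex.I := by
      have h3 := psV_mul x
      rw [e2, hz]
      refine Complex.ext ?_ ?_
      · simp only [Complex.add_re, Complex.ofReal_re, Complex.mul_re, Complex.ofReal_im,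
          Complex.I_re, Complex.I_im, Complex.add_im, Complex.mul_im,
          Complex.exp_ofReal_mul_I_re, Complex.exp_ofReal_mul_I_im, psU]
        rcases sq_eq_sq_iff_eq_or_eq_neg.1 hy with h | h <;> rw [h] <;> simp
      · simp only [Complex.add_re, Complex.ofReal_re, Complex.mul_re, Complex.ofReal_im,
          Complex.I_re, Complex.I_im, Complex.add_im, Complex.mul_im,
          Complex.exp_ofReal_mul_I_re, Complex.exp_ofReal_mul_I_im]
        rcases sq_eq_sq_iff_eq_or_eq_neg.1 hy with h | h <;> rw [h] <;> simp [h3] <;> ring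
    have h4 : ((1 + x ^ 2 / 4 : ℝ) : ℂ) =
        ((psR x - x * y / 2 : ℝ) : ℂ) * ((psR x + x * y / 2 : ℝ) : ℂ) := by
      rw [← Complex.ofReal_mul]
      congr 1
      linear_combination -hR2
    rw [psM, psCe, ← hy, h2, ← mul_div_assoc, ← add_div, div_eq_div_iff hc' h0, h4]
    push_cast
    ring
  rw [s2, s3]
  change psG3 ((_ - _) / _, x) = _
  rw [add_sub_cancel_right, mul_div_cancel_right₀ _ (psM_ne x), hz]
  change ((x : ℂ) + ((y : ℂ).re : ℝ) * Complex.I, (y : ℂ).im) = _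
  simp

theorem psP_unknotted : Unknotted psP := by
  obtain ⟨h, hN, hI⟩ := ps_extend (psG1.trans (psG2.trans psG3))
  have key : ∀ z : Circle, h ⟨std (psP z), ps_std_mem _⟩ = psI (z, 0) := fun z => by
    rw [← psI_psS (y := ⟨std (psP z), ps_std_mem _⟩) (ps_image z).1, hI]
    exact congrArg psI (ps_image z).2
  refine ⟨h, fun y => ⟨?_, fun hy => ?_⟩⟩
  · rintro ⟨z, hz⟩
    obtain rfl : y = ⟨std (psP z), ps_std_mem _⟩ := Subtype.ext hz
    obtain ⟨-, h2, h3⟩ := psI_val ((z : ℂ), 0)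
    rw [key]
    exact Complex.ext (by simpa using h2) (by simpa using h3)
  · have h1 : psI (psS (h y).1) = h y := psI_psS (by rw [hy]; simp)
    have h2 := ps_sphere_eq (h y)
    rw [hy] at h2
    have h3 : ‖(h y).1 0‖ = 1 := by
      rw [← sq_eq_sq₀ (norm_nonneg _) zero_le_one]; simpa using h2
    refine ⟨⟨(h y).1 0, mem_sphere_zero_iff_norm.2 h3⟩, ?_⟩
    have h4 := key ⟨(h y).1 0, mem_sphere_zero_iff_norm.2 h3⟩
    have h5 : psS (h y).1 = ((h y).1 0, 0) := by simp [psS, hy]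
    rw [h5] at h1
    exact congrArg Subtype.val (h.injective (h1.symm.trans h4.symm))

end Pool.Agent.MP_b8a826_gt

end

-- part MP_b8a826_gt.PSide3
section

/-! Layers of the complement of the spiral pattern and the transition elements. -/

namespace Pool.Agent.MP_b8a826_gt
open Set Real Filter Topology

variable {G : Type} [Group G]

/-- Points joined to the plane piece `S × {c}` by a segment in the depth direction missing `O`. -/
def psW (O : Set R3) (S : Set (ℝ × ℝ)) (c : ℝ) : Set R3 :=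
  {p | (p.1, p.2.2) ∈ S ∧ ∀ r ∈ uIcc p.2.1 c, (p.1, r, p.2.2) ∉ O}

section Layer
variable {O : Set R3} {S : Set (ℝ × ℝ)} {c : ℝ}

theorem psW_sub : psW O S c ⊆ Oᶜ := fun _ hp => hp.2 _ left_mem_uIcc

theorem psW_vert {p : R3} (hp : p ∈ psW O S c) {r : ℝ} (hr : r ∈ uIcc p.2.1 c) :
    (p.1, r, p.2.2) ∈ psW O S c := ⟨hp.1, fun r' hr' => hp.2 r' (uIcc_subset_uIcc_right hr hr')⟩

theorem psW_plane (hc : ∀ q ∈ S, (q.1, c, q.2) ∉ O) {q : ℝ × ℝ} (hq : q ∈ S) :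
    (q.1, c, q.2) ∈ psW O S c := ⟨hq, fun r hr => by
  rw [uIcc_self, mem_singleton_iff] at hr
  exact hr ▸ hc q hq⟩

theorem ps_mem_uIcc (a b : ℝ) {s : ℝ} (hs : s ∈ Icc (0 : ℝ) 1) : (1 - s) * b + s * a ∈ uIcc a b := by
  rw [← segment_eq_uIcc]
  exact ⟨s, 1 - s, hs.1, sub_nonneg.2 hs.2, by ring, by simp only [smul_eq_mul]; ring⟩

theorem psW_joined (hS : Convex ℝ S) (hc : ∀ q ∈ S, (q.1, c, q.2) ∉ O) {p q : R3}
    (hp : p ∈ psW O S c) (hq : q ∈ psW O S c) : JoinedIn (psW O S c) p q := by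
  have h1 : ∀ p ∈ psW O S c, JoinedIn (psW O S c) (p.1, c, p.2.2) p := fun p hp =>
    JoinedIn.ofLine (f := fun s : ℝ => (p.1, (1 - s) * c + s * p.2.1, p.2.2)) (by fun_prop)
      (by simp) (by simp) (by
        rintro _ ⟨s, hs, rfl⟩
        exact psW_vert hp (ps_mem_uIcc _ _ hs))
  refine ((h1 p hp).symm.trans ?_).trans (h1 q hq)
  refine JoinedIn.ofLine (f := fun s : ℝ => ((1 - s) * p.1 + s * q.1, c,
    (1 - s) * p.2.2 + s * q.2.2)) (by fun_prop) (by simp) (by simp) ?_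
  rintro _ ⟨s, hs, rfl⟩
  exact psW_plane hc (hS hp.1 hq.1 (sub_nonneg.2 hs.2) hs.1 (by ring))

theorem psW_conn (hS : Convex ℝ S) (hc : ∀ q ∈ S, (q.1, c, q.2) ∉ O) :
    IsPreconnected (psW O S c) :=
  isPreconnected_of_forall_pair fun _ hp _ hq => by
    obtain ⟨γ, hγ⟩ := psW_joined hS hc hp hq
    exact ⟨range γ, range_subset_iff.2 hγ, γ.source_mem_range, γ.target_mem_range,
      isPreconnected_range γ.continuous⟩

theorem psW_triv {φ : R3 → R3 → G} (hφ : Fl φ Oᶜ) (hS : Convex ℝ S)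
    (hc : ∀ q ∈ S, (q.1, c, q.2) ∉ O) (p₀ : R3) (g : G) :
    ∃ B, Triv φ (psW O S c) B ∧ B p₀ = g := by
  obtain ⟨B₀, h0⟩ := exists_triv_convex (hφ.pb (f := fun q : ℝ × ℝ => (q.1, c, q.2))
    (by fun_prop) hc) hS
  have h1 := h0.pb (f := fun p : R3 => (p.1, p.2.2)) (D' := psW O S c) (by fun_prop)
    fun p hp => hp.1
  obtain ⟨B, hB⟩ := triv_of_homotopy hφ (D := psW O S c)
    (H := fun q : ℝ × R3 => (q.2.1, (1 - q.1) * c + q.1 * q.2.2.1, q.2.2.2)) (by fun_prop)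
    (fun q hq => hq.2.2 _ (ps_mem_uIcc _ _ hq.1)) (B₀ := B₀ ∘ fun p : R3 => (p.1, p.2.2))
    (by simp only [sub_zero, one_mul, zero_mul, add_zero]; exact h1)
  simp only [sub_self, zero_mul, one_mul, zero_add, Prod.mk.eta] at hB
  exact ⟨_, Triv.mul hB (g * (B p₀)⁻¹), by simp⟩

end Layer

/-- Transition elements are constant along arcs. -/
theorem ps_const {φ : R3 → R3 → G} {D D' : Set R3} {B B' : R3 → G} (h : Triv φ D B)
    (h' : Triv φ D' B') {c : ℝ → R3} (hc : Continuous c) {a b : ℝ}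
    (hm : ∀ t ∈ uIcc a b, c t ∈ D ∧ c t ∈ D') :
    B (c a) * (B' (c a))⁻¹ = B (c b) * (B' (c b))⁻¹ :=
  (h.mono (D' := c '' uIcc a b) (image_subset_iff.2 fun t ht => (hm t ht).1)).uniq
    (h'.mono (image_subset_iff.2 fun t ht => (hm t ht).2))
    (isPreconnected_uIcc.image c hc.continuousOn) ⟨a, left_mem_uIcc, rfl⟩ ⟨b, right_mem_uIcc, rfl⟩

/-- Deck translations. -/
def psSh (k : ℤ) (p : R3) : R3 := (p.1 + k, p.2)

theorem psJ_sh (k : ℤ) (p : R3) : psJ (psSh k p) = psJ p := psJ_eq.2 ⟨⟨k, rfl⟩, rfl⟩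

variable {K : Set (Circle × ℂ)} {ψ : Circle × ℂ → Circle × ℂ → G}

theorem psW_sh {J : Set ℝ} {c : ℝ} (k : ℤ) {p : R3} (hp : p ∈ psW (psJ ⁻¹' K) (univ ×ˢ J) c) :
    psSh k p ∈ psW (psJ ⁻¹' K) (univ ×ˢ J) c :=
  ⟨⟨trivial, hp.1.2⟩, fun r hr h => hp.2 r hr (by
    rw [mem_preimage, ← psJ_sh k]
    exact h)⟩

theorem ps_shift {D : Set R3} (hD : IsPreconnected D) (hs : ∀ k, ∀ p ∈ D, psSh k p ∈ D)
    {B : R3 → G} (hB : Triv (pb psJ ψ) D B) :
    ∃ L : G, ∀ k : ℤ, ∀ p ∈ D, B (psSh k p) = L ^ k * B p := by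
  have h1 : ∃ L : G, ∀ p ∈ D, B (psSh 1 p) = L * B p := by
    rcases D.eq_empty_or_nonempty with rfl | ⟨q, hq⟩
    · exact ⟨1, fun p hp => hp.elim⟩
    have h2 := hB.pb (f := psSh 1) (D' := D) (by unfold psSh; fun_prop) (hs 1)
    have e : pb (psSh 1) (pb psJ ψ) = pb psJ ψ := by
      funext p q
      simp only [pb, psJ_sh]
    rw [e] at h2
    exact ⟨B (psSh 1 q) * (B q)⁻¹, fun p hp =>
      (eq_mul_inv_iff_mul_eq.1 (h2.uniq hB hD hq hp)).symm⟩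
  obtain ⟨L, hL⟩ := h1
  have e : ∀ (k : ℤ) (p : R3), psSh (k + 1) p = psSh 1 (psSh k p) := fun k p => by
    simp [psSh, add_assoc]
  refine ⟨L, fun k p hp => ?_⟩
  induction k using Int.induction_on with
  | zero => simp [psSh]
  | succ i ih => rw [e, hL _ (hs _ p hp), ih]; group
  | pred i ih =>
    have h2 := hL _ (hs (-i - 1) p hp)
    rw [← e, sub_add_cancel, ih] at h2
    rw [← inv_mul_eq_iff_eq_mul.2 h2]; group

/-- The front (`s = 1`) and back (`s = -1`) layers. -/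
def psF (K : Set (Circle × ℂ)) (s : ℝ) : Set R3 := psW (psJ ⁻¹' K) (univ ×ˢ univ) (2 * s)

/-- The layers between the strands at positive (`τ = 1`) and negative (`τ = -1`) height. -/
def psMi (K : Set (Circle × ℂ)) (τ : ℝ) : Set R3 :=
  psW (psJ ⁻¹' K) (univ ×ˢ {x | τ * x ∈ Ioo 0 1}) 0

/-- The layers between the strands and the dual loop. -/
def psNe (K : Set (Circle × ℂ)) (s : ℝ) : Set R3 :=
  psW (psJ ⁻¹' K) (Icc (-(3 / 10)) (3 / 10) ×ˢ univ) (3 / 4 * s)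

/-- The gap number `k` between the strands of sign `σ` at heights of sign `τ`. -/
def psGap (σ τ : ℝ) (k : ℤ) : Set R3 :=
  {p | τ * p.2.2 ∈ Ioo 0 1 ∧ p.1 - σ * psTh p.2.2 - k ∈ Ioo 0 1 ∧ 0 ≤ σ * τ * p.2.1}

/-- The obstacle is contained in the pattern and the dual loop. -/
def PsK (K : Set (Circle × ℂ)) : Prop := ∀ p, psJ p ∈ K → InP p ∨ InB p

theorem PsK.bd (hK : PsK K) {p : R3} (h : psJ p ∈ K) : |p.2.1| ≤ 3 / 2 :=
  (hK p h).elim (fun h => h.bd.trans (by norm_num)) fun h => h.bd.2.1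

theorem PsK.memF (hK : PsK K) {s : ℝ} (hs : Sg s) {p : R3}
    (h : ∀ r, psJ (p.1, r, p.2.2) ∈ K → s * r < s * p.2.1) : p ∈ psF K s :=
  ⟨⟨trivial, trivial⟩, fun r hr hO => by
    have h1 := h r hO
    obtain ⟨h2, h3⟩ := abs_le.1 (hK.bd hO)
    rcases hs with rfl | rfl <;> rcases mem_uIcc.1 hr with h4 | h4 <;> simp only at h2 h3 <;>
      linarith [h4.1, h4.2]⟩

theorem PsK.memMi (hK : PsK K) {τ : ℝ} {p : R3} (h0 : τ * p.2.2 ∈ Ioo 0 1)
    (h : ∀ r ∈ uIcc p.2.1 0, ¬ InP (p.1, r, p.2.2)) : p ∈ psMi K τ :=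
  ⟨⟨trivial, h0⟩, fun r hr hO => (hK _ hO).elim (h r hr) fun hB => by
    have h1 : p.2.2 = 0 := hB.1
    simp [h1] at h0⟩

theorem ps_rh_sign {τ x : ℝ} (hτ : Sg τ) (h : τ * x ∈ Ioo 0 1) : 0 < τ * psRh x := by
  have h1 : |x| < 1 := by
    rcases hτ with rfl | rfl <;> exact abs_lt.2 ⟨by linarith [h.1, h.2], by linarith [h.1, h.2]⟩
  rw [psRh, ← mul_assoc]
  exact mul_pos h.1 (psY_pos h1)

theorem ps_cvx (τ : ℝ) : Convex ℝ {x : ℝ | τ * x ∈ Ioo 0 1} :=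
  (convex_Ioo 0 1).is_linear_preimage (f := fun x => τ * x)
    ⟨mul_add τ, fun c x => by simp only [smul_eq_mul]; ring⟩

theorem PsK.planeF (hK : PsK K) {s : ℝ} (hs : Sg s) :
    ∀ q ∈ (univ ×ˢ univ : Set (ℝ × ℝ)), (q.1, 2 * s, q.2) ∉ psJ ⁻¹' K := fun q _ h => by
  obtain ⟨h2, h3⟩ := abs_le.1 (hK.bd h)
  rcases hs with rfl | rfl <;> simp only at h2 h3 <;> linarith

theorem PsK.planeMi (hK : PsK K) {τ : ℝ} (hτ : Sg τ) :
    ∀ q ∈ (univ ×ˢ {x | τ * x ∈ Ioo 0 1} : Set (ℝ × ℝ)), (q.1, 0, q.2) ∉ psJ ⁻¹' K := by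
  intro q hq h
  have h1 := ps_rh_sign hτ hq.2
  rcases hK _ h with ⟨-, σ, k, hσ, -, h2⟩ | hB
  · have h3 : psRh q.2 = 0 := by rcases hσ with rfl | rfl <;> simpa using h2.symm
    simp [h3] at h1
  · have h1 : q.2 = 0 := hB.1
    simp [h1] at hq

theorem ps_notB {θ r x : ℝ} (hθ : |θ| ≤ 3 / 10) (hr : |r| ≤ 3 / 4) : ¬ InB (θ, r, x) := fun h => by
  obtain ⟨-, -, k, h2, h3⟩ := h.bd
  obtain ⟨a1, a2⟩ := abs_le.1 hθ
  obtain ⟨a3, a4⟩ := abs_le.1 h2
  obtain ⟨a5, a6⟩ := abs_le.1 hr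
  simp only at a3 a4 h3
  have h5 : k = 0 := by
    have h6 : |k| < 1 := by exact_mod_cast (show |(k : ℝ)| < 1 from abs_lt.2 ⟨by linarith, by linarith⟩)
    exact Int.abs_lt_one_iff.1 h6
  subst h5
  simp only [Int.cast_zero, sub_zero] at h3
  nlinarith

theorem PsK.planeNe (hK : PsK K) {s : ℝ} (hs : Sg s) :
    ∀ q ∈ (Icc (-(3 / 10)) (3 / 10) ×ˢ univ : Set (ℝ × ℝ)), (q.1, 3 / 4 * s, q.2) ∉ psJ ⁻¹' K := by
  intro q hq h
  rcases hK _ h with hP | hB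
  · obtain ⟨h2, h3⟩ := abs_le.1 hP.bd
    rcases hs with rfl | rfl <;> simp only at h2 h3 <;> linarith
  · exact ps_notB (abs_le.2 hq.1) (by rcases hs with rfl | rfl <;> norm_num [abs_of_pos]) hB

theorem psGap_line {σ τ : ℝ} (hσ : Sg σ) (hτ : Sg τ) {k : ℤ} {p : R3} (hp : p ∈ psGap σ τ k)
    {r : ℝ} (h : InP (p.1, r, p.2.2)) : σ * τ * r < 0 := by
  obtain ⟨-, σ', j, hσ', h1, h2⟩ := h
  have h3 := ps_rh_sign hτ hp.1
  obtain ⟨h4, h5⟩ := hp.2.1
  simp only at h1 h2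
  have e : σ' = σ ∨ σ' = -σ := by
    rcases hσ with rfl | rfl <;> rcases hσ' with rfl | rfl <;> simp
  rcases e with rfl | rfl
  · exact (ps_noint (y := p.1 - σ' * psTh p.2.2) k j (by linarith) (by linarith)
      (by linarith)).elim
  · rw [h2]
    rcases hσ with rfl | rfl <;> linarith

theorem PsK.gap (hK : PsK K) {σ τ s : ℝ} (hσ : Sg σ) (hτ : Sg τ) (hs : s = σ * τ) {k : ℤ} {p : R3}
    (hp : p ∈ psGap σ τ k) : p ∈ psF K s ∧ p ∈ psMi K τ := by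
  subst hs
  have hs : Sg (σ * τ) := by
    rcases hσ with rfl | rfl <;> rcases hτ with rfl | rfl <;> simp [Sg]
  refine ⟨hK.memF hs fun r h => (hK _ h).elim (fun hP => ?_) fun hB => ?_,
    hK.memMi hp.1 fun r hr h => ?_⟩
  · linarith [psGap_line hσ hτ hp hP, hp.2.2]
  · have h1 : p.2.2 = 0 := hB.1
    have h2 := hp.1
    simp [h1] at h2
  · have h1 := psGap_line hσ hτ hp h
    have h2 := hp.2.2
    rcases hs with e | e <;> rw [e] at h1 h2 <;> rcases mem_uIcc.1 hr with h4 | h4 <;>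
      linarith [h4.1, h4.2]

theorem psGap_conn (σ τ : ℝ) (k : ℤ) : IsPreconnected (psGap σ τ k) := by
  have e : psGap σ τ k = (fun q : R3 => (q.1 + σ * psTh q.2.2 + k, q.2)) ''
      (Ioo 0 1 ×ˢ {r | 0 ≤ σ * τ * r} ×ˢ {x | τ * x ∈ Ioo 0 1}) := by
    ext p
    constructor
    · exact fun h => ⟨(p.1 - σ * psTh p.2.2 - k, p.2), ⟨h.2.1, h.2.2, h.1⟩, Prod.ext (by ring) rfl⟩
    · rintro ⟨q, ⟨h1, h2, h3⟩, rfl⟩
      exact ⟨h3, by convert h1 using 1; ring, h2⟩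
  rw [e]
  refine IsPreconnected.image (isPreconnected_Ioo.prod (IsPreconnected.prod ?_
    (ps_cvx τ).isPreconnected)) _ (by fun_prop)
  exact ((convex_Ici 0).is_linear_preimage (f := fun x => σ * τ * x)
    ⟨mul_add _, fun c x => by simp only [smul_eq_mul]; ring⟩).isPreconnected

theorem PsK.gap_val (hK : PsK K) {σ τ s : ℝ} (hσ : Sg σ) (hτ : Sg τ) (hs : s = σ * τ)
    {B B' : R3 → G} (hB : Triv (pb psJ ψ) (psF K s) B) (hB' : Triv (pb psJ ψ) (psMi K τ) B')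
    {L L' : G} (hL : ∀ k : ℤ, ∀ p ∈ psF K s, B (psSh k p) = L ^ k * B p)
    (hL' : ∀ k : ℤ, ∀ p ∈ psMi K τ, B' (psSh k p) = L' ^ k * B' p) {j : ℤ} {q : R3}
    (hq : q ∈ psGap σ τ j) (k : ℤ) {p : R3} (hp : p ∈ psGap σ τ (k + j)) :
    B p * (B' p)⁻¹ = L ^ k * (B q * (B' q)⁻¹) * L' ^ (-k) := by
  have h1 : psSh k q ∈ psGap σ τ (k + j) :=
    ⟨hq.1, by convert hq.2.1 using 1; simp only [psSh]; push_cast; ring, hq.2.2⟩
  rw [(hB.mono fun x hx => (hK.gap hσ hτ hs hx).1).uniq (hB'.mono fun x hx => (hK.gap hσ hτ hs hx).2)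
    (psGap_conn σ τ _) hp h1, hL k q (hK.gap hσ hτ hs hq).1, hL' k q (hK.gap hσ hτ hs hq).2]
  group

/-- The line of sight misses the obstacle. -/
def PsFree (K : Set (Circle × ℂ)) (θ x : ℝ) : Prop := ∀ r, psJ (θ, r, x) ∉ K

theorem PsFree.mem {θ x : ℝ} (h : PsFree K θ x) {S : Set (ℝ × ℝ)} (hS : (θ, x) ∈ S) (r c : ℝ) :
    (θ, r, x) ∈ psW (psJ ⁻¹' K) S c := ⟨hS, fun r' _ => h r'⟩

theorem PsFree.memF {θ x : ℝ} (h : PsFree K θ x) (r s : ℝ) : (θ, r, x) ∈ psF K s :=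
  h.mem (S := univ ×ˢ univ) ⟨trivial, trivial⟩ r _

theorem ps_notP {θ x : ℝ} (j j' : ℤ) (h1 : θ - psTh x - j ∈ Ioo 0 1) (h2 : θ + psTh x - j' ∈ Ioo 0 1)
    (r : ℝ) : ¬ InP (θ, r, x) := by
  rintro ⟨-, σ, k, rfl | rfl, h3, -⟩ <;> simp only at h3
  · exact ps_noint (y := θ - psTh x) j k (by linarith [h1.1]) (by linarith [h1.2]) (by linarith)
  · exact ps_noint (y := θ + psTh x) j' k (by linarith [h2.1]) (by linarith [h2.2]) (by linarith)

theorem PsK.free (hK : PsK K) {θ x : ℝ} (hx : x ≠ 0) (h : ∀ r, ¬ InP (θ, r, x)) : PsFree K θ x :=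
  fun r hO => (hK _ hO).elim (h r) fun hB => hx hB.1

theorem PsK.free_out (hK : PsK K) {θ x : ℝ} (hx : 1 < |x|) : PsFree K θ x :=
  hK.free (by rintro rfl; norm_num at hx) fun _ h => h.1.not_gt hx

theorem ps_delta : ∃ δ : ℝ, 0 < δ ∧ δ < 1 ∧ ∀ x, (|x - 1| ≤ δ → |psTh x| < 1 / 20) ∧
    (|x| ≤ δ → |psTh x - 5 / 4| < 1 / 20) ∧ (|x + 1| ≤ δ → |psTh x - 1 / 2| < 1 / 20) := by
  obtain ⟨t1, t2, t3⟩ := psTh_val
  obtain ⟨a, ha, h1⟩ := Metric.continuousAt_iff.1 (psTh_cont.continuousAt (x := 1)) (1 / 20)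
    (by norm_num)
  obtain ⟨b, hb, h2⟩ := Metric.continuousAt_iff.1 (psTh_cont.continuousAt (x := 0)) (1 / 20)
    (by norm_num)
  obtain ⟨c, hc, h3⟩ := Metric.continuousAt_iff.1 (psTh_cont.continuousAt (x := -1)) (1 / 20)
    (by norm_num)
  have m1 := min_le_left (min a b) (min c 1)
  have m2 := min_le_right (min a b) (min c 1)
  have m0 : 0 < min (min a b) (min c 1) := by positivity
  simp only [Real.dist_eq, t1, t2, t3, sub_zero, sub_neg_eq_add] at h1 h2 h3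
  refine ⟨min (min a b) (min c 1) / 2, by positivity, by linarith [min_le_right c 1], fun x =>
    ⟨fun h => h1 ?_, fun h => h2 ?_, fun h => h3 ?_⟩⟩
  · linarith [min_le_left a b]
  · linarith [min_le_right a b]
  · linarith [min_le_left c 1]

/-- Trivialisations of the four periodic layers and their transition elements. -/
structure PsD (ψ : Circle × ℂ → Circle × ℂ → G) (K : Set (Circle × ℂ)) (B0 B1 Bp Bm : R3 → G)
    (l n m T : G) : Prop where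
  t0 : Triv (pb psJ ψ) (psF K 1) B0
  t1 : Triv (pb psJ ψ) (psF K (-1)) B1
  tp : Triv (pb psJ ψ) (psMi K 1) Bp
  tm : Triv (pb psJ ψ) (psMi K (-1)) Bm
  base : B0 (0, 2, 0) = 1
  s0 : ∀ k : ℤ, ∀ p ∈ psF K 1, B0 (psSh k p) = l ^ k * B0 p
  s1 : ∀ k : ℤ, ∀ p ∈ psF K (-1), B1 (psSh k p) = l ^ k * B1 p
  g1 : ∀ k : ℤ, ∀ p ∈ psGap 1 1 k, B0 p * (Bp p)⁻¹ = l ^ k * n ^ (-k)
  g2 : ∀ k : ℤ, ∀ p ∈ psGap (-1) 1 k, B1 p * (Bp p)⁻¹ = l ^ k * n ^ (-k)
  g3 : ∀ k : ℤ, ∀ p ∈ psGap (-1) (-1) (k + 1), B0 p * (Bm p)⁻¹ = l ^ k * m ^ (-k)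
  g4 : ∀ k : ℤ, ∀ p ∈ psGap 1 (-1) k, B1 p * (Bm p)⁻¹ = l ^ k * T⁻¹ * m ^ (-k)
  top : ∀ θ x, 1 ≤ x → PsFree K θ x → B0 (θ, 0, x) = B1 (θ, 0, x)
  bot : ∀ θ x, x ≤ -1 → PsFree K θ x → B0 (θ, 0, x) * (B1 (θ, 0, x))⁻¹ = T
  comm : l * T = T * l

theorem ps_fl (hψ : Fl ψ Kᶜ) : Fl (pb psJ ψ) (psJ ⁻¹' K)ᶜ :=
  hψ.pb psJ_cont.continuousOn fun _ h => h

theorem PsK.outer (hK : PsK K) {B0 B1 : R3 → G} (t0 : Triv (pb psJ ψ) (psF K 1) B0)
    (t1 : Triv (pb psJ ψ) (psF K (-1)) B1) {τ : ℝ} (hτ : Sg τ) {θ x : ℝ}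
    (h : ∀ t ∈ uIcc x (2 * τ), |t| ≤ 1 → PsFree K θ t) :
    B0 (θ, 0, x) * (B1 (θ, 0, x))⁻¹ = B0 (0, 0, 2 * τ) * (B1 (0, 0, 2 * τ))⁻¹ := by
  have h2 : 1 < |2 * τ| := by rcases hτ with rfl | rfl <;> norm_num
  refine (ps_const t0 t1 (c := fun t => (θ, 0, t)) (by fun_prop) (a := x) (b := 2 * τ)
    fun t ht => ?_).trans (ps_const t0 t1 (c := fun t => (t, 0, 2 * τ)) (by fun_prop) (a := θ)
    (b := 0) fun t _ => ⟨(hK.free_out h2).memF _ _, (hK.free_out h2).memF _ _⟩)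
  have h3 : PsFree K θ t := (le_or_gt |t| 1).elim (h t ht) hK.free_out
  exact ⟨h3.memF _ _, h3.memF _ _⟩

theorem PsK.data (hK : PsK K) (hψ : Fl ψ Kᶜ) :
    ∃ (B0 B1 Bp Bm : R3 → G) (l n m T : G), PsD ψ K B0 B1 Bp Bm l n m T := by
  obtain ⟨δ, d0, d1, hδ⟩ := ps_delta
  have p1 : Sg 1 := Or.inl rfl
  have m1 : Sg (-1) := Or.inr rfl
  have cF : Convex ℝ (univ ×ˢ univ : Set (ℝ × ℝ)) := convex_univ.prod convex_univ
  have cM := fun τ => (convex_univ (𝕜 := ℝ) (E := ℝ)).prod (ps_cvx τ)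
  obtain ⟨B0, t0, b0⟩ := psW_triv (ps_fl hψ) cF (hK.planeF p1) (0, 2, 0) 1
  obtain ⟨B1, t1, b1⟩ := psW_triv (ps_fl hψ) cF (hK.planeF m1) (0, 0, 2 * 1) (B0 (0, 0, 2 * 1))
  obtain ⟨Bp, tp, bp⟩ := psW_triv (ps_fl hψ) (cM 1) (hK.planeMi p1) (1 / 2, 0, 1 - δ)
    (B0 (1 / 2, 0, 1 - δ))
  obtain ⟨Bm, tm, bm⟩ := psW_triv (ps_fl hψ) (cM (-1)) (hK.planeMi m1) (1, 0, -1 + δ)
    (B0 (1, 0, -1 + δ))
  obtain ⟨l, s0⟩ := ps_shift (psW_conn cF (hK.planeF p1)) (fun k _ => psW_sh k) t0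
  obtain ⟨l', s1⟩ := ps_shift (psW_conn cF (hK.planeF m1)) (fun k _ => psW_sh k) t1
  obtain ⟨n, sp⟩ := ps_shift (psW_conn (cM 1) (hK.planeMi p1)) (fun k _ => psW_sh k) tp
  obtain ⟨m, sm⟩ := ps_shift (psW_conn (cM (-1)) (hK.planeMi m1)) (fun k _ => psW_sh k) tm
  have top : ∀ θ x, (∀ t ∈ uIcc x (2 * 1), |t| ≤ 1 → PsFree K θ t) →
      B0 (θ, 0, x) = B1 (θ, 0, x) := fun θ x h => by
    rw [← mul_inv_eq_one, hK.outer t0 t1 p1 h, b1, mul_inv_cancel]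
  have top' : ∀ θ x, 1 ≤ x → PsFree K θ x → B0 (θ, 0, x) = B1 (θ, 0, x) := fun θ x hx h =>
    top θ x fun t ht h1 => by
      obtain rfl : t = x := by
        rcases mem_uIcc.1 ht with h4 | h4 <;> linarith [h4.1, h4.2, (abs_le.1 h1).2]
      exact h
  have bot : ∀ θ x, x ≤ -1 → PsFree K θ x → B0 (θ, 0, x) * (B1 (θ, 0, x))⁻¹ =
      B0 (0, 0, 2 * -1) * (B1 (0, 0, 2 * -1))⁻¹ := fun θ x hx h =>
    hK.outer t0 t1 m1 fun t ht h1 => by
      obtain rfl : t = x := by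
        rcases mem_uIcc.1 ht with h4 | h4 <;> linarith [h4.1, h4.2, (abs_le.1 h1).1]
      exact h
  have f2 : ∀ θ, PsFree K θ 2 := fun θ => hK.free_out (by norm_num)
  have f3 : ∀ θ, PsFree K θ (2 * -1) := fun θ => hK.free_out (by norm_num)
  obtain rfl : l' = l := by
    have e0 := s0 1 _ ((f2 0).memF 0 1)
    have e1 := s1 1 _ ((f2 0).memF 0 (-1))
    simp only [psSh, zpow_one] at e0 e1
    rw [top' _ _ (by norm_num) (f2 _), e1, top' _ _ (by norm_num) (f2 _)] at e0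
    exact mul_right_cancel e0
  obtain ⟨u1, u2⟩ := abs_lt.1 ((hδ (1 - δ)).1 (by simp [abs_of_pos d0]))
  obtain ⟨u3, u4⟩ := abs_lt.1 ((hδ (-1 + δ)).2.2 (by simp [abs_of_pos d0]))
  have q1 : ∀ σ, Sg σ → ((1 / 2, 0, 1 - δ) : R3) ∈ psGap σ 1 0 := by
    rintro σ (rfl | rfl) <;>
      exact ⟨⟨by linarith, by linarith⟩, ⟨by push_cast; linarith, by push_cast; linarith⟩, by simp⟩
  have q2 : ((1, 0, -1 + δ) : R3) ∈ psGap (-1) (-1) 1 :=
    ⟨⟨by linarith, by linarith⟩, ⟨by push_cast; linarith, by push_cast; linarith⟩, by simp⟩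
  have q3 : ((1, 0, -1 + δ) : R3) ∈ psGap 1 (-1) 0 :=
    ⟨⟨by linarith, by linarith⟩, ⟨by push_cast; linarith, by push_cast; linarith⟩, by simp⟩
  have e1 : B0 (1 / 2, 0, 1 - δ) = B1 (1 / 2, 0, 1 - δ) := top _ _ fun t ht h1 => by
    rw [uIcc_of_le (by linarith)] at ht
    obtain ⟨v1, v2⟩ := abs_lt.1 ((hδ t).1
      (abs_le.2 ⟨by linarith [ht.1], by linarith [(abs_le.1 h1).2]⟩))
    exact hK.free (by linarith [ht.1]) (ps_notP 0 0 ⟨by push_cast; linarith, by push_cast; linarith⟩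
      ⟨by push_cast; linarith, by push_cast; linarith⟩)
  have e2 := hK.outer t0 t1 m1 (θ := 1) (x := -1 + δ) fun t ht h1 => by
    rw [uIcc_of_ge (by linarith)] at ht
    obtain ⟨v1, v2⟩ := abs_lt.1 ((hδ t).2.2
      (abs_le.2 ⟨by linarith [(abs_le.1 h1).1], by linarith [ht.2]⟩))
    exact hK.free (by linarith [ht.2]) (ps_notP 0 1 ⟨by push_cast; linarith, by push_cast; linarith⟩
      ⟨by push_cast; linarith, by push_cast; linarith⟩)
  refine ⟨B0, B1, Bp, Bm, l', n, m, _, t0, t1, tp, tm, b0, s0, s1, fun k p hp => ?_,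
    fun k p hp => ?_, fun k p hp => ?_, fun k p hp => ?_, top', bot, ?_⟩
  · rw [hK.gap_val p1 p1 (by norm_num) t0 tp s0 sp (q1 1 p1) k (by rwa [add_zero]), bp]
    group
  · rw [hK.gap_val m1 p1 (by norm_num) t1 tp s1 sp (q1 _ m1) k (by rwa [add_zero]), bp, e1]
    group
  · rw [hK.gap_val m1 m1 (by norm_num) t0 tm s0 sm q2 k hp, bm]
    group
  · rw [hK.gap_val p1 m1 (by norm_num) t1 tm s1 sm q3 k (by rwa [add_zero]), bm, ← e2]
    group
  · have e3 := bot (0 + ((1 : ℤ) : ℝ)) _ (by norm_num) (f3 _)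
    have e4 := s0 1 _ ((f3 0).memF 0 1)
    have e5 := s1 1 _ ((f3 0).memF 0 (-1))
    simp only [psSh, zpow_one] at e4 e5
    rw [e4, e5] at e3
    conv_rhs => rw [← e3]
    group

end Pool.Agent.MP_b8a826_gt

end

-- part MP_b8a826_gt.PSide4
section

/-! Holonomy of the curves in the complement of the spiral pattern. -/

namespace Pool.Agent.MP_b8a826_gt
open Set Real Filter Topology

variable {G : Type} [Group G]

theorem ps_three {φ : R3 → R3 → G} {U D D' : Set R3} (hφ : Fl φ U) {B B' : R3 → G}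
    (h : Triv φ D B) (h' : Triv φ D' B') {γ : ℝ → R3} (hγ : Cv U γ) {a b c d : ℝ}
    (h1 : ∀ t ∈ uIcc a b, γ t ∈ D) (h2 : ∀ t ∈ uIcc b c, γ t ∈ D') (h3 : ∀ t ∈ uIcc c d, γ t ∈ D) :
    tr (pb γ φ) univ a d =
      (B (γ a))⁻¹ * (B (γ b) * (B' (γ b))⁻¹) * (B (γ c) * (B' (γ c))⁻¹)⁻¹ * B (γ d) := by
  rw [← tr_mul _ _ a c d, ← tr_mul _ _ a b c, tr_arc hφ hγ h h1, tr_arc hφ hγ h' h2,
    tr_arc hφ hγ h h3]
  group

theorem ps_loop {ψ : Circle × ℂ → Circle × ℂ → G} {U D D' : Set R3} (hφ : Fl (pb psJ ψ) U)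
    (hD : D ⊆ U) (hD' : D' ⊆ U) {B B' : R3 → G} (h : Triv (pb psJ ψ) D B)
    (h' : Triv (pb psJ ψ) D' B') (f : ℝ × ℝ → R3) (hf : Continuous f) {c : ℝ → Circle × ℂ}
    (hc : ∀ t, c t = psJ (f (cos (2 * π * t), sin (2 * π * t))))
    (h1 : ∀ a b : ℝ, a ^ 2 + b ^ 2 = 1 → 0 ≤ a → f (a, b) ∈ D)
    (h2 : ∀ a b : ℝ, a ^ 2 + b ^ 2 = 1 → a ≤ 0 → f (a, b) ∈ D') :
    hol ψ c = (B (f (1, 0)))⁻¹ *
      (B (f (0, 1)) * (B' (f (0, 1)))⁻¹) * (B (f (0, -1)) * (B' (f (0, -1)))⁻¹)⁻¹ *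
        B (f (1, 0)) := by
  obtain rfl : c = _ := funext hc
  have hp := pi_pos
  have e1 : 2 * π * (1 / 4) = π / 2 := by ring
  have e2 : 2 * π * (3 / 4) = π / 2 + π := by ring
  have := ps_three hφ h h' (γ := fun t => f (cos (2 * π * t), sin (2 * π * t)))
    ⟨by fun_prop, fun t => (le_total 0 (cos (2 * π * t))).elim
      (fun ht => hD (h1 _ _ (cos_sq_add_sin_sq _) ht))
      fun ht => hD' (h2 _ _ (cos_sq_add_sin_sq _) ht)⟩ (a := 0) (b := 1 / 4) (c := 3 / 4) (d := 1)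
    (fun t ht => h1 _ _ (cos_sq_add_sin_sq _) (by
      rw [uIcc_of_le (by norm_num)] at ht
      exact cos_nonneg_of_mem_Icc ⟨by nlinarith [ht.1], by nlinarith [ht.2]⟩))
    (fun t ht => h2 _ _ (cos_sq_add_sin_sq _) (by
      rw [uIcc_of_le (by norm_num)] at ht
      exact cos_nonpos_of_pi_div_two_le_of_le (by nlinarith [ht.1]) (by nlinarith [ht.2])))
    (fun t ht => h1 _ _ (cos_sq_add_sin_sq _) (by
      rw [uIcc_of_le (by norm_num)] at ht
      rw [← cos_sub_two_pi]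
      exact cos_nonneg_of_mem_Icc ⟨by nlinarith [ht.1], by nlinarith [ht.2]⟩))
  simp only [e1, e2, mul_zero, mul_one, cos_zero, sin_zero, cos_two_pi, sin_two_pi, cos_add_pi,
    sin_add_pi, cos_pi_div_two, sin_pi_div_two, neg_zero] at this
  exact this

variable {K : Set (Circle × ℂ)} {ψ : Circle × ℂ → Circle × ℂ → G} {B0 B1 Bp Bm : R3 → G}
  {l n m T : G}

theorem ps_p1 : Sg 1 := Or.inl rfl
theorem ps_m1 : Sg (-1) := Or.inr rfl

theorem ps_exp_re (t : ℝ) : ((Circle.exp t : Circle) : ℂ).re = cos t ∧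
    ((Circle.exp t : Circle) : ℂ).im = sin t :=
  ⟨Complex.exp_ofReal_mul_I_re t, Complex.exp_ofReal_mul_I_im t⟩

theorem PsD.hol_lV (H : PsD ψ K B0 B1 Bp Bm l n m T) (hK : PsK K) (hψ : Fl ψ Kᶜ) :
    hol ψ lV = l := by
  have e : lV = psJ ∘ fun t => (t, 2, 0) := by
    funext t
    simp [lV, circ, psJ]
  have hm : ∀ t : ℝ, ((t, 2, 0) : R3) ∈ psF K 1 := fun t => hK.memF ps_p1 fun r hr => by
    have := (abs_le.1 (hK.bd hr)).2
    simp only at this ⊢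
    linarith
  rw [e, ← hol_pb, hol_triv (ps_fl hψ) ⟨by fun_prop, fun t => psW_sub (hm t)⟩ H.t0 fun t _ => hm t]
  have := H.s0 1 _ (hm 0)
  simp only [psSh, Int.cast_one, zero_add, zpow_one, H.base, mul_one] at this
  rw [this, H.base, inv_one, one_mul]

theorem PsD.hol_mV (H : PsD ψ K B0 B1 Bp Bm l n m T) (hK : PsK K) (hψ : Fl ψ Kᶜ) :
    hol ψ mV = T⁻¹ := by
  have e : ∀ t, mV t = psJ (0, 2 * cos (2 * π * t), 2 * sin (2 * π * t)) := fun t => by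
    simp only [mV, circ, psJ, mul_zero, Circle.exp_zero, Prod.mk.injEq, true_and]
    refine Complex.ext ?_ ?_ <;> simp [(ps_exp_re _).1, (ps_exp_re _).2, -Circle.coe_exp,
      -Complex.ofReal_cos, -Complex.ofReal_sin]
  have hm : ∀ s a b : ℝ, Sg s → a ^ 2 + b ^ 2 = 1 → 0 ≤ s * a →
      ((0, 2 * a, 2 * b) : R3) ∈ psF K s := fun s a b hs h1 h2 => hK.memF hs fun r hr => by
    rcases hK _ hr with hP | hB
    · obtain ⟨a1, a2⟩ := abs_le.1 hP.1
      obtain ⟨a3, a4⟩ := abs_le.1 hP.bd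
      simp only at a1 a2 a3 a4 ⊢
      rcases hs with rfl | rfl <;> nlinarith
    · obtain ⟨a3, a4⟩ := abs_le.1 hB.bd.2.1
      have a5 : 2 * b = 0 := hB.1
      simp only at a3 a4 ⊢
      rcases hs with rfl | rfl <;> nlinarith
  rw [ps_loop (ps_fl hψ) psW_sub psW_sub H.t0 H.t1 (fun q => (0, 2 * q.1, 2 * q.2)) (by fun_prop) e
    (fun a b h1 h2 => hm 1 a b ps_p1 h1 (by linarith))
    fun a b h1 h2 => hm (-1) a b ps_m1 h1 (by linarith)]
  simp only [mul_zero, mul_one, H.base]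
  rw [H.top 0 2 (by norm_num) (hK.free_out (by norm_num)),
    H.bot 0 _ (by norm_num) (hK.free_out (by norm_num))]
  group

/-- Near height zero the strands are close to `± 1 / 4` modulo one. -/
def PsN (δ : ℝ) : Prop := 0 < δ ∧ δ < 1 ∧ ∀ x, |x| ≤ δ → 6 / 5 < psTh x ∧ psTh x < 13 / 10

theorem ps_near : ∃ δ, PsN δ := by
  obtain ⟨δ, d0, d1, h⟩ := ps_delta
  refine ⟨δ, d0, d1, fun x hx => ?_⟩
  obtain ⟨h1, h2⟩ := abs_lt.1 ((h x).2.1 hx)
  constructor <;> linarith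

variable {δ : ℝ}

theorem PsN.notP (hδ : PsN δ) {θ x : ℝ} (hθ : θ = 0 ∨ θ ∈ Icc (3 / 10 : ℝ) (7 / 10)) (hx : |x| ≤ δ)
    (r : ℝ) : ¬ InP (θ, r, x) := by
  obtain ⟨h1, h2⟩ := hδ.2.2 x hx
  rcases hθ with rfl | ⟨h3, h4⟩
  · exact ps_notP (-2) 1 ⟨by push_cast; linarith, by push_cast; linarith⟩
      ⟨by push_cast; linarith, by push_cast; linarith⟩ r
  · exact ps_notP (-1) 1 ⟨by push_cast; linarith, by push_cast; linarith⟩
      ⟨by push_cast; linarith, by push_cast; linarith⟩ r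

theorem PsD.mid (H : PsD ψ K B0 B1 Bp Bm l n m T) (hδ : PsN δ) :
    (∀ θ ∈ Icc (3 / 10 : ℝ) (7 / 10), B0 (θ, 0, δ) * (B1 (θ, 0, δ))⁻¹ = l⁻¹ * n * n * l⁻¹ ∧
      B0 (θ, 0, -δ) * (B1 (θ, 0, -δ))⁻¹ = m⁻¹ * T * l) ∧
    B0 (0, 0, δ) * (B1 (0, 0, δ))⁻¹ = l⁻¹ ^ 2 * n ^ 3 * l⁻¹ ∧
    B0 (0, 0, -δ) * (B1 (0, 0, -δ))⁻¹ = m⁻¹ ^ 2 * T * l ^ 2 := by
  obtain ⟨d0, d1, h⟩ := hδ
  obtain ⟨a1, a2⟩ := h δ (abs_of_pos d0).le
  obtain ⟨a3, a4⟩ := h (-δ) (by rw [abs_neg, abs_of_pos d0])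
  have e : ∀ (B : R3 → G) p, B0 p * (B1 p)⁻¹ = (B0 p * (B p)⁻¹) * (B1 p * (B p)⁻¹)⁻¹ :=
    fun B p => by group
  refine ⟨fun θ hθ => ⟨?_, ?_⟩, ?_, ?_⟩
  · rw [e Bp, H.g1 (-1) _ ⟨⟨by linarith, by linarith⟩,
      ⟨by push_cast; linarith [hθ.1], by push_cast; linarith [hθ.2]⟩, by simp⟩,
      H.g2 1 _ ⟨⟨by linarith, by linarith⟩,
      ⟨by push_cast; linarith [hθ.1], by push_cast; linarith [hθ.2]⟩, by simp⟩]
    group
  · rw [e Bm, H.g3 0 _ ⟨⟨by linarith, by linarith⟩,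
      ⟨by push_cast; linarith [hθ.1], by push_cast; linarith [hθ.2]⟩, by simp⟩,
      H.g4 (-1) _ ⟨⟨by linarith, by linarith⟩,
      ⟨by push_cast; linarith [hθ.1], by push_cast; linarith [hθ.2]⟩, by simp⟩]
    group
  · rw [e Bp, H.g1 (-2) _ ⟨⟨by linarith, by linarith⟩,
      ⟨by push_cast; linarith, by push_cast; linarith⟩, by simp⟩,
      H.g2 1 _ ⟨⟨by linarith, by linarith⟩,
      ⟨by push_cast; linarith, by push_cast; linarith⟩, by simp⟩]
    group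
  · rw [e Bm, H.g3 0 _ ⟨⟨by linarith, by linarith⟩,
      ⟨by push_cast; linarith, by push_cast; linarith⟩, by simp⟩,
      H.g4 (-2) _ ⟨⟨by linarith, by linarith⟩,
      ⟨by push_cast; linarith, by push_cast; linarith⟩, by simp⟩]
    group

theorem PsD.cross (H : PsD ψ K B0 B1 Bp Bm l n m T) {θ a b : ℝ}
    (h : ∀ x ∈ uIcc a b, PsFree K θ x) :
    B0 (θ, 0, a) * (B1 (θ, 0, a))⁻¹ = B0 (θ, 0, b) * (B1 (θ, 0, b))⁻¹ :=
  ps_const H.t0 H.t1 (c := fun t => (θ, 0, t)) (by fun_prop) fun t ht =>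
    ⟨(h t ht).memF _ _, (h t ht).memF _ _⟩

theorem ps_abs_le {a b x : ℝ} (ha : |a| ≤ δ) (hb : |b| ≤ δ) (hx : x ∈ uIcc a b) :
    |x| ≤ δ := by
  rw [_root_.abs_le] at ha hb ⊢
  rcases mem_uIcc.1 hx with h | h <;> exact ⟨by linarith [h.1], by linarith [h.2]⟩

theorem PsD.rel1 (H : PsD ψ K B0 B1 Bp Bm l n m T) (hK : PsK K) :
    l⁻¹ * n * n * l⁻¹ = m⁻¹ * T * l := by
  obtain ⟨δ, hδ⟩ := ps_near
  have hθ : (1 / 2 : ℝ) ∈ Icc (3 / 10 : ℝ) (7 / 10) := ⟨by norm_num, by norm_num⟩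
  obtain ⟨h1, h2⟩ := (H.mid hδ).1 _ hθ
  rw [← h1, ← h2]
  refine H.cross fun x hx r hr => (hK _ hr).elim (hδ.notP (Or.inr hθ) (ps_abs_le
    (abs_of_pos hδ.1).le (by rw [abs_neg, abs_of_pos hδ.1]) hx) r) fun hB => ?_
  obtain ⟨-, -, k, h3, -⟩ := hB.bd
  obtain ⟨h4, h5⟩ := abs_le.1 h3
  simp only at h4 h5
  exact ps_noint 0 k (by push_cast; linarith) (by push_cast; linarith) rfl

theorem PsK.memNe (hK : PsK K) {s : ℝ} (hs : Sg s) {θ r x : ℝ} (hθ : |θ| ≤ 3 / 10)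
    (hr : 3 / 4 ≤ s * r) (hB : ∀ r', s * r' ≤ s * r → 0 < s * r' → ¬ InB (θ, r', x)) :
    (θ, r, x) ∈ psNe K s := by
  refine ⟨⟨abs_le.1 hθ, trivial⟩, fun r' hr' h => ?_⟩
  have h1 : 3 / 4 ≤ s * r' ∧ s * r' ≤ s * r := by
    rcases hs with rfl | rfl <;> rcases mem_uIcc.1 hr' with h4 | h4 <;>
      exact ⟨by linarith [h4.1, h4.2], by linarith [h4.1, h4.2]⟩
  refine (hK _ h).elim (fun hP => ?_) (hB r' h1.2 (by linarith [h1.1]))
  obtain ⟨a1, a2⟩ := abs_le.1 hP.bd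
  rcases hs with rfl | rfl <;> simp only at a1 a2 <;> linarith [h1.1]

theorem PsK.layer (hK : PsK K) (hδ : PsN δ) {s τ : ℝ} (hs : Sg s) (hτ : Sg τ) {B B' : R3 → G}
    (hB : Triv (pb psJ ψ) (psF K s) B) (hB' : Triv (pb psJ ψ) (psNe K s) B') {θ : ℝ}
    (hθ : θ = 0 ∨ θ = 3 / 10) : B (θ, 0, τ * δ) * (B' (θ, 0, τ * δ))⁻¹ =
      B (0, 3 / 2 * s, τ / 2) * (B' (0, 3 / 2 * s, τ / 2))⁻¹ := by
  have d0 := hδ.1
  have hθ1 : |θ| ≤ 3 / 10 := by rcases hθ with rfl | rfl <;> norm_num [abs_of_pos]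
  have hf : PsFree K θ (τ * δ) := hK.free (by rcases hτ with rfl | rfl <;> simp [d0.ne'])
    (hδ.notP (hθ.imp id fun h => ⟨h.ge, by linarith⟩)
      (by rcases hτ with rfl | rfl <;> simp [abs_of_pos d0]))
  refine (ps_const hB hB' (c := fun t => (θ, t, τ * δ)) (by fun_prop) (a := 0) (b := 3 / 2 * s)
    fun t _ => ⟨hf.memF _ _, hf.mem (S := Icc (-(3 / 10)) (3 / 10) ×ˢ univ)
      ⟨abs_le.1 hθ1, trivial⟩ _ _⟩).trans ?_
  have := ps_const hB hB' (c := fun t => ((1 - t) * θ, 3 / 2 * s, τ * ((1 - t) * δ + t / 2)))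
    (by fun_prop) (a := 0) (b := 1) fun t ht => by
      rw [uIcc_of_le zero_le_one] at ht
      have h1 : τ * ((1 - t) * δ + t / 2) ≠ 0 := by
        have : 0 < (1 - t) * δ + t / 2 := by nlinarith [ht.1, ht.2, hδ.2.1]
        rcases hτ with rfl | rfl <;> linarith
      have h2 : s * (3 / 2 * s) = 3 / 2 := by rcases hs with rfl | rfl <;> norm_num
      refine ⟨hK.memF hs fun r hr => (hK _ hr).elim (fun hP => ?_) fun hB => (h1 hB.1).elim,
        hK.memNe hs ?_ (by linarith) fun r' _ _ hB => h1 hB.1⟩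
      · obtain ⟨a1, a2⟩ := abs_le.1 hP.bd
        rcases hs with rfl | rfl <;> simp only at a1 a2 ⊢ <;> linarith
      · rw [abs_mul, abs_of_nonneg (sub_nonneg.2 ht.2)]
        nlinarith [ht.1, abs_nonneg θ]
  simpa [div_eq_mul_inv] using this

theorem PsD.rel2 (H : PsD ψ K B0 B1 Bp Bm l n m T) (hK : PsK K) (hψ : Fl ψ Kᶜ) {ν : G}
    (hν : ν = hol ψ (circ fun θ => psD θ)) : l⁻¹ ^ 2 * n * l = ν * (m⁻¹ ^ 2 * l * m) * ν⁻¹ := by
  obtain ⟨δ, hδ⟩ := ps_near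
  have cN : Convex ℝ (Icc (-(3 / 10)) (3 / 10) ×ˢ univ : Set (ℝ × ℝ)) :=
    (convex_Icc _ _).prod convex_univ
  obtain ⟨Bf, tf, -⟩ := psW_triv (ps_fl hψ) cN (hK.planeNe ps_p1) 0 1
  obtain ⟨Bz, tz, -⟩ := psW_triv (ps_fl hψ) cN (hK.planeNe ps_m1) 0 1
  have e : ∀ t, (circ fun θ => psD θ) t =
      psJ (0, 3 / 2 + cos (2 * π * t) / 2, sin (2 * π * t) / 2) := fun t => by
    simp only [circ, psD_eq, (ps_exp_re _).1, (ps_exp_re _).2]
  rw [ps_loop (ps_fl hψ) psW_sub psW_sub H.t0 tf (fun q => (0, 3 / 2 + q.1 / 2, q.2 / 2))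
    (by fun_prop) e
    (fun a b h1 h2 => hK.memF ps_p1 fun r hr => by
      rcases hK _ hr with hP | hB
      · linarith [(abs_le.1 hP.bd).2]
      · have a5 : b / 2 = 0 := hB.1
        have a6 := (abs_le.1 hB.bd.2.1).2
        simp only at a6 ⊢
        nlinarith)
    fun a b h1 h2 => hK.memNe ps_p1 (by norm_num) (by nlinarith) fun r h3 h4 hB => by
      obtain ⟨a5, -, k, a6, a7⟩ := hB.bd
      simp only [zero_sub, abs_neg] at a5 a6 a7
      have h5 : k = 0 := by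
        have h6 : |k| < 1 := by exact_mod_cast (show |(k : ℝ)| < 1 by linarith)
        exact Int.abs_lt_one_iff.1 h6
      subst h5
      simp only [Int.cast_zero, neg_zero] at a7
      nlinarith] at hν
  have b0 : B0 (0, 3 / 2 + 1 / 2, 0) = 1 := by rw [← H.base]; norm_num
  simp only [zero_div, add_zero, b0] at hν
  have key : ∀ θ : ℝ, θ = 0 ∨ θ = 3 / 10 → ∃ a, ∀ τ, Sg τ →
      B0 (θ, 0, τ * δ) * (B1 (θ, 0, τ * δ))⁻¹ = B0 (0, 3 / 2, τ / 2) * (Bf (0, 3 / 2, τ / 2))⁻¹ * a *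
        (B1 (0, 3 / 2 * -1, τ / 2) * (Bz (0, 3 / 2 * -1, τ / 2))⁻¹)⁻¹ := fun θ hθ => by
    refine ⟨Bf (θ, 0, 0) * (Bz (θ, 0, 0))⁻¹, fun τ hτ => ?_⟩
    have h1 := hK.layer hδ ps_p1 hτ H.t0 tf hθ
    have h2 := hK.layer hδ ps_m1 hτ H.t1 tz hθ
    have hθ1 : |θ| ≤ 3 / 10 := by rcases hθ with rfl | rfl <;> norm_num [abs_of_pos]
    have hm : ∀ s, Sg s → ∀ t ∈ uIcc 0 (τ * δ), ((θ, 0, t) : R3) ∈ psNe K s := fun s hs t ht =>
      ⟨⟨abs_le.1 hθ1, trivial⟩, fun r hr h => (hK _ h).elim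
        (hδ.notP (hθ.imp id fun h => ⟨h.ge, by linarith⟩) (ps_abs_le (by simp [hδ.1.le])
          (by rcases hτ with rfl | rfl <;> simp [abs_of_pos hδ.1]) ht) r) (ps_notB hθ1 (by
          rcases hs with rfl | rfl <;> rcases mem_uIcc.1 hr with h4 | h4 <;>
            exact abs_le.2 ⟨by linarith [h4.1, h4.2], by linarith [h4.1, h4.2]⟩))⟩
    have h3 := ps_const tf tz (c := fun t => (θ, 0, t)) (by fun_prop) (a := 0) (b := τ * δ)
      fun t ht => ⟨hm 1 ps_p1 t ht, hm _ ps_m1 t ht⟩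
    rw [mul_one] at h1
    rw [← h1, ← h2, h3]
    group
  obtain ⟨a, ha⟩ := key 0 (Or.inl rfl)
  obtain ⟨b, hb⟩ := key _ (Or.inr rfl)
  obtain ⟨m1, m2, m3⟩ := H.mid hδ
  obtain ⟨m4, m5⟩ := m1 (3 / 10) ⟨le_rfl, by norm_num⟩
  have a1 := ha 1 ps_p1
  have a2 := ha _ ps_m1
  have a3 := hb 1 ps_p1
  have a4 := hb _ ps_m1
  rw [one_mul] at a1 a3
  rw [neg_one_mul] at a2 a4
  have c1 : l⁻¹ ^ 2 * n * l = (l⁻¹ ^ 2 * n ^ 3 * l⁻¹) * (l⁻¹ * n * n * l⁻¹)⁻¹ := by group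
  have c2 : m⁻¹ ^ 2 * l * m = (m⁻¹ ^ 2 * T * l ^ 2) * (m⁻¹ * T * l)⁻¹ := by
    calc _ = m⁻¹ ^ 2 * (l * T) * T⁻¹ * m := by group
      _ = _ := by rw [H.comm]; group
  rw [c1, c2, ← m2, ← m3, ← m4, ← m5, a1, a2, a3, a4, hν]
  group

end Pool.Agent.MP_b8a826_gt

end

-- part MP_b8a826_gt.PSide5
section

/-! The chart, the meridian, the dual loop and the longitude of the spiral pattern. -/

namespace Pool.Agent.MP_b8a826_gt
open Set Real Filter Topology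

variable {G : Type} [Group G] {K : Set (Circle × ℂ)} {ψ : Circle × ℂ → Circle × ℂ → G}
  {B0 B1 Bp Bm : R3 → G} {l n m T : G}

/-- The shear that straightens the descending strand near height one half. -/
noncomputable def psH : ℝ × ℂ ≃ₜ R3 where
  toFun v := (psTh (1 / 2 + v.1 / 8) - v.2.im / 8, psRh (1 / 2 + v.1 / 8) + v.2.re / 8,
    1 / 2 + v.1 / 8)
  invFun p := (8 * p.2.2 - 4, (8 * (p.2.1 - psRh p.2.2) : ℝ) +
    (8 * (psTh p.2.2 - p.1) : ℝ) * Complex.I)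
  left_inv v := by
    refine Prod.ext (by ring) (Complex.ext ?_ ?_) <;> simp <;> ring
  right_inv p := by
    have e : 1 / 2 + (8 * p.2.2 - 4) / 8 = p.2.2 := by ring
    simp only [e]
    refine Prod.ext ?_ (Prod.ext ?_ rfl) <;> simp
  continuous_toFun := by fun_prop
  continuous_invFun := by fun_prop

theorem psJ_open : IsOpenMap psJ := by
  let h : ℝ × ℝ ≃ₜ ℂ :=
    { toFun := fun q => ((q.1 : ℂ) + q.2 * Complex.I) / 2
      invFun := fun d => (2 * d.re, 2 * d.im)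
      left_inv := fun q => by ext <;> simp <;> ring
      right_inv := fun d => by
        refine Complex.ext ?_ ?_ <;> simp
      continuous_toFun := by fun_prop
      continuous_invFun := by fun_prop }
  exact (isLocalHomeomorph_circleExp.isOpenMap.comp
    (Homeomorph.mulLeft₀ (2 * π) (by positivity)).isOpenMap).prodMap h.isOpenMap

theorem ps_rh_ge {x : ℝ} (h1 : 1 / 4 < x) (h2 : x < 3 / 4) : 1 / 8 < psRh x := by
  have h3 : 1 / 2 ≤ psY x := le_sqrt_of_sq_le (by nlinarith)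
  rw [psRh]
  nlinarith

theorem ps_chart_line {x b r : ℝ} (hb : |b| < 8) (h : InP (psTh x - b / 8, r, x)) :
    (b = 0 ∧ r = psRh x) ∨ r = -psRh x := by
  obtain ⟨-, σ, k, rfl | rfl, h1, h2⟩ := h <;> simp only at h1 h2
  · obtain ⟨b1, b2⟩ := abs_lt.1 hb
    have h5 : k = 0 := by
      have h6 : |k| < 1 := by
        exact_mod_cast (show |(k : ℝ)| < 1 from abs_lt.2 ⟨by linarith, by linarith⟩)
      exact Int.abs_lt_one_iff.1 h6
    subst h5
    exact Or.inl ⟨by simpa using h1, by simpa using h2⟩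
  · exact Or.inr (by simpa using h2)

theorem ps_ball {v : ℝ × ℂ} (hv : v ∈ Metric.ball (0 : ℝ × ℂ) 2) :
    |v.1| < 2 ∧ |v.2.re| < 2 ∧ |v.2.im| < 2 := by
  rw [mem_ball_zero_iff, Prod.norm_def, max_lt_iff] at hv
  exact ⟨hv.1, (Complex.abs_re_le_norm _).trans_lt hv.2, (Complex.abs_im_le_norm _).trans_lt hv.2⟩

theorem ps_chart : ∃ Θ : OpenPartialHomeomorph (ℝ × ℂ) (Circle × ℂ), Chart (range psP) Θ ∧
    ∀ v, Θ v = psJ (psH v) := by
  have hi : InjOn (psJ ∘ psH) (Metric.ball 0 2) := fun v hv w hw h => by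
    obtain ⟨⟨k, hk⟩, h2⟩ := psJ_eq.1 h
    refine psH.injective (Prod.ext ?_ h2)
    have h3 : 1 / 2 + v.1 / 8 = 1 / 2 + w.1 / 8 := congrArg Prod.snd h2
    have h4 : psTh (1 / 2 + v.1 / 8) - v.2.im / 8 = psTh (1 / 2 + w.1 / 8) - w.2.im / 8 + k := hk
    rw [h3] at h4
    obtain ⟨b1, b2⟩ := abs_lt.1 (ps_ball hv).2.2
    obtain ⟨b3, b4⟩ := abs_lt.1 (ps_ball hw).2.2
    have h5 : k = 0 := by
      have h6 : |k| < 1 := by
        exact_mod_cast (show |(k : ℝ)| < 1 from abs_lt.2 ⟨by linarith, by linarith⟩)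
      exact Int.abs_lt_one_iff.1 h6
    simpa [h5] using hk
  refine ⟨OpenPartialHomeomorph.ofContinuousOpen (hi.toPartialEquiv _ _)
    (psJ_cont.comp psH.continuous).continuousOn (psJ_open.comp psH.isOpenMap) Metric.isOpen_ball,
    ⟨Metric.closedBall_subset_ball (by norm_num), fun v hv => ?_⟩, fun _ => rfl⟩
  obtain ⟨a1, a2, a3⟩ := ps_ball hv
  obtain ⟨b1, b2⟩ := abs_lt.1 a1
  obtain ⟨b3, b4⟩ := abs_lt.1 a2
  refine mem_psP.trans ⟨fun h => ?_, fun h => ⟨abs_le.2 ⟨?_, ?_⟩, 1, 0, ps_p1, ?_, ?_⟩⟩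
  · have h1 := ps_rh_ge (x := 1 / 2 + v.1 / 8) (by linarith) (by linarith)
    rcases ps_chart_line (by linarith) h with ⟨h2, h3⟩ | h3
    · exact Complex.ext (by simpa using h3) h2
    · linarith
  · change _ ≤ 1 / 2 + v.1 / 8
    linarith
  · change 1 / 2 + v.1 / 8 ≤ _
    linarith
  · simp [psH, h]
  · simp [psH, h]

/-- The lifted meridian. -/
noncomputable def psMe (q : ℝ × ℝ) : R3 := (psTh (1 / 2) - q.2 / 8, psRh (1 / 2) + q.1 / 8, 1 / 2)

theorem psMe_eq (t : ℝ) : circ (fun θ : Circle => psJ (psH (0, θ))) t =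
    psJ (psMe (cos (2 * π * t), sin (2 * π * t))) := by
  simp [circ, psH, psMe, (ps_exp_re _).1, (ps_exp_re _).2, -Circle.coe_exp]

theorem PsK.me (hK : PsK K) {a b : ℝ} (h : a ^ 2 + b ^ 2 = 1) :
    (0 ≤ a → psMe (a, b) ∈ psF K 1) ∧ (a ≤ 0 → psMe (a, b) ∈ psMi K 1) := by
  have h1 := ps_rh_ge (x := 1 / 2) (by norm_num) (by norm_num)
  have hb : |b| < 8 := abs_lt.2 ⟨by nlinarith, by nlinarith⟩
  refine ⟨fun ha => hK.memF ps_p1 fun r hr => (hK _ hr).elim (fun hP => ?_) fun hB => ?_,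
    fun ha => hK.memMi ⟨by norm_num [psMe], by norm_num [psMe]⟩ fun r hr hP => ?_⟩
  · rcases ps_chart_line hb hP with ⟨h2, h3⟩ | h3 <;> simp only [psMe] <;> nlinarith
  · have := hB.1
    norm_num [psMe] at this
  · have h2 : -1 ≤ a := by nlinarith
    simp only [psMe] at hr
    rcases ps_chart_line hb hP with ⟨h2, h3⟩ | h3 <;> rcases mem_uIcc.1 hr with h4 | h4 <;>
      nlinarith [h4.1, h4.2]

theorem PsD.hol_me (H : PsD ψ K B0 B1 Bp Bm l n m T) (hK : PsK K) (hψ : Fl ψ Kᶜ) :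
    hol ψ (circ fun θ : Circle => psJ (psH (0, θ))) =
      (B0 (psMe (1, 0)))⁻¹ * (l⁻¹ * n) * B0 (psMe (1, 0)) := by
  have h1 := ps_rh_ge (x := 1 / 2) (by norm_num) (by norm_num)
  rw [ps_loop (ps_fl hψ) psW_sub psW_sub H.t0 H.tp psMe (by unfold psMe; fun_prop) psMe_eq
    (fun a b h => (hK.me h).1) fun a b h => (hK.me h).2,
    H.g1 (-1) _ ⟨by norm_num [psMe], by norm_num [psMe], by simp only [psMe]; linarith⟩,
    H.g1 0 _ ⟨by norm_num [psMe], by norm_num [psMe], by simp only [psMe]; linarith⟩]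
  group

theorem psF_anti {K' : Set (Circle × ℂ)} (h : K ⊆ K') (s : ℝ) : psF K' s ⊆ psF K s :=
  fun _ hp => ⟨hp.1, fun r hr hO => hp.2 r hr (h hO)⟩

theorem ps_K0 : PsK (range psP ∪ range (psJ ∘ psBt)) := fun _ h =>
  h.imp mem_psP.1 mem_psBt

/-- The based meridian. -/
theorem ps_mer : ∃ u, Lp (range psP ∪ range (psJ ∘ psBt))ᶜ (1, 1) u ∧
    ∀ (G : Type) [Group G] (K : Set (Circle × ℂ)) (ψ : Circle × ℂ → Circle × ℂ → G)
      (B0 B1 Bp Bm : R3 → G) (l n m T : G), K ⊆ range psP ∪ range (psJ ∘ psBt) → Fl ψ Kᶜ →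
      PsD ψ K B0 B1 Bp Bm l n m T → hol ψ u = l⁻¹ * n := by
  have hb : ((0, 2, 0) : R3) ∈ psF (range psP ∪ range (psJ ∘ psBt)) 1 :=
    ps_K0.memF ps_p1 fun r hr => by
      have := (abs_le.1 (ps_K0.bd hr)).2
      simp only at this ⊢
      linarith
  obtain ⟨γ, hγ, g0, g1⟩ := exists_cv (psW_joined (convex_univ.prod convex_univ)
    (ps_K0.planeF ps_p1) hb ((ps_K0.me (a := 1) (b := 0) (by norm_num)).1 zero_le_one))
  have c1 : Cv (range psP ∪ range (psJ ∘ psBt))ᶜ (psJ ∘ γ) :=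
    ⟨psJ_cont.comp hγ.1, fun t => psW_sub (hγ.2 t)⟩
  have c2 : Cv (range psP ∪ range (psJ ∘ psBt))ᶜ (circ fun θ : Circle => psJ (psH (0, θ))) :=
    ⟨circ_cont (by fun_prop), fun t => by
      rw [psMe_eq]
      exact (le_total 0 (cos (2 * π * t))).elim
        (fun ht => psW_sub ((ps_K0.me (cos_sq_add_sin_sq _)).1 ht))
        fun ht => psW_sub ((ps_K0.me (cos_sq_add_sin_sq _)).2 ht)⟩
  have e1 : circ (fun θ : Circle => psJ (psH (0, θ))) 1 = rev (psJ ∘ γ) 0 := by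
    simp [psMe_eq, rev, g1]
  have e2 : (psJ ∘ γ) 1 = cat (circ fun θ : Circle => psJ (psH (0, θ))) (rev (psJ ∘ γ)) 0 := by
    simp [psMe_eq, cat_zero, g1]
  have e3 : psJ (0, 2, 0) = (1, 1) := by simp [psJ]
  refine ⟨_, ⟨c1.cat (c2.cat c1.rev e1) e2, by simp [cat_zero, g0, e3],
    by simp [cat_one, rev, g0, e3]⟩, fun G _ K ψ B0 B1 Bp Bm l n m T hK hψ H => ?_⟩
  have hψ' := hψ.mono (compl_subset_compl.2 hK)
  have h1 : hol ψ (psJ ∘ γ) = B0 (psMe (1, 0)) := by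
    rw [← hol_pb, hol_triv (ps_fl hψ) (hγ.mono ((psF_anti hK 1).trans psW_sub)) H.t0
      fun t _ => psF_anti hK 1 (hγ.2 t), g0, g1, H.base, inv_one, one_mul]
  rw [hol_cat hψ' c1 (c2.cat c1.rev e1) e2, hol_cat hψ' c2 c1.rev e1, hol_rev hψ' c1, h1,
    H.hol_me (fun p hp => ps_K0 p (hK hp)) hψ]
  group

theorem ps_K1 : PsK (range psP) := fun _ h => Or.inl (mem_psP.1 h)

theorem PsD.zero (H : PsD ψ (range psP) B0 B1 Bp Bm l n m T) :
    (∀ θ ∈ Icc (3 / 10 : ℝ) (7 / 10), B0 (θ, 0, 0) * (B1 (θ, 0, 0))⁻¹ = l⁻¹ * n * n * l⁻¹) ∧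
    B0 (0, 0, 0) * (B1 (0, 0, 0))⁻¹ = m⁻¹ ^ 2 * T * l ^ 2 := by
  obtain ⟨δ, hδ⟩ := ps_near
  obtain ⟨m1, -, m3⟩ := H.mid hδ
  refine ⟨fun θ hθ => ?_, ?_⟩
  · rw [← (m1 θ hθ).1]
    exact H.cross fun x hx r hr => hδ.notP (Or.inr hθ)
      (ps_abs_le (by simp [hδ.1.le]) (abs_of_pos hδ.1).le hx) r (mem_psP.1 hr)
  · rw [← m3]
    exact H.cross fun x hx r hr => hδ.notP (Or.inl rfl)
      (ps_abs_le (by simp [hδ.1.le]) (by rw [abs_neg, abs_of_pos hδ.1]) hx) r (mem_psP.1 hr)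

theorem PsD.shift (H : PsD ψ (range psP) B0 B1 Bp Bm l n m T) {θ : ℝ}
    (hθ : θ ∈ Icc (3 / 10 : ℝ) (7 / 10)) (k : ℤ) :
    B0 (θ + k, 0, 0) * (B1 (θ + k, 0, 0))⁻¹ = l ^ k * (l⁻¹ * n * n * l⁻¹) * l ^ (-k) := by
  obtain ⟨δ, hδ⟩ := ps_near
  have hf : PsFree (range psP) θ 0 := fun r hr =>
    hδ.notP (Or.inr hθ) (by simp [hδ.1.le]) r (mem_psP.1 hr)
  have h0 := H.s0 k _ (hf.memF 0 1)
  have h1 := H.s1 k _ (hf.memF 0 (-1))
  simp only [psSh] at h0 h1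
  rw [h0, h1, ← H.zero.1 θ hθ]
  group

theorem PsD.hol_beta (H : PsD ψ (range psP) B0 B1 Bp Bm l n m T) (hψ : Fl ψ (range psP)ᶜ)
    (hc : Commute (l⁻¹ * n) l) : hol ψ (psJ ∘ psBt) = 1 := by
  have hm : ∀ s a b : ℝ, Sg s → a ^ 2 + b ^ 2 = 1 → 0 ≤ s * a →
      ((2 / 5 * b, 3 / 2 * a, 0) : R3) ∈ psF (range psP) s := fun s a b hs h1 h2 =>
    ps_K1.memF hs fun r hr => by
      obtain ⟨-, σ, k, hσ, h3, h4⟩ := mem_psP.1 hr
      simp only [psTh_val.1, psRh_val.1, mul_zero] at h3 h4 ⊢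
      have h5 : a ≠ 0 := by
        rintro rfl
        have h5 : (b - 1) * (b + 1) = 0 := by linarith
        rcases hσ with rfl | rfl <;> rcases mul_eq_zero.1 h5 with h6 | h6
        · exact ps_noint (y := -17 / 20) (-1) k (by norm_num) (by norm_num) (by linarith)
        · exact ps_noint (y := -33 / 20) (-2) k (by norm_num) (by norm_num) (by linarith)
        · exact ps_noint (y := 33 / 20) 1 k (by norm_num) (by norm_num) (by linarith)
        · exact ps_noint (y := 17 / 20) 0 k (by norm_num) (by norm_num) (by linarith)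
      have h6 : 0 < s * a := h2.lt_of_ne (by rcases hs with rfl | rfl <;> simpa [eq_comm] using h5)
      rw [h4]
      linarith
  rw [ps_loop (ps_fl hψ) psW_sub psW_sub H.t0 H.t1 (fun q => (2 / 5 * q.2, 3 / 2 * q.1, 0))
    (by fun_prop) (c := psJ ∘ psBt) (fun _ => rfl) (fun a b h1 h2 => hm 1 a b ps_p1 h1 (by linarith))
    fun a b h1 h2 => hm (-1) a b ps_m1 h1 (by linarith)]
  have h1 := H.zero.1 (2 / 5) ⟨by norm_num, by norm_num⟩
  have h2 := H.shift (θ := 3 / 5) ⟨by norm_num, by norm_num⟩ (-1)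
  have e : (3 / 5 : ℝ) + ((-1 : ℤ) : ℝ) = 2 / 5 * -1 := by norm_num
  rw [e] at h2
  simp only [mul_zero, mul_one]
  rw [h1, h2]
  have h3 : Commute n l := by
    simpa using (Commute.refl l).mul_left hc
  have h4 : Commute (l⁻¹ * n * n * l⁻¹) l := (hc.mul_left h3).mul_left (Commute.refl l).inv_left
  rw [neg_neg, zpow_one, mul_assoc (l ^ (-1 : ℤ)), h4.eq]
  group

theorem ps_sign {x : ℝ} (h : psA x = 0) : (x = 1 / 4 ∧ psB x = 1 / 8) ∨
    (x = -(1 / 4) ∧ psB x = -(1 / 8)) ∨ (x = 3 / 4 ∧ psB x = -(3 / 8)) ∨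
    (x = -(3 / 4) ∧ psB x = 3 / 8) := by
  rcases psA_zero h with rfl | rfl | rfl | rfl <;> norm_num [psB, abs_of_pos, abs_of_neg]

theorem ps_abs_rh {τ x : ℝ} (hτ : Sg τ) (h : 0 ≤ τ * x) : |psRh x| = τ * psRh x := by
  have h1 : 0 ≤ τ * psRh x := by
    rw [psRh, ← mul_assoc]
    exact mul_nonneg h (psY_nonneg x)
  rcases hτ with rfl | rfl
  · rw [one_mul] at h1 ⊢
    exact abs_of_nonneg h1
  · rw [neg_one_mul] at h1 ⊢
    exact abs_of_nonpos (by linarith)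

theorem psC_memF {k : ℤ} {σ τ s x : ℝ} (hσ : Sg σ) (hτ : Sg τ) (hs : s = σ * τ) (h0 : 0 ≤ τ * x)
    (h : psA x = 0 → 0 < s * psB x) : psC k σ 1 x ∈ psF (range psP) s := by
  have hs' : Sg s := by
    rcases hσ with rfl | rfl <;> rcases hτ with rfl | rfl <;> simp [Sg, hs]
  refine ps_K1.memF hs' fun r hr => ?_
  have hP := mem_psP.1 hr
  obtain ⟨h1, h2⟩ := psC_line hσ one_pos le_rfl hP
  obtain ⟨b1, b2⟩ := abs_le.1 (psA_le hP.1).2
  have h3 := ps_abs_rh hτ h0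
  have h4 := abs_pos.2 h1
  have e : s * (σ * psRh x) = |psRh x| := by
    rw [h3, hs]; rcases hσ with rfl | rfl <;> ring
  have e2 : s * (psC k σ 1 x).2.1 = |psRh x| + |psRh x| * (s * psB x) := by
    rw [← e]; simp only [psC]; rw [e]; linear_combination e
  have b3 : -1 ≤ s * psB x := by
    simp only [psC] at b1 b2
    rcases hs' with rfl | rfl <;> linarith
  rw [e2]
  rcases h2 with ⟨h5, rfl⟩ | rfl
  · nlinarith [mul_pos h4 (h h5)]
  · nlinarith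

theorem psC_depth {k : ℤ} {σ τ x : ℝ} (hσ : Sg σ) (hτ : Sg τ) (h0 : τ * x ∈ Ioo 0 1) :
    σ * τ * (psC k σ 1 x).2.1 = |psRh x| + |psRh x| * (σ * τ * psB x) ∧
      σ * τ * (σ * psRh x) = |psRh x| ∧ -1 ≤ σ * τ * psB x := by
  have h3 := ps_abs_rh hτ h0.1.le
  have e : σ * τ * (σ * psRh x) = |psRh x| := by
    rw [h3]; rcases hσ with rfl | rfl <;> ring
  have hx : |x| ≤ 1 := by
    rcases hτ with rfl | rfl <;> exact abs_le.2 ⟨by linarith [h0.1, h0.2], by linarith [h0.1, h0.2]⟩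
  obtain ⟨b1, b2⟩ := abs_le.1 (psA_le hx).2
  refine ⟨by simp only [psC]; linear_combination e, e, ?_⟩
  rcases hσ with rfl | rfl <;> rcases hτ with rfl | rfl <;> linarith

theorem psC_memMi {k : ℤ} {σ τ x : ℝ} (hσ : Sg σ) (hτ : Sg τ) (h0 : τ * x ∈ Ioo 0 1)
    (h : psA x = 0 → σ * τ * psB x < 0) : psC k σ 1 x ∈ psMi (range psP) τ := by
  refine ps_K1.memMi h0 fun r hr hP => ?_
  obtain ⟨h1, h2⟩ := psC_line hσ one_pos le_rfl hP
  obtain ⟨e1, e2, e3⟩ := psC_depth (k := k) hσ hτ h0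
  have h4 := abs_pos.2 h1
  have h5 : 0 ≤ σ * τ * (psC k σ 1 x).2.1 := by nlinarith
  have h6 : 0 ≤ σ * τ * r ∧ σ * τ * r ≤ σ * τ * (psC k σ 1 x).2.1 := by
    rcases hσ with rfl | rfl <;> rcases hτ with rfl | rfl <;> rcases mem_uIcc.1 hr with h7 | h7 <;>
      exact ⟨by linarith [h7.1, h7.2], by linarith [h7.1, h7.2]⟩
  rcases h2 with ⟨h7, rfl⟩ | rfl
  · nlinarith [mul_pos h4 (neg_pos.2 (h h7)), h6.2]
  · nlinarith [h6.1]

theorem psC_gap {k j : ℤ} {σ τ x : ℝ} (hσ : Sg σ) (hτ : Sg τ) (h0 : τ * x ∈ Ioo 0 1)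
    (h : k + psA x / 4 - j ∈ Ioo (0 : ℝ) 1) : psC k σ 1 x ∈ psGap σ τ j := by
  obtain ⟨e1, -, e3⟩ := psC_depth (k := k) hσ hτ h0
  refine ⟨h0, by convert h using 1; simp only [psC]; ring, ?_⟩
  rw [e1]
  nlinarith [abs_nonneg (psRh x)]

theorem ps_quarter (hψ : Fl ψ (range psP)ᶜ) {σ τ s : ℝ} (hσ : Sg σ) (hτ : Sg τ) (hs : s = σ * τ)
    {B B' : R3 → G} (hB : Triv (pb psJ ψ) (psF (range psP) s) B)
    (hB' : Triv (pb psJ ψ) (psMi (range psP) τ) B') (k : ℤ) (a b c d : ℝ)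
    (h1 : ∀ x, x ∈ uIcc a b ∨ x ∈ uIcc c d → 0 ≤ τ * x ∧ (psA x = 0 → 0 < s * psB x))
    (h2 : ∀ x ∈ uIcc b c, τ * x ∈ Ioo 0 1 ∧ (psA x = 0 → σ * τ * psB x < 0)) :
    tr (pb (psC k σ 1) (pb psJ ψ)) univ a d = (B (psC k σ 1 a))⁻¹ *
      (B (psC k σ 1 b) * (B' (psC k σ 1 b))⁻¹) * (B (psC k σ 1 c) * (B' (psC k σ 1 c))⁻¹)⁻¹ *
        B (psC k σ 1 d) :=
  ps_three (ps_fl hψ) hB hB' ⟨psC_cont _ _ _, fun x h => psC_notP hσ one_pos le_rfl x (mem_psP.1 h)⟩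
    (fun x hx => psC_memF hσ hτ hs (h1 x (Or.inl hx)).1 (h1 x (Or.inl hx)).2)
    (fun x hx => psC_memMi hσ hτ (h2 x hx).1 (h2 x hx).2)
    fun x hx => psC_memF hσ hτ hs (h1 x (Or.inr hx)).1 (h1 x (Or.inr hx)).2

theorem ps_split (hψ : Fl ψ (range psP)ᶜ) : hol ψ (circ fun θ => psL (θ, 1)) =
    tr (pb (psC 0 1 1) (pb psJ ψ)) univ 1 (-1) * tr (pb (psC 1 (-1) 1) (pb psJ ψ)) univ (-1) 1 := by
  have hp := pi_pos
  have c0 : Cv (range psP)ᶜ (circ fun θ => psL (θ, 1)) :=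
    ⟨circ_cont (by fun_prop), fun t => psP_track.2.2 _ 1 one_pos le_rfl⟩
  have c1 : ∀ k σ, Sg σ → Cv (range psP)ᶜ (psJ ∘ psC k σ 1) := fun k σ hσ =>
    ⟨psJ_cont.comp (psC_cont _ _ _), fun x h => psC_notP hσ one_pos le_rfl x (mem_psP.1 h)⟩
  have c2 : ∀ k σ, Sg σ → Cv (range psP)ᶜ ((psJ ∘ psC k σ 1) ∘ fun t => cos (2 * π * t)) :=
    fun k σ hσ => ⟨(c1 k σ hσ).1.comp (by fun_prop), fun _ => (c1 k σ hσ).2 _⟩
  rw [hol, ← tr_mul _ _ 0 (1 / 2) 1, tr_congr hψ c0 (c2 0 1 ps_p1) (a := 0),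
    tr_congr hψ c0 (c2 1 _ ps_m1) (b := 1), tr_reparam hψ (c1 0 1 ps_p1) (by fun_prop),
    tr_reparam hψ (c1 1 _ ps_m1) (by fun_prop), show 2 * π * (1 / 2) = π by ring, mul_zero, mul_one,
    cos_zero, cos_pi, cos_two_pi]
  · rfl
  · intro t ht
    rw [uIcc_of_le (by norm_num)] at ht
    simp only [Function.comp, circ, ← psL_exp ps_m1 (abs_cos_le_one _)]
    rw [← cos_two_pi_sub, arccos_cos (by nlinarith [ht.2]) (by nlinarith [ht.1])]
    congr 2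
    exact Circle.exp_eq_exp.2 ⟨1, by push_cast; ring⟩
  · intro t ht
    rw [uIcc_of_le (by norm_num)] at ht
    simp only [Function.comp, circ, ← psL_exp ps_p1 (abs_cos_le_one _)]
    rw [arccos_cos (by nlinarith [ht.1]) (by nlinarith [ht.2]), one_mul]

theorem PsD.hol_long (H : PsD ψ (range psP) B0 B1 Bp Bm l n m T) (hψ : Fl ψ (range psP)ᶜ) :
    hol ψ (circ fun θ => psL (θ, 1)) = (B0 (1 / 4, 0, 1))⁻¹ *
      ((l⁻¹ * n)⁻¹ * (l * (l⁻¹ * n * n * l⁻¹) * l⁻¹) * (l⁻¹ * T⁻¹ * m) * (l⁻¹ * m) *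
        (m⁻¹ ^ 2 * T * l ^ 2) * (l * n⁻¹) * l) * B0 (1 / 4, 0, 1) := by
  obtain ⟨t1, t2, t3⟩ := psTh_val
  obtain ⟨r1, r2, r3⟩ := psRh_val
  have v1 : psC 0 1 1 1 = (1 / 4, 0, 1) := by norm_num [psC, psA, t2, r2]
  have v2 : psC 0 1 1 0 = (1 / 2 + ((1 : ℤ) : ℝ), 0, 0) := by norm_num [psC, psA, t1, r1]
  have v3 : psC 0 1 1 (-1) = (3 / 4, 0, -1) := by norm_num [psC, psA, t3, r3]
  have v4 : psC 1 (-1) 1 (-1) = (3 / 4, 0, -1) := by norm_num [psC, psA, t3, r3]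
  have v5 : psC 1 (-1) 1 0 = (0, 0, 0) := by norm_num [psC, psA, t1, r1]
  have v6 : psC 1 (-1) 1 1 = (1 / 4 + ((1 : ℤ) : ℝ), 0, 1) := by norm_num [psC, psA, t2, r2]
  have f1 : ∀ j : ℤ, PsFree (range psP) (1 / 4 + j) 1 := fun j r hr =>
    ps_notP j j (by norm_num [t2]) (by norm_num [t2]) r (mem_psP.1 hr)
  have f2 : PsFree (range psP) (3 / 4) (-1) := fun r hr =>
    ps_notP 0 1 (by norm_num [t3]) (by norm_num [t3]) r (mem_psP.1 hr)
  have g1 := H.shift (θ := 1 / 2) ⟨by norm_num, by norm_num⟩ 1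
  have g2 := H.bot _ _ le_rfl f2
  have g3 := H.zero.2
  have g4 := H.top _ _ le_rfl (f1 1)
  have g5 := H.s0 1 _ ((f1 0).memF 0 1)
  simp only [psSh, Int.cast_zero, add_zero] at g5
  rw [ps_split hψ, ← tr_mul _ _ 1 0 (-1), ← tr_mul _ _ (-1) 0 1,
    ps_quarter hψ ps_p1 ps_p1 (by norm_num) H.t0 H.tp 0 1 (7 / 8) (1 / 2) 0,
    ps_quarter hψ ps_p1 ps_m1 (by norm_num) H.t1 H.tm 0 0 (-(1 / 2)) (-(7 / 8)) (-1),
    ps_quarter hψ ps_m1 ps_m1 (by norm_num) H.t0 H.tm 1 (-1) (-(1 / 2)) (-(1 / 8)) 0,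
    ps_quarter hψ ps_m1 ps_p1 (by norm_num) H.t1 H.tp 1 0 (1 / 8) (1 / 2) 1,
    H.g1 0 _ (psC_gap ps_p1 ps_p1 (by norm_num) (by norm_num [psA, abs_of_pos])),
    H.g1 (-1) _ (psC_gap ps_p1 ps_p1 (by norm_num) (by norm_num [psA, abs_of_pos])),
    H.g4 (-1) _ (psC_gap ps_p1 ps_m1 (by norm_num) (by norm_num [psA, abs_of_pos])),
    H.g4 0 _ (psC_gap ps_p1 ps_m1 (by norm_num) (by norm_num [psA, abs_of_pos])),
    H.g3 (-1) _ (psC_gap ps_m1 ps_m1 (by norm_num) (by norm_num [psA, abs_of_pos])),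
    H.g3 0 _ (psC_gap ps_m1 ps_m1 (by norm_num) (by norm_num [psA, abs_of_pos, abs_of_neg])),
    H.g2 1 _ (psC_gap ps_m1 ps_p1 (by norm_num) (by norm_num [psA, abs_of_pos, abs_of_neg])),
    H.g2 0 _ (psC_gap ps_m1 ps_p1 (by norm_num) (by norm_num [psA, abs_of_pos])),
    v1, v2, v3, v4, v5, v6, eq_mul_of_mul_inv_eq g1, eq_mul_of_mul_inv_eq g2,
    eq_mul_of_mul_inv_eq g3, ← g4, g5]
  · group
  all_goals
    intro x hx
    simp only [mem_uIcc, mem_Ioo] at hx ⊢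
    first
      | rw [or_assoc] at hx
        refine ⟨?_, fun h => ?_⟩
        · rcases hx with hx | hx | hx | hx <;> linarith [hx.1, hx.2]
        · rcases ps_sign h with h | h | h | h <;> rcases hx with hx | hx | hx | hx <;>
            linarith [h.1, h.2, hx.1, hx.2]
      | refine ⟨?_, fun h => ?_⟩
        · rcases hx with hx | hx <;> constructor <;> linarith [hx.1, hx.2]
        · rcases ps_sign h with h | h | h | h <;> rcases hx with hx | hx <;>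
            linarith [h.1, h.2, hx.1, hx.2]

end Pool.Agent.MP_b8a826_gt

end

-- part MP_b8a826_gt.PSide
section

/-! The pattern and the group of its complement in the solid torus. -/

namespace Pool.Agent.MP_b8a826_gt
open Set Polynomial

theorem ps_z0 : z0.im ≠ 0 := by
  have : z0.im = √7 / 4 := by simp [z0]
  rw [this]
  positivity

theorem ps_quad {G : Type} [Group G] (u l : G) :
    Quad u l (l * u * l * u * l⁻¹ * u⁻¹ * l⁻¹ * u⁻¹ * l⁻¹ * u * l * u * l * u⁻¹ * u⁻¹) := by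
  intro d a x F S h dl au al xu xl Fl hw
  have hu : u ∈ Subgroup.closure {u, l} := Subgroup.subset_closure (by simp)
  have hl : l ∈ Subgroup.closure {u, l} := Subgroup.subset_closure (by simp)
  have hz : z0 ≠ 0 := fun h => ps_z0 (by simp [h])
  let St : G → ℤ → ℂ → ℂ → ℝ → Prop := fun g j A X f =>
    g ∈ Subgroup.closure {u, l} ∧ d g = j * d u ∧ a g = A ∧ x g = X ∧ F g 0 = f
  have sl : ∀ {g j A X f}, St g j A X f → St (g * l) j (-A) X f := by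
    rintro g j A X f ⟨h0, h1, h2, h3, h4⟩
    obtain ⟨e1, e2, e3, e4⟩ := h g h0 l hl
    exact ⟨mul_mem h0 hl, by simp [e1, h1, dl], by simp [e2, h2, al], by simp [e3, h3, xl],
      by simp [e4, h4, Fl, xl]⟩
  have sl' : ∀ {g j A X f}, St g j A X f → St (g * l⁻¹) j (-A) X f := by
    rintro g j A X f ⟨h0, h1, h2, h3, h4⟩
    have h5 := mul_mem h0 (inv_mem hl)
    obtain ⟨e1, e2, e3, e4⟩ := h _ h5 l hl
    have e5 := e4 0
    rw [inv_mul_cancel_right] at e1 e2 e3 e5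
    exact ⟨h5, by simpa [h1, dl] using e1.symm, by simp [← h2, e2, al],
      by simpa [h3, xl] using e3.symm, by simpa [h4, Fl, xl] using e5.symm⟩
  have su : ∀ {g j A X f}, St g j A X f → St (g * u) (j + 1) (A * z0) (X + A)
      (f + F u (j * d u) - S * (X * (starRingEnd ℂ) A).im) := by
    rintro g j A X f ⟨h0, h1, h2, h3, h4⟩
    obtain ⟨e1, e2, e3, e4⟩ := h g h0 u hu
    exact ⟨mul_mem h0 hu, by rw [e1, h1]; ring, by rw [e2, h2, au], by rw [e3, h3, h2, xu, mul_one],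
      by rw [e4, h4, h1, h2, h3, xu, mul_one, zero_add]⟩
  have su' : ∀ {g j j' A X f} (A' : ℂ), St g j A X f → j = j' + 1 → A = A' * z0 →
      St (g * u⁻¹) j' A' (X - A')
        (f - F u (j' * d u) + S * ((X - A') * (starRingEnd ℂ) A').im) := by
    rintro g j j' A X f A' ⟨h0, h1, h2, h3, h4⟩ rfl rfl
    have h5 := mul_mem h0 (inv_mem hu)
    obtain ⟨e1, e2, e3, e4⟩ := h _ h5 u hu
    have e5 := e4 0
    rw [inv_mul_cancel_right] at e1 e2 e3 e5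
    have f1 : d (g * u⁻¹) = j' * d u := by linarith
    have f2 : a (g * u⁻¹) = A' := mul_right_cancel₀ hz (by rw [← h2, e2, au])
    have f3 : x (g * u⁻¹) = X - A' := by rw [← h3, e3, f2, xu]; ring
    rw [f1, f2, f3, xu, mul_one, zero_add, h4] at e5
    exact ⟨h5, f1, f2, f3, by linarith⟩
  have s0 : St l 0 (-1) 0 0 := ⟨hl, by simp [dl], al, xl, by simp [Fl]⟩
  have s1 := sl' (su' (j' := 0) 1 (sl' (su' (j' := 1) (-z0) (sl' (su (sl (su s0)))) (by norm_num)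
    (by ring))) (by norm_num) (by ring))
  have s2 := (su' (j' := 0) (-1) (su' (j' := 1) (-z0) (sl (su (sl (su s1)))) (by norm_num)
    (by ring)) (by norm_num) (by ring)).2.2.2.2
  rw [hw] at s2
  simp at s2
  refine mul_right_cancel₀ ps_z0 ?_
  linarith

theorem ps_alex {Γ N : Type} [Group Γ] [AddCommGroup N] {ρ : Representation ℤ Γ N}
    {U L ν Y : SD ρ} (hL : L.v = 0) (hν : ν.g = 1) (hc : ∀ γ, Commute L.g γ)
    (h1 : ρ L.g U.v = -U.v) (h2 : ρ L.g ν.v = -ν.v) (hY : L * Y = Y * L)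
    (hr : ν * (U * L * U * L⁻¹) * Y * (L⁻¹ * (U * L * U * L⁻¹) * L) =
      L⁻¹ * U * L * ν * (U * L * U * L⁻¹)) :
    (2 : ℤ) • (2 • ρ (U.g * U.g) U.v - 3 • ρ U.g U.v + 2 • U.v) =
      aeval (ρ U.g) (2 * (X - 1) : ℤ[X]) (ρ 1 ν.v) := by
  have c1 : ∀ γ v, ρ L.g (ρ γ v) = ρ γ (ρ L.g v) := fun γ v => by
    rw [← Module.End.mul_apply, ← map_mul, (hc γ).eq, map_mul, Module.End.mul_apply]
  have c2 : ∀ v, ρ L.g v = -v → ρ L.g⁻¹ v = -v := fun v hv => by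
    have h : ρ L.g⁻¹ (ρ L.g v) = v := by
      rw [← Module.End.mul_apply, ← map_mul, inv_mul_cancel, map_one, Module.End.one_apply]
    rw [hv, map_neg] at h
    exact neg_eq_iff_eq_neg.1 h
  obtain ⟨b, hb⟩ : ∃ b, b = U * L * U * L⁻¹ := ⟨_, rfl⟩
  rw [← hb] at hr
  have bg : b.g = U.g * U.g := by simp [hb, mul_assoc, ((hc U.g).inv_left).eq.symm]
  have bv : b.v = U.v - ρ U.g U.v := by simp [hb, hL, h1, sub_eq_add_neg]
  have b1 : ρ L.g b.v = -b.v := by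
    rw [bv, map_sub, c1, h1, map_neg]
    abel
  obtain ⟨e, he⟩ : ∃ e, e = L⁻¹ * b * L := ⟨_, rfl⟩
  obtain ⟨c, hc'⟩ : ∃ c, c = L⁻¹ * U * L := ⟨_, rfl⟩
  rw [← he, ← hc'] at hr
  have eg : e.g = U.g * U.g := by simp [he, ← bg, mul_assoc, ← (hc b.g).eq]
  have ev : e.v = -b.v := by simp [he, hL, c2 _ b1]
  have cg : c.g = U.g := by simp [hc', mul_assoc, ← (hc U.g).eq]
  have cv : c.v = -U.v := by simp [hc', hL, c2 _ h1]
  have yg : U.g * U.g * Y.g = U.g := by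
    have := congrArg SD.g hr
    simp only [SD.mul_g, hν, one_mul, mul_one, bg, eg, cg] at this
    exact mul_right_cancel this
  have yv : ρ L.g Y.v = Y.v := by simpa [hL] using congrArg SD.v hY
  have h3 := congrArg SD.v hr
  simp only [SD.mul_v, SD.mul_g, hν, one_mul, mul_one, bg, yg, ev, cg, cv, map_one,
    Module.End.one_apply, map_neg] at h3
  have h4 := congrArg (ρ L.g) h3
  simp only [map_add, map_neg, c1, h1, h2, b1, yv] at h4
  simp only [bv, map_sub] at h3 h4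
  simp only [map_mul, map_sub, aeval_X, map_one, map_ofNat, Module.End.mul_apply,
    Module.End.one_apply, LinearMap.sub_apply, Module.End.ofNat_apply] at h3 h4 ⊢
  linear_combination (norm := module) h3 - h4

theorem mazur_eq : mazur = psP := by
  ext1 z
  simp [mazur, psP, psL, mul_add]

theorem pside_mazur (P : C(Circle, Circle × ℂ)) (hP : P = mazur) : (∀ θ, ‖(P θ).2‖ < 1) ∧ Function.Injective P ∧
    Unknotted P ∧ ContinuousMap.Homotopic (ContinuousMap.fst.comp P) (ContinuousMap.id Circle) ∧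
    ∃ (u : ℝ → Circle × ℂ) (Θ : OpenPartialHomeomorph (ℝ × ℂ) (Circle × ℂ))
      (Λ : Circle × ℝ → Circle × ℂ) (D : ℂ → Circle × ℂ) (β : ℝ → Circle × ℂ),
      Lp (range P ∪ range β)ᶜ (1, 1) u ∧ (∀ θ : Circle, (θ, 1) ∉ range β) ∧ Chart (range P) Θ ∧
      Track P Λ ∧ Box cV (range P) D β ∧ (D 0).2 ≠ 0 ∧
      (∀ (G : Type) [Group G] (ψ : Circle × ℂ → Circle × ℂ → G), Fl ψ (range P)ᶜ →
        IsConj (hol ψ u) (hol ψ (circ fun θ => Θ (0, θ))) ∧
        (hol ψ lV = 1 → hol ψ mV = hol ψ u ∨ hol ψ mV = (hol ψ u)⁻¹) ∧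
        (Commute (hol ψ u) (hol ψ lV) → hol ψ β = 1) ∧
        ∃ w ∈ Subgroup.closure {hol ψ u, hol ψ lV}, IsConj w (hol ψ (circ fun θ => Λ (θ, 1))) ∧
          Quad (hol ψ u) (hol ψ lV) w ∧
          (Commute (hol ψ u) (hol ψ lV) → w = hol ψ lV ∨ w = (hol ψ lV)⁻¹)) ∧
      ∀ (Γ N : Type) [Group Γ] [AddCommGroup N] (ρ : Representation ℤ Γ N)
        (ψ : Circle × ℂ → Circle × ℂ → SD ρ), Fl ψ (range P ∪ range β)ᶜ → ∀ U L n, U = hol ψ u →
        L = hol ψ lV → n = hol ψ (circ fun θ => D θ) → L.v = 0 → n.g = 1 →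
        (∀ γ, Commute L.g γ) → ρ L.g U.v = -U.v → ρ L.g n.v = -n.v →
        ∃ (γ : Γ) (c : ℤ) (r₂ : ℤ[X]), c ≠ 0 ∧ aeval z0 r₂ ≠ 0 ∧
          c • (2 • ρ (U.g * U.g) U.v - 3 • ρ U.g U.v + 2 • U.v) =
            aeval (ρ U.g) r₂ (ρ γ n.v) := by
  rw [hP, mazur_eq]
  obtain ⟨u, hu, hu'⟩ := ps_mer
  obtain ⟨Θ, hΘ, hΘ'⟩ := ps_chart
  refine ⟨psP_norm, psP_inj, psP_unknotted, psP_homotopic, u, Θ, psL, psD, psJ ∘ psBt, hu,
    ps_lV_notB, hΘ, psP_track, ps_box, by norm_num [psD], fun G _ ψ hψ => ?_,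
    fun Γ N _ _ ρ ψ hψ U L ν hU hL hν h0 h1 h2 h3 h4 => ?_⟩
  · obtain ⟨B0, B1, Bp, Bm, l, n, m, T, H⟩ := ps_K1.data hψ
    have r1 := H.rel1 ps_K1
    have r2 := H.rel2 ps_K1 hψ (hol_disc hψ ps_box.cD.continuousOn ps_box.DK).symm
    simp only [hΘ']
    rw [hu' G _ ψ B0 B1 Bp Bm l n m T subset_union_left hψ H, H.hol_lV ps_K1 hψ, H.hol_mV ps_K1 hψ,
      H.hol_me ps_K1 hψ, H.hol_long hψ]
    obtain ⟨u, rfl⟩ : ∃ u, n = l * u := ⟨l⁻¹ * n, by group⟩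
    obtain rfl : T = m * (u * l * u * l⁻¹) * l⁻¹ := by
      rw [mul_assoc m, ← inv_mul_eq_iff_eq_mul, ← mul_inv_eq_iff_eq_mul.2
        (show m⁻¹ * T * l = (m⁻¹ * T) * l from rfl), ← r1]
      group
    rw [inv_mul_cancel_left]
    refine ⟨isConj_iff.2 ⟨(B0 (psMe (1, 0)))⁻¹, by group⟩, fun hl => Or.inr ?_,
      fun hc => H.hol_beta hψ (by rwa [inv_mul_cancel_left]), _, ?_,
      isConj_iff.2 ⟨(B0 (1 / 4, 0, 1))⁻¹ * u⁻¹, ?_⟩, ps_quad u l, fun hc => Or.inl ?_⟩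
    · subst hl
      obtain rfl : u = m⁻¹ := by
        convert r2 using 1 <;> group
      group
    · have hu : u ∈ Subgroup.closure {u, l} := Subgroup.subset_closure (by simp)
      have hl : l ∈ Subgroup.closure {u, l} := Subgroup.subset_closure (by simp)
      repeat' refine mul_mem ?_ ?_
      all_goals simp only [hu, hl, inv_mem_iff]
    · group
    · have h1 : ∀ g, g * l * u = g * u * l := fun g => by rw [mul_assoc, ← hc.eq, mul_assoc]
      have h2 : ∀ g, g * l * u⁻¹ = g * u⁻¹ * l := fun g => by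
        rw [mul_assoc, ← hc.inv_left.eq, mul_assoc]
      have h3 : ∀ g, g * l⁻¹ * u = g * u * l⁻¹ := fun g => by
        rw [mul_assoc, ← hc.inv_right.eq, mul_assoc]
      have h4 : ∀ g, g * l⁻¹ * u⁻¹ = g * u⁻¹ * l⁻¹ := fun g => by
        rw [mul_assoc, ← hc.inv_inv.eq, mul_assoc]
      simp only [← hc.eq, h1, h2, h3, h4]
      group
  · obtain ⟨B0, B1, Bp, Bm, l, n, m, T, H⟩ := ps_K0.data hψ
    have r1 := H.rel1 ps_K0
    have r2 := H.rel2 ps_K0 hψ hν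
    have r3 := H.comm
    rw [hu' _ _ ψ B0 B1 Bp Bm l n m T subset_rfl hψ H] at hU
    rw [H.hol_lV ps_K0 hψ] at hL
    subst hL
    obtain rfl : n = L * U := by rw [hU]; group
    refine ⟨1, 2, 2 * (X - 1), two_ne_zero, fun h => ps_z0 ?_,
      ps_alex (Y := T⁻¹) h0 h1 h2 h3 h4 (Commute.inv_right r3).eq ?_⟩
    · simpa [map_ofNat] using congrArg Complex.im h
    · have e1 : U * L * U * L⁻¹ = m⁻¹ * T * L := by rw [← r1]; group
      have e2 : L⁻¹ * U * L * ν = ν * (m⁻¹ * m⁻¹ * L * m) := by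
        rw [← sq, mul_inv_eq_iff_eq_mul.1 r2.symm]
        group
      have e3 : T * L * T⁻¹ = L := by rw [← r3]; group
      rw [e1, e2]
      calc _ = ν * m⁻¹ * (T * L * T⁻¹) * L⁻¹ * m⁻¹ * (T * L) * L := by group
        _ = _ := by rw [e3, ← r3]; group

theorem pside : ∃ P : C(Circle, Circle × ℂ), (∀ θ, ‖(P θ).2‖ < 1) ∧ Function.Injective P ∧
    Unknotted P ∧ ContinuousMap.Homotopic (ContinuousMap.fst.comp P) (ContinuousMap.id Circle) ∧
    ∃ (u : ℝ → Circle × ℂ) (Θ : OpenPartialHomeomorph (ℝ × ℂ) (Circle × ℂ))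
      (Λ : Circle × ℝ → Circle × ℂ) (D : ℂ → Circle × ℂ) (β : ℝ → Circle × ℂ),
      Lp (range P ∪ range β)ᶜ (1, 1) u ∧ (∀ θ : Circle, (θ, 1) ∉ range β) ∧ Chart (range P) Θ ∧
      Track P Λ ∧ Box cV (range P) D β ∧ (D 0).2 ≠ 0 ∧
      (∀ (G : Type) [Group G] (ψ : Circle × ℂ → Circle × ℂ → G), Fl ψ (range P)ᶜ →
        IsConj (hol ψ u) (hol ψ (circ fun θ => Θ (0, θ))) ∧
        (hol ψ lV = 1 → hol ψ mV = hol ψ u ∨ hol ψ mV = (hol ψ u)⁻¹) ∧
        (Commute (hol ψ u) (hol ψ lV) → hol ψ β = 1) ∧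
        ∃ w ∈ Subgroup.closure {hol ψ u, hol ψ lV}, IsConj w (hol ψ (circ fun θ => Λ (θ, 1))) ∧
          Quad (hol ψ u) (hol ψ lV) w ∧
          (Commute (hol ψ u) (hol ψ lV) → w = hol ψ lV ∨ w = (hol ψ lV)⁻¹)) ∧
      ∀ (Γ N : Type) [Group Γ] [AddCommGroup N] (ρ : Representation ℤ Γ N)
        (ψ : Circle × ℂ → Circle × ℂ → SD ρ), Fl ψ (range P ∪ range β)ᶜ → ∀ U L n, U = hol ψ u →
        L = hol ψ lV → n = hol ψ (circ fun θ => D θ) → L.v = 0 → n.g = 1 →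
        (∀ γ, Commute L.g γ) → ρ L.g U.v = -U.v → ρ L.g n.v = -n.v →
        ∃ (γ : Γ) (c : ℤ) (r₂ : ℤ[X]), c ≠ 0 ∧ aeval z0 r₂ ≠ 0 ∧
          c • (2 • ρ (U.g * U.g) U.v - 3 • ρ U.g U.v + 2 • U.v) =
            aeval (ρ U.g) r₂ (ρ γ n.v) :=
  ⟨mazur, pside_mazur _ rfl⟩

end Pool.Agent.MP_b8a826_gt

end

-- part MP_b8a826_gt.Reparam
section

/-! Holonomy along a reparametrised loop. -/

namespace Pool.Agent.MP_b8a826_gt
open Set Real

theorem int_const {f : ℝ → ℝ} (hf : Continuous f) (h : ∀ t, ∃ n : ℤ, f t = n) :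
    ∃ n : ℤ, ∀ t, f t = n := by
  choose g hg using h
  have hc : Continuous g := Int.isClosedEmbedding_coe_real.isInducing.continuous_iff.2
    (by convert hf using 1; exact (funext hg).symm)
  exact ⟨g 0, fun t => by
    rw [hg, isPreconnected_univ.constant hc.continuousOn (mem_univ t) (mem_univ 0)]⟩

theorem exp_two_pi_eq {s t : ℝ} (h : Circle.exp (2 * π * s) = Circle.exp (2 * π * t)) :
    ∃ n : ℤ, s - t = n := by
  obtain ⟨n, hn⟩ := Circle.exp_eq_exp.1 h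
  exact ⟨n, mul_left_cancel₀ two_pi_pos.ne' (by linarith)⟩

theorem exp_two_pi_add (s : ℝ) (n : ℤ) : Circle.exp (2 * π * (s + n)) = Circle.exp (2 * π * s) :=
  Circle.exp_eq_exp.2 ⟨n, by ring⟩

/-- Lift of a self-map of the circle and its degree. -/
theorem exists_lift {k : Circle → Circle} (hk : Continuous k) : ∃ H : ℝ → ℝ, Continuous H ∧
    (∀ t, Circle.exp (2 * π * H t) = k (Circle.exp (2 * π * t))) ∧
    ∃ d : ℤ, ∀ t (n : ℤ), H (t + n) = H t + n * d := by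
  obtain ⟨F, ⟨-, hF⟩, -⟩ := Circle.isCoveringMap_exp.existsUnique_continuousMap_lifts
    (⟨fun t : ℝ => k (Circle.exp (2 * π * t)), by fun_prop⟩ : C(ℝ, Circle)) 0 _ (Circle.exp_arg _)
  have h1 : ∀ t, Circle.exp (2 * π * (F t / (2 * π))) = k (Circle.exp (2 * π * t)) := fun t => by
    rw [mul_div_cancel₀ _ two_pi_pos.ne']; exact congrFun hF t
  obtain ⟨d, hd⟩ := int_const (f := fun t => F (t + 1) / (2 * π) - F t / (2 * π)) (by fun_prop)
    fun t => exp_two_pi_eq (by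
      rw [h1, h1]; exact congrArg k (by simpa using exp_two_pi_add t 1))
  refine ⟨fun t => F t / (2 * π), by fun_prop, h1, d, fun t n => ?_⟩
  induction n using Int.induction_on with
  | zero => simp
  | succ n ih =>
    have := hd (t + n)
    push_cast at ih ⊢
    rw [← add_assoc]; linarith
  | pred n ih =>
    have := hd (t + (-n - 1))
    push_cast at ih ⊢
    rw [show t + (-n - 1) + 1 = t + -n by ring] at this
    linarith

theorem hol_homeo {X G : Type} [TopologicalSpace X] [Group G] {ψ : X → X → G} {U : Set X}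
    (h : Fl ψ U) {f : Circle → X} (hf : Continuous f) (hU : ∀ θ, f θ ∈ U) (k : Circle ≃ₜ Circle) :
    IsConj (hol ψ (circ (f ∘ k))) (hol ψ (circ f)) ∨
      IsConj (hol ψ (circ (f ∘ k))) (hol ψ (circ f))⁻¹ := by
  obtain ⟨H, c1, h1, d, hd⟩ := exists_lift k.continuous
  obtain ⟨H', c2, h2, d', hd'⟩ := exists_lift k.symm.continuous
  obtain ⟨n, hn⟩ := int_const (f := fun t => H' (H t) - t) (by fun_prop)
    fun t => exp_two_pi_eq (by rw [h2, h1, k.symm_apply_apply])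
  have e1 : H 1 = H 0 + d := by simpa using hd 0 1
  have hdd : d * d' = 1 := by
    have a := hn 1
    have b := hn 0
    rw [e1, hd'] at a
    exact_mod_cast (by linarith : (d : ℝ) * d' = 1)
  have cv : Cv U (circ f) := ⟨circ_cont hf, fun _ => hU _⟩
  have e2 : circ (f ∘ k) = circ f ∘ H := funext fun t => congrArg f (h1 t).symm
  have sh : ∀ s, tr (pb (circ f) ψ) univ (s + 1) 1 = tr (pb (circ f) ψ) univ s 0 := fun s => by
    have := tr_reparam h cv (k := fun t => t + 1) (by fun_prop) s 0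
    rw [show (circ f ∘ fun t => t + 1) = circ f from funext fun t =>
      congrArg f (by simpa using exp_two_pi_add t 1), zero_add] at this
    exact this.symm
  have key : ∀ s, IsConj (tr (pb (circ f) ψ) univ s (s + 1)) (hol ψ (circ f)) := fun s =>
    isConj_iff.2 ⟨tr (pb (circ f) ψ) univ 0 s, by rw [tr_inv, ← sh, tr_mul, tr_mul, hol]⟩
  rw [e2, hol, tr_reparam h cv c1, e1]
  rcases Int.eq_one_or_neg_one_of_mul_eq_one hdd with rfl | rfl
  · exact Or.inl (by simpa using key (H 0))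
  · refine Or.inr ?_
    have := key (H 0 + (-1 : ℤ))
    rw [show H 0 + ((-1 : ℤ) : ℝ) + 1 = H 0 by push_cast; ring, ← tr_inv] at this
    obtain ⟨c, hc⟩ := isConj_iff.1 this
    exact isConj_iff.2 ⟨c, by rw [← hc]; group⟩

/-- Two embeddings of the circle with the same image differ by a homeomorphism. -/
theorem exists_homeo {X : Type} [TopologicalSpace X] [T2Space X] {f g : Circle → X}
    (hf : Continuous f) (hg : Continuous g) (fi : Function.Injective f) (gi : Function.Injective g)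
    (h : range f = range g) : ∃ k : Circle ≃ₜ Circle, f = g ∘ k := by
  have ef := (hf.isClosedEmbedding fi).isEmbedding
  have eg := (hg.isClosedEmbedding gi).isEmbedding
  refine ⟨ef.toHomeomorph.trans ((Homeomorph.setCongr h).trans eg.toHomeomorph.symm), ?_⟩
  funext θ
  exact (congrArg Subtype.val (eg.toHomeomorph.apply_symm_apply
    (Homeomorph.setCongr h (ef.toHomeomorph θ)))).symm

end Pool.Agent.MP_b8a826_gt

end

-- part MP_b8a826_gt.Main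
section

/-! Assembly of the proof. -/

namespace Pool.Agent.MP_b8a826_gt
open Set MonoidAlgebra Polynomial

theorem isConj_inv {G : Type} [Group G] {a b : G} (h : IsConj a b) : IsConj a⁻¹ b⁻¹ := by
  obtain ⟨c, rfl⟩ := isConj_iff.1 h
  exact isConj_iff.2 ⟨c, by group⟩

theorem periph' {A : C(Circle × unitInterval, S3 × unitInterval)} (hA : Conc A) (hM : Mer (WA A))
    {G : Type} [Group G] {φ : E4 → E4 → G} (hφ : Coc (WA A) φ) (τ : G →* MZ)
    (h1 : H1 (WA A) fun x y => τ (φ x y)) {K₀ K₁ : Circle → S3} (i₀ : Function.Injective K₀)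
    (i₁ : Function.Injective K₁) (e₀ : (range fun θ => (A (θ, 0)).1) = range K₀)
    (e₁ : (range fun θ => (A (θ, 1)).1) = range K₁) {Λ₀ Λ₁ : Circle × ℝ → S3} (h₀ : Track K₀ Λ₀)
    (h₁ : Track K₁ Λ₁) (t₀ : τ (hol (lev (1 / 2) φ) (circ fun θ => Λ₀ (θ, 1))) = 1)
    (t₁ : τ (hol (lev (5 / 2) φ) (circ fun θ => Λ₁ (θ, 1))) = 1) :
    IsConj (hol (lev (1 / 2) φ) (circ fun θ => Λ₀ (θ, 1)))
      (hol (lev (5 / 2) φ) (circ fun θ => Λ₁ (θ, 1))) ∨
    IsConj (hol (lev (1 / 2) φ) (circ fun θ => Λ₀ (θ, 1)))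
      (hol (lev (5 / 2) φ) (circ fun θ => Λ₁ (θ, 1)))⁻¹ := by
  have key : ∀ (u : unitInterval) (c : unitInterval) (K : Circle → S3) (Λ : Circle × ℝ → S3) (r : ℝ),
      (∀ θ, (A (θ, u)).2 = c) → Function.Injective K → (range fun θ => (A (θ, u)).1) = range K →
      Track K Λ → Fl (lev r φ) (range K)ᶜ → τ (hol (lev r φ) (circ fun θ => Λ (θ, 1))) = 1 →
      ∃ Λ', Track (fun θ => (A (θ, u)).1) Λ' ∧ τ (hol (lev r φ) (circ fun θ => Λ' (θ, 1))) = 1 ∧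
        (IsConj (hol (lev r φ) (circ fun θ => Λ' (θ, 1))) (hol (lev r φ) (circ fun θ => Λ (θ, 1))) ∨
        IsConj (hol (lev r φ) (circ fun θ => Λ' (θ, 1)))
          (hol (lev r φ) (circ fun θ => Λ (θ, 1)))⁻¹) := by
    intro u c K Λ r hc i e h f t
    have cK : Continuous K := by
      rw [← funext h.2.1]; exact h.1.comp (by fun_prop)
    obtain ⟨k, hk⟩ := exists_homeo (f := fun θ => (A (θ, u)).1) (by fun_prop) cK
      (fun a b hab => congrArg Prod.fst (hA.inj (Prod.ext hab ((hc a).trans (hc b).symm)))) i e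
    have := hol_homeo f (f := fun θ => Λ (θ, 1)) (h.1.comp (by fun_prop))
      (fun θ => h.2.2 θ 1 one_pos le_rfl) k
    refine ⟨fun p => Λ (k p.1, p.2), ⟨h.1.comp (by fun_prop), fun θ => ?_, fun θ s a b => ?_⟩,
      ?_, this⟩
    · exact (h.2.1 _).trans (congrFun hk θ).symm
    · rw [e]; exact h.2.2 _ s a b
    · rcases this with h | h
      · exact (isConj_iff_eq.1 (τ.map_isConj h)).trans t
      · exact (isConj_iff_eq.1 (τ.map_isConj h)).trans (by rw [map_inv, t, inv_one])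
  obtain ⟨Λ, a1, a2, a3⟩ := key 0 0 K₀ Λ₀ _ (fun θ => (hA.p0 θ 0).2 rfl) i₀ e₀ h₀
    (e₀ ▸ (endAt_zero hA).fl open_WA le_rfl hφ) t₀
  obtain ⟨Λ', b1, b2, b3⟩ := key 1 1 K₁ Λ₁ _ (fun θ => (hA.p1 θ 1).2 rfl) i₁ e₁ h₁
    (e₁ ▸ (endAt_one hA).fl open_WA (by norm_num) hφ) t₁
  have c := periph hA hM hφ τ h1 a1 b1 a2 b2
  rcases a3 with a | a <;> rcases b3 with b | b
  · exact Or.inl (a.symm.trans (c.trans b))
  · exact Or.inr (a.symm.trans (c.trans b))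
  · exact Or.inr (by simpa using isConj_inv (a.symm.trans (c.trans b)))
  · exact Or.inl (by simpa using isConj_inv (a.symm.trans (c.trans b)))

theorem Gen.of_conj {π : Type} [Group π] (τ : π →* MZ) {a b : π} (h : IsConj a b)
    (hb : Gen (τ b)) : Gen (τ a) := by
  rwa [isConj_iff_eq.1 (τ.map_isConj h)]

theorem Gen.inv {g : MZ} (h : Gen g) : Gen g⁻¹ := by
  rcases h with rfl | rfl
  exacts [Or.inr rfl, Or.inl rfl]

theorem Gen.eq_or {g h : MZ} (hg : Gen g) (hh : Gen h) : g = h ∨ g = h⁻¹ := by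
  rcases hg with rfl | rfl <;> rcases hh with rfl | rfl
  exacts [Or.inl rfl, Or.inr rfl, Or.inr rfl, Or.inl rfl]

theorem pow_fibre {Γ : Type} [Group Γ] (τ : Γ →* MZ) {e : ℕ}
    (he : ∀ g g' : Γ, τ g = τ g' → g ^ e = g' ^ e) {t m b : Γ} (ht : Gen (τ t)) (hm : Gen (τ m))
    (hb : Br m b) : ∃ j : ℤ, t ^ (6 * e) = ((m * b) ^ 3) ^ j := by
  have h1 : τ ((m * b) ^ 3) = τ m ^ 6 := by
    rw [map_pow, map_mul, (hb.tau τ).1, ← sq, ← pow_mul]
  rcases ht.eq_or hm with h | h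
  · exact ⟨e, by rw [pow_mul, he (t ^ 6) ((m * b) ^ 3) (by rw [h1, map_pow, h]), zpow_natCast]⟩
  · refine ⟨-e, ?_⟩
    rw [pow_mul, he (t ^ 6) ((m * b) ^ 3)⁻¹ (by rw [map_inv, h1, map_pow, h, inv_pow]), zpow_neg,
      zpow_natCast, inv_pow]

/-- The torsion statement in the form needed at the pattern end. -/
theorem step2 {π Γ N : Type} [Group π] [Group Γ] [AddCommGroup N] (τ : π →* MZ) (τ' : Γ →* MZ)
    [Finite τ'.ker] {ρ : Representation ℤ Γ N} (k : π →* SD ρ) (q : π →* Γ)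
    (hq : ∀ g, (k g).g = q g) (hτ : ∀ g, τ' (q g) = τ g) (hs : Split ℝ τ)
    {m₀ b₀ m₁ b₁ u l w : π} (h₀ : Br m₀ b₀) (h₁ : Br m₁ b₁) (g₀ : Gen (τ m₀)) (g₁ : Gen (τ m₁))
    (c₀ : (∀ γ, Commute (q (lw m₀ b₀)) γ) ∧ q (lw m₀ b₀) ^ 2 = 1)
    (c₁ : (∀ γ, Commute (q (lw m₁ b₁)) γ) ∧ q (lw m₁ b₁) ^ 2 = 1)
    (hl : l = lw m₀ b₀ ∨ l = (lw m₀ b₀)⁻¹) (hw : IsConj w (lw m₁ b₁) ∨ IsConj w (lw m₁ b₁)⁻¹)
    (hwm : w ∈ Subgroup.closure {u, l}) (hQ : Quad u l w) (hu : Gen (τ u)) {e : ℕ} (he : e ≠ 0)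
    (he' : ∀ g g' : Γ, τ' g = τ' g' → g ^ e = g' ^ e) (cℓ : ∀ γ, Commute (q l) γ)
    (h2 : q l ^ 2 = 1) (cM : ∀ γ, Commute (q u ^ (6 * e)) γ)
    (hA : ∀ U L : SD ρ, U = kap ρ (nu_comm cℓ cM) 1 (k l).v (k u) →
      L = kap ρ (nu_comm cℓ cM) 1 (k l).v (k l) → L.v = 0 → (∀ γ, Commute L.g γ) →
      ρ L.g U.v = -U.v →
      ∃ c : ℤ, c ≠ 0 ∧ c • (2 • ρ (U.g * U.g) U.v - 3 • ρ U.g U.v + 2 • U.v) = 0) :
    ∃ n : ℤ, n ≠ 0 ∧ n • (kap ρ (nu_comm cℓ cM) 1 (k l).v (k u)).v = 0 := by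
  have gl := hq l
  have hlv : (kap ρ (nu_comm cℓ cM) 1 (k l).v (k l)).v = 0 := by
    revert cℓ h2
    rw [← gl]
    exact fun cℓ h2 _ => kap_self ρ cℓ cM h2 1
  have hlu : ρ (k l).g (kap ρ (nu_comm cℓ cM) 1 (k l).v (k u)).v =
      -(kap ρ (nu_comm cℓ cM) 1 (k l).v (k u)).v := by
    rw [gl]; exact kap_neg ρ cℓ cM h2 _ _ _
  obtain ⟨c, hc, hA⟩ := hA _ _ rfl rfl hlv (by rw [kap_g, gl]; exact cℓ) hlu
  have inn : ∀ m b, Br m b → Gen (τ m) → ∃ v, ∀ g ∈ Subgroup.closure {m, b},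
      (kap ρ (nu_comm cℓ cM) 1 (k l).v (k g)).v = ρ (k g).g v - v := fun m b hb hm => by
    obtain ⟨j, hj⟩ := pow_fibre τ' he' (t := q u) (m := q m) (by rwa [hτ]) (by rwa [hτ])
      (hb.map q)
    exact kap_inner k cℓ cM _ hb (j := j) (by rw [hj, hq, map_pow, map_mul])
  exact f3 τ τ' ((kap ρ (nu_comm cℓ cM) 1 (k l).v).comp k) (fun g =>
      (congrArg τ' (hq g)).trans (hτ g)) hs h₀ h₁ (by rw [← hq] at c₀; exact c₀) (by rw [← hq] at c₁; exact c₁)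
    (inn _ _ h₀ g₀) (inn _ _ h₁ g₁) hl hw hwm hQ hu hlv hlu (M := 6 * e) (by omega)
    (by rw [← hq] at cM; exact cM) hc hA

theorem main (P : C(Circle, Circle × ℂ)) (hP : P = mazur) : (∀ θ, ‖(P θ).2‖ < 1) ∧
    Function.Injective P ∧ Unknotted P ∧
    ContinuousMap.Homotopic (ContinuousMap.fst.comp P) (ContinuousMap.id Circle) ∧
    ∃ e : C(Circle × ℂ, S3), Topology.IsOpenEmbedding e ∧ Seifert e ∧
      ¬ Concordant (range (e ∘ P)) (range fun θ => e (θ, 0)) := by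
  obtain ⟨e, he, hS, hbox, σ, DK, βK, hσ, mβ, -, -, BK, K1, K2⟩ := kside
  obtain ⟨hP, Pi, Pu, Ph, u, Θ, Λ, D, β, hu, lβ, hΘ, hΛ, B, D0, P1, P2⟩ := pside_mazur P hP
  refine ⟨hP, Pi, Pu, Ph, e, he, hS, fun h => ?_⟩
  obtain ⟨A, A1, A2, A3, e0, e1, A4⟩ := h
  have hA : Conc A := ⟨A1, A2, A3, A4⟩
  have E0 := endAt_zero hA
  have E1 := endAt_one hA
  rw [e0, range_comp] at E0
  rw [e1] at E1
  have r0 : (1 / 2 : ℝ) ≤ 1 / 2 := le_rfl
  have r1 : (1 / 2 : ℝ) ≤ 5 / 2 := by norm_num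
  obtain ⟨Θ₀, c1, c2⟩ := chart_core
  obtain ⟨Θ₁, c3, c4⟩ := chart_map he c1
  rw [← range_comp] at c3
  obtain ⟨a1, a2, a3, hM⟩ := alex_core hA
    (let ⟨Φ, h, _⟩ := chart_end (Or.inr rfl) r1 E1 c3; ⟨Φ, h⟩)
  have hW : IsOpen (WA A) := open_WA
  obtain ⟨π, _, φ, τ, hφ, h1, up, s2, sR, ⟨Δ, hΔ, kΔ⟩, hur, grp⟩ :=
    univ_pack ⟨hW, a1, a2, a3, fd_WA hA⟩
  have ei := he.injective
  have XKm : ∀ x : Circle × ℂ, 1 ≤ ‖x.2‖ → e x ∈ XK e := fun x hx h =>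
    absurd (ei.mem_set_image.1 h) (not_lt.2 hx)
  have X0 : XK e ⊆ (e '' range P)ᶜ := compl_subset_compl.2 (image_mono (by
    rintro _ ⟨θ, rfl⟩; exact hP θ))
  have X1 : XK e ⊆ (range fun θ => e (θ, 0))ᶜ := compl_subset_compl.2 (by
    rintro _ ⟨θ, rfl⟩; exact ⟨_, by simp, rfl⟩)
  have cm : Cv (XK e \ range βK) (e ∘ mV) := ⟨e.continuous.comp (circ_cont (by fun_prop)),
    fun t => ⟨XKm _ (Circle.norm_coe _).ge, mβ _⟩⟩
  have cl : Cv (XK e) (e ∘ lV) := ⟨e.continuous.comp (circ_cont (by fun_prop)),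
    fun t => XKm _ (by simp [lV, circ])⟩
  have cm' : Cv (XK e) (e ∘ mV) := cm.mono sdiff_subset
  have nP : ∀ x, x ∉ range P → e x ∉ e '' range P := fun x hx h => hx (ei.mem_set_image.1 h)
  have f0 := E0.fl hW r0 hφ
  have f1 := E1.fl hW r1 hφ
  have fP : Fl (pb e (lev (1 / 2) φ)) (range P)ᶜ := f0.pb e.continuous.continuousOn nP
  have lP : Cv (range P ∪ range β)ᶜ lV := ⟨circ_cont (by fun_prop), fun t h => h.elim
    (fun ⟨θ, h⟩ => by simpa [h, lV, circ] using hP θ) (lβ _)⟩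
  have kK : (range P ∪ range β)ᶜ ⊆ (range P)ᶜ := compl_subset_compl.2 subset_union_left
  have mP : Cv (range P)ᶜ mV := ⟨circ_cont (by fun_prop),
    fun t ⟨θ, h⟩ => (hP θ).ne (by rw [h]; exact Circle.norm_coe _)⟩
  have cΛ : Cv (range P)ᶜ (circ fun θ => Λ (θ, 1)) :=
    ⟨circ_cont (hΛ.1.comp (by fun_prop)), fun t => hΛ.2.2 _ _ one_pos le_rfl⟩
  obtain ⟨b0, l0, -⟩ := K1 _ _ (f0.mono X0)
  obtain ⟨b1, l1, -⟩ := K1 _ _ (f1.mono X1)
  have hτφ := hφ.map τ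
  -- meridians
  have g1' : Gen (hol (lev (5 / 2) fun x y => τ (φ x y)) (e ∘ mV)) := by
    have := mer_end (Or.inr rfl) r1 E1 hM hτφ h1 c3
    simp only [c4, c2] at this
    exact this
  have g1 : Gen (τ (hol (lev (5 / 2) φ) (e ∘ mV))) := by
    rw [← hol_map (f1.mono X1) cm' τ]; exact g1'
  have gu : Gen (τ (hol (pb e (lev (1 / 2) φ)) u)) := by
    obtain ⟨Θ₁, c3, c4⟩ := chart_map he hΘ
    have := mer_end (Or.inl rfl) r0 E0 hM hτφ h1 c3
    simp only [c4] at this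
    refine Gen.of_conj τ (P1 _ _ fP).1 ?_
    have hs : ∀ θ : Circle, ((0 : ℝ), (θ : ℂ)) ∈ Θ.source := fun θ => hΘ.1 (by simp)
    have cv : Cv (range P)ᶜ (circ fun θ : Circle => Θ (0, θ)) :=
      ⟨circ_cont (Θ.continuousOn.comp_continuous (by fun_prop) hs), fun t h =>
        Circle.coe_ne_zero _ ((hΘ.2 _ (hs _)).1 h)⟩
    rw [← hol_map fP cv τ]
    exact this
  have τl : ∀ {m b l : π}, Br m b → l = lw m b ∨ l = (lw m b)⁻¹ → τ l = 1 := by
    rintro m b l hb (rfl | rfl)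
    · exact (hb.tau τ).2
    · rw [map_inv, (hb.tau τ).2, inv_one]
  obtain ⟨-, p2, -, w', -, p3, -, p4⟩ := P1 _ _ (fP.map τ)
  rw [hol_map fP (lP.mono kK), hol_map fP (hu.1.mono kK)] at p2 p4
  rw [hol_map fP mP] at p2
  rw [hol_map fP cΛ] at p3
  have g0 : Gen (τ (hol (lev (1 / 2) φ) (e ∘ mV))) := by
    rcases p2 (τl b0 l0) with h | h
    · exact h ▸ gu
    · exact h ▸ gu.inv
  have τΛ : τ (hol (pb e (lev (1 / 2) φ)) (circ fun θ => Λ (θ, 1))) = 1 := by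
    rw [← isConj_iff_eq.1 p3]
    have : τ (hol (pb e (lev (1 / 2) φ)) lV) = 1 := τl b0 l0
    rcases p4 (Commute.all _ _) with h | h <;> rw [h, this]
    exact inv_one
  -- the two longitudes
  have per : IsConj (hol (pb e (lev (1 / 2) φ)) (circ fun θ => Λ (θ, 1)))
      (lw (hol (lev (5 / 2) φ) (e ∘ mV)) (hol (lev (5 / 2) φ) σ)) ∨
      IsConj (hol (pb e (lev (1 / 2) φ)) (circ fun θ => Λ (θ, 1)))
      (lw (hol (lev (5 / 2) φ) (e ∘ mV)) (hol (lev (5 / 2) φ) σ))⁻¹ := by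
    have := periph' hA hM hφ τ h1 (ei.comp Pi) (fun a b h => congrArg Prod.fst (ei h)) e0 e1
      (Λ₀ := e ∘ Λ) (Λ₁ := fun p => e (p.1, p.2))
      ⟨e.continuous.comp hΛ.1, fun θ => congrArg e (hΛ.2.1 θ), fun θ s a b h =>
        nP _ (hΛ.2.2 θ s a b) (by rwa [← range_comp])⟩
      (by
        refine ⟨by fun_prop, fun θ => by simp, fun θ s a b ⟨θ', h⟩ => ?_⟩
        have := congrArg Prod.snd (ei h)
        simp only [eq_comm (a := (0 : ℂ)), Complex.ofReal_eq_zero] at this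
        exact a.ne' this) τΛ (by simp only [Complex.ofReal_one]; exact τl b1 l1)
    simp only [Complex.ofReal_one] at this
    have this : IsConj _ (hol (lev (5 / 2) φ) (e ∘ lV)) ∨
      IsConj _ (hol (lev (5 / 2) φ) (e ∘ lV))⁻¹ := this
    rcases l1 with h | h <;> rw [h] at this
    · exact this
    · rw [inv_inv] at this
      exact this.symm
  -- the finite quotient
  obtain ⟨k₂, a₂, k1, k2, k3⟩ := up _ _ _ (SD.snd _) τ (coc_Mg (R := ZMod 2) hτφ) fun _ _ _ => rfl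
  obtain ⟨fin, hur⟩ := hur k₂ a₂ k1 k2 k3
  have cK1 : IsClosed (range fun θ => e (θ, 0)) := (isCompact_range (by fun_prop)).isClosed
  have st1 := step1 hW zero_notMem_WA cK1 (Or.inr rfl) r1 E1 hτφ hΔ kΔ X1 cm hσ.1 BK g1'
    (fun G _ ψ h => ⟨(K1 G ψ h).1, (K1 G ψ h).2.2⟩) K2
  obtain ⟨Γ, _, q, τ', qs, hτ', _, pg, ne1, cen⟩ := f2 τ k₂ k1 fin hur s2 b1 g1 (fun h => st1 (by
    have h3 : k₂ (hol (lev (5 / 2) φ) σ * (hol (lev (5 / 2) φ) (e ∘ mV))⁻¹) = 1 :=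
      SD.ext h ((k1 _).trans (by rw [map_mul, map_inv, (b1.tau τ).1, mul_inv_cancel]; rfl))
    rw [map_mul, map_inv, mul_inv_eq_one] at h3
    rw [hol_lev_gauge hW hφ k₂ k3 hσ.1.1 fun t => E1.mem r1 (X1 (hσ.1.2 t).1),
      hol_lev_gauge hW hφ k₂ k3 cm.1 fun t => E1.mem r1 (X1 (cm.2 t).1), h3, hσ.2.1, hσ.2.2,
      mul_inv_eq_one]
    simp [mV, circ_zero, circ_one]))
  have c0 := cen _ _ b0 g0
  have c1 := cen _ _ b1 g1
  have cℓ : (∀ γ, Commute (q (hol (pb e (lev (1 / 2) φ)) lV)) γ) ∧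
      q (hol (pb e (lev (1 / 2) φ)) lV) ^ 2 = 1 := by
    rcases l0 with h | h <;> rw [hol_pb, h]
    · exact c0
    · rw [map_inv, inv_pow, c0.2, inv_one]
      exact ⟨fun γ => (c0.1 γ).inv_left, rfl⟩
  have n1 : q (hol (pb e (lev (1 / 2) φ)) lV) ≠ 1 := fun h => by
    obtain ⟨-, -, -, w', -, p3, -, p4⟩ := P1 _ _ (fP.map q)
    rw [hol_map fP (lP.mono kK), h, inv_one, or_self] at p4
    rw [hol_map fP cΛ, p4 (Commute.one_right _)] at p3
    rcases per with h | h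
    · exact ne1 (isConj_one_right.1 (p3.trans (q.map_isConj h)))
    · have := isConj_one_right.1 (p3.trans (q.map_isConj h))
      exact ne1 (by rwa [map_inv, inv_eq_one] at this)
  obtain ⟨n, n0, cn, hn⟩ := exists_cent τ'
  have cM : ∀ γ, Commute (q (hol (pb e (lev (1 / 2) φ)) u) ^ (6 * n)) γ := fun γ => by
    rw [pow_mul]; exact cn _ γ
  have hqφ := hφ.map q
  obtain ⟨p, hp, kp⟩ := grp Γ q τ' _ qs hτ' ‹_› pg cM (by
    rw [map_pow, hτ']
    rcases gu with h | h <;> rw [h, ← ofAdd_nsmul, Ne, ofAdd_eq_one] <;> simp [n0])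
  obtain ⟨k, a, k1, k2, k3⟩ := up _ _ _ (SD.snd _) q (coc_Mg (R := ℤ) hqφ) fun _ _ _ => rfl
  obtain ⟨-, -, -, w, wm, wc, wQ, -⟩ := P1 _ _ fP
  let k₀ := (MulAut.conj (a ((1 / 2 : ℝ) • (e (1, 1)).1))⁻¹).toMonoidHom.comp k
  have a0 : (a ((1 / 2 : ℝ) • (e (1, 1)).1)).g = 1 := k2 _ (E0.mem r0 (X0 (XKm _ (by simp))))
  have hk₀ : ∀ c, Lp (range P)ᶜ (1, 1) c → hol (lev (1 / 2) (Mg ℤ (fun x y => q (φ x y)) (WA A)))
      (e ∘ c) = k₀ (hol (pb e (lev (1 / 2) φ)) c) := fun c hc => by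
    rw [hol_lev_gauge hW hφ k k3 (e.continuous.comp hc.1.1) fun t => E0.mem r0 (nP _ (hc.1.2 t))]
    simp only [Function.comp, hc.2.1, hc.2.2, k₀, MonoidHom.comp_apply, MulEquiv.coe_toMonoidHom,
      MulAut.conj_apply, inv_inv]
    rfl
  have uk := hk₀ u ⟨hu.1.mono kK, hu.2⟩
  have lk := hk₀ lV ⟨lP.mono kK, circ_zero _, circ_one _⟩
  have fW := (E0.fl hW r0 (coc_Mg (R := ℤ) hqφ)).pb e.continuous.continuousOn nP
  have cD : Cv (range P)ᶜ (circ fun θ : Circle => D θ) :=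
    ⟨circ_cont (B.cD.comp (by fun_prop)), fun t => B.DK _ (Circle.norm_coe _).le⟩
  obtain ⟨n', n0', hn'⟩ := step2 τ τ' k₀ q
    (fun g => by
      have : (k g).g = q g := k1 g
      have e1 : (k₀ g).g = (a ((1 / 2 : ℝ) • (e (1, 1)).1)).g⁻¹ * (k g).g *
        (a ((1 / 2 : ℝ) • (e (1, 1)).1)).g⁻¹⁻¹ := rfl
      exact e1.trans (by rw [a0, this]; simp)) hτ' sR b0 b1 g0 g1 c0 c1 l0
    (per.imp wc.trans wc.trans) wm wQ gu n0 hn cℓ.1 cℓ.2 cM
    (fun U L hU hL h1 h2 h3 => by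
      have fk := fW.map (kap _ (nu_comm cℓ.1 cM) 1 (k₀ (hol (pb e (lev (1 / 2) φ)) lV)).v)
      have hd := hol_disc fk B.cD.continuousOn B.DK
      obtain ⟨γ, c, r₂, hc, -, h⟩ := P2 _ _ _ _ (fk.mono kK) U L 1
        (hU.trans ((congrArg _ uk.symm).trans (hol_map fW (hu.1.mono kK) _).symm))
        (hL.trans ((congrArg _ lk.symm).trans (hol_map fW (lP.mono kK) _).symm)) hd.symm h1 rfl h2
        h3 (by simp)
      exact ⟨c, hc, h.trans (by simp)⟩)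
  refine step3 e.continuous ei hW zero_notMem_WA
    ((isCompact_range P.continuous).image e.continuous).isClosed (Or.inl rfl) r0 E0 hqφ hu.1 lP
    (hbox _ _ _ B D0) B.cb B.cD τ' (hol_map fP (hu.1.mono kK) q) (hol_map fP (lP.mono kK) q)
    (by rwa [hτ']) (by rw [hτ']; exact τl b0 l0) n1 cℓ.2 cℓ.1 (by omega) cM hp kp n0' ?_
    (fun G _ ψ h => (P1 G ψ h).2.2.1) P2
  exact uk ▸ lk ▸ hn'

end Pool.Agent.MP_b8a826_gt

end
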